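import Pool.Agent.H6.CL.BtT

/-! The closed bootstrap. Some finite `B0` has `ShB R B0 Ψ` (the integrals over all shells are at most the integrals over the ball of radius `R + 2`: `sI_T`, `sI_ce`, `sI_cn`, `out_T`, `out_ce`, `out_cn`, nonnegativity). By `btT`, `btN`, `btC` with `η = 1/2`, `ShB R B Ψ` implies `ShB R (B / 2 + C) Ψ`; iterate: `ShB R (B0 / 2 ^ m + 2 C) Ψ`, and take `m` with `B0 ≤ 2 ^ m`. -/

open MeasureTheory Finset

namespace H6.CL

open H6.CM H6.CB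

private theorem bt_sub (r : ℝ) : A r ⊆ Metric.ball (0 : E3) (r + 1) := fun v hv => by
  rw [Metric.mem_ball, dist_zero_right]
  exact hv.2

/-- the integral over a shell of a function with bounded support -/
private theorem bt_fin {G : E3 → ℝ} {R : ℝ} (hG : ∀ v, 0 ≤ G v)
    (hi : ∀ s, IntegrableOn G (Metric.ball 0 s)) (ho : ∀ v, R + 1 ≤ ‖v‖ → G v = 0) (r : ℝ) :
    ∫ v in A r, G v ≤ ∫ v in Metric.ball 0 (R + 2), G v := by
  have h1 : ∫ v in A r, G v = ∫ v in A r ∩ Metric.ball 0 (R + 2), G v := by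
    refine setIntegral_eq_of_subset_of_forall_sdiff_eq_zero (A_meas r) Set.inter_subset_left
      fun v hv => ?_
    refine ho v ?_
    have h2 : v ∉ Metric.ball (0 : E3) (R + 2) := fun h => hv.2 ⟨hv.1, h⟩
    rw [Metric.mem_ball, dist_zero_right, not_lt] at h2
    linarith
  rw [h1]
  exact setIntegral_mono_set (hi _) (Filter.Eventually.of_forall fun v => hG v)
    (Filter.Eventually.of_forall fun v hv => hv.2)

theorem bt (q : ℕ) (Ci zm zp : ℝ) (hzm : 0 < zm) (hCi : 0 ≤ Ci) {χ θ : E3 → ℝ}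
    (hχ : Bump χ) (hθ : Cut θ) :
    ∃ C : ℝ, 0 ≤ C ∧ ∀ (ι : Type) (_ : Fintype ι) (n k : ℕ) (R : ℝ) (_ : 100 ≤ R)
    (z : Fin k → ℝ) (W : Finset E3) (Ψ : ι → (Fin n → Fin q) → Cfg n k → ℂ)
    (_ : Ine Ci zm zp q n k R z W χ θ Ψ), ShB R C Ψ := by
  obtain ⟨C1, hC1, h1⟩ := btT q Ci zm zp hzm hCi hχ hθ (1 / 2) (by norm_num)
  obtain ⟨C2, hC2, h2⟩ := btN q Ci zm zp hzm hCi hχ hθ (1 / 2) (by norm_num)
  obtain ⟨C3, hC3, h3⟩ := btC Ci zm zp hzm hχ hθ (1 / 2) (by norm_num)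
  obtain ⟨C, hCe⟩ : ∃ C : ℝ, C = C1 + C2 + C3 := ⟨_, rfl⟩
  have hC : 0 ≤ C := by rw [hCe]; positivity
  refine ⟨1 + 2 * C, by positivity, ?_⟩
  intro ι _ n k R hR z W Ψ hI
  have hsm : ∀ i, Sm q n k (Metric.ball 0 R) (Ψ i) := fun i => St_sm (hI.st i)
  have hR2 : (0 : ℝ) < R ^ 2 := by positivity
  have step : ∀ B, ShB R B Ψ → ShB R (B / 2 + C) Ψ := by
    intro B hB
    have hu : ∀ D : ℝ, D ≤ C → (1 / 2 * B + D) * R ^ 2 ≤ (B / 2 + C) * R ^ 2 := fun D hD =>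
      mul_le_mul_of_nonneg_right (by linarith) hR2.le
    exact ⟨fun r hr => (h1 ι _ n k R hR z W Ψ hI B hB r hr).trans (hu C1 (by linarith)),
      fun r hr => (h2 ι _ n k R hR z W Ψ hI B hB r hr).trans (hu C2 (by linarith)),
      fun r hr => (h3 ι _ q n k R hR z W Ψ hI B hB r hr).trans (hu C3 (by linarith))⟩
  -- a first finite bound
  obtain ⟨B0, hB0⟩ : ∃ B0, ShB R B0 Ψ := by
    have b1 : ∀ r, ∫ v in A r, TM Ψ v 1 ≤ ∫ v in Metric.ball 0 (R + 2), TM Ψ v 1 := fun r =>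
      bt_fin (fun v => TM_nonneg Ψ v 1) (fun s => sI_T hsm 1 s) (fun v hv => out_T hsm v 1 hv) r
    have b2 : ∀ r, ∫ v in A r, mM Ψ (fun p => ce p v 1 ^ (5 / 3 : ℝ)) ≤
        ∫ v in Metric.ball 0 (R + 2), mM Ψ (fun p => ce p v 1 ^ (5 / 3 : ℝ)) := fun r =>
      bt_fin (fun v => mM_nonneg Ψ fun p => Real.rpow_nonneg (ce_nonneg p v 1) _)
        (fun s => sI_ce hsm 1 (5 / 3) s (by norm_num))
        (fun v hv => out_ce hsm v 1 (5 / 3) (by norm_num) hv) r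
    have b3 : ∀ r, ∫ v in A r, mM Ψ (fun p => cn p v 1) ≤
        ∫ v in Metric.ball 0 (R + 2), mM Ψ (fun p => cn p v 1) := fun r => by
      refine bt_fin (fun v => mM_nonneg Ψ fun p => cn_nonneg p v 1) (fun s => ?_)
        (fun v hv => ?_) r
      · have h4 := sI_cn hsm 1 1 s (by norm_num)
        simp only [Real.rpow_one] at h4
        exact h4
      · have h4 := out_cn hsm v 1 1 (by norm_num) hv
        simp only [Real.rpow_one] at h4
        exact h4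
    obtain ⟨X, hX⟩ : ∃ X : ℝ, X = ∫ v in Metric.ball 0 (R + 2), TM Ψ v 1 := ⟨_, rfl⟩
    obtain ⟨Y, hY⟩ : ∃ Y : ℝ, Y = ∫ v in Metric.ball 0 (R + 2),
      mM Ψ (fun p => ce p v 1 ^ (5 / 3 : ℝ)) := ⟨_, rfl⟩
    obtain ⟨Z, hZ⟩ : ∃ Z : ℝ, Z = ∫ v in Metric.ball 0 (R + 2), mM Ψ (fun p => cn p v 1) :=
      ⟨_, rfl⟩
    refine ⟨(|X| + |Y| + |Z|) / R ^ 2, ?_, ?_, ?_⟩
    · intro r _
      rw [div_mul_cancel₀ _ hR2.ne']
      refine (b1 r).trans ?_
      rw [← hX]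
      linarith [le_abs_self X, abs_nonneg Y, abs_nonneg Z]
    · intro r _
      rw [div_mul_cancel₀ _ hR2.ne']
      refine (b2 r).trans ?_
      rw [← hY]
      linarith [le_abs_self Y, abs_nonneg X, abs_nonneg Z]
    · intro r _
      rw [div_mul_cancel₀ _ hR2.ne']
      refine (b3 r).trans ?_
      rw [← hZ]
      linarith [le_abs_self Z, abs_nonneg X, abs_nonneg Y]
  -- iteration
  have hit : ∀ m : ℕ, ShB R (|B0| / 2 ^ m + 2 * C) Ψ := by
    intro m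
    induction m with
    | zero =>
      have hu : B0 * R ^ 2 ≤ (|B0| / 2 ^ 0 + 2 * C) * R ^ 2 := by
        refine mul_le_mul_of_nonneg_right ?_ hR2.le
        rw [pow_zero, div_one]
        linarith [le_abs_self B0]
      exact ⟨fun r hr => (hB0.t r hr).trans hu, fun r hr => (hB0.e r hr).trans hu,
        fun r hr => (hB0.c r hr).trans hu⟩
    | succ m ih =>
      have h4 := step _ ih
      have h5 : (|B0| / 2 ^ m + 2 * C) / 2 + C = |B0| / 2 ^ (m + 1) + 2 * C := by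
        rw [pow_succ]
        field_simp
        ring
      rwa [h5] at h4
  obtain ⟨m, hm⟩ := pow_unbounded_of_one_lt |B0| (by norm_num : (1 : ℝ) < 2)
  have h4 := hit m
  have hu : (|B0| / 2 ^ m + 2 * C) * R ^ 2 ≤ (1 + 2 * C) * R ^ 2 := by
    refine mul_le_mul_of_nonneg_right ?_ hR2.le
    have h5 : |B0| / 2 ^ m ≤ 1 := by
      rw [div_le_one (by positivity)]
      exact hm.le
    linarith
  exact ⟨fun r hr => (h4.t r hr).trans hu, fun r hr => (h4.e r hr).trans hu,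
    fun r hr => (h4.c r hr).trans hu⟩

end H6.CL
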