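import Pool.Agent.H6.CL.JLay
import Pool.Agent.H6.CB.Poten
import Pool.Agent.H6.CB.UhF

/-! The charge balance of the boundary layer. Let `K v = 1 - JL (R + 30) v` (smooth, compact support, `1` for `‖v‖ ≤ R - 11`, `0` for `R - 10 ≤ ‖v‖`) and `m v = -(4 π)⁻¹ lap K v` (bounded by `L`, supported in the closed shell between `R - 11` and `R - 10`, `∫ m = 0`). By `green`, `pot m = K`, so `∫ v, m v * UU χ 1 (v - y) = ∫ w, μ w * K (y + w) =: K' y`, where `μ` is the convolution of `χ ^ 2` with itself, a probability density supported in the unit ball (`UU_dbl`, Fubini). Hence `0 ≤ K' ≤ 1`, `K' y = 0` for `R - 9 ≤ ‖y‖`, `K' y = 1` for `‖y‖ ≤ R - 12`. By linearity `∑ j, z j K' (R j) - ∑ a, K' (x a) = ∫ v, m v * ph χ 1 z p v = ∫ v, m v * uh χ 1 W z p v`, and by neutrality `∑ j, z j (1 - K' (R j)) = ∑ a, (1 - K' (x a)) - ∫ v, m v * uh χ 1 W z p v`. -/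

open MeasureTheory Finset

namespace H6.CL

open H6.CM H6.CB

private theorem chb_pd (d : Fin 3) (ρ : E3 → ℝ) (hρ : Cc ρ) : Cc (pd d ρ) := by
  constructor
  · unfold pd
    exact (hρ.1.fderiv_right (m := (⊤ : ℕ∞)) (by simp)).clm_apply contDiff_const
  · have h1 : HasCompactSupport (fderiv ℝ ρ) := hρ.2.fderiv ℝ
    exact h1.comp_left (g := fun L : E3 →L[ℝ] ℝ => L (EuclideanSpace.single d 1)) (by simp)

private theorem chb_add (ρ σ : E3 → ℝ) (hρ : Cc ρ) (hσ : Cc σ) : Cc (fun x => ρ x + σ x) :=
  ⟨hρ.1.add hσ.1, hρ.2.add hσ.2⟩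

private theorem chb_lap (ρ : E3 → ℝ) (hρ : Cc ρ) : Cc (lap ρ) := by
  have h : ∀ d : Fin 3, Cc (pd d (pd d ρ)) := fun d => chb_pd d _ (chb_pd d ρ hρ)
  have e : lap ρ = fun v => pd 0 (pd 0 ρ) v + pd 1 (pd 1 ρ) v + pd 2 (pd 2 ρ) v := by
    funext v
    unfold lap
    rw [Fin.sum_univ_three]
  rw [e]
  exact chb_add _ _ (chb_add _ _ (h 0) (h 1)) (h 2)

private theorem chb_aff (d : Fin 3) (J : E3 → ℝ) (hJ : Differentiable ℝ J) (c : ℝ) :
    pd d (fun v => c * (1 - J v)) = fun v => -c * pd d J v := by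
  funext v
  unfold pd
  have h1 : HasFDerivAt (fun v => c * (1 - J v)) (c • (-(fderiv ℝ J v))) v :=
    ((hJ v).hasFDerivAt.const_sub 1).const_mul c
  rw [h1.fderiv]
  show c * (-(fderiv ℝ J v (EuclideanSpace.single d 1))) = _
  ring

private theorem chb_cm (d : Fin 3) (J : E3 → ℝ) (hJ : Differentiable ℝ J) (c : ℝ) :
    pd d (fun v => c * J v) = fun v => c * pd d J v := by
  funext v
  unfold pd
  have h1 : HasFDerivAt (fun v => c * J v) (c • (fderiv ℝ J v)) v :=
    (hJ v).hasFDerivAt.const_mul c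
  rw [h1.fderiv]
  rfl

private theorem chb_lapJ (J : E3 → ℝ) (hJ : ContDiff ℝ (⊤ : ℕ∞) J) (c : ℝ) (v : E3) :
    lap (fun v => c * (1 - J v)) v = -c * lap J v := by
  have hd : Differentiable ℝ J := hJ.differentiable (by simp)
  have hp : ∀ d, Differentiable ℝ (pd d J) := by
    intro d
    have h1 : ContDiff ℝ (⊤ : ℕ∞) (pd d J) := by
      unfold pd
      exact (hJ.fderiv_right (m := (⊤ : ℕ∞)) (by simp)).clm_apply contDiff_const
    exact h1.differentiable (by simp)
  unfold lap
  rw [mul_sum]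
  refine sum_congr rfl fun d _ => ?_
  rw [chb_aff d J hd c, chb_cm d _ (hp d) (-c)]

private theorem chb_int0 (f : E3 → ℝ) (hf : Cc f) : ∫ v, lap f v = 0 := by
  have h1 : ∀ d : Fin 3, ∫ v, pd d (pd d f) v = 0 := by
    intro d
    have h2 := ibp d (fun _ => 1) (pd d f) contDiff_const (chb_pd d f hf)
    simp only [one_mul] at h2
    rw [h2]
    have h3 : ∀ v, pd d (fun _ : E3 => (1 : ℝ)) v = 0 := by
      intro v
      unfold pd
      simp
    simp only [h3, zero_mul, integral_zero, neg_zero]
  have hi : ∀ d : Fin 3, Integrable (pd d (pd d f)) := by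
    intro d
    have h2 := chb_pd d _ (chb_pd d f hf)
    exact h2.1.continuous.integrable_of_hasCompactSupport h2.2
  unfold lap
  rw [integral_finsetSum _ fun d _ => hi d]
  exact sum_eq_zero fun d _ => h1 d

private theorem chb_shift (c : E3 → ℝ) (v t : E3) :
    pot (fun x => c (x - t)) v = pot c (v - t) := by
  unfold pot
  rw [← integral_sub_right_eq_self (fun u => c u * ‖v - t - u‖⁻¹) t]
  congr 1
  funext u
  congr 3
  abel

/-- the smeared potential against a Laplacian -/
private theorem chb_key {χ : E3 → ℝ} (hχ : Bump χ) (f : E3 → ℝ) (hf : Cc f) (y : E3) :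
    ∫ v, (-lap f v) * UU χ 1 (v - y) =
      ∫ w, chr χ 1 w ^ 2 * (4 * Real.pi * ∫ x, f x * chr χ 1 (x - (y + w)) ^ 2) := by
  obtain ⟨c, hc⟩ : ∃ c : E3 → ℝ, c = fun w => chr χ 1 w ^ 2 := ⟨_, rfl⟩
  have hcc : Cc c := by
    rw [hc]
    refine ⟨(chr_smooth hχ 1 one_pos).pow 2, ?_⟩
    refine HasCompactSupport.intro (isCompact_closedBall (0 : E3) (1 / 2)) fun w hw => ?_
    have h0 : chr χ 1 w = 0 := by
      by_contra h0
      apply hw
      rw [Metric.mem_closedBall, dist_zero_right]
      exact (chr_supp hχ 1 one_pos w h0).le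
    simp only [h0]
    norm_num
  have hpc : Continuous (pot c) := (pot_smooth c hcc).continuous
  have hm : Cc (lap f) := chb_lap f hf
  have hm' : Continuous (lap f) := hm.1.continuous
  have hc' : Continuous c := hcc.1.continuous
  have hU : ∀ v, UU χ 1 v = ∫ w, c w * pot c (v - w) := by
    intro v
    unfold UU U pot
    rw [hc]
  have hI : Integrable (fun u : E3 × E3 => (-lap f u.1) * (c u.2 * pot c (u.1 - y - u.2))) := by
    apply Continuous.integrable_of_hasCompactSupport
    · exact ((hm'.comp continuous_fst).neg).mul ((hc'.comp continuous_snd).mul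
        (hpc.comp ((continuous_fst.sub continuous_const).sub continuous_snd)))
    · refine HasCompactSupport.intro (hm.2.isCompact.prod hcc.2.isCompact) ?_
      intro u hu
      rw [Set.mem_prod, not_and_or] at hu
      rcases hu with hu | hu
      · rw [image_eq_zero_of_notMem_tsupport hu]
        simp
      · rw [image_eq_zero_of_notMem_tsupport hu]
        simp
  have e1 : ∫ v, (-lap f v) * UU χ 1 (v - y) =
      ∫ v, ∫ w, (-lap f v) * (c w * pot c (v - y - w)) := by
    congr 1
    funext v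
    rw [hU, ← integral_const_mul]
  have e2 : ∫ v, ∫ w, (-lap f v) * (c w * pot c (v - y - w)) =
      ∫ w, ∫ v, (-lap f v) * (c w * pot c (v - y - w)) :=
    integral_integral_swap (f := fun v w => (-lap f v) * (c w * pot c (v - y - w))) hI
  rw [e1, e2]
  congr 1
  funext w
  have e3 : ∀ v, (-lap f v) * (c w * pot c (v - y - w)) =
      c w * ((-lap f v) * pot (fun x => c (x - (y + w))) v) := by
    intro v
    rw [chb_shift, sub_sub]
    ring
  simp only [e3]
  rw [integral_const_mul]
  have hcs : Cc (fun x => c (x - (y + w))) := by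
    refine ⟨hcc.1.comp (contDiff_id.sub contDiff_const), ?_⟩
    exact hcc.2.comp_homeomorph (Homeomorph.subRight (y + w))
  have e4 := Dd_lap f _ hf hcs
  unfold Dd at e4
  rw [e4]
  simp only [hc]

theorem chb {χ : E3 → ℝ} (hχ : Bump χ) : ∃ C : ℝ, 0 ≤ C ∧
    ∀ (n k : ℕ) (z : Fin k → ℝ) (_ : ∀ j, 0 ≤ z j) (_ : ∑ j, z j = n) (W : Finset E3)
    (p : Cfg n k) (R : ℝ) (_ : 100 ≤ R),
    ∑ j, z j * (if R - 9 ≤ ‖p.2 j‖ then 1 else 0) ≤
      ∑ a, (if R - 12 ≤ ‖p.1 a‖ then 1 else 0) +
        C * ∫ v in shc (R - 11) (R - 10), |uh χ 1 W z p v| := by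
  obtain ⟨L, hL, hJ⟩ := JL_lay
  have hpi : 0 < (4 * Real.pi)⁻¹ := by positivity
  refine ⟨(4 * Real.pi)⁻¹ * L, by positivity, ?_⟩
  intro n k z hz hzn W p R hR
  obtain ⟨hlay, hJ0, hJ1, hsh, -⟩ := hJ (R + 30) (by linarith)
  obtain ⟨f, hf⟩ : ∃ f : E3 → ℝ, f = fun v => (4 * Real.pi)⁻¹ * (1 - JL (R + 30) v) := ⟨_, rfl⟩
  have hcf : Cc f := by
    rw [hf]
    exact ⟨contDiff_const.mul (contDiff_const.sub hlay.smooth), hlay.cpt.mul_left⟩
  have hlf : ∀ v, -lap f v = (4 * Real.pi)⁻¹ * lap (JL (R + 30)) v := by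
    intro v
    rw [hf, chb_lapJ _ hlay.smooth]
    ring
  have hcl : Cc (lap f) := chb_lap f hcf
  -- the averaged cutoff
  obtain ⟨K1, hK1⟩ : ∃ K1 : E3 → ℝ,
    K1 = fun t => 4 * Real.pi * ∫ x, f x * chr χ 1 (x - t) ^ 2 := ⟨_, rfl⟩
  obtain ⟨K', hK'⟩ : ∃ K' : E3 → ℝ, K' = fun y => ∫ w, chr χ 1 w ^ 2 * K1 (y + w) := ⟨_, rfl⟩
  have hkey : ∀ y, ∫ v, (-lap f v) * UU χ 1 (v - y) = K' y := by
    intro y
    rw [chb_key hχ f hcf y, hK', hK1]
  have hci : Integrable (fun w => chr χ 1 w ^ 2) := by
    apply Integrable.of_integral_ne_zero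
    rw [chr_norm hχ 1 one_pos]
    exact one_ne_zero
  have hK1' : ∀ t, K1 t = ∫ x, (1 - JL (R + 30) x) * chr χ 1 (x - t) ^ 2 := by
    intro t
    rw [hK1]
    simp only
    rw [← integral_const_mul]
    congr 1
    funext x
    rw [hf]
    field_simp
  have hcit : ∀ t, Integrable (fun x => chr χ 1 (x - t) ^ 2) := fun t => hci.comp_sub_right t
  have hct1 : ∀ t, ∫ x, chr χ 1 (x - t) ^ 2 = 1 := by
    intro t
    rw [integral_sub_right_eq_self (fun x => chr χ 1 x ^ 2) t]
    exact chr_norm hχ 1 one_pos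
  have hcJ : Continuous (fun x => 1 - JL (R + 30) x) :=
    continuous_const.sub hlay.smooth.continuous
  have hch : Continuous (chr χ 1) := (chr_smooth hχ 1 one_pos).continuous
  have hiJ : ∀ t, Integrable (fun x => (1 - JL (R + 30) x) * chr χ 1 (x - t) ^ 2) := by
    intro t
    apply Continuous.integrable_of_hasCompactSupport
    · exact hcJ.mul ((hch.comp (continuous_id.sub continuous_const)).pow 2)
    · exact hlay.cpt.mul_right
  have hK1m : ∀ t, 0 ≤ K1 t ∧ K1 t ≤ 1 := by
    intro t
    rw [hK1' t]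
    constructor
    · exact integral_nonneg fun x => mul_nonneg (by have := (hlay.mem x).2; simp; linarith)
        (sq_nonneg _)
    · refine (integral_mono (hiJ t) (hcit t) fun x => ?_).trans (hct1 t).le
      have h1 := (hlay.mem x).1
      exact mul_le_of_le_one_left (sq_nonneg _) (by linarith)
  have hK10 : ∀ t, R - 10 + 1 / 2 ≤ ‖t‖ → K1 t = 0 := by
    intro t ht
    rw [hK1' t]
    refine integral_eq_zero_of_ae (Filter.Eventually.of_forall fun x => ?_)
    by_cases hx : chr χ 1 (x - t) = 0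
    · simp [hx]
    · have h1 := chr_supp hχ 1 one_pos _ hx
      have h2 : ‖t‖ - ‖x‖ ≤ ‖x - t‖ := by
        rw [norm_sub_rev]
        exact norm_sub_norm_le t x
      have h3 : JL (R + 30) x = 1 := hJ1 x (by linarith)
      simp [h3]
  have hK11 : ∀ t, ‖t‖ ≤ R - 11 - 1 / 2 → K1 t = 1 := by
    intro t ht
    rw [hK1' t]
    refine (integral_congr_ae (Filter.Eventually.of_forall fun x => ?_)).trans (hct1 t)
    by_cases hx : chr χ 1 (x - t) = 0
    · simp [hx]
    · have h1 := chr_supp hχ 1 one_pos _ hx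
      have h2 : ‖x‖ - ‖t‖ ≤ ‖x - t‖ := norm_sub_norm_le x t
      have h3 : JL (R + 30) x = 0 := hJ0 x (by linarith)
      rw [h3]
      ring
  have hK1c : Continuous K1 := by
    rw [hK1]
    have h1 : (fun t => 4 * Real.pi * ∫ x, f x * chr χ 1 (x - t) ^ 2) =
        fun t => 4 * Real.pi * (MeasureTheory.convolution f (fun x => chr χ 1 (-x) ^ 2)
          (ContinuousLinearMap.mul ℝ ℝ) volume) t := by
      funext t
      unfold MeasureTheory.convolution
      congr 1
      congr 1
      funext x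
      simp only [ContinuousLinearMap.mul_apply', neg_sub]
    rw [h1]
    have h2 : Continuous (MeasureTheory.convolution f (fun x => chr χ 1 (-x) ^ 2)
          (ContinuousLinearMap.mul ℝ ℝ) volume) := by
      apply hcf.2.continuous_convolution_left _ hcf.1.continuous
      exact ((hch.comp continuous_neg).pow 2).locallyIntegrable
    exact continuous_const.mul h2
  have hcs : HasCompactSupport (fun w => chr χ 1 w ^ 2) := by
    refine HasCompactSupport.intro (isCompact_closedBall (0 : E3) (1 / 2)) fun w hw => ?_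
    have h0 : chr χ 1 w = 0 := by
      by_contra h0
      apply hw
      rw [Metric.mem_closedBall, dist_zero_right]
      exact (chr_supp hχ 1 one_pos w h0).le
    simp only [h0]
    norm_num
  have hiK : ∀ y, Integrable (fun w => chr χ 1 w ^ 2 * K1 (y + w)) := by
    intro y
    apply Continuous.integrable_of_hasCompactSupport
    · exact (hch.pow 2).mul (hK1c.comp (continuous_const.add continuous_id))
    · exact hcs.mul_right
  have hKm : ∀ y, 0 ≤ K' y ∧ K' y ≤ 1 := by
    intro y
    rw [hK']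
    constructor
    · exact integral_nonneg fun w => mul_nonneg (sq_nonneg _) (hK1m _).1
    · refine (integral_mono (hiK y) hci fun w => ?_).trans (chr_norm hχ 1 one_pos).le
      exact mul_le_of_le_one_right (sq_nonneg _) (hK1m _).2
  have hK0 : ∀ y, R - 9 ≤ ‖y‖ → K' y = 0 := by
    intro y hy
    rw [hK']
    refine integral_eq_zero_of_ae (Filter.Eventually.of_forall fun w => ?_)
    by_cases hw : chr χ 1 w = 0
    · simp [hw]
    · have h1 := chr_supp hχ 1 one_pos _ hw
      have h2 : ‖y‖ - ‖w‖ ≤ ‖y + w‖ := norm_sub_le_norm_add y w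
      have h3 : K1 (y + w) = 0 := hK10 _ (by linarith)
      simp [h3]
  have hKone : ∀ y, ‖y‖ ≤ R - 12 → K' y = 1 := by
    intro y hy
    rw [hK']
    refine (integral_congr_ae (Filter.Eventually.of_forall fun w => ?_)).trans
      (chr_norm hχ 1 one_pos)
    by_cases hw : chr χ 1 w = 0
    · simp [hw]
    · have h1 := chr_supp hχ 1 one_pos _ hw
      have h2 : ‖y + w‖ ≤ ‖y‖ + ‖w‖ := norm_add_le y w
      have h3 : K1 (y + w) = 1 := hK11 _ (by linarith)
      rw [h3, mul_one]
  -- linearity
  have hUc : Continuous (UU χ 1) := (UU_smooth hχ 1 one_pos).continuous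
  have hiU : ∀ y, Integrable (fun v => (-lap f v) * UU χ 1 (v - y)) := by
    intro y
    apply Continuous.integrable_of_hasCompactSupport
    · exact hcl.1.continuous.neg.mul (hUc.comp (continuous_id.sub continuous_const))
    · exact hcl.2.neg.mul_right
  have hph : ∫ v, (-lap f v) * ph χ 1 z p v = ∑ j, z j * K' (p.2 j) - ∑ a, K' (p.1 a) := by
    have e1 : ∀ v, (-lap f v) * ph χ 1 z p v =
        ∑ j, z j * ((-lap f v) * UU χ 1 (v - p.2 j)) - ∑ a, (-lap f v) * UU χ 1 (v - p.1 a) := by
      intro v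
      unfold ph
      rw [mul_sub, mul_sum, mul_sum]
      congr 1
      exact sum_congr rfl fun j _ => by ring
    simp only [e1]
    rw [integral_sub (integrable_finsetSum _ fun j _ => (hiU _).const_mul _)
      (integrable_finsetSum _ fun a _ => hiU _),
      integral_finsetSum _ fun j _ => (hiU _).const_mul _,
      integral_finsetSum _ fun a _ => hiU _]
    simp only [integral_const_mul, hkey]
  have hil : Integrable (fun v => -lap f v) :=
    (hcl.1.continuous.integrable_of_hasCompactSupport hcl.2).neg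
  have hphc : Continuous (fun v => ph χ 1 z p v) := by
    unfold ph
    exact (continuous_finsetSum _ fun j _ => continuous_const.mul
      (hUc.comp (continuous_id.sub continuous_const))).sub
      (continuous_finsetSum _ fun a _ => hUc.comp (continuous_id.sub continuous_const))
  have hiph : Integrable (fun v => (-lap f v) * ph χ 1 z p v) := by
    apply Continuous.integrable_of_hasCompactSupport
    · exact hcl.1.continuous.neg.mul hphc
    · exact hcl.2.neg.mul_right
  have huh : ∫ v, (-lap f v) * uh χ 1 W z p v = ∑ j, z j * K' (p.2 j) - ∑ a, K' (p.1 a) := by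
    have e1 : ∀ v, (-lap f v) * uh χ 1 W z p v =
        (-lap f v) * ph χ 1 z p v - (-lap f v) * pr χ W z p := by
      intro v
      unfold uh
      ring
    simp only [e1]
    rw [integral_sub hiph (hil.mul_const _), integral_mul_const, hph, integral_neg,
      chb_int0 f hcf]
    ring
  -- the bound of the error
  have huc : Continuous (fun v => uh χ 1 W z p v) := by
    unfold uh
    exact hphc.sub continuous_const
  have hshm : MeasurableSet (shc (R - 11) (R - 10)) := by
    unfold shc
    exact (measurableSet_le measurable_const measurable_norm).inter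
      (measurableSet_le measurable_norm measurable_const)
  have hshs : shc (R - 11) (R - 10) ⊆ Metric.closedBall 0 (R - 10) := by
    intro v hv
    rw [mem_closedBall_zero_iff]
    exact hv.2
  have hion : IntegrableOn (fun v => |uh χ 1 W z p v|) (shc (R - 11) (R - 10)) :=
    (huc.abs.continuousOn.integrableOn_compact (isCompact_closedBall 0 (R - 10))).mono_set hshs
  have herr : -∫ v, (-lap f v) * uh χ 1 W z p v ≤
      (4 * Real.pi)⁻¹ * L * ∫ v in shc (R - 11) (R - 10), |uh χ 1 W z p v| := by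
    rw [← integral_neg, ← integral_const_mul, ← integral_indicator hshm]
    have hi1 : Integrable (fun v => -(-lap f v * uh χ 1 W z p v)) := by
      apply Continuous.integrable_of_hasCompactSupport
      · exact (hcl.1.continuous.neg.mul huc).neg
      · exact (hcl.2.neg.mul_right).neg
    have hi2 : Integrable ((shc (R - 11) (R - 10)).indicator
        fun v => (4 * Real.pi)⁻¹ * L * |uh χ 1 W z p v|) :=
      (integrable_indicator_iff hshm).2 (hion.const_mul _)
    refine integral_mono hi1 hi2 fun v => ?_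
    simp only
    rw [hlf v]
    by_cases hv : v ∈ shc (R - 11) (R - 10)
    · rw [Set.indicator_of_mem hv]
      have h1 := hlay.lapl v
      calc -((4 * Real.pi)⁻¹ * lap (JL (R + 30)) v * uh χ 1 W z p v)
          ≤ |(4 * Real.pi)⁻¹ * lap (JL (R + 30)) v * uh χ 1 W z p v| := neg_le_abs _
        _ = (4 * Real.pi)⁻¹ * |lap (JL (R + 30)) v| * |uh χ 1 W z p v| := by
            rw [abs_mul, abs_mul, abs_of_pos hpi]
        _ ≤ (4 * Real.pi)⁻¹ * L * |uh χ 1 W z p v| := by gcongr
    · rw [Set.indicator_of_notMem hv]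
      have h1 : lap (JL (R + 30)) v = 0 := by
        by_contra h1
        have h2 := hsh v (Or.inr h1)
        apply hv
        exact ⟨by linarith [h2.1], by linarith [h2.2]⟩
      rw [h1]
      simp
  have hL1 : ∑ j, z j * (if R - 9 ≤ ‖p.2 j‖ then 1 else 0) ≤ ∑ j, z j * (1 - K' (p.2 j)) := by
    refine sum_le_sum fun j _ => mul_le_mul_of_nonneg_left ?_ (hz j)
    split_ifs with h1
    · rw [hK0 _ h1, sub_zero]
    · have := (hKm (p.2 j)).2
      linarith
  have hL2 : ∑ a, (1 - K' (p.1 a)) ≤ ∑ a, (if R - 12 ≤ ‖p.1 a‖ then (1 : ℝ) else 0) := by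
    refine sum_le_sum fun a _ => ?_
    split_ifs with h1
    · have := (hKm (p.1 a)).1
      linarith
    · rw [hKone _ (not_le.1 h1).le, sub_self]
  have hs1 : ∑ j, z j * (1 - K' (p.2 j)) = n - ∑ j, z j * K' (p.2 j) := by
    rw [← hzn, ← sum_sub_distrib]
    exact sum_congr rfl fun j _ => by ring
  have hs2 : ∑ a, (1 - K' (p.1 a)) = n - ∑ a, K' (p.1 a) := by
    rw [sum_sub_distrib]
    simp
  rw [huh] at herr
  linarith

end H6.CL
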