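import Pool.Agent.H6.CL.BtP
import Pool.Agent.H6.CL.ChB

/-! The number of nuclei averaged over shells. Interior (`‖v‖ < R - 8`): `cnQ` with a small constant, `btP` and `shn` (`ρ = 6`) for the function `G u = mM Ψ (|uh χ 1 W z p u| ^ (3/2))` for `‖u‖ < R - 2`, `0` otherwise; `btM` with `ρ = 7`, `s = 1`. Layer (`R - 8 ≤ ‖v‖`): the integral of `cn p v 1` over these `v` is at most `5` times the number of nuclei with `R - 9 ≤ ‖R_j‖` (volume of the unit ball), `z j ≥ zm`, and `chb`; the number of electrons with `R - 12 ≤ ‖x_a‖` is at most the integral of `ce p v 1` over `shc (R - 13) (R + 1)` (the volume of the unit ball is at least `1`), a sum over `15` shells (`shc_le`, `btE`); `|uh| ≤ ε |uh| ^ (3/2) + C` and `btP` for the shells `A (R - 11)` and `A (R - 10)`. -/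

open MeasureTheory Finset

namespace H6.CL

open H6.CM H6.CB

/-- the `3/2` moment of the relative potential, cut off near the boundary -/
noncomputable def GP (χ : E3 → ℝ) {ι : Type} [Fintype ι] {q n k : ℕ} (R : ℝ) (W : Finset E3)
    (z : Fin k → ℝ) (Ψ : ι → (Fin n → Fin q) → Cfg n k → ℂ) (v : E3) : ℝ :=
  (Metric.ball (0 : E3) (R - 2)).indicator
    (fun v => mM Ψ (fun p => |uh χ 1 W z p v| ^ (3 / 2 : ℝ))) v

theorem GP_nonneg (χ : E3 → ℝ) {ι : Type} [Fintype ι] {q n k : ℕ} (R : ℝ) (W : Finset E3)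
    (z : Fin k → ℝ) (Ψ : ι → (Fin n → Fin q) → Cfg n k → ℂ) (v : E3) :
    0 ≤ GP χ R W z Ψ v :=
  Set.indicator_nonneg (fun _ _ => mM_nonneg Ψ fun _ => Real.rpow_nonneg (abs_nonneg _) _) v

theorem GP_int {χ : E3 → ℝ} (hχ : Bump χ) {ι : Type} [Fintype ι] {q n k : ℕ} {Λ : Set E3}
    (R : ℝ) (W : Finset E3) (z : Fin k → ℝ) {Ψ : ι → (Fin n → Fin q) → Cfg n k → ℂ}
    (hΨ : ∀ i, Sm q n k Λ (Ψ i)) (s : ℝ) :
    IntegrableOn (fun v => GP χ R W z Ψ v) (Metric.ball 0 s) :=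
  Integrable.indicator (sI_uh hΨ hχ W z (3 / 2) s (by norm_num)) measurableSet_ball

theorem GP_sh (Ci zm zp : ℝ) {χ θ : E3 → ℝ} (hχ : Bump χ) (hθ : Cut θ) :
    ∃ C : ℝ, 0 ≤ C ∧ ∀ (ι : Type) (_ : Fintype ι) (q n k : ℕ) (R : ℝ) (_ : 100 ≤ R)
    (z : Fin k → ℝ) (W : Finset E3) (Ψ : ι → (Fin n → Fin q) → Cfg n k → ℂ)
    (_ : Ine Ci zm zp q n k R z W χ θ Ψ) (B : ℝ) (_ : ShB R B Ψ) (r : ℝ) (_ : 0 ≤ r),
    ∫ v in A r, GP χ R W z Ψ v ≤ C * (B + 1) * R ^ 2 := by
  obtain ⟨C, hC, h⟩ := btP Ci zm zp hχ hθ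
  refine ⟨C, hC, fun ι _ q n k R hR z W Ψ hI B hB r hr => ?_⟩
  have h1 := h ι _ q n k R hR z W Ψ hI B hB r hr
  unfold GP
  rw [setIntegral_indicator measurableSet_ball]
  exact h1

theorem ShB_nonneg {ι : Type} [Fintype ι] {q n k : ℕ} {R B : ℝ} (hR : 100 ≤ R)
    {Ψ : ι → (Fin n → Fin q) → Cfg n k → ℂ} (h : ShB R B Ψ) : 0 ≤ B := by
  have h1 : 0 ≤ B * R ^ 2 := by
    refine le_trans ?_ (h.e 0 le_rfl)
    exact setIntegral_nonneg (A_meas 0) fun v _ => mM_nonneg Ψ fun p =>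
      Real.rpow_nonneg (ce_nonneg p v 1) _
  have h2 : (0 : ℝ) < R ^ 2 := by positivity
  exact nonneg_of_mul_nonneg_left h1 h2

theorem A_sub_ball (r : ℝ) : A r ⊆ Metric.ball (0 : E3) (r + 1) := fun v hv => by
  rw [Metric.mem_ball, dist_zero_right]
  exact hv.2

/-- the integral of the moment over a ball for the family is the sum for the members -/
private theorem btc_sum {χ : E3 → ℝ} (hχ : Bump χ) {ι : Type} [Fintype ι] {q n k : ℕ}
    {Λ : Set E3} {R : ℝ} (W : Finset E3) (z : Fin k → ℝ)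
    {Ψ : ι → (Fin n → Fin q) → Cfg n k → ℂ} (hΨ : ∀ i, Sm q n k Λ (Ψ i)) (y : E3)
    (hy : ‖y‖ < R - 8) :
    ∑ i, ∫ v in Metric.ball y 6, mean (Ψ i) (fun p => |uh χ 1 W z p v| ^ (3 / 2 : ℝ)) =
      ∫ v in Metric.ball y 6, GP χ R W z Ψ v := by
  have h1 : ∀ i, IntegrableOn (fun v => mean (Ψ i) (fun p => |uh χ 1 W z p v| ^ (3 / 2 : ℝ)))
      (Metric.ball y 6) := by
    intro i
    have h2 := sI_uh (Ψ := fun _ : Unit => Ψ i) (fun _ => hΨ i) hχ W z (3 / 2) (‖y‖ + 6)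
      (by norm_num)
    unfold mM at h2
    simp only [Fintype.sum_unique] at h2
    refine h2.mono_set fun v hv => ?_
    rw [Metric.mem_ball, dist_eq_norm] at hv
    rw [Metric.mem_ball, dist_zero_right]
    have h3 := norm_sub_norm_le v y
    linarith
  rw [← integral_finsetSum _ fun i _ => h1 i]
  refine setIntegral_congr_fun measurableSet_ball fun v hv => ?_
  have h3 : v ∈ Metric.ball (0 : E3) (R - 2) := by
    rw [Metric.mem_ball, dist_eq_norm] at hv
    rw [Metric.mem_ball, dist_zero_right]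
    have h3 := norm_sub_norm_le v y
    linarith
  unfold GP
  rw [Set.indicator_of_mem h3]
  rfl

/-- the nuclei in a unit ball in the interior -/
theorem cnQM (zm : ℝ) (hzm : 0 < zm) {χ : E3 → ℝ} (hχ : Bump χ) (η : ℝ) (hη : 0 < η) :
    ∃ C : ℝ, 0 ≤ C ∧ ∀ (ι : Type) (_ : Fintype ι) (q n k : ℕ) (Λ : Set E3) (R : ℝ)
    (z : Fin k → ℝ) (_ : ∀ j, zm ≤ z j) (_ : ∑ j, z j = n) (W : Finset E3)
    (Ψ : ι → (Fin n → Fin q) → Cfg n k → ℂ) (_ : ∀ i, Sm q n k Λ (Ψ i))
    (_ : ∑ i, mass (Ψ i) = 1) (y : E3) (_ : ‖y‖ < R - 8),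
    mM Ψ (fun p => cn p y 1) ≤ η * (∫ v in Metric.ball y 6, GP χ R W z Ψ v) +
      C * (1 + mM Ψ (fun p => ce p y 7)) := by
  obtain ⟨C, hC, h⟩ := cnQ zm hzm hχ η hη
  refine ⟨C, hC, fun ι _ q n k Λ R z hz hzn W Ψ hΨ hm y hy => ?_⟩
  rw [← btc_sum hχ W z hΨ y hy]
  unfold mM
  refine (sum_le_sum fun i _ => h q n k Λ z hz hzn W (Ψ i) (hΨ i) y).trans (le_of_eq ?_)
  rw [sum_add_distrib, ← mul_sum, ← mul_sum, sum_add_distrib, hm]

theorem cnPM (zm : ℝ) (hzm : 0 < zm) {χ : E3 → ℝ} (hχ : Bump χ) :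
    ∃ C : ℝ, 0 ≤ C ∧ ∀ (ι : Type) (_ : Fintype ι) (q n k : ℕ) (Λ : Set E3) (R : ℝ)
    (z : Fin k → ℝ) (_ : ∀ j, zm ≤ z j) (_ : ∑ j, z j = n) (W : Finset E3)
    (Ψ : ι → (Fin n → Fin q) → Cfg n k → ℂ) (_ : ∀ i, Sm q n k Λ (Ψ i))
    (y : E3) (_ : ‖y‖ < R - 8),
    mM Ψ (fun p => cn p y 1 ^ (3 / 2 : ℝ)) ≤ C * ((∫ v in Metric.ball y 6, GP χ R W z Ψ v) +
      mM Ψ (fun p => ce p y 7 ^ (3 / 2 : ℝ))) := by
  obtain ⟨C, hC, h⟩ := cnP zm hzm hχ
  refine ⟨C, hC, fun ι _ q n k Λ R z hz hzn W Ψ hΨ y hy => ?_⟩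
  rw [← btc_sum hχ W z hΨ y hy]
  unfold mM
  refine (sum_le_sum fun i _ => h q n k Λ z hz hzn W (Ψ i) (hΨ i) y).trans (le_of_eq ?_)
  rw [← mul_sum, sum_add_distrib]

private theorem btc_pow (ε : ℝ) (hε : 0 < ε) (u : ℝ) (hu : 0 ≤ u) :
    u ≤ ε * u ^ (3 / 2 : ℝ) + (ε⁻¹) ^ 2 := by
  obtain ⟨w, hw⟩ : ∃ w : ℝ, w = u ^ (1 / 2 : ℝ) := ⟨_, rfl⟩
  have hw0 : 0 ≤ w := by rw [hw]; positivity
  have h3 : u ^ (3 / 2 : ℝ) = w ^ 3 := by
    rw [hw, ← Real.rpow_natCast, ← Real.rpow_mul hu]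
    norm_num
  have h1 : u = w ^ 2 := by
    rw [hw, ← Real.rpow_natCast, ← Real.rpow_mul hu]
    norm_num
  rw [h3]
  rcases le_total w ε⁻¹ with h | h
  · have h4 : w ^ 2 ≤ (ε⁻¹) ^ 2 := pow_le_pow_left₀ hw0 h 2
    have h5 : 0 ≤ ε * w ^ 3 := by positivity
    linarith
  · have h4 : 1 ≤ ε * w := by
      rw [inv_le_iff_one_le_mul₀ hε] at h
      linarith
    have h5 : w ^ 2 * 1 ≤ w ^ 2 * (ε * w) := mul_le_mul_of_nonneg_left h4 (sq_nonneg w)
    have h6 : 0 ≤ (ε⁻¹) ^ 2 := by positivity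
    have h7 : w ^ 2 * (ε * w) = ε * w ^ 3 := by ring
    linarith

/-- Fubini for bounded functions on a set of finite measure -/
private theorem btc_fub {q n k : ℕ} {Λ : Set E3} {ψ : (Fin n → Fin q) → Cfg n k → ℂ}
    (h : Sm q n k Λ ψ) {S : Set E3} (hS : MeasurableSet S) (hSv : volume S < ⊤)
    {F : E3 → Cfg n k → ℝ} (hF : Measurable (fun u : Cfg n k × E3 => F u.2 u.1)) (M : ℝ)
    (hM : ∀ v p, |F v p| ≤ M) :
    IntegrableOn (fun v => mean ψ (F v)) S ∧
    IM ψ (fun p => ∫ v in S, F v p) ∧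
    ∫ v in S, mean ψ (F v) = mean ψ (fun p => ∫ v in S, F v p) := by
  have hI : IP ψ (S.indicator fun _ => (1 : ℝ)) F := by
    intro σ
    have h1 : Integrable (fun p => M * ‖ψ σ p‖ ^ 2) :=
      ((Sm_sq h σ).1.integrable_of_hasCompactSupport (Sm_sq h σ).2).const_mul M
    have h2' : IntegrableOn (fun _ => (1 : ℝ)) S := integrableOn_const (hs := hSv.ne)
    have h2 : Integrable (S.indicator fun _ => (1 : ℝ)) := h2'.integrable_indicator hS
    have h3 : Integrable (fun u : Cfg n k × E3 => (M * ‖ψ σ u.1‖ ^ 2) *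
        S.indicator (fun _ => (1 : ℝ)) u.2) := h1.mul_prod h2
    have hm : Measurable (S.indicator fun _ => (1 : ℝ)) := measurable_const.indicator hS
    refine h3.mono' ?_ (Filter.Eventually.of_forall fun u => ?_)
    · exact (((hm.comp measurable_snd).mul hF).mul
        ((Sm_sq h σ).1.measurable.comp measurable_fst)).aestronglyMeasurable
    · by_cases hu : u.2 ∈ S
      · simp only [Set.indicator_of_mem hu, one_mul, mul_one, norm_mul, Real.norm_eq_abs, abs_pow,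
          abs_norm]
        exact mul_le_mul_of_nonneg_right (hM u.2 u.1) (sq_nonneg _)
      · simp [Set.indicator_of_notMem hu]
  obtain ⟨a1, a2, a3⟩ := mean_fub hI
  have e1 : ∀ g : E3 → ℝ, (fun w => S.indicator (fun _ => (1 : ℝ)) w * g w) =
      S.indicator g := by
    intro g
    funext w
    by_cases hw : w ∈ S
    · simp [Set.indicator_of_mem hw]
    · simp [Set.indicator_of_notMem hw]
  simp only [e1 (fun w => mean ψ (F w))] at a1 a3
  have e2 : ∀ p, (∫ w, S.indicator (fun _ => (1 : ℝ)) w * F w p) =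
      ∫ w in S, F w p := by
    intro p
    rw [e1 (fun w => F w p), integral_indicator hS]
  simp only [e2] at a2 a3
  rw [integral_indicator hS] at a3
  exact ⟨(integrable_indicator_iff hS).1 a1, a2, a3⟩

private theorem btc_vol : (1 : ℝ) ≤ (volume : Measure E3).real (Metric.ball (0 : E3) 1) ∧
    (volume : Measure E3).real (Metric.ball (0 : E3) 1) ≤ 8 := by
  have h1 : (volume : Measure E3).real (Metric.ball (0 : E3) 1) = Real.pi * 4 / 3 := by
    rw [Measure.real, EuclideanSpace.volume_ball_fin_three]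
    simp
    have : 0 ≤ Real.pi := Real.pi_pos.le
    positivity
  rw [h1]
  constructor
  · linarith [Real.pi_gt_three]
  · linarith [Real.pi_le_four]

private theorem btc_volc (y : E3) : (volume : Measure E3).real (Metric.ball y 1) =
    (volume : Measure E3).real (Metric.ball (0 : E3) 1) := Measure.addHaar_real_ball_center _ _ _

private theorem btc_ite (S : Set E3) (y : E3) :
    ∫ v in S, (if ‖y - v‖ < 1 then (1 : ℝ) else 0) =
      (volume : Measure E3).real (Metric.ball y 1 ∩ S) := by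
  have e : ∀ v, (if ‖y - v‖ < 1 then (1 : ℝ) else 0) =
      (Metric.ball y 1).indicator (fun _ => (1 : ℝ)) v := by
    intro v
    by_cases h : ‖y - v‖ < 1
    · have h' : v ∈ Metric.ball y 1 := by rwa [Metric.mem_ball, dist_eq_norm, norm_sub_rev]
      rw [Set.indicator_of_mem h', if_pos h]
    · have h' : v ∉ Metric.ball y 1 := by rwa [Metric.mem_ball, dist_eq_norm, norm_sub_rev]
      rw [Set.indicator_of_notMem h', if_neg h]
  simp only [e]
  rw [integral_indicator measurableSet_ball, setIntegral_const, smul_eq_mul, mul_one]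
  rw [Measure.real, Measure.real, Measure.restrict_apply measurableSet_ball]

private theorem btc_iite {S : Set E3} (hSv : volume S < ⊤) (y : E3) :
    IntegrableOn (fun v => if ‖y - v‖ < 1 then (1 : ℝ) else 0) S := by
  have hfin : IsFiniteMeasure ((volume : Measure E3).restrict S) :=
    ⟨by rw [Measure.restrict_apply_univ]; exact hSv⟩
  refine Integrable.of_bound (Measurable.aestronglyMeasurable ?_) 1
    (Filter.Eventually.of_forall fun v => ?_)
  · exact Measurable.ite (measurableSet_lt (measurable_const.sub measurable_id).norm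
      measurable_const) measurable_const measurable_const
  · rw [Real.norm_eq_abs]
    split_ifs <;> norm_num

private theorem btc_mce {n k : ℕ} : Measurable (fun u : Cfg n k × E3 => ce u.1 u.2 1) := by
  unfold ce
  refine Finset.measurable_fun_sum _ fun a _ => ?_
  have h1 : Measurable (fun u : Cfg n k × E3 => u.1.1 a - u.2) :=
    ((meas_e a).comp measurable_fst).sub measurable_snd
  exact Measurable.ite (measurableSet_lt h1.norm measurable_const) measurable_const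
    measurable_const

private theorem btc_mcn {n k : ℕ} : Measurable (fun u : Cfg n k × E3 => cn u.1 u.2 1) := by
  unfold cn
  refine Finset.measurable_fun_sum _ fun a _ => ?_
  have h1 : Measurable (fun u : Cfg n k × E3 => u.1.2 a - u.2) :=
    ((meas_n a).comp measurable_fst).sub measurable_snd
  exact Measurable.ite (measurableSet_lt h1.norm measurable_const) measurable_const
    measurable_const

private theorem btc_inner (Ci zm zp : ℝ) (hzm : 0 < zm) {χ θ : E3 → ℝ} (hχ : Bump χ)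
    (hθ : Cut θ) (η : ℝ) (hη : 0 < η) :
    ∃ C : ℝ, 0 ≤ C ∧ ∀ (ι : Type) (_ : Fintype ι) (q n k : ℕ) (R : ℝ) (_ : 100 ≤ R)
    (z : Fin k → ℝ) (W : Finset E3) (Ψ : ι → (Fin n → Fin q) → Cfg n k → ℂ)
    (_ : Ine Ci zm zp q n k R z W χ θ Ψ) (B : ℝ) (_ : ShB R B Ψ) (r : ℝ) (_ : 0 ≤ r)
    (_ : r ≤ R + 1),
    ∫ v in A r ∩ Metric.ball 0 (R - 8), mM Ψ (fun p => cn p v 1) ≤ (η * B + C) * R ^ 2 := by
  obtain ⟨Cs, hCs, hsh⟩ := shn 6 (by norm_num)
  obtain ⟨CP, hCP, hP⟩ := GP_sh Ci zm zp hχ hθ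
  obtain ⟨CA, hCA, hvol⟩ := A_vol
  have hK1 : 0 < 2 * (Cs * CP + 1) := by positivity
  obtain ⟨η1, hη1⟩ : ∃ η1 : ℝ, η1 = η / (2 * (Cs * CP + 1)) := ⟨_, rfl⟩
  have hη1p : 0 < η1 := by rw [hη1]; positivity
  obtain ⟨CQ, hCQ, hQ⟩ := cnQM zm hzm hχ η1 hη1p
  have hK2 : 0 < 2 * (CQ + 1) := by positivity
  obtain ⟨η2, hη2⟩ : ∃ η2 : ℝ, η2 = η / (2 * (CQ + 1)) := ⟨_, rfl⟩
  have hη2p : 0 < η2 := by rw [hη2]; positivity
  obtain ⟨CM, hCM, hM⟩ := btM 7 1 (by norm_num) (by norm_num) (by norm_num) η2 hη2p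
  refine ⟨η + CQ * (CA + CM), by positivity, ?_⟩
  intro ι _ q n k R hR z W Ψ hI B hB r hr hrR
  have hsm : ∀ i, Sm q n k (Metric.ball 0 R) (Ψ i) := fun i => St_sm (hI.st i)
  have hB0 := ShB_nonneg hR hB
  have hR2 : (0 : ℝ) < R ^ 2 := by positivity
  obtain ⟨-, j1, j2⟩ := hsh (fun v => GP χ R W z Ψ v) (GP_nonneg χ R W z Ψ)
    (fun s => GP_int hχ R W z hsm s) (CP * (B + 1) * R ^ 2)
    (fun r' hr' => hP ι _ q n k R hR z W Ψ hI B hB r' hr') r hr
  have hfin : volume (A r) ≠ ⊤ :=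
    ((measure_mono (A_sub_ball r)).trans_lt measure_ball_lt_top).ne
  have i0 : IntegrableOn (fun _ : E3 => (1 : ℝ)) (A r) := integrableOn_const hfin
  have i1 : IntegrableOn (fun v => mM Ψ (fun p => ce p v 7)) (A r) := by
    have h4 := sI_ce hsm 7 1 (r + 1) (by norm_num)
    simp only [Real.rpow_one] at h4
    exact h4.mono_set (A_sub_ball r)
  have i2 : IntegrableOn (fun v => mM Ψ (fun p => cn p v 1)) (A r) := by
    have h4 := sI_cn hsm 1 1 (r + 1) (by norm_num)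
    simp only [Real.rpow_one] at h4
    exact h4.mono_set (A_sub_ball r)
  have i4 : IntegrableOn (fun v => 1 + mM Ψ (fun p => ce p v 7)) (A r) := i0.add i1
  have i3 : IntegrableOn (fun v => η1 * (∫ u in Metric.ball v 6, GP χ R W z Ψ u) +
      CQ * (1 + mM Ψ (fun p => ce p v 7))) (A r) :=
    (j1.const_mul η1).add (i4.const_mul CQ)
  have h1 : ∫ v in A r ∩ Metric.ball 0 (R - 8), mM Ψ (fun p => cn p v 1) ≤
      ∫ v in A r, (η1 * (∫ u in Metric.ball v 6, GP χ R W z Ψ u) +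
        CQ * (1 + mM Ψ (fun p => ce p v 7))) := by
    refine (setIntegral_mono_on (i2.mono_set Set.inter_subset_left)
      (i3.mono_set Set.inter_subset_left) ((A_meas r).inter measurableSet_ball)
      fun v hv => ?_).trans ?_
    · have h2 := hv.2
      rw [Metric.mem_ball, dist_zero_right] at h2
      exact hQ ι _ q n k _ R z (fun j => (hI.hz j).1) hI.neu W Ψ hsm hI.one v h2
    · refine setIntegral_mono_set i3 (Filter.Eventually.of_forall fun v => ?_)
        (Filter.Eventually.of_forall fun v hv => hv.1)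
      have m1 : 0 ≤ ∫ u in Metric.ball v 6, GP χ R W z Ψ u :=
        integral_nonneg fun u => GP_nonneg _ _ _ _ _ _
      have m2 : 0 ≤ mM Ψ (fun p => ce p v 7) := mM_nonneg Ψ fun p => ce_nonneg _ _ _
      show 0 ≤ η1 * (∫ u in Metric.ball v 6, GP χ R W z Ψ u) +
        CQ * (1 + mM Ψ (fun p => ce p v 7))
      positivity
  have h2 : ∫ v in A r, (η1 * (∫ u in Metric.ball v 6, GP χ R W z Ψ u) +
        CQ * (1 + mM Ψ (fun p => ce p v 7))) =
      η1 * (∫ v in A r, ∫ u in Metric.ball v 6, GP χ R W z Ψ u) +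
        CQ * ((volume (A r)).toReal + ∫ v in A r, mM Ψ (fun p => ce p v 7)) := by
    rw [integral_add (j1.const_mul η1) (i4.const_mul CQ), integral_const_mul,
      integral_const_mul, integral_add i0 i1, setIntegral_const, smul_eq_mul, mul_one]
    rfl
  have h3 : ∫ v in A r, mM Ψ (fun p => ce p v 7) ≤ (η2 * B + CM) * R ^ 2 := by
    have h4 := hM ι _ q n k R hR Ψ hsm hI.one B hB r hr hrR
    simp only [Real.rpow_one] at h4
    exact h4
  have h4 : (volume (A r)).toReal ≤ CA * R ^ 2 := by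
    have h5 := ENNReal.toReal_mono ENNReal.ofReal_ne_top (hvol r R hr hrR (by linarith))
    rwa [ENNReal.toReal_ofReal (by positivity)] at h5
  have h5 : η1 * (Cs * (CP * (B + 1) * R ^ 2)) ≤ η / 2 * (B + 1) * R ^ 2 := by
    have h6 : η1 * (Cs * CP) ≤ η / 2 := by
      rw [hη1, div_mul_eq_mul_div, div_le_div_iff₀ hK1 (by norm_num)]
      have : 0 ≤ Cs * CP := by positivity
      nlinarith
    have h7 : 0 ≤ (B + 1) * R ^ 2 := by positivity
    calc η1 * (Cs * (CP * (B + 1) * R ^ 2)) = η1 * (Cs * CP) * ((B + 1) * R ^ 2) := by ring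
      _ ≤ η / 2 * ((B + 1) * R ^ 2) := mul_le_mul_of_nonneg_right h6 h7
      _ = _ := by ring
  have h6 : CQ * (η2 * B * R ^ 2) ≤ η / 2 * B * R ^ 2 := by
    have h7 : CQ * η2 ≤ η / 2 := by
      rw [hη2, mul_div_assoc', div_le_div_iff₀ hK2 (by norm_num)]
      nlinarith
    have h8 : 0 ≤ B * R ^ 2 := by positivity
    calc CQ * (η2 * B * R ^ 2) = CQ * η2 * (B * R ^ 2) := by ring
      _ ≤ η / 2 * (B * R ^ 2) := mul_le_mul_of_nonneg_right h7 h8
      _ = _ := by ring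
  have h7 := mul_le_mul_of_nonneg_left j2 hη1p.le
  have h8 := mul_le_mul_of_nonneg_left (add_le_add h4 h3) hCQ
  rw [h2] at h1
  have h9 : CQ * (CA * R ^ 2 + (η2 * B + CM) * R ^ 2) =
      CQ * (CA + CM) * R ^ 2 + CQ * (η2 * B * R ^ 2) := by ring
  have h10 : 0 ≤ η / 2 * R ^ 2 := by positivity
  rw [h9] at h8
  calc ∫ v in A r ∩ Metric.ball 0 (R - 8), mM Ψ (fun p => cn p v 1) ≤
      η / 2 * (B + 1) * R ^ 2 + (CQ * (CA + CM) * R ^ 2 + η / 2 * B * R ^ 2) := by linarith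
    _ ≤ (η * B + (η + CQ * (CA + CM))) * R ^ 2 := by linarith

private theorem btc_layer (Ci zm zp : ℝ) (hzm : 0 < zm) {χ θ : E3 → ℝ} (hχ : Bump χ)
    (hθ : Cut θ) (η : ℝ) (hη : 0 < η) :
    ∃ C : ℝ, 0 ≤ C ∧ ∀ (ι : Type) (_ : Fintype ι) (q n k : ℕ) (R : ℝ) (_ : 100 ≤ R)
    (z : Fin k → ℝ) (W : Finset E3) (Ψ : ι → (Fin n → Fin q) → Cfg n k → ℂ)
    (_ : Ine Ci zm zp q n k R z W χ θ Ψ) (B : ℝ) (_ : ShB R B Ψ) (r : ℝ) (_ : 0 ≤ r),
    ∫ v in A r \ Metric.ball 0 (R - 8), mM Ψ (fun p => cn p v 1) ≤ (η * B + C) * R ^ 2 := by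
  obtain ⟨CP, hCP, hP⟩ := GP_sh Ci zm zp hχ hθ
  obtain ⟨CA, hCA, hvol⟩ := A_vol
  obtain ⟨Cb, hCb, hchb⟩ := chb hχ
  obtain ⟨Cu, hCu, hub⟩ := uh_bd hχ
  obtain ⟨a, ha⟩ : ∃ a : ℝ, a = 8 * zm⁻¹ := ⟨_, rfl⟩
  have ha0 : 0 < a := by rw [ha]; positivity
  have hK1 : 0 < 2 * (15 * a + 1) := by positivity
  obtain ⟨η3, hη3⟩ : ∃ η3 : ℝ, η3 = η / (2 * (15 * a + 1)) := ⟨_, rfl⟩
  have hη3p : 0 < η3 := by rw [hη3]; positivity
  obtain ⟨CE, hCE, hE⟩ := btE η3 hη3p
  have hK2 : 0 < 2 * (2 * a * Cb * CP + 1) := by positivity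
  obtain ⟨ε, hε⟩ : ∃ ε : ℝ, ε = η / (2 * (2 * a * Cb * CP + 1)) := ⟨_, rfl⟩
  have hεp : 0 < ε := by rw [hε]; positivity
  refine ⟨η + a * (15 * CE + Cb * (2 * ((ε⁻¹) ^ 2 * CA))), by positivity, ?_⟩
  intro ι _ q n k R hR z W Ψ hI B hB r hr
  have hsm : ∀ i, Sm q n k (Metric.ball 0 R) (Ψ i) := fun i => St_sm (hI.st i)
  have hB0 := ShB_nonneg hR hB
  have hR2 : (0 : ℝ) < R ^ 2 := by positivity
  have hz0 : ∀ j, 0 ≤ z j := fun j => hzm.le.trans (hI.hz j).1
  obtain ⟨S, hS⟩ : ∃ S : Set E3, S = A r \ Metric.ball 0 (R - 8) := ⟨_, rfl⟩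
  obtain ⟨D, hD⟩ : ∃ D : Set E3, D = shc (R - 11) (R - 10) := ⟨_, rfl⟩
  obtain ⟨E, hEs⟩ : ∃ E : Set E3, E = shc (R - 13) (R + 1) := ⟨_, rfl⟩
  have hshm : ∀ s t : ℝ, MeasurableSet (shc s t) := fun s t =>
    (measurableSet_le measurable_const measurable_norm).inter
      (measurableSet_le measurable_norm measurable_const)
  have hshv : ∀ s t : ℝ, volume (shc s t) < ⊤ := fun s t => by
    refine lt_of_le_of_lt (measure_mono fun v hv => ?_) (measure_closedBall_lt_top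
      (μ := (volume : Measure E3)) (x := 0) (r := t))
    rw [mem_closedBall_zero_iff]
    exact hv.2
  have mS : MeasurableSet S := by rw [hS]; exact (A_meas r).diff measurableSet_ball
  have mD : MeasurableSet D := by rw [hD]; exact hshm _ _
  have mE : MeasurableSet E := by rw [hEs]; exact hshm _ _
  have vS : volume S < ⊤ := by
    rw [hS]
    exact (measure_mono (Set.sdiff_subset.trans (A_sub_ball r))).trans_lt measure_ball_lt_top
  have vD : volume D < ⊤ := by rw [hD]; exact hshv _ _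
  have vE : volume E < ⊤ := by rw [hEs]; exact hshv _ _
  -- measurability of the potential
  have mu : Measurable (fun u : Cfg n k × E3 => |uh χ 1 W z u.1 u.2|) :=
    (uh_joint hχ 1 one_pos W z).measurable.abs
  have bu : ∀ (v : E3) (p : Cfg n k), |(|uh χ 1 W z p v|)| ≤ Cu * n * 1⁻¹ := fun v p => by
    rw [abs_abs]
    exact hub n k z hz0 hI.neu W 1 one_pos le_rfl p v
  have bce : ∀ (v : E3) (p : Cfg n k), |ce p v 1| ≤ n := fun v p => by
    rw [abs_of_nonneg (ce_nonneg _ _ _)]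
    exact ce_le _ _ _
  have bcn : ∀ (v : E3) (p : Cfg n k), |cn p v 1| ≤ k := fun v p => by
    rw [abs_of_nonneg (cn_nonneg _ _ _)]
    exact cn_le _ _ _
  have fS := fun i => btc_fub (hsm i) mS vS (F := fun v p => cn p v 1) btc_mcn k bcn
  have fE := fun i => btc_fub (hsm i) mE vE (F := fun v p => ce p v 1) btc_mce n bce
  have fD := fun i => btc_fub (hsm i) mD vD (F := fun v p => |uh χ 1 W z p v|) mu _ bu
  -- the pointwise bound
  have hpt : ∀ i σ (p : Cfg n k), Ψ i σ p ≠ 0 → (∫ v in S, cn p v 1) ≤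
      a * ((∫ v in E, ce p v 1) + Cb * ∫ v in D, |uh χ 1 W z p v|) := by
    intro i σ p hp
    have hsup := (hsm i).supp σ p (subset_tsupport _ hp)
    have h1 : (∫ v in S, cn p v 1) ≤ 8 * ∑ j, (if R - 9 ≤ ‖p.2 j‖ then (1 : ℝ) else 0) := by
      unfold cn
      rw [integral_finsetSum _ fun j _ => btc_iite vS _, mul_sum]
      refine sum_le_sum fun j _ => ?_
      rw [btc_ite]
      split_ifs with h2
      · refine (measureReal_mono Set.inter_subset_left measure_ball_lt_top.ne).trans ?_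
        rw [btc_volc, mul_one]
        exact btc_vol.2
      · have h3 : Metric.ball (p.2 j) 1 ∩ S = ∅ := by
          refine Set.eq_empty_of_forall_notMem fun v hv => h2 ?_
          have h4 := hv.1
          rw [Metric.mem_ball, dist_eq_norm] at h4
          have h5 := hv.2
          rw [hS] at h5
          have h6 := h5.2
          rw [Metric.mem_ball, dist_zero_right, not_lt] at h6
          have h7 := norm_sub_norm_le v (p.2 j)
          linarith
        rw [h3]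
        simp
    have h2 : ∑ j, (if R - 9 ≤ ‖p.2 j‖ then (1 : ℝ) else 0) ≤
        zm⁻¹ * ∑ j, z j * (if R - 9 ≤ ‖p.2 j‖ then (1 : ℝ) else 0) := by
      rw [mul_sum]
      refine sum_le_sum fun j _ => ?_
      split_ifs
      · rw [mul_one, inv_mul_eq_div, le_div_iff₀ hzm, one_mul]
        exact (hI.hz j).1
      · simp
    have h3 := hchb n k z hz0 hI.neu W p R hR
    have h4 : ∑ b, (if R - 12 ≤ ‖p.1 b‖ then (1 : ℝ) else 0) ≤ ∫ v in E, ce p v 1 := by
      unfold ce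
      rw [integral_finsetSum _ fun j _ => btc_iite vE _]
      refine sum_le_sum fun b _ => ?_
      rw [btc_ite]
      split_ifs with h5
      · have h6 := hsup.1 b
        rw [Metric.mem_ball, dist_zero_right] at h6
        have h7 : Metric.ball (p.1 b) 1 ∩ E = Metric.ball (p.1 b) 1 := by
          refine Set.inter_eq_left.2 fun v hv => ?_
          rw [Metric.mem_ball, dist_eq_norm] at hv
          rw [hEs]
          have h8 := norm_sub_norm_le v (p.1 b)
          have h9 := norm_sub_norm_le (p.1 b) v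
          rw [norm_sub_rev] at h9
          exact ⟨by linarith, by linarith⟩
        rw [h7, btc_volc]
        exact btc_vol.1
      · exact measureReal_nonneg
    rw [hD]
    have h5 : ∑ j, z j * (if R - 9 ≤ ‖p.2 j‖ then (1 : ℝ) else 0) ≤
        (∫ v in E, ce p v 1) + Cb * ∫ v in shc (R - 11) (R - 10), |uh χ 1 W z p v| :=
      h3.trans (add_le_add h4 le_rfl)
    have h6 := mul_le_mul_of_nonneg_left h5 (inv_nonneg.2 hzm.le)
    rw [ha]
    have h7 : 8 * zm⁻¹ * ((∫ v in E, ce p v 1) +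
        Cb * ∫ v in shc (R - 11) (R - 10), |uh χ 1 W z p v|) =
        8 * (zm⁻¹ * ((∫ v in E, ce p v 1) +
          Cb * ∫ v in shc (R - 11) (R - 10), |uh χ 1 W z p v|)) := by ring
    rw [h7]
    linarith
  have hcn0 : ∀ p : Cfg n k, 0 ≤ ∫ v in S, cn p v 1 := fun p =>
    integral_nonneg fun v => cn_nonneg _ _ _
  have key : ∀ i, (∫ v in S, mean (Ψ i) (fun p => cn p v 1)) ≤
      a * ((∫ v in E, mean (Ψ i) (fun p => ce p v 1)) +
        Cb * ∫ v in D, mean (Ψ i) (fun p => |uh χ 1 W z p v|)) := by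
    intro i
    rw [(fS i).2.2, (fE i).2.2, (fD i).2.2, ← mean_cmul, ← mean_add (fE i).2.1
      ((fD i).2.1.cmul Cb), ← mean_cmul]
    exact mean_mono0 hcn0 (((fE i).2.1.add ((fD i).2.1.cmul Cb)).cmul a)
      fun σ p hp => hpt i σ p hp
  have key2 : (∫ v in S, mM Ψ (fun p => cn p v 1)) ≤
      a * ((∫ v in E, mM Ψ (fun p => ce p v 1)) +
        Cb * ∫ v in D, mM Ψ (fun p => |uh χ 1 W z p v|)) := by
    unfold mM
    rw [integral_finsetSum _ fun i _ => (fS i).1, integral_finsetSum _ fun i _ => (fE i).1,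
      integral_finsetSum _ fun i _ => (fD i).1, mul_sum, ← sum_add_distrib, mul_sum]
    exact sum_le_sum fun i _ => key i
  -- the electrons
  have e1 : ∫ v in E, mM Ψ (fun p => ce p v 1) ≤ 15 * ((η3 * B + CE) * R ^ 2) := by
    have h1 := shc_le (fun v => mM Ψ (fun p => ce p v 1))
      (fun v => mM_nonneg Ψ fun p => ce_nonneg _ _ _)
      (fun s => by
        have h4 := sI_ce hsm 1 1 s (by norm_num)
        simp only [Real.rpow_one] at h4
        exact h4) ((η3 * B + CE) * R ^ 2) (R - 13) (by linarith) 15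
      (fun i _ => hE ι _ q n k R hR Ψ hsm hI.one B hB (R - 13 + i) (by
        have : (0 : ℝ) ≤ i := Nat.cast_nonneg i
        linarith)) E
      (fun v hv => by
        rw [hEs] at hv
        refine ⟨hv.1, ?_⟩
        have := hv.2
        push_cast
        linarith)
    push_cast at h1
    exact h1
  -- the potential
  have e2 : ∫ v in D, mM Ψ (fun p => |uh χ 1 W z p v|) ≤
      2 * (ε * (CP * (B + 1) * R ^ 2) + (ε⁻¹) ^ 2 * (CA * R ^ 2)) := by
    obtain ⟨H, hH⟩ : ∃ H : E3 → ℝ, H = fun v => ε * GP χ R W z Ψ v + (ε⁻¹) ^ 2 := ⟨_, rfl⟩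
    have hc : ∀ T : Set E3, volume T < ⊤ → IntegrableOn (fun _ : E3 => (ε⁻¹) ^ 2) T :=
      fun T hT => integrableOn_const hT.ne
    have hH0 : ∀ v, 0 ≤ H v := fun v => by
      rw [hH]
      have := GP_nonneg χ R W z Ψ v
      positivity
    have hHi : ∀ s, IntegrableOn H (Metric.ball 0 s) := fun s => by
      rw [hH]
      exact ((GP_int hχ R W z hsm s).const_mul ε).add (hc _ measure_ball_lt_top)
    have h1 : ∫ v in D, mM Ψ (fun p => |uh χ 1 W z p v|) ≤ ∫ v in D, H v := by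
      have hsub : D ⊆ Metric.ball (0 : E3) R := fun v hv => by
        rw [Metric.mem_ball, dist_zero_right]
        rw [hD] at hv
        have := hv.2
        linarith
      have i1 : IntegrableOn (fun v => mM Ψ (fun p => |uh χ 1 W z p v|)) D := by
        have h4 := sI_uh hsm hχ W z 1 R (by norm_num)
        simp only [Real.rpow_one] at h4
        exact h4.mono_set hsub
      refine setIntegral_mono_on i1 ((hHi R).mono_set hsub) mD fun v hv => ?_
      have h2 : v ∈ Metric.ball (0 : E3) (R - 2) := by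
        rw [Metric.mem_ball, dist_zero_right]
        rw [hD] at hv
        have := hv.2
        linarith
      rw [hH]
      simp only
      unfold GP
      rw [Set.indicator_of_mem h2]
      unfold mM
      rw [mul_sum]
      have h3 : (ε⁻¹) ^ 2 = ∑ i, (ε⁻¹) ^ 2 * mass (Ψ i) := by
        rw [← mul_sum, hI.one, mul_one]
      rw [h3, ← sum_add_distrib]
      refine sum_le_sum fun i _ => ?_
      rw [← mean_const, ← mean_cmul, ← mean_add ((IM_uht hχ (hsm i) 1 one_pos W z v (3 / 2)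
        (by norm_num)).cmul ε) (IM.cont (hsm i) continuous_const)]
      refine mean_mono ?_ (((IM_uht hχ (hsm i) 1 one_pos W z v (3 / 2)
        (by norm_num)).cmul ε).add (IM.cont (hsm i) continuous_const)) fun σ p _ =>
          btc_pow ε hεp _ (abs_nonneg _)
      have h4 := IM_uht hχ (hsm i) 1 one_pos W z v 1 (by norm_num)
      simp only [Real.rpow_one] at h4
      exact h4
    have h2 := shc_le H hH0 hHi (ε * (CP * (B + 1) * R ^ 2) + (ε⁻¹) ^ 2 * (CA * R ^ 2))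
      (R - 11) (by linarith) 2 (fun i hi => by
        have hi' : (i : ℝ) ≤ 1 := by
          have : i ≤ 1 := by omega
          exact_mod_cast this
        have hi0 : (0 : ℝ) ≤ i := Nat.cast_nonneg i
        have hv : volume (A (R - 11 + i)) < ⊤ :=
          (measure_mono (A_sub_ball _)).trans_lt measure_ball_lt_top
        have g1 := (GP_int hχ R W z hsm (R - 11 + i + 1)).mono_set (A_sub_ball (R - 11 + i))
        rw [hH, integral_add (g1.const_mul ε) (hc _ hv), integral_const_mul, setIntegral_const,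
          smul_eq_mul]
        refine add_le_add (mul_le_mul_of_nonneg_left (hP ι _ q n k R hR z W Ψ hI B hB
          (R - 11 + i) (by linarith)) hεp.le) ?_
        rw [mul_comm]
        refine mul_le_mul_of_nonneg_left ?_ (by positivity)
        have h5 := ENNReal.toReal_mono ENNReal.ofReal_ne_top
          (hvol (R - 11 + i) R (by linarith) (by linarith) (by linarith))
        rwa [ENNReal.toReal_ofReal (by positivity)] at h5) D
      (fun v hv => by
        rw [hD] at hv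
        refine ⟨hv.1, ?_⟩
        have := hv.2
        push_cast
        linarith)
    push_cast at h2
    exact h1.trans h2
  have h5 : a * (15 * (η3 * B * R ^ 2)) ≤ η / 2 * B * R ^ 2 := by
    have h6 : a * 15 * η3 ≤ η / 2 := by
      rw [hη3, mul_div_assoc', div_le_div_iff₀ hK1 (by norm_num)]
      nlinarith
    have h7 : 0 ≤ B * R ^ 2 := by positivity
    calc a * (15 * (η3 * B * R ^ 2)) = a * 15 * η3 * (B * R ^ 2) := by ring
      _ ≤ η / 2 * (B * R ^ 2) := mul_le_mul_of_nonneg_right h6 h7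
      _ = _ := by ring
  have h6 : a * (Cb * (2 * (ε * (CP * (B + 1) * R ^ 2)))) ≤ η / 2 * (B + 1) * R ^ 2 := by
    have h7 : 2 * a * Cb * CP * ε ≤ η / 2 := by
      rw [hε, mul_div_assoc', div_le_div_iff₀ hK2 (by norm_num)]
      have : 0 ≤ 2 * a * Cb * CP := by positivity
      nlinarith
    have h8 : 0 ≤ (B + 1) * R ^ 2 := by positivity
    calc a * (Cb * (2 * (ε * (CP * (B + 1) * R ^ 2)))) =
        2 * a * Cb * CP * ε * ((B + 1) * R ^ 2) := by ring
      _ ≤ η / 2 * ((B + 1) * R ^ 2) := mul_le_mul_of_nonneg_right h7 h8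
      _ = _ := by ring
  have h7 := mul_le_mul_of_nonneg_left (add_le_add e1 (mul_le_mul_of_nonneg_left e2 hCb)) ha0.le
  have h8 : a * (15 * ((η3 * B + CE) * R ^ 2) +
      Cb * (2 * (ε * (CP * (B + 1) * R ^ 2) + (ε⁻¹) ^ 2 * (CA * R ^ 2)))) =
      a * (15 * (η3 * B * R ^ 2)) + a * (Cb * (2 * (ε * (CP * (B + 1) * R ^ 2)))) +
      a * (15 * CE + Cb * (2 * ((ε⁻¹) ^ 2 * CA))) * R ^ 2 := by ring
  rw [h8] at h7
  have h10 : 0 ≤ η / 2 * R ^ 2 := by positivity
  rw [← hS]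
  calc ∫ v in S, mM Ψ (fun p => cn p v 1) ≤ η / 2 * B * R ^ 2 + η / 2 * (B + 1) * R ^ 2 +
      a * (15 * CE + Cb * (2 * ((ε⁻¹) ^ 2 * CA))) * R ^ 2 := by linarith
    _ ≤ (η * B + (η + a * (15 * CE + Cb * (2 * ((ε⁻¹) ^ 2 * CA))))) * R ^ 2 := by linarith

theorem btC (Ci zm zp : ℝ) (hzm : 0 < zm) {χ θ : E3 → ℝ} (hχ : Bump χ) (hθ : Cut θ) (η : ℝ)
    (hη : 0 < η) :
    ∃ C : ℝ, 0 ≤ C ∧ ∀ (ι : Type) (_ : Fintype ι) (q n k : ℕ) (R : ℝ) (_ : 100 ≤ R)
    (z : Fin k → ℝ) (W : Finset E3) (Ψ : ι → (Fin n → Fin q) → Cfg n k → ℂ)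
    (_ : Ine Ci zm zp q n k R z W χ θ Ψ) (B : ℝ) (_ : ShB R B Ψ) (r : ℝ) (_ : 0 ≤ r),
    ∫ v in A r, mM Ψ (fun p => cn p v 1) ≤ (η * B + C) * R ^ 2 := by
  obtain ⟨C1, hC1, h1⟩ := btc_inner Ci zm zp hzm hχ hθ (η / 2) (by positivity)
  obtain ⟨C2, hC2, h2⟩ := btc_layer Ci zm zp hzm hχ hθ (η / 2) (by positivity)
  refine ⟨C1 + C2, by positivity, ?_⟩
  intro ι _ q n k R hR z W Ψ hI B hB r hr
  have hsm : ∀ i, Sm q n k (Metric.ball 0 R) (Ψ i) := fun i => St_sm (hI.st i)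
  have hB0 := ShB_nonneg hR hB
  rcases le_or_gt r (R + 1) with h | h
  · have i2 : IntegrableOn (fun v => mM Ψ (fun p => cn p v 1)) (A r) := by
      have h4 := sI_cn hsm 1 1 (r + 1) (by norm_num)
      simp only [Real.rpow_one] at h4
      exact h4.mono_set (A_sub_ball r)
    have h3 := integral_inter_add_sdiff (s := A r) (t := Metric.ball (0 : E3) (R - 8))
      measurableSet_ball i2
    have h4 := h1 ι _ q n k R hR z W Ψ hI B hB r hr h
    have h5 := h2 ι _ q n k R hR z W Ψ hI B hB r hr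
    rw [← h3]
    calc _ ≤ (η / 2 * B + C1) * R ^ 2 + (η / 2 * B + C2) * R ^ 2 := add_le_add h4 h5
      _ = _ := by ring
  · have h1 : ∫ v in A r, mM Ψ (fun p => cn p v 1) = 0 := by
      refine setIntegral_eq_zero_of_forall_eq_zero fun v hv => ?_
      have h2 := out_cn hsm v 1 1 one_pos (h.le.trans hv.1)
      simp only [Real.rpow_one] at h2
      exact h2
    rw [h1]
    positivity

end H6.CL
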