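import Pool.Agent.H6.CB.FDefs
import Pool.Agent.H6.CB.HDef
import Pool.Agent.H6.CM.ShDef

/-! Definitions for the absolute bound of the mean potential in a ball. -/

open MeasureTheory Finset

namespace H6.CL

open H6.CM H6.CB

/-- expectation in a mixed state, i.e. in a finite family of wave functions -/
noncomputable def mM {ι : Type} [Fintype ι] {q n k : ℕ}
    (Ψ : ι → (Fin n → Fin q) → Cfg n k → ℂ) (F : Cfg n k → ℝ) : ℝ :=
  ∑ i, mean (Ψ i) F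

/-- local kinetic energy of a mixed state -/
noncomputable def TM {ι : Type} [Fintype ι] {q n k : ℕ}
    (Ψ : ι → (Fin n → Fin q) → Cfg n k → ℂ) (x : E3) (r : ℝ) : ℝ :=
  ∑ i, (TE (Ψ i) x r + TN (Ψ i) x r)

/-- `H6.CB.WW` for a mixed state -/
noncomputable def WM {ι : Type} [Fintype ι] {q n k : ℕ} (χ θ : E3 → ℝ) (W : Finset E3)
    (z : Fin k → ℝ) (Ψ : ι → (Fin n → Fin q) → Cfg n k → ℂ) (x : E3) : ℝ :=
  ∑ i, WW χ θ W z (Ψ i) x

/-- `H6.CB.SS` for a mixed state -/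
noncomputable def SM {ι : Type} [Fintype ι] {q n k : ℕ} (θ : E3 → ℝ)
    (Ψ : ι → (Fin n → Fin q) → Cfg n k → ℂ) (x : E3) : ℝ :=
  ∑ i, SS θ (Ψ i) x

/-- kinetic energy at distance more than `r` from the origin -/
noncomputable def TO {q n k : ℕ} (ψ : (Fin n → Fin q) → Cfg n k → ℂ) (r : ℝ) : ℝ :=
  (∑ a, ∑ σ, ∫ p, (if r < ‖p.1 a‖ then ge (ψ σ) a p else 0)) +
    ∑ j, ∑ σ, ∫ p, (if r < ‖p.2 j‖ then gn (ψ σ) j p else 0)

/-- the shell with inner radius `r` and thickness one -/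
def A (r : ℝ) : Set E3 := {v | r ≤ ‖v‖ ∧ ‖v‖ < r + 1}

/-- the closed shell between the radii `r` and `s` -/
def shc (r s : ℝ) : Set E3 := {v | r ≤ ‖v‖ ∧ ‖v‖ ≤ s}

/-- the number of particles in the shell between the radii `t` and `t + 2` -/
noncomputable def cS {n k : ℕ} (t : ℝ) (p : Cfg n k) : ℝ :=
  ∑ a, (if t ≤ ‖p.1 a‖ ∧ ‖p.1 a‖ ≤ t + 2 then 1 else 0) +
    ∑ j, (if t ≤ ‖p.2 j‖ ∧ ‖p.2 j‖ ≤ t + 2 then 1 else 0)

/-- the autocorrelation of `χ ^ 2` -/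
noncomputable def HH (χ : E3 → ℝ) (x : E3) : ℝ := ∫ c, χ c ^ 2 * χ (c + x) ^ 2

/-- normalising constant -/
noncomputable def cH (χ : E3 → ℝ) : ℝ :=
  (∫ t in Set.Ioi (0 : ℝ), HH χ (EuclideanSpace.single 0 t))⁻¹

/-- the long range part of the Coulomb kernel (it is `‖x‖⁻¹` for `1 ≤ ‖x‖`) -/
noncomputable def KL (χ : E3 → ℝ) (x : E3) : ℝ := cH χ * ∫ t in (0 : ℝ)..1, HH χ (t • x)

/-- the short range part of the Coulomb kernel -/
noncomputable def KS (χ : E3 → ℝ) (x : E3) : ℝ := ‖x‖⁻¹ - KL χ x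

/-- the form of the long range part -/
noncomputable def Dl (χ : E3 → ℝ) (f g : E3 → ℝ) : ℝ := ∫ x, f x * ∫ y, g y * KL χ (x - y)

/-- the weighted energy of the short range part -/
noncomputable def VS (χ J : E3 → ℝ) {n k : ℕ} (z : Fin k → ℝ) (p : Cfg n k) : ℝ :=
  (∑ a, ∑ b ∈ univ.erase a, J (p.1 a) * J (p.1 b) * KS χ (p.1 a - p.1 b)) / 2 -
    ∑ a, ∑ j, z j * (J (p.1 a) * J (p.2 j) * KS χ (p.1 a - p.2 j)) +
    (∑ j, ∑ l ∈ univ.erase j, z j * z l * (J (p.2 j) * J (p.2 l) *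
      KS χ (p.2 j - p.2 l))) / 2

/-- cutoffs which are equal to one near infinity -/
structure Lay (L : ℝ) (J : E3 → ℝ) : Prop where
  smooth : ContDiff ℝ (⊤ : ℕ∞) J
  cpt : HasCompactSupport (fun v => 1 - J v)
  mem : ∀ v, 0 ≤ J v ∧ J v ≤ 1
  grad : ∀ v, gr J v ≤ L
  lapl : ∀ v, |lap J v| ≤ L

/-- the cutoff of the boundary layer of thickness `40` in the ball of radius `R` -/
noncomputable def JL (R : ℝ) (v : E3) : ℝ := Real.smoothTransition (‖v‖ - (R - 41))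

/-- the inequalities which hold for equilibrium states in the ball of radius `R` -/
structure Ine {ι : Type} [Fintype ι] (C zm zp : ℝ) (q n k : ℕ) (R : ℝ) (z : Fin k → ℝ)
    (W : Finset E3) (χ θ : E3 → ℝ) (Ψ : ι → (Fin n → Fin q) → Cfg n k → ℂ) : Prop where
  hz : ∀ j, zm ≤ z j ∧ z j ≤ zp
  neu : ∑ j, z j = n
  st : ∀ i, St q n k (Metric.ball 0 R) (Ψ i)
  one : ∑ i, mass (Ψ i) = 1
  ww : ∀ x, Metric.closedBall x 14 ⊆ Metric.ball 0 R →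
    WM χ θ W z Ψ x ≤ C * (1 + mM Ψ (fun p => mm θ x p ^ (4 / 3 : ℝ)) + SM θ Ψ x +
      mM Ψ (fun p => (1 + mm θ x p ^ (1 / 6 : ℝ)) * (ce p x 14 + cn p x 14)) +
      mM Ψ (fun p => tl 13 p x))
  pp : ∀ v, Metric.closedBall v 2 ⊆ Metric.ball 0 R →
    mM Ψ (fun p => |uh χ 1 W z p v| ^ (3 / 2 : ℝ)) ≤
      C * (1 + mM Ψ (fun p => ce p v 2 ^ (3 / 2 : ℝ)) + mM Ψ (fun p => q4 1 p v))
  tt : ∀ x, TM Ψ x 1 ≤ C * (1 + WM χ θ W z Ψ x + SM θ Ψ x +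
    mM Ψ (fun p => ce p x 4 + cn p x 4))
  ly : ∑ i, TO (Ψ i) (R - 40) ≤ C * (R ^ 2 +
    (∫ x in shc (R - 44) (R - 37), (WM χ θ W z Ψ x + SM θ Ψ x)) +
    mM Ψ (fun p => shl (R - 44) p))

/-- the averages of the local quantities over the shells are at most `B` -/
structure ShB {ι : Type} [Fintype ι] {q n k : ℕ} (R B : ℝ)
    (Ψ : ι → (Fin n → Fin q) → Cfg n k → ℂ) : Prop where
  t : ∀ r, 0 ≤ r → ∫ v in A r, TM Ψ v 1 ≤ B * R ^ 2
  e : ∀ r, 0 ≤ r → ∫ v in A r, mM Ψ (fun p => ce p v 1 ^ (5 / 3 : ℝ)) ≤ B * R ^ 2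
  c : ∀ r, 0 ≤ r → ∫ v in A r, mM Ψ (fun p => cn p v 1) ≤ B * R ^ 2

end H6.CL
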