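import Pool.Agent.H6.CB.FMom
import Pool.Agent.H6.CL.Defs

/-! Covering inequalities with sums (`cover`, `c_cov`; compare `t_cov`, `m_cov` in `Pool/Agent/H6/CB/FCov.lean`). `t_covS`: `1[‖y - x‖ < R] ≤ ∑ c ∈ t, 1[‖y - (x + c)‖ < 1]`. `mom_covS`: `ce p x R ≤ ∑ c ∈ t, ce p (x + c) 1`, `u ^ s ≤ ε u ^ (5/3) + K`, and `(∑ c ∈ t, u c) ^ (5/3) ≤ t.card ^ (5/3) * ∑ c ∈ t, u c ^ (5/3)`; the set `t` does not depend on `η`. `mm_covS`: `mm θ x p ≤ ce p x 64`. -/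

open MeasureTheory Finset

namespace H6.CL

open H6.CM H6.CB

private theorem covS_ind {R : ℝ} {t : Finset E3}
    (ht : ∀ v : E3, ‖v‖ < R → ∃ c ∈ t, ‖v - c‖ < 1) (y x : E3) (g : ℝ) (hg : 0 ≤ g) :
    (if ‖y - x‖ < R then g else 0) ≤ ∑ c ∈ t, (if ‖y - (x + c)‖ < 1 then g else 0) := by
  have h0 : ∀ c ∈ t, 0 ≤ (if ‖y - (x + c)‖ < 1 then g else 0) := by
    intro c _
    split_ifs
    · exact hg
    · exact le_rfl
  split_ifs with h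
  · obtain ⟨c, hc, h1⟩ := ht (y - x) h
    refine le_trans ?_ (single_le_sum h0 hc)
    rw [sub_sub] at h1
    rw [if_pos h1]
  · exact sum_nonneg h0

private theorem covS_iint {n k : ℕ} {g : Cfg n k → ℝ} (hg : Integrable g) {f : Cfg n k → E3}
    (hf : Measurable f) (v : E3) (r : ℝ) :
    Integrable (fun p => if ‖f p - v‖ < r then g p else 0) := by
  have hm : MeasurableSet {p | ‖f p - v‖ < r} :=
    measurableSet_lt (hf.sub_const v).norm measurable_const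
  refine (hg.indicator hm).congr (Filter.Eventually.of_forall fun p => ?_)
  by_cases hp : ‖f p - v‖ < r
  · simp [hp]
  · simp [hp]

private theorem covS_int {n k : ℕ} {R : ℝ} {t : Finset E3}
    (ht : ∀ v : E3, ‖v‖ < R → ∃ c ∈ t, ‖v - c‖ < 1) {g : Cfg n k → ℝ} (hg : Integrable g)
    (hg0 : ∀ p, 0 ≤ g p) {f : Cfg n k → E3} (hf : Measurable f) (x : E3) :
    ∫ p, (if ‖f p - x‖ < R then g p else 0) ≤
      ∑ c ∈ t, ∫ p, (if ‖f p - (x + c)‖ < 1 then g p else 0) := by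
  rw [← integral_finsetSum _ fun c _ => covS_iint hg hf _ _]
  exact integral_mono (covS_iint hg hf _ _)
    (integrable_finsetSum _ fun c _ => covS_iint hg hf _ _) fun p => covS_ind ht _ _ _ (hg0 p)

theorem t_covS (R : ℝ) : ∃ t : Finset E3, (∀ c ∈ t, ‖c‖ ≤ R) ∧ ∀ (q n k : ℕ) (Λ : Set E3)
    (ψ : (Fin n → Fin q) → Cfg n k → ℂ) (_ : Sm q n k Λ ψ) (x : E3),
    TE ψ x R + TN ψ x R ≤ ∑ c ∈ t, (TE ψ (x + c) 1 + TN ψ (x + c) 1) := by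
  obtain ⟨t, ht1, ht2⟩ := cover R
  refine ⟨t, ht1, fun q n k Λ ψ hψ x => ?_⟩
  have h1 : TE ψ x R ≤ ∑ c ∈ t, TE ψ (x + c) 1 := by
    calc TE ψ x R ≤ ∑ a, ∑ σ, ∑ c ∈ t,
          ∫ p, (if ‖p.1 a - (x + c)‖ < 1 then ge (ψ σ) a p else 0) :=
          sum_le_sum fun a _ => sum_le_sum fun σ _ =>
            covS_int ht2 (kE_int hψ σ a) (fun p => ge_nonneg _ _ _) (meas_e a) x
      _ = ∑ a, ∑ c ∈ t, ∑ σ,
          ∫ p, (if ‖p.1 a - (x + c)‖ < 1 then ge (ψ σ) a p else 0) :=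
          sum_congr rfl fun a _ => sum_comm
      _ = ∑ c ∈ t, TE ψ (x + c) 1 := sum_comm
  have h2 : TN ψ x R ≤ ∑ c ∈ t, TN ψ (x + c) 1 := by
    calc TN ψ x R ≤ ∑ j, ∑ σ, ∑ c ∈ t,
          ∫ p, (if ‖p.2 j - (x + c)‖ < 1 then gn (ψ σ) j p else 0) :=
          sum_le_sum fun a _ => sum_le_sum fun σ _ =>
            covS_int ht2 (kN_int hψ σ a) (fun p => gn_nonneg _ _ _) (meas_n a) x
      _ = ∑ j, ∑ c ∈ t, ∑ σ,
          ∫ p, (if ‖p.2 j - (x + c)‖ < 1 then gn (ψ σ) j p else 0) :=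
          sum_congr rfl fun a _ => sum_comm
      _ = ∑ c ∈ t, TN ψ (x + c) 1 := sum_comm
  rw [sum_add_distrib]
  exact add_le_add h1 h2

/-- interpolation of powers -/
private theorem covS_pow (t : ℝ) (ht : 0 ≤ t) (ht' : t < 5 / 3) (ε : ℝ) (hε : 0 < ε) :
    ∃ K : ℝ, 0 ≤ K ∧ ∀ u : ℝ, 0 ≤ u → u ^ t ≤ ε * u ^ (5 / 3 : ℝ) + K := by
  obtain ⟨s, hs⟩ : ∃ s : ℝ, s = 5 / 3 - t := ⟨_, rfl⟩
  have hs0 : 0 < s := by rw [hs]; linarith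
  obtain ⟨M, hM⟩ : ∃ M : ℝ, M = (ε⁻¹) ^ (1 / s) := ⟨_, rfl⟩
  have hM0 : 0 < M := by rw [hM]; positivity
  have hMs : M ^ s = ε⁻¹ := by
    rw [hM, ← Real.rpow_mul (by positivity), one_div, inv_mul_cancel₀ hs0.ne', Real.rpow_one]
  refine ⟨M ^ t, by positivity, fun u hu => ?_⟩
  rcases le_total u M with h | h
  · have h1 : u ^ t ≤ M ^ t := Real.rpow_le_rpow hu h ht
    have h2 : 0 ≤ ε * u ^ (5 / 3 : ℝ) := by positivity
    linarith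
  · have hu0 : 0 < u := hM0.trans_le h
    have h1 : ε⁻¹ ≤ u ^ s := by
      rw [← hMs]
      exact Real.rpow_le_rpow hM0.le h hs0.le
    have h2 : 1 ≤ ε * u ^ s := by
      rw [inv_le_iff_one_le_mul₀ hε] at h1
      linarith
    have h3 : u ^ (5 / 3 : ℝ) = u ^ s * u ^ t := by
      rw [← Real.rpow_add hu0, hs]
      congr 1
      ring
    have h4 : 0 ≤ u ^ t := by positivity
    have h5 : u ^ t ≤ ε * u ^ (5 / 3 : ℝ) := by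
      rw [h3, ← mul_assoc]
      nlinarith
    have h6 : 0 ≤ M ^ t := by positivity
    linarith

theorem mom_covS (R : ℝ) : ∃ t : Finset E3, (∀ c ∈ t, ‖c‖ ≤ R) ∧
    ∀ s η : ℝ, 0 ≤ s → s < 5 / 3 → 0 < η → ∃ C : ℝ, 0 ≤ C ∧ ∀ (q n k : ℕ) (Λ : Set E3)
    (ψ : (Fin n → Fin q) → Cfg n k → ℂ) (_ : Sm q n k Λ ψ) (x : E3),
    mean ψ (fun p => ce p x R ^ s) ≤
      η * (∑ c ∈ t, mean ψ (fun p => ce p (x + c) 1 ^ (5 / 3 : ℝ))) + C * mass ψ := by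
  obtain ⟨t, ht1, ht2⟩ := c_cov R
  refine ⟨t, ht1, fun s η hs0 hs1 hη => ?_⟩
  obtain ⟨D, hD⟩ : ∃ D : ℝ, D = (t.card : ℝ) ^ ((5 / 3 : ℝ) - 1) := ⟨_, rfl⟩
  have hD0 : 0 ≤ D := by rw [hD]; positivity
  obtain ⟨K, hK, hpow⟩ := covS_pow s hs0 hs1 (η / (D + 1)) (by positivity)
  refine ⟨K, hK, fun q n k Λ ψ hψ x => ?_⟩
  have hI : ∀ y r, IM ψ (fun p => ce p y r ^ (5 / 3 : ℝ)) := fun y r =>
    IM_cet hψ y r _ (by norm_num)
  have hone : IM ψ (fun _ => (1 : ℝ)) := IM.cont hψ continuous_const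
  have hS : IM ψ (fun p => ∑ c ∈ t, ce p (x + c) 1 ^ (5 / 3 : ℝ)) := IM.sum _ fun c _ => hI _ _
  have h1 : mean ψ (fun p => ce p x R ^ s) ≤
      mean ψ (fun p => η * (∑ c ∈ t, ce p (x + c) 1 ^ (5 / 3 : ℝ)) + K * 1) := by
    refine mean_mono (IM_cet hψ x R s hs0) ((hS.cmul _).add (hone.cmul K)) fun σ p _ => ?_
    rw [mul_one]
    refine (hpow _ (ce_nonneg p x R)).trans (add_le_add ?_ le_rfl)
    have h2 : ce p x R ^ (5 / 3 : ℝ) ≤ D * ∑ c ∈ t, ce p (x + c) 1 ^ (5 / 3 : ℝ) := by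
      refine (Real.rpow_le_rpow (ce_nonneg p x R) (ht2 n k p x).1 (by norm_num)).trans ?_
      rw [hD]
      exact Real.rpow_sum_le_const_mul_sum_rpow_of_nonneg t (by norm_num)
        (fun c _ => ce_nonneg p _ _)
    have h3 : 0 ≤ ∑ c ∈ t, ce p (x + c) 1 ^ (5 / 3 : ℝ) :=
      sum_nonneg fun c _ => Real.rpow_nonneg (ce_nonneg p _ _) _
    calc η / (D + 1) * ce p x R ^ (5 / 3 : ℝ)
        ≤ η / (D + 1) * (D * ∑ c ∈ t, ce p (x + c) 1 ^ (5 / 3 : ℝ)) :=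
          mul_le_mul_of_nonneg_left h2 (by positivity)
      _ = η * (∑ c ∈ t, ce p (x + c) 1 ^ (5 / 3 : ℝ)) * (D / (D + 1)) := by ring
      _ ≤ η * (∑ c ∈ t, ce p (x + c) 1 ^ (5 / 3 : ℝ)) * 1 := by
          refine mul_le_mul_of_nonneg_left ?_ (by positivity)
          rw [div_le_one (by linarith)]
          linarith
      _ = _ := mul_one _
  rw [mean_add (hS.cmul _) (hone.cmul K), mean_cmul, mean_cmul, mean_one,
    mean_sum _ fun c _ => hI _ _] at h1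
  exact h1

theorem mm_covS {θ : E3 → ℝ} (hθ : Cut θ) : ∃ t : Finset E3, (∀ c ∈ t, ‖c‖ ≤ 64) ∧
    ∀ s η : ℝ, 0 ≤ s → s < 5 / 3 → 0 < η → ∃ C : ℝ, 0 ≤ C ∧ ∀ (q n k : ℕ) (Λ : Set E3)
    (ψ : (Fin n → Fin q) → Cfg n k → ℂ) (_ : Sm q n k Λ ψ) (x : E3),
    mean ψ (fun p => mm θ x p ^ s) ≤
      η * (∑ c ∈ t, mean ψ (fun p => ce p (x + c) 1 ^ (5 / 3 : ℝ))) + C * mass ψ := by
  obtain ⟨t, ht1, H⟩ := mom_covS 64
  refine ⟨t, ht1, fun s η hs0 hs1 hη => ?_⟩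
  obtain ⟨C, hC, H1⟩ := H s η hs0 hs1 hη
  refine ⟨C, hC, fun q n k Λ ψ hψ x => ?_⟩
  refine le_trans (mean_mono (IM_mmt hθ hψ x s hs0) (IM_cet hψ x 64 s hs0) fun σ p _ => ?_)
    (H1 q n k Λ ψ hψ x)
  exact Real.rpow_le_rpow (sum_nonneg fun _ _ => sq_nonneg _) (mm_hi hθ x p) hs0

end H6.CL
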