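import Pool.Agent.H6.CL.ShI
import Pool.Agent.H6.CL.CovS

/-! Moments averaged over shells: integrate `mom_covS`, `mm_covS` over `A r` and use `shn` (translations) for the function `v ↦ mM Ψ (ce p v 1 ^ (5/3))`, and `A_vol` for the constant (`∑ mass = 1`). For `R + 1 < r` and radius one everything vanishes (`out_ce`). -/

open MeasureTheory Finset

namespace H6.CL

open H6.CM H6.CB

private theorem btm_sub (r : ℝ) : A r ⊆ Metric.ball (0 : E3) (r + 1) := fun v hv => by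
  rw [Metric.mem_ball, dist_zero_right]
  exact hv.2

private theorem btm_B {ι : Type} [Fintype ι] {q n k : ℕ} {R B : ℝ}
    {Ψ : ι → (Fin n → Fin q) → Cfg n k → ℂ} (h : ShB R B Ψ) : 0 ≤ B * R ^ 2 := by
  refine le_trans ?_ (h.e 0 le_rfl)
  exact setIntegral_nonneg (A_meas 0) fun v _ => mM_nonneg Ψ fun p =>
    Real.rpow_nonneg (ce_nonneg p v 1) _

private theorem btm_core (ρ : ℝ) (hρ : 0 ≤ ρ) (t : Finset E3) (ht : ∀ c ∈ t, ‖c‖ ≤ ρ) (η : ℝ)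
    (hη : 0 < η) : ∃ η' : ℝ, 0 < η' ∧ ∃ C1 : ℝ, 0 ≤ C1 ∧ ∀ (C2 : ℝ) (_ : 0 ≤ C2)
    (ι : Type) (_ : Fintype ι) (q n k : ℕ) (R : ℝ) (_ : 100 ≤ R)
    (Ψ : ι → (Fin n → Fin q) → Cfg n k → ℂ) (_ : ∀ i, Sm q n k (Metric.ball 0 R) (Ψ i))
    (B : ℝ) (_ : ShB R B Ψ) (r : ℝ) (_ : 0 ≤ r) (_ : r ≤ R + 1) (f : E3 → ℝ)
    (_ : IntegrableOn f (A r))
    (_ : ∀ v, f v ≤ η' * (∑ c ∈ t, mM Ψ (fun p => ce p (v + c) 1 ^ (5 / 3 : ℝ))) + C2),
    ∫ v in A r, f v ≤ (η * B + C1 * C2) * R ^ 2 := by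
  obtain ⟨C, hC, hsh⟩ := shn ρ hρ
  obtain ⟨D, hD, hvol⟩ := A_vol
  have hK : (0 : ℝ) < t.card * C + 1 := by positivity
  refine ⟨η / (t.card * C + 1), by positivity, D, hD, ?_⟩
  intro C2 hC2 ι _ q n k R hR Ψ hΨ B hB r hr hrR f hf hfb
  obtain ⟨G, hG⟩ : ∃ G : E3 → ℝ, G = fun v => mM Ψ (fun p => ce p v 1 ^ (5 / 3 : ℝ)) :=
    ⟨_, rfl⟩
  have hG0 : ∀ v, 0 ≤ G v := fun v => by
    rw [hG]
    exact mM_nonneg Ψ fun p => Real.rpow_nonneg (ce_nonneg p v 1) _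
  have hGi : ∀ s, IntegrableOn G (Metric.ball 0 s) := fun s => by
    rw [hG]
    exact sI_ce hΨ 1 (5 / 3) s (by norm_num)
  have hGs : ∀ c ∈ t, IntegrableOn (fun v => G (v + c)) (A r) ∧
      ∫ v in A r, G (v + c) ≤ C * (B * R ^ 2) := fun c hc =>
    (hsh G hG0 hGi (B * R ^ 2) (fun r' hr' => by rw [hG]; exact hB.e r' hr') r hr).1 c
      (ht c hc)
  have hfin : volume (A r) ≠ ⊤ :=
    ((measure_mono (btm_sub r)).trans_lt measure_ball_lt_top).ne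
  have hc2 : IntegrableOn (fun _ : E3 => C2) (A r) := integrableOn_const hfin
  have hsum : IntegrableOn (fun v => ∑ c ∈ t, G (v + c)) (A r) :=
    integrable_finsetSum _ fun c hc => (hGs c hc).1
  have h1 : ∫ v in A r, f v ≤ ∫ v in A r, (η / (t.card * C + 1) * (∑ c ∈ t, G (v + c)) + C2) := by
    refine setIntegral_mono hf ((hsum.const_mul _).add hc2) fun v => ?_
    rw [hG]
    exact hfb v
  have h2 : ∫ v in A r, (η / (t.card * C + 1) * (∑ c ∈ t, G (v + c)) + C2) =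
      η / (t.card * C + 1) * (∑ c ∈ t, ∫ v in A r, G (v + c)) +
        (volume (A r)).toReal * C2 := by
    rw [integral_add (hsum.const_mul _) hc2, integral_const_mul,
      integral_finsetSum _ fun c hc => (hGs c hc).1, setIntegral_const, smul_eq_mul]
    rfl
  have h3 : ∑ c ∈ t, ∫ v in A r, G (v + c) ≤ t.card * C * (B * R ^ 2) := by
    calc ∑ c ∈ t, ∫ v in A r, G (v + c) ≤ ∑ _c ∈ t, C * (B * R ^ 2) :=
          sum_le_sum fun c hc => (hGs c hc).2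
      _ = t.card * C * (B * R ^ 2) := by
          rw [sum_const, nsmul_eq_mul]
          ring
  have h4 : (volume (A r)).toReal ≤ D * R ^ 2 := by
    have h5 := ENNReal.toReal_mono ENNReal.ofReal_ne_top (hvol r R hr hrR (by linarith))
    rwa [ENNReal.toReal_ofReal (by positivity)] at h5
  have hBR := btm_B hB
  rw [h2] at h1
  have h6 : η / (t.card * C + 1) * (∑ c ∈ t, ∫ v in A r, G (v + c)) ≤ η * (B * R ^ 2) := by
    refine (mul_le_mul_of_nonneg_left h3 (by positivity)).trans ?_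
    rw [div_mul_eq_mul_div, div_le_iff₀ hK]
    have h7 : 0 ≤ η * (B * R ^ 2) := mul_nonneg hη.le hBR
    nlinarith
  have h8 : (volume (A r)).toReal * C2 ≤ D * R ^ 2 * C2 := mul_le_mul_of_nonneg_right h4 hC2
  calc ∫ v in A r, f v ≤ η * (B * R ^ 2) + D * R ^ 2 * C2 := by linarith
    _ = (η * B + D * C2) * R ^ 2 := by ring

/-- moments of the number of electrons in a ball of radius `ρ` -/
theorem btM (ρ s : ℝ) (hρ : 0 ≤ ρ) (hs : 0 ≤ s) (hs' : s < 5 / 3) (η : ℝ) (hη : 0 < η) :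
    ∃ C : ℝ, 0 ≤ C ∧ ∀ (ι : Type) (_ : Fintype ι) (q n k : ℕ) (R : ℝ) (_ : 100 ≤ R)
    (Ψ : ι → (Fin n → Fin q) → Cfg n k → ℂ) (_ : ∀ i, Sm q n k (Metric.ball 0 R) (Ψ i))
    (_ : ∑ i, mass (Ψ i) = 1) (B : ℝ) (_ : ShB R B Ψ) (r : ℝ) (_ : 0 ≤ r) (_ : r ≤ R + 1),
    ∫ v in A r, mM Ψ (fun p => ce p v ρ ^ s) ≤ (η * B + C) * R ^ 2 := by
  obtain ⟨t, ht, H⟩ := mom_covS ρ
  obtain ⟨η', hη', C1, hC1, H1⟩ := btm_core ρ hρ t ht η hη
  obtain ⟨C2, hC2, H2⟩ := H s η' hs hs' hη'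
  refine ⟨C1 * C2, by positivity, ?_⟩
  intro ι _ q n k R hR Ψ hΨ hm B hB r hr hrR
  refine H1 C2 hC2 ι _ q n k R hR Ψ hΨ B hB r hr hrR _
    ((sI_ce hΨ ρ s (r + 1) hs).mono_set (btm_sub r)) fun v => ?_
  unfold mM
  refine (sum_le_sum fun i _ => H2 q n k _ (Ψ i) (hΨ i) v).trans (le_of_eq ?_)
  rw [sum_add_distrib, ← mul_sum, ← mul_sum, hm, mul_one, sum_comm]

theorem btmm {θ : E3 → ℝ} (hθ : Cut θ) (s : ℝ) (hs : 0 ≤ s) (hs' : s < 5 / 3) (η : ℝ)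
    (hη : 0 < η) :
    ∃ C : ℝ, 0 ≤ C ∧ ∀ (ι : Type) (_ : Fintype ι) (q n k : ℕ) (R : ℝ) (_ : 100 ≤ R)
    (Ψ : ι → (Fin n → Fin q) → Cfg n k → ℂ) (_ : ∀ i, Sm q n k (Metric.ball 0 R) (Ψ i))
    (_ : ∑ i, mass (Ψ i) = 1) (B : ℝ) (_ : ShB R B Ψ) (r : ℝ) (_ : 0 ≤ r) (_ : r ≤ R + 1),
    ∫ v in A r, mM Ψ (fun p => mm θ v p ^ s) ≤ (η * B + C) * R ^ 2 := by
  obtain ⟨t, ht, H⟩ := mm_covS hθ
  obtain ⟨η', hη', C1, hC1, H1⟩ := btm_core 64 (by norm_num) t ht η hη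
  obtain ⟨C2, hC2, H2⟩ := H s η' hs hs' hη'
  refine ⟨C1 * C2, by positivity, ?_⟩
  intro ι _ q n k R hR Ψ hΨ hm B hB r hr hrR
  refine H1 C2 hC2 ι _ q n k R hR Ψ hΨ B hB r hr hrR _
    ((sI_mm hΨ hθ s (r + 1) hs).mono_set (btm_sub r)) fun v => ?_
  unfold mM
  refine (sum_le_sum fun i _ => H2 q n k _ (Ψ i) (hΨ i) v).trans (le_of_eq ?_)
  rw [sum_add_distrib, ← mul_sum, ← mul_sum, hm, mul_one, sum_comm]

/-- the number of electrons in unit balls, for all shells -/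
theorem btE (η : ℝ) (hη : 0 < η) :
    ∃ C : ℝ, 0 ≤ C ∧ ∀ (ι : Type) (_ : Fintype ι) (q n k : ℕ) (R : ℝ) (_ : 100 ≤ R)
    (Ψ : ι → (Fin n → Fin q) → Cfg n k → ℂ) (_ : ∀ i, Sm q n k (Metric.ball 0 R) (Ψ i))
    (_ : ∑ i, mass (Ψ i) = 1) (B : ℝ) (_ : ShB R B Ψ) (r : ℝ) (_ : 0 ≤ r),
    ∫ v in A r, mM Ψ (fun p => ce p v 1) ≤ (η * B + C) * R ^ 2 := by
  obtain ⟨C, hC, H⟩ := btM 1 1 (by norm_num) (by norm_num) (by norm_num) η hη
  refine ⟨C, hC, ?_⟩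
  intro ι _ q n k R hR Ψ hΨ hm B hB r hr
  rcases le_or_gt r (R + 1) with h | h
  · have h1 := H ι _ q n k R hR Ψ hΨ hm B hB r hr h
    simp only [Real.rpow_one] at h1
    exact h1
  · have h1 : ∫ v in A r, mM Ψ (fun p => ce p v 1) = 0 := by
      refine setIntegral_eq_zero_of_forall_eq_zero fun v hv => ?_
      have h2 := out_ce hΨ v 1 1 one_pos (h.le.trans hv.1)
      simp only [Real.rpow_one] at h2
      exact h2
    rw [h1]
    have h2 := mul_nonneg hη.le (btm_B hB)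
    have h3 : 0 ≤ C * R ^ 2 := by positivity
    linarith

end H6.CL
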