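import Pool.Agent.H6.CL.Defs

/-! Neighbouring shells. The set of all points at distance at most `ρ` from `A r` is contained in the union of the shells `A (max 0 (r - ρ) + j)`, `j = 0, ..., ⌈2 ρ⌉₊ + 2`. `shn_tr`: translation. `shn_ball`: Fubini, `∫ x in A r, 1[‖v - x‖ < ρ] ≤ volume of the ball`. `A_vol`: the volume of `A r` is `(4 π / 3) ((r + 1) ^ 3 - r ^ 3)`. -/

open MeasureTheory Finset

namespace H6.CL

open H6.CM H6.CB

theorem A_meas (r : ℝ) : MeasurableSet (A r) := by
  exact (measurableSet_le measurable_const measurable_norm).inter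
    (measurableSet_lt measurable_norm measurable_const)

theorem A_vol : ∃ C : ℝ, 0 ≤ C ∧ ∀ (r R : ℝ) (_ : 0 ≤ r) (_ : r ≤ R + 1) (_ : 1 ≤ R),
    volume (A r) ≤ ENNReal.ofReal (C * R ^ 2) := by
  refine ⟨19 * (Real.pi * 4 / 3), by positivity, fun r R hr hrR hR => ?_⟩
  have hset : A r = Metric.ball (0 : E3) (r + 1) \ Metric.ball (0 : E3) r := by
    ext v
    simp only [A, Set.mem_ofPred_eq, Set.mem_sdiff, Metric.mem_ball, dist_zero_right, not_lt]
    exact and_comm
  have hsub : Metric.ball (0 : E3) r ⊆ Metric.ball (0 : E3) (r + 1) :=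
    Metric.ball_subset_ball (by linarith)
  rw [hset, measure_sdiff hsub Metric.isOpen_ball.measurableSet.nullMeasurableSet
    measure_ball_lt_top.ne, EuclideanSpace.volume_ball_fin_three,
    EuclideanSpace.volume_ball_fin_three, ← ENNReal.ofReal_pow (by linarith),
    ← ENNReal.ofReal_pow hr, ← ENNReal.ofReal_mul (by positivity),
    ← ENNReal.ofReal_mul (by positivity), ← ENNReal.ofReal_sub _ (by positivity)]
  refine ENNReal.ofReal_le_ofReal ?_
  have h1 : (r + 1) ^ 3 - r ^ 3 ≤ 19 * R ^ 2 := by nlinarith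
  have h2 := mul_le_mul_of_nonneg_right h1 (show (0 : ℝ) ≤ Real.pi * 4 / 3 by positivity)
  linarith

private theorem shn_meas (r s : ℝ) : MeasurableSet {v : E3 | r ≤ ‖v‖ ∧ ‖v‖ < s} :=
  (measurableSet_le measurable_const measurable_norm).inter
    (measurableSet_lt measurable_norm measurable_const)

private theorem shn_sum (G : E3 → ℝ) (hG : ∀ v, 0 ≤ G v)
    (hi : ∀ s, IntegrableOn G (Metric.ball 0 s))
    (M : ℝ) (r : ℝ) (hr : 0 ≤ r) (m : ℕ)
    (hM : ∀ i : ℕ, i < m → ∫ v in A (r + i), G v ≤ M) :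
    ∫ v in {v : E3 | r ≤ ‖v‖ ∧ ‖v‖ < r + m}, G v ≤ m * M := by
  have hint : ∀ a b : ℝ, IntegrableOn G {v : E3 | a ≤ ‖v‖ ∧ ‖v‖ < b} := fun a b =>
    (hi b).mono_set fun v hv => by
      rw [Metric.mem_ball, dist_zero_right]
      exact hv.2
  induction m with
  | zero =>
    have h1 : {v : E3 | r ≤ ‖v‖ ∧ ‖v‖ < r + ((0 : ℕ) : ℝ)} = ∅ := by
      ext v
      simp only [Nat.cast_zero, add_zero, Set.mem_ofPred_eq, Set.mem_empty_iff_false, iff_false]
      rintro ⟨h1, h2⟩
      linarith
    rw [h1, setIntegral_empty]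
    simp
  | succ m ih =>
    have h1 : {v : E3 | r ≤ ‖v‖ ∧ ‖v‖ < r + ((m + 1 : ℕ) : ℝ)} =
        {v : E3 | r ≤ ‖v‖ ∧ ‖v‖ < r + m} ∪ A (r + m) := by
      ext v
      simp only [A, Set.mem_ofPred_eq, Set.mem_union]
      push_cast
      have hm : (0 : ℝ) ≤ m := Nat.cast_nonneg m
      constructor
      · rintro ⟨h2, h3⟩
        rcases lt_or_ge ‖v‖ (r + m) with h4 | h4
        · exact Or.inl ⟨h2, h4⟩
        · exact Or.inr ⟨h4, by linarith⟩
      · rintro (⟨h2, h3⟩ | ⟨h2, h3⟩)
        · exact ⟨h2, by linarith⟩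
        · exact ⟨by linarith, by linarith⟩
    have h2 : Disjoint {v : E3 | r ≤ ‖v‖ ∧ ‖v‖ < r + m} (A (r + m)) := by
      rw [Set.disjoint_left]
      intro v hv hv'
      exact absurd hv.2 (not_lt.2 hv'.1)
    rw [h1, setIntegral_union h2 (A_meas _) (hint _ _) (hint _ _)]
    have h3 := ih fun i hi' => hM i (by omega)
    have h4 := hM m (by omega)
    push_cast
    linarith

theorem shn (ρ : ℝ) (hρ : 0 ≤ ρ) : ∃ C : ℝ, 0 ≤ C ∧ ∀ (G : E3 → ℝ) (_ : ∀ v, 0 ≤ G v)
    (_ : ∀ s, IntegrableOn G (Metric.ball 0 s)) (M : ℝ)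
    (_ : ∀ r, 0 ≤ r → ∫ v in A r, G v ≤ M) (r : ℝ) (_ : 0 ≤ r),
    (∀ c : E3, ‖c‖ ≤ ρ → IntegrableOn (fun v => G (v + c)) (A r) ∧
      ∫ v in A r, G (v + c) ≤ C * M) ∧
    IntegrableOn (fun x => ∫ v in Metric.ball x ρ, G v) (A r) ∧
    ∫ x in A r, (∫ v in Metric.ball x ρ, G v) ≤ C * M := by
  obtain ⟨V, hV⟩ : ∃ V : ℝ, V = (volume (Metric.ball (0 : E3) ρ)).toReal := ⟨_, rfl⟩
  have hV0 : 0 ≤ V := by rw [hV]; exact ENNReal.toReal_nonneg
  obtain ⟨m, hm⟩ : ∃ m : ℕ, m = ⌈2 * ρ⌉₊ + 2 := ⟨_, rfl⟩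
  have hm1 : 2 * ρ + 2 ≤ (m : ℝ) := by
    rw [hm]
    push_cast
    linarith [Nat.le_ceil (2 * ρ)]
  refine ⟨m * (1 + V), by positivity, fun G hG hi M hM r hr => ?_⟩
  have hM0 : 0 ≤ M := (setIntegral_nonneg (A_meas 0) fun v _ => hG v).trans (hM 0 le_rfl)
  obtain ⟨r', hr'⟩ : ∃ r' : ℝ, r' = max 0 (r - ρ) := ⟨_, rfl⟩
  have hr'0 : 0 ≤ r' := by rw [hr']; exact le_max_left _ _
  have hr'1 : r - ρ ≤ r' := by rw [hr']; exact le_max_right _ _
  obtain ⟨D, hD⟩ : ∃ D : Set E3, D = {v : E3 | r' ≤ ‖v‖ ∧ ‖v‖ < r' + m} := ⟨_, rfl⟩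
  have hDm : MeasurableSet D := by rw [hD]; exact shn_meas _ _
  have hDi : IntegrableOn G D := (hi (r' + m)).mono_set fun v hv => by
    rw [hD] at hv
    rw [Metric.mem_ball, dist_zero_right]
    exact hv.2
  have hDM : ∫ v in D, G v ≤ m * M := by
    rw [hD]
    exact shn_sum G hG hi M r' hr'0 m fun i _ => hM _ (by positivity)
  have hmem : ∀ x v : E3, x ∈ A r → ‖v - x‖ ≤ ρ → v ∈ D := by
    intro x v hx hv
    have h1 : ‖v‖ ≤ ‖v - x‖ + ‖x‖ := by
      have := norm_add_le (v - x) x
      rwa [sub_add_cancel] at this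
    have h2 : ‖x‖ ≤ ‖v - x‖ + ‖v‖ := by
      have := norm_sub_le v (v - x)
      rw [sub_sub_cancel] at this
      linarith
    rw [hD]
    have h3 := hx.1
    have h4 := hx.2
    refine ⟨?_, ?_⟩
    · rw [hr']
      exact max_le (norm_nonneg v) (by linarith)
    · linarith
  have hmM : (m : ℝ) * M ≤ m * (1 + V) * M := by
    have : 0 ≤ (m : ℝ) * M * V := by positivity
    nlinarith
  refine ⟨fun c hc => ?_, ?_⟩
  · have hmp : MeasurePreserving (fun v : E3 => v + c) volume volume :=
      measurePreserving_add_right volume c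
    have hemb : MeasurableEmbedding (fun v : E3 => v + c) := (MeasurableEquiv.addRight c).measurableEmbedding
    have hsub : A r ⊆ (fun v : E3 => v + c) ⁻¹' D := by
      intro v hv
      refine hmem v (v + c) hv ?_
      rwa [add_sub_cancel_left]
    have hI : IntegrableOn (fun v => G (v + c)) ((fun v : E3 => v + c) ⁻¹' D) :=
      (hmp.integrableOn_comp_preimage hemb).2 hDi
    refine ⟨hI.mono_set hsub, ?_⟩
    calc ∫ v in A r, G (v + c) ≤ ∫ v in (fun v : E3 => v + c) ⁻¹' D, G (v + c) :=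
          setIntegral_mono_set hI (Filter.Eventually.of_forall fun v => hG _)
            (Filter.Eventually.of_forall hsub)
      _ = ∫ v in D, G v := hmp.setIntegral_preimage_emb hemb G D
      _ ≤ m * M := hDM
      _ ≤ _ := hmM
  · -- Fubini
    obtain ⟨F, hF⟩ : ∃ F : E3 × E3 → ℝ, F = fun u =>
        {u : E3 × E3 | ‖u.2 - u.1‖ < ρ}.indicator (fun u => G u.2) u := ⟨_, rfl⟩
    have hSm : MeasurableSet {u : E3 × E3 | ‖u.2 - u.1‖ < ρ} :=
      measurableSet_lt (measurable_snd.sub measurable_fst).norm measurable_const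
    have hAr : volume (A r) ≠ ⊤ := by
      refine ne_top_of_le_ne_top (measure_ball_lt_top (μ := (volume : Measure E3))
        (x := 0) (r := r + 1)).ne (measure_mono fun v hv => ?_)
      rw [Metric.mem_ball, dist_zero_right]
      exact hv.2
    have : IsFiniteMeasure ((volume : Measure E3).restrict (A r)) :=
      ⟨by rw [Measure.restrict_apply_univ]; exact lt_top_iff_ne_top.2 hAr⟩
    have hFi : Integrable F (((volume : Measure E3).restrict (A r)).prod
        ((volume : Measure E3).restrict D)) := by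
      rw [hF]
      have h1 : Integrable (fun u : E3 × E3 => G u.2) (((volume : Measure E3).restrict (A r)).prod
        ((volume : Measure E3).restrict D)) := by
        have h2 := Integrable.mul_prod (μ := (volume : Measure E3).restrict (A r))
          (ν := (volume : Measure E3).restrict D) (f := fun _ : E3 => (1 : ℝ))
          (integrable_const _) (g := G) hDi
        refine h2.congr (Filter.Eventually.of_forall fun u => ?_)
        simp
      exact h1.indicator hSm
    have hin : ∀ x ∈ A r, ∫ v in D, F (x, v) = ∫ v in Metric.ball x ρ, G v := by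
      intro x hx
      have h1 : ∀ v, F (x, v) = (Metric.ball x ρ).indicator G v := by
        intro v
        rw [hF]
        by_cases h : ‖v - x‖ < ρ
        · have hv : v ∈ Metric.ball x ρ := by rwa [Metric.mem_ball, dist_eq_norm]
          simp only [Set.indicator_of_mem hv,
            Set.indicator_of_mem (show (x, v) ∈ {u : E3 × E3 | ‖u.2 - u.1‖ < ρ} from h)]
        · have hv : v ∉ Metric.ball x ρ := by rwa [Metric.mem_ball, dist_eq_norm]
          simp only [Set.indicator_of_notMem hv,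
            Set.indicator_of_notMem (show (x, v) ∉ {u : E3 × E3 | ‖u.2 - u.1‖ < ρ} from h)]
      simp only [h1]
      rw [setIntegral_indicator Metric.isOpen_ball.measurableSet]
      congr 1
      have h2 : D ∩ Metric.ball x ρ = Metric.ball x ρ := by
        refine Set.inter_eq_self_of_subset_right fun v hv => hmem x v hx ?_
        rw [Metric.mem_ball, dist_eq_norm] at hv
        exact hv.le
      rw [h2]
    have hleft : IntegrableOn (fun x => ∫ v in D, F (x, v)) (A r) := hFi.integral_prod_left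
    refine ⟨hleft.congr_fun (fun x hx => hin x hx) (A_meas r), ?_⟩
    rw [← setIntegral_congr_fun (A_meas r) (fun x hx => hin x hx)]
    have h1 := integral_integral_swap (f := fun x v => F (x, v)) hFi
    rw [h1]
    have h2 : ∀ v : E3, ∫ x in A r, F (x, v) ≤ V * G v := by
      intro v
      have h3 : ∀ x, F (x, v) = (Metric.ball v ρ).indicator (fun _ => G v) x := by
        intro x
        rw [hF]
        by_cases h : ‖v - x‖ < ρ
        · have hx : x ∈ Metric.ball v ρ := by rwa [Metric.mem_ball, dist_eq_norm, norm_sub_rev]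
          simp only [Set.indicator_of_mem hx,
            Set.indicator_of_mem (show (x, v) ∈ {u : E3 × E3 | ‖u.2 - u.1‖ < ρ} from h)]
        · have hx : x ∉ Metric.ball v ρ := by rwa [Metric.mem_ball, dist_eq_norm, norm_sub_rev]
          simp only [Set.indicator_of_notMem hx,
            Set.indicator_of_notMem (show (x, v) ∉ {u : E3 × E3 | ‖u.2 - u.1‖ < ρ} from h)]
      simp only [h3]
      rw [setIntegral_indicator Metric.isOpen_ball.measurableSet, setIntegral_const, smul_eq_mul]
      refine mul_le_mul_of_nonneg_right ?_ (hG v)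
      have h4 : volume (Metric.ball v ρ) = volume (Metric.ball (0 : E3) ρ) :=
        Measure.addHaar_ball_center _ _ _
      rw [hV, ← h4]
      exact ENNReal.toReal_mono measure_ball_lt_top.ne (measure_mono Set.inter_subset_right)
    have h5 : IntegrableOn (fun v => ∫ x in A r, F (x, v)) D := hFi.integral_prod_right
    calc ∫ v in D, ∫ x in A r, F (x, v) ≤ ∫ v in D, V * G v :=
          setIntegral_mono h5 (hDi.const_mul V) h2
      _ = V * ∫ v in D, G v := integral_const_mul _ _
      _ ≤ V * (m * M) := mul_le_mul_of_nonneg_left hDM hV0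
      _ ≤ m * (1 + V) * M := by
          have : 0 ≤ (m : ℝ) * M := by positivity
          nlinarith

/-- a sum over many shells -/
theorem shc_le (G : E3 → ℝ) (hG : ∀ v, 0 ≤ G v) (hi : ∀ s, IntegrableOn G (Metric.ball 0 s))
    (M : ℝ) (r : ℝ) (hr : 0 ≤ r) (m : ℕ)
    (hM : ∀ i : ℕ, i < m → ∫ v in A (r + i), G v ≤ M) (D : Set E3)
    (hD : ∀ v ∈ D, r ≤ ‖v‖ ∧ ‖v‖ < r + m) :
    ∫ v in D, G v ≤ m * M := by
  refine le_trans ?_ (shn_sum G hG hi M r hr m hM)
  refine setIntegral_mono_set ((hi (r + m)).mono_set fun v hv => ?_)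
    (Filter.Eventually.of_forall fun v => hG v)
    (Filter.Eventually.of_forall fun v hv => hD v hv)
  rw [Metric.mem_ball, dist_zero_right]
  exact hv.2

end H6.CL
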