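import Pool.Agent.H6.CL.Ker4
import Pool.Agent.H6.CL.ShN

/-! The sum of the inverse fourth powers averaged over a shell. By `ker4` and Fubini the integral over `x ∈ A r` of `q4 1 p x` is at most `C ∑ particles ((1 + |‖y‖ - r|) ^ 2)⁻¹`; for `‖v - y‖ < 1` one has `1 + |‖y‖ - r| ≥ (1 + |‖v‖ - r|) / 2`, so this is at most `C ∫ v, ((1 + |‖v‖ - r|) ^ 2)⁻¹ * (ce p v 1 + cn p v 1)` (average over the unit ball around `y`), and the integral is the sum over the shells `A i`, `i : ℕ`, with weights at most `4 * ((1 + |i - r|) ^ 2)⁻¹`, whose sum is bounded. (The supports are compact, so only finitely many shells matter; `mM` is a finite sum of means: `mean_fub` or `mean_ball`.) -/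

open MeasureTheory Finset

namespace H6.CL

open H6.CM H6.CB

private theorem sht_step (t : ℝ) :
    ((1 + |t|) ^ 2)⁻¹ ≤ 4 * ((t + 1) / (1 + |t + 1|) - t / (1 + |t|)) := by
  rcases le_or_gt 0 t with h | h
  · rw [abs_of_nonneg h, abs_of_nonneg (by linarith : 0 ≤ t + 1)]
    have h1 : (t + 1) / (1 + (t + 1)) - t / (1 + t) = 1 / ((1 + t) * (2 + t)) := by
      have e1 : 1 + (t + 1) ≠ 0 := by linarith
      have e2 : 1 + t ≠ 0 := by linarith
      have e3 : 2 + t ≠ 0 := by linarith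
      field_simp
      ring
    rw [h1, inv_eq_one_div, mul_one_div, div_le_div_iff₀ (by positivity) (by positivity)]
    nlinarith
  · rcases le_or_gt (t + 1) 0 with h' | h'
    · rw [abs_of_neg h, abs_of_nonpos h']
      have e2 : 0 < 1 - t := by linarith
      have e3 : 0 < -t := by linarith
      have h1 : (t + 1) / (1 + -(t + 1)) - t / (1 + -t) = 1 / ((-t) * (1 - t)) := by
        have e4 : (1 + -(t + 1)) = -t := by ring
        have e5 : (1 + -t) = 1 - t := by ring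
        rw [e4, e5]
        have e6 : t ≠ 0 := h.ne
        have e7 : 1 - t ≠ 0 := e2.ne'
        field_simp
        ring
      have h2 : 0 < (1 + -t) ^ 2 := by
        have : 0 < 1 + -t := by linarith
        positivity
      rw [h1, inv_eq_one_div, mul_one_div, div_le_div_iff₀ h2 (by positivity)]
      nlinarith
    · rw [abs_of_neg h, abs_of_pos h']
      have h1 : (t + 1) / 2 ≤ (t + 1) / (1 + (t + 1)) :=
        div_le_div_of_nonneg_left (by linarith) (by linarith) (by linarith)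
      have h2 : -t / 2 ≤ -t / (1 + -t) :=
        div_le_div_of_nonneg_left (by linarith) (by linarith) (by linarith)
      have h3 : ((1 + -t) ^ 2)⁻¹ ≤ 1 := inv_le_one_of_one_le₀ (by nlinarith)
      have h4 : t / (1 + -t) = -(-t / (1 + -t)) := by ring
      rw [h4]
      linarith

private theorem sht_phi (t : ℝ) : |t / (1 + |t|)| ≤ 1 := by
  have h : 0 < 1 + |t| := by positivity
  rw [abs_div, abs_of_pos h, div_le_one h]
  linarith

private theorem sht_sum (r : ℝ) (N : ℕ) :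
    ∑ j ∈ range N, ((1 + |(j : ℝ) - r|) ^ 2)⁻¹ ≤ 8 := by
  obtain ⟨Φ, hΦ⟩ : ∃ Φ : ℕ → ℝ, ∀ j, Φ j = ((j : ℝ) - r) / (1 + |(j : ℝ) - r|) :=
    ⟨_, fun _ => rfl⟩
  have h1 : ∑ j ∈ range N, ((1 + |(j : ℝ) - r|) ^ 2)⁻¹ ≤
      ∑ j ∈ range N, 4 * (Φ (j + 1) - Φ j) := by
    refine sum_le_sum fun j _ => ?_
    have h2 := sht_step ((j : ℝ) - r)
    have h3 : (((j + 1 : ℕ) : ℝ) - r) = (j : ℝ) - r + 1 := by push_cast; ring
    rw [hΦ, hΦ, h3]
    exact h2
  refine h1.trans ?_
  rw [← mul_sum, sum_range_sub, hΦ, hΦ]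
  have h2 := (abs_le.1 (sht_phi ((N : ℝ) - r))).2
  have h3 := (abs_le.1 (sht_phi (((0 : ℕ) : ℝ) - r))).1
  linarith

private theorem sht_ind (S : Set E3) {q n k : ℕ} (ψ : (Fin n → Fin q) → Cfg n k → ℂ)
    (F : E3 → Cfg n k → ℝ) (v : E3) :
    mean ψ (fun p => S.indicator (fun v => F v p) v) =
      S.indicator (fun v => mean ψ (F v)) v := by
  by_cases hv : v ∈ S
  · simp only [Set.indicator_of_mem hv]
  · simp only [Set.indicator_of_notMem hv]
    unfold mean
    simp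

private theorem sht_fub {q n k : ℕ} {Λ : Set E3} {ψ : (Fin n → Fin q) → Cfg n k → ℂ}
    (h : Sm q n k Λ ψ) (S : Set E3) (hS : MeasurableSet S) (s : ℝ)
    (hs : S ⊆ Metric.ball 0 s) {F : E3 → Cfg n k → ℝ}
    (hF : Measurable (fun u : Cfg n k × E3 => F u.2 u.1)) (M : ℝ) (hM : ∀ v p, |F v p| ≤ M) :
    IntegrableOn (fun v => mean ψ (F v)) S ∧ IM ψ (fun p => ∫ v in S, F v p) ∧
      ∫ v in S, mean ψ (F v) = mean ψ (fun p => ∫ v in S, F v p) := by
  have h1 := mean_ball h 0 s (F := fun v p => S.indicator (fun v => F v p) v)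
    (by
      have e : (fun u : Cfg n k × E3 => S.indicator (fun v => F v u.1) u.2) =
          (Prod.snd ⁻¹' S).indicator (fun u : Cfg n k × E3 => F u.2 u.1) := by
        funext u
        by_cases hu : u.2 ∈ S
        · rw [Set.indicator_of_mem hu, Set.indicator_of_mem (show u ∈ Prod.snd ⁻¹' S from hu)]
        · rw [Set.indicator_of_notMem hu,
            Set.indicator_of_notMem (show u ∉ Prod.snd ⁻¹' S from hu)]
      rw [e]
      exact hF.indicator (measurable_snd hS)) (G := fun _ => M) continuous_const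
    (by
      intro v _ p
      by_cases hv : v ∈ S
      · simp only [Set.indicator_of_mem hv]
        exact hM v p
      · simp only [Set.indicator_of_notMem hv, abs_zero]
        exact (abs_nonneg _).trans (hM v p))
  obtain ⟨a1, a2, a3⟩ := h1
  simp only [sht_ind] at a1 a3
  have hint : ∀ g : E3 → ℝ, ∫ v in Metric.ball 0 s, S.indicator g v = ∫ v in S, g v := by
    intro g
    rw [setIntegral_indicator hS, Set.inter_eq_self_of_subset_right hs]
  rw [hint] at a3
  have e2 : ∀ p : Cfg n k, ∫ v in Metric.ball 0 s, S.indicator (fun v => F v p) v =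
      ∫ v in S, F v p := fun p => hint _
  simp only [e2] at a2 a3
  refine ⟨(a1.mono_set hs).congr_fun (fun v hv => Set.indicator_of_mem hv _) hS, a2, a3⟩

private theorem sht_A (r : ℝ) : A r ⊆ Metric.ball 0 (r + 1) := fun v hv => by
  rw [Metric.mem_ball, dist_zero_right]
  exact hv.2

/-- one particle -/
private theorem sht_one (r : ℝ) (y : E3) (N : ℕ) (hy : ‖y‖ + 1 ≤ N) :
    (volume (Metric.ball (0 : E3) 1)).toReal * ((1 + |‖y‖ - r|) ^ 2)⁻¹ ≤
      9 * ∑ j ∈ range N, ((1 + |(j : ℝ) - r|) ^ 2)⁻¹ *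
        ∫ v in A j, (if ‖y - v‖ < 1 then (1 : ℝ) else 0) := by
  have hμ : ∀ j : ℕ, ∫ v in A j, (if ‖y - v‖ < 1 then (1 : ℝ) else 0) =
      (volume (A j ∩ Metric.ball y 1)).toReal := by
    intro j
    have e : (fun v : E3 => if ‖y - v‖ < 1 then (1 : ℝ) else 0) =
        (Metric.ball y 1).indicator (fun _ => (1 : ℝ)) := by
      funext v
      by_cases hv : ‖y - v‖ < 1
      · have h1 : v ∈ Metric.ball y 1 := by rwa [Metric.mem_ball, dist_eq_norm, norm_sub_rev]
        rw [if_pos hv, Set.indicator_of_mem h1]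
      · have h1 : v ∉ Metric.ball y 1 := by rwa [Metric.mem_ball, dist_eq_norm, norm_sub_rev]
        rw [if_neg hv, Set.indicator_of_notMem h1]
    rw [e, setIntegral_indicator Metric.isOpen_ball.measurableSet, setIntegral_const, smul_eq_mul,
      mul_one]
    rfl
  have hfin : ∀ j : ℕ, volume (A j ∩ Metric.ball y 1) ≠ ⊤ := fun j =>
    ne_top_of_le_ne_top (measure_ball_lt_top (μ := (volume : Measure E3)) (x := y) (r := 1)).ne
      (measure_mono Set.inter_subset_right)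
  have hcov : (volume (Metric.ball (0 : E3) 1)).toReal ≤
      ∑ j ∈ range N, (volume (A j ∩ Metric.ball y 1)).toReal := by
    rw [← ENNReal.toReal_sum fun j _ => hfin j]
    refine ENNReal.toReal_mono (ENNReal.sum_ne_top.2 fun j _ => hfin j) ?_
    rw [← Measure.addHaar_ball_center volume y 1]
    refine le_trans (measure_mono fun v hv => ?_) (measure_biUnion_finset_le (range N)
      fun j : ℕ => A j ∩ Metric.ball y 1)
    rw [Set.mem_iUnion₂]
    have hv1 : ‖v - y‖ < 1 := by rwa [Metric.mem_ball, dist_eq_norm] at hv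
    have hv2 : ‖v‖ < N := by
      have := norm_sub_norm_le v y
      linarith
    refine ⟨⌊‖v‖⌋₊, mem_range.2 ((Nat.floor_lt (norm_nonneg v)).2 hv2), ⟨?_, ?_⟩, hv⟩
    · exact Nat.floor_le (norm_nonneg v)
    · exact Nat.lt_floor_add_one ‖v‖
  have hterm : ∀ j ∈ range N, ((1 + |‖y‖ - r|) ^ 2)⁻¹ * (volume (A j ∩ Metric.ball y 1)).toReal ≤
      9 * (((1 + |(j : ℝ) - r|) ^ 2)⁻¹ * (volume (A j ∩ Metric.ball y 1)).toReal) := by
    intro j _
    rcases Set.eq_empty_or_nonempty (A j ∩ Metric.ball y 1) with he | ⟨v, hv1, hv2⟩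
    · rw [he]
      simp
    · rw [← mul_assoc]
      refine mul_le_mul_of_nonneg_right ?_ ENNReal.toReal_nonneg
      have h1 : ‖v - y‖ < 1 := by rwa [Metric.mem_ball, dist_eq_norm] at hv2
      have h2 := hv1.1
      have h3 := hv1.2
      have h4 := norm_sub_norm_le v y
      have h5 := norm_sub_norm_le y v
      rw [norm_sub_rev] at h5
      have h6 : |(j : ℝ) - r| ≤ |‖y‖ - r| + 2 := by
        have h7 : |(j : ℝ) - ‖y‖| ≤ 2 := by
          rw [abs_le]
          constructor <;> linarith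
        have h8 := abs_add_le ((j : ℝ) - ‖y‖) (‖y‖ - r)
        rw [sub_add_sub_cancel] at h8
        linarith
      have h7 : 1 + |(j : ℝ) - r| ≤ 3 * (1 + |‖y‖ - r|) := by
        have := abs_nonneg (‖y‖ - r)
        linarith
      have h8 : (1 + |(j : ℝ) - r|) ^ 2 ≤ 9 * (1 + |‖y‖ - r|) ^ 2 := by
        calc (1 + |(j : ℝ) - r|) ^ 2 ≤ (3 * (1 + |‖y‖ - r|)) ^ 2 :=
              pow_le_pow_left₀ (by positivity) h7 2
          _ = _ := by ring
      rw [inv_eq_one_div, inv_eq_one_div, mul_one_div,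
        div_le_div_iff₀ (by positivity) (by positivity)]
      linarith
  simp only [hμ]
  rw [mul_sum]
  refine le_trans ?_ (sum_le_sum hterm)
  rw [← mul_sum, mul_comm]
  exact mul_le_mul_of_nonneg_left hcov (by positivity)

private theorem sht_bd {q n k : ℕ} {Λ : Set E3} {ψ : (Fin n → Fin q) → Cfg n k → ℂ}
    (h : Sm q n k Λ ψ) : ∃ N : ℕ, ∀ σ p, ψ σ p ≠ 0 →
      (∀ a, ‖p.1 a‖ + 1 ≤ N) ∧ ∀ j, ‖p.2 j‖ + 1 ≤ N := by
  have h1 : IsCompact (⋃ σ, tsupport (ψ σ)) := isCompact_iUnion fun σ => h.cpt σ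
  obtain ⟨R, hR⟩ := h1.isBounded.subset_closedBall 0
  refine ⟨⌈R⌉₊ + 1, fun σ p hp => ?_⟩
  have h2 : p ∈ Metric.closedBall (0 : Cfg n k) R :=
    hR (Set.mem_iUnion.2 ⟨σ, subset_tsupport _ hp⟩)
  rw [mem_closedBall_zero_iff] at h2
  have h3 : R ≤ ⌈R⌉₊ := Nat.le_ceil R
  push_cast
  refine ⟨fun a => ?_, fun j => ?_⟩
  · have := (norm_le_pi_norm p.1 a).trans (norm_fst_le p)
    linarith
  · have := (norm_le_pi_norm p.2 j).trans (norm_snd_le p)
    linarith

private theorem sht_cnt {n k : ℕ} : Measurable (fun u : Cfg n k × E3 => ce u.1 u.2 1 + cn u.1 u.2 1) := by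
  have hi : ∀ L : Cfg n k → E3, Measurable L →
      Measurable (fun u : Cfg n k × E3 => if ‖L u.1 - u.2‖ < 1 then (1 : ℝ) else 0) := by
    intro L hL
    exact Measurable.ite (measurableSet_lt ((hL.comp measurable_fst).sub measurable_snd).norm
      measurable_const) measurable_const measurable_const
  have h1 : Measurable (fun u : Cfg n k × E3 => ce u.1 u.2 1) := by
    unfold ce
    exact Finset.measurable_fun_sum _ fun a _ => hi (fun p => p.1 a) (meas_e a)
  have h2 : Measurable (fun u : Cfg n k × E3 => cn u.1 u.2 1) := by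
    unfold cn
    exact Finset.measurable_fun_sum _ fun j _ => hi (fun p => p.2 j) (meas_n j)
  exact Measurable.add h1 h2

private theorem sht_q4m {n k : ℕ} : Measurable (fun u : Cfg n k × E3 => q4 1 u.1 u.2) := by
  have hi : ∀ L : Cfg n k → E3, Measurable L →
      Measurable (fun u : Cfg n k × E3 => (max 1 ‖L u.1 - u.2‖ ^ 4)⁻¹) := by
    intro L hL
    have h1 : Measurable (fun u : Cfg n k × E3 => max 1 ‖L u.1 - u.2‖) :=
      measurable_const.max ((hL.comp measurable_fst).sub measurable_snd).norm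
    exact (h1.pow_const 4).inv
  unfold q4
  exact Measurable.add
    (Finset.measurable_fun_sum _ fun a _ => hi (fun p => p.1 a) (meas_e a))
    (Finset.measurable_fun_sum _ fun j _ => hi (fun p => p.2 j) (meas_n j))

private theorem sht_q4b {n k : ℕ} (v : E3) (p : Cfg n k) : |q4 1 p v| ≤ (n : ℝ) + k := by
  have h1 : ∀ x : E3, (max 1 ‖x‖ ^ 4)⁻¹ ≤ (1 : ℝ) := fun x =>
    inv_le_one_of_one_le₀ (one_le_pow₀ (le_max_left _ _))
  have h0 : ∀ x : E3, 0 ≤ (max 1 ‖x‖ ^ 4)⁻¹ := fun x => by positivity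
  unfold q4
  rw [abs_of_nonneg (add_nonneg (sum_nonneg fun a _ => h0 _) (sum_nonneg fun j _ => h0 _))]
  refine add_le_add ?_ ?_
  · exact (sum_le_sum fun a _ => h1 _).trans (by simp)
  · exact (sum_le_sum fun a _ => h1 _).trans (by simp)

theorem sht : ∃ C : ℝ, 0 ≤ C ∧ ∀ (ι : Type) (_ : Fintype ι) (q n k : ℕ) (Λ : Set E3)
    (Ψ : ι → (Fin n → Fin q) → Cfg n k → ℂ) (_ : ∀ i, Sm q n k Λ (Ψ i)) (M : ℝ)
    (_ : ∀ r, 0 ≤ r → ∫ v in A r, mM Ψ (fun p => ce p v 1 + cn p v 1) ≤ M)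
    (r : ℝ) (_ : 0 ≤ r),
    ∫ x in A r, mM Ψ (fun p => q4 1 p x) ≤ C * M := by
  obtain ⟨C4, hC4, hk⟩ := ker4
  obtain ⟨V1, hV1⟩ : ∃ V1 : ℝ, V1 = (volume (Metric.ball (0 : E3) 1)).toReal := ⟨_, rfl⟩
  have hV0 : 0 < V1 := by
    rw [hV1]
    exact ENNReal.toReal_pos (Metric.measure_ball_pos volume _ one_pos).ne'
      measure_ball_lt_top.ne
  refine ⟨C4 * (72 / V1), by positivity, fun ι _ q n k Λ Ψ hΨ M hM r hr => ?_⟩
  -- the weights
  obtain ⟨wt, hwt⟩ : ∃ wt : Cfg n k → ℝ, wt = fun p =>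
      ∑ a, ((1 + |‖p.1 a‖ - r|) ^ 2)⁻¹ + ∑ j, ((1 + |‖p.2 j‖ - r|) ^ 2)⁻¹ := ⟨_, rfl⟩
  have hwtm : Measurable wt := by
    rw [hwt]
    refine (Finset.measurable_fun_sum _ fun a _ => ?_).add
      (Finset.measurable_fun_sum _ fun j _ => ?_)
    · exact ((((meas_e a).norm.sub_const r).abs.const_add 1).pow_const 2).inv
    · exact ((((meas_n j).norm.sub_const r).abs.const_add 1).pow_const 2).inv
  have hw1 : ∀ t : ℝ, ((1 + |t|) ^ 2)⁻¹ ≤ 1 := fun t =>
    inv_le_one_of_one_le₀ (one_le_pow₀ (by linarith [abs_nonneg t]))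
  have hw0 : ∀ t : ℝ, 0 ≤ ((1 + |t|) ^ 2)⁻¹ := fun t => by positivity
  have hwt0 : ∀ p, 0 ≤ wt p := fun p => by
    rw [hwt]
    exact add_nonneg (sum_nonneg fun a _ => hw0 _) (sum_nonneg fun j _ => hw0 _)
  have hwtb : ∀ p, |wt p| ≤ (n : ℝ) + k := by
    intro p
    rw [abs_of_nonneg (hwt0 p), hwt]
    refine add_le_add ?_ ?_
    · exact (sum_le_sum fun a _ => hw1 _).trans (by simp)
    · exact (sum_le_sum fun a _ => hw1 _).trans (by simp)
  have hwtI : ∀ i, IM (Ψ i) wt := fun i => IM.bdd (hΨ i) hwtm _ hwtb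
  -- first step
  have hq : ∀ p : Cfg n k, ∫ x in A r, q4 1 p x ≤ C4 * wt p := by
    intro p
    unfold q4
    rw [integral_add (integrable_finsetSum _ fun a _ => (hk r hr (p.1 a)).1)
      (integrable_finsetSum _ fun j _ => (hk r hr (p.2 j)).1),
      integral_finsetSum _ fun a _ => (hk r hr (p.1 a)).1,
      integral_finsetSum _ fun j _ => (hk r hr (p.2 j)).1, hwt]
    simp only
    rw [mul_add, mul_sum, mul_sum]
    exact add_le_add (sum_le_sum fun a _ => (hk r hr (p.1 a)).2)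
      (sum_le_sum fun j _ => (hk r hr (p.2 j)).2)
  have hF1 := fun i => sht_fub (hΨ i) (A r) (A_meas r) (r + 1) (sht_A r)
    (F := fun v p => q4 1 p v) sht_q4m ((n : ℝ) + k) (fun v p => sht_q4b v p)
  have h1 : ∫ x in A r, mM Ψ (fun p => q4 1 p x) ≤ C4 * ∑ i, mean (Ψ i) wt := by
    unfold mM
    rw [integral_finsetSum _ fun i _ => (hF1 i).1, mul_sum]
    refine sum_le_sum fun i _ => ?_
    rw [(hF1 i).2.2, ← mean_cmul]
    exact mean_mono (hF1 i).2.1 ((hwtI i).cmul C4) fun _ p _ => hq p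
  -- second step
  choose N₀ hN₀ using fun i => sht_bd (hΨ i)
  obtain ⟨N, hN⟩ : ∃ N : ℕ, ∀ i, N₀ i ≤ N := ⟨Finset.univ.sup N₀, fun i =>
    Finset.le_sup (Finset.mem_univ i)⟩
  have hcb : ∀ (v : E3) (p : Cfg n k), |ce p v 1 + cn p v 1| ≤ (n : ℝ) + k := by
    intro v p
    rw [abs_of_nonneg (add_nonneg (ce_nonneg _ _ _) (cn_nonneg _ _ _))]
    exact add_le_add (ce_le _ _ _) (cn_le _ _ _)
  have hF2 := fun i (j : ℕ) => sht_fub (hΨ i) (A j) (A_meas j) (j + 1) (sht_A j)
    (F := fun v p => ce p v 1 + cn p v 1) sht_cnt ((n : ℝ) + k) hcb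
  have h2 : ∀ i, V1 * mean (Ψ i) wt ≤ 9 * ∑ j ∈ range N, ((1 + |(j : ℝ) - r|) ^ 2)⁻¹ *
      ∫ v in A j, mean (Ψ i) (fun p => ce p v 1 + cn p v 1) := by
    intro i
    have e1 : 9 * ∑ j ∈ range N, ((1 + |(j : ℝ) - r|) ^ 2)⁻¹ *
        ∫ v in A j, mean (Ψ i) (fun p => ce p v 1 + cn p v 1) =
        mean (Ψ i) (fun p => 9 * ∑ j ∈ range N, ((1 + |(j : ℝ) - r|) ^ 2)⁻¹ *
          ∫ v in A j, (ce p v 1 + cn p v 1)) := by
      rw [mean_cmul, mean_sum (range N) fun j _ => (hF2 i j).2.1.cmul _]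
      congr 1
      refine sum_congr rfl fun j _ => ?_
      rw [mean_cmul, (hF2 i j).2.2]
    rw [e1, ← mean_cmul]
    refine mean_mono ((hwtI i).cmul V1)
      ((IM.sum (range N) fun j _ => (hF2 i j).2.1.cmul _).cmul 9) fun σ p hp => ?_
    obtain ⟨ha, hj⟩ := hN₀ i σ p hp
    have hNN : ((N₀ i : ℕ) : ℝ) ≤ N := by exact_mod_cast hN i
    have hii : ∀ (y : E3) (j : ℕ),
        IntegrableOn (fun v : E3 => if ‖y - v‖ < 1 then (1 : ℝ) else 0) (A j) := by
      intro y j
      refine Measure.integrableOn_of_bounded (M := 1) ?_ ?_ ?_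
      · exact ne_top_of_le_ne_top (measure_ball_lt_top (μ := (volume : Measure E3))
          (x := 0) (r := (j : ℝ) + 1)).ne (measure_mono (sht_A j))
      · exact (Measurable.ite (measurableSet_lt (measurable_const.sub measurable_id).norm
          measurable_const) measurable_const measurable_const).aestronglyMeasurable
      · refine Filter.Eventually.of_forall fun v => ?_
        split_ifs <;> simp
    have e2 : ∀ j : ℕ, ∫ v in A j, (ce p v 1 + cn p v 1) =
        ∑ a, (∫ v in A j, (if ‖p.1 a - v‖ < 1 then (1 : ℝ) else 0)) +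
          ∑ b, (∫ v in A j, (if ‖p.2 b - v‖ < 1 then (1 : ℝ) else 0)) := by
      intro j
      unfold ce cn
      rw [integral_add (integrable_finsetSum _ fun a _ => hii (p.1 a) j)
        (integrable_finsetSum _ fun a _ => hii (p.2 a) j),
        integral_finsetSum _ fun a _ => hii (p.1 a) j,
        integral_finsetSum _ fun a _ => hii (p.2 a) j]
    have e3 : 9 * ∑ j ∈ range N, ((1 + |(j : ℝ) - r|) ^ 2)⁻¹ *
          ∫ v in A j, (ce p v 1 + cn p v 1) =
        ∑ a, 9 * ∑ j ∈ range N, ((1 + |(j : ℝ) - r|) ^ 2)⁻¹ *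
          (∫ v in A j, (if ‖p.1 a - v‖ < 1 then (1 : ℝ) else 0)) +
        ∑ b, 9 * ∑ j ∈ range N, ((1 + |(j : ℝ) - r|) ^ 2)⁻¹ *
          (∫ v in A j, (if ‖p.2 b - v‖ < 1 then (1 : ℝ) else 0)) := by
      simp only [e2, mul_add, mul_sum, sum_add_distrib]
      congr 1
      · rw [sum_comm]
      · rw [sum_comm]
    rw [e3, hwt]
    simp only
    rw [mul_add, mul_sum, mul_sum]
    refine add_le_add (sum_le_sum fun a _ => ?_) (sum_le_sum fun b _ => ?_)
    · rw [hV1]
      exact sht_one r (p.1 a) N ((ha a).trans hNN)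
    · rw [hV1]
      exact sht_one r (p.2 b) N ((hj b).trans hNN)
  have hM0 : 0 ≤ M := by
    refine le_trans (setIntegral_nonneg (A_meas 0) fun v _ => ?_) (hM 0 le_rfl)
    exact sum_nonneg fun i _ => mean_nonneg fun _ p _ =>
      add_nonneg (ce_nonneg _ _ _) (cn_nonneg _ _ _)
  have h3 : V1 * ∑ i, mean (Ψ i) wt ≤ 72 * M := by
    rw [mul_sum]
    calc ∑ i, V1 * mean (Ψ i) wt ≤ ∑ i, 9 * ∑ j ∈ range N, ((1 + |(j : ℝ) - r|) ^ 2)⁻¹ *
          ∫ v in A j, mean (Ψ i) (fun p => ce p v 1 + cn p v 1) := sum_le_sum fun i _ => h2 i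
      _ = 9 * ∑ j ∈ range N, ((1 + |(j : ℝ) - r|) ^ 2)⁻¹ *
          ∫ v in A j, mM Ψ (fun p => ce p v 1 + cn p v 1) := by
          rw [← mul_sum, sum_comm]
          congr 1
          refine sum_congr rfl fun j _ => ?_
          rw [← mul_sum]
          congr 1
          unfold mM
          rw [integral_finsetSum _ fun i _ => (hF2 i j).1]
      _ ≤ 9 * ∑ j ∈ range N, ((1 + |(j : ℝ) - r|) ^ 2)⁻¹ * M := by
          refine mul_le_mul_of_nonneg_left (sum_le_sum fun j _ => ?_) (by norm_num)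
          exact mul_le_mul_of_nonneg_left (hM j (Nat.cast_nonneg j)) (hw0 _)
      _ = 9 * ((∑ j ∈ range N, ((1 + |(j : ℝ) - r|) ^ 2)⁻¹) * M) := by rw [sum_mul]
      _ ≤ 9 * (8 * M) := mul_le_mul_of_nonneg_left
          (mul_le_mul_of_nonneg_right (sht_sum r N) hM0) (by norm_num)
      _ = 72 * M := by ring
  have h4 : ∑ i, mean (Ψ i) wt ≤ 72 / V1 * M := by
    rw [div_mul_eq_mul_div, le_div_iff₀ hV0]
    linarith
  refine h1.trans ((mul_le_mul_of_nonneg_left h4 hC4).trans (le_of_eq ?_))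
  ring

end H6.CL
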