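import Pool.Agent.H6.CL.BtM
import Pool.Agent.H6.CL.ShT

/-! The `3/2` moments of the relative potential averaged over shells: integrate the inequality `pp` of `Ine`; `btM` for `ce p v 2 ^ (3/2)` (for `r ≤ R`; for larger `r` the set is empty), `sht` for `q4` with the shell bounds `btE` (with `η = 1`) and `ShB.c`. -/

open MeasureTheory Finset

namespace H6.CL

open H6.CM H6.CB

private theorem btP_B {ι : Type} [Fintype ι] {q n k : ℕ} {R B : ℝ} (hR : 100 ≤ R)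
    {Ψ : ι → (Fin n → Fin q) → Cfg n k → ℂ} (hB : ShB R B Ψ) : 0 ≤ B := by
  have h1 : 0 ≤ ∫ v in A 0, TM Ψ v 1 := setIntegral_nonneg (A_meas 0) fun v _ => TM_nonneg Ψ v 1
  have h2 := h1.trans (hB.t 0 le_rfl)
  by_contra h
  have h3 : B < 0 := not_le.1 h
  have h4 : 0 < R ^ 2 := by positivity
  nlinarith

private theorem btP_sub (r : ℝ) : A r ⊆ Metric.ball 0 (r + 1) := fun v hv => by
  rw [Metric.mem_ball, dist_zero_right]
  exact hv.2

private theorem btP_cc {ι : Type} [Fintype ι] {q n k : ℕ} {Λ : Set E3}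
    {Ψ : ι → (Fin n → Fin q) → Cfg n k → ℂ} (hΨ : ∀ i, Sm q n k Λ (Ψ i)) (v : E3) :
    mM Ψ (fun p => ce p v 1 + cn p v 1) =
      mM Ψ (fun p => ce p v 1) + mM Ψ (fun p => cn p v 1) := by
  unfold mM
  rw [← sum_add_distrib]
  refine sum_congr rfl fun i _ => ?_
  rw [mean_add (IM_ce (hΨ i) v 1) (IM_cn (hΨ i) v 1)]

theorem btP (Ci zm zp : ℝ) {χ θ : E3 → ℝ} (hχ : Bump χ) (hθ : Cut θ) :
    ∃ C : ℝ, 0 ≤ C ∧ ∀ (ι : Type) (_ : Fintype ι) (q n k : ℕ) (R : ℝ) (_ : 100 ≤ R)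
    (z : Fin k → ℝ) (W : Finset E3) (Ψ : ι → (Fin n → Fin q) → Cfg n k → ℂ)
    (_ : Ine Ci zm zp q n k R z W χ θ Ψ) (B : ℝ) (_ : ShB R B Ψ) (r : ℝ) (_ : 0 ≤ r),
    ∫ v in A r ∩ Metric.ball 0 (R - 2), mM Ψ (fun p => |uh χ 1 W z p v| ^ (3 / 2 : ℝ)) ≤
      C * (B + 1) * R ^ 2 := by
  obtain ⟨C1, hC1, h1⟩ := btM 2 (3 / 2) (by norm_num) (by norm_num) (by norm_num) 1 one_pos
  obtain ⟨C2, hC2, h2⟩ := sht
  obtain ⟨C3, hC3, h3⟩ := btE 1 one_pos
  obtain ⟨C4, hC4, h4⟩ := A_vol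
  refine ⟨|Ci| * (C4 + (1 + C1) + C2 * (2 + C3)), by positivity,
    fun ι _ q n k R hR z W Ψ hI B hB r hr => ?_⟩
  have hB0 : 0 ≤ B := btP_B hR hB
  have hR2 : 0 ≤ R ^ 2 := sq_nonneg R
  have hΨ : ∀ i, Sm q n k (Metric.ball 0 R) (Ψ i) := fun i => St_sm (hI.st i)
  rcases lt_or_ge R r with hrR | hrR
  · have he : A r ∩ Metric.ball 0 (R - 2) = ∅ := by
      ext v
      simp only [A, Set.mem_inter_iff, Set.mem_ofPred_eq, Metric.mem_ball, dist_zero_right,
        Set.mem_empty_iff_false, iff_false]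
      rintro ⟨⟨h5, h6⟩, h7⟩
      linarith
    rw [he, setIntegral_empty]
    positivity
  have hfinA : volume (A r) ≠ ⊤ :=
    ne_top_of_le_ne_top (measure_ball_lt_top (μ := (volume : Measure E3))
      (x := 0) (r := r + 1)).ne (measure_mono (btP_sub r))
  -- integrability
  have i1 : IntegrableOn (fun v => mM Ψ (fun p => |uh χ 1 W z p v| ^ (3 / 2 : ℝ))) (A r) :=
    (sI_uh hΨ hχ W z (3 / 2) (r + 1) (by norm_num)).mono_set (btP_sub r)
  have i2 : IntegrableOn (fun v => mM Ψ (fun p => ce p v 2 ^ (3 / 2 : ℝ))) (A r) :=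
    (sI_ce hΨ 2 (3 / 2) (r + 1) (by norm_num)).mono_set (btP_sub r)
  have i3 : IntegrableOn (fun v => mM Ψ (fun p => q4 1 p v)) (A r) :=
    ((sI_q4 hΨ (r + 1)).1).mono_set (btP_sub r)
  have i0 : IntegrableOn (fun _ : E3 => (1 : ℝ)) (A r) := integrableOn_const hfinA
  have n2 : ∀ v, 0 ≤ mM Ψ (fun p => ce p v 2 ^ (3 / 2 : ℝ)) := fun v =>
    mM_nonneg Ψ fun p => Real.rpow_nonneg (ce_nonneg p v 2) _
  have n3 : ∀ v, 0 ≤ mM Ψ (fun p => q4 1 p v) := fun v => mM_nonneg Ψ fun p => by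
    unfold q4
    exact add_nonneg (sum_nonneg fun a _ => by positivity) (sum_nonneg fun j _ => by positivity)
  have i4 : IntegrableOn (fun v => 1 + mM Ψ (fun p => ce p v 2 ^ (3 / 2 : ℝ)) +
      mM Ψ (fun p => q4 1 p v)) (A r) := (i0.add i2).add i3
  have i5 : IntegrableOn (fun v => |Ci| * (1 + mM Ψ (fun p => ce p v 2 ^ (3 / 2 : ℝ)) +
      mM Ψ (fun p => q4 1 p v))) (A r) := Integrable.const_mul i4 |Ci|
  have s1 : ∫ v in A r ∩ Metric.ball 0 (R - 2), mM Ψ (fun p => |uh χ 1 W z p v| ^ (3 / 2 : ℝ)) ≤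
      ∫ v in A r ∩ Metric.ball 0 (R - 2), |Ci| * (1 + mM Ψ (fun p => ce p v 2 ^ (3 / 2 : ℝ)) +
      mM Ψ (fun p => q4 1 p v)) := by
    refine setIntegral_mono_on (i1.mono_set Set.inter_subset_left)
      (i5.mono_set Set.inter_subset_left)
      ((A_meas r).inter Metric.isOpen_ball.measurableSet) fun v hv => ?_
    have h5 : Metric.closedBall v 2 ⊆ Metric.ball 0 R := by
      intro w hw
      have h6 := hv.2
      rw [Metric.mem_ball, dist_zero_right] at h6 ⊢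
      rw [Metric.mem_closedBall, dist_eq_norm] at hw
      have h7 := norm_sub_norm_le w v
      linarith
    refine (hI.pp v h5).trans ?_
    exact mul_le_mul_of_nonneg_right (le_abs_self Ci) (by linarith [n2 v, n3 v])
  have s2 : ∫ v in A r ∩ Metric.ball 0 (R - 2), |Ci| * (1 +
      mM Ψ (fun p => ce p v 2 ^ (3 / 2 : ℝ)) + mM Ψ (fun p => q4 1 p v)) ≤
      ∫ v in A r, |Ci| * (1 + mM Ψ (fun p => ce p v 2 ^ (3 / 2 : ℝ)) +
      mM Ψ (fun p => q4 1 p v)) := by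
    refine setIntegral_mono_set i5 ?_ (LE.le.eventuallyLE Set.inter_subset_left)
    exact Filter.Eventually.of_forall fun v => mul_nonneg (abs_nonneg _)
      (by linarith [n2 v, n3 v])
  have s3 : ∫ v in A r, |Ci| * (1 + mM Ψ (fun p => ce p v 2 ^ (3 / 2 : ℝ)) +
      mM Ψ (fun p => q4 1 p v)) = |Ci| * ((volume (A r)).toReal +
      (∫ v in A r, mM Ψ (fun p => ce p v 2 ^ (3 / 2 : ℝ))) +
      ∫ v in A r, mM Ψ (fun p => q4 1 p v)) := by
    rw [integral_const_mul]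
    congr 1
    have e1 := integral_add (i0.add i2) i3
    have e2 := integral_add i0 i2
    simp only [Pi.add_apply] at e1
    rw [e1, e2]
    simp [Measure.real]
  have t0 : (volume (A r)).toReal ≤ C4 * R ^ 2 :=
    ENNReal.toReal_le_of_le_ofReal (by positivity) (h4 r R hr (by linarith) (by linarith))
  have t1 := h1 ι inferInstance q n k R hR Ψ hΨ hI.one B hB r hr (by linarith)
  have t2 := h2 ι inferInstance q n k (Metric.ball 0 R) Ψ hΨ ((2 * B + C3) * R ^ 2) (by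
    intro s hs
    have e1 : ∀ v, mM Ψ (fun p => ce p v 1 + cn p v 1) =
      mM Ψ (fun p => ce p v 1) + mM Ψ (fun p => cn p v 1) := fun v => btP_cc hΨ v
    simp only [e1]
    have j1 : IntegrableOn (fun v => mM Ψ (fun p => ce p v 1)) (A s) := by
      have := (sI_ce hΨ 1 1 (s + 1) (by norm_num)).mono_set (btP_sub s)
      simpa only [Real.rpow_one] using this
    have j2 : IntegrableOn (fun v => mM Ψ (fun p => cn p v 1)) (A s) := by
      have := (sI_cn hΨ 1 1 (s + 1) (by norm_num)).mono_set (btP_sub s)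
      simpa only [Real.rpow_one] using this
    rw [integral_add j1 j2]
    have e2 := h3 ι inferInstance q n k R hR Ψ hΨ hI.one B hB s hs
    have e3 := hB.c s hs
    linarith) r hr
  refine (s1.trans s2).trans ?_
  rw [s3, mul_assoc |Ci|, mul_assoc |Ci|]
  refine mul_le_mul_of_nonneg_left ?_ (abs_nonneg _)
  have u1 : 0 ≤ B * R ^ 2 := by positivity
  have u2 : 0 ≤ C4 * (B * R ^ 2) := by positivity
  have u3 : 0 ≤ C1 * (B * R ^ 2) := by positivity
  have u4 : 0 ≤ C2 * C3 * (B * R ^ 2) := by positivity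
  have u5 : 0 ≤ C2 * (R ^ 2) := by positivity
  nlinarith

end H6.CL
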