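import Pool.Agent.H6.CL.BtW

/-! The kinetic energy averaged over shells. If `r ≤ R - 23` integrate the inequality `tt` of `Ine` over `A r` (contained in the ball of radius `R - 22`): `btW`, `btS`, `btM` and (for the nuclei in the ball of radius `4`) `c_cov`, `shn`, `btC`. If `R - 23 < r`: `T_loc` with `s = R - 40` and the inequality `ly` (with the term `R ^ 2`): the shell `shc (R - 44) (R - 37)` is covered by `8` shells (`shc_le`), and `shl_loc` with `r = R - 44` by `47` shells with `btE`, `btC`. `btN`: `lt53` with `s = 1` for every `Ψ i`, `t_covS` with radius `2`, `shn`, the first part, and `btM` with `ρ = 2`, `s = 1`; for `R + 1 < r` everything vanishes. -/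

open MeasureTheory Finset

namespace H6.CL

open H6.CM H6.CB

private theorem btt_sub (r : ℝ) : A r ⊆ Metric.ball (0 : E3) (r + 1) := fun v hv => by
  rw [Metric.mem_ball, dist_zero_right]
  exact hv.2

private theorem btt_B {ι : Type} [Fintype ι] {q n k : ℕ} {R B : ℝ}
    {Ψ : ι → (Fin n → Fin q) → Cfg n k → ℂ} (h : ShB R B Ψ) : 0 ≤ B * R ^ 2 := by
  refine le_trans ?_ (h.e 0 le_rfl)
  exact setIntegral_nonneg (A_meas 0) fun v _ => mM_nonneg Ψ fun p =>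
    Real.rpow_nonneg (ce_nonneg p v 1) _

private theorem btt_add {ι : Type} [Fintype ι] {q n k : ℕ} {Λ : Set E3}
    {Ψ : ι → (Fin n → Fin q) → Cfg n k → ℂ} (hΨ : ∀ i, Sm q n k Λ (Ψ i)) (v : E3) (r : ℝ) :
    mM Ψ (fun p => ce p v r + cn p v r) = mM Ψ (fun p => ce p v r) + mM Ψ (fun p => cn p v r) := by
  unfold mM
  rw [← sum_add_distrib]
  exact sum_congr rfl fun i _ => mean_add (IM_ce (hΨ i) v r) (IM_cn (hΨ i) v r)

private theorem btt_cov {ι : Type} [Fintype ι] {q n k : ℕ} {Λ : Set E3}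
    {Ψ : ι → (Fin n → Fin q) → Cfg n k → ℂ} (hΨ : ∀ i, Sm q n k Λ (Ψ i)) {t : Finset E3} {ρ : ℝ}
    (ht : ∀ (n k : ℕ) (p : Cfg n k) (x : E3), ce p x ρ ≤ ∑ c ∈ t, ce p (x + c) 1 ∧
      cn p x ρ ≤ ∑ c ∈ t, cn p (x + c) 1) (v : E3) :
    mM Ψ (fun p => ce p v ρ + cn p v ρ) ≤
      ∑ c ∈ t, mM Ψ (fun p => ce p (v + c) 1 + cn p (v + c) 1) := by
  unfold mM
  rw [sum_comm]
  refine sum_le_sum fun i _ => ?_
  have hI : ∀ y r, IM (Ψ i) (fun p => ce p y r + cn p y r) := fun y r =>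
    (IM_ce (hΨ i) y r).add (IM_cn (hΨ i) y r)
  rw [← mean_sum _ fun c _ => hI _ _]
  refine mean_mono (hI _ _) (IM.sum _ fun c _ => hI _ _) fun σ p _ => ?_
  rw [sum_add_distrib]
  exact add_le_add (ht n k p v).1 (ht n k p v).2

/-- the sum of the numbers of electrons and nuclei -/
private theorem btt_EC (Ci zm zp : ℝ) (hzm : 0 < zm) {χ θ : E3 → ℝ}
    (hχ : Bump χ) (hθ : Cut θ) (η : ℝ) (hη : 0 < η) :
    ∃ C : ℝ, 0 ≤ C ∧ ∀ (ι : Type) (_ : Fintype ι) (q n k : ℕ) (R : ℝ) (_ : 100 ≤ R)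
    (z : Fin k → ℝ) (W : Finset E3) (Ψ : ι → (Fin n → Fin q) → Cfg n k → ℂ)
    (_ : Ine Ci zm zp q n k R z W χ θ Ψ) (B : ℝ) (_ : ShB R B Ψ) (r : ℝ) (_ : 0 ≤ r),
    ∫ v in A r, mM Ψ (fun p => ce p v 1 + cn p v 1) ≤ (η * B + C) * R ^ 2 := by
  obtain ⟨C1, hC1, H1⟩ := btE (η / 2) (by positivity)
  obtain ⟨C2, hC2, H2⟩ := btC Ci zm zp hzm hχ hθ (η / 2) (by positivity)
  refine ⟨C1 + C2, by positivity, ?_⟩
  intro ι _ q n k R hR z W Ψ hI B hB r hr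
  have hΨ : ∀ i, Sm q n k (Metric.ball 0 R) (Ψ i) := fun i => St_sm (hI.st i)
  have h1 := H1 ι _ q n k R hR Ψ hΨ hI.one B hB r hr
  have h2 := H2 ι _ q n k R hR z W Ψ hI B hB r hr
  have i1 : IntegrableOn (fun v => mM Ψ (fun p => ce p v 1)) (A r) := by
    have := (sI_ce hΨ 1 1 (r + 1) (by norm_num)).mono_set (btt_sub r)
    simpa only [Real.rpow_one] using this
  have i2 : IntegrableOn (fun v => mM Ψ (fun p => cn p v 1)) (A r) := by
    have := (sI_cn hΨ 1 1 (r + 1) (by norm_num)).mono_set (btt_sub r)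
    simpa only [Real.rpow_one] using this
  have h3 : ∫ v in A r, mM Ψ (fun p => ce p v 1 + cn p v 1) =
      (∫ v in A r, mM Ψ (fun p => ce p v 1)) + ∫ v in A r, mM Ψ (fun p => cn p v 1) := by
    rw [← integral_add i1 i2]
    exact integral_congr_ae (Filter.Eventually.of_forall fun v => btt_add hΨ v 1)
  rw [h3]
  calc _ ≤ (η / 2 * B + C1) * R ^ 2 + (η / 2 * B + C2) * R ^ 2 := add_le_add h1 h2
    _ = _ := by ring

/-- `WM + SM` on shells inside of the ball of radius `R - 22` -/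
private theorem btt_WS (q : ℕ) (Ci zm zp : ℝ) (hzm : 0 < zm) (hCi : 0 ≤ Ci) {χ θ : E3 → ℝ}
    (hχ : Bump χ) (hθ : Cut θ) (η : ℝ) (hη : 0 < η) :
    ∃ C : ℝ, 0 ≤ C ∧ ∀ (ι : Type) (_ : Fintype ι) (n k : ℕ) (R : ℝ) (_ : 100 ≤ R)
    (z : Fin k → ℝ) (W : Finset E3) (Ψ : ι → (Fin n → Fin q) → Cfg n k → ℂ)
    (_ : Ine Ci zm zp q n k R z W χ θ Ψ) (B : ℝ) (_ : ShB R B Ψ) (r : ℝ) (_ : 0 ≤ r)
    (_ : r ≤ R - 23),
    ∫ x in A r, (WM χ θ W z Ψ x + SM θ Ψ x) ≤ (η * B + C) * R ^ 2 := by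
  obtain ⟨C1, hC1, H1⟩ := btW q Ci zm zp hzm hCi hχ hθ (η / 2) (by positivity)
  obtain ⟨C2, hC2, H2⟩ := btS q Ci zm zp hχ hθ (η / 2) (by positivity)
  refine ⟨C1 + C2, by positivity, ?_⟩
  intro ι _ n k R hR z W Ψ hI B hB r hr hrR
  have hΨ : ∀ i, Sm q n k (Metric.ball 0 R) (Ψ i) := fun i => St_sm (hI.st i)
  have h1 := H1 ι _ n k R hR z W Ψ hI B hB r hr
  have h2 := H2 ι _ n k R hR z W Ψ hI B hB r hr (by linarith)
  have h0 : A r ∩ Metric.ball (0 : E3) (R - 22) = A r := by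
    refine Set.inter_eq_left.2 fun v hv => ?_
    rw [Metric.mem_ball, dist_zero_right]
    have := hv.2
    linarith
  rw [h0] at h1
  have i1 : IntegrableOn (fun x => WM χ θ W z Ψ x) (A r) :=
    (sI_W hΨ hχ hθ W z (r + 1)).mono_set (btt_sub r)
  have i2 : IntegrableOn (fun x => SM θ Ψ x) (A r) :=
    (sI_S hΨ hθ (r + 1)).mono_set (btt_sub r)
  rw [integral_add i1 i2]
  calc _ ≤ (η / 2 * B + C1) * R ^ 2 + (η / 2 * B + C2) * R ^ 2 := add_le_add h1 h2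
    _ = _ := by ring

/-- the interior -/
private theorem btt_in (q : ℕ) (Ci zm zp : ℝ) (hzm : 0 < zm) (hCi : 0 ≤ Ci) {χ θ : E3 → ℝ}
    (hχ : Bump χ) (hθ : Cut θ) (η : ℝ) (hη : 0 < η) :
    ∃ C : ℝ, 0 ≤ C ∧ ∀ (ι : Type) (_ : Fintype ι) (n k : ℕ) (R : ℝ) (_ : 100 ≤ R)
    (z : Fin k → ℝ) (W : Finset E3) (Ψ : ι → (Fin n → Fin q) → Cfg n k → ℂ)
    (_ : Ine Ci zm zp q n k R z W χ θ Ψ) (B : ℝ) (_ : ShB R B Ψ) (r : ℝ) (_ : 0 ≤ r)
    (_ : r ≤ R - 23),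
    ∫ v in A r, TM Ψ v 1 ≤ (η * B + C) * R ^ 2 := by
  obtain ⟨t, ht, Hc⟩ := c_cov 4
  obtain ⟨Cs, hCs, Hs⟩ := shn 4 (by norm_num)
  obtain ⟨D, hD, hvol⟩ := A_vol
  obtain ⟨L, hL⟩ : ∃ L : ℝ, L = 1 + t.card * Cs := ⟨_, rfl⟩
  have hL0 : 0 < L := by rw [hL]; positivity
  obtain ⟨e, he⟩ : ∃ e : ℝ, e = η / ((Ci + 1) * L) := ⟨_, rfl⟩
  have he0 : 0 < e := by rw [he]; positivity
  have heη : Ci * (e * L) ≤ η := by
    have h1 : (Ci + 1) * (e * L) = η := by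
      rw [he]
      field_simp
    have h2 : 0 ≤ e * L := by positivity
    linarith
  obtain ⟨C1, hC1, H1⟩ := btt_WS q Ci zm zp hzm hCi hχ hθ e he0
  obtain ⟨C2, hC2, H2⟩ := btt_EC Ci zm zp hzm hχ hθ e he0
  refine ⟨Ci * (D + C1 + t.card * (Cs * C2)), by positivity, ?_⟩
  intro ι _ n k R hR z W Ψ hI B hB r hr hrR
  have hΨ : ∀ i, Sm q n k (Metric.ball 0 R) (Ψ i) := fun i => St_sm (hI.st i)
  have h1 := H1 ι _ n k R hR z W Ψ hI B hB r hr hrR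
  obtain ⟨G, hG⟩ : ∃ G : E3 → ℝ, G = fun v => mM Ψ (fun p => ce p v 1 + cn p v 1) := ⟨_, rfl⟩
  have hG0 : ∀ v, 0 ≤ G v := fun v => by
    rw [hG]
    exact mM_nonneg Ψ fun p => add_nonneg (ce_nonneg p v 1) (cn_nonneg p v 1)
  have hGi : ∀ s, IntegrableOn G (Metric.ball 0 s) := fun s => by
    rw [hG]
    exact sI_sum hΨ 1 s
  have hGs : ∀ c ∈ t, IntegrableOn (fun v => G (v + c)) (A r) ∧
      ∫ v in A r, G (v + c) ≤ Cs * ((e * B + C2) * R ^ 2) := fun c hc =>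
    (Hs G hG0 hGi _ (fun r' hr' => by
      rw [hG]; exact H2 ι _ q n k R hR z W Ψ hI B hB r' hr') r hr).1 c (ht c hc)
  have hfin : volume (A r) ≠ ⊤ :=
    ((measure_mono (btt_sub r)).trans_lt measure_ball_lt_top).ne
  have hc1 : IntegrableOn (fun _ : E3 => (1 : ℝ)) (A r) := integrableOn_const hfin
  have hsum : IntegrableOn (fun v => ∑ c ∈ t, G (v + c)) (A r) :=
    integrable_finsetSum _ fun c hc => (hGs c hc).1
  have hWS : IntegrableOn (fun x => WM χ θ W z Ψ x + SM θ Ψ x) (A r) :=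
    ((sI_W hΨ hχ hθ W z (r + 1)).mono_set (btt_sub r)).add
      ((sI_S hΨ hθ (r + 1)).mono_set (btt_sub r))
  have h2 : ∫ v in A r, TM Ψ v 1 ≤ ∫ v in A r, Ci * ((1 + (WM χ θ W z Ψ v + SM θ Ψ v)) +
      ∑ c ∈ t, G (v + c)) := by
    refine setIntegral_mono ((sI_T hΨ 1 (r + 1)).mono_set (btt_sub r))
      (((hc1.add hWS).add hsum).const_mul _) fun v => ?_
    refine (hI.tt v).trans (mul_le_mul_of_nonneg_left ?_ hCi)
    have h3 := btt_cov hΨ Hc v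
    rw [hG]
    dsimp only
    linarith
  have h4 : ∫ v in A r, Ci * ((1 + (WM χ θ W z Ψ v + SM θ Ψ v)) + ∑ c ∈ t, G (v + c)) =
      Ci * (((volume (A r)).toReal + ∫ v in A r, (WM χ θ W z Ψ v + SM θ Ψ v)) +
        ∑ c ∈ t, ∫ v in A r, G (v + c)) := by
    have a1 : ∫ v in A r, ((1 + (WM χ θ W z Ψ v + SM θ Ψ v)) + ∑ c ∈ t, G (v + c)) =
        (∫ v in A r, (1 + (WM χ θ W z Ψ v + SM θ Ψ v))) +
          ∫ v in A r, ∑ c ∈ t, G (v + c) := integral_add (hc1.add hWS) hsum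
    have a2 : ∫ v in A r, (1 + (WM χ θ W z Ψ v + SM θ Ψ v)) =
        (∫ _ in A r, (1 : ℝ)) + ∫ v in A r, (WM χ θ W z Ψ v + SM θ Ψ v) :=
      integral_add hc1 hWS
    rw [integral_const_mul, a1, a2,
      integral_finsetSum _ fun c hc => (hGs c hc).1, setIntegral_const, smul_eq_mul, mul_one]
    rfl
  have h5 : ∑ c ∈ t, ∫ v in A r, G (v + c) ≤ t.card * (Cs * ((e * B + C2) * R ^ 2)) := by
    refine (sum_le_sum fun c hc => (hGs c hc).2).trans_eq ?_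
    rw [sum_const, nsmul_eq_mul]
  have h6 : (volume (A r)).toReal ≤ D * R ^ 2 := by
    have h7 := ENNReal.toReal_mono ENNReal.ofReal_ne_top
      (hvol r R hr (by linarith) (by linarith))
    rwa [ENNReal.toReal_ofReal (by positivity)] at h7
  have hBR := btt_B hB
  have h8 := mul_le_mul_of_nonneg_right heη hBR
  rw [h4] at h2
  refine h2.trans ?_
  calc Ci * (((volume (A r)).toReal + ∫ v in A r, (WM χ θ W z Ψ v + SM θ Ψ v)) +
        ∑ c ∈ t, ∫ v in A r, G (v + c))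
      ≤ Ci * ((D * R ^ 2 + (e * B + C1) * R ^ 2) + t.card * (Cs * ((e * B + C2) * R ^ 2))) :=
        mul_le_mul_of_nonneg_left (add_le_add (add_le_add h6 h1) h5) hCi
    _ = Ci * (e * L) * (B * R ^ 2) + Ci * (D + C1 + t.card * (Cs * C2)) * R ^ 2 := by
        rw [hL]
        ring
    _ ≤ η * (B * R ^ 2) + Ci * (D + C1 + t.card * (Cs * C2)) * R ^ 2 := by linarith
    _ = _ := by ring

/-- the layer -/
private theorem btt_ly (q : ℕ) (Ci zm zp : ℝ) (hzm : 0 < zm) (hCi : 0 ≤ Ci) {χ θ : E3 → ℝ}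
    (hχ : Bump χ) (hθ : Cut θ) (η : ℝ) (hη : 0 < η) :
    ∃ C : ℝ, 0 ≤ C ∧ ∀ (ι : Type) (_ : Fintype ι) (n k : ℕ) (R : ℝ) (_ : 100 ≤ R)
    (z : Fin k → ℝ) (W : Finset E3) (Ψ : ι → (Fin n → Fin q) → Cfg n k → ℂ)
    (_ : Ine Ci zm zp q n k R z W χ θ Ψ) (B : ℝ) (_ : ShB R B Ψ) (r : ℝ) (_ : 0 ≤ r)
    (_ : R - 23 < r),
    ∫ v in A r, TM Ψ v 1 ≤ (η * B + C) * R ^ 2 := by
  obtain ⟨e, he⟩ : ∃ e : ℝ, e = η / (8 * (Ci + 1) * 55) := ⟨_, rfl⟩
  have he0 : 0 < e := by rw [he]; positivity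
  have heη : 8 * Ci * (e * 55) ≤ η := by
    have h1 : 8 * (Ci + 1) * (e * 55) = η := by
      rw [he]
      field_simp
    linarith
  obtain ⟨C1, hC1, H1⟩ := btt_WS q Ci zm zp hzm hCi hχ hθ e he0
  obtain ⟨C2, hC2, H2⟩ := btt_EC Ci zm zp hzm hχ hθ e he0
  refine ⟨8 * Ci * (1 + 8 * C1 + 47 * C2), by positivity, ?_⟩
  intro ι _ n k R hR z W Ψ hI B hB r hr hrR
  have hΨ : ∀ i, Sm q n k (Metric.ball 0 R) (Ψ i) := fun i => St_sm (hI.st i)
  have h1 : ∫ x in shc (R - 44) (R - 37), (WM χ θ W z Ψ x + SM θ Ψ x) ≤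
      (8 : ℕ) * ((e * B + C1) * R ^ 2) := by
    refine shc_le (fun x => WM χ θ W z Ψ x + SM θ Ψ x)
      (fun v => add_nonneg (WM_nonneg _ _ _ _ _ _) (SM_nonneg _ _ _))
      (fun s => (sI_W hΨ hχ hθ W z s).add (sI_S hΨ hθ s)) _ (R - 44) (by linarith) 8
      (fun i hi => ?_) _ fun v hv => ⟨hv.1, ?_⟩
    · have hi' : (i : ℝ) ≤ 7 := by
        have : i ≤ 7 := by omega
        exact_mod_cast this
      have hi0 : (0 : ℝ) ≤ i := Nat.cast_nonneg i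
      exact H1 ι _ n k R hR z W Ψ hI B hB _ (by linarith) (by linarith)
    · have := hv.2
      push_cast
      linarith
  have h2 : ∫ v in shc (R - 44 - 1) (R + 1), mM Ψ (fun p => ce p v 1 + cn p v 1) ≤
      (47 : ℕ) * ((e * B + C2) * R ^ 2) := by
    refine shc_le (fun v => mM Ψ (fun p => ce p v 1 + cn p v 1))
      (fun v => mM_nonneg Ψ fun p => add_nonneg (ce_nonneg p v 1) (cn_nonneg p v 1))
      (fun s => sI_sum hΨ 1 s) _ (R - 44 - 1) (by linarith) 47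
      (fun i hi => ?_) _ fun v hv => ⟨hv.1, ?_⟩
    · have hi0 : (0 : ℝ) ≤ i := Nat.cast_nonneg i
      exact H2 ι _ q n k R hR z W Ψ hI B hB _ (by linarith)
    · have := hv.2
      push_cast
      linarith
  have h3 := shl_loc hΨ (R - 44)
  have h4 := T_loc hΨ r (R - 40) (by linarith)
  have h5 := hI.ly
  push_cast at h1 h2
  have hBR := btt_B hB
  have h8 := mul_le_mul_of_nonneg_right heη hBR
  have h9 : ∑ i, TO (Ψ i) (R - 40) ≤ Ci * (R ^ 2 + 8 * ((e * B + C1) * R ^ 2) +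
      47 * ((e * B + C2) * R ^ 2)) := by
    refine h5.trans (mul_le_mul_of_nonneg_left ?_ hCi)
    linarith
  calc ∫ v in A r, TM Ψ v 1 ≤ 8 * ∑ i, TO (Ψ i) (R - 40) := h4
    _ ≤ 8 * (Ci * (R ^ 2 + 8 * ((e * B + C1) * R ^ 2) + 47 * ((e * B + C2) * R ^ 2))) :=
        mul_le_mul_of_nonneg_left h9 (by norm_num)
    _ = 8 * Ci * (e * 55) * (B * R ^ 2) + 8 * Ci * (1 + 8 * C1 + 47 * C2) * R ^ 2 := by ring
    _ ≤ η * (B * R ^ 2) + 8 * Ci * (1 + 8 * C1 + 47 * C2) * R ^ 2 := by linarith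
    _ = _ := by ring

theorem btT (q : ℕ) (Ci zm zp : ℝ) (hzm : 0 < zm) (hCi : 0 ≤ Ci) {χ θ : E3 → ℝ}
    (hχ : Bump χ) (hθ : Cut θ) (η : ℝ) (hη : 0 < η) :
    ∃ C : ℝ, 0 ≤ C ∧ ∀ (ι : Type) (_ : Fintype ι) (n k : ℕ) (R : ℝ) (_ : 100 ≤ R)
    (z : Fin k → ℝ) (W : Finset E3) (Ψ : ι → (Fin n → Fin q) → Cfg n k → ℂ)
    (_ : Ine Ci zm zp q n k R z W χ θ Ψ) (B : ℝ) (_ : ShB R B Ψ) (r : ℝ) (_ : 0 ≤ r),
    ∫ v in A r, TM Ψ v 1 ≤ (η * B + C) * R ^ 2 := by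
  obtain ⟨C1, hC1, H1⟩ := btt_in q Ci zm zp hzm hCi hχ hθ η hη
  obtain ⟨C2, hC2, H2⟩ := btt_ly q Ci zm zp hzm hCi hχ hθ η hη
  refine ⟨C1 + C2, by positivity, ?_⟩
  intro ι _ n k R hR z W Ψ hI B hB r hr
  have e1 : 0 ≤ C1 * R ^ 2 := by positivity
  have e2 : 0 ≤ C2 * R ^ 2 := by positivity
  rcases le_or_gt r (R - 23) with h | h
  · refine (H1 ι _ n k R hR z W Ψ hI B hB r hr h).trans ?_
    linarith
  · refine (H2 ι _ n k R hR z W Ψ hI B hB r hr h).trans ?_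
    linarith

theorem btN (q : ℕ) (Ci zm zp : ℝ) (hzm : 0 < zm) (hCi : 0 ≤ Ci) {χ θ : E3 → ℝ}
    (hχ : Bump χ) (hθ : Cut θ) (η : ℝ) (hη : 0 < η) :
    ∃ C : ℝ, 0 ≤ C ∧ ∀ (ι : Type) (_ : Fintype ι) (n k : ℕ) (R : ℝ) (_ : 100 ≤ R)
    (z : Fin k → ℝ) (W : Finset E3) (Ψ : ι → (Fin n → Fin q) → Cfg n k → ℂ)
    (_ : Ine Ci zm zp q n k R z W χ θ Ψ) (B : ℝ) (_ : ShB R B Ψ) (r : ℝ) (_ : 0 ≤ r),
    ∫ v in A r, mM Ψ (fun p => ce p v 1 ^ (5 / 3 : ℝ)) ≤ (η * B + C) * R ^ 2 := by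
  obtain ⟨K, hK, HK⟩ := lt53 q
  obtain ⟨t, ht, Hc⟩ := t_covS 2
  obtain ⟨Cs, hCs, Hs⟩ := shn 2 (by norm_num)
  obtain ⟨L, hL⟩ : ∃ L : ℝ, L = 1 + t.card * Cs := ⟨_, rfl⟩
  have hL0 : 0 < L := by rw [hL]; positivity
  obtain ⟨e, he⟩ : ∃ e : ℝ, e = η / ((K + 1) * L) := ⟨_, rfl⟩
  have he0 : 0 < e := by rw [he]; positivity
  have heη : K * (e * L) ≤ η := by
    have h1 : (K + 1) * (e * L) = η := by
      rw [he]
      field_simp
    have h2 : 0 ≤ e * L := by positivity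
    linarith
  obtain ⟨C1, hC1, H1⟩ := btT q Ci zm zp hzm hCi hχ hθ e he0
  obtain ⟨C2, hC2, H2⟩ := btM 2 1 (by norm_num) (by norm_num) (by norm_num) e he0
  refine ⟨K * (C2 + t.card * (Cs * C1)), by positivity, ?_⟩
  intro ι _ n k R hR z W Ψ hI B hB r hr
  have hΨ : ∀ i, Sm q n k (Metric.ball 0 R) (Ψ i) := fun i => St_sm (hI.st i)
  have hBR := btt_B hB
  rcases le_or_gt r (R + 1) with hrR | hrR
  · have h2 := H2 ι _ q n k R hR Ψ hΨ hI.one B hB r hr hrR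
    obtain ⟨G, hG⟩ : ∃ G : E3 → ℝ, G = fun v => TM Ψ v 1 := ⟨_, rfl⟩
    have hG0 : ∀ v, 0 ≤ G v := fun v => by
      rw [hG]
      exact TM_nonneg Ψ v 1
    have hGi : ∀ s, IntegrableOn G (Metric.ball 0 s) := fun s => by
      rw [hG]
      exact sI_T hΨ 1 s
    have hGs : ∀ c ∈ t, IntegrableOn (fun v => G (v + c)) (A r) ∧
        ∫ v in A r, G (v + c) ≤ Cs * ((e * B + C1) * R ^ 2) := fun c hc =>
      (Hs G hG0 hGi _ (fun r' hr' => by
        rw [hG]; exact H1 ι _ n k R hR z W Ψ hI B hB r' hr') r hr).1 c (ht c hc)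
    have hsum : IntegrableOn (fun v => ∑ c ∈ t, G (v + c)) (A r) :=
      integrable_finsetSum _ fun c hc => (hGs c hc).1
    have hce : IntegrableOn (fun v => mM Ψ (fun p => ce p v 2 ^ (1 : ℝ))) (A r) :=
      (sI_ce hΨ 2 1 (r + 1) (by norm_num)).mono_set (btt_sub r)
    have h3 : ∫ v in A r, mM Ψ (fun p => ce p v 1 ^ (5 / 3 : ℝ)) ≤
        ∫ v in A r, K * (∑ c ∈ t, G (v + c) + mM Ψ (fun p => ce p v 2 ^ (1 : ℝ))) := by
      refine setIntegral_mono ((sI_ce hΨ 1 (5 / 3) (r + 1) (by norm_num)).mono_set (btt_sub r))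
        ((hsum.add hce).const_mul _) fun v => ?_
      have h4 : ∑ i, TE (Ψ i) v 2 ≤ ∑ c ∈ t, G (v + c) := by
        rw [hG]
        dsimp only
        unfold TM
        rw [sum_comm]
        refine sum_le_sum fun i _ => ?_
        have h5 := Hc q n k _ (Ψ i) (hΨ i) v
        have h6 := TN_nonneg (Ψ i) v 2
        linarith
      have h7 : mM Ψ (fun p => ce p v 1 ^ (5 / 3 : ℝ)) ≤
          ∑ i, K * (TE (Ψ i) v 2 + mean (Ψ i) (fun p => ce p v 2 ^ (1 : ℝ))) := by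
        unfold mM
        refine sum_le_sum fun i _ => ?_
        have h8 := HK n k _ (Ψ i) (hI.st i) v 1 one_pos
        simp only [one_pow, one_mul, mul_one] at h8
        simp only [Real.rpow_one]
        exact h8
      refine h7.trans ?_
      rw [← mul_sum, sum_add_distrib]
      refine mul_le_mul_of_nonneg_left ?_ hK
      unfold mM
      linarith
    have h9 : ∫ v in A r, K * (∑ c ∈ t, G (v + c) + mM Ψ (fun p => ce p v 2 ^ (1 : ℝ))) =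
        K * (∑ c ∈ t, (∫ v in A r, G (v + c)) +
          ∫ v in A r, mM Ψ (fun p => ce p v 2 ^ (1 : ℝ))) := by
      rw [integral_const_mul, integral_add hsum hce,
        integral_finsetSum _ fun c hc => (hGs c hc).1]
    have h5 : ∑ c ∈ t, ∫ v in A r, G (v + c) ≤ t.card * (Cs * ((e * B + C1) * R ^ 2)) := by
      refine (sum_le_sum fun c hc => (hGs c hc).2).trans_eq ?_
      rw [sum_const, nsmul_eq_mul]
    have h8 := mul_le_mul_of_nonneg_right heη hBR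
    rw [h9] at h3
    refine h3.trans ?_
    calc K * (∑ c ∈ t, (∫ v in A r, G (v + c)) +
          ∫ v in A r, mM Ψ (fun p => ce p v 2 ^ (1 : ℝ)))
        ≤ K * (t.card * (Cs * ((e * B + C1) * R ^ 2)) + (e * B + C2) * R ^ 2) :=
          mul_le_mul_of_nonneg_left (add_le_add h5 h2) hK
      _ = K * (e * L) * (B * R ^ 2) + K * (C2 + t.card * (Cs * C1)) * R ^ 2 := by
          rw [hL]
          ring
      _ ≤ η * (B * R ^ 2) + K * (C2 + t.card * (Cs * C1)) * R ^ 2 := by linarith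
      _ = _ := by ring
  · have h1 : ∫ v in A r, mM Ψ (fun p => ce p v 1 ^ (5 / 3 : ℝ)) = 0 :=
      setIntegral_eq_zero_of_forall_eq_zero fun v hv =>
        out_ce hΨ v 1 (5 / 3) (by norm_num) (hrR.le.trans hv.1)
    rw [h1]
    have h2 := mul_nonneg hη.le hBR
    have h3 : 0 ≤ K * (C2 + t.card * (Cs * C1)) * R ^ 2 := by positivity
    linarith

end H6.CL
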