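import Pool.Agent.H6.CL.CnP
import Pool.Agent.H6.CB.FMom

/-! Mixed moments at a point. `c_cov` with `R = 14`: `cn p x 14 ≤ ∑ c ∈ t, cn p (x + c) 1`; `(1 + m ^ (1/6)) u ≤ η u ^ (3/2) + C (1 + m ^ (1/2))` for `u, m ≥ 0` (Young), and `m ^ (1/2) ≤ 1 + m ^ (7/6)`. Electrons: `ce p x 14 ≤ mm θ x p` (`mm_lo`, `ce_mono`), `(1 + m ^ (1/6)) m ≤ 2 (1 + m ^ (7/6))`. The finite set `t` is the same for all `η`. -/

open MeasureTheory Finset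

namespace H6.CL

open H6.CM H6.CB

/-- Young's inequality in elementary form -/
private theorem mp_young (a u η : ℝ) (ha : 0 ≤ a) (hu : 0 ≤ u) (hη : 0 < η) :
    a * u ≤ η * u ^ (3 / 2 : ℝ) + (η ^ 2)⁻¹ * a ^ 3 := by
  obtain ⟨s, hs⟩ : ∃ s : ℝ, s = Real.sqrt u := ⟨_, rfl⟩
  have hs0 : 0 ≤ s := by rw [hs]; exact Real.sqrt_nonneg u
  have h1 : u = s ^ 2 := by rw [hs, Real.sq_sqrt hu]
  have h2 : u ^ (3 / 2 : ℝ) = s ^ 3 := by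
    rw [h1, ← Real.rpow_natCast s 2, ← Real.rpow_mul hs0, ← Real.rpow_natCast s 3]
    norm_num
  rw [h2, h1]
  rcases le_total a (η * s) with h | h
  · have h3 : a * s ^ 2 ≤ η * s * s ^ 2 := mul_le_mul_of_nonneg_right h (sq_nonneg s)
    have h4 : 0 ≤ (η ^ 2)⁻¹ * a ^ 3 := by positivity
    nlinarith
  · have h3 : (η * s) ^ 2 ≤ a ^ 2 := pow_le_pow_left₀ (by positivity) h 2
    have h4 : s ^ 2 ≤ (η ^ 2)⁻¹ * a ^ 2 := by
      rw [le_inv_mul_iff₀ (by positivity)]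
      nlinarith
    have h5 := mul_le_mul_of_nonneg_left h4 ha
    have h6 : 0 ≤ η * s ^ 3 := by positivity
    have h7 : a * ((η ^ 2)⁻¹ * a ^ 2) = (η ^ 2)⁻¹ * a ^ 3 := by ring
    linarith

private theorem mp_mm0 {n k : ℕ} (θ : E3 → ℝ) (x : E3) (p : Cfg n k) : 0 ≤ mm θ x p :=
  sum_nonneg fun _ _ => sq_nonneg _

/-- the powers of `m` -/
private theorem mp_pow (m : ℝ) (hm0 : 0 ≤ m) :
    (1 + m ^ (1 / 6 : ℝ)) * m ≤ 2 * (1 + m ^ (7 / 6 : ℝ)) ∧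
      (1 + m ^ (1 / 6 : ℝ)) ^ 3 ≤ 8 * (1 + m ^ (7 / 6 : ℝ)) := by
  obtain ⟨s, hs⟩ : ∃ s : ℝ, s = m ^ (1 / 6 : ℝ) := ⟨_, rfl⟩
  have hs0 : 0 ≤ s := by rw [hs]; exact Real.rpow_nonneg hm0 _
  have h1 : m = s ^ 6 := by
    rw [hs, ← Real.rpow_natCast, ← Real.rpow_mul hm0]
    norm_num
  have h2 : m ^ (7 / 6 : ℝ) = s ^ 7 := by
    rw [hs, ← Real.rpow_natCast, ← Real.rpow_mul hm0]
    norm_num
  rw [← hs, h2]
  have h3 : s ^ 6 ≤ 1 + s ^ 7 := by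
    rcases le_total s 1 with h | h
    · have : s ^ 6 ≤ 1 := pow_le_one₀ hs0 h
      have h4 : 0 ≤ s ^ 7 := by positivity
      linarith
    · have : s ^ 6 * 1 ≤ s ^ 6 * s := mul_le_mul_of_nonneg_left h (by positivity)
      nlinarith
  have h4 : s ^ 3 ≤ 1 + s ^ 7 := by
    rcases le_total s 1 with h | h
    · have : s ^ 3 ≤ 1 := pow_le_one₀ hs0 h
      have h4 : 0 ≤ s ^ 7 := by positivity
      linarith
    · have : s ^ 3 * 1 ≤ s ^ 3 * s ^ 4 :=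
        mul_le_mul_of_nonneg_left (one_le_pow₀ h) (by positivity)
      nlinarith
  constructor
  · rw [h1]
    have h5 : (1 + s) * s ^ 6 = s ^ 6 + s ^ 7 := by ring
    have h6 : 0 ≤ s ^ 7 := by positivity
    rw [h5]
    linarith
  · have h5 : (1 + s) ^ 3 ≤ 4 * (1 + s ^ 3) := by
      nlinarith [mul_nonneg (by linarith : (0 : ℝ) ≤ 1 + s) (sq_nonneg (1 - s))]
    have h6 : 0 ≤ s ^ 7 := by positivity
    linarith

theorem mixP {θ : E3 → ℝ} (hθ : Cut θ) : ∃ t : Finset E3, (∀ c ∈ t, ‖c‖ ≤ 14) ∧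
    ∀ η : ℝ, 0 < η → ∃ C : ℝ, 0 ≤ C ∧
    ∀ (q n k : ℕ) (Λ : Set E3) (ψ : (Fin n → Fin q) → Cfg n k → ℂ) (_ : Sm q n k Λ ψ)
    (x : E3),
    mean ψ (fun p => (1 + mm θ x p ^ (1 / 6 : ℝ)) * (ce p x 14 + cn p x 14)) ≤
      η * (∑ c ∈ t, mean ψ (fun p => cn p (x + c) 1 ^ (3 / 2 : ℝ))) +
      C * (mass ψ + mean ψ (fun p => mm θ x p ^ (7 / 6 : ℝ))) := by
  obtain ⟨t, ht1, ht2⟩ := c_cov 14
  refine ⟨t, ht1, fun η hη => ?_⟩
  obtain ⟨C, hC⟩ : ∃ C : ℝ, C = 2 + t.card * ((η ^ 2)⁻¹ * 8) := ⟨_, rfl⟩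
  have hC0 : 0 ≤ C := by rw [hC]; positivity
  refine ⟨C, hC0, ?_⟩
  intro q n k Λ ψ hψ x
  have I2 := IM_mmt hθ hψ x (7 / 6) (by norm_num)
  have I0 : IM ψ (fun _ => (1 : ℝ)) := IM.cont hψ continuous_const
  have IQ : IM ψ (fun p => ∑ c ∈ t, cn p (x + c) 1 ^ (3 / 2 : ℝ)) :=
    IM.sum _ fun c _ => IM_cnt hψ (x + c) 1 (3 / 2) (by norm_num)
  have IL : IM ψ (fun p => (1 + mm θ x p ^ (1 / 6 : ℝ)) * (ce p x 14 + cn p x 14)) := by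
    refine IM.bdd hψ ?_ ((1 + (n : ℝ) ^ (1 / 6 : ℝ)) * (n + k)) fun p => ?_
    · exact (measurable_const.add ((mm_smooth hθ x).continuous.measurable.pow_const _)).mul
        ((ce_meas x 14).add (cn_meas x 14))
    · have h1 := mp_mm0 θ x p
      have h2 : mm θ x p ≤ n := (mm_hi hθ x p).trans (ce_le p x 64)
      have h3 : mm θ x p ^ (1 / 6 : ℝ) ≤ (n : ℝ) ^ (1 / 6 : ℝ) :=
        Real.rpow_le_rpow h1 h2 (by norm_num)
      have h4 : 0 ≤ mm θ x p ^ (1 / 6 : ℝ) := Real.rpow_nonneg h1 _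
      have h5 := ce_le p x 14
      have h6 := cn_le p x 14
      have h7 := ce_nonneg p x 14
      have h8 := cn_nonneg p x 14
      rw [abs_of_nonneg (by positivity)]
      exact mul_le_mul (by linarith) (by linarith) (by positivity) (by positivity)
  have hpt : ∀ p : Cfg n k, (1 + mm θ x p ^ (1 / 6 : ℝ)) * (ce p x 14 + cn p x 14) ≤
      η * (∑ c ∈ t, cn p (x + c) 1 ^ (3 / 2 : ℝ)) + C * (1 + mm θ x p ^ (7 / 6 : ℝ)) := by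
    intro p
    obtain ⟨m, hm⟩ : ∃ m : ℝ, m = mm θ x p := ⟨_, rfl⟩
    have hm0 : 0 ≤ m := by rw [hm]; exact mp_mm0 θ x p
    obtain ⟨g, hg⟩ : ∃ g : ℝ, g = 1 + m ^ (1 / 6 : ℝ) := ⟨_, rfl⟩
    have hs0 : 0 ≤ m ^ (1 / 6 : ℝ) := Real.rpow_nonneg hm0 _
    have hg0 : 0 ≤ g := by rw [hg]; positivity
    obtain ⟨e1, e2⟩ := mp_pow m hm0
    have h32 : ce p x 32 ≤ m := by rw [hm]; exact mm_lo hθ x p
    have hc14 : ce p x 14 ≤ m := (ce_mono p (by rw [sub_self, norm_zero]; norm_num)).trans h32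
    have hcc := (ht2 n k p x).2
    rw [← hm, ← hg]
    rw [← hg] at e1 e2
    have h1 : g * cn p x 14 ≤ ∑ c ∈ t, (η * cn p (x + c) 1 ^ (3 / 2 : ℝ) +
        (η ^ 2)⁻¹ * g ^ 3) := by
      calc g * cn p x 14 ≤ g * ∑ c ∈ t, cn p (x + c) 1 := mul_le_mul_of_nonneg_left hcc hg0
        _ = ∑ c ∈ t, g * cn p (x + c) 1 := mul_sum _ _ _
        _ ≤ _ := sum_le_sum fun c _ => mp_young g _ η hg0 (cn_nonneg p (x + c) 1) hη
    rw [sum_add_distrib, ← mul_sum, sum_const, nsmul_eq_mul] at h1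
    have h2 : g * ce p x 14 ≤ 2 * (1 + m ^ (7 / 6 : ℝ)) :=
      (mul_le_mul_of_nonneg_left hc14 hg0).trans e1
    have h3 : (t.card : ℝ) * ((η ^ 2)⁻¹ * g ^ 3) ≤
        t.card * ((η ^ 2)⁻¹ * (8 * (1 + m ^ (7 / 6 : ℝ)))) :=
      mul_le_mul_of_nonneg_left (mul_le_mul_of_nonneg_left e2 (by positivity)) (by positivity)
    have h4 : C * (1 + m ^ (7 / 6 : ℝ)) = 2 * (1 + m ^ (7 / 6 : ℝ)) +
        t.card * ((η ^ 2)⁻¹ * (8 * (1 + m ^ (7 / 6 : ℝ)))) := by rw [hC]; ring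
    rw [h4, mul_add]
    linarith
  have J1 := IQ.cmul η
  have J2 := (I0.add I2).cmul C
  have hmean := mean_mono IL (J1.add J2) fun σ p _ => hpt p
  rw [mean_add J1 J2, mean_cmul, mean_cmul, mean_add I0 I2, mean_one,
    mean_sum _ fun c _ => IM_cnt hψ (x + c) 1 (3 / 2) (by norm_num)] at hmean
  exact hmean

end H6.CL
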