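import Pool.Agent.H6.CB.FSa
import Pool.Agent.H6.CB.FSb
import Pool.Agent.H6.CB.FMom
import Pool.Agent.H6.CL.Defs

/-! The second moments of the local counts, without normalisation of the state (compare `fss` in `Pool/Agent/H6/CB/FSs.lean`). For `l < L0` the sector contributes at most a constant (depending on `L0`) times the mass (`ce p v (7 * sc l) ≤ mm θ x p < 64 ^ (l+1)` where `Gs ≠ 0`). For `l ≥ L0` use `ss_one`, `te_gs` (scaled: `TE`, `mean` are quadratic; `te_gs` for `mass ψ = 1` gives `C (2 ^ L0)⁻¹ (TE ψ y r + mass ψ)` in general; for `mass ψ = 0` everything vanishes, or repeat its proof), and `2 ^ l * Gs ^ 2 * ce p x 14 ≤ 2 * Gs * (mm + mm ^ (7/6))`, `mm ≤ 1 + mm ^ (7/6)`. The first constant must not depend on `L0`. -/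

open MeasureTheory Finset

namespace H6.CL

open H6.CM H6.CB

private theorem sspb_mass {q n k : ℕ} (ψ : (Fin n → Fin q) → Cfg n k → ℂ) : 0 ≤ mass ψ := by
  unfold mass
  exact sum_nonneg fun σ _ => integral_nonneg fun p => sq_nonneg _

private theorem sspb_upE {n k : ℕ} {α : Type*} [NormedAddCommGroup α] [NormedSpace ℝ α]
    (F : Cfg n k → α) (hF : Differentiable ℝ F) (q : Cfg n k) (b : Fin n) (v : E3) :
    DifferentiableAt ℝ (fun v => F (Function.update q.1 b v, q.2)) v := by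
  have h1 : DifferentiableAt ℝ (fun v : E3 => ((Function.update q.1 b v, q.2) : Cfg n k)) v :=
    ((hasFDerivAt_update q.1 v).differentiableAt).prodMk (differentiableAt_const _)
  exact (hF _).comp v h1

private theorem sspb_comb (a s : ℝ) (f g : ℂ) :
    ‖(a : ℂ) * f + (s : ℂ) * g‖ ^ 2 ≤ 2 * s ^ 2 * ‖g‖ ^ 2 + 2 * a ^ 2 * ‖f‖ ^ 2 := by
  have h1 := norm_add_le ((a : ℂ) * f) ((s : ℂ) * g)
  rw [norm_mul, norm_mul, Complex.norm_real, Complex.norm_real, Real.norm_eq_abs,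
    Real.norm_eq_abs] at h1
  have h2 : ‖(a : ℂ) * f + (s : ℂ) * g‖ ^ 2 ≤ (|a| * ‖f‖ + |s| * ‖g‖) ^ 2 :=
    pow_le_pow_left₀ (norm_nonneg _) h1 2
  have h3 : (|a| * ‖f‖) ^ 2 = a ^ 2 * ‖f‖ ^ 2 := by rw [mul_pow, sq_abs]
  have h4 : (|s| * ‖g‖) ^ 2 = s ^ 2 * ‖g‖ ^ 2 := by rw [mul_pow, sq_abs]
  nlinarith [sq_nonneg (|a| * ‖f‖ - |s| * ‖g‖)]

private theorem sspb_g3 (s : E3 → ℝ) (f : E3 → ℂ) (v : E3) (hs : DifferentiableAt ℝ s v)
    (hf : DifferentiableAt ℝ f v) :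
    g3 (fun u => ((s u : ℝ) : ℂ) * f u) v ≤ 2 * s v ^ 2 * g3 f v + 2 * gr s v * ‖f v‖ ^ 2 := by
  have hd : ∀ e : E3, fderiv ℝ (fun u => ((s u : ℝ) : ℂ) * f u) v e =
      ((fderiv ℝ s v e : ℝ) : ℂ) * f v + ((s v : ℝ) : ℂ) * fderiv ℝ f v e := by
    intro e
    have h1 : HasFDerivAt (fun u => ((s u : ℝ) : ℂ)) (Complex.ofRealCLM.comp (fderiv ℝ s v)) v :=
      Complex.ofRealCLM.hasFDerivAt.comp v hs.hasFDerivAt
    have h2 := h1.mul hf.hasFDerivAt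
    have h3 : HasFDerivAt (fun u => ((s u : ℝ) : ℂ) * f u) _ v := h2
    rw [h3.fderiv]
    simp only [add_apply, smul_apply, smul_eq_mul,
      ContinuousLinearMap.comp_apply, Complex.ofRealCLM_apply]
    ring
  unfold g3 gr
  rw [mul_sum, mul_sum, sum_mul, ← sum_add_distrib]
  refine sum_le_sum fun d _ => ?_
  rw [hd]
  exact sspb_comb _ _ _ _

private theorem sspb_ge {q n k : ℕ} {Λ : Set E3} {ψ : (Fin n → Fin q) → Cfg n k → ℂ}
    (hψ : Sm q n k Λ ψ) {g : Cfg n k → ℝ} (hg : ContDiff ℝ (⊤ : ℕ∞) g) (σ : Fin n → Fin q)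
    (a : Fin n) (p : Cfg n k) :
    ge (mf g ψ σ) a p ≤ 2 * g p ^ 2 * ge (ψ σ) a p +
      2 * gr (fun v => g (Function.update p.1 a v, p.2)) (p.1 a) * ‖ψ σ p‖ ^ 2 := by
  have h1 := sspb_g3 (fun v => g (Function.update p.1 a v, p.2))
    (fun v => ψ σ (Function.update p.1 a v, p.2)) (p.1 a)
    (sspb_upE g (hg.differentiable (by simp)) p a (p.1 a))
    (sspb_upE (ψ σ) ((hψ.smooth σ).differentiable (by simp)) p a (p.1 a))
  simp only [Function.update_eq_self] at h1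
  exact h1

private theorem sspb_int {n k : ℕ} {g : Cfg n k → ℝ} (hg : Integrable g) (a : Fin n) (y : E3)
    (r : ℝ) : Integrable (fun p : Cfg n k => if ‖p.1 a - y‖ < r then g p else 0) := by
  have hm : MeasurableSet {p : Cfg n k | ‖p.1 a - y‖ < r} :=
    measurableSet_lt ((meas_e a).sub_const y).norm measurable_const
  refine (hg.indicator hm).congr (Filter.Eventually.of_forall fun p => ?_)
  by_cases hp : ‖p.1 a - y‖ < r
  · simp [hp]
  · simp [hp]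

/-- the kinetic energy of one sector -/
private theorem sspb_one {θ : E3 → ℝ} (hθ : Cut θ) {C : ℝ}
    (hC : ∀ (n k : ℕ) (κ : Fin k → ℝ) (x : E3)
    (l : ℕ) (p : Cfg n k), Gm κ (Gs θ x l) p ≤ C * ((64 : ℝ) ^ l)⁻¹ * Gs θ x l p) (hC0 : 0 ≤ C)
    {q n k : ℕ} {Λ : Set E3} {ψ : (Fin n → Fin q) → Cfg n k → ℂ} (hψ : Sm q n k Λ ψ)
    (x y : E3) (r : ℝ) (l : ℕ) :
    TE (mf (Gs θ x l) ψ) y r ≤
      (∑ a, ∑ σ, ∫ p, (if ‖p.1 a - y‖ < r then 2 * Gs θ x l p * ge (ψ σ) a p else 0)) +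
      2 * C * ((64 : ℝ) ^ l)⁻¹ * mass ψ := by
  have hgs := Gs_smooth (n := n) (k := k) hθ x l
  have i1 : ∀ (σ : Fin n → Fin q) (a : Fin n),
      Integrable (fun p : Cfg n k => if ‖p.1 a - y‖ < r then ge (mf (Gs θ x l) ψ σ) a p else 0) :=
    fun σ a => sspb_int (kE_int (mf_sm hψ hgs) σ a) a y r
  have i2 : ∀ (σ : Fin n → Fin q) (a : Fin n),
      Integrable (fun p : Cfg n k => if ‖p.1 a - y‖ < r then 2 * Gs θ x l p * ge (ψ σ) a p else 0) := by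
    intro σ a
    refine sspb_int ?_ a y r
    have c1 : ContDiff ℝ 1 (ψ σ) := (hψ.smooth σ).of_le (by exact_mod_cast le_top)
    exact ((continuous_const.mul hgs.continuous).mul (ge_cont (ψ σ) c1 a)).integrable_of_hasCompactSupport
      (ge_cpt (ψ σ) c1 (hψ.cpt σ) a).mul_left
  have i3 : ∀ σ : Fin n → Fin q, Integrable (fun p => 2 * C * ((64 : ℝ) ^ l)⁻¹ * ‖ψ σ p‖ ^ 2) :=
    fun σ => (((Sm_sq hψ σ).1.integrable_of_hasCompactSupport (Sm_sq hψ σ).2)).const_mul _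
  unfold TE
  rw [sum_comm, sum_comm (f := fun a σ => ∫ p : Cfg n k,
    (if ‖p.1 a - y‖ < r then 2 * Gs θ x l p * ge (ψ σ) a p else 0))]
  have hmass : 2 * C * ((64 : ℝ) ^ l)⁻¹ * mass ψ =
      ∑ σ, ∫ p, 2 * C * ((64 : ℝ) ^ l)⁻¹ * ‖ψ σ p‖ ^ 2 := by
    simp only [integral_const_mul]
    rw [← mul_sum]
    unfold mass
    rfl
  conv_rhs => rw [hmass]
  rw [← sum_add_distrib]
  refine sum_le_sum fun σ _ => ?_
  rw [← integral_finsetSum _ fun a _ => i1 σ a, ← integral_finsetSum _ fun a _ => i2 σ a,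
    ← integral_add (integrable_finsetSum _ fun a _ => i2 σ a) (i3 σ)]
  refine integral_mono (integrable_finsetSum _ fun a _ => i1 σ a)
    ((integrable_finsetSum _ fun a _ => i2 σ a).add (i3 σ)) fun p => ?_
  obtain ⟨hG0, hG1⟩ := Gs_mem (n := n) (k := k) (θ := θ) x l p
  have h1 : ∀ a : Fin n, (if ‖p.1 a - y‖ < r then ge (mf (Gs θ x l) ψ σ) a p else 0) ≤
      (if ‖p.1 a - y‖ < r then 2 * Gs θ x l p * ge (ψ σ) a p else 0) +
      gr (fun v => Gs θ x l (Function.update p.1 a v, p.2)) (p.1 a) * (2 * ‖ψ σ p‖ ^ 2) := by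
    intro a
    have hgr := gr_nonneg (fun v => Gs θ x l (Function.update p.1 a v, p.2)) (p.1 a)
    have hn : 0 ≤ ‖ψ σ p‖ ^ 2 := sq_nonneg _
    split_ifs
    · have h2 := sspb_ge hψ hgs σ a p
      have h3 := ge_nonneg (ψ σ) a p
      have h4 : Gs θ x l p ^ 2 ≤ Gs θ x l p := by nlinarith
      have h5 : 2 * Gs θ x l p ^ 2 * ge (ψ σ) a p ≤ 2 * Gs θ x l p * ge (ψ σ) a p :=
        mul_le_mul_of_nonneg_right (by linarith) h3
      linarith
    · have : 0 ≤ gr (fun v => Gs θ x l (Function.update p.1 a v, p.2)) (p.1 a) *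
          (2 * ‖ψ σ p‖ ^ 2) := mul_nonneg hgr (by positivity)
      linarith
  have h2 : ∑ a, gr (fun v => Gs θ x l (Function.update p.1 a v, p.2)) (p.1 a) ≤
      C * ((64 : ℝ) ^ l)⁻¹ := by
    have h3 := hC n k (fun _ => 0) x l p
    unfold Gm at h3
    simp only [zero_mul, sum_const_zero, add_zero] at h3
    refine h3.trans ?_
    exact mul_le_of_le_one_right (by positivity) hG1
  calc ∑ a, (if ‖p.1 a - y‖ < r then ge (mf (Gs θ x l) ψ σ) a p else 0)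
      ≤ ∑ a, ((if ‖p.1 a - y‖ < r then 2 * Gs θ x l p * ge (ψ σ) a p else 0) +
        gr (fun v => Gs θ x l (Function.update p.1 a v, p.2)) (p.1 a) * (2 * ‖ψ σ p‖ ^ 2)) :=
        sum_le_sum fun a _ => h1 a
    _ = (∑ a, (if ‖p.1 a - y‖ < r then 2 * Gs θ x l p * ge (ψ σ) a p else 0)) +
        (∑ a, gr (fun v => Gs θ x l (Function.update p.1 a v, p.2)) (p.1 a)) *
          (2 * ‖ψ σ p‖ ^ 2) := by
        rw [sum_add_distrib, sum_mul]
    _ ≤ (∑ a, (if ‖p.1 a - y‖ < r then 2 * Gs θ x l p * ge (ψ σ) a p else 0)) +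
        (C * ((64 : ℝ) ^ l)⁻¹) * (2 * ‖ψ σ p‖ ^ 2) := by
        gcongr
    _ = _ := by ring

private theorem sspb_te {θ : E3 → ℝ} (hθ : Cut θ) : ∃ C : ℝ, 0 ≤ C ∧
    ∀ (q n k : ℕ) (Λ : Set E3) (ψ : (Fin n → Fin q) → Cfg n k → ℂ) (_ : Sm q n k Λ ψ)
    (x y : E3) (r : ℝ) (L0 : ℕ),
    ∑ l ∈ range (n + 1), (if L0 ≤ l then ((2 : ℝ) ^ l)⁻¹ * TE (mf (Gs θ x l) ψ) y r else 0) ≤
      C * ((2 : ℝ) ^ L0)⁻¹ * (TE ψ y r + mass ψ) := by
  obtain ⟨C, hC0, hC⟩ := Gs_grad hθ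
  refine ⟨6 + 4 * C, by positivity, fun q n k Λ ψ hψ x y r L0 => ?_⟩
  have i2 : ∀ (l : ℕ) (σ : Fin n → Fin q) (a : Fin n),
      Integrable (fun p : Cfg n k => if ‖p.1 a - y‖ < r then 2 * Gs θ x l p * ge (ψ σ) a p else 0) := by
    intro l σ a
    refine sspb_int ?_ a y r
    have c1 : ContDiff ℝ 1 (ψ σ) := (hψ.smooth σ).of_le (by exact_mod_cast le_top)
    exact ((continuous_const.mul (Gs_smooth (n := n) (k := k) hθ x l).continuous).mul
      (ge_cont (ψ σ) c1 a)).integrable_of_hasCompactSupport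
      (ge_cpt (ψ σ) c1 (hψ.cpt σ) a).mul_left
  obtain ⟨A, hA⟩ : ∃ A : ℕ → ℝ, A = fun l => ∑ a, ∑ σ, ∫ p : Cfg n k,
      (if ‖p.1 a - y‖ < r then 2 * Gs θ x l p * ge (ψ σ) a p else 0) := ⟨_, rfl⟩
  have hA0 : ∀ l, 0 ≤ A l := by
    intro l
    rw [hA]
    refine sum_nonneg fun a _ => sum_nonneg fun σ _ => integral_nonneg fun p => ?_
    simp only [Pi.zero_apply]
    obtain ⟨hG0, _⟩ := Gs_mem (n := n) (k := k) (θ := θ) x l p
    have := ge_nonneg (ψ σ) a p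
    split_ifs
    · positivity
    · exact le_rfl
  have hAs : ∑ l ∈ range (n + 1), A l ≤ 6 * TE ψ y r := by
    rw [hA]
    unfold TE
    rw [sum_comm, mul_sum]
    refine sum_le_sum fun a _ => ?_
    rw [sum_comm, mul_sum]
    refine sum_le_sum fun σ _ => ?_
    rw [← integral_finsetSum _ fun l _ => i2 l σ a, ← integral_const_mul]
    refine integral_mono (integrable_finsetSum _ fun l _ => i2 l σ a)
      ((sspb_int (kE_int hψ σ a) a y r).const_mul 6) fun p => ?_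
    have h1 := Gs_sum_le (n := n) (k := k) (θ := θ) x p n
    have h2 := ge_nonneg (ψ σ) a p
    by_cases hp : ‖p.1 a - y‖ < r
    · simp only [hp, if_true]
      rw [← sum_mul, ← mul_sum]
      exact mul_le_mul_of_nonneg_right (by linarith) h2
    · simp [hp]
  have hms : 0 ≤ mass ψ := sspb_mass ψ
  have hB : ∑ l ∈ range (n + 1), 2 * C * ((64 : ℝ) ^ l)⁻¹ * mass ψ ≤ 4 * C * mass ψ := by
    rw [← sum_mul]
    refine mul_le_mul_of_nonneg_right ?_ hms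
    rw [← mul_sum]
    have h1 : ∑ l ∈ range (n + 1), ((64 : ℝ) ^ l)⁻¹ ≤ 2 := by
      have h2 : ∀ m : ℕ, ∑ l ∈ range m, ((64 : ℝ) ^ l)⁻¹ ≤ 2 - 2 * ((64 : ℝ) ^ m)⁻¹ := by
        intro m
        induction m with
        | zero => norm_num
        | succ m ih =>
          rw [sum_range_succ]
          have h4 : ((64 : ℝ) ^ (m + 1))⁻¹ = ((64 : ℝ) ^ m)⁻¹ / 64 := by
            rw [pow_succ, mul_inv]
            ring
          rw [h4]
          have h5 : 0 < ((64 : ℝ) ^ m)⁻¹ := by positivity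
          linarith
      have h3 := h2 (n + 1)
      have h4 : 0 < ((64 : ℝ) ^ (n + 1))⁻¹ := by positivity
      linarith
    nlinarith
  have hT0 := TE_nonneg ψ y r
  have hstep : ∀ l ∈ range (n + 1),
      (if L0 ≤ l then ((2 : ℝ) ^ l)⁻¹ * TE (mf (Gs θ x l) ψ) y r else 0) ≤
      ((2 : ℝ) ^ L0)⁻¹ * (A l + 2 * C * ((64 : ℝ) ^ l)⁻¹ * mass ψ) := by
    intro l _
    have h1 := sspb_one hθ hC hC0 hψ x y r l
    have h2 : A l = ∑ a, ∑ σ, ∫ p : Cfg n k,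
      (if ‖p.1 a - y‖ < r then 2 * Gs θ x l p * ge (ψ σ) a p else 0) := by rw [hA]
    rw [← h2] at h1
    have h3 := hA0 l
    split_ifs with hl
    · have h4 : ((2 : ℝ) ^ l)⁻¹ ≤ ((2 : ℝ) ^ L0)⁻¹ := by
        apply inv_anti₀ (by positivity)
        exact pow_le_pow_right₀ (by norm_num) hl
      have h5 := TE_nonneg (mf (Gs θ x l) ψ) y r
      calc ((2 : ℝ) ^ l)⁻¹ * TE (mf (Gs θ x l) ψ) y r
          ≤ ((2 : ℝ) ^ L0)⁻¹ * TE (mf (Gs θ x l) ψ) y r := mul_le_mul_of_nonneg_right h4 h5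
        _ ≤ _ := mul_le_mul_of_nonneg_left h1 (by positivity)
    · positivity
  refine (sum_le_sum hstep).trans ?_
  rw [← mul_sum, sum_add_distrib]
  have h6 : (0 : ℝ) < ((2 : ℝ) ^ L0)⁻¹ := by positivity
  calc ((2 : ℝ) ^ L0)⁻¹ * (∑ l ∈ range (n + 1), A l +
        ∑ l ∈ range (n + 1), 2 * C * ((64 : ℝ) ^ l)⁻¹ * mass ψ)
      ≤ ((2 : ℝ) ^ L0)⁻¹ * (6 * TE ψ y r + 4 * C * mass ψ) := by gcongr
    _ ≤ ((2 : ℝ) ^ L0)⁻¹ * ((6 + 4 * C) * (TE ψ y r + mass ψ)) := by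
        apply mul_le_mul_of_nonneg_left _ h6.le
        nlinarith [mul_nonneg hC0 hT0]
    _ = _ := by ring

private theorem ssps_scpos (l : ℕ) : 0 < sc l := by
  unfold sc
  positivity

private theorem ssps_sc8 (l : ℕ) : sc l ≤ 1 / 8 := by
  unfold sc
  rw [pow_add]
  have h1 : (1 : ℝ) ≤ 2 ^ l := one_le_pow₀ (by norm_num)
  rw [inv_le_comm₀ (by positivity) (by norm_num)]
  linarith

private theorem ssps_mm0 {n k : ℕ} (θ : E3 → ℝ) (x : E3) (p : Cfg n k) : 0 ≤ mm θ x p :=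
  sum_nonneg fun _ _ => sq_nonneg _

/-- the constant of the low sectors -/
private noncomputable def sspK (l : ℕ) : ℝ := (sc l ^ 2)⁻¹ * ((64 : ℝ) ^ (l + 1)) ^ 2

private theorem sspK_nonneg (l : ℕ) : 0 ≤ sspK l := by
  unfold sspK
  positivity

private theorem ssps_low {q n k : ℕ} {Λ : Set E3} {θ : E3 → ℝ} (hθ : Cut θ)
    {ψ : (Fin n → Fin q) → Cfg n k → ℂ} (hψ : Sm q n k Λ ψ) (x : E3) (l : ℕ) :
    ∫ v in Metric.ball x 12,
      mean ψ (fun p => Gs θ x l p ^ 2 * ((sc l ^ 2)⁻¹ * ce p v (7 * sc l) ^ 2)) ≤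
    (volume (Metric.ball (0 : E3) 12)).toReal * (sspK l * mass ψ) := by
  have h0 : ∀ (v : E3) (p : Cfg n k),
      0 ≤ Gs θ x l p ^ 2 * ((sc l ^ 2)⁻¹ * ce p v (7 * sc l) ^ 2) := fun v p =>
    mul_nonneg (sq_nonneg _) (mul_nonneg (inv_nonneg.2 (sq_nonneg _)) (sq_nonneg _))
  have h1 : ∀ v ∈ Metric.ball x 12,
      mean ψ (fun p => Gs θ x l p ^ 2 * ((sc l ^ 2)⁻¹ * ce p v (7 * sc l) ^ 2)) ≤
        sspK l * mass ψ := by
    intro v hv
    rw [Metric.mem_ball, dist_eq_norm] at hv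
    have h2 : mean ψ (fun p => Gs θ x l p ^ 2 * ((sc l ^ 2)⁻¹ * ce p v (7 * sc l) ^ 2)) ≤
        mean ψ (fun _ => sspK l) := by
      refine mean_mono0 (h0 v) (IM.cont hψ continuous_const) fun σ p _ => ?_
      by_cases hg : Gs θ x l p = 0
      · rw [hg]
        simp only [ne_eq, OfNat.ofNat_ne_zero, not_false_eq_true, zero_pow, zero_mul]
        exact sspK_nonneg l
      · have h3 : mm θ x p < 64 ^ (l + 1) := gl_hi l _ hg
        have h4 : ce p v (7 * sc l) ≤ ce p x 32 := by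
          refine ce_mono p ?_
          have := ssps_sc8 l
          linarith
        have h5 : ce p v (7 * sc l) ≤ 64 ^ (l + 1) := (h4.trans (mm_lo hθ x p)).trans h3.le
        obtain ⟨h6, h7⟩ := Gs_mem (θ := θ) x l p
        have h8 : Gs θ x l p ^ 2 ≤ 1 := pow_le_one₀ h6 h7
        have h9 : (sc l ^ 2)⁻¹ * ce p v (7 * sc l) ^ 2 ≤ sspK l := by
          unfold sspK
          exact mul_le_mul_of_nonneg_left (pow_le_pow_left₀ (ce_nonneg p v _) h5 2)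
            (inv_nonneg.2 (sq_nonneg _))
        calc Gs θ x l p ^ 2 * ((sc l ^ 2)⁻¹ * ce p v (7 * sc l) ^ 2) ≤ 1 * sspK l :=
              mul_le_mul h8 h9 (mul_nonneg (inv_nonneg.2 (sq_nonneg _)) (sq_nonneg _)) zero_le_one
          _ = sspK l := one_mul _
    rwa [mean_const] at h2
  have h2 : ∫ v in Metric.ball x 12,
      mean ψ (fun p => Gs θ x l p ^ 2 * ((sc l ^ 2)⁻¹ * ce p v (7 * sc l) ^ 2)) ≤
      ∫ _v in Metric.ball x 12, sspK l * mass ψ := by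
    refine integral_mono_of_nonneg (Filter.Eventually.of_forall fun v => ?_)
      (integrableOn_const (hs := measure_ball_lt_top.ne)) ?_
    · exact mean_nonneg fun σ p _ => h0 v p
    · exact (ae_restrict_mem Metric.isOpen_ball.measurableSet).mono fun v hv => h1 v hv
  rw [setIntegral_const, smul_eq_mul, Measure.real, Measure.addHaar_ball_center] at h2
  exact h2

/-- the pointwise bound for the high sectors -/
private theorem ssps_pt {n k : ℕ} {θ : E3 → ℝ} (hθ : Cut θ) (x : E3) (l : ℕ) (p : Cfg n k) :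
    2 ^ l * (Gs θ x l p ^ 2 * ce p x 14) ≤
      Gs θ x l p * (2 * (mm θ x p ^ (1 : ℝ) + mm θ x p ^ (7 / 6 : ℝ))) := by
  obtain ⟨h6, h7⟩ := Gs_mem (θ := θ) x l p
  have hmm0 := ssps_mm0 θ x p
  have hce : ce p x 14 ≤ mm θ x p := by
    refine (ce_mono p ?_).trans (mm_lo hθ x p)
    rw [sub_self, norm_zero]
    norm_num
  have hce0 := ce_nonneg p x 14
  have hG2 : Gs θ x l p ^ 2 ≤ Gs θ x l p := by
    rw [sq]
    exact mul_le_of_le_one_left h6 h7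
  have h76 : 0 ≤ mm θ x p ^ (7 / 6 : ℝ) := Real.rpow_nonneg hmm0 _
  rw [Real.rpow_one]
  have hA : Gs θ x l p ^ 2 * ce p x 14 ≤ Gs θ x l p * mm θ x p :=
    mul_le_mul hG2 hce hce0 h6
  by_cases hg : Gs θ x l p = 0
  · rw [hg]
    simp
  cases l with
  | zero =>
    rw [pow_zero, one_mul]
    refine hA.trans (mul_le_mul_of_nonneg_left ?_ h6)
    linarith
  | succ l =>
    have h1 : (64 : ℝ) ^ l < mm θ x p := gl_lo l _ hg
    have hmmpos : 0 < mm θ x p := lt_trans (by positivity) h1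
    have h2 : (2 : ℝ) ^ l ≤ mm θ x p ^ (1 / 6 : ℝ) := by
      have h3 : (2 : ℝ) ^ l = ((64 : ℝ) ^ l) ^ (1 / 6 : ℝ) := by
        have h4 : (64 : ℝ) ^ l = ((2 : ℝ) ^ l) ^ (6 : ℝ) := by
          rw [show (6 : ℝ) = ((6 : ℕ) : ℝ) by norm_num, Real.rpow_natCast, ← pow_mul, mul_comm,
            pow_mul]
          norm_num
        rw [h4, ← Real.rpow_mul (by positivity)]
        norm_num
      rw [h3]
      exact Real.rpow_le_rpow (by positivity) h1.le (by norm_num)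
    have h3 : mm θ x p ^ (1 / 6 : ℝ) * mm θ x p = mm θ x p ^ (7 / 6 : ℝ) := by
      have h4 := Real.rpow_add_one hmmpos.ne' (1 / 6 : ℝ)
      rw [← h4]
      norm_num
    calc 2 ^ (l + 1) * (Gs θ x (l + 1) p ^ 2 * ce p x 14)
        ≤ (2 * mm θ x p ^ (1 / 6 : ℝ)) * (Gs θ x (l + 1) p * mm θ x p) := by
          refine mul_le_mul ?_ hA (mul_nonneg (sq_nonneg _) hce0) (by positivity)
          rw [pow_succ]
          linarith
      _ = Gs θ x (l + 1) p * (2 * (mm θ x p ^ (1 / 6 : ℝ) * mm θ x p)) := by ring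
      _ = Gs θ x (l + 1) p * (2 * mm θ x p ^ (7 / 6 : ℝ)) := by rw [h3]
      _ ≤ Gs θ x (l + 1) p * (2 * (mm θ x p + mm θ x p ^ (7 / 6 : ℝ))) := by
          refine mul_le_mul_of_nonneg_left ?_ h6
          linarith

/-- the sum of the second terms -/
private theorem ssps_sec {q n k : ℕ} {Λ : Set E3} {θ : E3 → ℝ} (hθ : Cut θ)
    {ψ : (Fin n → Fin q) → Cfg n k → ℂ} (hψ : Sm q n k Λ ψ) (x : E3) :
    ∑ l ∈ range (n + 1), 2 ^ l * mean ψ (fun p => Gs θ x l p ^ 2 * ce p x 14) ≤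
      6 * (mean ψ (fun p => mm θ x p ^ (1 : ℝ)) + mean ψ (fun p => mm θ x p ^ (7 / 6 : ℝ))) := by
  have hGI : ∀ l, IM ψ (fun p => Gs θ x l p ^ 2 * ce p x 14) := fun l =>
    (IM_ce hψ x 14).bmul ((Gs_smooth hθ x l).continuous.measurable.pow_const 2) 1 fun p => by
      obtain ⟨h6, h7⟩ := Gs_mem (θ := θ) x l p
      rw [abs_of_nonneg (sq_nonneg _)]
      exact pow_le_one₀ h6 h7
  have hI1 : IM ψ (fun p => mm θ x p ^ (1 : ℝ)) := IM_mmt hθ hψ x 1 (by norm_num)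
  have hI2 : IM ψ (fun p => mm θ x p ^ (7 / 6 : ℝ)) := IM_mmt hθ hψ x _ (by norm_num)
  have e1 : ∑ l ∈ range (n + 1), 2 ^ l * mean ψ (fun p => Gs θ x l p ^ 2 * ce p x 14) =
      mean ψ (fun p => ∑ l ∈ range (n + 1), 2 ^ l * (Gs θ x l p ^ 2 * ce p x 14)) := by
    rw [mean_sum _ fun l _ => (hGI l).cmul _]
    exact sum_congr rfl fun l _ => (mean_cmul _ _).symm
  rw [e1, ← mean_add hI1 hI2, ← mean_cmul]
  refine mean_mono (IM.sum _ fun l _ => (hGI l).cmul _) ((hI1.add hI2).cmul 6) fun σ p _ => ?_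
  calc ∑ l ∈ range (n + 1), 2 ^ l * (Gs θ x l p ^ 2 * ce p x 14)
      ≤ ∑ l ∈ range (n + 1),
          Gs θ x l p * (2 * (mm θ x p ^ (1 : ℝ) + mm θ x p ^ (7 / 6 : ℝ))) :=
        sum_le_sum fun l _ => ssps_pt hθ x l p
    _ = (∑ l ∈ range (n + 1), Gs θ x l p) *
          (2 * (mm θ x p ^ (1 : ℝ) + mm θ x p ^ (7 / 6 : ℝ))) := by rw [sum_mul]
    _ ≤ 3 * (2 * (mm θ x p ^ (1 : ℝ) + mm θ x p ^ (7 / 6 : ℝ))) := by
        refine mul_le_mul_of_nonneg_right (Gs_sum_le x p n) ?_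
        have h1 := Real.rpow_nonneg (ssps_mm0 θ x p) (1 : ℝ)
        have h2 := Real.rpow_nonneg (ssps_mm0 θ x p) (7 / 6 : ℝ)
        linarith
    _ = 6 * (mm θ x p ^ (1 : ℝ) + mm θ x p ^ (7 / 6 : ℝ)) := by ring

theorem ssP (q : ℕ) {θ : E3 → ℝ} (hθ : Cut θ) : ∃ C : ℝ, 0 ≤ C ∧ ∀ L0 : ℕ, ∃ C' : ℝ, 0 ≤ C' ∧
    ∀ (n k : ℕ) (Λ : Set E3) (ψ : (Fin n → Fin q) → Cfg n k → ℂ) (_ : St q n k Λ ψ) (x : E3),
    SS θ ψ x ≤ C * ((2 : ℝ) ^ L0)⁻¹ * (TE ψ x 14 + mass ψ) +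
      C' * (mass ψ + mean ψ (fun p => mm θ x p ^ (7 / 6 : ℝ))) := by
  obtain ⟨C1, hC1, H1⟩ := ss_one q hθ
  obtain ⟨C2, hC2, H2⟩ := sspb_te hθ
  obtain ⟨V0, hV0⟩ : ∃ V0 : ℝ, V0 = (volume (Metric.ball (0 : E3) 12)).toReal := ⟨_, rfl⟩
  have hV0n : 0 ≤ V0 := by rw [hV0]; exact ENNReal.toReal_nonneg
  refine ⟨C1 * C2, by positivity, fun L0 => ?_⟩
  have hK0 : 0 ≤ ∑ l ∈ range L0, V0 * sspK l :=
    sum_nonneg fun l _ => mul_nonneg hV0n (sspK_nonneg l)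
  refine ⟨(∑ l ∈ range L0, V0 * sspK l) + 12 * C1, by positivity, ?_⟩
  intro n k Λ ψ hSt x
  have hψ : Sm q n k Λ ψ := St_sm hSt
  have hms : 0 ≤ mass ψ := sspb_mass ψ
  obtain ⟨T, hTd⟩ : ∃ T : ℕ → ℝ, ∀ l, T l = ∫ v in Metric.ball x 12,
      mean ψ (fun p => Gs θ x l p ^ 2 * ((sc l ^ 2)⁻¹ * ce p v (7 * sc l) ^ 2)) :=
    ⟨_, fun _ => rfl⟩
  obtain ⟨a, ha⟩ : ∃ a : ℕ → ℝ, ∀ l, a l = ((2 : ℝ) ^ l)⁻¹ * TE (mf (Gs θ x l) ψ) x 14 :=
    ⟨_, fun _ => rfl⟩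
  obtain ⟨b, hb⟩ : ∃ b : ℕ → ℝ, ∀ l, b l =
      2 ^ l * mean ψ (fun p => Gs θ x l p ^ 2 * ce p x 14) := ⟨_, fun _ => rfl⟩
  have hb0 : ∀ l, 0 ≤ b l := fun l => by
    rw [hb]
    exact mul_nonneg (by positivity) (mean_nonneg fun σ p _ =>
      mul_nonneg (sq_nonneg _) (ce_nonneg p x 14))
  have hTl : ∀ l, T l ≤ (if l < L0 then V0 * (sspK l * mass ψ) else 0) +
      (C1 * (if L0 ≤ l then a l else 0) + C1 * b l) := by
    intro l
    by_cases hl : l < L0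
    · rw [if_pos hl, if_neg (not_le.2 hl), mul_zero, zero_add, hTd]
      have h1 := ssps_low hθ hψ x l
      rw [← hV0] at h1
      have h2 : 0 ≤ C1 * b l := mul_nonneg hC1 (hb0 l)
      linarith
    · rw [if_neg hl, if_pos (not_lt.1 hl), zero_add, hTd, ← mul_add, ha, hb]
      exact H1 n k Λ ψ hSt x l
  have hSS : SS θ ψ x = ∑ l ∈ range (n + 1), T l := by
    unfold SS
    exact sum_congr rfl fun l _ => (hTd l).symm
  have hs1 : ∑ l ∈ range (n + 1), (if l < L0 then V0 * (sspK l * mass ψ) else 0) ≤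
      (∑ l ∈ range L0, V0 * sspK l) * mass ψ := by
    rw [← sum_filter, sum_mul]
    have e : ∀ l, V0 * (sspK l * mass ψ) = V0 * sspK l * mass ψ := fun l => by ring
    simp only [e]
    refine sum_le_sum_of_subset_of_nonneg (fun l hl => ?_) fun l _ _ =>
      mul_nonneg (mul_nonneg hV0n (sspK_nonneg l)) hms
    rw [mem_filter] at hl
    exact mem_range.2 hl.2
  have hs2 : ∑ l ∈ range (n + 1), (if L0 ≤ l then a l else 0) ≤
      C2 * ((2 : ℝ) ^ L0)⁻¹ * (TE ψ x 14 + mass ψ) := by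
    have h1 := H2 q n k Λ ψ hψ x x 14 L0
    have e : ∀ l, (if L0 ≤ l then a l else 0) =
        (if L0 ≤ l then ((2 : ℝ) ^ l)⁻¹ * TE (mf (Gs θ x l) ψ) x 14 else 0) := by
      intro l
      rw [ha]
    simp only [e]
    exact h1
  have hI1 : IM ψ (fun p => mm θ x p ^ (1 : ℝ)) := IM_mmt hθ hψ x 1 (by norm_num)
  have hI2 : IM ψ (fun p => mm θ x p ^ (7 / 6 : ℝ)) := IM_mmt hθ hψ x _ (by norm_num)
  have hone : IM ψ (fun _ => (1 : ℝ)) := IM.cont hψ continuous_const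
  have hm1 : mean ψ (fun p => mm θ x p ^ (1 : ℝ)) ≤
      mass ψ + mean ψ (fun p => mm θ x p ^ (7 / 6 : ℝ)) := by
    have h1 : mean ψ (fun p => mm θ x p ^ (1 : ℝ)) ≤
        mean ψ (fun p => (1 : ℝ) + mm θ x p ^ (7 / 6 : ℝ)) := by
      refine mean_mono hI1 (hone.add hI2) fun σ p _ => ?_
      have h0 := ssps_mm0 θ x p
      show mm θ x p ^ (1 : ℝ) ≤ 1 + mm θ x p ^ (7 / 6 : ℝ)
      rcases le_total (mm θ x p) 1 with h | h
      · have h2 : mm θ x p ^ (1 : ℝ) ≤ 1 := Real.rpow_le_one h0 h (by norm_num)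
        have h3 : 0 ≤ mm θ x p ^ (7 / 6 : ℝ) := Real.rpow_nonneg h0 _
        exact h2.trans (le_add_of_nonneg_right h3)
      · have h2 : mm θ x p ^ (1 : ℝ) ≤ mm θ x p ^ (7 / 6 : ℝ) :=
          Real.rpow_le_rpow_of_exponent_le h (by norm_num)
        exact h2.trans (le_add_of_nonneg_left zero_le_one)
    rwa [mean_add hone hI2, mean_one] at h1
  have hs3 : ∑ l ∈ range (n + 1), b l ≤
      12 * (mass ψ + mean ψ (fun p => mm θ x p ^ (7 / 6 : ℝ))) := by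
    simp only [hb]
    refine (ssps_sec hθ hψ x).trans ?_
    linarith
  have hP1 : C1 * ∑ l ∈ range (n + 1), (if L0 ≤ l then a l else 0) ≤
      C1 * (C2 * ((2 : ℝ) ^ L0)⁻¹ * (TE ψ x 14 + mass ψ)) := mul_le_mul_of_nonneg_left hs2 hC1
  have hP2 : C1 * ∑ l ∈ range (n + 1), b l ≤
      C1 * (12 * (mass ψ + mean ψ (fun p => mm θ x p ^ (7 / 6 : ℝ)))) :=
    mul_le_mul_of_nonneg_left hs3 hC1
  have hmn : 0 ≤ mean ψ (fun p => mm θ x p ^ (7 / 6 : ℝ)) :=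
    mean_nonneg fun σ p _ => Real.rpow_nonneg (ssps_mm0 θ x p) _
  have hK1 : 0 ≤ (∑ l ∈ range L0, V0 * sspK l) * mean ψ (fun p => mm θ x p ^ (7 / 6 : ℝ)) :=
    mul_nonneg hK0 hmn
  calc SS θ ψ x = ∑ l ∈ range (n + 1), T l := hSS
    _ ≤ ∑ l ∈ range (n + 1), ((if l < L0 then V0 * (sspK l * mass ψ) else 0) +
        (C1 * (if L0 ≤ l then a l else 0) + C1 * b l)) := sum_le_sum fun l _ => hTl l
    _ = ∑ l ∈ range (n + 1), (if l < L0 then V0 * (sspK l * mass ψ) else 0) +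
        (C1 * ∑ l ∈ range (n + 1), (if L0 ≤ l then a l else 0) +
          C1 * ∑ l ∈ range (n + 1), b l) := by
        rw [sum_add_distrib, sum_add_distrib, mul_sum, mul_sum]
    _ ≤ C1 * C2 * ((2 : ℝ) ^ L0)⁻¹ * (TE ψ x 14 + mass ψ) +
      ((∑ l ∈ range L0, V0 * sspK l) + 12 * C1) *
        (mass ψ + mean ψ (fun p => mm θ x p ^ (7 / 6 : ℝ))) := by
        have e1 : C1 * (C2 * ((2 : ℝ) ^ L0)⁻¹ * (TE ψ x 14 + mass ψ)) =
          C1 * C2 * ((2 : ℝ) ^ L0)⁻¹ * (TE ψ x 14 + mass ψ) := by ring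
        rw [e1] at hP1
        have e2 : ((∑ l ∈ range L0, V0 * sspK l) + 12 * C1) *
            (mass ψ + mean ψ (fun p => mm θ x p ^ (7 / 6 : ℝ))) =
            (∑ l ∈ range L0, V0 * sspK l) * mass ψ +
            (∑ l ∈ range L0, V0 * sspK l) * mean ψ (fun p => mm θ x p ^ (7 / 6 : ℝ)) +
            C1 * (12 * (mass ψ + mean ψ (fun p => mm θ x p ^ (7 / 6 : ℝ)))) := by ring
        rw [e2]
        linarith

end H6.CL
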