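import Pool.Agent.H6.CL.BtC
import Pool.Agent.H6.CL.MixP
import Pool.Agent.H6.CL.SsP

/-! The second moments averaged over shells. `btS`: integrate `ssP` over `A r`: `TE ψ x 14 ≤ ∑ c ∈ t, (TE + TN) (x + c) 1` (`t_covS`, `TN_nonneg`), `shn`, `ShB.t`, `A_vol`, `btmm` with `s = 7/6`; choose `L0` so large that the coefficient of `B` is small. `btW`: integrate the inequality `ww` of `Ine` over `x ∈ A r`, `‖x‖ < R - 22`: `btmm` with `s = 4/3`; `btS`; `mixP` with small constant, `cnP` at the points `x + c` (`‖x + c‖ < R - 8`, so the ball of radius `6` is contained in the ball of radius `R - 2`), `btP` with `shn` as in `BtC.lean`, `btM` with `ρ = 7`, `s = 3/2`; `tl 13 p x ≤ q4 1 p x` and `sht` with the shell bounds of `btE` and `btC` (small constants). -/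

open MeasureTheory Finset

namespace H6.CL

open H6.CM H6.CB

private theorem btw_sub (r : ℝ) : A r ⊆ Metric.ball (0 : E3) (r + 1) := fun v hv => by
  rw [Metric.mem_ball, dist_zero_right]
  exact hv.2

private theorem btw_fin (r : ℝ) : volume (A r) ≠ ⊤ :=
  ((measure_mono (btw_sub r)).trans_lt measure_ball_lt_top).ne

private theorem btw_B {ι : Type} [Fintype ι] {q n k : ℕ} {R B : ℝ}
    {Ψ : ι → (Fin n → Fin q) → Cfg n k → ℂ} (h : ShB R B Ψ) : 0 ≤ B * R ^ 2 := by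
  refine le_trans ?_ (h.t 0 le_rfl)
  exact setIntegral_nonneg (A_meas 0) fun v _ => TM_nonneg Ψ v 1

/-- integrating a linear bound over a subset of a shell -/
private theorem btw_lin {r : ℝ} {S : Set E3} (hS : S ⊆ A r) (hm : MeasurableSet S)
    {f g h : E3 → ℝ} (hf : IntegrableOn f (A r)) (hg : IntegrableOn g (A r))
    (hh : IntegrableOn h (A r)) (hg0 : ∀ v, 0 ≤ g v) (hh0 : ∀ v, 0 ≤ h v) {a b c G H V : ℝ}
    (ha : 0 ≤ a) (hb : 0 ≤ b) (hc : 0 ≤ c) (hG : ∫ v in A r, g v ≤ G)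
    (hH : ∫ v in A r, h v ≤ H) (hV : (volume (A r)).toReal ≤ V)
    (hle : ∀ v ∈ S, f v ≤ a * g v + b * h v + c) :
    ∫ v in S, f v ≤ a * G + b * H + c * V := by
  have hfin := btw_fin r
  have hc2 : IntegrableOn (fun _ : E3 => c) S :=
    integrableOn_const ((measure_mono hS).trans_lt hfin.lt_top).ne
  have hgS := (hg.mono_set hS).const_mul a
  have hhS := (hh.mono_set hS).const_mul b
  have hgh : IntegrableOn (fun v => a * g v + b * h v) S := hgS.add hhS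
  have h1 : ∫ v in S, f v ≤ ∫ v in S, (a * g v + b * h v + c) :=
    setIntegral_mono_on (hf.mono_set hS) (hgh.add hc2) hm hle
  have h2 : ∫ v in S, (a * g v + b * h v + c) =
      a * (∫ v in S, g v) + b * (∫ v in S, h v) + (volume S).toReal * c := by
    rw [integral_add hgh hc2, integral_add hgS hhS, integral_const_mul, integral_const_mul,
      setIntegral_const, smul_eq_mul]
    rfl
  have h3 : ∫ v in S, g v ≤ G :=
    (setIntegral_mono_set hg (Filter.Eventually.of_forall fun v => hg0 v)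
      (Filter.Eventually.of_forall hS)).trans hG
  have h4 : ∫ v in S, h v ≤ H :=
    (setIntegral_mono_set hh (Filter.Eventually.of_forall fun v => hh0 v)
      (Filter.Eventually.of_forall hS)).trans hH
  have h5 : (volume S).toReal ≤ V :=
    (ENNReal.toReal_mono hfin (measure_mono hS)).trans hV
  rw [h2] at h1
  have h6 := mul_le_mul_of_nonneg_left h3 ha
  have h7 := mul_le_mul_of_nonneg_left h4 hb
  have h8 := mul_le_mul_of_nonneg_right h5 hc
  linarith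

private theorem btw_vol {D : ℝ} (hD : 0 ≤ D) (hvol : ∀ (r R : ℝ) (_ : 0 ≤ r) (_ : r ≤ R + 1)
    (_ : 1 ≤ R), volume (A r) ≤ ENNReal.ofReal (D * R ^ 2)) {r R : ℝ} (hr : 0 ≤ r)
    (hrR : r ≤ R + 1) (hR : 100 ≤ R) : (volume (A r)).toReal ≤ D * R ^ 2 := by
  have h5 := ENNReal.toReal_mono ENNReal.ofReal_ne_top (hvol r R hr hrR (by linarith))
  rwa [ENNReal.toReal_ofReal (by positivity)] at h5

theorem btS (q : ℕ) (Ci zm zp : ℝ) {χ θ : E3 → ℝ} (hχ : Bump χ) (hθ : Cut θ) (η : ℝ)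
    (hη : 0 < η) :
    ∃ C : ℝ, 0 ≤ C ∧ ∀ (ι : Type) (_ : Fintype ι) (n k : ℕ) (R : ℝ) (_ : 100 ≤ R)
    (z : Fin k → ℝ) (W : Finset E3) (Ψ : ι → (Fin n → Fin q) → Cfg n k → ℂ)
    (_ : Ine Ci zm zp q n k R z W χ θ Ψ) (B : ℝ) (_ : ShB R B Ψ) (r : ℝ) (_ : 0 ≤ r)
    (_ : r ≤ R + 1), ∫ x in A r, SM θ Ψ x ≤ (η * B + C) * R ^ 2 := by
  obtain ⟨C0, hC0, H0⟩ := ssP q hθ
  obtain ⟨t, ht, Ht⟩ := t_covS 14
  obtain ⟨C1, hC1, H1⟩ := shn 14 (by norm_num)
  obtain ⟨D, hD, hvol⟩ := A_vol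
  obtain ⟨L0, hL0⟩ : ∃ L0 : ℕ, C0 * ((2 : ℝ) ^ L0)⁻¹ * (t.card * C1) ≤ η / 2 := by
    obtain ⟨L0, h⟩ := pow_unbounded_of_one_lt (C0 * (t.card * C1) / (η / 2))
      (by norm_num : (1 : ℝ) < 2)
    refine ⟨L0, ?_⟩
    rw [div_lt_iff₀ (by positivity)] at h
    have h2 : (0 : ℝ) < 2 ^ L0 := by positivity
    have e : C0 * ((2 : ℝ) ^ L0)⁻¹ * (t.card * C1) = C0 * (t.card * C1) / 2 ^ L0 := by
      rw [div_eq_mul_inv]
      ring
    rw [e, div_le_iff₀ h2]
    linarith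
  obtain ⟨C', hC', H'⟩ := H0 L0
  obtain ⟨C'', hC'', H''⟩ := btmm hθ (7 / 6) (by norm_num) (by norm_num) (η / (2 * (C' + 1)))
    (by positivity)
  have hpow : 0 ≤ ((2 : ℝ) ^ L0)⁻¹ ∧ ((2 : ℝ) ^ L0)⁻¹ ≤ 1 :=
    ⟨by positivity, inv_le_one_of_one_le₀ (one_le_pow₀ (by norm_num))⟩
  refine ⟨(C0 + C') * D + C' * C'', by positivity, ?_⟩
  intro ι _ n k R hR z W Ψ h B hB r hr hrR
  have hSm : ∀ i, Sm q n k (Metric.ball 0 R) (Ψ i) := fun i => St_sm (h.st i)
  obtain ⟨G, hG⟩ : ∃ G : E3 → ℝ, G = fun v => TM Ψ v 1 := ⟨_, rfl⟩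
  have hG0 : ∀ v, 0 ≤ G v := fun v => by
    rw [hG]
    exact TM_nonneg Ψ v 1
  have hGi : ∀ s, IntegrableOn G (Metric.ball 0 s) := fun s => by
    rw [hG]
    exact sI_T hSm 1 s
  have hGs : ∀ c ∈ t, IntegrableOn (fun v => G (v + c)) (A r) ∧
      ∫ v in A r, G (v + c) ≤ C1 * (B * R ^ 2) := fun c hc =>
    (H1 G hG0 hGi (B * R ^ 2) (fun r' hr' => by rw [hG]; exact hB.t r' hr') r hr).1 c
      (ht c hc)
  have hBR := btw_B hB
  have hA : 0 ≤ C0 * ((2 : ℝ) ^ L0)⁻¹ := mul_nonneg hC0 hpow.1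
  have hsum : IntegrableOn (fun v => ∑ c ∈ t, G (v + c)) (A r) :=
    integrable_finsetSum _ fun c hc => (hGs c hc).1
  have hsumI : ∫ v in A r, ∑ c ∈ t, G (v + c) ≤ t.card * (C1 * (B * R ^ 2)) := by
    rw [integral_finsetSum _ fun c hc => (hGs c hc).1]
    refine (sum_le_sum fun c hc => (hGs c hc).2).trans (le_of_eq ?_)
    rw [sum_const, nsmul_eq_mul]
  have h1 := btw_lin (r := r) (S := A r) subset_rfl (A_meas r) (f := fun x => SM θ Ψ x)
    (g := fun v => ∑ c ∈ t, G (v + c)) (h := fun x => mM Ψ (fun p => mm θ x p ^ (7 / 6 : ℝ)))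
    ((sI_S hSm hθ (r + 1)).mono_set (btw_sub r)) hsum
    ((sI_mm hSm hθ (7 / 6) (r + 1) (by norm_num)).mono_set (btw_sub r))
    (fun v => sum_nonneg fun c _ => hG0 _) (fun v => mM_nonneg Ψ fun p =>
      Real.rpow_nonneg (sum_nonneg fun _ _ => sq_nonneg _) _)
    (a := C0 * ((2 : ℝ) ^ L0)⁻¹) (b := C') (c := C0 * ((2 : ℝ) ^ L0)⁻¹ + C') hA hC'
    (add_nonneg hA hC') hsumI
    (H'' ι _ q n k R hR Ψ hSm h.one B hB r hr hrR) (btw_vol hD hvol hr hrR hR) (fun x _ => by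
      unfold SM
      have h2 : ∑ i, SS θ (Ψ i) x ≤ ∑ i, (C0 * ((2 : ℝ) ^ L0)⁻¹ * (TE (Ψ i) x 14 + mass (Ψ i)) +
          C' * (mass (Ψ i) + mean (Ψ i) (fun p => mm θ x p ^ (7 / 6 : ℝ)))) :=
        sum_le_sum fun i _ => H' n k _ (Ψ i) (h.st i) x
      refine h2.trans ?_
      rw [sum_add_distrib, ← mul_sum, ← mul_sum, sum_add_distrib, sum_add_distrib, h.one]
      have h3 : ∑ i, TE (Ψ i) x 14 ≤ ∑ c ∈ t, G (x + c) := by
        calc ∑ i, TE (Ψ i) x 14 ≤ ∑ i, ∑ c ∈ t, (TE (Ψ i) (x + c) 1 + TN (Ψ i) (x + c) 1) := by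
              refine sum_le_sum fun i _ => ?_
              have h4 := Ht q n k _ (Ψ i) (hSm i) x
              have h5 := TN_nonneg (Ψ i) x 14
              linarith
          _ = ∑ c ∈ t, G (x + c) := by
              rw [sum_comm, hG]
              rfl
      have h4 := mul_le_mul_of_nonneg_left h3 hA
      unfold mM
      linarith)
  refine h1.trans ?_
  have h2 : C0 * ((2 : ℝ) ^ L0)⁻¹ * (t.card * (C1 * (B * R ^ 2))) ≤ η / 2 * (B * R ^ 2) := by
    have h3 := mul_le_mul_of_nonneg_right hL0 hBR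
    linarith
  have h3 : C' * ((η / (2 * (C' + 1)) * B + C'') * R ^ 2) ≤
      η / 2 * (B * R ^ 2) + C' * C'' * R ^ 2 := by
    have h4 : C' * (η / (2 * (C' + 1))) ≤ η / 2 := by
      rw [mul_div_assoc', div_le_div_iff₀ (by positivity) (by norm_num)]
      nlinarith
    have h5 := mul_le_mul_of_nonneg_right h4 hBR
    linarith
  have h4 : (C0 * ((2 : ℝ) ^ L0)⁻¹ + C') * (D * R ^ 2) ≤ (C0 + C') * (D * R ^ 2) := by
    have h5 : 0 ≤ D * R ^ 2 := by positivity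
    refine mul_le_mul_of_nonneg_right ?_ h5
    have h6 := mul_le_mul_of_nonneg_left hpow.2 hC0
    linarith
  linarith

/-- the mixed moments averaged over shells -/
private theorem btMix (q : ℕ) (Ci zm zp : ℝ) (hzm : 0 < zm) {χ θ : E3 → ℝ}
    (hχ : Bump χ) (hθ : Cut θ) (η : ℝ) (hη : 0 < η) :
    ∃ C : ℝ, 0 ≤ C ∧ ∀ (ι : Type) (_ : Fintype ι) (n k : ℕ) (R : ℝ) (_ : 100 ≤ R)
    (z : Fin k → ℝ) (W : Finset E3) (Ψ : ι → (Fin n → Fin q) → Cfg n k → ℂ)
    (_ : Ine Ci zm zp q n k R z W χ θ Ψ) (B : ℝ) (_ : ShB R B Ψ) (r : ℝ) (_ : 0 ≤ r)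
    (_ : r ≤ R + 1), ∫ x in A r ∩ Metric.ball 0 (R - 22), mM Ψ (fun p =>
      (1 + mm θ x p ^ (1 / 6 : ℝ)) * (ce p x 14 + cn p x 14)) ≤ (η * B + C) * R ^ 2 := by
  obtain ⟨t, ht, Hm⟩ := mixP hθ
  obtain ⟨Cc, hCc, Hc⟩ := cnP zm hzm hχ
  obtain ⟨Cp, hCp, Hp⟩ := btP Ci zm zp hχ hθ
  obtain ⟨C20, hC20, H20⟩ := shn 20 (by norm_num)
  obtain ⟨CM, hCM, HM⟩ := btM 21 (3 / 2) (by norm_num) (by norm_num) (by norm_num) 1 one_pos
  obtain ⟨D, hD, hvol⟩ := A_vol
  obtain ⟨K, hK⟩ : ∃ K : ℝ, K = t.card * Cc * (C20 * Cp + 1) := ⟨_, rfl⟩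
  have hK0 : 0 ≤ K := by rw [hK]; positivity
  obtain ⟨η1, hη1⟩ : ∃ η1 : ℝ, η1 = η / (2 * (K + 1)) := ⟨_, rfl⟩
  have hη10 : 0 < η1 := by rw [hη1]; positivity
  obtain ⟨C2, hC2, Hm2⟩ := Hm η1 hη10
  obtain ⟨C3, hC3, H3⟩ := btmm hθ (7 / 6) (by norm_num) (by norm_num) (η / (2 * (C2 + 1)))
    (by positivity)
  refine ⟨η1 * (t.card * Cc) * (C20 * Cp + CM) + C2 * (D + C3), by positivity, ?_⟩
  intro ι _ n k R hR z W Ψ h B hB r hr hrR
  have hSm : ∀ i, Sm q n k (Metric.ball 0 R) (Ψ i) := fun i => St_sm (h.st i)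
  have hBR := btw_B hB
  -- the powers of the potential
  obtain ⟨U, hU⟩ : ∃ U : E3 → ℝ, U = fun v => mM Ψ (fun p => |uh χ 1 W z p v| ^ (3 / 2 : ℝ)) :=
    ⟨_, rfl⟩
  obtain ⟨G, hG⟩ : ∃ G : E3 → ℝ, G = (Metric.ball (0 : E3) (R - 2)).indicator U := ⟨_, rfl⟩
  have hU0 : ∀ v, 0 ≤ U v := fun v => by
    rw [hU]
    exact mM_nonneg Ψ fun p => Real.rpow_nonneg (abs_nonneg _) _
  have hUi : ∀ s, IntegrableOn U (Metric.ball 0 s) := fun s => by
    rw [hU]
    exact sI_uh hSm hχ W z (3 / 2) s (by norm_num)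
  have hG0 : ∀ v, 0 ≤ G v := fun v => by
    rw [hG]
    exact Set.indicator_nonneg (fun v _ => hU0 v) v
  have hGi : ∀ s, IntegrableOn G (Metric.ball 0 s) := fun s => by
    rw [hG]
    exact (hUi s).indicator measurableSet_ball
  have hGM : ∀ r', 0 ≤ r' → ∫ v in A r', G v ≤ Cp * (B + 1) * R ^ 2 := by
    intro r' hr'
    rw [hG, setIntegral_indicator measurableSet_ball, hU]
    exact Hp ι _ q n k R hR z W Ψ h B hB r' hr'
  obtain ⟨-, hI1, hI2⟩ := H20 G hG0 hGi _ hGM r hr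
  have hE1 : IntegrableOn (fun v => mM Ψ (fun p => ce p v 21 ^ (3 / 2 : ℝ))) (A r) :=
    (sI_ce hSm 21 (3 / 2) (r + 1) (by norm_num)).mono_set (btw_sub r)
  have hE2 := HM ι _ q n k R hR Ψ hSm h.one B hB r hr hrR
  have hGE : ∫ x in A r, ((∫ v in Metric.ball x 20, G v) +
      mM Ψ (fun p => ce p x 21 ^ (3 / 2 : ℝ))) ≤
      C20 * (Cp * (B + 1) * R ^ 2) + (1 * B + CM) * R ^ 2 := by
    rw [integral_add hI1 hE1]
    exact add_le_add hI2 hE2
  have h1 := btw_lin (r := r) (S := A r ∩ Metric.ball 0 (R - 22)) Set.inter_subset_left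
    ((A_meas r).inter measurableSet_ball)
    (f := fun x => mM Ψ (fun p => (1 + mm θ x p ^ (1 / 6 : ℝ)) * (ce p x 14 + cn p x 14)))
    (g := fun x => (∫ v in Metric.ball x 20, G v) + mM Ψ (fun p => ce p x 21 ^ (3 / 2 : ℝ)))
    (h := fun x => mM Ψ (fun p => mm θ x p ^ (7 / 6 : ℝ)))
    ((sI_mix hSm hθ (r + 1)).mono_set (btw_sub r)) (hI1.add hE1)
    ((sI_mm hSm hθ (7 / 6) (r + 1) (by norm_num)).mono_set (btw_sub r))
    (fun v => add_nonneg (integral_nonneg fun u => hG0 u) (mM_nonneg Ψ fun p =>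
      Real.rpow_nonneg (ce_nonneg _ _ _) _)) (fun v => mM_nonneg Ψ fun p =>
      Real.rpow_nonneg (sum_nonneg fun _ _ => sq_nonneg _) _)
    (a := η1 * (t.card * Cc)) (b := C2) (c := C2) (by positivity) hC2 hC2 hGE
    (H3 ι _ q n k R hR Ψ hSm h.one B hB r hr hrR) (btw_vol hD hvol hr hrR hR) (fun x hx => by
      have hx2 : ‖x‖ < R - 22 := by
        have h2 := hx.2
        rwa [Metric.mem_ball, dist_zero_right] at h2
      -- one point
      have hc : ∀ c ∈ t, ∑ i, mean (Ψ i) (fun p => cn p (x + c) 1 ^ (3 / 2 : ℝ)) ≤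
          Cc * ((∫ v in Metric.ball x 20, G v) + mM Ψ (fun p => ce p x 21 ^ (3 / 2 : ℝ))) := by
        intro c hc
        have hcn := ht c hc
        have hsub : Metric.ball (x + c) 6 ⊆ Metric.ball x 20 := by
          refine Metric.ball_subset_ball' ?_
          rw [dist_eq_norm, add_sub_cancel_left]
          linarith
        have hsub2 : Metric.ball (x + c) 6 ⊆ Metric.ball (0 : E3) (R - 2) := by
          refine Metric.ball_subset_ball' ?_
          rw [dist_zero_right]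
          have h2 := norm_add_le x c
          linarith
        have hsub3 : Metric.ball x 20 ⊆ Metric.ball (0 : E3) (R + 20) := by
          refine Metric.ball_subset_ball' ?_
          rw [dist_zero_right]
          linarith
        have hi : ∀ i, IntegrableOn (fun v => mean (Ψ i) (fun p =>
            |uh χ 1 W z p v| ^ (3 / 2 : ℝ))) (Metric.ball (x + c) 6) := by
          intro i
          have h2 := sI_uh (ι := Unit) (Ψ := fun _ => Ψ i) (fun _ => hSm i) hχ W z (3 / 2)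
            (R - 2) (by norm_num)
          have h3 : (fun v => mM (fun _ : Unit => Ψ i) (fun p =>
              |uh χ 1 W z p v| ^ (3 / 2 : ℝ))) = fun v => mean (Ψ i) (fun p =>
              |uh χ 1 W z p v| ^ (3 / 2 : ℝ)) := by
            funext v
            unfold mM
            rw [Fintype.sum_unique]
          rw [h3] at h2
          exact h2.mono_set hsub2
        have e1 : ∑ i, ∫ v in Metric.ball (x + c) 6, mean (Ψ i) (fun p =>
            |uh χ 1 W z p v| ^ (3 / 2 : ℝ)) = ∫ v in Metric.ball (x + c) 6, U v := by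
          rw [← integral_finsetSum _ fun i _ => hi i, hU]
          rfl
        have e2 : ∫ v in Metric.ball (x + c) 6, U v = ∫ v in Metric.ball (x + c) 6, G v := by
          refine setIntegral_congr_fun measurableSet_ball fun v hv => ?_
          simp only [hG]
          rw [Set.indicator_of_mem (hsub2 hv)]
        have e3 : ∫ v in Metric.ball (x + c) 6, G v ≤ ∫ v in Metric.ball x 20, G v :=
          setIntegral_mono_set ((hGi (R + 20)).mono_set hsub3)
            (Filter.Eventually.of_forall fun v => hG0 v) (Filter.Eventually.of_forall hsub)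
        have e4 : ∑ i, mean (Ψ i) (fun p => ce p (x + c) 7 ^ (3 / 2 : ℝ)) ≤
            mM Ψ (fun p => ce p x 21 ^ (3 / 2 : ℝ)) := by
          refine sum_le_sum fun i _ => ?_
          refine mean_mono (IM_cet (hSm i) _ _ _ (by norm_num)) (IM_cet (hSm i) _ _ _ (by norm_num))
            fun σ p _ => ?_
          refine Real.rpow_le_rpow (ce_nonneg _ _ _) (ce_mono p ?_) (by norm_num)
          rw [add_sub_cancel_left]
          linarith
        calc ∑ i, mean (Ψ i) (fun p => cn p (x + c) 1 ^ (3 / 2 : ℝ))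
            ≤ ∑ i, Cc * ((∫ v in Metric.ball (x + c) 6, mean (Ψ i) (fun p =>
                |uh χ 1 W z p v| ^ (3 / 2 : ℝ))) +
                mean (Ψ i) (fun p => ce p (x + c) 7 ^ (3 / 2 : ℝ))) :=
              sum_le_sum fun i _ => Hc q n k _ z (fun j => (h.hz j).1) h.neu W (Ψ i) (hSm i) _
          _ = Cc * ((∫ v in Metric.ball (x + c) 6, G v) +
                ∑ i, mean (Ψ i) (fun p => ce p (x + c) 7 ^ (3 / 2 : ℝ))) := by
              rw [← mul_sum, sum_add_distrib, e1, e2]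
          _ ≤ _ := mul_le_mul_of_nonneg_left (add_le_add e3 e4) hCc
      unfold mM
      have h2 : ∑ i, mean (Ψ i) (fun p => (1 + mm θ x p ^ (1 / 6 : ℝ)) *
          (ce p x 14 + cn p x 14)) ≤ ∑ i, (η1 * (∑ c ∈ t, mean (Ψ i) (fun p =>
            cn p (x + c) 1 ^ (3 / 2 : ℝ))) +
          C2 * (mass (Ψ i) + mean (Ψ i) (fun p => mm θ x p ^ (7 / 6 : ℝ)))) :=
        sum_le_sum fun i _ => Hm2 q n k _ (Ψ i) (hSm i) x
      refine h2.trans ?_
      rw [sum_add_distrib, ← mul_sum, ← mul_sum, sum_add_distrib, h.one, sum_comm]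
      have h3 := sum_le_sum hc
      rw [sum_const, nsmul_eq_mul] at h3
      have h4 := mul_le_mul_of_nonneg_left h3 hη10.le
      unfold mM at h4
      linarith)
  refine h1.trans ?_
  have h2 : η1 * (t.card * Cc) * (C20 * Cp + 1) ≤ η / 2 := by
    have h3 : η1 * (t.card * Cc) * (C20 * Cp + 1) = η1 * K := by rw [hK]; ring
    rw [h3, hη1, div_mul_eq_mul_div, div_le_div_iff₀ (by positivity) (by norm_num)]
    nlinarith
  have h3 : C2 * (η / (2 * (C2 + 1))) ≤ η / 2 := by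
    rw [mul_div_assoc', div_le_div_iff₀ (by positivity) (by norm_num)]
    nlinarith
  have h4 := mul_le_mul_of_nonneg_right h2 hBR
  have h5 := mul_le_mul_of_nonneg_right h3 hBR
  linarith

private theorem btw_tl {n k : ℕ} (p : Cfg n k) (x : E3) :
    0 ≤ tl 13 p x ∧ tl 13 p x ≤ q4 1 p x := by
  have h1 : ∀ r : ℝ, 0 ≤ (if r < 13 then 0 else (r ^ 4)⁻¹) ∧
      (if r < 13 then 0 else (r ^ 4)⁻¹) ≤ (max 1 r ^ 4)⁻¹ := by
    intro r
    have h3 : (0 : ℝ) < max 1 r := lt_of_lt_of_le one_pos (le_max_left _ _)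
    split_ifs with h
    · exact ⟨le_rfl, by positivity⟩
    · have h4 : (13 : ℝ) ≤ r := not_lt.1 h
      have h5 : max 1 r = r := max_eq_right (by linarith)
      rw [h5]
      exact ⟨by positivity, le_rfl⟩
  unfold tl q4
  exact ⟨add_nonneg (sum_nonneg fun a _ => (h1 _).1) (sum_nonneg fun a _ => (h1 _).1),
    add_le_add (sum_le_sum fun a _ => (h1 _).2) (sum_le_sum fun a _ => (h1 _).2)⟩

/-- the tails averaged over shells -/
private theorem btTl (q : ℕ) (Ci zm zp : ℝ) (hzm : 0 < zm) {χ θ : E3 → ℝ}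
    (hχ : Bump χ) (hθ : Cut θ) (η : ℝ) (hη : 0 < η) :
    ∃ C : ℝ, 0 ≤ C ∧ ∀ (ι : Type) (_ : Fintype ι) (n k : ℕ) (R : ℝ) (_ : 100 ≤ R)
    (z : Fin k → ℝ) (W : Finset E3) (Ψ : ι → (Fin n → Fin q) → Cfg n k → ℂ)
    (_ : Ine Ci zm zp q n k R z W χ θ Ψ) (B : ℝ) (_ : ShB R B Ψ) (r : ℝ) (_ : 0 ≤ r),
    ∫ x in A r, mM Ψ (fun p => tl 13 p x) ≤ (η * B + C) * R ^ 2 := by
  obtain ⟨Cs, hCs, Hs⟩ := sht
  obtain ⟨CE, hCE, HE⟩ := btE (η / (2 * (Cs + 1))) (by positivity)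
  obtain ⟨CC, hCC, HC⟩ := btC Ci zm zp hzm hχ hθ (η / (2 * (Cs + 1))) (by positivity)
  refine ⟨Cs * (CE + CC), by positivity, ?_⟩
  intro ι _ n k R hR z W Ψ h B hB r hr
  have hSm : ∀ i, Sm q n k (Metric.ball 0 R) (Ψ i) := fun i => St_sm (h.st i)
  have hBR := btw_B hB
  have h1 : ∀ r', 0 ≤ r' → ∫ v in A r', mM Ψ (fun p => ce p v 1 + cn p v 1) ≤
      (η / (2 * (Cs + 1)) * B + CE) * R ^ 2 + (η / (2 * (Cs + 1)) * B + CC) * R ^ 2 := by
    intro r' hr'
    have hi1 : IntegrableOn (fun v => mM Ψ (fun p => ce p v 1)) (A r') := by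
      have h2 := (sI_ce hSm 1 1 (r' + 1) zero_le_one).mono_set (btw_sub r')
      simpa only [Real.rpow_one] using h2
    have hi2 : IntegrableOn (fun v => mM Ψ (fun p => cn p v 1)) (A r') := by
      have h2 := (sI_cn hSm 1 1 (r' + 1) zero_le_one).mono_set (btw_sub r')
      simpa only [Real.rpow_one] using h2
    have e : (fun v => mM Ψ (fun p => ce p v 1 + cn p v 1)) = fun v =>
        mM Ψ (fun p => ce p v 1) + mM Ψ (fun p => cn p v 1) := by
      funext v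
      unfold mM
      rw [← sum_add_distrib]
      exact sum_congr rfl fun i _ => mean_add (IM_ce (hSm i) v 1) (IM_cn (hSm i) v 1)
    rw [e, integral_add hi1 hi2]
    exact add_le_add (HE ι _ q n k R hR Ψ hSm h.one B hB r' hr')
      (HC ι _ q n k R hR z W Ψ h B hB r' hr')
  have h2 := Hs ι _ q n k _ Ψ hSm _ h1 r hr
  have h3 : ∫ x in A r, mM Ψ (fun p => tl 13 p x) ≤ ∫ x in A r, mM Ψ (fun p => q4 1 p x) := by
    refine setIntegral_mono ((sI_q4 hSm (r + 1)).2.mono_set (btw_sub r))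
      ((sI_q4 hSm (r + 1)).1.mono_set (btw_sub r)) fun x => ?_
    refine sum_le_sum fun i _ => ?_
    refine mean_mono0 (fun p => (btw_tl p x).1) ?_ fun σ p _ => (btw_tl p x).2
    have h4 : ∀ r : ℝ, 0 ≤ (max 1 r ^ 4)⁻¹ ∧ (max 1 r ^ 4)⁻¹ ≤ 1 := by
      intro r
      have h4 : 1 ≤ max 1 r := le_max_left _ _
      exact ⟨by positivity, inv_le_one_of_one_le₀ (one_le_pow₀ h4)⟩
    have h6 : ∀ (m : ℕ) (f : Fin m → ℝ), (∀ i, 0 ≤ f i ∧ f i ≤ 1) → 0 ≤ ∑ i, f i ∧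
        ∑ i, f i ≤ m := by
      intro m f hf
      refine ⟨sum_nonneg fun i _ => (hf i).1, ?_⟩
      refine (sum_le_card_nsmul univ _ 1 fun a _ => (hf a).2).trans_eq ?_
      rw [card_univ, Fintype.card_fin, nsmul_eq_mul, mul_one]
    refine IM.bdd (hSm i) ?_ ((n : ℝ) + k) fun p => ?_
    · unfold q4
      refine Measurable.add ?_ ?_
      · exact Finset.measurable_fun_sum _ fun a _ =>
          ((measurable_const.max ((meas_e a).sub_const x).norm).pow_const 4).inv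
      · exact Finset.measurable_fun_sum _ fun a _ =>
          ((measurable_const.max ((meas_n a).sub_const x).norm).pow_const 4).inv
    · unfold q4
      have g1 := h6 n (fun a => (max 1 ‖p.1 a - x‖ ^ 4)⁻¹) fun a => h4 _
      have g2 := h6 k (fun a => (max 1 ‖p.2 a - x‖ ^ 4)⁻¹) fun a => h4 _
      rw [abs_of_nonneg (add_nonneg g1.1 g2.1)]
      exact add_le_add g1.2 g2.2
  refine (h3.trans h2).trans ?_
  have h5 : Cs * (η / (2 * (Cs + 1))) ≤ η / 2 := by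
    rw [mul_div_assoc', div_le_div_iff₀ (by positivity) (by norm_num)]
    nlinarith
  have h6 := mul_le_mul_of_nonneg_right h5 hBR
  linarith

theorem btW (q : ℕ) (Ci zm zp : ℝ) (hzm : 0 < zm) (hCi : 0 ≤ Ci) {χ θ : E3 → ℝ}
    (hχ : Bump χ) (hθ : Cut θ) (η : ℝ) (hη : 0 < η) :
    ∃ C : ℝ, 0 ≤ C ∧ ∀ (ι : Type) (_ : Fintype ι) (n k : ℕ) (R : ℝ) (_ : 100 ≤ R)
    (z : Fin k → ℝ) (W : Finset E3) (Ψ : ι → (Fin n → Fin q) → Cfg n k → ℂ)
    (_ : Ine Ci zm zp q n k R z W χ θ Ψ) (B : ℝ) (_ : ShB R B Ψ) (r : ℝ) (_ : 0 ≤ r),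
    ∫ x in A r ∩ Metric.ball 0 (R - 22), WM χ θ W z Ψ x ≤ (η * B + C) * R ^ 2 := by
  obtain ⟨η', hη'⟩ : ∃ η' : ℝ, η' = η / (4 * (Ci + 1)) := ⟨_, rfl⟩
  have hη0 : 0 < η' := by rw [hη']; positivity
  obtain ⟨D, hD, hvol⟩ := A_vol
  obtain ⟨C1, hC1, H1⟩ := btmm hθ (4 / 3) (by norm_num) (by norm_num) η' hη0
  obtain ⟨C2, hC2, H2⟩ := btS q Ci zm zp hχ hθ η' hη0
  obtain ⟨C3, hC3, H3⟩ := btMix q Ci zm zp hzm hχ hθ η' hη0
  obtain ⟨C4, hC4, H4⟩ := btTl q Ci zm zp hzm hχ hθ η' hη0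
  refine ⟨Ci * (D + C1 + C2 + C3 + C4), by positivity, ?_⟩
  intro ι _ n k R hR z W Ψ h B hB r hr
  have hSm : ∀ i, Sm q n k (Metric.ball 0 R) (Ψ i) := fun i => St_sm (h.st i)
  have hBR := btw_B hB
  rcases le_or_gt r (R + 1) with hrR | hrR
  · obtain ⟨S, hS⟩ : ∃ S : Set E3, S = A r ∩ Metric.ball 0 (R - 22) := ⟨_, rfl⟩
    have h3 := H3 ι _ n k R hR z W Ψ h B hB r hr hrR
    rw [← hS] at h3 ⊢
    have hSA : S ⊆ A r := by rw [hS]; exact Set.inter_subset_left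
    have hSmeas : MeasurableSet S := by rw [hS]; exact (A_meas r).inter measurableSet_ball
    have hSfin : volume S ≠ ⊤ := ((measure_mono hSA).trans_lt (btw_fin r).lt_top).ne
    have i1 : IntegrableOn (fun v => mM Ψ (fun p => mm θ v p ^ (4 / 3 : ℝ))) (A r) :=
      (sI_mm hSm hθ (4 / 3) (r + 1) (by norm_num)).mono_set (btw_sub r)
    have i2 : IntegrableOn (fun v => SM θ Ψ v) (A r) :=
      (sI_S hSm hθ (r + 1)).mono_set (btw_sub r)
    have i3 : IntegrableOn (fun x => mM Ψ (fun p =>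
        (1 + mm θ x p ^ (1 / 6 : ℝ)) * (ce p x 14 + cn p x 14))) S :=
      (sI_mix hSm hθ (r + 1)).mono_set (hSA.trans (btw_sub r))
    have i4 : IntegrableOn (fun x => mM Ψ (fun p => tl 13 p x)) (A r) :=
      (sI_q4 hSm (r + 1)).2.mono_set (btw_sub r)
    have i0 : IntegrableOn (fun _ : E3 => (1 : ℝ)) S := integrableOn_const hSfin
    have s0 : ∫ _ in S, (1 : ℝ) ≤ D * R ^ 2 := by
      rw [setIntegral_const, smul_eq_mul, mul_one]
      exact (ENNReal.toReal_mono (btw_fin r) (measure_mono hSA)).trans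
        (btw_vol hD hvol hr hrR hR)
    have s1 : ∫ v in S, mM Ψ (fun p => mm θ v p ^ (4 / 3 : ℝ)) ≤ (η' * B + C1) * R ^ 2 :=
      (setIntegral_mono_set i1 (Filter.Eventually.of_forall fun v => mM_nonneg Ψ fun p =>
        Real.rpow_nonneg (sum_nonneg fun _ _ => sq_nonneg _) _)
        (Filter.Eventually.of_forall hSA)).trans (H1 ι _ q n k R hR Ψ hSm h.one B hB r hr hrR)
    have s2 : ∫ v in S, SM θ Ψ v ≤ (η' * B + C2) * R ^ 2 :=
      (setIntegral_mono_set i2 (Filter.Eventually.of_forall fun v => SM_nonneg θ Ψ v)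
        (Filter.Eventually.of_forall hSA)).trans (H2 ι _ n k R hR z W Ψ h B hB r hr hrR)
    have s4 : ∫ x in S, mM Ψ (fun p => tl 13 p x) ≤ (η' * B + C4) * R ^ 2 :=
      (setIntegral_mono_set i4 (Filter.Eventually.of_forall fun v => mM_nonneg Ψ fun p =>
        (btw_tl p v).1) (Filter.Eventually.of_forall hSA)).trans
        (H4 ι _ n k R hR z W Ψ h B hB r hr)
    have j1 := i1.mono_set hSA
    have j2 := i2.mono_set hSA
    have j4 := i4.mono_set hSA
    have k1 : IntegrableOn (fun x => 1 + mM Ψ (fun p => mm θ x p ^ (4 / 3 : ℝ))) S := i0.add j1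
    have k2 : IntegrableOn (fun x => 1 + mM Ψ (fun p => mm θ x p ^ (4 / 3 : ℝ)) + SM θ Ψ x) S :=
      k1.add j2
    have k3 : IntegrableOn (fun x => 1 + mM Ψ (fun p => mm θ x p ^ (4 / 3 : ℝ)) + SM θ Ψ x +
      mM Ψ (fun p => (1 + mm θ x p ^ (1 / 6 : ℝ)) * (ce p x 14 + cn p x 14))) S := k2.add i3
    have k4 : IntegrableOn (fun x => 1 + mM Ψ (fun p => mm θ x p ^ (4 / 3 : ℝ)) + SM θ Ψ x +
      mM Ψ (fun p => (1 + mm θ x p ^ (1 / 6 : ℝ)) * (ce p x 14 + cn p x 14)) +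
      mM Ψ (fun p => tl 13 p x)) S := k3.add j4
    have h5 : ∫ x in S, WM χ θ W z Ψ x ≤ ∫ x in S, Ci * (1 +
        mM Ψ (fun p => mm θ x p ^ (4 / 3 : ℝ)) + SM θ Ψ x +
        mM Ψ (fun p => (1 + mm θ x p ^ (1 / 6 : ℝ)) * (ce p x 14 + cn p x 14)) +
        mM Ψ (fun p => tl 13 p x)) := by
      refine setIntegral_mono_on ((sI_W hSm hχ hθ W z (r + 1)).mono_set (hSA.trans (btw_sub r)))
        (k4.const_mul Ci) hSmeas fun x hx => h.ww x ?_
      rw [hS] at hx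
      have hx2 := hx.2
      rw [Metric.mem_ball, dist_zero_right] at hx2
      refine Metric.closedBall_subset_ball' ?_
      rw [dist_zero_right]
      linarith
    rw [integral_const_mul, integral_add k3 j4, integral_add k2 i3, integral_add k1 j2,
      integral_add i0 j1] at h5
    refine h5.trans ?_
    have h6 : (∫ _ in S, (1 : ℝ)) + (∫ v in S, mM Ψ (fun p => mm θ v p ^ (4 / 3 : ℝ))) +
        (∫ v in S, SM θ Ψ v) + (∫ x in S, mM Ψ (fun p =>
          (1 + mm θ x p ^ (1 / 6 : ℝ)) * (ce p x 14 + cn p x 14))) +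
        (∫ x in S, mM Ψ (fun p => tl 13 p x)) ≤
        D * R ^ 2 + (η' * B + C1) * R ^ 2 + (η' * B + C2) * R ^ 2 + (η' * B + C3) * R ^ 2 +
          (η' * B + C4) * R ^ 2 := by linarith
    have h7 := mul_le_mul_of_nonneg_left h6 hCi
    have h8 : Ci * η' * 4 ≤ η := by
      rw [hη', mul_div_assoc', div_mul_eq_mul_div, div_le_iff₀ (by positivity)]
      nlinarith
    have h9 := mul_le_mul_of_nonneg_right h8 hBR
    linarith
  · have he : A r ∩ Metric.ball 0 (R - 22) = (∅ : Set E3) := by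
      refine Set.eq_empty_of_forall_notMem fun v hv => ?_
      have h1 := hv.2
      rw [Metric.mem_ball, dist_zero_right] at h1
      have h2 := hv.1.1
      linarith
    rw [he, setIntegral_empty]
    have h1 := mul_nonneg hη.le hBR
    have h2 : 0 ≤ Ci * (D + C1 + C2 + C3 + C4) * R ^ 2 := by positivity
    linarith

end H6.CL
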