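import Pool.Agent.H6.CB.Nc2
import Pool.Agent.H6.CB.Lib
import Pool.Agent.H6.CB.FCov
import Pool.Agent.H6.CL.Defs

/-! The `3/2` moment of the number of nuclei in a unit ball. `nc2` with `s = 1` (and `shell_ex`): `cn p y 1 ≤ C (∫ v in ball y 6, |uh χ 1 W z p v| + ce p y 7)`; the power `3/2` of a sum is at most twice the sum of the powers, and by Hölder (or Jensen, `ConvexOn.map_average_le`) `(∫ v in ball y 6, |uh|) ^ (3/2) ≤ C ∫ v in ball y 6, |uh| ^ (3/2)`. Then `mean_ball` (`uh` is jointly continuous by `uh_joint` and bounded by `uh_bd`, which needs `∑ z j = n`). `IM` of `cn p y 1 ^ t`: bounded and measurable. -/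

open MeasureTheory Finset

namespace H6.CL

open H6.CM H6.CB

theorem IM_cnt {q n k : ℕ} {Λ : Set E3} {ψ : (Fin n → Fin q) → Cfg n k → ℂ}
    (h : Sm q n k Λ ψ) (x : E3) (R t : ℝ) (ht : 0 ≤ t) : IM ψ (fun p => cn p x R ^ t) := by
  refine IM.bdd h ((cn_meas x R).pow_const t) ((k : ℝ) ^ t) fun p => ?_
  rw [abs_of_nonneg (Real.rpow_nonneg (cn_nonneg p x R) _)]
  exact Real.rpow_le_rpow (cn_nonneg p x R) (cn_le p x R) ht

theorem IM_uht {χ : E3 → ℝ} (hχ : Bump χ) {q n k : ℕ} {Λ : Set E3}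
    {ψ : (Fin n → Fin q) → Cfg n k → ℂ} (h : Sm q n k Λ ψ) (s : ℝ) (hs : 0 < s)
    (W : Finset E3) (z : Fin k → ℝ) (v : E3) (t : ℝ) (ht : 0 ≤ t) :
    IM ψ (fun p => |uh χ s W z p v| ^ t) := by
  refine IM.cont h ?_
  have hc : Continuous (fun p : Cfg n k => (p, v)) := by fun_prop
  have h1 := (uh_joint hχ s hs W z).comp hc
  simp only [Function.comp_def] at h1
  exact h1.abs.rpow_const fun _ => Or.inr ht

private theorem cp_int (y : E3) (r : ℝ) {f : E3 → ℝ} (hf : Continuous f) :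
    IntegrableOn f (Metric.ball y r) :=
  (hf.continuousOn.integrableOn_compact (isCompact_closedBall y r)).mono_set
    Metric.ball_subset_closedBall

private theorem cp_vol (y : E3) : (volume : Measure E3).real (Metric.ball y 6) =
    (volume : Measure E3).real (Metric.ball 0 6) := by
  unfold Measure.real
  rw [Measure.addHaar_ball_center]

private theorem cp_vol0 : 0 < (volume : Measure E3).real (Metric.ball 0 6) := by
  unfold Measure.real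
  exact ENNReal.toReal_pos (Metric.measure_ball_pos volume 0 (by norm_num)).ne'
    measure_ball_lt_top.ne

private theorem cp_young (a m : ℝ) (ha : 0 ≤ a) (hm : 0 ≤ m) :
    3 / 2 * m ^ (1 / 2 : ℝ) * a ≤ a ^ (3 / 2 : ℝ) + 1 / 2 * m ^ (3 / 2 : ℝ) := by
  have hc : (3 / 2 : ℝ).HolderConjugate 3 := by
    rw [Real.holderConjugate_iff]
    norm_num
  have h1 := Real.young_inequality_of_nonneg ha (Real.rpow_nonneg hm (1 / 2)) hc
  have h2 : (m ^ (1 / 2 : ℝ)) ^ (3 : ℝ) = m ^ (3 / 2 : ℝ) := by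
    rw [← Real.rpow_mul hm]
    norm_num
  rw [h2] at h1
  linarith

private theorem cp_hol (y : E3) (f : E3 → ℝ) (hf : Continuous f) (h0 : ∀ v, 0 ≤ f v) :
    (∫ v in Metric.ball y 6, f v) ^ (3 / 2 : ℝ) ≤
      (volume : Measure E3).real (Metric.ball 0 6) ^ (1 / 2 : ℝ) *
        ∫ v in Metric.ball y 6, f v ^ (3 / 2 : ℝ) := by
  obtain ⟨V, hV⟩ : ∃ V : ℝ, V = (volume : Measure E3).real (Metric.ball 0 6) := ⟨_, rfl⟩
  have hV0 : 0 < V := by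
    rw [hV]
    exact cp_vol0
  rw [← hV]
  obtain ⟨I, hI⟩ : ∃ I : ℝ, I = ∫ v in Metric.ball y 6, f v := ⟨_, rfl⟩
  have hI0 : 0 ≤ I := by
    rw [hI]
    exact integral_nonneg fun v => h0 v
  rw [← hI]
  obtain ⟨m, hm⟩ : ∃ m : ℝ, m = I / V := ⟨_, rfl⟩
  have hm0 : 0 ≤ m := by
    rw [hm]
    positivity
  have hmV : I = m * V := by
    rw [hm]
    field_simp
  have hf32 : Continuous (fun v => f v ^ (3 / 2 : ℝ)) :=
    hf.rpow_const fun _ => Or.inr (by norm_num)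
  have h1 : ∫ v in Metric.ball y 6, 3 / 2 * m ^ (1 / 2 : ℝ) * f v ≤
      ∫ v in Metric.ball y 6, (f v ^ (3 / 2 : ℝ) + 1 / 2 * m ^ (3 / 2 : ℝ)) :=
    setIntegral_mono (cp_int y 6 (continuous_const.mul hf))
      (cp_int y 6 (hf32.add continuous_const)) fun v => cp_young (f v) m (h0 v) hm0
  rw [integral_const_mul, ← hI, integral_add (cp_int y 6 hf32) (cp_int y 6 continuous_const),
    setIntegral_const, cp_vol, ← hV, smul_eq_mul, hmV] at h1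
  have h2 : m ^ (1 / 2 : ℝ) * m = m ^ (3 / 2 : ℝ) := by
    rcases eq_or_lt_of_le hm0 with h | h
    · rw [← h]
      norm_num
    · calc m ^ (1 / 2 : ℝ) * m = m ^ (1 / 2 : ℝ) * m ^ (1 : ℝ) := by rw [Real.rpow_one]
        _ = m ^ (3 / 2 : ℝ) := by
          rw [← Real.rpow_add h]
          norm_num
  have h3 : V ^ (3 / 2 : ℝ) = V ^ (1 / 2 : ℝ) * V := by
    calc V ^ (3 / 2 : ℝ) = V ^ (1 / 2 + 1 : ℝ) := by norm_num
      _ = V ^ (1 / 2 : ℝ) * V := by rw [Real.rpow_add hV0, Real.rpow_one]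
  rw [hmV, Real.mul_rpow hm0 hV0.le, h3]
  have h4 : m ^ (3 / 2 : ℝ) * V ≤ ∫ v in Metric.ball y 6, f v ^ (3 / 2 : ℝ) := by
    have h5 : 3 / 2 * m ^ (1 / 2 : ℝ) * (m * V) = 3 / 2 * (m ^ (3 / 2 : ℝ) * V) := by
      rw [← h2]
      ring
    rw [h5] at h1
    linarith
  calc m ^ (3 / 2 : ℝ) * (V ^ (1 / 2 : ℝ) * V) = V ^ (1 / 2 : ℝ) * (m ^ (3 / 2 : ℝ) * V) := by
        ring
    _ ≤ _ := mul_le_mul_of_nonneg_left h4 (Real.rpow_nonneg hV0.le _)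

private theorem cp_two (a b : ℝ) (ha : 0 ≤ a) (hb : 0 ≤ b) :
    (a + b) ^ (3 / 2 : ℝ) ≤ 3 * (a ^ (3 / 2 : ℝ) + b ^ (3 / 2 : ℝ)) := by
  have h3 : (2 : ℝ) ^ (3 / 2 : ℝ) ≤ 3 := by
    have h4 : (2 : ℝ) ^ (3 / 2 : ℝ) = Real.sqrt (2 ^ 3) := by
      rw [Real.sqrt_eq_rpow, ← Real.rpow_natCast, ← Real.rpow_mul (by norm_num)]
      norm_num
    rw [h4]
    exact (Real.sqrt_le_sqrt (by norm_num : (2 : ℝ) ^ 3 ≤ 3 ^ 2)).trans
      (by rw [Real.sqrt_sq (by norm_num)])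
  have key : ∀ a b : ℝ, 0 ≤ a → a ≤ b → (a + b) ^ (3 / 2 : ℝ) ≤
      3 * (a ^ (3 / 2 : ℝ) + b ^ (3 / 2 : ℝ)) := by
    intro a b ha hab
    have hb : 0 ≤ b := ha.trans hab
    have h5 : (a + b) ^ (3 / 2 : ℝ) ≤ (2 * b) ^ (3 / 2 : ℝ) :=
      Real.rpow_le_rpow (by linarith) (by linarith) (by norm_num)
    rw [Real.mul_rpow (by norm_num) hb] at h5
    have h6 := Real.rpow_nonneg ha (3 / 2)
    have h7 := Real.rpow_nonneg hb (3 / 2)
    nlinarith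
  rcases le_total a b with h | h
  · exact key a b ha h
  · have h5 := key b a hb h
    rw [add_comm b a, add_comm (b ^ (3 / 2 : ℝ))] at h5
    exact h5

private theorem cp_eps (u e : ℝ) (hu : 0 ≤ u) (he : 0 < e) :
    u ≤ e * u ^ (3 / 2 : ℝ) + (e ^ 2)⁻¹ := by
  by_cases h : u ≤ (e ^ 2)⁻¹
  · have := Real.rpow_nonneg hu (3 / 2)
    have := mul_nonneg he.le this
    linarith
  · push Not at h
    have hu0 : 0 < u := lt_trans (by positivity) h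
    have h1 : e⁻¹ ≤ u ^ (1 / 2 : ℝ) := by
      have h2 : ((e ^ 2)⁻¹) ^ (1 / 2 : ℝ) ≤ u ^ (1 / 2 : ℝ) :=
        Real.rpow_le_rpow (by positivity) h.le (by norm_num)
      have h3 : ((e ^ 2)⁻¹) ^ (1 / 2 : ℝ) = e⁻¹ := by
        rw [← inv_pow, ← Real.sqrt_eq_rpow, Real.sqrt_sq (by positivity)]
      rwa [h3] at h2
    have h4 : u ^ (3 / 2 : ℝ) = u * u ^ (1 / 2 : ℝ) := by
      calc u ^ (3 / 2 : ℝ) = u ^ (1 + 1 / 2 : ℝ) := by norm_num
        _ = u * u ^ (1 / 2 : ℝ) := by rw [Real.rpow_add hu0, Real.rpow_one]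
    have h5 : 1 ≤ e * u ^ (1 / 2 : ℝ) := by
      calc (1 : ℝ) = e * e⁻¹ := by rw [mul_inv_cancel₀ he.ne']
        _ ≤ _ := mul_le_mul_of_nonneg_left h1 he.le
    rw [h4]
    have h6 : 0 < (e ^ 2)⁻¹ := by positivity
    nlinarith

/-- Fubini for the powers of the smeared potential -/
private theorem cp_fub {χ : E3 → ℝ} (hχ : Bump χ) {q n k : ℕ} {Λ : Set E3} (z : Fin k → ℝ)
    (hz : ∀ j, 0 ≤ z j) (hzn : ∑ j, z j = n) (W : Finset E3)
    {ψ : (Fin n → Fin q) → Cfg n k → ℂ} (h : Sm q n k Λ ψ) (y : E3) :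
    IM ψ (fun p => ∫ v in Metric.ball y 6, |uh χ 1 W z p v| ^ (3 / 2 : ℝ)) ∧
    ∫ v in Metric.ball y 6, mean ψ (fun p => |uh χ 1 W z p v| ^ (3 / 2 : ℝ)) =
      mean ψ (fun p => ∫ v in Metric.ball y 6, |uh χ 1 W z p v| ^ (3 / 2 : ℝ)) := by
  obtain ⟨Cu, hCu, hub⟩ := uh_bd hχ
  have hc : Continuous (fun u : Cfg n k × E3 => |uh χ 1 W z u.1 u.2| ^ (3 / 2 : ℝ)) :=
    (uh_joint hχ 1 one_pos W z).abs.rpow_const fun _ => Or.inr (by norm_num)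
  have h1 := mean_ball h y 6 (F := fun v p => |uh χ 1 W z p v| ^ (3 / 2 : ℝ)) hc.measurable
    (G := fun _ => (Cu * n * 1⁻¹) ^ (3 / 2 : ℝ)) continuous_const (fun v _ p => by
      rw [abs_of_nonneg (Real.rpow_nonneg (abs_nonneg _) _)]
      exact Real.rpow_le_rpow (abs_nonneg _) (hub n k z hz hzn W 1 one_pos le_rfl p v)
        (by norm_num))
  exact h1.2

theorem cnP (zm : ℝ) (hzm : 0 < zm) {χ : E3 → ℝ} (hχ : Bump χ) : ∃ C : ℝ, 0 ≤ C ∧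
    ∀ (q n k : ℕ) (Λ : Set E3) (z : Fin k → ℝ) (_ : ∀ j, zm ≤ z j) (_ : ∑ j, z j = n)
    (W : Finset E3) (ψ : (Fin n → Fin q) → Cfg n k → ℂ) (_ : Sm q n k Λ ψ) (y : E3),
    mean ψ (fun p => cn p y 1 ^ (3 / 2 : ℝ)) ≤
      C * ((∫ v in Metric.ball y 6, mean ψ (fun p => |uh χ 1 W z p v| ^ (3 / 2 : ℝ))) +
        mean ψ (fun p => ce p y 7 ^ (3 / 2 : ℝ))) := by
  obtain ⟨χ', hχ', hs'⟩ := shell_ex
  obtain ⟨C0, hC0, h0⟩ := nc2 zm hzm hχ hχ' hs'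
  obtain ⟨V, hV⟩ : ∃ V : ℝ, V = (volume : Measure E3).real (Metric.ball 0 6) ^ (1 / 2 : ℝ) :=
    ⟨_, rfl⟩
  have hV0 : 0 ≤ V := by
    rw [hV]
    exact Real.rpow_nonneg cp_vol0.le _
  have hC32 : 0 ≤ C0 ^ (3 / 2 : ℝ) := Real.rpow_nonneg hC0 _
  refine ⟨3 * C0 ^ (3 / 2 : ℝ) * (V + 1), by positivity, ?_⟩
  intro q n k Λ z hz hzn W ψ hψ y
  obtain ⟨f1, f2⟩ := cp_fub hχ z (fun j => hzm.le.trans (hz j)) hzn W hψ y
  have hce : IM ψ (fun p => ce p y 7 ^ (3 / 2 : ℝ)) := IM_cet hψ y 7 (3 / 2) (by norm_num)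
  rw [f2, ← mean_add f1 hce, ← mean_cmul]
  refine mean_mono (IM_cnt hψ y 1 (3 / 2) (by norm_num)) ((f1.add hce).cmul _) fun σ p _ => ?_
  have hcu : Continuous (fun v => |uh χ 1 W z p v|) := by
    have hc : Continuous (fun v : E3 => (p, v)) := by fun_prop
    have h1 := ((uh_joint hχ 1 one_pos W z).comp hc).abs
    simp only [Function.comp_def] at h1
    exact h1
  have g1 := h0 n k z hz W p y 1 one_pos le_rfl
  have gI : 0 ≤ ∫ v in Metric.ball y 6, |uh χ 1 W z p v| := integral_nonneg fun v => abs_nonneg _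
  have gc := ce_nonneg p y 7
  have g2 : cn p y 1 ^ (3 / 2 : ℝ) ≤
      (C0 * ((∫ v in Metric.ball y 6, |uh χ 1 W z p v|) + ce p y 7)) ^ (3 / 2 : ℝ) :=
    Real.rpow_le_rpow (cn_nonneg p y 1) g1 (by norm_num)
  rw [Real.mul_rpow hC0 (add_nonneg gI gc)] at g2
  have g3 := cp_two _ _ gI gc
  have g4 := cp_hol y (fun v => |uh χ 1 W z p v|) hcu fun v => abs_nonneg _
  rw [← hV] at g4
  obtain ⟨J, hJ⟩ : ∃ J : ℝ, J = ∫ v in Metric.ball y 6, |uh χ 1 W z p v| ^ (3 / 2 : ℝ) :=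
    ⟨_, rfl⟩
  have hJ0 : 0 ≤ J := by
    rw [hJ]
    exact integral_nonneg fun v => Real.rpow_nonneg (abs_nonneg _) _
  rw [← hJ] at g4 ⊢
  have gc2 : 0 ≤ ce p y 7 ^ (3 / 2 : ℝ) := Real.rpow_nonneg gc _
  calc cn p y 1 ^ (3 / 2 : ℝ) ≤ C0 ^ (3 / 2 : ℝ) *
        ((∫ v in Metric.ball y 6, |uh χ 1 W z p v|) + ce p y 7) ^ (3 / 2 : ℝ) := g2
    _ ≤ C0 ^ (3 / 2 : ℝ) * (3 * (V * J + ce p y 7 ^ (3 / 2 : ℝ))) := by
        refine mul_le_mul_of_nonneg_left (g3.trans ?_) hC32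
        linarith
    _ ≤ C0 ^ (3 / 2 : ℝ) * (3 * ((V + 1) * (J + ce p y 7 ^ (3 / 2 : ℝ)))) := by
        refine mul_le_mul_of_nonneg_left ?_ hC32
        have := mul_nonneg hV0 gc2
        linarith
    _ = _ := by ring

/-- the first moment, with a small factor -/
theorem cnQ (zm : ℝ) (hzm : 0 < zm) {χ : E3 → ℝ} (hχ : Bump χ) (η : ℝ) (hη : 0 < η) :
    ∃ C : ℝ, 0 ≤ C ∧
    ∀ (q n k : ℕ) (Λ : Set E3) (z : Fin k → ℝ) (_ : ∀ j, zm ≤ z j) (_ : ∑ j, z j = n)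
    (W : Finset E3) (ψ : (Fin n → Fin q) → Cfg n k → ℂ) (_ : Sm q n k Λ ψ) (y : E3),
    mean ψ (fun p => cn p y 1) ≤
      η * (∫ v in Metric.ball y 6, mean ψ (fun p => |uh χ 1 W z p v| ^ (3 / 2 : ℝ))) +
        C * (mass ψ + mean ψ (fun p => ce p y 7)) := by
  obtain ⟨χ', hχ', hs'⟩ := shell_ex
  obtain ⟨C0, hC0, h0⟩ := nc2 zm hzm hχ hχ' hs'
  obtain ⟨V, hV⟩ : ∃ V : ℝ, V = (volume : Measure E3).real (Metric.ball 0 6) := ⟨_, rfl⟩
  have hV0 : 0 ≤ V := by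
    rw [hV]
    exact cp_vol0.le
  obtain ⟨e, he⟩ : ∃ e : ℝ, e = η / (C0 + 1) := ⟨_, rfl⟩
  have he0 : 0 < e := by
    rw [he]
    positivity
  have heC : C0 * e ≤ η := by
    rw [he, ← mul_div_assoc, div_le_iff₀ (by linarith)]
    nlinarith
  refine ⟨C0 * ((e ^ 2)⁻¹ * V) + C0, by positivity, ?_⟩
  intro q n k Λ z hz hzn W ψ hψ y
  obtain ⟨f1, f2⟩ := cp_fub hχ z (fun j => hzm.le.trans (hz j)) hzn W hψ y
  have hce : IM ψ (fun p => ce p y 7) := IM_ce hψ y 7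
  have hc1 : IM ψ (fun _ => (1 : ℝ)) := IM.cont hψ continuous_const
  rw [f2, ← mean_cmul, ← mean_one, ← mean_add hc1 hce, ← mean_cmul,
    ← mean_add (f1.cmul _) ((hc1.add hce).cmul _)]
  refine mean_mono (IM_cn hψ y 1) ((f1.cmul _).add ((hc1.add hce).cmul _)) fun σ p _ => ?_
  have hcu : Continuous (fun v => |uh χ 1 W z p v|) := by
    have hc : Continuous (fun v : E3 => (p, v)) := by fun_prop
    have h1 := ((uh_joint hχ 1 one_pos W z).comp hc).abs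
    simp only [Function.comp_def] at h1
    exact h1
  have hcu32 : Continuous (fun v => |uh χ 1 W z p v| ^ (3 / 2 : ℝ)) :=
    hcu.rpow_const fun _ => Or.inr (by norm_num)
  have g1 := h0 n k z hz W p y 1 one_pos le_rfl
  have gc := ce_nonneg p y 7
  obtain ⟨J, hJ⟩ : ∃ J : ℝ, J = ∫ v in Metric.ball y 6, |uh χ 1 W z p v| ^ (3 / 2 : ℝ) :=
    ⟨_, rfl⟩
  have hJ0 : 0 ≤ J := by
    rw [hJ]
    exact integral_nonneg fun v => Real.rpow_nonneg (abs_nonneg _) _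
  have g2 : ∫ v in Metric.ball y 6, |uh χ 1 W z p v| ≤ e * J + (e ^ 2)⁻¹ * V := by
    have g3 : ∫ v in Metric.ball y 6, |uh χ 1 W z p v| ≤
        ∫ v in Metric.ball y 6, (e * |uh χ 1 W z p v| ^ (3 / 2 : ℝ) + (e ^ 2)⁻¹) :=
      setIntegral_mono (cp_int y 6 hcu)
        (cp_int y 6 ((continuous_const.mul hcu32).add continuous_const))
        fun v => cp_eps _ e (abs_nonneg _) he0
    have g4 : ∫ v in Metric.ball y 6, (e * |uh χ 1 W z p v| ^ (3 / 2 : ℝ) + (e ^ 2)⁻¹) =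
        (∫ v in Metric.ball y 6, e * |uh χ 1 W z p v| ^ (3 / 2 : ℝ)) +
          ∫ _v in Metric.ball y 6, (e ^ 2)⁻¹ :=
      integral_add (cp_int y 6 (continuous_const.mul hcu32)) (cp_int y 6 continuous_const)
    rw [g4, integral_const_mul, ← hJ, setIntegral_const, cp_vol, ← hV, smul_eq_mul] at g3
    linarith
  rw [← hJ]
  calc cn p y 1 ≤ C0 * ((∫ v in Metric.ball y 6, |uh χ 1 W z p v|) + ce p y 7) := g1
    _ ≤ C0 * ((e * J + (e ^ 2)⁻¹ * V) + ce p y 7) :=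
        mul_le_mul_of_nonneg_left (by linarith) hC0
    _ = C0 * e * J + (C0 * ((e ^ 2)⁻¹ * V) + C0 * ce p y 7) := by ring
    _ ≤ η * J + (C0 * ((e ^ 2)⁻¹ * V) + C0) * (1 + ce p y 7) := by
        have k1 := mul_le_mul_of_nonneg_right heC hJ0
        have k2 : 0 ≤ C0 * ((e ^ 2)⁻¹ * V) * ce p y 7 := by positivity
        linarith

end H6.CL
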