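import Pool.Agent.H6.CB.GmEh

/-! The amplitude `e3 u = exp (arsinh u / 4)`: `e3 u ^ 2 = (u + sqrt (1 + u ^ 2)) ^ (1/2)`, the derivative is `e3 u / (4 sqrt (1 + u ^ 2))`. For `u ≥ 0`: `u * e3 u ^ 2 ≥ u ^ (3/2)`; for `u ≤ 0`: `u * e3 u ^ 2 ≥ -|u| ^ (1/2) ≥ -(1/2) |u| ^ (3/2) - 1` (`e3 u ^ 2 = (|u| + sqrt (1 + u ^ 2)) ^ (-1/2) ≤ |u| ^ (-1/2)`). -/

open MeasureTheory Finset

namespace H6.CL

open H6.CM H6.CB

/-- the amplitude -/
noncomputable def e3 (u : ℝ) : ℝ := Real.exp (Real.arsinh u / 4)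

theorem e3_smooth : ContDiff ℝ (⊤ : ℕ∞) e3 :=
  Real.contDiff_exp.comp (Real.contDiff_arsinh.div_const 4)

theorem e3_pos (u : ℝ) : 0 < e3 u := Real.exp_pos _

private theorem e3_four (u : ℝ) : (e3 u ^ 2) ^ 2 = u + Real.sqrt (1 + u ^ 2) := by
  unfold e3
  rw [← Real.exp_arsinh, ← pow_mul, ← Real.exp_nat_mul]
  congr 1
  push_cast
  ring

private theorem e3_neg (u : ℝ) : e3 (-u) = (e3 u)⁻¹ := by
  unfold e3
  rw [Real.arsinh_neg, ← Real.exp_neg]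
  congr 1
  ring

private theorem e3_sqrt_le (u : ℝ) : Real.sqrt (1 + u ^ 2) ≤ 1 + |u| := by
  rw [Real.sqrt_le_left (by positivity)]
  nlinarith [abs_nonneg u, sq_abs u]

private theorem e3_half_sq (u : ℝ) : (|u| ^ (1 / 2 : ℝ)) ^ 2 = |u| := by
  rw [← Real.rpow_natCast, ← Real.rpow_mul (abs_nonneg u)]
  norm_num

theorem e3_le (u : ℝ) : e3 u ^ 2 ≤ 1 + 2 * |u| ^ (1 / 2 : ℝ) := by
  have h0 : 0 ≤ |u| ^ (1 / 2 : ℝ) := Real.rpow_nonneg (abs_nonneg u) _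
  have h1 := e3_four u
  have h2 := e3_sqrt_le u
  have h3 := e3_half_sq u
  have h4 := le_abs_self u
  refine le_of_sq_le_sq ?_ (by positivity)
  rw [h1]
  nlinarith

private theorem e3_two' (u : ℝ) (hu : 0 ≤ u) :
    (1 / 2) * |u| ^ (3 / 2 : ℝ) - 1 ≤ u * e3 u ^ 2 + (-u) * e3 (-u) ^ 2 := by
  have hs0 : 0 ≤ |u| ^ (1 / 2 : ℝ) := Real.rpow_nonneg (abs_nonneg u) _
  have h3 := e3_half_sq u
  have h32 : |u| ^ (3 / 2 : ℝ) = (|u| ^ (1 / 2 : ℝ)) ^ 3 := by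
    rw [← Real.rpow_natCast, ← Real.rpow_mul (abs_nonneg u)]
    norm_num
  rw [h32, e3_neg]
  rw [abs_of_nonneg hu] at *
  generalize u ^ (1 / 2 : ℝ) = s at *
  subst h3
  have hE := e3_four (s ^ 2)
  have hpos : 0 < e3 (s ^ 2) ^ 2 := pow_pos (e3_pos _) 2
  rw [inv_pow]
  generalize e3 (s ^ 2) ^ 2 = E at *
  have h5 : (s ^ 2) ≤ Real.sqrt (1 + (s ^ 2) ^ 2) := by
    apply Real.le_sqrt_of_sq_le
    linarith
  have h6 : 1 ≤ Real.sqrt (1 + (s ^ 2) ^ 2) := by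
    rw [Real.one_le_sqrt]
    nlinarith [sq_nonneg (s ^ 2)]
  have h7 : s ≤ E := by
    refine le_of_sq_le_sq ?_ hpos.le
    rw [hE]
    nlinarith
  have h8 : 1 ≤ E := by
    refine le_of_sq_le_sq ?_ hpos.le
    rw [hE]
    nlinarith
  have h9 : s ^ 2 * E⁻¹ ≤ s := by
    rw [← div_eq_mul_inv, div_le_iff₀ hpos]
    nlinarith
  have h10 : s ^ 2 * s ≤ s ^ 2 * E := mul_le_mul_of_nonneg_left h7 (sq_nonneg s)
  have h11 : s ≤ 1 / 2 * s ^ 3 + 1 := by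
    nlinarith [mul_nonneg hs0 (sq_nonneg (s - 1)), sq_nonneg (s - 1)]
  nlinarith

theorem e3_two (u : ℝ) :
    (1 / 2) * |u| ^ (3 / 2 : ℝ) - 1 ≤ u * e3 u ^ 2 + (-u) * e3 (-u) ^ 2 := by
  rcases le_total 0 u with hu | hu
  · exact e3_two' u hu
  · have h := e3_two' (-u) (by linarith)
    rw [abs_neg, neg_neg] at h
    linarith

theorem e3_deriv (u : ℝ) : deriv e3 u ^ 2 ≤ 1 := by
  have h1 : HasDerivAt e3 (Real.exp (Real.arsinh u / 4) * ((Real.sqrt (1 + u ^ 2))⁻¹ / 4)) u :=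
    ((Real.hasDerivAt_arsinh u).div_const 4).exp
  rw [h1.deriv]
  have h2 : (e3 u ^ 2) ^ 2 = u + Real.sqrt (1 + u ^ 2) := e3_four u
  have h3 : 1 ≤ Real.sqrt (1 + u ^ 2) := by
    rw [Real.one_le_sqrt]
    nlinarith [sq_nonneg u]
  have h4 : u ≤ Real.sqrt (1 + u ^ 2) := by
    apply Real.le_sqrt_of_sq_le
    linarith
  have h5 : 0 < Real.sqrt (1 + u ^ 2) := by linarith
  have h6 : 0 ≤ e3 u ^ 2 := sq_nonneg _
  have h7 : e3 u ^ 2 ≤ 2 * Real.sqrt (1 + u ^ 2) := by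
    refine le_of_sq_le_sq ?_ (by positivity)
    rw [h2]
    nlinarith
  change (e3 u * ((Real.sqrt (1 + u ^ 2))⁻¹ / 4)) ^ 2 ≤ 1
  have h8 : (e3 u * ((Real.sqrt (1 + u ^ 2))⁻¹ / 4)) ^ 2 =
      e3 u ^ 2 / (16 * Real.sqrt (1 + u ^ 2) ^ 2) := by
    field_simp
    ring
  rw [h8, div_le_iff₀ (by positivity)]
  nlinarith

private theorem e3_one (f : E3 → ℝ) (v : E3) (hf : DifferentiableAt ℝ f v) :
    gr (fun u => e3 (f u)) v ≤ gr f v := by
  have he : HasDerivAt e3 (deriv e3 (f v)) (f v) :=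
    ((e3_smooth.differentiable (by simp)) (f v)).hasDerivAt
  have h1 : HasFDerivAt (fun u => e3 (f u)) (deriv e3 (f v) • fderiv ℝ f v) v :=
    he.comp_hasFDerivAt v hf.hasFDerivAt
  unfold gr
  rw [h1.fderiv]
  refine sum_le_sum fun d _ => ?_
  rw [ContinuousLinearMap.coe_smul', Pi.smul_apply, smul_eq_mul, mul_pow]
  exact (mul_le_mul_of_nonneg_right (e3_deriv (f v)) (sq_nonneg _)).trans (one_mul _).le

private theorem e3_upE {n k : ℕ} (F : Cfg n k → ℝ)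
    (hF : Differentiable ℝ F) (q : Cfg n k) (b : Fin n) (v : E3) :
    DifferentiableAt ℝ (fun v => F (Function.update q.1 b v, q.2)) v := by
  have h1 : DifferentiableAt ℝ (fun v : E3 => ((Function.update q.1 b v, q.2) : Cfg n k)) v :=
    ((hasFDerivAt_update q.1 v).differentiableAt).prodMk (differentiableAt_const _)
  exact (hF _).comp v h1

private theorem e3_upN {n k : ℕ} (F : Cfg n k → ℝ)
    (hF : Differentiable ℝ F) (q : Cfg n k) (b : Fin k) (v : E3) :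
    DifferentiableAt ℝ (fun v => F (q.1, Function.update q.2 b v)) v := by
  have h1 : DifferentiableAt ℝ (fun v : E3 => ((q.1, Function.update q.2 b v) : Cfg n k)) v :=
    (differentiableAt_const _).prodMk ((hasFDerivAt_update q.2 v).differentiableAt)
  exact (hF _).comp v h1

theorem gm_e3 {n k : ℕ} {κ : Fin k → ℝ} (hκ : ∀ j, 0 ≤ κ j) (u : Cfg n k → ℝ)
    (hu : ContDiff ℝ (⊤ : ℕ∞) u) (p : Cfg n k) :
    Gm κ (fun p => e3 (u p)) p ≤ Gm κ u p := by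
  have hu' : Differentiable ℝ u := hu.differentiable (by simp)
  unfold Gm
  refine add_le_add (sum_le_sum fun a _ => ?_) (sum_le_sum fun j _ => ?_)
  · exact e3_one (fun v => u (Function.update p.1 a v, p.2)) (p.1 a) (e3_upE u hu' p a _)
  · exact mul_le_mul_of_nonneg_left
      (e3_one (fun v => u (p.1, Function.update p.2 j v)) (p.2 j) (e3_upN u hu' p j _)) (hκ j)

end H6.CL
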