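import Pool.Agent.H6.CL.CnP
import Pool.Agent.H6.CL.ShN
import Pool.Agent.H6.CB.FMom
import Pool.Agent.H6.CB.UhF

/-! Integrability of the local quantities as functions of the point, and their supports. All of them are of the form `v ↦ ∑ i, mean (Ψ i) (F v)` with `F` jointly measurable and bounded by a continuous function of the configuration on bounded sets of `v` (`mean_ball`), or integrals of the (integrable) squared gradients over `‖p.1 a - v‖ < r` (Fubini). A function with `IntegrableOn` on all balls. `WW` and `SS` at `x`: `∫ v in ball x 12, F x v` with `F` jointly measurable. Supports: the positions are in the ball of radius `R` where `Ψ i ≠ 0` (and its gradient is `0` elsewhere almost everywhere, or on the complement of the closed ball; the support of `Ψ i` is contained in the open ball). -/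

open MeasureTheory Finset

namespace H6.CL

open H6.CM H6.CB

private theorem si_fin (s : ℝ) :
    IsFiniteMeasure ((volume : Measure E3).restrict (Metric.ball 0 s)) :=
  ⟨by rw [Measure.restrict_apply_univ]; exact measure_ball_lt_top⟩

private theorem si_mint {Y Z : Type*} [MeasurableSpace Y] [MeasureSpace Z]
    [SFinite (volume : Measure Z)] {f : Y × Z → ℝ} (hf : Measurable f) :
    Measurable (fun y => ∫ v, f (y, v)) :=
  hf.stronglyMeasurable.integral_prod_right'.measurable

/-- the expectation of a measurable function is measurable in the parameter -/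
private theorem si_mean {Y : Type*} [MeasurableSpace Y] {q n k : ℕ} {Λ : Set E3}
    {ψ : (Fin n → Fin q) → Cfg n k → ℂ} (h : Sm q n k Λ ψ) {F : Y → Cfg n k → ℝ}
    (hF : Measurable (fun u : Y × Cfg n k => F u.1 u.2)) :
    Measurable (fun y => mean ψ (F y)) := by
  unfold mean
  refine Finset.measurable_fun_sum _ fun σ _ => ?_
  have h1 : Measurable (fun u : Y × Cfg n k => F u.1 u.2 * ‖ψ σ u.2‖ ^ 2) :=
    hF.mul ((Sm_sq h σ).1.measurable.comp measurable_snd)
  exact si_mint h1

private theorem si_bd {q n k : ℕ} {Λ : Set E3} {ψ : (Fin n → Fin q) → Cfg n k → ℂ}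
    (h : Sm q n k Λ ψ) {F : Cfg n k → ℝ} {M : ℝ} (hM : ∀ p, |F p| ≤ M) :
    |mean ψ F| ≤ M * mass ψ := by
  unfold mean mass
  rw [mul_sum]
  refine (abs_sum_le_sum_abs _ _).trans (sum_le_sum fun σ _ => ?_)
  rw [← integral_const_mul]
  have h1 : Integrable (fun p => M * ‖ψ σ p‖ ^ 2) :=
    ((Sm_sq h σ).1.integrable_of_hasCompactSupport (Sm_sq h σ).2).const_mul M
  rw [← Real.norm_eq_abs]
  refine norm_integral_le_of_norm_le h1 (Filter.Eventually.of_forall fun p => ?_)
  simp only [norm_mul, Real.norm_eq_abs, abs_pow, abs_norm]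
  exact mul_le_mul_of_nonneg_right (hM p) (sq_nonneg _)

private theorem si_gen {ι : Type} [Fintype ι] {q n k : ℕ} {Λ : Set E3}
    {Ψ : ι → (Fin n → Fin q) → Cfg n k → ℂ} (hΨ : ∀ i, Sm q n k Λ (Ψ i))
    {F : E3 → Cfg n k → ℝ} (hF : Measurable (fun u : E3 × Cfg n k => F u.1 u.2)) (M : ℝ)
    (hM : ∀ v p, |F v p| ≤ M) (s : ℝ) :
    IntegrableOn (fun v => mM Ψ (F v)) (Metric.ball 0 s) := by
  have := si_fin s
  unfold mM
  refine integrable_finsetSum _ fun i _ => ?_
  exact Integrable.of_bound (si_mean (hΨ i) hF).aestronglyMeasurable (M * mass (Ψ i))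
    (Filter.Eventually.of_forall fun v => si_bd (hΨ i) (hM v))

/-- the same for an integral over the balls of radius `12` -/
private theorem si_gen2 {q n k : ℕ} {Λ : Set E3}
    {ψ : (Fin n → Fin q) → Cfg n k → ℂ} (h : Sm q n k Λ ψ)
    {F : E3 × E3 → Cfg n k → ℝ}
    (hF : Measurable (fun u : (E3 × E3) × Cfg n k => F u.1 u.2)) (M : ℝ)
    (hM : ∀ w p, |F w p| ≤ M) (s : ℝ) :
    IntegrableOn (fun x => ∫ v in Metric.ball x 12, mean ψ (F (x, v))) (Metric.ball 0 s) := by
  have := si_fin s
  have hm : Measurable (fun w : E3 × E3 => mean ψ (F w)) := si_mean h hF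
  have e : ∀ x : E3, ∫ v in Metric.ball x 12, mean ψ (F (x, v)) =
      ∫ v, (if ‖v - x‖ < 12 then mean ψ (F (x, v)) else 0) := by
    intro x
    rw [← integral_indicator measurableSet_ball]
    refine integral_congr_ae (Filter.Eventually.of_forall fun v => ?_)
    simp only
    by_cases hv : v ∈ Metric.ball x 12
    · rw [Set.indicator_of_mem hv]
      rw [Metric.mem_ball, dist_eq_norm] at hv
      rw [if_pos hv]
    · rw [Set.indicator_of_notMem hv]
      rw [Metric.mem_ball, dist_eq_norm] at hv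
      rw [if_neg hv]
  have hm2 : Measurable (fun w : E3 × E3 => if ‖w.2 - w.1‖ < 12 then mean ψ (F w) else 0) :=
    Measurable.ite (measurableSet_lt (measurable_snd.sub measurable_fst).norm measurable_const)
      hm measurable_const
  have hm3 : Measurable (fun x : E3 => ∫ v in Metric.ball x 12, mean ψ (F (x, v))) := by
    simp only [e]
    exact si_mint hm2
  refine Integrable.of_bound hm3.aestronglyMeasurable
    (M * mass ψ * (volume : Measure E3).real (Metric.ball (0 : E3) 12))
    (Filter.Eventually.of_forall fun x => ?_)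
  have h1 : (volume : Measure E3).real (Metric.ball x 12) =
      (volume : Measure E3).real (Metric.ball (0 : E3) 12) :=
    Measure.addHaar_real_ball_center _ _ _
  rw [← h1]
  exact norm_setIntegral_le_of_norm_le_const measure_ball_lt_top
    (fun v _ => si_bd h (hM (x, v)))

private theorem si_ce {Y : Type*} [MeasurableSpace Y] {n k : ℕ} {f : Y → Cfg n k} {g : Y → E3}
    (hf : Measurable f) (hg : Measurable g) (r : ℝ) : Measurable (fun u => ce (f u) (g u) r) := by
  unfold ce
  refine Finset.measurable_fun_sum _ fun a _ => ?_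
  have h1 : Measurable (fun u => (f u).1 a - g u) := ((meas_e a).comp hf).sub hg
  exact Measurable.ite (measurableSet_lt h1.norm measurable_const) measurable_const
    measurable_const

private theorem si_cn {Y : Type*} [MeasurableSpace Y] {n k : ℕ} {f : Y → Cfg n k} {g : Y → E3}
    (hf : Measurable f) (hg : Measurable g) (r : ℝ) : Measurable (fun u => cn (f u) (g u) r) := by
  unfold cn
  refine Finset.measurable_fun_sum _ fun a _ => ?_
  have h1 : Measurable (fun u => (f u).2 a - g u) := ((meas_n a).comp hf).sub hg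
  exact Measurable.ite (measurableSet_lt h1.norm measurable_const) measurable_const
    measurable_const

private theorem si_mm {Y : Type*} [MeasurableSpace Y] {n k : ℕ} {θ : E3 → ℝ} (hθ : Cut θ)
    {f : Y → Cfg n k} {g : Y → E3} (hf : Measurable f) (hg : Measurable g) :
    Measurable (fun u => mm θ (g u) (f u)) := by
  unfold mm Jc
  refine Finset.measurable_fun_sum _ fun a _ => ?_
  have h1 : Measurable (fun u => (f u).1 a - g u) := ((meas_e a).comp hf).sub hg
  exact ((measurable_const.sub (hθ.smooth.continuous.measurable.comp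
    (h1.const_smul (32 : ℝ)⁻¹)))).pow_const 2

private theorem si_mm0 {n k : ℕ} (θ : E3 → ℝ) (x : E3) (p : Cfg n k) : 0 ≤ mm θ x p :=
  sum_nonneg fun _ _ => sq_nonneg _

private theorem si_mm1 {n k : ℕ} {θ : E3 → ℝ} (hθ : Cut θ) (x : E3) (p : Cfg n k) :
    mm θ x p ≤ n := (mm_hi hθ x p).trans (ce_le p x 64)

private theorem si_uh {Y : Type*} [MeasurableSpace Y] {χ : E3 → ℝ} (hχ : Bump χ) {n k : ℕ}
    (t : ℝ) (ht : 0 < t) (W : Finset E3) (z : Fin k → ℝ)
    {f : Y → Cfg n k} {g : Y → E3} (hf : Measurable f) (hg : Measurable g) :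
    Measurable (fun u => uh χ t W z (f u) (g u)) := by
  have h1 := (uh_joint hχ t ht W z (n := n)).measurable
  have h2 := h1.comp (hf.prodMk hg)
  simp only [Function.comp_def] at h2
  exact h2

private theorem si_uhb {χ : E3 → ℝ} (hχ : Bump χ) {n k : ℕ} (t : ℝ) (ht : 0 < t)
    (W : Finset E3) (z : Fin k → ℝ) : ∃ M : ℝ, 0 ≤ M ∧ ∀ (p : Cfg n k) (v : E3),
    |uh χ t W z p v| ≤ M := by
  obtain ⟨C, hC, hb⟩ := UU_bd hχ
  have h1 : ∀ (r : ℝ) (_ : 0 < r) (p : Cfg n k) (w : E3),
      |ph χ r z p w| ≤ (∑ j, |z j| + n) * (C * r⁻¹) := by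
    intro r hr p w
    have hp : ∀ y, |UU χ r y| ≤ C * r⁻¹ := fun y => by
      rw [abs_of_nonneg (UU_nonneg hχ r hr y)]
      exact hb r hr y
    unfold ph
    have e1 : |∑ j, z j * UU χ r (w - p.2 j)| ≤ (∑ j, |z j|) * (C * r⁻¹) := by
      rw [sum_mul]
      refine (abs_sum_le_sum_abs _ _).trans (sum_le_sum fun j _ => ?_)
      rw [abs_mul]
      exact mul_le_mul_of_nonneg_left (hp _) (abs_nonneg _)
    have e2 : |∑ a, UU χ r (w - p.1 a)| ≤ n * (C * r⁻¹) := by
      refine (abs_sum_le_sum_abs _ _).trans ?_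
      refine (sum_le_card_nsmul univ _ (C * r⁻¹) fun a _ => hp _).trans_eq ?_
      rw [card_univ, Fintype.card_fin, nsmul_eq_mul]
    have e3 := abs_sub (∑ j, z j * UU χ r (w - p.2 j)) (∑ a, UU χ r (w - p.1 a))
    rw [add_mul]
    linarith
  obtain ⟨A, hA⟩ : ∃ A : ℝ, A = ∑ j, |z j| + n := ⟨_, rfl⟩
  have hA0 : 0 ≤ A := by
    rw [hA]
    exact add_nonneg (sum_nonneg fun j _ => abs_nonneg _) (Nat.cast_nonneg _)
  rw [← hA] at h1
  have ht' : 0 < t⁻¹ := inv_pos.2 ht
  refine ⟨A * (C * t⁻¹) + A * (C * 1⁻¹), by positivity, fun p v => ?_⟩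
  have h2 : |pr χ W z p| ≤ A * (C * 1⁻¹) := by
    unfold pr
    rw [abs_mul, abs_of_nonneg (by positivity)]
    have h3 : |∑ w ∈ W, ph χ 1 z p w| ≤ W.card * (A * (C * 1⁻¹)) := by
      refine (abs_sum_le_sum_abs _ _).trans ((sum_le_card_nsmul W _ (A * (C * 1⁻¹))
        fun w _ => ?_).trans_eq (nsmul_eq_mul _ _))
      exact h1 1 one_pos p w
    rcases W.eq_empty_or_nonempty with hW | hW
    · subst hW
      simp
      positivity
    · have hc : (0 : ℝ) < W.card := by exact_mod_cast hW.card_pos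
      rw [inv_mul_le_iff₀ hc]
      exact h3
  unfold uh
  have h5 := abs_sub (ph χ t z p v) (pr χ W z p)
  exact h5.trans (add_le_add (h1 t ht p v) h2)

private theorem si_Gs {Y : Type*} [MeasurableSpace Y] {n k : ℕ} {θ : E3 → ℝ} (hθ : Cut θ)
    (l : ℕ) {f : Y → Cfg n k} {g : Y → E3} (hf : Measurable f) (hg : Measurable g) :
    Measurable (fun u => Gs θ (g u) l (f u)) := by
  unfold Gs
  exact (gl_smooth l).continuous.measurable.comp (si_mm hθ hf hg)

private theorem si_Gs1 {n k : ℕ} (θ : E3 → ℝ) (x : E3) (l : ℕ) (p : Cfg n k) :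
    0 ≤ Gs θ x l p ^ 2 ∧ Gs θ x l p ^ 2 ≤ 1 := by
  refine ⟨sq_nonneg _, ?_⟩
  have h1 := Gs_mem (θ := θ) x l p
  exact pow_le_one₀ h1.1 h1.2

private theorem si_T {n k : ℕ} {f : Cfg n k → ℝ} (hf : Integrable f) {g : Cfg n k → E3}
    (hg : Measurable g) (r : ℝ) (S : Set E3)
    (hS : IsFiniteMeasure ((volume : Measure E3).restrict S)) :
    Integrable (fun u : E3 × Cfg n k => if ‖g u.2 - u.1‖ < r then f u.2 else 0)
      (((volume : Measure E3).restrict S).prod (volume : Measure (Cfg n k))) := by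
  have h1 : Integrable (fun u : E3 × Cfg n k => (1 : ℝ) * f u.2)
      (((volume : Measure E3).restrict S).prod (volume : Measure (Cfg n k))) :=
    Integrable.mul_prod (μ := (volume : Measure E3).restrict S)
      (ν := (volume : Measure (Cfg n k))) (f := fun _ : E3 => (1 : ℝ)) (integrable_const _) hf
  have h2 : MeasurableSet {u : E3 × Cfg n k | ‖g u.2 - u.1‖ < r} :=
    measurableSet_lt ((hg.comp measurable_snd).sub measurable_fst).norm measurable_const
  refine (h1.indicator h2).congr (Filter.Eventually.of_forall fun u => ?_)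
  by_cases h : ‖g u.2 - u.1‖ < r
  · have h' : u ∈ {u : E3 × Cfg n k | ‖g u.2 - u.1‖ < r} := h
    simp only [Set.indicator_of_mem h', if_pos h, one_mul]
  · have h' : u ∉ {u : E3 × Cfg n k | ‖g u.2 - u.1‖ < r} := h
    simp only [Set.indicator_of_notMem h', if_neg h]

private theorem si_fd {V : Type*} [NormedAddCommGroup V] [NormedSpace ℝ V] {F : V → ℂ} {p : V}
    (hp : p ∉ tsupport F) {γ : E3 → V} (hγ : Continuous γ) (w : E3) (hw : γ w = p) :
    g3 (fun v => F (γ v)) w = 0 := by
  have h1 : F =ᶠ[nhds p] 0 := notMem_tsupport_iff_eventuallyEq.1 hp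
  have h2 : Filter.Tendsto γ (nhds w) (nhds p) := by
    have := hγ.tendsto w
    rwa [hw] at this
  have h3 : (fun v => F (γ v)) =ᶠ[nhds w] fun _ => 0 := by
    filter_upwards [h2.eventually h1] with v hv
    simpa using hv
  unfold g3
  rw [h3.fderiv_eq]
  simp

private theorem si_ge0 {n k : ℕ} {F : Cfg n k → ℂ} {p : Cfg n k} (hp : p ∉ tsupport F)
    (a : Fin n) : ge F a p = 0 := by
  unfold ge
  refine si_fd (F := F) (p := p) hp (γ := fun v => (Function.update p.1 a v, p.2)) ?_ _ ?_
  · exact (Continuous.update (f := fun _ : E3 => p.1) continuous_const a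
      continuous_id).prodMk continuous_const
  · rw [Function.update_eq_self]

private theorem si_gn0 {n k : ℕ} {F : Cfg n k → ℂ} {p : Cfg n k} (hp : p ∉ tsupport F)
    (j : Fin k) : gn F j p = 0 := by
  unfold gn
  refine si_fd (F := F) (p := p) hp (γ := fun v => (p.1, Function.update p.2 j v)) ?_ _ ?_
  · exact continuous_const.prodMk
      (Continuous.update (f := fun _ : E3 => p.2) continuous_const j continuous_id)
  · rw [Function.update_eq_self]

private theorem si_far {R : ℝ} {v y : E3} {r : ℝ} (hv : R + r ≤ ‖v‖) (hy : y ∈ Metric.ball 0 R) :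
    ¬ ‖y - v‖ < r := by
  rw [Metric.mem_ball, dist_zero_right] at hy
  intro h
  have h1 := norm_sub_norm_le v y
  rw [norm_sub_rev] at h1
  linarith

private theorem si_vol : (1 : ℝ) ≤ (volume : Measure E3).real (Metric.ball (0 : E3) 1) ∧
    (volume : Measure E3).real (Metric.ball (0 : E3) 1) ≤ 8 := by
  have h1 : (volume : Measure E3).real (Metric.ball (0 : E3) 1) = Real.pi * 4 / 3 := by
    rw [Measure.real, EuclideanSpace.volume_ball_fin_three]
    simp
    have : 0 ≤ Real.pi := Real.pi_pos.le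
    positivity
  rw [h1]
  constructor
  · linarith [Real.pi_gt_three]
  · linarith [Real.pi_le_four]

private theorem si_volc (y : E3) : (volume : Measure E3).real (Metric.ball y 1) =
    (volume : Measure E3).real (Metric.ball (0 : E3) 1) := Measure.addHaar_real_ball_center _ _ _

private theorem si_ite (S : Set E3) (y : E3) (c : ℝ) :
    ∫ v in S, (if ‖y - v‖ < 1 then c else 0) =
      (volume : Measure E3).real (Metric.ball y 1 ∩ S) * c := by
  have e : ∀ v, (if ‖y - v‖ < 1 then c else 0) = (Metric.ball y 1).indicator (fun _ => c) v := by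
    intro v
    by_cases h : ‖y - v‖ < 1
    · have h' : v ∈ Metric.ball y 1 := by rwa [Metric.mem_ball, dist_eq_norm, norm_sub_rev]
      rw [Set.indicator_of_mem h', if_pos h]
    · have h' : v ∉ Metric.ball y 1 := by rwa [Metric.mem_ball, dist_eq_norm, norm_sub_rev]
      rw [Set.indicator_of_notMem h', if_neg h]
  simp only [e]
  rw [integral_indicator measurableSet_ball, setIntegral_const, smul_eq_mul]
  congr 1
  rw [Measure.real, Measure.real, Measure.restrict_apply measurableSet_ball]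

section

variable {ι : Type} [Fintype ι] {q n k : ℕ} {Λ : Set E3}
  {Ψ : ι → (Fin n → Fin q) → Cfg n k → ℂ} (hΨ : ∀ i, Sm q n k Λ (Ψ i))

theorem mM_nonneg (Ψ : ι → (Fin n → Fin q) → Cfg n k → ℂ) {F : Cfg n k → ℝ}
    (hF : ∀ p, 0 ≤ F p) : 0 ≤ mM Ψ F := by
  exact sum_nonneg fun i _ => mean_nonneg fun _ p _ => hF p

theorem TM_nonneg (Ψ : ι → (Fin n → Fin q) → Cfg n k → ℂ) (x : E3) (r : ℝ) : 0 ≤ TM Ψ x r := by
  exact sum_nonneg fun i _ => add_nonneg (TE_nonneg _ _ _) (TN_nonneg _ _ _)

theorem WM_nonneg (χ θ : E3 → ℝ) (W : Finset E3) (z : Fin k → ℝ)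
    (Ψ : ι → (Fin n → Fin q) → Cfg n k → ℂ) (x : E3) : 0 ≤ WM χ θ W z Ψ x := by
  refine sum_nonneg fun i _ => sum_nonneg fun l _ => ?_
  refine integral_nonneg fun v => mean_nonneg fun _ p _ => ?_
  exact mul_nonneg (sq_nonneg _) (sq_nonneg _)

theorem SM_nonneg (θ : E3 → ℝ) (Ψ : ι → (Fin n → Fin q) → Cfg n k → ℂ) (x : E3) :
    0 ≤ SM θ Ψ x := by
  refine sum_nonneg fun i _ => sum_nonneg fun l _ => ?_
  refine integral_nonneg fun v => mean_nonneg fun _ p _ => ?_
  exact mul_nonneg (sq_nonneg _) (mul_nonneg (inv_nonneg.2 (sq_nonneg _)) (sq_nonneg _))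

include hΨ

theorem sI_T (r s : ℝ) : IntegrableOn (fun v => TM Ψ v r) (Metric.ball 0 s) := by
  unfold TM TE TN
  have hf := si_fin s
  refine integrable_finsetSum _ fun i _ => Integrable.add ?_ ?_
  · refine integrable_finsetSum _ fun a _ => integrable_finsetSum _ fun σ _ => ?_
    exact (si_T (kE_int (hΨ i) σ a) (meas_e a) r _ hf).integral_prod_left
  · refine integrable_finsetSum _ fun a _ => integrable_finsetSum _ fun σ _ => ?_
    exact (si_T (kN_int (hΨ i) σ a) (meas_n a) r _ hf).integral_prod_left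

theorem sI_ce (r t s : ℝ) (ht : 0 ≤ t) :
    IntegrableOn (fun v => mM Ψ (fun p => ce p v r ^ t)) (Metric.ball 0 s) := by
  refine si_gen hΨ ((si_ce measurable_snd measurable_fst r).pow_const t) ((n : ℝ) ^ t)
    (fun v p => ?_) s
  rw [abs_of_nonneg (Real.rpow_nonneg (ce_nonneg p v r) t)]
  exact Real.rpow_le_rpow (ce_nonneg p v r) (ce_le p v r) ht

theorem sI_cn (r t s : ℝ) (ht : 0 ≤ t) :
    IntegrableOn (fun v => mM Ψ (fun p => cn p v r ^ t)) (Metric.ball 0 s) := by
  refine si_gen hΨ ((si_cn measurable_snd measurable_fst r).pow_const t) ((k : ℝ) ^ t)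
    (fun v p => ?_) s
  rw [abs_of_nonneg (Real.rpow_nonneg (cn_nonneg p v r) t)]
  exact Real.rpow_le_rpow (cn_nonneg p v r) (cn_le p v r) ht

theorem sI_sum (r s : ℝ) :
    IntegrableOn (fun v => mM Ψ (fun p => ce p v r + cn p v r)) (Metric.ball 0 s) := by
  refine si_gen hΨ ((si_ce measurable_snd measurable_fst r).add
    (si_cn measurable_snd measurable_fst r)) ((n : ℝ) + k) (fun v p => ?_) s
  rw [abs_of_nonneg (add_nonneg (ce_nonneg p v r) (cn_nonneg p v r))]
  exact add_le_add (ce_le p v r) (cn_le p v r)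

theorem sI_mm {θ : E3 → ℝ} (hθ : Cut θ) (t s : ℝ) (ht : 0 ≤ t) :
    IntegrableOn (fun v => mM Ψ (fun p => mm θ v p ^ t)) (Metric.ball 0 s) := by
  refine si_gen hΨ ((si_mm hθ measurable_snd measurable_fst).pow_const t) ((n : ℝ) ^ t)
    (fun v p => ?_) s
  rw [abs_of_nonneg (Real.rpow_nonneg (si_mm0 θ v p) t)]
  exact Real.rpow_le_rpow (si_mm0 θ v p) (si_mm1 hθ v p) ht

theorem sI_mix {θ : E3 → ℝ} (hθ : Cut θ) (s : ℝ) :
    IntegrableOn (fun x => mM Ψ (fun p => (1 + mm θ x p ^ (1 / 6 : ℝ)) *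
      (ce p x 14 + cn p x 14))) (Metric.ball 0 s) := by
  refine si_gen hΨ (Measurable.mul
    (measurable_const.add ((si_mm hθ measurable_snd measurable_fst).pow_const (1 / 6 : ℝ)))
    ((si_ce measurable_snd measurable_fst 14).add (si_cn measurable_snd measurable_fst 14)))
    ((1 + (n : ℝ) ^ (1 / 6 : ℝ)) * ((n : ℝ) + k)) (fun v p => ?_) s
  have h1 := Real.rpow_nonneg (si_mm0 θ v p) (1 / 6 : ℝ)
  have h2 := Real.rpow_le_rpow (si_mm0 θ v p) (si_mm1 hθ v p) (show (0 : ℝ) ≤ 1 / 6 by norm_num)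
  have h3 := add_nonneg (ce_nonneg p v 14) (cn_nonneg p v 14)
  rw [abs_of_nonneg (mul_nonneg (by linarith) h3)]
  exact mul_le_mul (by linarith) (add_le_add (ce_le p v 14) (cn_le p v 14)) h3 (by linarith)

theorem sI_uh {χ : E3 → ℝ} (hχ : Bump χ) (W : Finset E3) (z : Fin k → ℝ) (t s : ℝ)
    (ht : 0 ≤ t) :
    IntegrableOn (fun v => mM Ψ (fun p => |uh χ 1 W z p v| ^ t)) (Metric.ball 0 s) := by
  obtain ⟨M, hM0, hM⟩ := si_uhb hχ (n := n) 1 one_pos W z
  have hm : Measurable (fun u : E3 × Cfg n k => |uh χ 1 W z u.2 u.1| ^ t) :=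
    (si_uh hχ 1 one_pos W z measurable_snd measurable_fst).abs.pow_const t
  refine si_gen hΨ hm (M ^ t) (fun v p => ?_) s
  rw [abs_of_nonneg (Real.rpow_nonneg (abs_nonneg _) t)]
  exact Real.rpow_le_rpow (abs_nonneg _) (hM p v) ht

theorem sI_q4 (s : ℝ) : IntegrableOn (fun v => mM Ψ (fun p => q4 1 p v)) (Metric.ball 0 s) ∧
    IntegrableOn (fun v => mM Ψ (fun p => tl 13 p v)) (Metric.ball 0 s) := by
  have h1 : ∀ a : Fin n, Measurable (fun u : E3 × Cfg n k => ‖u.2.1 a - u.1‖) := fun a =>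
    (((meas_e a).comp measurable_snd).sub measurable_fst).norm
  have h2 : ∀ a : Fin k, Measurable (fun u : E3 × Cfg n k => ‖u.2.2 a - u.1‖) := fun a =>
    (((meas_n a).comp measurable_snd).sub measurable_fst).norm
  have h3 : ∀ r : ℝ, 0 ≤ (max 1 r ^ 4)⁻¹ ∧ (max 1 r ^ 4)⁻¹ ≤ 1 := by
    intro r
    have h4 : 1 ≤ max 1 r := le_max_left _ _
    exact ⟨by positivity, inv_le_one_of_one_le₀ (one_le_pow₀ h4)⟩
  have h5 : ∀ r : ℝ, 0 ≤ (if r < 13 then 0 else (r ^ 4)⁻¹) ∧
      (if r < 13 then 0 else (r ^ 4)⁻¹) ≤ 1 := by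
    intro r
    split_ifs with h
    · exact ⟨le_rfl, zero_le_one⟩
    · have h4 : (1 : ℝ) ≤ r := by linarith [not_lt.1 h]
      exact ⟨by positivity, inv_le_one_of_one_le₀ (one_le_pow₀ h4)⟩
  have h6 : ∀ (m : ℕ) (f : Fin m → ℝ), (∀ i, 0 ≤ f i ∧ f i ≤ 1) → 0 ≤ ∑ i, f i ∧
      ∑ i, f i ≤ m := by
    intro m f hf
    refine ⟨sum_nonneg fun i _ => (hf i).1, ?_⟩
    refine (sum_le_card_nsmul univ _ 1 fun a _ => (hf a).2).trans_eq ?_
    rw [card_univ, Fintype.card_fin, nsmul_eq_mul, mul_one]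
  constructor
  · have hm : Measurable (fun u : E3 × Cfg n k => q4 1 u.2 u.1) := by
      unfold q4
      refine Measurable.add ?_ ?_
      · exact Finset.measurable_fun_sum _ fun a _ =>
          ((measurable_const.max (h1 a)).pow_const 4).inv
      · exact Finset.measurable_fun_sum _ fun a _ =>
          ((measurable_const.max (h2 a)).pow_const 4).inv
    refine si_gen hΨ hm ((n : ℝ) + k) (fun v p => ?_) s
    unfold q4
    have g1 := h6 n (fun a => (max 1 ‖p.1 a - v‖ ^ 4)⁻¹) fun a => h3 _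
    have g2 := h6 k (fun a => (max 1 ‖p.2 a - v‖ ^ 4)⁻¹) fun a => h3 _
    rw [abs_of_nonneg (add_nonneg g1.1 g2.1)]
    exact add_le_add g1.2 g2.2
  · have hm : Measurable (fun u : E3 × Cfg n k => tl 13 u.2 u.1) := by
      unfold tl
      refine Measurable.add ?_ ?_
      · refine Finset.measurable_fun_sum _ fun a _ => ?_
        exact Measurable.ite (measurableSet_lt (h1 a) measurable_const) measurable_const
          ((h1 a).pow_const 4).inv
      · refine Finset.measurable_fun_sum _ fun a _ => ?_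
        exact Measurable.ite (measurableSet_lt (h2 a) measurable_const) measurable_const
          ((h2 a).pow_const 4).inv
    refine si_gen hΨ hm ((n : ℝ) + k) (fun v p => ?_) s
    unfold tl
    have g1 := h6 n (fun a => if ‖p.1 a - v‖ < 13 then 0 else (‖p.1 a - v‖ ^ 4)⁻¹)
      fun a => h5 _
    have g2 := h6 k (fun a => if ‖p.2 a - v‖ < 13 then 0 else (‖p.2 a - v‖ ^ 4)⁻¹)
      fun a => h5 _
    rw [abs_of_nonneg (add_nonneg g1.1 g2.1)]
    exact add_le_add g1.2 g2.2

theorem sI_W {χ θ : E3 → ℝ} (hχ : Bump χ) (hθ : Cut θ) (W : Finset E3) (z : Fin k → ℝ)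
    (s : ℝ) : IntegrableOn (fun x => WM χ θ W z Ψ x) (Metric.ball 0 s) := by
  unfold WM WW
  refine integrable_finsetSum _ fun i _ => integrable_finsetSum _ fun l _ => ?_
  have hsc : 0 < sc l := by unfold sc; positivity
  obtain ⟨M, hM0, hM⟩ := si_uhb hχ (n := n) (sc l) hsc W z
  have hm : Measurable (fun u : (E3 × E3) × Cfg n k =>
      Gs θ u.1.1 l u.2 ^ 2 * uh χ (sc l) W z u.2 u.1.2 ^ 2) :=
    ((si_Gs hθ l measurable_snd (measurable_fst.comp measurable_fst)).pow_const 2).mul
      ((si_uh hχ (sc l) hsc W z measurable_snd (measurable_snd.comp measurable_fst)).pow_const 2)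
  refine si_gen2 (hΨ i) (F := fun w p => Gs θ w.1 l p ^ 2 * uh χ (sc l) W z p w.2 ^ 2) hm
    (M ^ 2) (fun w p => ?_) s
  have h1 := si_Gs1 θ w.1 l p
  have h2 : uh χ (sc l) W z p w.2 ^ 2 ≤ M ^ 2 := by
    rw [← sq_abs]
    exact pow_le_pow_left₀ (abs_nonneg _) (hM p w.2) 2
  rw [abs_of_nonneg (mul_nonneg h1.1 (sq_nonneg _))]
  calc Gs θ w.1 l p ^ 2 * uh χ (sc l) W z p w.2 ^ 2 ≤ 1 * M ^ 2 :=
        mul_le_mul h1.2 h2 (sq_nonneg _) zero_le_one
    _ = M ^ 2 := one_mul _

theorem sI_S {θ : E3 → ℝ} (hθ : Cut θ) (s : ℝ) :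
    IntegrableOn (fun x => SM θ Ψ x) (Metric.ball 0 s) := by
  unfold SM SS
  refine integrable_finsetSum _ fun i _ => integrable_finsetSum _ fun l _ => ?_
  have hm : Measurable (fun u : (E3 × E3) × Cfg n k =>
      Gs θ u.1.1 l u.2 ^ 2 * ((sc l ^ 2)⁻¹ * ce u.2 u.1.2 (7 * sc l) ^ 2)) :=
    ((si_Gs hθ l measurable_snd (measurable_fst.comp measurable_fst)).pow_const 2).mul
      (((si_ce measurable_snd (measurable_snd.comp measurable_fst)
        (7 * sc l)).pow_const 2).const_mul _)
  refine si_gen2 (hΨ i)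
    (F := fun w p => Gs θ w.1 l p ^ 2 * ((sc l ^ 2)⁻¹ * ce p w.2 (7 * sc l) ^ 2)) hm
    ((sc l ^ 2)⁻¹ * (n : ℝ) ^ 2) (fun w p => ?_) s
  have h1 := si_Gs1 θ w.1 l p
  have h0 : 0 ≤ (sc l ^ 2)⁻¹ := inv_nonneg.2 (sq_nonneg _)
  have h2 : (sc l ^ 2)⁻¹ * ce p w.2 (7 * sc l) ^ 2 ≤ (sc l ^ 2)⁻¹ * (n : ℝ) ^ 2 :=
    mul_le_mul_of_nonneg_left (pow_le_pow_left₀ (ce_nonneg _ _ _) (ce_le _ _ _) 2) h0
  have h3 : 0 ≤ (sc l ^ 2)⁻¹ * ce p w.2 (7 * sc l) ^ 2 := mul_nonneg h0 (sq_nonneg _)
  rw [abs_of_nonneg (mul_nonneg h1.1 h3)]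
  calc Gs θ w.1 l p ^ 2 * ((sc l ^ 2)⁻¹ * ce p w.2 (7 * sc l) ^ 2) ≤
        1 * ((sc l ^ 2)⁻¹ * (n : ℝ) ^ 2) := mul_le_mul h1.2 h2 h3 zero_le_one
    _ = _ := one_mul _

end

section

variable {ι : Type} [Fintype ι] {q n k : ℕ} {R : ℝ}
  {Ψ : ι → (Fin n → Fin q) → Cfg n k → ℂ} (hΨ : ∀ i, Sm q n k (Metric.ball 0 R) (Ψ i))
include hΨ

theorem out_T (v : E3) (r : ℝ) (hv : R + r ≤ ‖v‖) : TM Ψ v r = 0 := by
  unfold TM TE TN
  refine sum_eq_zero fun i _ => ?_
  have h1 : ∀ (a : Fin n) (σ : Fin n → Fin q) (p : Cfg n k),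
      (if ‖p.1 a - v‖ < r then ge (Ψ i σ) a p else 0) = 0 := by
    intro a σ p
    by_cases hp : p ∈ tsupport (Ψ i σ)
    · rw [if_neg (si_far hv (((hΨ i).supp σ p hp).1 a))]
    · rw [si_ge0 hp, ite_self]
  have h2 : ∀ (a : Fin k) (σ : Fin n → Fin q) (p : Cfg n k),
      (if ‖p.2 a - v‖ < r then gn (Ψ i σ) a p else 0) = 0 := by
    intro a σ p
    by_cases hp : p ∈ tsupport (Ψ i σ)
    · rw [if_neg (si_far hv (((hΨ i).supp σ p hp).2 a))]
    · rw [si_gn0 hp, ite_self]
  simp only [h1, h2, integral_zero, sum_const_zero, add_zero]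

theorem out_ce (v : E3) (r t : ℝ) (ht : 0 < t) (hv : R + r ≤ ‖v‖) :
    mM Ψ (fun p => ce p v r ^ t) = 0 := by
  refine sum_eq_zero fun i _ => ?_
  rw [mean_congr (G := fun _ => 0) fun σ p hp => ?_]
  · rw [mean_const, zero_mul]
  · have h1 : ce p v r = 0 := by
      unfold ce
      refine sum_eq_zero fun a _ => ?_
      rw [if_neg (si_far hv (((hΨ i).supp σ p (subset_tsupport _ hp)).1 a))]
    rw [h1, Real.zero_rpow ht.ne']

theorem out_cn (v : E3) (r t : ℝ) (ht : 0 < t) (hv : R + r ≤ ‖v‖) :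
    mM Ψ (fun p => cn p v r ^ t) = 0 := by
  refine sum_eq_zero fun i _ => ?_
  rw [mean_congr (G := fun _ => 0) fun σ p hp => ?_]
  · rw [mean_const, zero_mul]
  · have h1 : cn p v r = 0 := by
      unfold cn
      refine sum_eq_zero fun a _ => ?_
      rw [if_neg (si_far hv (((hΨ i).supp σ p (subset_tsupport _ hp)).2 a))]
    rw [h1, Real.zero_rpow ht.ne']

/-- the number of particles in the layer as an integral of local numbers -/
theorem shl_loc (r : ℝ) : mM Ψ (fun p => shl r p) ≤
    ∫ v in shc (r - 1) (R + 1), mM Ψ (fun p => ce p v 1 + cn p v 1) := by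
  obtain ⟨S, hS⟩ : ∃ S : Set E3, S = shc (r - 1) (R + 1) := ⟨_, rfl⟩
  rw [← hS]
  have hSm : MeasurableSet S := by
    rw [hS]
    exact (measurableSet_le measurable_const measurable_norm).inter
      (measurableSet_le measurable_norm measurable_const)
  have hSv : volume S < ⊤ := by
    refine lt_of_le_of_lt (measure_mono fun v hv => ?_) (measure_closedBall_lt_top
      (μ := (volume : Measure E3)) (x := 0) (r := R + 1))
    rw [hS] at hv
    rw [mem_closedBall_zero_iff]
    exact hv.2
  have hfin : IsFiniteMeasure ((volume : Measure E3).restrict S) :=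
    ⟨by rw [Measure.restrict_apply_univ]; exact hSv⟩
  have hmj : Measurable (fun u : Cfg n k × E3 => ce u.1 u.2 1 + cn u.1 u.2 1) :=
    (si_ce measurable_fst measurable_snd 1).add (si_cn measurable_fst measurable_snd 1)
  have hb : ∀ (v : E3) (p : Cfg n k), 0 ≤ ce p v 1 + cn p v 1 ∧
      ce p v 1 + cn p v 1 ≤ (n : ℝ) + k := fun v p =>
    ⟨add_nonneg (ce_nonneg _ _ _) (cn_nonneg _ _ _), add_le_add (ce_le _ _ _) (cn_le _ _ _)⟩
  have hF : ∀ i, IP (Ψ i) (S.indicator fun _ => (1 : ℝ))
      (fun v p => ce p v 1 + cn p v 1) := by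
    intro i σ
    have h1 : Integrable (fun p => ((n : ℝ) + k) * ‖Ψ i σ p‖ ^ 2) :=
      ((Sm_sq (hΨ i) σ).1.integrable_of_hasCompactSupport (Sm_sq (hΨ i) σ).2).const_mul _
    have h2' : IntegrableOn (fun _ => (1 : ℝ)) S := integrableOn_const (hs := hSv.ne)
    have h2 : Integrable (S.indicator fun _ => (1 : ℝ)) := h2'.integrable_indicator hSm
    have h3 : Integrable (fun u : Cfg n k × E3 => (((n : ℝ) + k) * ‖Ψ i σ u.1‖ ^ 2) *
        S.indicator (fun _ => (1 : ℝ)) u.2) := h1.mul_prod h2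
    have hm : Measurable (S.indicator fun _ => (1 : ℝ)) := measurable_const.indicator hSm
    refine h3.mono' ?_ (Filter.Eventually.of_forall fun u => ?_)
    · exact (((hm.comp measurable_snd).mul hmj).mul
        ((Sm_sq (hΨ i) σ).1.measurable.comp measurable_fst)).aestronglyMeasurable
    · by_cases hu : u.2 ∈ S
      · simp only [Set.indicator_of_mem hu, one_mul, mul_one, norm_mul, Real.norm_eq_abs, abs_pow,
          abs_norm]
        rw [abs_of_nonneg (hb u.2 u.1).1]
        exact mul_le_mul_of_nonneg_right (hb u.2 u.1).2 (sq_nonneg _)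
      · simp [Set.indicator_of_notMem hu]
  have e1 : ∀ g : E3 → ℝ, (fun w => S.indicator (fun _ => (1 : ℝ)) w * g w) = S.indicator g := by
    intro g
    funext w
    by_cases hw : w ∈ S
    · simp [Set.indicator_of_mem hw]
    · simp [Set.indicator_of_notMem hw]
  have hvs : ∀ y : E3, r < ‖y‖ → ‖y‖ < R →
      (1 : ℝ) ≤ (volume : Measure E3).real (Metric.ball y 1 ∩ S) := by
    intro y hy1 hy2
    have h1 : Metric.ball y 1 ∩ S = Metric.ball y 1 := by
      refine Set.inter_eq_left.2 fun v hv => ?_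
      rw [Metric.mem_ball, dist_eq_norm] at hv
      rw [hS]
      have h2 := norm_sub_norm_le v y
      have h3 := norm_sub_norm_le y v
      rw [norm_sub_rev] at h3
      exact ⟨by linarith, by linarith⟩
    rw [h1, si_volc]
    exact si_vol.1
  have hpt : ∀ i σ (p : Cfg n k), Ψ i σ p ≠ 0 →
      shl r p ≤ ∫ v in S, (ce p v 1 + cn p v 1) := by
    intro i σ p hp
    have hsup := (hΨ i).supp σ p (subset_tsupport _ hp)
    have i1 : ∀ y : E3, IntegrableOn (fun v => if ‖y - v‖ < 1 then (1 : ℝ) else 0) S := by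
      intro y
      refine Integrable.of_bound (Measurable.aestronglyMeasurable ?_) 1
        (Filter.Eventually.of_forall fun v => ?_)
      · exact Measurable.ite (measurableSet_lt (measurable_const.sub measurable_id).norm
          measurable_const) measurable_const measurable_const
      · rw [Real.norm_eq_abs]
        split_ifs <;> norm_num
    have i2 : IntegrableOn (fun v => ce p v 1) S := integrable_finsetSum _ fun a _ => i1 _
    have i3 : IntegrableOn (fun v => cn p v 1) S := integrable_finsetSum _ fun a _ => i1 _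
    have h4 : ∫ v in S, (ce p v 1 + cn p v 1) = (∫ v in S, ce p v 1) + ∫ v in S, cn p v 1 :=
      integral_add i2 i3
    rw [h4]
    unfold shl
    refine add_le_add ?_ ?_
    · unfold ce
      rw [integral_finsetSum _ fun a _ => i1 _]
      refine sum_le_sum fun a _ => ?_
      rw [si_ite, mul_one]
      split_ifs with h5
      · have h6 := hsup.1 a
        rw [Metric.mem_ball, dist_zero_right] at h6
        exact hvs _ h5 h6
      · exact measureReal_nonneg
    · unfold cn
      rw [integral_finsetSum _ fun a _ => i1 _]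
      refine sum_le_sum fun a _ => ?_
      rw [si_ite, mul_one]
      split_ifs with h5
      · have h6 := hsup.2 a
        rw [Metric.mem_ball, dist_zero_right] at h6
        exact hvs _ h5 h6
      · exact measureReal_nonneg
  have hshm : Measurable (fun p : Cfg n k => shl r p) := by
    unfold shl
    refine Measurable.add ?_ ?_
    · refine Finset.measurable_fun_sum _ fun a _ => ?_
      exact Measurable.ite (measurableSet_lt measurable_const (meas_e a).norm) measurable_const
        measurable_const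
    · refine Finset.measurable_fun_sum _ fun a _ => ?_
      exact Measurable.ite (measurableSet_lt measurable_const (meas_n a).norm) measurable_const
        measurable_const
  have hsh0 : ∀ p : Cfg n k, 0 ≤ shl r p := fun p => by
    unfold shl
    exact add_nonneg (sum_nonneg fun a _ => by positivity) (sum_nonneg fun a _ => by positivity)
  have hfub := fun i => mean_fub (hF i)
  have key : ∀ i, IntegrableOn (fun v => mean (Ψ i) (fun p => ce p v 1 + cn p v 1)) S ∧
      mean (Ψ i) (fun p => shl r p) ≤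
        ∫ v in S, mean (Ψ i) (fun p => ce p v 1 + cn p v 1) := by
    intro i
    obtain ⟨a1, a2, a3⟩ := hfub i
    simp only [e1 (fun w => mean (Ψ i) (fun p => ce p w 1 + cn p w 1))] at a1 a3
    have e2 : ∀ p : Cfg n k, (∫ w, S.indicator (fun _ => (1 : ℝ)) w * (ce p w 1 + cn p w 1)) =
        ∫ w in S, (ce p w 1 + cn p w 1) := by
      intro p
      rw [e1 (fun w => ce p w 1 + cn p w 1), integral_indicator hSm]
    simp only [e2] at a2 a3
    rw [integral_indicator hSm] at a3
    refine ⟨(integrable_indicator_iff hSm).1 a1, ?_⟩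
    rw [a3]
    exact mean_mono0 hsh0 a2 fun σ p hp => hpt i σ p hp
  unfold mM
  rw [integral_finsetSum _ fun i _ => (key i).1]
  exact sum_le_sum fun i _ => (key i).2

/-- the kinetic energy near a point in the layer -/
theorem T_loc (r s : ℝ) (hrs : s + 1 ≤ r) :
    ∫ v in A r, TM Ψ v 1 ≤ 8 * ∑ i, TO (Ψ i) s := by
  have hfin : IsFiniteMeasure ((volume : Measure E3).restrict (A r)) := by
    refine ⟨?_⟩
    rw [Measure.restrict_apply_univ]
    refine lt_of_le_of_lt (measure_mono fun v hv => ?_) (measure_ball_lt_top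
      (μ := (volume : Measure E3)) (x := 0) (r := r + 1))
    rw [Metric.mem_ball, dist_zero_right]
    exact hv.2
  have key : ∀ (f : Cfg n k → ℝ) (_ : Integrable f) (_ : ∀ p, 0 ≤ f p) (g : Cfg n k → E3)
      (_ : Measurable g),
      IntegrableOn (fun v => ∫ p, (if ‖g p - v‖ < 1 then f p else 0)) (A r) ∧
      ∫ v in A r, (∫ p, (if ‖g p - v‖ < 1 then f p else 0)) ≤
        8 * ∫ p, (if s < ‖g p‖ then f p else 0) := by
    intro f hf hf0 g hg
    have h1 := si_T hf hg 1 (A r) hfin
    refine ⟨h1.integral_prod_left, ?_⟩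
    have h2 := integral_integral_swap
      (f := fun (v : E3) (p : Cfg n k) => if ‖g p - v‖ < 1 then f p else 0) h1
    rw [h2, ← integral_const_mul]
    have h3 : Integrable (fun p => if s < ‖g p‖ then f p else 0) := by
      have hm : MeasurableSet {p | s < ‖g p‖} := measurableSet_lt measurable_const hg.norm
      refine (hf.indicator hm).congr (Filter.Eventually.of_forall fun p => ?_)
      by_cases hp : s < ‖g p‖
      · have hp' : p ∈ {p | s < ‖g p‖} := hp
        simp only [Set.indicator_of_mem hp', if_pos hp]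
      · have hp' : p ∉ {p | s < ‖g p‖} := hp
        simp only [Set.indicator_of_notMem hp', if_neg hp]
    refine integral_mono h1.integral_prod_right (h3.const_mul 8) fun p => ?_
    simp only
    rw [si_ite]
    by_cases hp : s < ‖g p‖
    · rw [if_pos hp]
      refine mul_le_mul_of_nonneg_right ?_ (hf0 p)
      refine (measureReal_mono Set.inter_subset_left measure_ball_lt_top.ne).trans ?_
      rw [si_volc]
      exact si_vol.2
    · rw [if_neg hp, mul_zero]
      have h4 : Metric.ball (g p) 1 ∩ A r = ∅ := by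
        refine Set.eq_empty_of_forall_notMem fun v hv => hp ?_
        have h5 := hv.1
        rw [Metric.mem_ball, dist_eq_norm] at h5
        have h6 := hv.2.1
        have h7 := norm_sub_norm_le v (g p)
        linarith
      rw [h4]
      simp
  have kE := fun i σ (a : Fin n) => key (ge (Ψ i σ) a) (kE_int (hΨ i) σ a)
    (fun p => ge_nonneg _ _ _) (fun p => p.1 a) (meas_e a)
  have kN := fun i σ (a : Fin k) => key (gn (Ψ i σ) a) (kN_int (hΨ i) σ a)
    (fun p => gn_nonneg _ _ _) (fun p => p.2 a) (meas_n a)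
  unfold TM TE TN TO
  have hEN : ∀ i : ι, Integrable (fun v =>
      (∑ a, ∑ σ, ∫ p, (if ‖p.1 a - v‖ < 1 then ge (Ψ i σ) a p else 0)) +
      ∑ a, ∑ σ, ∫ p, (if ‖p.2 a - v‖ < 1 then gn (Ψ i σ) a p else 0))
      ((volume : Measure E3).restrict (A r)) := fun i => Integrable.add
    (integrable_finsetSum _ fun a _ => integrable_finsetSum _ fun σ _ => (kE i σ a).1)
    (integrable_finsetSum _ fun a _ => integrable_finsetSum _ fun σ _ => (kN i σ a).1)
  rw [integral_finsetSum _ fun i _ => hEN i, mul_sum]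
  refine sum_le_sum fun i _ => ?_
  have hE : Integrable (fun v => ∑ a, ∑ σ, ∫ p, (if ‖p.1 a - v‖ < 1 then ge (Ψ i σ) a p else 0))
      ((volume : Measure E3).restrict (A r)) :=
    integrable_finsetSum _ fun a _ => integrable_finsetSum _ fun σ _ => (kE i σ a).1
  have hN : Integrable (fun v => ∑ a, ∑ σ, ∫ p, (if ‖p.2 a - v‖ < 1 then gn (Ψ i σ) a p else 0))
      ((volume : Measure E3).restrict (A r)) :=
    integrable_finsetSum _ fun a _ => integrable_finsetSum _ fun σ _ => (kN i σ a).1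
  rw [integral_add hE hN, mul_add]
  refine add_le_add ?_ ?_
  · rw [integral_finsetSum _ fun a _ => integrable_finsetSum _ fun σ _ => (kE i σ a).1, mul_sum]
    refine sum_le_sum fun a _ => ?_
    rw [integral_finsetSum _ fun σ _ => (kE i σ a).1, mul_sum]
    exact sum_le_sum fun σ _ => (kE i σ a).2
  · rw [integral_finsetSum _ fun a _ => integrable_finsetSum _ fun σ _ => (kN i σ a).1, mul_sum]
    refine sum_le_sum fun a _ => ?_
    rw [integral_finsetSum _ fun σ _ => (kN i σ a).1, mul_sum]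
    exact sum_le_sum fun σ _ => (kN i σ a).2

end

end H6.CL
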