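import Pool.Agent.H6.CL.Eh3
import Pool.Agent.H6.CL.CnP
import Pool.Agent.H6.CB.P12
import Pool.Agent.H6.CB.LocB
import Pool.Agent.H6.CB.UhF
import Pool.Agent.H6.CB.FDefs

/-! The `3/2` moment of the relative potential at scale one (compare `Pool/Agent/H6/CB/Sm1.lean`). Let `u p = uh χ 1 W z p v`, `f₊ = e3 u`, `f₋ = e3 (-u)` (smooth, symmetric, `f ^ 2 ≤ 1 + 2 |u| ^ (1/2) ≤ M ^ 2` with `M ^ 2 ≤ C (1 + n)`, `uh_bd`). Apply `p1` with `s = 1` to `mf f₊ ψ` and `p2` to `mf f₋ ψ` and add: the left side is at least `(1/2) ⟨|u| ^ (3/2)⟩ - 1` (`e3_two`). The terms `energy - E * mass` are bounded by `locB`, `gm_e3`, `gm_uh`, `gm_neg`: by `2 M ^ 2 ε + C ⟨q4 1 p v + A⟩`, `M ^ 2 ε ≤ C`. `⟨f ^ 2⟩ ≤ 1 + 2 ⟨|u| ^ (1/2)⟩` and `⟨f₊ ^ 2 ce p v 2⟩ ≤ ⟨(1 + 2 |u| ^ (1/2)) ce⟩`, with Young `|u| ^ (1/2) y ≤ η |u| ^ (3/2) + C y ^ (3/2)`; absorb. -/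

open MeasureTheory Finset

namespace H6.CL

open H6.CM H6.CB

private theorem sm32_q4 {n k : ℕ} (s : ℝ) (hs : 0 < s) (v : E3) :
    Continuous (fun p : Cfg n k => q4 s p v) := by
  unfold q4
  have hmx : ∀ x : ℝ, (max s x) ^ 4 ≠ 0 := fun x =>
    pow_ne_zero _ (lt_of_lt_of_le hs (le_max_left _ _)).ne'
  refine Continuous.add ?_ ?_
  · refine continuous_finsetSum _ fun a _ => ?_
    refine Continuous.inv₀ ?_ fun p => hmx _
    exact (continuous_const.max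
      (((continuous_apply a).comp continuous_fst).sub continuous_const).norm).pow 4
  · refine continuous_finsetSum _ fun j _ => ?_
    refine Continuous.inv₀ ?_ fun p => hmx _
    exact (continuous_const.max
      (((continuous_apply j).comp continuous_snd).sub continuous_const).norm).pow 4

private theorem sm32_q4n {n k : ℕ} (s : ℝ) (hs : 0 < s) (p : Cfg n k) (v : E3) :
    0 ≤ q4 s p v := by
  unfold q4
  exact add_nonneg (sum_nonneg fun a _ => by positivity) (sum_nonneg fun a _ => by positivity)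

private theorem sm32_yng {t w ρ : ℝ} (ht : 0 ≤ t) (hw : 0 ≤ w) (hρ : 0 < ρ) :
    t * w ^ 2 ≤ ρ ^ 2 * t ^ 3 + ρ⁻¹ * w ^ 3 := by
  rcases le_total w (ρ * t) with h | h
  · have h1 : w ^ 2 ≤ (ρ * t) ^ 2 := pow_le_pow_left₀ hw h 2
    have h2 : t * w ^ 2 ≤ t * (ρ * t) ^ 2 := mul_le_mul_of_nonneg_left h1 ht
    have h3 : 0 ≤ ρ⁻¹ * w ^ 3 := by positivity
    calc t * w ^ 2 ≤ t * (ρ * t) ^ 2 := h2
      _ = ρ ^ 2 * t ^ 3 := by ring
      _ ≤ _ := by linarith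
  · have h1 : t ≤ ρ⁻¹ * w := by
      rw [inv_mul_eq_div, le_div_iff₀ hρ]
      linarith
    have h2 : t * w ^ 2 ≤ (ρ⁻¹ * w) * w ^ 2 := mul_le_mul_of_nonneg_right h1 (sq_nonneg w)
    have h3 : 0 ≤ ρ ^ 2 * t ^ 3 := by positivity
    calc t * w ^ 2 ≤ (ρ⁻¹ * w) * w ^ 2 := h2
      _ = ρ⁻¹ * w ^ 3 := by ring
      _ ≤ _ := by linarith

private theorem sm32_pt {K A x Gp Gm' F F' c q Cg ρ B : ℝ} (hK : 1 ≤ K) (hA : 0 ≤ A)
    (hx : 0 ≤ x) (hc : 0 ≤ c) (hCg : 0 ≤ Cg) (hq : 0 ≤ q)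
    (hρ : ρ = (4 * K * (4 * (1 + A) + 2))⁻¹)
    (hB : B = 4 * Cg * (1 + A) + (4 * (1 + A) + 2) * (1 + ρ⁻¹))
    (h1 : Gp ≤ Cg * (q + A)) (h2 : Gm' ≤ Cg * (q + A))
    (h3 : F ≤ 1 + 2 * x ^ (1 / 2 : ℝ)) (h4 : F' ≤ 1 + 2 * x ^ (1 / 2 : ℝ)) :
    2 * Gp + 2 * Gm' + (1 + A) * (F + F') + F * c ≤
      (4 * K)⁻¹ * x ^ (3 / 2 : ℝ) + B * (1 + c ^ (3 / 2 : ℝ) + q) := by
  obtain ⟨t, ht⟩ : ∃ t : ℝ, t = x ^ (1 / 2 : ℝ) := ⟨_, rfl⟩
  obtain ⟨w, hw⟩ : ∃ w : ℝ, w = c ^ (1 / 2 : ℝ) := ⟨_, rfl⟩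
  have ht0 : 0 ≤ t := by rw [ht]; positivity
  have hw0 : 0 ≤ w := by rw [hw]; positivity
  have hx3 : x ^ (3 / 2 : ℝ) = t ^ 3 := by
    rw [ht, ← Real.rpow_natCast, ← Real.rpow_mul hx]
    norm_num
  have hc3 : c ^ (3 / 2 : ℝ) = w ^ 3 := by
    rw [hw, ← Real.rpow_natCast, ← Real.rpow_mul hc]
    norm_num
  have hc1 : c = w ^ 2 := by
    rw [hw, ← Real.rpow_natCast, ← Real.rpow_mul hc]
    norm_num
  rw [← ht] at h3 h4
  rw [hx3, hc3, hc1]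
  have hA6 : (6 : ℝ) ≤ 4 * (1 + A) + 2 := by linarith
  have hD : 1 ≤ 4 * K * (4 * (1 + A) + 2) := by nlinarith
  have hρ0 : 0 < ρ := by
    rw [hρ]
    exact inv_pos.2 (by linarith)
  have hρ1 : ρ ≤ 1 := by
    rw [hρ]
    exact inv_le_one_of_one_le₀ hD
  have hρi : 0 < ρ⁻¹ := inv_pos.2 hρ0
  have hρ2 : (4 * (1 + A) + 2) * ρ ^ 2 ≤ (4 * K)⁻¹ := by
    have e1 : (4 * (1 + A) + 2) * ρ = (4 * K)⁻¹ := by
      rw [hρ]
      have hK0 : K ≠ 0 := by linarith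
      have hA0 : 4 * (1 + A) + 2 ≠ 0 := by linarith
      field_simp
    calc (4 * (1 + A) + 2) * ρ ^ 2 = ((4 * (1 + A) + 2) * ρ) * ρ := by ring
      _ ≤ ((4 * (1 + A) + 2) * ρ) * 1 :=
          mul_le_mul_of_nonneg_left hρ1 (by positivity)
      _ = (4 * K)⁻¹ := by rw [mul_one, e1]
  have y1 : t ≤ ρ ^ 2 * t ^ 3 + ρ⁻¹ := by
    have := sm32_yng ht0 zero_le_one hρ0
    simpa using this
  have y2 : t * w ^ 2 ≤ ρ ^ 2 * t ^ 3 + ρ⁻¹ * w ^ 3 := sm32_yng ht0 hw0 hρ0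
  have y3 : w ^ 2 ≤ 1 + w ^ 3 := by
    rcases le_total w 1 with h | h
    · have h5 : w ^ 2 ≤ 1 := pow_le_one₀ hw0 h
      have h6 : 0 ≤ w ^ 3 := by positivity
      linarith
    · nlinarith [sq_nonneg w]
  have hw2 : 0 ≤ w ^ 2 := sq_nonneg w
  have hw3 : 0 ≤ w ^ 3 := by positivity
  have ht3 : 0 ≤ t ^ 3 := by positivity
  have z1 : (1 + A) * (F + F') ≤ (1 + A) * (2 + 4 * t) :=
    mul_le_mul_of_nonneg_left (by linarith) (by linarith)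
  have z2 : F * w ^ 2 ≤ (1 + 2 * t) * w ^ 2 := mul_le_mul_of_nonneg_right h3 hw2
  have z3 : 4 * (1 + A) * t ≤ 4 * (1 + A) * (ρ ^ 2 * t ^ 3 + ρ⁻¹) :=
    mul_le_mul_of_nonneg_left y1 (by linarith)
  have z4 : (4 * (1 + A) + 2) * ρ ^ 2 * t ^ 3 ≤ (4 * K)⁻¹ * t ^ 3 :=
    mul_le_mul_of_nonneg_right hρ2 ht3
  have z5 : 2 * Gp + 2 * Gm' + (1 + A) * (F + F') + F * w ^ 2 ≤
      (4 * (1 + A) + 2) * ρ ^ 2 * t ^ 3 + (4 * (Cg * A) + 2 * (1 + A) + 1 + 4 * (1 + A) * ρ⁻¹) +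
        (1 + 2 * ρ⁻¹) * w ^ 3 + 4 * Cg * q := by
    linarith
  have hBA : 4 * (Cg * A) + 2 * (1 + A) + 1 + 4 * (1 + A) * ρ⁻¹ ≤ B := by
    rw [hB]
    have : 0 ≤ 2 * ρ⁻¹ := by positivity
    linarith
  have hBw : 1 + 2 * ρ⁻¹ ≤ B := by
    rw [hB]
    have e1 : 0 ≤ 4 * Cg * (1 + A) := by positivity
    have e2 : 0 ≤ A * ρ⁻¹ := by positivity
    linarith
  have hBq : 4 * Cg ≤ B := by
    rw [hB]
    have e1 : 0 ≤ 4 * Cg * A := by positivity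
    have e2 : 0 ≤ (4 * (1 + A) + 2) * (1 + ρ⁻¹) := by positivity
    linarith
  have w1 := mul_le_mul_of_nonneg_right hBw hw3
  have w2 := mul_le_mul_of_nonneg_right hBq hq
  linarith

theorem sm32 (q : ℕ) (zm zp κm κp A : ℝ) (hzm : 0 < zm) (hκm : 0 ≤ κm) (hA : 0 ≤ A)
    {χ : E3 → ℝ} (hχ : Bump χ) : ∃ C : ℝ, 0 ≤ C ∧
    ∀ (n k : ℕ) (Λ : Set E3) (z κ : Fin k → ℝ) (W : Finset E3) (E : ℝ)
    (ψ : (Fin n → Fin q) → Cfg n k → ℂ) (_ : Gd q zm zp κm κp A n k Λ z κ W E ψ)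
    (v : E3) (_ : Metric.closedBall v 2 ⊆ Λ),
    mean ψ (fun p => |uh χ 1 W z p v| ^ (3 / 2 : ℝ)) ≤
      C * (1 + mean ψ (fun p => ce p v 2 ^ (3 / 2 : ℝ)) + mean ψ (fun p => q4 1 p v)) := by
  obtain ⟨C1, hC1, hp1⟩ := p1 q zm zp κp hzm hχ
  obtain ⟨C2, hC2, hp2⟩ := p2 q zm zp κp hzm hχ
  obtain ⟨Cu, hCu, hub⟩ := uh_bd hχ
  obtain ⟨Cg, hCg, hgu⟩ := gm_uh hχ zp κp
  obtain ⟨K, hKdef⟩ : ∃ K, K = C1 + C2 + 1 := ⟨_, rfl⟩
  have hK : 1 ≤ K := by rw [hKdef]; linarith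
  obtain ⟨ρ, hρ⟩ : ∃ ρ : ℝ, ρ = (4 * K * (4 * (1 + A) + 2))⁻¹ := ⟨_, rfl⟩
  obtain ⟨B, hB⟩ : ∃ B : ℝ, B = 4 * Cg * (1 + A) + (4 * (1 + A) + 2) * (1 + ρ⁻¹) := ⟨_, rfl⟩
  have hρ0 : 0 ≤ ρ⁻¹ := by
    rw [hρ, inv_inv]
    positivity
  have hB0 : 0 ≤ B := by rw [hB]; positivity
  refine ⟨4 * (1 + 4 * K * (3 + 2 * Cu) + K * B), by positivity, ?_⟩
  intro n k Λ z κ W E ψ hG v hv
  have hz := hG.hz
  have hκ : ∀ j, 0 ≤ κ j ∧ κ j ≤ κp := fun j => ⟨hκm.trans (hG.hκ j).1, (hG.hκ j).2⟩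
  have hsum := hG.neu
  have hE := hG.lb
  have hψ := hG.st
  have hmass := hG.one
  have hW := hG.rf
  obtain ⟨ε, hεd⟩ : ∃ ε : ℝ, ε = (((n : ℝ) + k + 1) ^ 4)⁻¹ := ⟨_, rfl⟩
  have hen := hG.en
  rw [← hεd] at hen
  have hε : 0 ≤ ε := by rw [hεd]; positivity
  have hz0 : ∀ j, 0 ≤ z j := fun j => hzm.le.trans (hz j).1
  have hS := St_sm hψ
  obtain ⟨u, hu⟩ : ∃ u : Cfg n k → ℝ, u = fun p => uh χ 1 W z p v := ⟨_, rfl⟩
  have hus : ContDiff ℝ (⊤ : ℕ∞) u := by rw [hu]; exact uh_smooth hχ 1 one_pos W z v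
  have huc : Continuous u := hus.continuous
  have husy : Sy u := by rw [hu]; exact uh_sy 1 W z v
  have hun : ContDiff ℝ (⊤ : ℕ∞) (fun p => -u p) := hus.neg
  have hub1 : ∀ p, |u p| ≤ Cu * n := by
    intro p
    rw [hu]
    have := hub n k z hz0 hsum W 1 one_pos le_rfl p v
    simpa using this
  obtain ⟨f, hf⟩ : ∃ f : Cfg n k → ℝ, f = fun p => e3 (u p) := ⟨_, rfl⟩
  obtain ⟨f', hf'⟩ : ∃ f : Cfg n k → ℝ, f = fun p => e3 (-u p) := ⟨_, rfl⟩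
  have hfs : ContDiff ℝ (⊤ : ℕ∞) f := by rw [hf]; exact e3_smooth.comp hus
  have hfs' : ContDiff ℝ (⊤ : ℕ∞) f' := by rw [hf']; exact e3_smooth.comp hun
  have hfsy : Sy f := by
    rw [hf]
    intro π p
    show e3 (u (p.1 ∘ π, p.2)) = e3 (u p)
    rw [husy π p]
  have hfsy' : Sy f' := by
    rw [hf']
    intro π p
    show e3 (-u (p.1 ∘ π, p.2)) = e3 (-u p)
    rw [husy π p]
  have hfsq : ∀ p, f p ^ 2 ≤ 1 + 2 * |u p| ^ (1 / 2 : ℝ) := by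
    intro p
    rw [hf]
    exact e3_le _
  have hfsq' : ∀ p, f' p ^ 2 ≤ 1 + 2 * |u p| ^ (1 / 2 : ℝ) := by
    intro p
    rw [hf']
    have := e3_le (-u p)
    rwa [abs_neg] at this
  obtain ⟨M2, hM2⟩ : ∃ M2 : ℝ, M2 = 3 + 2 * (Cu * n) := ⟨_, rfl⟩
  have hM2pos : 0 < M2 := by rw [hM2]; positivity
  have hfM : ∀ p, 1 + 2 * |u p| ^ (1 / 2 : ℝ) ≤ M2 := by
    intro p
    have h1 : |u p| ^ (1 / 2 : ℝ) ≤ 1 + |u p| := by
      rw [← Real.sqrt_eq_rpow]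
      have h2 := abs_nonneg (u p)
      rw [Real.sqrt_le_left (by linarith)]
      nlinarith
    rw [hM2]
    have := hub1 p
    linarith
  have hsq : Real.sqrt M2 ^ 2 = M2 := Real.sq_sqrt hM2pos.le
  have hMpos : 0 < Real.sqrt M2 := Real.sqrt_pos.2 hM2pos
  have hen' : energy z κ ψ ≤ E * mass ψ + ε := by rw [hmass, mul_one]; exact hen
  have hloc : ∀ F : Cfg n k → ℝ, ContDiff ℝ (⊤ : ℕ∞) F → Sy F → (∀ p, F p ^ 2 ≤ M2) →
      energy z κ (mf F ψ) - E * mass (mf F ψ) ≤ 2 * M2 * ε + 2 * mean ψ (Gm κ F) := by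
    intro F hF hFs hFM
    have h1 := locB (fun j => (hκ j).1) hE hψ hen' (ι := Unit) (fun _ => F) (fun _ => hF) (by
      intro π p
      show ∑ _i : Unit, F (p.1 ∘ π, p.2) ^ 2 = ∑ _i : Unit, F p ^ 2
      rw [hFs π p]) (Real.sqrt M2) hMpos (by
      intro p
      rw [hsq]
      simpa using hFM p)
    rw [hsq] at h1
    simpa using h1
  have hD : ∀ F : Cfg n k → ℝ, ContDiff ℝ (⊤ : ℕ∞) F → Sy F →
      0 ≤ energy z κ (mf F ψ) - E * mass (mf F ψ) := by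
    intro F hF hFs
    have := hE _ (mf_st hψ hF hFs)
    linarith
  have hDf := hD f hfs hfsy
  have hDf' := hD f' hfs' hfsy'
  have hLf := hloc f hfs hfsy (fun p => (hfsq p).trans (hfM p))
  have hLf' := hloc f' hfs' hfsy' (fun p => (hfsq' p).trans (hfM p))
  have s1 := hp1 n k Λ z κ hz hκ hsum E hE (mf f ψ) (mf_st hψ hfs hfsy) A hA W (Rf_mf hW f) 1
    one_pos le_rfl v hv
  have s2 := hp2 n k Λ z κ hz hκ hsum E hE (mf f' ψ) (mf_st hψ hfs' hfsy') A hA W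
    (Rf_mf hW f') 1 one_pos le_rfl v hv
  rw [mean_mf, mass_mf, mean_mf] at s1
  rw [mean_mf, mass_mf] at s2
  rw [mass_mf] at hDf hDf' hLf hLf'
  have hu' : ∀ p, uh χ 1 W z p v = u p := fun p => by rw [hu]
  simp only [hu', one_pow, inv_one, mul_one, one_mul] at s1 s2 ⊢
  have hfc : Continuous f := hfs.continuous
  have hfc' : Continuous f' := hfs'.continuous
  -- integrability
  have i1 : IM ψ (fun p => f p ^ 2 * u p) := IM.cont hS ((hfc.pow 2).mul huc)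
  have i2 : IM ψ (fun p => f' p ^ 2 * u p) := IM.cont hS ((hfc'.pow 2).mul huc)
  have i3 : IM ψ (fun p => f p ^ 2) := IM.cont hS (hfc.pow 2)
  have i4 : IM ψ (fun p => f' p ^ 2) := IM.cont hS (hfc'.pow 2)
  have hcem : ∀ p : Cfg n k, |ce p v 2| ≤ n := fun p => by
    rw [abs_of_nonneg (ce_nonneg p v _)]
    exact ce_le p v _
  have i5 : IM ψ (fun p => f p ^ 2 * ce p v 2) := by
    have := i3.bmul (ce_meas v 2) n hcem
    exact this.congr fun _ p _ => by ring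
  have i6 : IM ψ (Gm κ f) := IM.cont hS (Gm_cont κ hfs)
  have i7 : IM ψ (Gm κ f') := IM.cont hS (Gm_cont κ hfs')
  have i8 : IM ψ (fun _ => (1 : ℝ)) := IM.cont hS continuous_const
  have i9 : IM ψ (fun p => |u p| ^ (3 / 2 : ℝ)) := by
    have := IM_uht hχ hS 1 one_pos W z v (3 / 2) (by norm_num)
    simpa only [hu'] using this
  have i10 : IM ψ (fun p => ce p v 2 ^ (3 / 2 : ℝ)) := IM_cet hS v 2 _ (by norm_num)
  have i11 : IM ψ (fun p => q4 1 p v) := IM.cont hS (sm32_q4 1 one_pos v)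
  -- the left side
  have hleft : (1 / 2) * mean ψ (fun p => |u p| ^ (3 / 2 : ℝ)) - 1 ≤
      mean ψ (fun p => f p ^ 2 * u p) - mean ψ (fun p => f' p ^ 2 * u p) := by
    have e1 : (1 : ℝ) = mean ψ (fun _ => 1) := by rw [mean_one, hmass]
    have e2 : (1 / 2) * mean ψ (fun p => |u p| ^ (3 / 2 : ℝ)) - 1 =
        mean ψ (fun p => (1 / 2) * |u p| ^ (3 / 2 : ℝ) - 1) := by
      rw [mean_sub (i9.cmul _) i8, mean_cmul, mean_one, hmass]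
    rw [e2, ← mean_sub i1 i2]
    refine mean_mono ((i9.cmul _).sub i8) (i1.sub i2) fun _ p _ => ?_
    have h1 := e3_two (u p)
    rw [hf, hf']
    simp only
    linarith
  -- the right side
  have hright : 2 * mean ψ (Gm κ f) + 2 * mean ψ (Gm κ f') +
      (1 + A) * (mean ψ (fun p => f p ^ 2) + mean ψ (fun p => f' p ^ 2)) +
      mean ψ (fun p => f p ^ 2 * ce p v 2) ≤
      (4 * K)⁻¹ * mean ψ (fun p => |u p| ^ (3 / 2 : ℝ)) +
      B * (1 + mean ψ (fun p => ce p v 2 ^ (3 / 2 : ℝ)) + mean ψ (fun p => q4 1 p v)) := by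
    have e1 : 2 * mean ψ (Gm κ f) + 2 * mean ψ (Gm κ f') +
      (1 + A) * (mean ψ (fun p => f p ^ 2) + mean ψ (fun p => f' p ^ 2)) +
      mean ψ (fun p => f p ^ 2 * ce p v 2) =
      mean ψ (fun p => 2 * Gm κ f p + 2 * Gm κ f' p + (1 + A) * (f p ^ 2 + f' p ^ 2) +
        f p ^ 2 * ce p v 2) := by
      rw [mean_add (((i6.cmul 2).add (i7.cmul 2)).add ((i3.add i4).cmul _)) i5,
        mean_add ((i6.cmul 2).add (i7.cmul 2)) ((i3.add i4).cmul _),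
        mean_add (i6.cmul 2) (i7.cmul 2), mean_cmul, mean_cmul, mean_cmul, mean_add i3 i4]
    have e2 : (4 * K)⁻¹ * mean ψ (fun p => |u p| ^ (3 / 2 : ℝ)) +
      B * (1 + mean ψ (fun p => ce p v 2 ^ (3 / 2 : ℝ)) + mean ψ (fun p => q4 1 p v)) =
      mean ψ (fun p => (4 * K)⁻¹ * |u p| ^ (3 / 2 : ℝ) +
        B * (1 + ce p v 2 ^ (3 / 2 : ℝ) + q4 1 p v)) := by
      rw [mean_add (i9.cmul _) (((i8.add i10).add i11).cmul _), mean_cmul, mean_cmul,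
        mean_add (i8.add i10) i11, mean_add i8 i10, mean_one, hmass]
    rw [e1, e2]
    refine mean_mono ((((i6.cmul 2).add (i7.cmul 2)).add ((i3.add i4).cmul _)).add i5)
      ((i9.cmul _).add (((i8.add i10).add i11).cmul _)) fun σ p hp => ?_
    have hG' := hgu n k z κ (fun j => ⟨hz0 j, (hz j).2⟩) hκ W hW.ne 1 one_pos le_rfl v A p
      (hW.bd σ p hp)
    have h3 : Gm κ u p ≤ Cg * (q4 1 p v + A) := by rw [hu]; exact hG'
    have h1 := (gm_e3 (fun j => (hκ j).1) u hus p).trans h3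
    have h2 := gm_e3 (fun j => (hκ j).1) (fun p => -u p) hun p
    rw [gm_neg] at h2
    have h2' := h2.trans h3
    have hf1 := hfsq p
    have hf2 := hfsq' p
    rw [hf] at hf1
    rw [hf'] at hf2
    have h4 := sm32_pt hK hA (abs_nonneg (u p)) (ce_nonneg p v 2) hCg
      (sm32_q4n 1 one_pos p v) hρ hB h1 h2' hf1 hf2
    rw [hf, hf']
    exact h4
  -- assembly
  have m3 : 0 ≤ mean ψ (fun p => f p ^ 2) := mean_nonneg fun _ p _ => sq_nonneg _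
  have m4 : 0 ≤ mean ψ (fun p => f' p ^ 2) := mean_nonneg fun _ p _ => sq_nonneg _
  have m5 : 0 ≤ mean ψ (fun p => f p ^ 2 * ce p v 2) :=
    mean_nonneg fun _ p _ => mul_nonneg (sq_nonneg _) (ce_nonneg p v _)
  have m6 : 0 ≤ mean ψ (fun p => ce p v 2 ^ (3 / 2 : ℝ)) :=
    mean_nonneg fun _ p _ => Real.rpow_nonneg (ce_nonneg p v _) _
  have m7 : 0 ≤ mean ψ (fun p => q4 1 p v) := mean_nonneg fun _ p _ => sm32_q4n 1 one_pos p v
  have hM2ε : M2 * ε ≤ 3 + 2 * Cu := by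
    have h1 : ((n : ℝ) + 1) * ε ≤ 1 := by
      rw [hεd, ← div_eq_mul_inv, div_le_one (by positivity)]
      have h2 : (1 : ℝ) ≤ (n : ℝ) + k + 1 := by
        have h3 : (0 : ℝ) ≤ n := Nat.cast_nonneg n
        have h4 : (0 : ℝ) ≤ k := Nat.cast_nonneg k
        linarith
      have h3 : (n : ℝ) + 1 ≤ (n : ℝ) + k + 1 := by
        have h4 : (0 : ℝ) ≤ k := Nat.cast_nonneg k
        linarith
      exact h3.trans (le_self_pow₀ h2 (by norm_num))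
    have h2 : M2 ≤ (3 + 2 * Cu) * ((n : ℝ) + 1) := by
      rw [hM2]
      have h3 : (0 : ℝ) ≤ n := Nat.cast_nonneg n
      nlinarith
    calc M2 * ε ≤ ((3 + 2 * Cu) * ((n : ℝ) + 1)) * ε := mul_le_mul_of_nonneg_right h2 hε
      _ = (3 + 2 * Cu) * (((n : ℝ) + 1) * ε) := by ring
      _ ≤ (3 + 2 * Cu) * 1 := mul_le_mul_of_nonneg_left h1 (by positivity)
      _ = _ := mul_one _
  generalize mean ψ (fun p => f p ^ 2 * u p) = x1 at *
  generalize mean ψ (fun p => f' p ^ 2 * u p) = x2 at *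
  generalize mean ψ (fun p => f p ^ 2) = y1 at *
  generalize mean ψ (fun p => f' p ^ 2) = y2 at *
  generalize mean ψ (fun p => f p ^ 2 * ce p v 2) = c5 at *
  generalize mean ψ (fun p => ce p v 2 ^ (3 / 2 : ℝ)) = c6 at *
  generalize mean ψ (fun p => q4 1 p v) = c7 at *
  generalize mean ψ (fun p => |u p| ^ (3 / 2 : ℝ)) = I at *
  generalize mean ψ (Gm κ f) = g1 at *
  generalize mean ψ (Gm κ f') = g2 at *
  generalize energy z κ (mf f ψ) - E * y1 = D1 at *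
  generalize energy z κ (mf f' ψ) - E * y2 = D2 at *
  have hAy1 : 0 ≤ (1 + A) * y1 := mul_nonneg (by linarith) m3
  have hAy2 : 0 ≤ (1 + A) * y2 := mul_nonneg (by linarith) m4
  have r1 : x1 ≤ K * (D1 + (1 + A) * y1 + c5) :=
    s1.trans (mul_le_mul_of_nonneg_right (by rw [hKdef]; linarith) (by linarith))
  have r2 : -x2 ≤ K * (D2 + (1 + A) * y2) :=
    s2.trans (mul_le_mul_of_nonneg_right (by rw [hKdef]; linarith) (by linarith))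
  have r3 : (1 / 2) * I - 1 ≤ K * (4 * (M2 * ε) + ((4 * K)⁻¹ * I + B * (1 + c6 + c7))) := by
    refine hleft.trans ?_
    have h1 : x1 - x2 ≤ K * (D1 + D2 + (1 + A) * (y1 + y2) + c5) := by linarith
    refine h1.trans (mul_le_mul_of_nonneg_left ?_ (by linarith))
    linarith
  have hK0 : K ≠ 0 := by linarith
  have r4 : K * (4 * (M2 * ε) + ((4 * K)⁻¹ * I + B * (1 + c6 + c7))) =
      4 * K * (M2 * ε) + (1 / 4) * I + K * B * (1 + c6 + c7) := by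
    field_simp
    ring
  rw [r4] at r3
  have r5 : 4 * K * (M2 * ε) ≤ 4 * K * (3 + 2 * Cu) :=
    mul_le_mul_of_nonneg_left hM2ε (by linarith)
  have r6 : 1 + 4 * K * (3 + 2 * Cu) ≤ (1 + 4 * K * (3 + 2 * Cu)) * (1 + c6 + c7) :=
    le_mul_of_one_le_right (by positivity) (by linarith)
  linarith

end H6.CL
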