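import Pool.Agent.H6.CL.Defs

/-! The cutoff of the boundary layer: `JL R v = g (‖v‖)` with `g t = Real.smoothTransition (t - (R - 41))`, `R ≥ 100`. It vanishes for `‖v‖ ≤ R - 41` (in particular near the origin, so it is smooth), is `1` for `R - 40 ≤ ‖v‖`; `pd d (JL R) v = g' (‖v‖) v_d / ‖v‖`, `gr (JL R) v = g' (‖v‖) ^ 2`, `lap (JL R) v = g'' (‖v‖) + 2 g' (‖v‖) / ‖v‖`; the first two derivatives of `Real.smoothTransition` are continuous and vanish outside `[0, 1]`, hence bounded. `lip`: the mean value theorem. -/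

open MeasureTheory Finset

namespace H6.CL

open H6.CM H6.CB

private noncomputable def s1 : ℝ → ℝ := deriv Real.smoothTransition

private noncomputable def s2 : ℝ → ℝ := deriv s1

private theorem jl_cd : ContDiff ℝ (⊤ : ℕ∞) Real.smoothTransition :=
  Real.smoothTransition.contDiff

private theorem jl_cd1 : ContDiff ℝ (⊤ : ℕ∞) s1 :=
  (contDiff_infty_iff_deriv.1 jl_cd).2

private theorem jl_cd2 : ContDiff ℝ (⊤ : ℕ∞) s2 :=
  (contDiff_infty_iff_deriv.1 jl_cd1).2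

private theorem jl_d1 (t : ℝ) : HasDerivAt Real.smoothTransition (s1 t) t :=
  ((contDiff_infty_iff_deriv.1 jl_cd).1 t).hasDerivAt

private theorem jl_d2 (t : ℝ) : HasDerivAt s1 (s2 t) t :=
  ((contDiff_infty_iff_deriv.1 jl_cd1).1 t).hasDerivAt

private theorem jl_z1 (t : ℝ) (ht : t < 0 ∨ 1 < t) : s1 t = 0 := by
  rcases ht with ht | ht
  · have h1 : Real.smoothTransition =ᶠ[nhds t] fun _ => 0 := by
      filter_upwards [Iio_mem_nhds ht] with u hu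
      exact Real.smoothTransition.zero_of_nonpos (le_of_lt hu)
    have h2 := h1.deriv_eq
    rw [deriv_const] at h2
    exact h2
  · have h1 : Real.smoothTransition =ᶠ[nhds t] fun _ => 1 := by
      filter_upwards [Ioi_mem_nhds ht] with u hu
      exact Real.smoothTransition.one_of_one_le (le_of_lt hu)
    have h2 := h1.deriv_eq
    rw [deriv_const] at h2
    exact h2

private theorem jl_z2 (t : ℝ) (ht : t < 0 ∨ 1 < t) : s2 t = 0 := by
  have h1 : s1 =ᶠ[nhds t] fun _ => 0 := by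
    rcases ht with ht | ht
    · filter_upwards [Iio_mem_nhds ht] with u hu
      exact jl_z1 u (Or.inl hu)
    · filter_upwards [Ioi_mem_nhds ht] with u hu
      exact jl_z1 u (Or.inr hu)
  have h2 := h1.deriv_eq
  rw [deriv_const] at h2
  exact h2

private theorem jl_bd (f : ℝ → ℝ) (hf : Continuous f) (h0 : ∀ t, t < 0 ∨ 1 < t → f t = 0) :
    ∃ B : ℝ, 0 ≤ B ∧ ∀ t, |f t| ≤ B := by
  obtain ⟨C, hC⟩ := (isCompact_Icc (a := (0 : ℝ)) (b := 1)).exists_bound_of_continuousOn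
    hf.continuousOn
  refine ⟨max C 0, le_max_right _ _, fun t => ?_⟩
  by_cases ht : t ∈ Set.Icc (0 : ℝ) 1
  · exact (hC t ht).trans (le_max_left _ _)
  · rw [Set.mem_Icc, not_and_or, not_le, not_le] at ht
    rw [h0 t ht, abs_zero]
    exact le_max_right _ _

private theorem jl_norm (v : E3) (hv : v ≠ 0) : ∃ N : E3 →L[ℝ] ℝ,
    HasFDerivAt (fun w : E3 => ‖w‖) N v ∧
    ∀ d : Fin 3, N (EuclideanSpace.single d 1) = v d * ‖v‖⁻¹ := by
  have hv0 : 0 < ‖v‖ := norm_pos_iff.2 hv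
  have h1 : HasFDerivAt (fun w : E3 => ‖w‖ ^ 2) (2 • (innerSL ℝ v)) v :=
    (hasStrictFDerivAt_norm_sq v).hasFDerivAt
  have h2 := h1.sqrt (by positivity)
  have h3 : (fun w : E3 => Real.sqrt (‖w‖ ^ 2)) = fun w : E3 => ‖w‖ := by
    funext w
    exact Real.sqrt_sq (norm_nonneg w)
  rw [h3] at h2
  refine ⟨_, h2, fun d => ?_⟩
  rw [Real.sqrt_sq hv0.le]
  simp
  field_simp
  rw [EuclideanSpace.inner_single_right]
  simp

private theorem jl_pd (c : ℝ) (v : E3) (hv : v ≠ 0) (d : Fin 3) :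
    pd d (fun w : E3 => Real.smoothTransition (‖w‖ - c)) v =
      s1 (‖v‖ - c) * (v d * ‖v‖⁻¹) := by
  obtain ⟨N, hN, hNd⟩ := jl_norm v hv
  have h1 : HasFDerivAt (fun w : E3 => Real.smoothTransition (‖w‖ - c)) (s1 (‖v‖ - c) • N) v :=
    HasDerivAt.comp_hasFDerivAt (f := fun w : E3 => ‖w‖ - c) v (jl_d1 (‖v‖ - c)) (hN.sub_const c)
  unfold pd
  rw [h1.fderiv, smul_apply, hNd, smul_eq_mul]

private theorem jl_pd2 (c : ℝ) (v : E3) (hv : v ≠ 0) (d : Fin 3) :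
    pd d (pd d (fun w : E3 => Real.smoothTransition (‖w‖ - c))) v =
      s2 (‖v‖ - c) * (v d * ‖v‖⁻¹) ^ 2 +
        s1 (‖v‖ - c) * (‖v‖⁻¹ - (v d) ^ 2 * ‖v‖⁻¹ ^ 3) := by
  obtain ⟨N, hN, hNd⟩ := jl_norm v hv
  have hv0 : ‖v‖ ≠ 0 := (norm_pos_iff.2 hv).ne'
  have h1 : HasFDerivAt (fun w : E3 => s1 (‖w‖ - c)) (s2 (‖v‖ - c) • N) v :=
    HasDerivAt.comp_hasFDerivAt (f := fun w : E3 => ‖w‖ - c) v (jl_d2 (‖v‖ - c)) (hN.sub_const c)
  have h2 : HasFDerivAt (fun w : E3 => w d) (EuclideanSpace.proj d : E3 →L[ℝ] ℝ) v :=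
    (EuclideanSpace.proj d : E3 →L[ℝ] ℝ).hasFDerivAt
  have h3 : HasFDerivAt (fun w : E3 => ‖w‖⁻¹) ((-(‖v‖ ^ 2)⁻¹) • N) v :=
    (hasDerivAt_inv hv0).comp_hasFDerivAt v hN
  have h4 := h1.mul (h2.mul h3)
  have h5 : pd d (fun w : E3 => Real.smoothTransition (‖w‖ - c)) =ᶠ[nhds v]
      fun w => s1 (‖w‖ - c) * (w d * ‖w‖⁻¹) := by
    filter_upwards [isOpen_ne.mem_nhds hv] with w hw
    exact jl_pd c w hw d
  unfold pd at h5 ⊢
  rw [h5.fderiv_eq]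
  have h6 : (fun w : E3 => s1 (‖w‖ - c) * (w d * ‖w‖⁻¹)) =
      (fun w : E3 => s1 (‖w‖ - c)) * ((fun w : E3 => w d) * fun w : E3 => ‖w‖⁻¹) := rfl
  rw [h6, h4.fderiv]
  simp [hNd]
  field_simp
  ring

private theorem jl_gr (c : ℝ) (v : E3) (hv : v ≠ 0) :
    gr (fun w : E3 => Real.smoothTransition (‖w‖ - c)) v = s1 (‖v‖ - c) ^ 2 := by
  have hv0 : ‖v‖ ≠ 0 := (norm_pos_iff.2 hv).ne'
  have h1 : gr (fun w : E3 => Real.smoothTransition (‖w‖ - c)) v =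
      ∑ d : Fin 3, (pd d (fun w : E3 => Real.smoothTransition (‖w‖ - c)) v) ^ 2 := rfl
  have h2 := EuclideanSpace.real_norm_sq_eq v
  rw [Fin.sum_univ_three] at h2
  rw [h1, Fin.sum_univ_three, jl_pd c v hv, jl_pd c v hv, jl_pd c v hv]
  have h3 : (s1 (‖v‖ - c) * (v 0 * ‖v‖⁻¹)) ^ 2 + (s1 (‖v‖ - c) * (v 1 * ‖v‖⁻¹)) ^ 2 +
      (s1 (‖v‖ - c) * (v 2 * ‖v‖⁻¹)) ^ 2 =
      s1 (‖v‖ - c) ^ 2 * ((v 0 ^ 2 + v 1 ^ 2 + v 2 ^ 2) * ‖v‖⁻¹ ^ 2) := by ring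
  rw [h3, ← h2]
  field_simp

private theorem jl_lap (c : ℝ) (v : E3) (hv : v ≠ 0) :
    lap (fun w : E3 => Real.smoothTransition (‖w‖ - c)) v =
      s2 (‖v‖ - c) + 2 * s1 (‖v‖ - c) * ‖v‖⁻¹ := by
  have hv0 : ‖v‖ ≠ 0 := (norm_pos_iff.2 hv).ne'
  have h2 := EuclideanSpace.real_norm_sq_eq v
  rw [Fin.sum_univ_three] at h2
  unfold lap
  rw [Fin.sum_univ_three, jl_pd2 c v hv, jl_pd2 c v hv, jl_pd2 c v hv]
  have h3 : s2 (‖v‖ - c) * (v 0 * ‖v‖⁻¹) ^ 2 + s1 (‖v‖ - c) * (‖v‖⁻¹ - (v 0) ^ 2 * ‖v‖⁻¹ ^ 3) +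
      (s2 (‖v‖ - c) * (v 1 * ‖v‖⁻¹) ^ 2 + s1 (‖v‖ - c) * (‖v‖⁻¹ - (v 1) ^ 2 * ‖v‖⁻¹ ^ 3)) +
      (s2 (‖v‖ - c) * (v 2 * ‖v‖⁻¹) ^ 2 + s1 (‖v‖ - c) * (‖v‖⁻¹ - (v 2) ^ 2 * ‖v‖⁻¹ ^ 3)) =
      s2 (‖v‖ - c) * ((v 0 ^ 2 + v 1 ^ 2 + v 2 ^ 2) * ‖v‖⁻¹ ^ 2) +
      s1 (‖v‖ - c) * (3 * ‖v‖⁻¹ - (v 0 ^ 2 + v 1 ^ 2 + v 2 ^ 2) * ‖v‖⁻¹ ^ 3) := by ring
  rw [h3, ← h2]
  field_simp
  ring

private theorem jl_zero (c : ℝ) (hc : 0 < c) :
    gr (fun w : E3 => Real.smoothTransition (‖w‖ - c)) 0 = 0 ∧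
    lap (fun w : E3 => Real.smoothTransition (‖w‖ - c)) 0 = 0 := by
  have h1 : (fun w : E3 => Real.smoothTransition (‖w‖ - c)) =ᶠ[nhds 0] fun _ => 0 := by
    filter_upwards [Metric.ball_mem_nhds (0 : E3) hc] with w hw
    rw [Metric.mem_ball, dist_zero_right] at hw
    exact Real.smoothTransition.zero_of_nonpos (by linarith)
  have h2 : fderiv ℝ (fun w : E3 => Real.smoothTransition (‖w‖ - c)) =ᶠ[nhds 0] fun _ => 0 := by
    have h5 := h1.fderiv (𝕜 := ℝ)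
    refine h5.trans (Filter.Eventually.of_forall fun w => ?_)
    simp
  have h3 : ∀ d : Fin 3, pd d (fun w : E3 => Real.smoothTransition (‖w‖ - c)) =ᶠ[nhds 0]
      fun _ => 0 := by
    intro d
    filter_upwards [h2] with w hw
    unfold pd
    rw [hw]
    rfl
  constructor
  · unfold gr
    rw [h2.self_of_nhds]
    simp
  · unfold lap
    refine Finset.sum_eq_zero fun d _ => ?_
    unfold pd
    have h4 := (h3 d).fderiv_eq (𝕜 := ℝ)
    unfold pd at h4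
    rw [h4]
    simp

theorem JL_lay : ∃ L : ℝ, 0 ≤ L ∧ ∀ R : ℝ, 100 ≤ R → Lay L (JL R) ∧
    (∀ v, ‖v‖ ≤ R - 41 → JL R v = 0) ∧ (∀ v, R - 40 ≤ ‖v‖ → JL R v = 1) ∧
    (∀ v, gr (JL R) v ≠ 0 ∨ lap (JL R) v ≠ 0 → R - 41 ≤ ‖v‖ ∧ ‖v‖ ≤ R - 40) ∧
    ∀ u v, |JL R u - JL R v| ≤ L * ‖u - v‖ := by
  obtain ⟨B1, hB1, h1⟩ := jl_bd s1 jl_cd1.continuous jl_z1
  obtain ⟨B2, hB2, h2⟩ := jl_bd s2 jl_cd2.continuous jl_z2
  refine ⟨B1 ^ 2 + B2 + 2 * B1, by positivity, fun R hR => ?_⟩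
  have hJ : JL R = fun w : E3 => Real.smoothTransition (‖w‖ - (R - 41)) := rfl
  have hz : ∀ v : E3, ‖v‖ ≤ R - 41 → JL R v = 0 := fun v hv =>
    Real.smoothTransition.zero_of_nonpos (by linarith)
  have ho : ∀ v : E3, R - 40 ≤ ‖v‖ → JL R v = 1 := fun v hv =>
    Real.smoothTransition.one_of_one_le (by linarith)
  have hgr : ∀ v, gr (JL R) v ≤ B1 ^ 2 ∧ (gr (JL R) v ≠ 0 → R - 41 ≤ ‖v‖ ∧ ‖v‖ ≤ R - 40) := by
    intro v
    by_cases hv : v = 0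
    · subst hv
      rw [hJ, (jl_zero (R - 41) (by linarith)).1]
      exact ⟨by positivity, fun h0 => absurd rfl h0⟩
    · rw [hJ, jl_gr (R - 41) v hv]
      refine ⟨sq_le_sq' (abs_le.1 (h1 _)).1 (abs_le.1 (h1 _)).2, fun h0 => ?_⟩
      by_contra hne
      apply h0
      rw [not_and_or, not_le, not_le] at hne
      rw [jl_z1 _ (hne.imp (fun h => by linarith) (fun h => by linarith))]
      norm_num
  have hlap : ∀ v, |lap (JL R) v| ≤ B2 + 2 * B1 ∧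
      (lap (JL R) v ≠ 0 → R - 41 ≤ ‖v‖ ∧ ‖v‖ ≤ R - 40) := by
    intro v
    by_cases hv : v = 0
    · subst hv
      rw [hJ, (jl_zero (R - 41) (by linarith)).2, abs_zero]
      exact ⟨by positivity, fun h0 => absurd rfl h0⟩
    · rw [hJ, jl_lap (R - 41) v hv]
      by_cases hm : ‖v‖ < R - 41 ∨ R - 40 < ‖v‖
      · have hm' : ‖v‖ - (R - 41) < 0 ∨ 1 < ‖v‖ - (R - 41) :=
          hm.imp (fun h => by linarith) (fun h => by linarith)
        rw [jl_z1 _ hm', jl_z2 _ hm']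
        simp only [mul_zero, zero_mul, add_zero, abs_zero]
        exact ⟨by positivity, fun h0 => absurd rfl h0⟩
      · rw [not_or, not_lt, not_lt] at hm
        refine ⟨?_, fun _ => hm⟩
        have hv1 : 1 ≤ ‖v‖ := by linarith [hm.1]
        have hv2 : ‖v‖⁻¹ ≤ 1 := inv_le_one_of_one_le₀ hv1
        have hv3 : 0 ≤ ‖v‖⁻¹ := by positivity
        refine (abs_add_le _ _).trans (add_le_add (h2 _) ?_)
        rw [abs_mul, abs_mul, abs_of_nonneg hv3, abs_of_nonneg (by norm_num : (0 : ℝ) ≤ 2)]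
        have h3 := h1 (‖v‖ - (R - 41))
        have h4 : 0 ≤ |s1 (‖v‖ - (R - 41))| := abs_nonneg _
        nlinarith
  refine ⟨⟨?_, ?_, ?_, ?_, ?_⟩, hz, ho, ?_, ?_⟩
  · rw [contDiff_iff_contDiffAt]
    intro v
    by_cases hv : v = 0
    · subst hv
      refine (contDiffAt_const (c := (0 : ℝ))).congr_of_eventuallyEq ?_
      filter_upwards [Metric.ball_mem_nhds (0 : E3) (by linarith : (0 : ℝ) < R - 41)] with w hw
      rw [Metric.mem_ball, dist_zero_right] at hw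
      exact hz w hw.le
    · rw [hJ]
      exact jl_cd.contDiffAt.comp v (((contDiffAt_norm ℝ hv)).sub contDiffAt_const)
  · refine HasCompactSupport.intro (isCompact_closedBall (0 : E3) (R - 40)) fun v hv => ?_
    rw [mem_closedBall_zero_iff, not_le] at hv
    rw [ho v hv.le, sub_self]
  · intro v
    exact ⟨Real.smoothTransition.nonneg _, Real.smoothTransition.le_one _⟩
  · intro v
    have := (hgr v).1
    linarith
  · intro v
    have h3 := (hlap v).1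
    have h4 : 0 ≤ B1 ^ 2 := by positivity
    linarith
  · rintro v (h | h)
    · exact (hgr v).2 h
    · exact (hlap v).2 h
  · intro u v
    have h3 : |JL R u - JL R v| ≤ B1 * |(‖u‖ - (R - 41)) - (‖v‖ - (R - 41))| := by
      have h4 := Convex.norm_image_sub_le_of_norm_hasDerivWithin_le (f := Real.smoothTransition)
        (f' := s1) (s := Set.univ) (C := B1) (fun t _ => (jl_d1 t).hasDerivWithinAt)
        (fun t _ => h1 t) convex_univ (Set.mem_univ (‖v‖ - (R - 41)))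
        (Set.mem_univ (‖u‖ - (R - 41)))
      exact h4
    have h5 : (‖u‖ - (R - 41)) - (‖v‖ - (R - 41)) = ‖u‖ - ‖v‖ := by ring
    rw [h5] at h3
    have h6 := abs_norm_sub_norm_le u v
    have h7 : 0 ≤ ‖u - v‖ := norm_nonneg _
    have h8 : B1 * |‖u‖ - ‖v‖| ≤ B1 * ‖u - v‖ := mul_le_mul_of_nonneg_left h6 hB1
    have h9 : B1 * ‖u - v‖ ≤ (B1 ^ 2 + B2 + 2 * B1) * ‖u - v‖ := by
      refine mul_le_mul_of_nonneg_right ?_ h7
      nlinarith [sq_nonneg B1]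
    linarith

end H6.CL
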