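import Pool.Agent.H6.CL.LMo

/-! The electrostatic inequality of the boundary layer in the notation of Coulomb matter: `lpt` for the index type `Fin n ⊕ Fin k` with charges `-1` and `z j` (`Fintype.sum_sum_type`), as in `Pool/Agent/H6/CB/HFin.lean`. Algebra: `∑ e_i J_i² (∑_{l ≠ i} e_l ‖y_i - y_l‖⁻¹ - c) = ∑_{i ≠ l} e_i e_l J_i J_l ‖y_i - y_l‖⁻¹ + (1/2) ∑ e_i e_l KJ - c ∑ e_i J_i²` (symmetrisation), and `‖x‖⁻¹ = KS χ x + KL χ x` (for all `x`, by definition), the diagonal terms of the sum with `KL` are `KL χ 0 * ∑ e_i² J_i²`. -/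

open MeasureTheory Finset

namespace H6.CL

open H6.CM H6.CB

private theorem lf_alg {ι : Type} [Fintype ι] (e J : ι → ℝ) (r : ι → ι → ℝ)
    (hr : ∀ i l, r i l = r l i) :
    (1 / 2) * ∑ i, ∑ l, e i * e l * ((J i - J l) ^ 2 * r i l) =
      ∑ i, e i * J i ^ 2 * ∑ l, e l * r i l - ∑ i, ∑ l, e i * e l * (J i * J l * r i l) := by
  have h1 : ∑ i, ∑ l, e i * e l * (J l ^ 2 * r i l) = ∑ i, ∑ l, e i * e l * (J i ^ 2 * r i l) := by
    rw [sum_comm]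
    refine sum_congr rfl fun i _ => sum_congr rfl fun l _ => ?_
    rw [hr l i]
    ring
  have h2 : ∑ i, e i * J i ^ 2 * ∑ l, e l * r i l = ∑ i, ∑ l, e i * e l * (J i ^ 2 * r i l) := by
    refine sum_congr rfl fun i _ => ?_
    rw [mul_sum]
    refine sum_congr rfl fun l _ => ?_
    ring
  have h3 : ∑ i, ∑ l, e i * e l * ((J i - J l) ^ 2 * r i l) =
      (∑ i, ∑ l, e i * e l * (J i ^ 2 * r i l) + ∑ i, ∑ l, e i * e l * (J l ^ 2 * r i l)) -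
        2 * ∑ i, ∑ l, e i * e l * (J i * J l * r i l) := by
    rw [mul_sum, ← sum_add_distrib, ← sum_sub_distrib]
    refine sum_congr rfl fun i _ => ?_
    rw [mul_sum, ← sum_add_distrib, ← sum_sub_distrib]
    refine sum_congr rfl fun l _ => ?_
    ring
  rw [h3, h1, h2]
  ring

private theorem lf_phiE {n k : ℕ} (z : Fin k → ℝ) (a : Fin n) (p : Cfg n k) :
    ∑ b, (-1 : ℝ) * ‖p.1 a - p.1 b‖⁻¹ + ∑ j, z j * ‖p.1 a - p.2 j‖⁻¹ =
      phiE z a p (p.1 a) := by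
  unfold phiE
  have h1 : ∑ b, (-1 : ℝ) * ‖p.1 a - p.1 b‖⁻¹ =
      -∑ b ∈ univ.erase a, ‖p.1 a - p.1 b‖⁻¹ := by
    rw [← mul_sum, ← add_sum_erase univ (fun b => ‖p.1 a - p.1 b‖⁻¹) (mem_univ a)]
    simp
  rw [h1]
  ring

private theorem lf_phiN {n k : ℕ} (z : Fin k → ℝ) (j : Fin k) (p : Cfg n k) :
    ∑ b, (-1 : ℝ) * ‖p.2 j - p.1 b‖⁻¹ + ∑ l, z l * ‖p.2 j - p.2 l‖⁻¹ =
      phiN z j p (p.2 j) := by
  unfold phiN
  have h1 : ∑ l, z l * ‖p.2 j - p.2 l‖⁻¹ =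
      ∑ l ∈ univ.erase j, z l * ‖p.2 j - p.2 l‖⁻¹ := by
    rw [← add_sum_erase univ (fun l => z l * ‖p.2 j - p.2 l‖⁻¹) (mem_univ j)]
    simp
  rw [h1, ← mul_sum]
  ring

/-- the double sum with the kernel `κ` -/
private noncomputable def lfG {n k : ℕ} (κ J : E3 → ℝ) (z : Fin k → ℝ) (p : Cfg n k) : ℝ :=
  (∑ a, ∑ b, J (p.1 a) * J (p.1 b) * κ (p.1 a - p.1 b)) -
    2 * ∑ a, ∑ j, z j * (J (p.1 a) * J (p.2 j) * κ (p.1 a - p.2 j)) +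
    ∑ j, ∑ l, z j * z l * (J (p.2 j) * J (p.2 l) * κ (p.2 j - p.2 l))

private theorem lf_e3 {n k : ℕ} (κ J : E3 → ℝ) (z : Fin k → ℝ) (p : Cfg n k)
    (hκ : ∀ v w, κ (v - w) = κ (w - v)) :
    ∑ a, (∑ b, -1 * -1 * (J (p.1 a) * J (p.1 b) * κ (p.1 a - p.1 b)) +
      ∑ j, -1 * z j * (J (p.1 a) * J (p.2 j) * κ (p.1 a - p.2 j))) +
      ∑ j, (∑ a, z j * -1 * (J (p.2 j) * J (p.1 a) * κ (p.2 j - p.1 a)) +
        ∑ l, z j * z l * (J (p.2 j) * J (p.2 l) * κ (p.2 j - p.2 l))) = lfG κ J z p := by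
  have g1 : ∑ j, ∑ a, z j * -1 * (J (p.2 j) * J (p.1 a) * κ (p.2 j - p.1 a)) =
      -∑ a, ∑ j, z j * (J (p.1 a) * J (p.2 j) * κ (p.1 a - p.2 j)) := by
    rw [sum_comm, ← sum_neg_distrib]
    refine sum_congr rfl fun a _ => ?_
    rw [← sum_neg_distrib]
    refine sum_congr rfl fun j _ => ?_
    rw [hκ]
    ring
  have g2 : ∑ a, ∑ j, -1 * z j * (J (p.1 a) * J (p.2 j) * κ (p.1 a - p.2 j)) =
      -∑ a, ∑ j, z j * (J (p.1 a) * J (p.2 j) * κ (p.1 a - p.2 j)) := by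
    rw [← sum_neg_distrib]
    refine sum_congr rfl fun a _ => ?_
    rw [← sum_neg_distrib]
    refine sum_congr rfl fun j _ => ?_
    ring
  have g3 : ∑ a, ∑ b, -1 * -1 * (J (p.1 a) * J (p.1 b) * κ (p.1 a - p.1 b)) =
      ∑ a, ∑ b, J (p.1 a) * J (p.1 b) * κ (p.1 a - p.1 b) := by
    refine sum_congr rfl fun a _ => sum_congr rfl fun b _ => ?_
    ring
  rw [sum_add_distrib, sum_add_distrib, g1, g2, g3]
  unfold lfG
  ring

private theorem lf_sub {n k : ℕ} (χ J : E3 → ℝ) (z : Fin k → ℝ) (p : Cfg n k) :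
    lfG (fun v => ‖v‖⁻¹) J z p = lfG (KL χ) J z p + lfG (KS χ) J z p := by
  have hk : ∀ v, ‖v‖⁻¹ = KL χ v + KS χ v := by
    intro v
    unfold KS
    ring
  unfold lfG
  simp only [hk, mul_add, sum_add_distrib]
  ring

private theorem lf_VS {n k : ℕ} (χ J : E3 → ℝ) (z : Fin k → ℝ) (p : Cfg n k) :
    lfG (KS χ) J z p = 2 * VS χ J z p -
      KL χ 0 * (∑ a, J (p.1 a) ^ 2 + ∑ j, z j ^ 2 * J (p.2 j) ^ 2) := by
  have h0 : KS χ 0 = -KL χ 0 := by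
    unfold KS
    simp
  have g1 : ∑ a, ∑ b, J (p.1 a) * J (p.1 b) * KS χ (p.1 a - p.1 b) =
      (∑ a, ∑ b ∈ univ.erase a, J (p.1 a) * J (p.1 b) * KS χ (p.1 a - p.1 b)) -
        KL χ 0 * ∑ a, J (p.1 a) ^ 2 := by
    rw [mul_sum, ← sum_sub_distrib]
    refine sum_congr rfl fun a _ => ?_
    rw [← add_sum_erase univ (fun b => J (p.1 a) * J (p.1 b) * KS χ (p.1 a - p.1 b)) (mem_univ a),
      sub_self, h0]
    ring
  have g2 : ∑ j, ∑ l, z j * z l * (J (p.2 j) * J (p.2 l) * KS χ (p.2 j - p.2 l)) =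
      (∑ j, ∑ l ∈ univ.erase j, z j * z l * (J (p.2 j) * J (p.2 l) *
        KS χ (p.2 j - p.2 l))) - KL χ 0 * ∑ j, z j ^ 2 * J (p.2 j) ^ 2 := by
    rw [mul_sum, ← sum_sub_distrib]
    refine sum_congr rfl fun j _ => ?_
    rw [← add_sum_erase univ (fun l => z j * z l * (J (p.2 j) * J (p.2 l) *
      KS χ (p.2 j - p.2 l))) (mem_univ j), sub_self, h0]
    ring
  unfold lfG VS
  rw [g1, g2]
  ring

theorem lfin {χ : E3 → ℝ} (hχ : Bump χ) (L : ℝ) : ∃ C : ℝ, 0 ≤ C ∧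
    ∀ (J : E3 → ℝ) (_ : Lay L J) (D : Set E3) (_ : MeasurableSet D)
    (_ : Bornology.IsBounded D)
    (_ : ∀ v w, gr J w ≠ 0 ∨ lap J w ≠ 0 → ‖v - w‖ ≤ 1 → v ∈ D)
    (n k : ℕ) (z : Fin k → ℝ) (_ : ∑ j, z j = n) (p : Cfg n k) (c : ℝ),
    2 * VS χ J z p - KL χ 0 * (∑ a, J (p.1 a) ^ 2 + ∑ j, z j ^ 2 * J (p.2 j) ^ 2) -
        C * (∫ v in D, (phi z p v - c) ^ 2) ≤
      ∑ j, z j * (J (p.2 j) ^ 2 * (phiN z j p (p.2 j) - c)) -
        ∑ a, J (p.1 a) ^ 2 * (phiE z a p (p.1 a) - c) := by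
  obtain ⟨C, hC, H⟩ := lpt hχ L
  refine ⟨C, hC, fun J hJ D hDm hDb hD n k z hz p c => ?_⟩
  have h1 := H J hJ D hDm hDb hD (Fin n ⊕ Fin k) inferInstance (Sum.elim (fun _ => -1) z)
    (Sum.elim p.1 p.2) (by
      rw [Fintype.sum_sum_type]
      simp only [Sum.elim_inl, Sum.elim_inr]
      rw [hz]
      simp) c
  have e1 : ∀ v, ∑ i, (Sum.elim (fun _ => -1) z : Fin n ⊕ Fin k → ℝ) i *
      ‖v - (Sum.elim p.1 p.2 : Fin n ⊕ Fin k → E3) i‖⁻¹ = phi z p v := by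
    intro v
    rw [Fintype.sum_sum_type]
    simp only [Sum.elim_inl, Sum.elim_inr]
    unfold phi
    rw [← mul_sum]
    ring
  simp only [e1] at h1
  have e2 := lf_alg (Sum.elim (fun _ => -1) z : Fin n ⊕ Fin k → ℝ)
    (fun i => J ((Sum.elim p.1 p.2 : Fin n ⊕ Fin k → E3) i))
    (fun i l => ‖(Sum.elim p.1 p.2 : Fin n ⊕ Fin k → E3) i -
      (Sum.elim p.1 p.2 : Fin n ⊕ Fin k → E3) l‖⁻¹) (fun i l => by rw [norm_sub_rev])
  unfold KJ at h1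
  rw [e2] at h1
  simp only [Fintype.sum_sum_type, Sum.elim_inl, Sum.elim_inr] at h1
  simp only [lf_phiE, lf_phiN] at h1
  have e3 := lf_e3 (fun v => ‖v‖⁻¹) J z p (fun v w => by rw [norm_sub_rev])
  have e3' := lf_e3 (KL χ) J z p (fun v w => by rw [← KL_neg hχ, neg_sub])
  rw [e3, e3'] at h1
  have e4 : ∑ j, z j * (J (p.2 j) ^ 2 * (phiN z j p (p.2 j) - c)) =
      ∑ j, z j * J (p.2 j) ^ 2 * phiN z j p (p.2 j) - c * ∑ j, z j * J (p.2 j) ^ 2 := by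
    rw [mul_sum, ← sum_sub_distrib]
    refine sum_congr rfl fun j _ => ?_
    ring
  have e5 : ∑ a, J (p.1 a) ^ 2 * (phiE z a p (p.1 a) - c) =
      -∑ a, -1 * J (p.1 a) ^ 2 * phiE z a p (p.1 a) + c * ∑ a, -1 * J (p.1 a) ^ 2 := by
    rw [mul_sum, ← sum_neg_distrib, ← sum_add_distrib]
    refine sum_congr rfl fun a _ => ?_
    ring
  have e6 := lf_sub χ J z p
  have e7 := lf_VS χ J z p
  rw [e4, e5]
  linarith

end H6.CL
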