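import Pool.Agent.H6.CB.TSt
import Pool.Agent.H6.CL.Defs

/-! Stability for the boundary layer: as `tst` (file `Pool/Agent/H6/CB/TSt.lean`) with a general cutoff `J`. `K * ⨆ ≤ K + UR K R`; where `J (x a) ≠ 0` one has `r + 1 < ‖x a‖`, so `UR K R (x a)` may be replaced by `W v = UR K R v * 1[r + 1 < ‖v‖]`, whose `5/2`-power has integral at most `C * #{j | r < ‖R j‖}` (`UR K R v` only depends on nuclei at distance less than one of `v`). Apply `ltJ` with `δ = 1/2` for fixed positions of the nuclei and integrate over them. -/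

open MeasureTheory Finset

namespace H6.CL

open H6.CM H6.CB

private theorem tst_gen (q : ℕ) (δ : ℝ) (hδ : 0 < δ) : ∃ C : ℝ, 0 ≤ C ∧
    ∀ (n k : ℕ) (Λ : Set E3) (Φ : (Fin n → Fin q) → Cfg n k → ℂ) (_ : St q n k Λ Φ)
    (J : E3 → ℝ) (_ : ContDiff ℝ (⊤ : ℕ∞) J) (_ : ∀ v, 0 ≤ J v ∧ J v ≤ 1)
    (W : (Fin k → E3) → E3 → ℝ) (_ : Measurable (fun u : (Fin k → E3) × E3 => W u.1 u.2))
    (_ : ∀ R v, 0 ≤ W R v) (A : (Fin k → E3) → ℝ) (_ : Measurable A) (M : ℝ)
    (_ : ∀ R, 0 ≤ A R ∧ A R ≤ M)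
    (_ : ∀ R, ∫⁻ v, ENNReal.ofReal (W R v ^ (5 / 2 : ℝ)) ≤ ENNReal.ofReal (A R)),
    IM Φ (fun p => ∑ a, J (p.1 a) ^ 2 * W p.2 (p.1 a)) ∧
    mean Φ (fun p => ∑ a, J (p.1 a) ^ 2 * W p.2 (p.1 a)) ≤
      δ * ∑ a, kE (mf (fun p => J (p.1 a)) Φ) a + C * mean Φ (fun p => A p.2) := by
  obtain ⟨Cl, hCl, hl⟩ := ltJ q δ hδ
  refine ⟨Cl, hCl, ?_⟩
  intro n k Λ Φ hΦ J hJs hJ W0 hW0m hW00 A hAm M hA hWA
  have hsm := St_sm hΦ
  have hsc := fun σ => (Sm_sq hsm σ).1
  have hmfs : ∀ a : Fin n, Sm q n k Λ (mf (fun p => J (p.1 a)) Φ) := fun a =>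
    mf_sm hsm (hJs.comp ((contDiff_apply ℝ E3 a).comp contDiff_fst))
  have hgi : ∀ σ a, Integrable (ge (mf (fun p => J (p.1 a)) Φ σ) a) := fun σ a =>
    kE_int (hmfs a) σ a
  have hg0 : ∀ σ a p, 0 ≤ ge (mf (fun p => J (p.1 a)) Φ σ) a p := fun σ a p => ge_nonneg _ _ _
  have hIA : IM Φ (fun p => A p.2) := by
    refine IM.bdd hsm (hAm.comp measurable_snd) M fun p => ?_
    rw [abs_of_nonneg (hA p.2).1]
    exact (hA p.2).2
  set W : Cfg n k → ℝ := fun p => ∑ a, J (p.1 a) ^ 2 * W0 p.2 (p.1 a) with hW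
  have hWm : Measurable W := by
    refine Finset.measurable_fun_sum _ fun a _ => ?_
    refine Measurable.mul ((hJs.continuous.measurable.comp (meas_e a)).pow_const 2) ?_
    exact hW0m.comp (measurable_snd.prodMk (meas_e a))
  have hW0 : ∀ p, 0 ≤ W p := fun p => Finset.sum_nonneg fun a _ =>
    mul_nonneg (sq_nonneg _) (hW00 _ _)
  -- the Lieb-Thirring bound
  have hR : ∀ R : Fin k → E3, ∑ σ, ∫⁻ x, ENNReal.ofReal (W (x, R) * ‖Φ σ (x, R)‖ ^ 2) ≤
      ENNReal.ofReal (δ * ∑ σ, ∑ a, (∫ x, ge (mf (fun p => J (p.1 a)) Φ σ) a (x, R)) +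
        Cl * ∑ σ, ∫ x, A R * ‖Φ σ (x, R)‖ ^ 2) := by
    intro R
    have hcf : ∀ σ, ContDiff ℝ 1 (fun x => Φ σ (x, R)) := fun σ =>
      ((hΦ.smooth σ).of_le (by exact_mod_cast le_top)).comp (contDiff_id.prodMk contDiff_const)
    have hcc : ∀ σ, HasCompactSupport (fun x => Φ σ (x, R)) := fun σ => by
      have hK := (hΦ.cpt σ).isCompact.image (continuous_fst)
      refine HasCompactSupport.of_support_subset_isCompact hK ?_
      intro x hx
      exact ⟨(x, R), subset_tsupport _ hx, rfl⟩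
    have hWR : Measurable (W0 R) := hW0m.comp measurable_prodMk_left
    have h1 := hl n (fun σ x => Φ σ (x, R)) hcf hcc (fun π σ x => hΦ.anti π σ (x, R))
      J (hJs.of_le (by exact_mod_cast le_top)) hJ (W0 R) hWR (hW00 R) (A R) (hA R).1 (hWA R)
    have e1 : ∀ σ (a : Fin n) (x : Fin n → E3), ge (mf (fun p => J (p.1 a)) Φ σ) a (x, R) =
        g3 (fun v => ((J v : ℝ) : ℂ) * Φ σ (Function.update x a v, R)) (x a) := by
      intro σ a x
      unfold ge mf
      simp only [Function.update_self]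
    simp only [e1]
    have e2 : Cl * ∑ σ, ∫ x, A R * ‖Φ σ (x, R)‖ ^ 2 = Cl * A R * ∑ σ, ∫ x, ‖Φ σ (x, R)‖ ^ 2 := by
      rw [mul_assoc]
      congr 1
      rw [mul_sum]
      refine sum_congr rfl fun σ _ => ?_
      rw [integral_const_mul]
    rw [e2]
    exact h1
  have hfub : ∀ f : Cfg n k → ENNReal, Measurable f →
      ∫⁻ p, f p = ∫⁻ R, ∫⁻ x, f (x, R) := by
    intro f hf
    rw [Measure.volume_eq_prod, lintegral_prod_symm _ hf.aemeasurable]
  have hmeas : ∀ σ, Measurable (fun p => ENNReal.ofReal (W p * ‖Φ σ p‖ ^ 2)) := fun σ =>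
    (hWm.mul (hsc σ).measurable).ennreal_ofReal
  have htot : ∑ σ, ∫⁻ p, ENNReal.ofReal (W p * ‖Φ σ p‖ ^ 2) ≤
      ENNReal.ofReal (δ * ∑ a, kE (mf (fun p => J (p.1 a)) Φ) a +
        Cl * mean Φ (fun p => A p.2)) := by
    have hInt1 : ∀ σ a, Integrable (fun R : Fin k → E3 => ∫ x : Fin n → E3,
        ge (mf (fun p => J (p.1 a)) Φ σ) a (x, R)) := fun σ a => by
      have := hgi σ a
      rw [Measure.volume_eq_prod] at this
      exact this.integral_prod_right
    have hInt2 : ∀ σ, Integrable (fun R : Fin k → E3 => ∫ x : Fin n → E3,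
        A R * ‖Φ σ (x, R)‖ ^ 2) := fun σ => by
      have := hIA σ
      rw [Measure.volume_eq_prod] at this
      exact this.integral_prod_right
    have hE1 : ∀ σ a, ∫ R : Fin k → E3, ∫ x : Fin n → E3,
        ge (mf (fun p => J (p.1 a)) Φ σ) a (x, R) =
        ∫ p, ge (mf (fun p => J (p.1 a)) Φ σ) a p := fun σ a => by
      have := hgi σ a
      rw [Measure.volume_eq_prod] at this ⊢
      rw [integral_prod_symm _ this]
    have hE2 : ∀ σ, ∫ R : Fin k → E3, ∫ x : Fin n → E3, A R * ‖Φ σ (x, R)‖ ^ 2 =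
        ∫ p : Cfg n k, A p.2 * ‖Φ σ p‖ ^ 2 := fun σ => by
      have := hIA σ
      rw [Measure.volume_eq_prod] at this ⊢
      rw [integral_prod_symm _ this]
    calc ∑ σ, ∫⁻ p, ENNReal.ofReal (W p * ‖Φ σ p‖ ^ 2)
        = ∑ σ, ∫⁻ R : Fin k → E3, ∫⁻ x : Fin n → E3,
            ENNReal.ofReal (W (x, R) * ‖Φ σ (x, R)‖ ^ 2) :=
          Finset.sum_congr rfl fun σ _ => hfub _ (hmeas σ)
      _ = ∫⁻ R : Fin k → E3, ∑ σ, ∫⁻ x : Fin n → E3,
            ENNReal.ofReal (W (x, R) * ‖Φ σ (x, R)‖ ^ 2) := by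
          rw [lintegral_finsetSum]
          intro σ _
          exact Measurable.lintegral_prod_left' (hmeas σ)
      _ ≤ ∫⁻ R : Fin k → E3, ENNReal.ofReal (δ * ∑ σ, ∑ a,
            (∫ x, ge (mf (fun p => J (p.1 a)) Φ σ) a (x, R)) +
            Cl * ∑ σ, ∫ x, A R * ‖Φ σ (x, R)‖ ^ 2) := lintegral_mono hR
      _ = ENNReal.ofReal (∫ R : Fin k → E3, (δ * ∑ σ, ∑ a,
            (∫ x, ge (mf (fun p => J (p.1 a)) Φ σ) a (x, R)) +
            Cl * ∑ σ, ∫ x, A R * ‖Φ σ (x, R)‖ ^ 2)) := by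
          rw [ofReal_integral_eq_lintegral_ofReal]
          · refine ((integrable_finsetSum _ fun σ _ => integrable_finsetSum _ fun a _ =>
              hInt1 σ a).const_mul _).add
              ((integrable_finsetSum _ fun σ _ => hInt2 σ).const_mul _)
          · refine Filter.Eventually.of_forall fun R => ?_
            have h1 : 0 ≤ ∑ σ, ∑ a, (∫ x, ge (mf (fun p => J (p.1 a)) Φ σ) a (x, R)) :=
              Finset.sum_nonneg fun σ _ => Finset.sum_nonneg fun a _ =>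
                integral_nonneg fun x => hg0 σ a _
            have h2 : 0 ≤ ∑ σ, ∫ x, A R * ‖Φ σ (x, R)‖ ^ 2 :=
              Finset.sum_nonneg fun σ _ => integral_nonneg fun x =>
                mul_nonneg (hA R).1 (sq_nonneg _)
            simp only [Pi.zero_apply]
            positivity
      _ = ENNReal.ofReal (δ * ∑ a, kE (mf (fun p => J (p.1 a)) Φ) a +
            Cl * mean Φ (fun p => A p.2)) := by
          congr 1
          rw [integral_add, integral_const_mul, integral_const_mul, integral_finsetSum,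
            integral_finsetSum]
          · congr 1
            · congr 1
              have : ∀ σ ∈ (univ : Finset (Fin n → Fin q)), ∫ R : Fin k → E3, ∑ a,
                  (∫ x, ge (mf (fun p => J (p.1 a)) Φ σ) a (x, R)) =
                  ∑ a, ∫ p, ge (mf (fun p => J (p.1 a)) Φ σ) a p := fun σ _ => by
                rw [integral_finsetSum _ fun a _ => hInt1 σ a]
                exact Finset.sum_congr rfl fun a _ => hE1 σ a
              rw [Finset.sum_congr rfl this, Finset.sum_comm]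
              rfl
            · congr 1
              exact Finset.sum_congr rfl fun σ _ => hE2 σ
          · exact fun σ _ => hInt2 σ
          · exact fun σ _ => integrable_finsetSum _ fun a _ => hInt1 σ a
          · exact (integrable_finsetSum _ fun σ _ => integrable_finsetSum _ fun a _ =>
              hInt1 σ a).const_mul _
          · exact (integrable_finsetSum _ fun σ _ => hInt2 σ).const_mul _
  have hWi : ∀ σ, Integrable (fun p => W p * ‖Φ σ p‖ ^ 2) := by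
    intro σ
    refine ⟨(hWm.mul (hsc σ).measurable).aestronglyMeasurable, ?_⟩
    rw [hasFiniteIntegral_iff_ofReal (Filter.Eventually.of_forall fun p =>
      mul_nonneg (hW0 p) (by positivity))]
    refine lt_of_le_of_lt (Finset.single_le_sum (f := fun σ => ∫⁻ p,
      ENNReal.ofReal (W p * ‖Φ σ p‖ ^ 2)) (fun _ _ => bot_le) (Finset.mem_univ σ)) ?_
    exact lt_of_le_of_lt htot ENNReal.ofReal_lt_top
  refine ⟨hWi, ?_⟩
  have h0 : 0 ≤ δ * ∑ a, kE (mf (fun p => J (p.1 a)) Φ) a + Cl * mean Φ (fun p => A p.2) := by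
    have h1 := Finset.sum_nonneg fun a (_ : a ∈ (univ : Finset (Fin n))) =>
      kE_nonneg (mf (fun p : Cfg n k => J (p.1 a)) Φ) a
    have h2 : 0 ≤ mean Φ (fun p => A p.2) := mean_nonneg fun σ p _ => (hA p.2).1
    positivity
  have h1 : ∑ σ, ∫⁻ p, ENNReal.ofReal (W p * ‖Φ σ p‖ ^ 2) = ENNReal.ofReal (mean Φ W) := by
    unfold mean
    rw [ENNReal.ofReal_sum_of_nonneg fun σ _ => integral_nonneg fun p =>
      mul_nonneg (hW0 p) (by positivity)]
    refine Finset.sum_congr rfl fun σ _ => ?_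
    rw [ofReal_integral_eq_lintegral_ofReal (hWi σ) (Filter.Eventually.of_forall fun p =>
      mul_nonneg (hW0 p) (by positivity))]
  rw [h1] at htot
  exact (ENNReal.ofReal_le_ofReal_iff h0).1 htot

private theorem tst_u (K : ℝ) (hK : 0 ≤ K) : ∃ C : ℝ, 0 ≤ C ∧ ∀ (k : ℕ) (R : Fin k → E3) (r : ℝ),
    ∫⁻ v, ENNReal.ofReal ((if r + 1 < ‖v‖ then UR K R v else 0) ^ (5 / 2 : ℝ)) ≤
      ENNReal.ofReal (C * ∑ j, (if r < ‖R j‖ then 1 else 0)) := by
  obtain ⟨I, hI⟩ : ∃ I : ENNReal, I = ∫⁻ v : E3, ENNReal.ofReal (UInt_f K ‖v‖) := ⟨_, rfl⟩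
  have hfin : I < ⊤ := by
    rw [hI]
    exact (UInt_int K hK).lintegral_lt_top
  refine ⟨I.toReal, ENNReal.toReal_nonneg, fun k R r => ?_⟩
  have hm : ∀ j : Fin k, Measurable fun v : E3 => ENNReal.ofReal (UInt_f K ‖v - R j‖) := fun j =>
    ENNReal.measurable_ofReal.comp ((UInt_f_meas K).comp (measurable_id.sub_const (R j)).norm)
  have hpt : ∀ v, (if r + 1 < ‖v‖ then UR K R v else 0) ^ (5 / 2 : ℝ) ≤
      ∑ j, (if r < ‖R j‖ then UInt_f K ‖v - R j‖ else 0) := by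
    intro v
    have h0 : 0 ≤ ∑ j, (if r < ‖R j‖ then UInt_f K ‖v - R j‖ else 0) :=
      sum_nonneg fun j _ => by
        split_ifs
        · exact UInt_f_nonneg K hK _
        · exact le_rfl
    by_cases hv : r + 1 < ‖v‖
    · rw [if_pos hv]
      refine (UInt_bound K hK R v).trans (sum_le_sum fun j _ => ?_)
      by_cases hj : r < ‖R j‖
      · rw [if_pos hj]
      · rw [if_neg hj]
        have h1 : 1 ≤ ‖v - R j‖ := by
          have h2 : ‖v‖ - ‖R j‖ ≤ ‖v - R j‖ := norm_sub_norm_le _ _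
          linarith [not_lt.1 hj]
        unfold UInt_f
        have h3 : ‖v - R j‖⁻¹ - 1 ≤ 0 := by
          have := inv_le_one_of_one_le₀ h1
          linarith
        rw [max_eq_right h3, mul_zero, Real.zero_rpow (by norm_num)]
    · rw [if_neg hv, Real.zero_rpow (by norm_num)]
      exact h0
  calc ∫⁻ v, ENNReal.ofReal ((if r + 1 < ‖v‖ then UR K R v else 0) ^ (5 / 2 : ℝ))
      ≤ ∫⁻ v, ∑ j, ENNReal.ofReal (if r < ‖R j‖ then UInt_f K ‖v - R j‖ else 0) := by
        refine lintegral_mono fun v => ?_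
        rw [← ENNReal.ofReal_sum_of_nonneg fun j _ => by
          split_ifs
          · exact UInt_f_nonneg K hK _
          · exact le_rfl]
        exact ENNReal.ofReal_le_ofReal (hpt v)
    _ = ∑ j : Fin k, ∫⁻ v, ENNReal.ofReal (if r < ‖R j‖ then UInt_f K ‖v - R j‖ else 0) := by
        refine lintegral_finsetSum _ fun j _ => ?_
        split_ifs
        · exact hm j
        · exact measurable_const
    _ = ∑ j : Fin k, ENNReal.ofReal (I.toReal * (if r < ‖R j‖ then 1 else 0)) := by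
        refine sum_congr rfl fun j _ => ?_
        split_ifs
        · rw [mul_one, ENNReal.ofReal_toReal hfin.ne, hI]
          exact lintegral_sub_right_eq_self (fun v : E3 => ENNReal.ofReal (UInt_f K ‖v‖)) (R j)
        · simp
    _ = ENNReal.ofReal (I.toReal * ∑ j, (if r < ‖R j‖ then 1 else 0)) := by
        rw [mul_sum, ENNReal.ofReal_sum_of_nonneg fun j _ =>
          mul_nonneg ENNReal.toReal_nonneg (by split_ifs <;> norm_num)]

private theorem tst_sup {n k : ℕ} (p : Cfg n k) (a : Fin n) :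
    0 ≤ (⨆ j, ‖p.1 a - p.2 j‖⁻¹) ∧ (⨆ j, ‖p.1 a - p.2 j‖⁻¹) ≤ ∑ j, ‖p.1 a - p.2 j‖⁻¹ := by
  have h0 : ∀ j, 0 ≤ ‖p.1 a - p.2 j‖⁻¹ := fun j => by positivity
  refine ⟨Real.iSup_nonneg h0, ?_⟩
  rcases isEmpty_or_nonempty (Fin k) with he | he
  · rw [Real.iSup_of_isEmpty]
    exact sum_nonneg fun j _ => h0 j
  · exact ciSup_le fun j => single_le_sum (f := fun j => ‖p.1 a - p.2 j‖⁻¹) (fun j _ => h0 j)
      (mem_univ j)

private theorem tst_supm {n k : ℕ} (a : Fin n) :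
    Measurable (fun p : Cfg n k => ⨆ j, ‖p.1 a - p.2 j‖⁻¹) :=
  Measurable.iSup fun j => ((meas_e a).sub (meas_n j)).norm.inv

private theorem tst_ind {X : Type*} [MeasurableSpace X] {f : X → E3} (hf : Measurable f) (r : ℝ) :
    Measurable (fun u => if r < ‖f u‖ then (1 : ℝ) else 0) :=
  Measurable.ite (measurableSet_lt measurable_const hf.norm) measurable_const measurable_const

private theorem tst_IM {q n k : ℕ} {Λ : Set E3} {Φ : (Fin n → Fin q) → Cfg n k → ℂ}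
    (h : Sm q n k Λ Φ) (r : ℝ) :
    IM Φ (fun p => ∑ a, (if r < ‖p.1 a‖ then (1 : ℝ) else 0)) ∧
    IM Φ (fun p => ∑ j, (if r < ‖p.2 j‖ then (1 : ℝ) else 0)) := by
  constructor
  · refine IM.bdd h (Finset.measurable_fun_sum _ fun a _ => tst_ind (meas_e a) r) (n : ℝ)
      fun p => ?_
    rw [abs_of_nonneg (sum_nonneg fun a _ => by split_ifs <;> norm_num)]
    have h1 : ∑ a, (if r < ‖p.1 a‖ then (1 : ℝ) else 0) ≤ ∑ _a : Fin n, (1 : ℝ) :=
      sum_le_sum fun a _ => by split_ifs <;> norm_num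
    simpa using h1
  · refine IM.bdd h (Finset.measurable_fun_sum _ fun j _ => tst_ind (meas_n j) r) (k : ℝ)
      fun p => ?_
    rw [abs_of_nonneg (sum_nonneg fun a _ => by split_ifs <;> norm_num)]
    have h1 : ∑ j, (if r < ‖p.2 j‖ then (1 : ℝ) else 0) ≤ ∑ _j : Fin k, (1 : ℝ) :=
      sum_le_sum fun a _ => by split_ifs <;> norm_num
    simpa using h1

theorem tstL (q : ℕ) (K : ℝ) (hK : 0 ≤ K) : ∃ C : ℝ, 0 ≤ C ∧
    ∀ (n k : ℕ) (Λ : Set E3) (Φ : (Fin n → Fin q) → Cfg n k → ℂ) (_ : St q n k Λ Φ)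
    (J : E3 → ℝ) (_ : ContDiff ℝ (⊤ : ℕ∞) J) (_ : ∀ v, 0 ≤ J v ∧ J v ≤ 1) (r : ℝ)
    (_ : ∀ v, J v ≠ 0 → r + 1 < ‖v‖),
    IM Φ (fun p => ∑ a, J (p.1 a) ^ 2 * (⨆ j, ‖p.1 a - p.2 j‖⁻¹)) ∧
    K * mean Φ (fun p => ∑ a, J (p.1 a) ^ 2 * (⨆ j, ‖p.1 a - p.2 j‖⁻¹)) ≤
      (1 / 2) * ∑ a, kE (mf (fun p => J (p.1 a)) Φ) a +
      C * mean Φ (fun p => shl r p) := by
  obtain ⟨Cg, hCg, hg⟩ := tst_gen q (1 / 2) (by norm_num)
  obtain ⟨Cu, hCu, hu⟩ := tst_u K hK
  refine ⟨K + Cg * Cu, by positivity, fun n k Λ Φ hΦ J hJs hJ r hJr => ?_⟩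
  have hsm := St_sm hΦ
  have hJm : ∀ a : Fin n, Measurable (fun p : Cfg n k => J (p.1 a)) := fun a =>
    hJs.continuous.measurable.comp (meas_e a)
  have hJ1 : ∀ v, J v ^ 2 ≤ 1 := fun v => pow_le_one₀ (hJ v).1 (hJ v).2
  have hIM : IM Φ (fun p => ∑ a, J (p.1 a) ^ 2 * (⨆ j, ‖p.1 a - p.2 j‖⁻¹)) := by
    refine IM.dom (G := fun p => ∑ a, ∑ j, ‖p.1 a - p.2 j‖⁻¹) ?_
      (IM.sum _ fun a _ => IM.sum _ fun j _ => IM_en hsm a j) hsm fun p => ?_
    · exact Finset.measurable_fun_sum _ fun a _ => ((hJm a).pow_const 2).mul (tst_supm a)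
    · rw [abs_of_nonneg (sum_nonneg fun a _ => mul_nonneg (sq_nonneg _) (tst_sup p a).1)]
      refine sum_le_sum fun a _ => ?_
      calc J (p.1 a) ^ 2 * (⨆ j, ‖p.1 a - p.2 j‖⁻¹) ≤ 1 * (⨆ j, ‖p.1 a - p.2 j‖⁻¹) :=
            mul_le_mul_of_nonneg_right (hJ1 _) (tst_sup p a).1
        _ ≤ ∑ j, ‖p.1 a - p.2 j‖⁻¹ := by rw [one_mul]; exact (tst_sup p a).2
  refine ⟨hIM, ?_⟩
  have hWm : Measurable (fun u : (Fin k → E3) × E3 =>
      (fun (R : Fin k → E3) (v : E3) => if r + 1 < ‖v‖ then UR K R v else 0) u.1 u.2) := by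
    refine Measurable.ite (measurableSet_lt measurable_const measurable_snd.norm) ?_
      measurable_const
    unfold UR
    refine Measurable.const_mul (Measurable.max (Measurable.sub ?_ measurable_const)
      measurable_const) _
    refine Measurable.iSup fun j => ?_
    exact (measurable_snd.sub ((measurable_pi_apply j).comp measurable_fst)).norm.inv
  have hAm : Measurable (fun R : Fin k → E3 => Cu * ∑ j, (if r < ‖R j‖ then (1 : ℝ) else 0)) :=
    (Finset.measurable_fun_sum _ fun j _ => tst_ind (measurable_pi_apply j) r).const_mul Cu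
  obtain ⟨g1, g2⟩ := hg n k Λ Φ hΦ J hJs hJ
    (fun (R : Fin k → E3) (v : E3) => if r + 1 < ‖v‖ then UR K R v else 0) hWm
    (fun R v => by
      split_ifs
      · exact ur_nonneg K hK R v
      · exact le_rfl)
    (fun R : Fin k → E3 => Cu * ∑ j, (if r < ‖R j‖ then (1 : ℝ) else 0)) hAm (Cu * k)
    (fun R => by
      refine ⟨mul_nonneg hCu (sum_nonneg fun j _ => by split_ifs <;> norm_num),
        mul_le_mul_of_nonneg_left ?_ hCu⟩
      have h1 : ∑ j, (if r < ‖R j‖ then (1 : ℝ) else 0) ≤ ∑ _j : Fin k, (1 : ℝ) :=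
        sum_le_sum fun j _ => by split_ifs <;> norm_num
      simpa using h1)
    (fun R => hu k R r)
  obtain ⟨i1, i2⟩ := tst_IM hsm r
  have hc : IM Φ (fun p => K * ∑ a, (if r < ‖p.1 a‖ then (1 : ℝ) else 0)) := i1.cmul K
  have hstep : K * mean Φ (fun p => ∑ a, J (p.1 a) ^ 2 * (⨆ j, ‖p.1 a - p.2 j‖⁻¹)) ≤
      mean Φ (fun p => K * ∑ a, (if r < ‖p.1 a‖ then (1 : ℝ) else 0)) +
      mean Φ (fun p => ∑ a, J (p.1 a) ^ 2 *
        (if r + 1 < ‖p.1 a‖ then UR K p.2 (p.1 a) else 0)) := by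
    rw [← mean_cmul, ← mean_add hc g1]
    refine mean_mono (hIM.cmul K) (hc.add g1) fun σ p _ => ?_
    rw [mul_sum, mul_sum, ← sum_add_distrib]
    refine sum_le_sum fun a _ => ?_
    by_cases ha : r + 1 < ‖p.1 a‖
    · rw [if_pos ha, if_pos (by linarith)]
      have h1 : K * (⨆ j, ‖p.1 a - p.2 j‖⁻¹) ≤ K + UR K p.2 (p.1 a) := by
        unfold UR
        have h2 := le_max_left ((⨆ j, ‖p.1 a - p.2 j‖⁻¹) - 1) 0
        have h3 := mul_le_mul_of_nonneg_left h2 hK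
        linarith
      have h4 := mul_le_mul_of_nonneg_left h1 (sq_nonneg (J (p.1 a)))
      have h5 := mul_le_mul_of_nonneg_right (hJ1 (p.1 a)) hK
      linarith
    · have hz : J (p.1 a) = 0 := by
        by_contra hne
        exact ha (hJr _ hne)
      rw [if_neg ha, hz]
      have h6 : 0 ≤ K * (if r < ‖p.1 a‖ then (1 : ℝ) else 0) :=
        mul_nonneg hK (by split_ifs <;> norm_num)
      simpa using h6
  have g2' : mean Φ (fun p => ∑ a, J (p.1 a) ^ 2 *
        (if r + 1 < ‖p.1 a‖ then UR K p.2 (p.1 a) else 0)) ≤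
      1 / 2 * ∑ a, kE (mf (fun p => J (p.1 a)) Φ) a +
        Cg * mean Φ (fun p => Cu * ∑ j, (if r < ‖p.2 j‖ then (1 : ℝ) else 0)) := g2
  rw [mean_cmul] at g2'
  rw [mean_cmul] at hstep
  have e1 : mean Φ (fun p => shl r p) = mean Φ (fun p => ∑ a, (if r < ‖p.1 a‖ then (1 : ℝ) else 0)) +
      mean Φ (fun p => ∑ j, (if r < ‖p.2 j‖ then (1 : ℝ) else 0)) := by
    rw [← mean_add i1 i2]
    rfl
  rw [e1]
  have n1 : 0 ≤ mean Φ (fun p => ∑ a, (if r < ‖p.1 a‖ then (1 : ℝ) else 0)) :=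
    mean_nonneg fun σ p _ => sum_nonneg fun a _ => by split_ifs <;> norm_num
  have n2 : 0 ≤ mean Φ (fun p => ∑ j, (if r < ‖p.2 j‖ then (1 : ℝ) else 0)) :=
    mean_nonneg fun σ p _ => sum_nonneg fun a _ => by split_ifs <;> norm_num
  have n3 := mul_nonneg (mul_nonneg hCg hCu) n1
  have n4 := mul_nonneg hK n2
  linarith

end H6.CL
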