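import Pool.Agent.H6.CL.KDef
import Pool.Agent.H6.CB.CombJ

/-! Lower bound of the weighted energy of the short range kernel. By `KS_int` and the definition of `HH`, for `x ≠ y`: `KS χ (x - y) = cH χ * ∫ t in (1, ∞), ∫ c, χ (c + t • x) ^ 2 * χ (c + t • y) ^ 2` (translation in `c`; `HH` is even). For fixed `(t, c)` apply `combJ` with `t_a = J (x a) χ (c + t • x a) ^ 2`, `s_j = J (R j) χ (c + t • R j) ^ 2`, `τ` the maximum of all these numbers, `m = 1` if some `s_j ≠ 0` and `m = 0` otherwise. If `t_a ≠ 0` and `s_j ≠ 0` then `t * ‖x a - R j‖ < 1`, so `t < 1 / D a`, `D a` the distance of `x a` to the nearest nucleus; and `τ ≤ X ^ 2 * min 1 (J (x a) + L / t)` with `X = sup |χ|` because all positions with nonzero factor are at distance less than `1 / t` from `x a`. Since `∫ c, χ (c + t • x a) ^ 2 = 1`, `VS ≥ - C ∑ a, J (x a) ∫ t in (1, 1 / D a), min 1 (J (x a) + L / t)`, and `min 1 (J + L / t) ≤ J + (L / t) ^ (1/2)`, so the integral is at most `J / D a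 + 2 L ^ (1/2) (D a) ^ (-1/2)`, and `J (D a) ^ (-1/2) ≤ J ^ 2 / D a + 1` for `0 ≤ J ≤ 1`. Compare `Pool/Agent/H6/CB/VJLow.lean`. -/

open MeasureTheory Finset

namespace H6.CL

open H6.CM H6.CB

/-! ### the integrals -/

/-- the weight of the radius -/
private noncomputable def vw (u : ℝ × E3) : ℝ := if 1 < u.1 then 1 else 0

/-- the weight of a point -/
private noncomputable def wx (χ : E3 → ℝ) (x : E3) (u : ℝ × E3) : ℝ := χ (u.2 + u.1 • x) ^ 2

private theorem vw_meas : Measurable vw :=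
  Measurable.ite (measurableSet_lt measurable_const measurable_fst) measurable_const
    measurable_const

private theorem vw_nonneg (u : ℝ × E3) : 0 ≤ vw u := by
  unfold vw
  split_ifs <;> norm_num

private theorem wx_cont {χ : E3 → ℝ} (h : Bump χ) (x : E3) : Continuous (wx χ x) := by
  unfold wx
  exact (h.smooth.continuous.comp (continuous_snd.add (continuous_fst.smul continuous_const))).pow 2

private theorem wx_nonneg (χ : E3 → ℝ) (x : E3) (u : ℝ × E3) : 0 ≤ wx χ x u := sq_nonneg _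

private theorem vjs_prod (F : ℝ × E3 → ℝ) (hF : Measurable F) (h0 : ∀ u, 0 ≤ F u) (g : ℝ → ℝ)
    (hg : Integrable g) (hi : ∀ t, Integrable fun c => F (t, c))
    (he : ∀ t, ∫ c, F (t, c) = g t) : Integrable F ∧ ∫ u, F u = ∫ t, g t := by
  have h1 : Integrable F (Measure.prod volume volume) := by
    rw [integrable_prod_iff hF.aestronglyMeasurable]
    refine ⟨Filter.Eventually.of_forall hi, ?_⟩
    refine hg.congr (Filter.Eventually.of_forall fun t => ?_)
    simp only [Real.norm_of_nonneg (h0 _)]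
    exact (he t).symm
  refine ⟨by rw [Measure.volume_eq_prod]; exact h1, ?_⟩
  have h2 : ∫ u, F u = ∫ t, ∫ c, F (t, c) := by
    rw [Measure.volume_eq_prod]
    exact integral_prod F h1
  rw [h2]
  exact integral_congr_ae (Filter.Eventually.of_forall he)

private theorem vjs_cpt {χ : E3 → ℝ} (h : Bump χ) : Integrable (fun w => χ w ^ 2) := by
  refine (h.smooth.continuous.pow 2).integrable_of_hasCompactSupport ?_
  refine HasCompactSupport.intro (isCompact_closedBall (0 : E3) (1 / 2)) fun w hw => ?_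
  have h0 : χ w = 0 := by
    by_contra h0
    apply hw
    rw [Metric.mem_closedBall, dist_zero_right]
    exact (h.supp w h0).le
  show χ w ^ 2 = 0
  rw [h0]
  norm_num

private theorem vjs_g {χ : E3 → ℝ} (h : Bump χ) (x : E3) (g : ℝ → ℝ) (hm : Measurable g)
    (h0 : ∀ t, 0 ≤ g t) (hi : IntegrableOn g (Set.Ioi 1)) :
    Integrable (fun u : ℝ × E3 => vw u * (wx χ x u * g u.1)) ∧
      ∫ u : ℝ × E3, vw u * (wx χ x u * g u.1) = ∫ t in Set.Ioi 1, g t := by
  have e := vjs_prod (fun u => vw u * (wx χ x u * g u.1))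
    (vw_meas.mul ((wx_cont h x).measurable.mul (hm.comp measurable_fst)))
    (fun u => mul_nonneg (vw_nonneg u) (mul_nonneg (wx_nonneg χ x u) (h0 _)))
    (Set.indicator (Set.Ioi 1) g) (hi.integrable_indicator measurableSet_Ioi) ?_ ?_
  · rw [integral_indicator measurableSet_Ioi] at e
    exact e
  · intro t
    have h1 : Integrable (fun c : E3 => χ (c + t • x) ^ 2) :=
      (vjs_cpt h).comp_add_right (t • x)
    exact (h1.mul_const (g t)).const_mul (vw (t, 0))
  · intro t
    have h1 : ∫ c : E3, χ (c + t • x) ^ 2 = 1 := by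
      rw [integral_add_right_eq_self (fun c => χ c ^ 2) (t • x)]
      exact h.norm
    have h2 : ∫ c : E3, vw (t, c) * (wx χ x (t, c) * g (t, c).1) =
        ∫ c : E3, vw (t, 0) * (χ (c + t • x) ^ 2 * g t) := rfl
    rw [h2, integral_const_mul, integral_mul_const, h1, one_mul]
    unfold vw
    by_cases ht : 1 < t
    · rw [Set.indicator_of_mem (show t ∈ Set.Ioi (1 : ℝ) from ht), if_pos ht, one_mul]
    · rw [Set.indicator_of_notMem (show t ∉ Set.Ioi (1 : ℝ) from ht), if_neg ht, zero_mul]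

private theorem vjs_ker {χ : E3 → ℝ} (h : Bump χ) (x y : E3) (hxy : x ≠ y) :
    Integrable (fun u : ℝ × E3 => vw u * (wx χ x u * wx χ y u)) ∧
      ∫ u : ℝ × E3, vw u * (wx χ x u * wx χ y u) = (cH χ)⁻¹ * KS χ (x - y) := by
  obtain ⟨hi, hk⟩ := KS_int h (x - y) (sub_ne_zero.2 hxy)
  have hline : ∀ t : ℝ, ∫ c : E3, χ (c + t • x) ^ 2 * χ (c + t • y) ^ 2 =
      HH χ (t • (x - y)) := by
    intro t
    unfold HH
    rw [← integral_add_right_eq_self (fun c => χ c ^ 2 * χ (c + t • (x - y)) ^ 2) (t • y)]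
    refine integral_congr_ae (Filter.Eventually.of_forall fun c => ?_)
    simp only
    have h1 : c + t • y + t • (x - y) = c + t • x := by
      rw [smul_sub]
      abel
    rw [h1]
    ring
  have e := vjs_prod (fun u => vw u * (wx χ x u * wx χ y u))
    (vw_meas.mul ((wx_cont h x).measurable.mul (wx_cont h y).measurable))
    (fun u => mul_nonneg (vw_nonneg u) (mul_nonneg (wx_nonneg χ x u) (wx_nonneg χ y u)))
    (Set.indicator (Set.Ioi 1) fun t => HH χ (t • (x - y)))
    (hi.integrable_indicator measurableSet_Ioi) ?_ ?_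
  · rw [integral_indicator measurableSet_Ioi] at e
    refine ⟨e.1, ?_⟩
    rw [e.2, hk, ← mul_assoc, inv_mul_cancel₀ (cH_pos h).ne', one_mul]
  · intro t
    have h1 : Integrable (fun c : E3 => χ (c + t • x) ^ 2 * χ (c + t • y) ^ 2) := by
      refine Continuous.integrable_of_hasCompactSupport ?_ ?_
      · exact ((h.smooth.continuous.comp (continuous_id.add continuous_const)).pow 2).mul
          ((h.smooth.continuous.comp (continuous_id.add continuous_const)).pow 2)
      · refine HasCompactSupport.intro (isCompact_closedBall (-(t • x)) (1 / 2)) fun w hw => ?_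
        have h0 : χ (w + t • x) = 0 := by
          by_contra h0
          apply hw
          rw [Metric.mem_closedBall, dist_eq_norm, sub_neg_eq_add]
          exact (h.supp _ h0).le
        rw [h0]
        norm_num
    exact h1.const_mul (vw (t, 0))
  · intro t
    have h2 : ∫ c : E3, vw (t, c) * (wx χ x (t, c) * wx χ y (t, c)) =
        ∫ c : E3, vw (t, 0) * (χ (c + t • x) ^ 2 * χ (c + t • y) ^ 2) := rfl
    rw [h2, integral_const_mul, hline]
    unfold vw
    by_cases ht : 1 < t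
    · rw [Set.indicator_of_mem (show t ∈ Set.Ioi (1 : ℝ) from ht), if_pos ht, one_mul]
    · rw [Set.indicator_of_notMem (show t ∉ Set.Ioi (1 : ℝ) from ht), if_neg ht, zero_mul]

private theorem vjs_cut (S : ℝ) (f : ℝ → ℝ) (hf : IntegrableOn f (Set.Ioo 1 S)) :
    IntegrableOn (fun t => if t < S then f t else 0) (Set.Ioi 1) ∧
      ∫ t in Set.Ioi 1, (if t < S then f t else 0) = ∫ t in Set.Ioo 1 S, f t := by
  have h1 : (fun t => if t < S then f t else 0) = (Set.Iio S).indicator f := by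
    funext t
    rw [Set.indicator_apply]
    rfl
  have h2 : Set.Iio S ∩ Set.Ioi 1 = Set.Ioo 1 S := by
    ext t
    rw [Set.mem_inter_iff, Set.mem_Iio, Set.mem_Ioi, Set.mem_Ioo, and_comm]
  rw [h1]
  constructor
  · unfold IntegrableOn
    rw [integrable_indicator_iff measurableSet_Iio, IntegrableOn,
      Measure.restrict_restrict measurableSet_Iio, h2]
    exact hf
  · rw [integral_indicator measurableSet_Iio, Measure.restrict_restrict measurableSet_Iio, h2]

private theorem vjs_one {χ : E3 → ℝ} (h : Bump χ) (x : E3) (S : ℝ) (hS : 0 < S) :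
    Integrable (fun u : ℝ × E3 => vw u * (wx χ x u * (if u.1 < S then (1 : ℝ) else 0))) ∧
      ∫ u : ℝ × E3, vw u * (wx χ x u * (if u.1 < S then (1 : ℝ) else 0)) ≤ S := by
  have h1 : IntegrableOn (fun _ : ℝ => (1 : ℝ)) (Set.Ioo 1 S) :=
    integrableOn_const (by rw [Real.volume_Ioo]; exact ENNReal.ofReal_ne_top)
  obtain ⟨h2, h3⟩ := vjs_cut S (fun _ => 1) h1
  obtain ⟨h4, h5⟩ := vjs_g h x (fun t => if t < S then 1 else 0)
    (Measurable.ite measurableSet_Iio measurable_const measurable_const)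
    (fun t => by split_ifs <;> norm_num) h2
  refine ⟨h4, ?_⟩
  rw [h5, h3, setIntegral_const, smul_eq_mul, mul_one, Real.volume_real_Ioo]
  exact max_le (by linarith) hS.le

private theorem vjs_half {χ : E3 → ℝ} (h : Bump χ) (x : E3) (S : ℝ) (hS : 0 < S) :
    Integrable (fun u : ℝ × E3 =>
      vw u * (wx χ x u * (if u.1 < S then (Real.sqrt u.1)⁻¹ else 0))) ∧
      ∫ u : ℝ × E3, vw u * (wx χ x u * (if u.1 < S then (Real.sqrt u.1)⁻¹ else 0)) ≤
        2 * Real.sqrt S := by
  have h1 : IntegrableOn (fun t : ℝ => (Real.sqrt t)⁻¹) (Set.Ioo 1 S) := by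
    refine IntegrableOn.mono_set ?_ Set.Ioo_subset_Icc_self
    refine ContinuousOn.integrableOn_compact isCompact_Icc ?_
    refine ContinuousOn.inv₀ Real.continuous_sqrt.continuousOn fun t ht => ?_
    exact (Real.sqrt_pos.2 (lt_of_lt_of_le one_pos ht.1)).ne'
  obtain ⟨h2, h3⟩ := vjs_cut S (fun t => (Real.sqrt t)⁻¹) h1
  obtain ⟨h4, h5⟩ := vjs_g h x (fun t => if t < S then (Real.sqrt t)⁻¹ else 0)
    (Measurable.ite measurableSet_Iio Real.continuous_sqrt.measurable.inv measurable_const)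
    (fun t => by
      split_ifs
      · exact inv_nonneg.2 (Real.sqrt_nonneg _)
      · exact le_rfl) h2
  refine ⟨h4, ?_⟩
  rw [h5, h3]
  rcases le_or_gt S 1 with h6 | h6
  · rw [Set.Ioo_eq_empty (by linarith), Measure.restrict_empty, integral_zero_measure]
    positivity
  · rw [← integral_Ioc_eq_integral_Ioo, ← intervalIntegral.integral_of_le h6.le]
    have h7 : ∫ t in (1 : ℝ)..S, (Real.sqrt t)⁻¹ = ∫ t in (1 : ℝ)..S, t ^ (-(1 / 2) : ℝ) := by
      refine intervalIntegral.integral_congr fun t ht => ?_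
      rw [Set.uIcc_of_le h6.le, Set.mem_Icc] at ht
      show (Real.sqrt t)⁻¹ = t ^ (-(1 / 2) : ℝ)
      rw [Real.rpow_neg (by linarith), ← Real.sqrt_eq_rpow]
    rw [h7, integral_rpow (Or.inl (by norm_num))]
    have h8 : (-(1 / 2) : ℝ) + 1 = 1 / 2 := by norm_num
    rw [h8, ← Real.sqrt_eq_rpow, Real.one_rpow]
    have h9 := Real.sqrt_nonneg S
    linarith

/-! ### the pointwise inequality -/

private theorem pointwise {n k : ℕ} (hk : 0 < k) (z : Fin k → ℝ) (zp : ℝ) (hzp : 0 ≤ zp)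
    (hz : ∀ j, 0 ≤ z j ∧ z j ≤ zp) (p : Cfg n k) {χ : E3 → ℝ} (h : Bump χ) (X : ℝ) (hX0 : 0 ≤ X)
    (hX : ∀ v, χ v ^ 2 ≤ X) (J : E3 → ℝ) (hJ : ∀ v, 0 ≤ J v ∧ J v ≤ 1)
    (L : ℝ) (hL : 0 ≤ L) (hlip : ∀ u v, |J u - J v| ≤ L * ‖u - v‖)
    (S : Fin n → ℝ) (hS : ∀ a j, ‖p.1 a - p.2 j‖⁻¹ ≤ S a) (hne : ∀ a j, p.1 a ≠ p.2 j)
    (u : ℝ × E3) :
    ∑ a, -(2 * (1 + zp) ^ 2 * X) *
        (J (p.1 a) ^ 2 * (vw u * (wx χ (p.1 a) u * (if u.1 < S a then (1 : ℝ) else 0))) +
          J (p.1 a) * Real.sqrt L * (vw u *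
            (wx χ (p.1 a) u * (if u.1 < S a then (Real.sqrt u.1)⁻¹ else 0)))) ≤
      (∑ a, ∑ b ∈ univ.erase a, (J (p.1 a) * J (p.1 b)) *
          (vw u * (wx χ (p.1 a) u * wx χ (p.1 b) u))) / 2 -
        ∑ a, ∑ j, (z j * (J (p.1 a) * J (p.2 j))) *
          (vw u * (wx χ (p.1 a) u * wx χ (p.2 j) u)) +
        (∑ j, ∑ l ∈ univ.erase j, (z j * z l * (J (p.2 j) * J (p.2 l))) *
          (vw u * (wx χ (p.2 j) u * wx χ (p.2 l) u))) / 2 := by
  classical
  have : Nonempty (Fin k) := ⟨⟨0, hk⟩⟩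
  by_cases hu : 1 < u.1
  · have hv : vw u = 1 := if_pos hu
    simp only [hv, one_mul]
    have hu0 : 0 < u.1 := by linarith
    obtain ⟨t, ht⟩ : ∃ t : Fin n → ℝ, ∀ a, t a = J (p.1 a) * wx χ (p.1 a) u := ⟨_, fun _ => rfl⟩
    obtain ⟨s, hs⟩ : ∃ s : Fin k → ℝ, ∀ j, s j = J (p.2 j) * wx χ (p.2 j) u := ⟨_, fun _ => rfl⟩
    obtain ⟨τ, hτ⟩ : ∃ τ : ℝ, τ = ⨆ i : Fin n ⊕ Fin k, Sum.elim t s i := ⟨_, rfl⟩
    have hbdd : BddAbove (Set.range fun i : Fin n ⊕ Fin k => Sum.elim t s i) :=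
      (Set.finite_range _).bddAbove
    have htn : ∀ a, 0 ≤ t a := fun a => by
      rw [ht]
      exact mul_nonneg (hJ _).1 (wx_nonneg _ _ _)
    have hsn : ∀ j, 0 ≤ s j := fun j => by
      rw [hs]
      exact mul_nonneg (hJ _).1 (wx_nonneg _ _ _)
    have htτ : ∀ a, t a ≤ τ := fun a => by
      rw [hτ]
      exact le_ciSup hbdd (Sum.inl a)
    have hsτ : ∀ j, s j ≤ τ := fun j => by
      rw [hτ]
      exact le_ciSup hbdd (Sum.inr j)
    have hτ0 : 0 ≤ τ := (hsn ⟨0, hk⟩).trans (hsτ ⟨0, hk⟩)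
    obtain ⟨m, hm⟩ : ∃ m : ℝ, m = if ∃ j, s j ≠ 0 then (1 : ℝ) else 0 := ⟨_, rfl⟩
    have hm1 : (∃ j, s j ≠ 0) → m = 1 := by
      intro h
      rw [hm, if_pos h]
    have hm0 : 0 ≤ m := by
      rw [hm]
      split_ifs <;> norm_num
    have h2 := combJ z zp τ hz hzp hτ0 t s (fun a => ⟨htn a, htτ a⟩) (fun j => ⟨hsn j, hsτ j⟩)
      m hm1 hm0
    have h3 : ((∑ a, ∑ b ∈ univ.erase a, t a * t b) / 2 -
        ∑ a, ∑ j, z j * (t a * s j) +
        (∑ j, ∑ l ∈ univ.erase j, z j * z l * (s j * s l)) / 2)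
        = (∑ a, ∑ b ∈ univ.erase a, (J (p.1 a) * J (p.1 b)) *
          (wx χ (p.1 a) u * wx χ (p.1 b) u)) / 2 -
        ∑ a, ∑ j, (z j * (J (p.1 a) * J (p.2 j))) *
          (wx χ (p.1 a) u * wx χ (p.2 j) u) +
        (∑ j, ∑ l ∈ univ.erase j, (z j * z l * (J (p.2 j) * J (p.2 l))) *
          (wx χ (p.2 j) u * wx χ (p.2 l) u)) / 2 := by
      congr 1
      · congr 1
        · congr 1
          refine sum_congr rfl fun a _ => sum_congr rfl fun b _ => ?_
          rw [ht, ht]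
          ring
        · refine sum_congr rfl fun a _ => sum_congr rfl fun j _ => ?_
          rw [ht, hs]
          ring
      · congr 1
        refine sum_congr rfl fun j _ => sum_congr rfl fun l _ => ?_
        rw [hs, hs]
        ring
    rw [← h3]
    refine le_trans ?_ h2
    rw [mul_sum]
    refine sum_le_sum fun a _ => ?_
    have h5 : t a * τ * m ≤
        X * (J (p.1 a) ^ 2 * (wx χ (p.1 a) u * (if u.1 < S a then (1 : ℝ) else 0)) +
        J (p.1 a) * Real.sqrt L *
          (wx χ (p.1 a) u * (if u.1 < S a then (Real.sqrt u.1)⁻¹ else 0))) := by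
      have hJa := hJ (p.1 a)
      have hw0 := wx_nonneg χ (p.1 a) u
      by_cases h6 : wx χ (p.1 a) u = 0
      · rw [ht, h6]
        simp
      · by_cases h7 : ∃ j, s j ≠ 0
        · have hsup : ∀ v, wx χ v u ≠ 0 → ‖u.2 + u.1 • v‖ < 1 / 2 := by
            intro v hv
            refine h.supp _ fun h0 => hv ?_
            unfold wx
            rw [h0]
            norm_num
          have hdist : ∀ v, wx χ v u ≠ 0 → ‖v - p.1 a‖ < u.1⁻¹ := by
            intro v hv
            have h8 := hsup _ h6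
            have h9 := hsup _ hv
            have h10 : u.1 * ‖v - p.1 a‖ < 1 := by
              have h11 : u.1 * ‖v - p.1 a‖ = ‖u.1 • (v - p.1 a)‖ := by
                rw [norm_smul, Real.norm_eq_abs, abs_of_pos hu0]
              rw [h11]
              calc ‖u.1 • (v - p.1 a)‖ = ‖(u.2 + u.1 • v) - (u.2 + u.1 • p.1 a)‖ := by
                    congr 1
                    rw [smul_sub]
                    abel
                _ ≤ ‖u.2 + u.1 • v‖ + ‖u.2 + u.1 • p.1 a‖ := norm_sub_le _ _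
                _ < 1 := by linarith
            calc ‖v - p.1 a‖ = u.1⁻¹ * (u.1 * ‖v - p.1 a‖) := by
                  rw [← mul_assoc, inv_mul_cancel₀ hu0.ne', one_mul]
              _ < u.1⁻¹ * 1 := mul_lt_mul_of_pos_left h10 (inv_pos.2 hu0)
              _ = _ := mul_one _
          obtain ⟨j, hj⟩ := h7
          have hbj : wx χ (p.2 j) u ≠ 0 := by
            intro h0
            apply hj
            rw [hs, h0, mul_zero]
          have hlt : u.1 < S a := by
            have h8 := hdist _ hbj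
            have h9 : 0 < ‖p.1 a - p.2 j‖ := norm_pos_iff.2 (sub_ne_zero.2 (hne a j))
            rw [norm_sub_rev] at h8
            have h10 : u.1 < ‖p.1 a - p.2 j‖⁻¹ := by
              rw [lt_inv_comm₀ hu0 h9]
              exact h8
            exact lt_of_lt_of_le h10 (hS a j)
          rw [if_pos hlt, if_pos hlt, hm1 ⟨j, hj⟩, mul_one, mul_one]
          -- the bound of `τ`
          have hsq : Real.sqrt L * (Real.sqrt u.1)⁻¹ = Real.sqrt (L * u.1⁻¹) := by
            rw [Real.sqrt_mul hL, Real.sqrt_inv]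
          have hx0 : 0 ≤ L * u.1⁻¹ := by positivity
          have hR0 : 0 ≤ J (p.1 a) + Real.sqrt (L * u.1⁻¹) := by
            have := Real.sqrt_nonneg (L * u.1⁻¹)
            linarith [hJa.1]
          have hb : ∀ v : E3, J v * wx χ v u ≤ X * (J (p.1 a) + Real.sqrt (L * u.1⁻¹)) := by
            intro v
            by_cases h8 : wx χ v u = 0
            · rw [h8, mul_zero]
              exact mul_nonneg hX0 hR0
            · have h9 := hdist v h8
              have h10 := (abs_le.mp (hlip v (p.1 a))).2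
              have h11 : L * ‖v - p.1 a‖ ≤ L * u.1⁻¹ := mul_le_mul_of_nonneg_left h9.le hL
              have h12 : J v ≤ J (p.1 a) + Real.sqrt (L * u.1⁻¹) := by
                have hs0 := Real.sqrt_nonneg (L * u.1⁻¹)
                have hs1 := Real.sq_sqrt hx0
                rcases le_or_gt (L * u.1⁻¹) 1 with h | h
                · have : L * u.1⁻¹ ≤ Real.sqrt (L * u.1⁻¹) := Real.le_sqrt_of_sq_le (by nlinarith)
                  linarith
                · have : 1 ≤ Real.sqrt (L * u.1⁻¹) := Real.one_le_sqrt.mpr h.le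
                  linarith [hJa.1, (hJ v).2]
              calc J v * wx χ v u ≤ (J (p.1 a) + Real.sqrt (L * u.1⁻¹)) * X :=
                    mul_le_mul h12 (hX _) (wx_nonneg _ _ _) hR0
                _ = _ := mul_comm _ _
          have hτ2 : τ ≤ X * (J (p.1 a) + Real.sqrt (L * u.1⁻¹)) := by
            rw [hτ]
            refine ciSup_le fun i => ?_
            rcases i with i | i
            · show t i ≤ _
              rw [ht]
              exact hb _
            · show s i ≤ _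
              rw [hs]
              exact hb _
          have h13 := mul_le_mul_of_nonneg_left hτ2 (htn a)
          refine h13.trans (le_of_eq ?_)
          rw [ht, ← hsq]
          ring
        · rw [hm, if_neg h7, mul_zero]
          have h8 : 0 ≤ (if u.1 < S a then (1 : ℝ) else 0) := by split_ifs <;> norm_num
          have h9 : 0 ≤ (if u.1 < S a then (Real.sqrt u.1)⁻¹ else 0) := by
            split_ifs
            · exact inv_nonneg.2 (Real.sqrt_nonneg _)
            · exact le_refl _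
          have h10 := Real.sqrt_nonneg L
          have h11 := hJa.1
          positivity
    have h12 : 0 ≤ 2 * (1 + zp) ^ 2 := by positivity
    have h13 := mul_le_mul_of_nonneg_left h5 h12
    linarith
  · have hv : vw u = 0 := if_neg hu
    simp only [hv, zero_mul, mul_zero, sum_const_zero, zero_div, sub_zero, add_zero]
    exact le_refl _

/-- the pointwise inequality integrated -/
private theorem integrated {n k : ℕ} (hk : 0 < k) (z : Fin k → ℝ) (zp : ℝ) (hzp : 0 ≤ zp)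
    (hz : ∀ j, 0 ≤ z j ∧ z j ≤ zp) (p : Cfg n k) (h1 : Function.Injective p.1)
    (h2 : Function.Injective p.2) (h3 : ∀ a j, p.1 a ≠ p.2 j) {χ : E3 → ℝ} (h : Bump χ) (X : ℝ)
    (hX0 : 0 ≤ X) (hX : ∀ v, χ v ^ 2 ≤ X) (J : E3 → ℝ)
    (hJ : ∀ v, 0 ≤ J v ∧ J v ≤ 1) (L : ℝ) (hL : 0 ≤ L) (hlip : ∀ u v, |J u - J v| ≤ L * ‖u - v‖)
    (S : Fin n → ℝ) (hSpos : ∀ a, 0 < S a) (hS : ∀ a j, ‖p.1 a - p.2 j‖⁻¹ ≤ S a) :
    ∑ a, -(2 * (1 + zp) ^ 2 * X) * (J (p.1 a) ^ 2 * S a +
      J (p.1 a) * Real.sqrt L * (2 * Real.sqrt (S a))) ≤ (cH χ)⁻¹ * VS χ J z p := by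
  obtain ⟨c, hc⟩ : ∃ c, c = (cH χ)⁻¹ := ⟨_, rfl⟩
  have hfdl := vjs_ker h
  rw [← hc]
  rw [← hc] at hfdl
  have hpw := pointwise hk z zp hzp hz p h X hX0 hX J hJ L hL hlip S hS h3
  have i1 : ∀ a, ∀ b ∈ univ.erase a, Integrable (fun u : ℝ × E3 => (J (p.1 a) * J (p.1 b)) *
      (vw u * (wx χ (p.1 a) u * wx χ (p.1 b) u))) := by
    intro a b hb
    exact (hfdl _ _ (fun h => (ne_of_mem_erase hb) (h1 h).symm)).1.const_mul _
  have i2 : ∀ a j, Integrable (fun u : ℝ × E3 => (z j * (J (p.1 a) * J (p.2 j))) *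
      (vw u * (wx χ (p.1 a) u * wx χ (p.2 j) u))) := by
    intro a j
    exact (hfdl _ _ (h3 a j)).1.const_mul _
  have i3 : ∀ j, ∀ l ∈ univ.erase j, Integrable (fun u : ℝ × E3 =>
      (z j * z l * (J (p.2 j) * J (p.2 l))) *
      (vw u * (wx χ (p.2 j) u * wx χ (p.2 l) u))) := by
    intro j l hl
    exact (hfdl _ _ (fun h => (ne_of_mem_erase hl) (h2 h).symm)).1.const_mul _
  have i1' : ∀ a, Integrable (fun u : ℝ × E3 => ∑ b ∈ univ.erase a, (J (p.1 a) * J (p.1 b)) *
      (vw u * (wx χ (p.1 a) u * wx χ (p.1 b) u))) := fun a =>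
    integrable_finsetSum _ (i1 a)
  have i2' : ∀ a, Integrable (fun u : ℝ × E3 => ∑ j, (z j * (J (p.1 a) * J (p.2 j))) *
      (vw u * (wx χ (p.1 a) u * wx χ (p.2 j) u))) := fun a =>
    integrable_finsetSum _ (fun j _ => i2 a j)
  have i3' : ∀ j, Integrable (fun u : ℝ × E3 => ∑ l ∈ univ.erase j,
      (z j * z l * (J (p.2 j) * J (p.2 l))) *
      (vw u * (wx χ (p.2 j) u * wx χ (p.2 l) u))) := fun j =>
    integrable_finsetSum _ (i3 j)
  have i1'' : Integrable (fun u : ℝ × E3 => ∑ a, ∑ b ∈ univ.erase a,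
      (J (p.1 a) * J (p.1 b)) * (vw u * (wx χ (p.1 a) u * wx χ (p.1 b) u))) :=
    integrable_finsetSum _ (fun a _ => i1' a)
  have i2'' : Integrable (fun u : ℝ × E3 => ∑ a, ∑ j,
      (z j * (J (p.1 a) * J (p.2 j))) * (vw u * (wx χ (p.1 a) u * wx χ (p.2 j) u))) :=
    integrable_finsetSum _ (fun a _ => i2' a)
  have i3'' : Integrable (fun u : ℝ × E3 => ∑ j, ∑ l ∈ univ.erase j,
      (z j * z l * (J (p.2 j) * J (p.2 l))) *
      (vw u * (wx χ (p.2 j) u * wx χ (p.2 l) u))) :=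
    integrable_finsetSum _ (fun j _ => i3' j)
  have j1 : Integrable (fun u : ℝ × E3 => (∑ a, ∑ b ∈ univ.erase a,
      (J (p.1 a) * J (p.1 b)) * (vw u * (wx χ (p.1 a) u * wx χ (p.1 b) u))) / 2) :=
    i1''.div_const 2
  have j3 : Integrable (fun u : ℝ × E3 => (∑ j, ∑ l ∈ univ.erase j,
      (z j * z l * (J (p.2 j) * J (p.2 l))) *
      (vw u * (wx χ (p.2 j) u * wx χ (p.2 l) u))) / 2) := i3''.div_const 2
  have j12 : Integrable (fun u : ℝ × E3 => (∑ a, ∑ b ∈ univ.erase a, (J (p.1 a) * J (p.1 b)) *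
          (vw u * (wx χ (p.1 a) u * wx χ (p.1 b) u))) / 2 -
        ∑ a, ∑ j, (z j * (J (p.1 a) * J (p.2 j))) *
          (vw u * (wx χ (p.1 a) u * wx χ (p.2 j) u))) := j1.sub i2''
  have hG : Integrable (fun u : ℝ × E3 => (∑ a, ∑ b ∈ univ.erase a, (J (p.1 a) * J (p.1 b)) *
          (vw u * (wx χ (p.1 a) u * wx χ (p.1 b) u))) / 2 -
        ∑ a, ∑ j, (z j * (J (p.1 a) * J (p.2 j))) *
          (vw u * (wx χ (p.1 a) u * wx χ (p.2 j) u)) +
        (∑ j, ∑ l ∈ univ.erase j, (z j * z l * (J (p.2 j) * J (p.2 l))) *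
          (vw u * (wx χ (p.2 j) u * wx χ (p.2 l) u))) / 2) := j12.add j3
  have hGval : ∫ u : ℝ × E3, ((∑ a, ∑ b ∈ univ.erase a, (J (p.1 a) * J (p.1 b)) *
          (vw u * (wx χ (p.1 a) u * wx χ (p.1 b) u))) / 2 -
        ∑ a, ∑ j, (z j * (J (p.1 a) * J (p.2 j))) *
          (vw u * (wx χ (p.1 a) u * wx χ (p.2 j) u)) +
        (∑ j, ∑ l ∈ univ.erase j, (z j * z l * (J (p.2 j) * J (p.2 l))) *
          (vw u * (wx χ (p.2 j) u * wx χ (p.2 l) u))) / 2) = c * VS χ J z p := by
    rw [integral_add j12 j3, integral_sub j1 i2'', integral_div, integral_div,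
      integral_finsetSum _ (fun a _ => i1' a), integral_finsetSum _ (fun a _ => i2' a),
      integral_finsetSum _ (fun j _ => i3' j)]
    have v1 : ∀ a, ∫ u : ℝ × E3, ∑ b ∈ univ.erase a, (J (p.1 a) * J (p.1 b)) *
        (vw u * (wx χ (p.1 a) u * wx χ (p.1 b) u)) =
        c * ∑ b ∈ univ.erase a, J (p.1 a) * J (p.1 b) * KS χ (p.1 a - p.1 b) := by
      intro a
      rw [integral_finsetSum _ (i1 a), mul_sum]
      refine sum_congr rfl fun b hb => ?_
      rw [integral_const_mul, (hfdl _ _ (fun h => (ne_of_mem_erase hb) (h1 h).symm)).2]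
      ring
    have v2 : ∀ a, ∫ u : ℝ × E3, ∑ j, (z j * (J (p.1 a) * J (p.2 j))) *
        (vw u * (wx χ (p.1 a) u * wx χ (p.2 j) u)) =
        c * ∑ j, z j * (J (p.1 a) * J (p.2 j) * KS χ (p.1 a - p.2 j)) := by
      intro a
      rw [integral_finsetSum _ (fun j _ => i2 a j), mul_sum]
      refine sum_congr rfl fun j _ => ?_
      rw [integral_const_mul, (hfdl _ _ (h3 a j)).2]
      ring
    have v3 : ∀ j, ∫ u : ℝ × E3, ∑ l ∈ univ.erase j, (z j * z l * (J (p.2 j) * J (p.2 l))) *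
        (vw u * (wx χ (p.2 j) u * wx χ (p.2 l) u)) =
        c * ∑ l ∈ univ.erase j, z j * z l * (J (p.2 j) * J (p.2 l) * KS χ (p.2 j - p.2 l)) := by
      intro j
      rw [integral_finsetSum _ (i3 j), mul_sum]
      refine sum_congr rfl fun l hl => ?_
      rw [integral_const_mul, (hfdl _ _ (fun h => (ne_of_mem_erase hl) (h2 h).symm)).2]
      ring
    simp only [v1, v2, v3]
    unfold VS
    rw [← mul_sum, ← mul_sum, ← mul_sum]
    ring
  have k1 : ∀ a, Integrable (fun u : ℝ × E3 => J (p.1 a) ^ 2 * (vw u *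
      (wx χ (p.1 a) u * (if u.1 < S a then (1 : ℝ) else 0)))) :=
    fun a => (vjs_one h (p.1 a) (S a) (hSpos a)).1.const_mul _
  have k2 : ∀ a, Integrable (fun u : ℝ × E3 => J (p.1 a) * Real.sqrt L * (vw u *
      (wx χ (p.1 a) u * (if u.1 < S a then (Real.sqrt u.1)⁻¹ else 0)))) :=
    fun a => (vjs_half h (p.1 a) (S a) (hSpos a)).1.const_mul _
  have i4 : ∀ a, Integrable (fun u : ℝ × E3 => -(2 * (1 + zp) ^ 2 * X) *
      (J (p.1 a) ^ 2 * (vw u *
        (wx χ (p.1 a) u * (if u.1 < S a then (1 : ℝ) else 0))) +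
      J (p.1 a) * Real.sqrt L * (vw u *
        (wx χ (p.1 a) u * (if u.1 < S a then (Real.sqrt u.1)⁻¹ else 0))))) :=
    fun a => ((k1 a).add (k2 a)).const_mul _
  have hH := integrable_finsetSum univ (fun a _ => i4 a)
  have hmono := integral_mono hH hG hpw
  rw [hGval, integral_finsetSum _ (fun a _ => i4 a)] at hmono
  refine le_trans (sum_le_sum fun a _ => ?_) hmono
  rw [integral_const_mul, integral_add (k1 a) (k2 a), integral_const_mul, integral_const_mul]
  have h6 := (vjs_one h (p.1 a) (S a) (hSpos a)).2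
  have h7 := (vjs_half h (p.1 a) (S a) (hSpos a)).2
  have h8 := mul_le_mul_of_nonneg_left h6 (sq_nonneg (J (p.1 a)))
  have h9 := mul_le_mul_of_nonneg_left h7
    (mul_nonneg (hJ (p.1 a)).1 (Real.sqrt_nonneg L))
  have h10 : 0 ≤ 2 * (1 + zp) ^ 2 * X := by positivity
  have h11 := mul_le_mul_of_nonneg_left (add_le_add h8 h9) h10
  linarith

theorem vjs (zp : ℝ) (hzp : 0 ≤ zp) {χ : E3 → ℝ} (hχ : Bump χ) (L : ℝ) (hL : 0 ≤ L) :
    ∃ K : ℝ, 0 ≤ K ∧
    ∀ (J : E3 → ℝ) (_ : Continuous J) (_ : ∀ v, 0 ≤ J v ∧ J v ≤ 1)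
    (_ : ∀ u v, |J u - J v| ≤ L * ‖u - v‖)
    (n k : ℕ) (z : Fin k → ℝ) (_ : ∀ j, 0 ≤ z j ∧ z j ≤ zp)
    (p : Cfg n k) (_ : Function.Injective p.1) (_ : Function.Injective p.2)
    (_ : ∀ a j, p.1 a ≠ p.2 j),
    -(K * ((∑ a, J (p.1 a) ^ 2 * (⨆ j, ‖p.1 a - p.2 j‖⁻¹)) +
      ∑ a, (if J (p.1 a) = 0 then 0 else 1))) ≤ VS χ J z p := by
  have hcpt : HasCompactSupport (fun w => χ w ^ 2) := by
    refine HasCompactSupport.intro (isCompact_closedBall (0 : E3) (1 / 2)) fun w hw => ?_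
    have h0 : χ w = 0 := by
      by_contra h0
      apply hw
      rw [Metric.mem_closedBall, dist_zero_right]
      exact (hχ.supp w h0).le
    simp only [h0]
    norm_num
  obtain ⟨X0, hX00⟩ := hcpt.exists_bound_of_continuous (hχ.smooth.continuous.pow 2)
  obtain ⟨X, hXX⟩ : ∃ X, X = max X0 0 := ⟨_, rfl⟩
  have hX0 : 0 ≤ X := by
    rw [hXX]
    exact le_max_right _ _
  have hX : ∀ v, χ v ^ 2 ≤ X := fun v => by
    rw [hXX]
    exact ((le_abs_self _).trans (hX00 v)).trans (le_max_left _ _)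
  have hc := cH_pos hχ
  refine ⟨2 * (1 + zp) ^ 2 * X * (1 + 2 * Real.sqrt L) * cH χ, by positivity,
    fun J hJc hJ hlip n k z hz p h1 h2 h3 => ?_⟩
  have hce : ∀ a, (0 : ℝ) ≤ (if J (p.1 a) = 0 then 0 else 1) := fun a => by
    split_ifs <;> norm_num
  rcases Nat.eq_zero_or_pos k with hk | hk
  · subst hk
    have hs : ∀ a, (⨆ j : Fin 0, ‖p.1 a - p.2 j‖⁻¹) = 0 := fun a => Real.iSup_of_isEmpty _
    simp only [hs, mul_zero, sum_const_zero, zero_add]
    have hV : 0 ≤ VS χ J z p := by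
      unfold VS
      simp only [univ_eq_empty, sum_empty, sum_const_zero, sub_zero, zero_div, add_zero]
      refine div_nonneg (sum_nonneg fun a _ => sum_nonneg fun b hb => ?_) (by norm_num)
      have e1 := (hJ (p.1 a)).1
      have e2 := (hJ (p.1 b)).1
      have e3 : 0 ≤ KS χ (p.1 a - p.1 b) := by
        have := KL_le hχ (p.1 a - p.1 b)
          (sub_ne_zero.2 fun h => (ne_of_mem_erase hb) (h1 h).symm)
        unfold KS
        linarith
      positivity
    refine le_trans ?_ hV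
    rw [neg_nonpos]
    exact mul_nonneg (by positivity) (sum_nonneg fun a _ => hce a)
  · have : Nonempty (Fin k) := ⟨⟨0, hk⟩⟩
    obtain ⟨S, hS⟩ : ∃ S : Fin n → ℝ, S = fun a => ⨆ j, ‖p.1 a - p.2 j‖⁻¹ := ⟨_, rfl⟩
    have hSa : ∀ a, (⨆ j, ‖p.1 a - p.2 j‖⁻¹) = S a := by
      intro a
      rw [hS]
    have hbdd : ∀ a, BddAbove (Set.range fun j => ‖p.1 a - p.2 j‖⁻¹) :=
      fun a => (Set.finite_range _).bddAbove
    have hSle : ∀ a j, ‖p.1 a - p.2 j‖⁻¹ ≤ S a := by
      intro a j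
      rw [hS]
      exact le_ciSup (hbdd a) j
    have hSpos : ∀ a, 0 < S a := by
      intro a
      refine lt_of_lt_of_le ?_ (hSle a ⟨0, hk⟩)
      exact inv_pos.mpr (norm_pos_iff.mpr (sub_ne_zero.mpr (h3 a _)))
    simp only [hSa]
    have hmain := integrated hk z zp hzp hz p h1 h2 h3 hχ X hX0 hX J hJ L hL hlip S hSpos hSle
    have hterm : ∀ a, J (p.1 a) ^ 2 * S a +
        J (p.1 a) * Real.sqrt L * (2 * Real.sqrt (S a)) ≤
        (1 + 2 * Real.sqrt L) *
          (J (p.1 a) ^ 2 * S a + (if J (p.1 a) = 0 then 0 else 1)) := by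
      intro a
      have hs0 := Real.sqrt_nonneg L
      have hj := hJ (p.1 a)
      have hSp := hSpos a
      by_cases hx : J (p.1 a) = 0
      · rw [if_pos hx, hx]
        norm_num
      · rw [if_neg hx]
        have e1 : J (p.1 a) * Real.sqrt (S a) ≤ J (p.1 a) ^ 2 * S a + 1 := by
          have e2 : J (p.1 a) ^ 2 * S a = (J (p.1 a) * Real.sqrt (S a)) ^ 2 := by
            rw [mul_pow, Real.sq_sqrt hSp.le]
          rw [e2]
          nlinarith [sq_nonneg (J (p.1 a) * Real.sqrt (S a) - 1)]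
        have e3 := mul_le_mul_of_nonneg_left e1 hs0
        have e4 : 0 ≤ J (p.1 a) ^ 2 * S a := by positivity
        nlinarith
    have hK : 0 ≤ 2 * (1 + zp) ^ 2 * X := by positivity
    have hsum : -(2 * (1 + zp) ^ 2 * X * (1 + 2 * Real.sqrt L) *
        ((∑ a, J (p.1 a) ^ 2 * S a) + ∑ a, (if J (p.1 a) = 0 then 0 else 1))) ≤
        ∑ a, -(2 * (1 + zp) ^ 2 * X) * (J (p.1 a) ^ 2 * S a +
          J (p.1 a) * Real.sqrt L * (2 * Real.sqrt (S a))) := by
      rw [← sum_add_distrib, mul_sum, ← sum_neg_distrib]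
      refine sum_le_sum fun a _ => ?_
      have := mul_le_mul_of_nonneg_left (hterm a) hK
      linarith
    have h9 := hsum.trans hmain
    have h10 := mul_le_mul_of_nonneg_left h9 hc.le
    rw [← mul_assoc (cH χ) (cH χ)⁻¹, mul_inv_cancel₀ hc.ne', one_mul] at h10
    refine le_trans (le_of_eq ?_) h10
    ring

end H6.CL
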