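import Pool.Agent.H6.CL.KSumL
import Pool.Agent.H6.CL.LFin
import Pool.Agent.H6.CL.VJS
import Pool.Agent.H6.CL.TStL
import Pool.Agent.H6.CL.JLay
import Pool.Agent.H6.CL.ShN
import Pool.Agent.H6.CL.ShI
import Pool.Agent.H6.CB.PhL3
import Pool.Agent.H6.CB.FDefs

/-! The kinetic energy of the boundary layer (compare `Pool/Agent/H6/CB/TLoc.lean`). Let `J = JL R`, `D = shc (R - 42) (R - 39)` (it contains all points at distance at most `1` from the set where `gr J` or `lap J` is not `0`). `ksumL` with `r = R - 42` (`J v ≠ 0` implies `R - 41 < ‖v‖`), `lfin` (with `c = pr χ W z p`), `vjs` (almost everywhere the positions are distinct, see `ae_gen` in `Pool/Agent/H6/CM/Stab.lean`), `tstL` with `r = R - 42`: `(1/2) (∑ kE (J_a ψ) + ∑ κ j kN (J_j ψ)) ≤ C ⟨∫ v in D, (phi - pr) ^ 2⟩ + C ⟨shl (R - 44)⟩ + 2`. `∫ v in D, g ≤ C ∫ x in shc (R - 44) (R - 37), ∫ v in ball x 2, g` for `g ≥ 0`; multiply `ph_l3` with `s = sc l` by `Gs θ x l p ^ 2` and sum over `l` (`Gs_sum_ge`)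 to bound the mean of `∫ v in ball x 2, (phi - pr) ^ 2` by `C (WW χ θ W z ψ x + SS θ ψ x)`. Finally `TO ψ (R - 40)` is at most `∑ kE (J_a ψ) + ∑ kN (J_j ψ)` (`J = 1` on the open set `R - 40 < ‖v‖`), `κm * kN ≤ κ j * kN`, and `2 (n + k + 1) ε ≤ 2`. -/

open MeasureTheory Finset

namespace H6.CL

open H6.CM H6.CB

private theorem tll_shc_meas (a b : ℝ) : MeasurableSet (shc a b) :=
  (measurableSet_le measurable_const measurable_norm).inter
    (measurableSet_le measurable_norm measurable_const)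

private theorem tll_shc_sub (a b : ℝ) : shc a b ⊆ Metric.ball 0 (b + 1) := by
  intro v hv
  rw [Metric.mem_ball, dist_zero_right]
  linarith [hv.2]

private theorem tll_shc_fin (a b : ℝ) : volume (shc a b) < ⊤ :=
  lt_of_le_of_lt (measure_mono (tll_shc_sub a b)) measure_ball_lt_top

private theorem tll_vol (v : E3) : (1 : ℝ) ≤ (volume : Measure E3).real (Metric.ball v 2) := by
  have h1 : (volume : Measure E3).real (Metric.ball v 2) = 8 * (Real.pi * 4 / 3) := by
    rw [Measure.real, EuclideanSpace.volume_ball_fin_three, ENNReal.toReal_mul,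
      ENNReal.toReal_pow, ENNReal.toReal_ofReal (by norm_num),
      ENNReal.toReal_ofReal (by positivity)]
    norm_num
  rw [h1]
  linarith [Real.pi_gt_three]

/-- an integral over a shell and integrals over balls -/
private theorem tll_cov (g : E3 → ℝ) (hg : ∀ v, 0 ≤ g v)
    (hi : ∀ s, IntegrableOn g (Metric.ball 0 s)) (a b : ℝ) :
    ∫ v in shc a b, g v ≤ ∫ x in shc (a - 2) (b + 2), ∫ v in Metric.ball x 2, g v := by
  obtain ⟨S, hS⟩ : ∃ S : Set E3, S = shc (a - 2) (b + 2) := ⟨_, rfl⟩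
  have hSm : MeasurableSet S := by rw [hS]; exact tll_shc_meas _ _
  have hfin : IsFiniteMeasure ((volume : Measure E3).restrict S) :=
    ⟨by rw [Measure.restrict_apply_univ, hS]; exact tll_shc_fin _ _⟩
  obtain ⟨g', hg'⟩ : ∃ g' : E3 → ℝ, g' = (Metric.ball 0 (b + 5)).indicator g := ⟨_, rfl⟩
  have hgi : Integrable g' := by
    rw [hg']
    exact (hi (b + 5)).integrable_indicator measurableSet_ball
  have hg0 : ∀ v, 0 ≤ g' v := fun v => by
    rw [hg']
    exact Set.indicator_nonneg (fun v _ => hg v) v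
  have h1 : Integrable (fun u : E3 × E3 => if ‖u.2 - u.1‖ < 2 then g' u.2 else 0)
      (((volume : Measure E3).restrict S).prod (volume : Measure E3)) := by
    have h1 : Integrable (fun u : E3 × E3 => (1 : ℝ) * g' u.2)
        (((volume : Measure E3).restrict S).prod (volume : Measure E3)) :=
      Integrable.mul_prod (μ := (volume : Measure E3).restrict S)
        (ν := (volume : Measure E3)) (f := fun _ : E3 => (1 : ℝ)) (integrable_const _) hgi
    have h2 : MeasurableSet {u : E3 × E3 | ‖u.2 - u.1‖ < 2} :=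
      measurableSet_lt (measurable_snd.sub measurable_fst).norm measurable_const
    refine (h1.indicator h2).congr (Filter.Eventually.of_forall fun u => ?_)
    by_cases h : ‖u.2 - u.1‖ < 2
    · have h' : u ∈ {u : E3 × E3 | ‖u.2 - u.1‖ < 2} := h
      simp only [Set.indicator_of_mem h', if_pos h, one_mul]
    · have h' : u ∉ {u : E3 × E3 | ‖u.2 - u.1‖ < 2} := h
      simp only [Set.indicator_of_notMem h', if_neg h]
  have h2 : ∫ x in S, ∫ v in Metric.ball x 2, g v =
      ∫ x in S, ∫ v, (if ‖v - x‖ < 2 then g' v else 0) := by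
    refine setIntegral_congr_fun hSm fun x hx => ?_
    rw [← integral_indicator measurableSet_ball]
    congr 1
    funext v
    by_cases hv : ‖v - x‖ < 2
    · have hv' : v ∈ Metric.ball x 2 := by rwa [Metric.mem_ball, dist_eq_norm]
      rw [Set.indicator_of_mem hv', if_pos hv, hg', Set.indicator_of_mem]
      rw [hS] at hx
      have h3 := norm_sub_norm_le v x
      rw [Metric.mem_ball, dist_zero_right]
      linarith [hx.2]
    · have hv' : v ∉ Metric.ball x 2 := by rwa [Metric.mem_ball, dist_eq_norm]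
      rw [Set.indicator_of_notMem hv', if_neg hv]
  rw [← hS, h2, integral_integral_swap
    (f := fun (x v : E3) => if ‖v - x‖ < 2 then g' v else 0) h1,
    ← integral_indicator (tll_shc_meas a b)]
  have hD : Integrable ((shc a b).indicator g) :=
    ((hi (b + 1)).mono_set (tll_shc_sub a b)).integrable_indicator (tll_shc_meas a b)
  refine integral_mono hD h1.integral_prod_right fun v => ?_
  dsimp only
  by_cases hv : v ∈ shc a b
  · rw [Set.indicator_of_mem hv]
    have hsub : Metric.ball v 2 ⊆ S := by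
      intro x hx
      rw [Metric.mem_ball, dist_eq_norm] at hx
      rw [hS]
      have h3 := norm_sub_norm_le x v
      have h4 := norm_sub_norm_le v x
      rw [norm_sub_rev] at h4
      exact ⟨by linarith [hv.1], by linarith [hv.2]⟩
    have e : ∀ x, (if ‖v - x‖ < 2 then g' v else 0) =
        (Metric.ball v 2).indicator (fun _ => g' v) x := by
      intro x
      by_cases h : ‖v - x‖ < 2
      · have h' : x ∈ Metric.ball v 2 := by rwa [Metric.mem_ball, dist_eq_norm, norm_sub_rev]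
        rw [Set.indicator_of_mem h', if_pos h]
      · have h' : x ∉ Metric.ball v 2 := by rwa [Metric.mem_ball, dist_eq_norm, norm_sub_rev]
        rw [Set.indicator_of_notMem h', if_neg h]
    simp only [e]
    rw [integral_indicator measurableSet_ball, Measure.restrict_restrict measurableSet_ball,
      Set.inter_eq_left.2 hsub, setIntegral_const, smul_eq_mul]
    have h5 : g' v = g v := by
      rw [hg', Set.indicator_of_mem]
      rw [Metric.mem_ball, dist_zero_right]
      linarith [hv.2]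
    rw [h5]
    exact le_mul_of_one_le_left (hg v) (tll_vol v)
  · rw [Set.indicator_of_notMem hv]
    exact integral_nonneg fun x => by
      dsimp only
      split_ifs
      · exact hg0 v
      · exact le_rfl

private theorem tll_pr_cont {χ : E3 → ℝ} (hχ : Bump χ) {n k : ℕ} (W : Finset E3)
    (z : Fin k → ℝ) : Continuous (fun p : Cfg n k => pr χ W z p) := by
  have hUc : Continuous (UU χ 1) := (UU_smooth hχ 1 one_pos).continuous
  unfold pr ph
  refine continuous_const.mul (continuous_finsetSum _ fun w _ => Continuous.sub ?_ ?_)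
  · refine continuous_finsetSum _ fun l _ => continuous_const.mul (hUc.comp ?_)
    exact continuous_const.sub ((continuous_apply l).comp continuous_snd)
  · refine continuous_finsetSum _ fun a _ => hUc.comp ?_
    exact continuous_const.sub ((continuous_apply a).comp continuous_fst)

private theorem tll_uhb {χ : E3 → ℝ} (hχ : Bump χ) {n k : ℕ} (t : ℝ) (ht : 0 < t)
    (W : Finset E3) (z : Fin k → ℝ) : ∃ M : ℝ, 0 ≤ M ∧ ∀ (p : Cfg n k) (v : E3),
    |uh χ t W z p v| ≤ M := by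
  obtain ⟨C, hC, hb⟩ := UU_bd hχ
  have h1 : ∀ (r : ℝ) (_ : 0 < r) (p : Cfg n k) (w : E3),
      |ph χ r z p w| ≤ (∑ j, |z j| + n) * (C * r⁻¹) := by
    intro r hr p w
    have hp : ∀ y, |UU χ r y| ≤ C * r⁻¹ := fun y => by
      rw [abs_of_nonneg (UU_nonneg hχ r hr y)]
      exact hb r hr y
    unfold ph
    have e1 : |∑ j, z j * UU χ r (w - p.2 j)| ≤ (∑ j, |z j|) * (C * r⁻¹) := by
      rw [sum_mul]
      refine (abs_sum_le_sum_abs _ _).trans (sum_le_sum fun j _ => ?_)
      rw [abs_mul]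
      exact mul_le_mul_of_nonneg_left (hp _) (abs_nonneg _)
    have e2 : |∑ a, UU χ r (w - p.1 a)| ≤ n * (C * r⁻¹) := by
      refine (abs_sum_le_sum_abs _ _).trans ?_
      refine (sum_le_card_nsmul univ _ (C * r⁻¹) fun a _ => hp _).trans_eq ?_
      rw [card_univ, Fintype.card_fin, nsmul_eq_mul]
    have e3 := abs_sub (∑ j, z j * UU χ r (w - p.2 j)) (∑ a, UU χ r (w - p.1 a))
    rw [add_mul]
    linarith
  obtain ⟨A, hA⟩ : ∃ A : ℝ, A = ∑ j, |z j| + n := ⟨_, rfl⟩
  have hA0 : 0 ≤ A := by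
    rw [hA]
    exact add_nonneg (sum_nonneg fun j _ => abs_nonneg _) (Nat.cast_nonneg _)
  rw [← hA] at h1
  have ht' : 0 < t⁻¹ := inv_pos.2 ht
  refine ⟨A * (C * t⁻¹) + A * (C * 1⁻¹), by positivity, fun p v => ?_⟩
  have h2 : |pr χ W z p| ≤ A * (C * 1⁻¹) := by
    unfold pr
    rw [abs_mul, abs_of_nonneg (by positivity)]
    have h3 : |∑ w ∈ W, ph χ 1 z p w| ≤ W.card * (A * (C * 1⁻¹)) := by
      refine (abs_sum_le_sum_abs _ _).trans ((sum_le_card_nsmul W _ (A * (C * 1⁻¹))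
        fun w _ => ?_).trans_eq (nsmul_eq_mul _ _))
      exact h1 1 one_pos p w
    rcases W.eq_empty_or_nonempty with hW | hW
    · subst hW
      simp
      positivity
    · have hc : (0 : ℝ) < W.card := by exact_mod_cast hW.card_pos
      rw [inv_mul_le_iff₀ hc]
      exact h3
  unfold uh
  have h5 := abs_sub (ph χ t z p v) (pr χ W z p)
  exact h5.trans (add_le_add (h1 t ht p v) h2)

private theorem tll_ce_joint {n k : ℕ} (r : ℝ) :
    Measurable (fun u : Cfg n k × E3 => ce u.1 u.2 r) := by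
  unfold ce
  refine Finset.measurable_fun_sum _ fun a _ => ?_
  have h1 : Measurable (fun u : Cfg n k × E3 => ‖u.1.1 a - u.2‖) :=
    (((meas_e a).comp measurable_fst).sub measurable_snd).norm
  exact Measurable.ite (measurableSet_lt h1 measurable_const) measurable_const measurable_const

/-- the square of the potential over a ball -/
private noncomputable def tT {n k : ℕ} (χ : E3 → ℝ) (W : Finset E3) (z : Fin k → ℝ) (x : E3)
    (p : Cfg n k) : ℝ := ∫ v in Metric.ball x 2, (phi z p v - pr χ W z p) ^ 2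

private theorem tT_nonneg {n k : ℕ} (χ : E3 → ℝ) (W : Finset E3) (z : Fin k → ℝ) (x : E3)
    (p : Cfg n k) : 0 ≤ tT χ W z x p := integral_nonneg fun v => sq_nonneg _

private theorem tll_phi_meas {χ : E3 → ℝ} (hχ : Bump χ) {n k : ℕ} (W : Finset E3)
    (z : Fin k → ℝ) :
    Measurable (fun u : Cfg n k × E3 => (phi z u.1 u.2 - pr χ W z u.1) ^ 2) := by
  have h1 : Measurable (fun u : Cfg n k × E3 => phi z u.1 u.2) := by
    unfold phi
    fun_prop
  exact (h1.sub ((tll_pr_cont hχ W z).measurable.comp measurable_fst)).pow_const 2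

private theorem tll_mint {Y : Type*} [MeasurableSpace Y] {f : Y × E3 → ℝ}
    (hf : Measurable f) : Measurable (fun y => ∫ v, f (y, v)) :=
  (StronglyMeasurable.integral_prod_right' (ν := (volume : Measure E3))
    hf.stronglyMeasurable).measurable

private theorem tT_meas {χ : E3 → ℝ} (hχ : Bump χ) {n k : ℕ} (W : Finset E3)
    (z : Fin k → ℝ) : Measurable (fun u : Cfg n k × E3 => tT χ W z u.2 u.1) := by
  have h1 : Measurable (fun w : (Cfg n k × E3) × E3 => if ‖w.2 - w.1.2‖ < 2 then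
      (phi z w.1.1 w.2 - pr χ W z w.1.1) ^ 2 else 0) := by
    refine Measurable.ite (measurableSet_lt
      (measurable_snd.sub (measurable_snd.comp measurable_fst)).norm measurable_const) ?_
      measurable_const
    have hc : Measurable (fun w : (Cfg n k × E3) × E3 => ((w.1.1, w.2) : Cfg n k × E3)) :=
      (measurable_fst.comp measurable_fst).prodMk measurable_snd
    have h := (tll_phi_meas hχ W z).comp hc
    simp only [Function.comp_def] at h
    exact h
  have h2 := tll_mint h1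
  have h3 : (fun u : Cfg n k × E3 => tT χ W z u.2 u.1) = fun u : Cfg n k × E3 =>
      ∫ v, (if ‖v - u.2‖ < 2 then (phi z u.1 v - pr χ W z u.1) ^ 2 else 0) := by
    funext u
    unfold tT
    rw [← integral_indicator measurableSet_ball]
    refine integral_congr_ae (Filter.Eventually.of_forall fun v => ?_)
    simp only
    by_cases hv : ‖v - u.2‖ < 2
    · have hv' : v ∈ Metric.ball u.2 2 := by rwa [Metric.mem_ball, dist_eq_norm]
      rw [Set.indicator_of_mem hv', if_pos hv]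
    · have hv' : v ∉ Metric.ball u.2 2 := by rwa [Metric.mem_ball, dist_eq_norm]
      rw [Set.indicator_of_notMem hv', if_neg hv]
  rw [h3]
  exact h2

private theorem tll_sc_pos (l : ℕ) : 0 < sc l := by
  unfold sc
  positivity

private theorem tll_sup {n k : ℕ} {f : Cfg n k × E3 → ℝ} (hf : Continuous f) (x : E3) (r : ℝ) :
    ∃ G : Cfg n k → ℝ, Continuous G ∧ ∀ v ∈ Metric.ball x r, ∀ p, |f (p, v)| ≤ G p := by
  have hK : IsCompact (Metric.closedBall x r) := isCompact_closedBall x r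
  have h1 : Continuous (fun u : Cfg n k × E3 => |f (u.1, u.2)|) := hf.abs
  have h2 : Continuous (Function.uncurry fun (p : Cfg n k) (v : E3) => |f (p, v)|) := h1
  refine ⟨fun p => sSup ((fun v => |f (p, v)|) '' Metric.closedBall x r), ?_, fun v hv p => ?_⟩
  · exact hK.continuous_sSup (f := fun p v => |f (p, v)|) h2
  · refine le_csSup ?_ ⟨v, Metric.ball_subset_closedBall hv, rfl⟩
    have h3 : Continuous (fun v => |f (p, v)|) :=
      (hf.comp (continuous_const.prodMk continuous_id)).abs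
    exact (hK.image h3).bddAbove

section ex

variable {q n k : ℕ} {Λ : Set E3} {θ χ : E3 → ℝ} (hθ : Cut θ) (hχ : Bump χ)
  {ψ : (Fin n → Fin q) → Cfg n k → ℂ} (hψ : Sm q n k Λ ψ) (x : E3) (l : ℕ) (W : Finset E3)
  (z : Fin k → ℝ)

include hθ hψ in
private theorem tll_ss :
    IM ψ (fun p => ∫ v in Metric.ball x 12,
      Gs θ x l p ^ 2 * ((sc l ^ 2)⁻¹ * ce p v (7 * sc l) ^ 2)) ∧
    ∫ v in Metric.ball x 12,
      mean ψ (fun p => Gs θ x l p ^ 2 * ((sc l ^ 2)⁻¹ * ce p v (7 * sc l) ^ 2)) =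
    mean ψ (fun p => ∫ v in Metric.ball x 12,
      Gs θ x l p ^ 2 * ((sc l ^ 2)⁻¹ * ce p v (7 * sc l) ^ 2)) := by
  have h := mean_ball hψ x 12
    (F := fun v p => Gs θ x l p ^ 2 * ((sc l ^ 2)⁻¹ * ce p v (7 * sc l) ^ 2))
    (((((Gs_smooth hθ x l).continuous.measurable).comp measurable_fst).pow_const 2).mul
      (((tll_ce_joint (7 * sc l)).pow_const 2).const_mul _))
    (G := fun _ => (sc l ^ 2)⁻¹ * (n : ℝ) ^ 2) continuous_const (fun v _ p => by
      have h1 := Gs_mem (θ := θ) x l p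
      have h2 := ce_nonneg p v (7 * sc l)
      have h3 := ce_le p v (7 * sc l)
      have h4 : (0 : ℝ) ≤ (sc l ^ 2)⁻¹ := by positivity
      have h5 : ce p v (7 * sc l) ^ 2 ≤ (n : ℝ) ^ 2 := pow_le_pow_left₀ h2 h3 2
      have h6 : Gs θ x l p ^ 2 ≤ 1 := pow_le_one₀ h1.1 h1.2
      rw [abs_of_nonneg (by positivity)]
      calc Gs θ x l p ^ 2 * ((sc l ^ 2)⁻¹ * ce p v (7 * sc l) ^ 2)
          ≤ 1 * ((sc l ^ 2)⁻¹ * (n : ℝ) ^ 2) :=
            mul_le_mul h6 (mul_le_mul_of_nonneg_left h5 h4) (by positivity) zero_le_one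
        _ = _ := one_mul _)
  exact ⟨h.2.1, h.2.2⟩

include hθ hχ hψ in
private theorem tll_ww :
    IM ψ (fun p => ∫ v in Metric.ball x 12, Gs θ x l p ^ 2 * uh χ (sc l) W z p v ^ 2) ∧
    ∫ v in Metric.ball x 12, mean ψ (fun p => Gs θ x l p ^ 2 * uh χ (sc l) W z p v ^ 2) =
    mean ψ (fun p => ∫ v in Metric.ball x 12, Gs θ x l p ^ 2 * uh χ (sc l) W z p v ^ 2) := by
  have hj := uh_joint hχ (n := n) (sc l) (tll_sc_pos l) W z
  have hc : Continuous (fun u : Cfg n k × E3 => Gs θ x l u.1 ^ 2 * uh χ (sc l) W z u.1 u.2 ^ 2) :=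
    (((Gs_smooth hθ x l).continuous.comp continuous_fst).pow 2).mul (hj.pow 2)
  obtain ⟨G, hG, hGF⟩ := tll_sup hc x 12
  have h := mean_ball hψ x 12 (F := fun v p => Gs θ x l p ^ 2 * uh χ (sc l) W z p v ^ 2)
    hc.measurable hG hGF
  exact ⟨h.2.1, h.2.2⟩

include hχ in
private theorem tll_int (s r : ℝ) (hs : 0 < s) (p : Cfg n k) :
    IntegrableOn (fun v => uh χ s W z p v ^ 2) (Metric.ball x 12) ∧
    IntegrableOn (fun v => (s ^ 2)⁻¹ * ce p v r ^ 2) (Metric.ball x 12) := by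
  have hj := uh_joint hχ (n := n) s hs W z
  constructor
  · have hc : Continuous (fun v => uh χ s W z p v ^ 2) :=
      (hj.comp (continuous_const.prodMk continuous_id)).pow 2
    exact (hc.continuousOn.integrableOn_compact (isCompact_closedBall x 12)).mono_set
      Metric.ball_subset_closedBall
  · have hb : IntegrableOn (fun _ : E3 => (s ^ 2)⁻¹ * (n : ℝ) ^ 2) (Metric.ball x 12) :=
      integrableOn_const (hs := measure_ball_lt_top.ne)
    refine hb.mono' ?_ (Filter.Eventually.of_forall fun v => ?_)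
    · exact ((((tll_ce_joint r).comp
        (measurable_const.prodMk measurable_id)).pow_const 2).const_mul _).aestronglyMeasurable
    · have h2 := ce_nonneg p v r
      have h3 := ce_le p v r
      rw [Real.norm_eq_abs, abs_of_nonneg (by positivity)]
      exact mul_le_mul_of_nonneg_left (pow_le_pow_left₀ h2 h3 2) (by positivity)

include hχ in
private theorem tll_split (p : Cfg n k) :
    Gs θ x l p ^ 2 * ∫ v in Metric.ball x 12,
      (uh χ (sc l) W z p v ^ 2 + (sc l ^ 2)⁻¹ * ce p v (7 * sc l) ^ 2) =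
    (∫ v in Metric.ball x 12, Gs θ x l p ^ 2 * uh χ (sc l) W z p v ^ 2) +
    ∫ v in Metric.ball x 12, Gs θ x l p ^ 2 * ((sc l ^ 2)⁻¹ * ce p v (7 * sc l) ^ 2) := by
  obtain ⟨h1, h2⟩ := tll_int hχ x W z (sc l) (7 * sc l) (tll_sc_pos l) p
  rw [integral_add h1 h2, mul_add, ← integral_const_mul, ← integral_const_mul]

end ex

/-- the mean square of the potential over the layer -/
private theorem tll_mean (zm zp : ℝ) (hzm : 0 < zm) {χ : E3 → ℝ} (hχ : Bump χ) {θ : E3 → ℝ}
    (hθ : Cut θ) : ∃ C : ℝ, 0 ≤ C ∧ ∀ (q n k : ℕ) (Λ : Set E3) (z : Fin k → ℝ)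
    (_ : ∀ j, zm ≤ z j ∧ z j ≤ zp) (W : Finset E3) (ψ : (Fin n → Fin q) → Cfg n k → ℂ)
    (_ : Sm q n k Λ ψ) (a b : ℝ),
    IM ψ (fun p => ∫ v in shc a b, (phi z p v - pr χ W z p) ^ 2) ∧
    mean ψ (fun p => ∫ v in shc a b, (phi z p v - pr χ W z p) ^ 2) ≤
      C * ∫ x in shc (a - 2) (b + 2), (WW χ θ W z ψ x + SS θ ψ x) := by
  obtain ⟨Cp, hCp, k5⟩ := ph_l3 zm zp hzm hχ
  refine ⟨Cp, hCp, fun q n k Λ z hz W ψ hs a b => ?_⟩
  -- the bound by a constant
  obtain ⟨M, hM0, hM⟩ : ∃ M : ℝ, 0 ≤ M ∧ ∀ x (p : Cfg n k), tT χ W z x p ≤ M := by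
    obtain ⟨M, hM0, hM⟩ := tll_uhb hχ (n := n) 1 one_pos W z
    refine ⟨Cp * ((M ^ 2 + (1 ^ 2 : ℝ)⁻¹ * (n : ℝ) ^ 2) *
      (volume : Measure E3).real (Metric.ball (0 : E3) 12)), by positivity, fun x p => ?_⟩
    unfold tT
    refine (k5 n k z hz W p x 1 one_pos le_rfl).trans (mul_le_mul_of_nonneg_left ?_ hCp)
    obtain ⟨i1, i2⟩ := tll_int hχ x W z 1 (7 * 1) one_pos p
    have h1 : (volume : Measure E3).real (Metric.ball x 12) =
        (volume : Measure E3).real (Metric.ball (0 : E3) 12) :=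
      Measure.addHaar_real_ball_center _ _ _
    have h2 : ∫ _ in Metric.ball x 12, (M ^ 2 + (1 ^ 2 : ℝ)⁻¹ * (n : ℝ) ^ 2) =
        (M ^ 2 + (1 ^ 2 : ℝ)⁻¹ * (n : ℝ) ^ 2) *
          (volume : Measure E3).real (Metric.ball (0 : E3) 12) := by
      rw [setIntegral_const, smul_eq_mul, h1, mul_comm]
    rw [← h2]
    refine setIntegral_mono (i1.add i2) (integrableOn_const (hs := measure_ball_lt_top.ne))
      fun v => ?_
    simp only
    refine add_le_add ?_ (mul_le_mul_of_nonneg_left ?_ (by positivity))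
    · rw [← sq_abs]
      exact pow_le_pow_left₀ (abs_nonneg _) (hM p v) 2
    · exact pow_le_pow_left₀ (ce_nonneg _ _ _) (ce_le _ _ _) 2
  -- the mean at a point
  have hpt : ∀ x, mean ψ (tT χ W z x) ≤ Cp * (WW χ θ W z ψ x + SS θ ψ x) := by
    intro x
    have iH : IM ψ (fun p => ∑ l ∈ range (n + 1),
        ((∫ v in Metric.ball x 12, Gs θ x l p ^ 2 * uh χ (sc l) W z p v ^ 2) +
        ∫ v in Metric.ball x 12, Gs θ x l p ^ 2 * ((sc l ^ 2)⁻¹ * ce p v (7 * sc l) ^ 2))) :=
      IM.sum _ fun l _ => (tll_ww hθ hχ hs x l W z).1.add (tll_ss hθ hs x l).1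
    have eH : mean ψ (fun p => ∑ l ∈ range (n + 1),
        ((∫ v in Metric.ball x 12, Gs θ x l p ^ 2 * uh χ (sc l) W z p v ^ 2) +
        ∫ v in Metric.ball x 12, Gs θ x l p ^ 2 * ((sc l ^ 2)⁻¹ * ce p v (7 * sc l) ^ 2))) =
        WW χ θ W z ψ x + SS θ ψ x := by
      rw [mean_sum _ fun l _ => (tll_ww hθ hχ hs x l W z).1.add (tll_ss hθ hs x l).1]
      unfold WW SS
      rw [← sum_add_distrib]
      refine sum_congr rfl fun l _ => ?_
      rw [mean_add (tll_ww hθ hχ hs x l W z).1 (tll_ss hθ hs x l).1,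
        (tll_ww hθ hχ hs x l W z).2, (tll_ss hθ hs x l).2]
    rw [← eH, ← mean_cmul]
    refine mean_mono0 (fun p => tT_nonneg χ W z x p) (iH.cmul Cp) fun σ p _ => ?_
    have c1 := tT_nonneg χ W z x p
    have c2 := Gs_sum_ge hθ (k := k) x p
    calc tT χ W z x p ≤ (∑ l ∈ range (n + 1), Gs θ x l p ^ 2) * tT χ W z x p :=
          le_mul_of_one_le_left c1 c2
      _ = ∑ l ∈ range (n + 1), Gs θ x l p ^ 2 * tT χ W z x p := by rw [sum_mul]
      _ ≤ ∑ l ∈ range (n + 1), Cp *
          ((∫ v in Metric.ball x 12, Gs θ x l p ^ 2 * uh χ (sc l) W z p v ^ 2) +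
          ∫ v in Metric.ball x 12,
            Gs θ x l p ^ 2 * ((sc l ^ 2)⁻¹ * ce p v (7 * sc l) ^ 2)) := by
          refine sum_le_sum fun l _ => ?_
          rw [← tll_split hχ x l W z p]
          have hsl : sc l ≤ 1 := by
            unfold sc
            exact inv_le_one_of_one_le₀ (one_le_pow₀ (by norm_num))
          have c3 := k5 n k z hz W p x (sc l) (tll_sc_pos l) hsl
          calc _ ≤ Gs θ x l p ^ 2 * (Cp * ∫ v in Metric.ball x 12,
                (uh χ (sc l) W z p v ^ 2 + (sc l ^ 2)⁻¹ * ce p v (7 * sc l) ^ 2)) :=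
                mul_le_mul_of_nonneg_left c3 (sq_nonneg _)
            _ = _ := by ring
      _ = _ := by rw [mul_sum]
  obtain ⟨S, hS⟩ : ∃ S : Set E3, S = shc (a - 2) (b + 2) := ⟨_, rfl⟩
  have hSm : MeasurableSet S := by rw [hS]; exact tll_shc_meas _ _
  have hSv : volume S < ⊤ := by rw [hS]; exact tll_shc_fin _ _
  -- pointwise in the configuration
  have hp1 : ∀ p : Cfg n k, ∫ v in shc a b, (phi z p v - pr χ W z p) ^ 2 ≤
      ∫ x in S, tT χ W z x p := fun p => by
    rw [hS]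
    exact tll_cov _ (fun v => sq_nonneg _) (fun s => phi_sq z p _ 0 s) a b
  have hp0 : ∀ p : Cfg n k, 0 ≤ ∫ v in shc a b, (phi z p v - pr χ W z p) ^ 2 := fun p =>
    integral_nonneg fun v => sq_nonneg _
  have hF : IP ψ (S.indicator fun _ => (1 : ℝ)) (tT χ W z) := by
    intro σ
    have h1 : Integrable (fun p => M * ‖ψ σ p‖ ^ 2) :=
      ((Sm_sq hs σ).1.integrable_of_hasCompactSupport (Sm_sq hs σ).2).const_mul _
    have h2' : IntegrableOn (fun _ => (1 : ℝ)) S := integrableOn_const (hs := hSv.ne)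
    have h2 : Integrable (S.indicator fun _ => (1 : ℝ)) := h2'.integrable_indicator hSm
    have h3 : Integrable (fun u : Cfg n k × E3 => (M * ‖ψ σ u.1‖ ^ 2) *
        S.indicator (fun _ => (1 : ℝ)) u.2) := h1.mul_prod h2
    have hm : Measurable (S.indicator fun _ => (1 : ℝ)) := measurable_const.indicator hSm
    refine h3.mono' ?_ (Filter.Eventually.of_forall fun u => ?_)
    · exact (((hm.comp measurable_snd).mul (tT_meas hχ W z)).mul
        ((Sm_sq hs σ).1.measurable.comp measurable_fst)).aestronglyMeasurable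
    · by_cases hu : u.2 ∈ S
      · simp only [Set.indicator_of_mem hu, one_mul, mul_one, norm_mul, Real.norm_eq_abs, abs_pow,
          abs_norm]
        rw [abs_of_nonneg (tT_nonneg χ W z _ _)]
        exact mul_le_mul_of_nonneg_right (hM u.2 u.1) (sq_nonneg _)
      · simp [Set.indicator_of_notMem hu]
  have e1 : ∀ g : E3 → ℝ, (fun w => S.indicator (fun _ => (1 : ℝ)) w * g w) = S.indicator g := by
    intro g
    funext w
    by_cases hw : w ∈ S
    · simp [Set.indicator_of_mem hw]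
    · simp [Set.indicator_of_notMem hw]
  obtain ⟨a1, a2, a3⟩ := mean_fub hF
  simp only [e1 (fun w => mean ψ (tT χ W z w))] at a1 a3
  have e2 : ∀ p : Cfg n k, (∫ w, S.indicator (fun _ => (1 : ℝ)) w * tT χ W z w p) =
      ∫ w in S, tT χ W z w p := by
    intro p
    rw [e1 (fun w => tT χ W z w p), integral_indicator hSm]
  simp only [e2] at a2 a3
  rw [integral_indicator hSm] at a3
  refine ⟨?_, ?_⟩
  · refine IM.dom ?_ a2 hs fun p => ?_
    · have h1 : Measurable (fun u : Cfg n k × E3 => (shc a b).indicator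
          (fun v => (phi z u.1 v - pr χ W z u.1) ^ 2) u.2) := by
        have h2 : (fun u : Cfg n k × E3 => (shc a b).indicator
            (fun v => (phi z u.1 v - pr χ W z u.1) ^ 2) u.2) =
            {u : Cfg n k × E3 | u.2 ∈ shc a b}.indicator
              (fun u => (phi z u.1 u.2 - pr χ W z u.1) ^ 2) := by
          funext u
          by_cases hu : u.2 ∈ shc a b
          · have hu' : u ∈ {u : Cfg n k × E3 | u.2 ∈ shc a b} := hu
            rw [Set.indicator_of_mem hu, Set.indicator_of_mem hu']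
          · have hu' : u ∉ {u : Cfg n k × E3 | u.2 ∈ shc a b} := hu
            rw [Set.indicator_of_notMem hu, Set.indicator_of_notMem hu']
        rw [h2]
        exact (tll_phi_meas hχ W z).indicator (measurable_snd (tll_shc_meas a b))
      have h3 := tll_mint h1
      have h4 : (fun p : Cfg n k => ∫ v in shc a b, (phi z p v - pr χ W z p) ^ 2) =
          fun p => ∫ v, (shc a b).indicator (fun v => (phi z p v - pr χ W z p) ^ 2) v := by
        funext p
        rw [integral_indicator (tll_shc_meas a b)]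
      rw [h4]
      exact h3
    · rw [abs_of_nonneg (hp0 p)]
      exact hp1 p
  · refine (mean_mono0 hp0 a2 fun σ p _ => hp1 p).trans ?_
    rw [← a3, ← integral_const_mul, hS]
    have hWi : IntegrableOn (fun x => Cp * (WW χ θ W z ψ x + SS θ ψ x))
        (shc (a - 2) (b + 2)) := by
      have h1 := sI_W (Ψ := fun _ : Unit => ψ) (fun _ => hs) hχ hθ W z (b + 2 + 1)
      have h2 := sI_S (Ψ := fun _ : Unit => ψ) (fun _ => hs) hθ (b + 2 + 1)
      simp only [WM, SM, univ_unique, sum_const, card_singleton, one_smul] at h1 h2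
      exact ((h1.add h2).mono_set (tll_shc_sub _ _)).const_mul Cp
    rw [hS] at a1
    exact setIntegral_mono ((integrable_indicator_iff (tll_shc_meas _ _)).1 a1) hWi
      fun x => hpt x

private theorem tll_ker (n k : ℕ) : (volume : Measure (Cfg n k)).IsAddHaarMeasure :=
  Measure.prod.instIsAddHaarMeasure (G := Fin n → E3) (H := Fin k → E3) volume volume

private theorem tll_null_ker {n k : ℕ} (L : Cfg n k →ₗ[ℝ] E3) (p0 : Cfg n k) (h0 : L p0 ≠ 0) :
    ∀ᵐ p : Cfg n k, L p ≠ 0 := by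
  have h : (volume : Measure (Cfg n k)) (LinearMap.ker L : Set (Cfg n k)) = 0 := by
    have := tll_ker n k
    apply Measure.addHaar_submodule
    intro h
    apply h0
    have : p0 ∈ LinearMap.ker L := by rw [h]; trivial
    exact this
  rw [ae_iff]
  have e : {a : Cfg n k | ¬L a ≠ 0} = (LinearMap.ker L : Set (Cfg n k)) := by
    ext a; simp
  rw [e]; exact h

private theorem tll_ae_gen {n k : ℕ} : ∀ᵐ p : Cfg n k, Function.Injective p.1 ∧
    Function.Injective p.2 ∧ ∀ a j, p.1 a ≠ p.2 j := by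
  have e : ∃ e : E3, e ≠ 0 := exists_ne 0
  obtain ⟨e, he⟩ := e
  have h1 : ∀ᵐ p : Cfg n k, ∀ a b, a ≠ b → p.1 a ≠ p.1 b := by
    rw [ae_all_iff]; intro a
    rw [ae_all_iff]; intro b
    by_cases hab : a = b
    · exact Filter.Eventually.of_forall fun p h => absurd hab h
    · have := tll_null_ker (n := n) (k := k)
        ((LinearMap.proj a ∘ₗ LinearMap.fst ℝ (Fin n → E3) (Fin k → E3)) -
          (LinearMap.proj b ∘ₗ LinearMap.fst ℝ (Fin n → E3) (Fin k → E3)))
        (Pi.single a e, 0) (by simp [Ne.symm hab, he])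
      filter_upwards [this] with p hp _ h
      exact hp (by simp [h])
  have h2 : ∀ᵐ p : Cfg n k, ∀ a b, a ≠ b → p.2 a ≠ p.2 b := by
    rw [ae_all_iff]; intro a
    rw [ae_all_iff]; intro b
    by_cases hab : a = b
    · exact Filter.Eventually.of_forall fun p h => absurd hab h
    · have := tll_null_ker (n := n) (k := k)
        ((LinearMap.proj a ∘ₗ LinearMap.snd ℝ (Fin n → E3) (Fin k → E3)) -
          (LinearMap.proj b ∘ₗ LinearMap.snd ℝ (Fin n → E3) (Fin k → E3)))
        (0, Pi.single a e) (by simp [Ne.symm hab, he])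
      filter_upwards [this] with p hp _ h
      exact hp (by simp [h])
  have h3 : ∀ᵐ p : Cfg n k, ∀ a j, p.1 a ≠ p.2 j := by
    rw [ae_all_iff]; intro a
    rw [ae_all_iff]; intro j
    have := tll_null_ker (n := n) (k := k)
        ((LinearMap.proj a ∘ₗ LinearMap.fst ℝ (Fin n → E3) (Fin k → E3)) -
          (LinearMap.proj j ∘ₗ LinearMap.snd ℝ (Fin n → E3) (Fin k → E3)))
        (Pi.single a e, 0) (by simp [he])
    filter_upwards [this] with p hp h
    exact hp (by simp [h])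
  filter_upwards [h1, h2, h3] with p h1 h2 h3
  refine ⟨fun a b h => ?_, fun a b h => ?_, h3⟩
  · by_contra hab; exact h1 a b hab h
  · by_contra hab; exact h2 a b hab h

private theorem tll_ev {f g : E3 → ℂ} {v : E3} (h : f =ᶠ[nhds v] g) : g3 f v = g3 g v := by
  unfold g3
  rw [h.fderiv_eq]

private theorem tll_near (r : ℝ) (u : E3) (h : r < ‖u‖) : ∀ᶠ v in nhds u, r < ‖v‖ :=
  continuousAt_const.eventually_lt continuous_norm.continuousAt h

private theorem tll_JLs (R : ℝ) (hR : 100 ≤ R) : ContDiff ℝ (⊤ : ℕ∞) (JL R) := by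
  obtain ⟨L, -, h⟩ := JL_lay
  exact (h R hR).1.smooth

private theorem tll_Je {n k : ℕ} (R : ℝ) (hR : 100 ≤ R) (a : Fin n) :
    ContDiff ℝ (⊤ : ℕ∞) (fun p : Cfg n k => JL R (p.1 a)) :=
  (tll_JLs R hR).comp ((contDiff_apply ℝ E3 a).comp contDiff_fst)

private theorem tll_Jn {n k : ℕ} (R : ℝ) (hR : 100 ≤ R) (j : Fin k) :
    ContDiff ℝ (⊤ : ℕ∞) (fun p : Cfg n k => JL R (p.2 j)) :=
  (tll_JLs R hR).comp ((contDiff_apply ℝ E3 j).comp contDiff_snd)

/-- the kinetic energy near the boundary -/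
theorem tlocl_TO {q n k : ℕ} {Λ : Set E3} {ψ : (Fin n → Fin q) → Cfg n k → ℂ}
    (hψ : Sm q n k Λ ψ) (R : ℝ) (hR : 100 ≤ R) :
    TO ψ (R - 40) ≤ ∑ a, kE (mf (fun p => JL R (p.1 a)) ψ) a +
      ∑ j, kN (mf (fun p => JL R (p.2 j)) ψ) j := by
  obtain ⟨L, -, hJL⟩ := JL_lay
  have hone := (hJL R hR).2.2.1
  unfold TO kE kN
  refine add_le_add ?_ ?_
  · refine sum_le_sum fun a _ => sum_le_sum fun σ _ => ?_
    refine integral_mono_of_nonneg (Filter.Eventually.of_forall fun p => ?_)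
      (kE_int (mf_sm hψ (tll_Je R hR a)) σ a) (Filter.Eventually.of_forall fun p => ?_)
    · dsimp only
      split_ifs
      · exact ge_nonneg _ _ _
      · exact le_refl 0
    · dsimp only
      split_ifs with h
      · refine le_of_eq ?_
        unfold ge
        refine tll_ev ?_
        filter_upwards [tll_near (R - 40) _ h] with v hv
        unfold mf
        simp only [Function.update_self, hone v hv.le, Complex.ofReal_one, one_mul]
      · exact ge_nonneg _ _ _
  · refine sum_le_sum fun a _ => sum_le_sum fun σ _ => ?_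
    refine integral_mono_of_nonneg (Filter.Eventually.of_forall fun p => ?_)
      (kN_int (mf_sm hψ (tll_Jn R hR a)) σ a) (Filter.Eventually.of_forall fun p => ?_)
    · dsimp only
      split_ifs
      · exact gn_nonneg _ _ _
      · exact le_refl 0
    · dsimp only
      split_ifs with h
      · refine le_of_eq ?_
        unfold gn
        refine tll_ev ?_
        filter_upwards [tll_near (R - 40) _ h] with v hv
        unfold mf
        simp only [Function.update_self, hone v hv.le, Complex.ofReal_one, one_mul]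
      · exact gn_nonneg _ _ _

private theorem tll_mono {q n k : ℕ} {ψ : (Fin n → Fin q) → Cfg n k → ℂ} {F G : Cfg n k → ℝ}
    (hF : IM ψ F) (hG : IM ψ G) (h : ∀ᵐ p, F p ≤ G p) : mean ψ F ≤ mean ψ G := by
  unfold mean
  refine sum_le_sum fun σ _ => integral_mono_ae (hF σ) (hG σ) ?_
  filter_upwards [h] with p hp
  exact mul_le_mul_of_nonneg_right hp (sq_nonneg _)

private theorem tll_shl0 {n k : ℕ} (s : ℝ) (p : Cfg n k) : 0 ≤ shl s p := by
  unfold shl
  exact add_nonneg (sum_nonneg fun a _ => by positivity) (sum_nonneg fun a _ => by positivity)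

/-- the number of particles near the boundary is integrable -/
theorem tlocl_shl {q n k : ℕ} {Λ : Set E3} {ψ : (Fin n → Fin q) → Cfg n k → ℂ}
    (h : Sm q n k Λ ψ) (s : ℝ) : IM ψ (fun p => shl s p) := by
  refine IM.bdd h ?_ ((n : ℝ) + k) fun p => ?_
  · unfold shl
    refine Measurable.add ?_ ?_
    · refine Finset.measurable_fun_sum _ fun a _ => ?_
      exact Measurable.ite (measurableSet_lt measurable_const (meas_e a).norm) measurable_const
        measurable_const
    · refine Finset.measurable_fun_sum _ fun a _ => ?_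
      exact Measurable.ite (measurableSet_lt measurable_const (meas_n a).norm) measurable_const
        measurable_const
  · rw [abs_of_nonneg (tll_shl0 s p)]
    unfold shl
    refine add_le_add ?_ ?_
    · calc ∑ a, (if s < ‖p.1 a‖ then (1 : ℝ) else 0) ≤ ∑ _a : Fin n, (1 : ℝ) :=
            sum_le_sum fun a _ => by split_ifs <;> norm_num
        _ = n := by simp
    · calc ∑ a, (if s < ‖p.2 a‖ then (1 : ℝ) else 0) ≤ ∑ _a : Fin k, (1 : ℝ) :=
            sum_le_sum fun a _ => by split_ifs <;> norm_num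
        _ = k := by simp

private theorem tll_shl_anti {n k : ℕ} {s t : ℝ} (h : s ≤ t) (p : Cfg n k) :
    shl t p ≤ shl s p := by
  unfold shl
  refine add_le_add (sum_le_sum fun a _ => ?_) (sum_le_sum fun a _ => ?_)
  · split_ifs with h1 h2 h2
    · exact le_rfl
    · exact absurd (h.trans_lt h1) h2
    · norm_num
    · exact le_rfl
  · split_ifs with h1 h2 h2
    · exact le_rfl
    · exact absurd (h.trans_lt h1) h2
    · norm_num
    · exact le_rfl

/-- the lower bound of the relative Coulomb energy of the layer -/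
theorem tlocl_low (q : ℕ) (zm zp : ℝ) (hzm : 0 < zm) {χ : E3 → ℝ} (hχ : Bump χ)
    {θ : E3 → ℝ} (hθ : Cut θ) : ∃ C : ℝ, 0 ≤ C ∧
    ∀ (n k : ℕ) (R : ℝ) (_ : 100 ≤ R) (z : Fin k → ℝ) (_ : ∀ j, zm ≤ z j ∧ z j ≤ zp)
    (_ : ∑ j, z j = n) (ψ : (Fin n → Fin q) → Cfg n k → ℂ)
    (_ : St q n k (Metric.ball 0 R) ψ) (W : Finset E3),
    -(C * ((∫ x in shc (R - 44) (R - 37), (WW χ θ W z ψ x + SS θ ψ x)) +
        mean ψ (fun p => shl (R - 44) p))) ≤
      (1 / 2) * ∑ a, kE (mf (fun p => JL R (p.1 a)) ψ) a +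
      mean ψ (fun p => ∑ j, z j * (JL R (p.2 j) ^ 2 *
          (phiN z j p (p.2 j) - pr χ W z p)) -
        ∑ a, JL R (p.1 a) ^ 2 * (phiE z a p (p.1 a) - pr χ W z p)) := by
  obtain ⟨L, hL, hJL⟩ := JL_lay
  obtain ⟨Ch, hCh, k2⟩ := lfin hχ L
  obtain ⟨K0, hK0, k3⟩ := vjs (max zp 0) (le_max_right _ _) hχ L hL
  obtain ⟨Ct, hCt, k4⟩ := tstL q (2 * K0) (by positivity)
  obtain ⟨Cm, hCm, k5⟩ := tll_mean zm zp hzm hχ hθ
  have hKL : 0 ≤ KL χ 0 := KL_nonneg hχ 0
  refine ⟨Ct + 2 * K0 + KL χ 0 * (1 + max zp 0 ^ 2) + Ch * Cm, by positivity, ?_⟩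
  intro n k R hR z hz hneu ψ hψ W
  obtain ⟨hlay, hJ0, hJ1, hJg, hJl⟩ := hJL R hR
  have hz0 : ∀ j, 0 ≤ z j := fun j => hzm.le.trans (hz j).1
  have hs := St_sm hψ
  have hJr : ∀ v, JL R v ≠ 0 → R - 42 + 1 < ‖v‖ := by
    intro v hv
    by_contra h
    exact hv (hJ0 v (by linarith [not_lt.1 h]))
  obtain ⟨iS, a2⟩ := k4 n k _ ψ hψ (JL R) hlay.smooth hlay.mem (R - 42) hJr
  obtain ⟨iD, a3⟩ := k5 q n k _ z hz W ψ hs (R - 42) (R - 39)
  have ipr : Continuous (fun p : Cfg n k => pr χ W z p) := tll_pr_cont hχ W z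
  have hJsq : ∀ v, 0 ≤ JL R v ^ 2 ∧ JL R v ^ 2 ≤ (if R - 44 < ‖v‖ then 1 else 0) := by
    intro v
    refine ⟨sq_nonneg _, ?_⟩
    split_ifs with h
    · exact pow_le_one₀ (hlay.mem v).1 (hlay.mem v).2
    · have h0 : JL R v = 0 := hJ0 v (by linarith [not_lt.1 h])
      rw [h0]
      norm_num
  have iX : IM ψ (fun p => ∑ j, z j * (JL R (p.2 j) ^ 2 * (phiN z j p (p.2 j) - pr χ W z p)) -
      ∑ a, JL R (p.1 a) ^ 2 * (phiE z a p (p.1 a) - pr χ W z p)) := by
    refine IM.sub (IM.sum _ fun j _ => ?_) (IM.sum _ fun a _ => ?_)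
    · refine IM.cmul (z j) (IM.bmul ((IM_phiN hs z j).sub (IM.cont hs ipr))
        (c := fun p => JL R (p.2 j) ^ 2)
        ((tll_Jn R hR j).continuous.pow 2).measurable 1 fun p => ?_)
      rw [abs_of_nonneg (sq_nonneg _)]
      exact pow_le_one₀ (hlay.mem _).1 (hlay.mem _).2
    · refine IM.bmul ((IM_phiE hs z a).sub (IM.cont hs ipr))
        (c := fun p => JL R (p.1 a) ^ 2)
        ((tll_Je R hR a).continuous.pow 2).measurable 1 fun p => ?_
      rw [abs_of_nonneg (sq_nonneg _)]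
      exact pow_le_one₀ (hlay.mem _).1 (hlay.mem _).2
  have i4 := tlocl_shl hs (R - 44)
  have hDb : Bornology.IsBounded (shc (R - 42) (R - 39)) :=
    Metric.isBounded_ball.subset (tll_shc_sub _ _)
  have hDc : ∀ v w : E3, gr (JL R) w ≠ 0 ∨ lap (JL R) w ≠ 0 → ‖v - w‖ ≤ 1 →
      v ∈ shc (R - 42) (R - 39) := by
    intro v w hw hvw
    obtain ⟨h1, h2⟩ := hJg w hw
    have h3 := norm_sub_norm_le v w
    have h4 := norm_sub_norm_le w v
    rw [norm_sub_rev] at h4
    exact ⟨by linarith, by linarith⟩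
  have hpt : ∀ᵐ p : Cfg n k,
      (-1 : ℝ) * ((2 * K0) * (∑ a, JL R (p.1 a) ^ 2 * (⨆ j, ‖p.1 a - p.2 j‖⁻¹)) +
        ((2 * K0 + KL χ 0 * (1 + max zp 0 ^ 2)) * shl (R - 44) p +
          Ch * ∫ v in shc (R - 42) (R - 39), (phi z p v - pr χ W z p) ^ 2)) ≤
      ∑ j, z j * (JL R (p.2 j) ^ 2 * (phiN z j p (p.2 j) - pr χ W z p)) -
      ∑ a, JL R (p.1 a) ^ 2 * (phiE z a p (p.1 a) - pr χ W z p) := by
    filter_upwards [tll_ae_gen (n := n) (k := k)] with p hp
    have b1 := k2 (JL R) hlay (shc (R - 42) (R - 39)) (tll_shc_meas _ _) hDb hDc n k z hneu p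
      (pr χ W z p)
    have b2 := k3 (JL R) hlay.smooth.continuous hlay.mem hJl n k z
      (fun j => ⟨hz0 j, (hz j).2.trans (le_max_left _ _)⟩) p hp.1 hp.2.1 hp.2.2
    have b3 : ∑ a, (if JL R (p.1 a) = 0 then (0 : ℝ) else 1) ≤ shl (R - 44) p := by
      unfold shl
      have h1 : ∑ a, (if JL R (p.1 a) = 0 then (0 : ℝ) else 1) ≤
          ∑ a, (if R - 44 < ‖p.1 a‖ then (1 : ℝ) else 0) := by
        refine sum_le_sum fun a _ => ?_
        split_ifs with h1 h2 h2
        · norm_num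
        · exact le_rfl
        · exact le_rfl
        · exact absurd (by linarith [hJr _ h1]) h2
      have h2 : (0 : ℝ) ≤ ∑ j, (if R - 44 < ‖p.2 j‖ then (1 : ℝ) else 0) :=
        sum_nonneg fun j _ => by positivity
      linarith
    have b4 : ∑ a, JL R (p.1 a) ^ 2 + ∑ j, z j ^ 2 * JL R (p.2 j) ^ 2 ≤
        (1 + max zp 0 ^ 2) * shl (R - 44) p := by
      unfold shl
      rw [mul_add, mul_sum, mul_sum]
      refine add_le_add (sum_le_sum fun a _ => ?_) (sum_le_sum fun j _ => ?_)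
      · refine (hJsq (p.1 a)).2.trans (le_mul_of_one_le_left (by positivity) ?_)
        linarith [sq_nonneg (max zp 0)]
      · refine mul_le_mul ?_ (hJsq (p.2 j)).2 (hJsq (p.2 j)).1 (by positivity)
        have h1 : z j ^ 2 ≤ max zp 0 ^ 2 :=
          pow_le_pow_left₀ (hz0 j) ((hz j).2.trans (le_max_left _ _)) 2
        linarith
    have b5 := mul_le_mul_of_nonneg_left b3 hK0
    have b6 := mul_le_mul_of_nonneg_left b4 hKL
    refine le_trans ?_ b1
    linarith
  have iR : IM ψ (fun p => (-1 : ℝ) *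
      ((2 * K0) * (∑ a, JL R (p.1 a) ^ 2 * (⨆ j, ‖p.1 a - p.2 j‖⁻¹)) +
        ((2 * K0 + KL χ 0 * (1 + max zp 0 ^ 2)) * shl (R - 44) p +
          Ch * ∫ v in shc (R - 42) (R - 39), (phi z p v - pr χ W z p) ^ 2))) :=
    IM.cmul _ ((iS.cmul _).add ((i4.cmul _).add (iD.cmul _)))
  have a4 := tll_mono iR iX hpt
  rw [mean_cmul, mean_add (iS.cmul _) ((i4.cmul _).add (iD.cmul _)), mean_add (i4.cmul _)
    (iD.cmul _), mean_cmul, mean_cmul, mean_cmul] at a4
  have a5 : mean ψ (fun p => shl (R - 42) p) ≤ mean ψ (fun p => shl (R - 44) p) :=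
    mean_mono (tlocl_shl hs _) i4 fun _ p _ => tll_shl_anti (by linarith) p
  have a6 : 0 ≤ mean ψ (fun p => shl (R - 44) p) := mean_nonneg fun _ p _ => tll_shl0 _ p
  have a7 := mul_le_mul_of_nonneg_left a5 hCt
  have e1 : R - 42 - 2 = R - 44 := by ring
  have e2 : R - 39 + 2 = R - 37 := by ring
  rw [e1, e2] at a3
  have a8 := mul_le_mul_of_nonneg_left a3 hCh
  have a9 : 0 ≤ ∫ x in shc (R - 44) (R - 37), (WW χ θ W z ψ x + SS θ ψ x) := by
    refine integral_nonneg fun x => add_nonneg ?_ ?_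
    · have := WM_nonneg χ θ W z (fun _ : Unit => ψ) x
      simpa [WM] using this
    · have := SM_nonneg θ (fun _ : Unit => ψ) x
      simpa [SM] using this
  generalize mean ψ (fun p => ∑ j, z j * (JL R (p.2 j) ^ 2 *
    (phiN z j p (p.2 j) - pr χ W z p)) -
      ∑ a, JL R (p.1 a) ^ 2 * (phiE z a p (p.1 a) - pr χ W z p)) = X at *
  generalize mean ψ (fun p => ∑ a, JL R (p.1 a) ^ 2 * (⨆ j, ‖p.1 a - p.2 j‖⁻¹)) = S at *
  generalize ∑ a, kE (mf (fun p => JL R (p.1 a)) ψ) a = KE at *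
  generalize mean ψ (fun p => shl (R - 44) p) = M at *
  generalize mean ψ (fun p => shl (R - 42) p) = M2 at *
  generalize ∫ x in shc (R - 44) (R - 37), (WW χ θ W z ψ x + SS θ ψ x) = w at *
  generalize mean ψ (fun p => ∫ v in shc (R - 42) (R - 39), (phi z p v - pr χ W z p) ^ 2) = D
    at *
  have c1 : 0 ≤ (Ct + 2 * K0 + KL χ 0 * (1 + max zp 0 ^ 2)) * w := by positivity
  have c2 : 0 ≤ Ch * Cm * M := by positivity
  have c3 : (Ct + 2 * K0 + KL χ 0 * (1 + max zp 0 ^ 2) + Ch * Cm) * (w + M) =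
      (Ct + 2 * K0 + KL χ 0 * (1 + max zp 0 ^ 2)) * w + Ch * Cm * M +
      ((Ct + 2 * K0 + KL χ 0 * (1 + max zp 0 ^ 2)) * M + Ch * (Cm * w)) := by ring
  rw [c3]
  linarith

theorem tlocL (q : ℕ) (zm zp κm κp A : ℝ) (hzm : 0 < zm) (hκm : 0 < κm) (hA : 0 ≤ A)
    {χ : E3 → ℝ} (hχ : Bump χ) {θ : E3 → ℝ} (hθ : Cut θ) : ∃ C : ℝ, 0 ≤ C ∧
    ∀ (n k : ℕ) (R : ℝ) (_ : 100 ≤ R) (z κ : Fin k → ℝ) (W : Finset E3) (E : ℝ)
    (ψ : (Fin n → Fin q) → Cfg n k → ℂ)
    (_ : Gd q zm zp κm κp A n k (Metric.ball 0 R) z κ W E ψ),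
    TO ψ (R - 40) ≤ C * (1 + (∫ x in shc (R - 44) (R - 37), (WW χ θ W z ψ x + SS θ ψ x)) +
      mean ψ (fun p => shl (R - 44) p)) := by
  obtain ⟨L, hL, hJL⟩ := JL_lay
  obtain ⟨C1, hC1, k1⟩ := ksumL q κp L hχ
  obtain ⟨C2, hC2, k2⟩ := tlocl_low q zm zp hzm hχ hθ
  refine ⟨(2 + κm⁻¹) * (C1 * (1 + A) + 2 + C2), by positivity, ?_⟩
  intro n k R hR z κ W E ψ hG
  obtain ⟨hz, hκ, hneu, hE, hψ, hm, he, hW⟩ := hG
  obtain ⟨hlay, hJ0, hJ1, hJg, hJl⟩ := hJL R hR
  have hs := St_sm hψ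
  have hJr : ∀ v, JL R v ≠ 0 → R - 42 < ‖v‖ := by
    intro v hv
    by_contra h
    exact hv (hJ0 v (by linarith [not_lt.1 h]))
  have hε1 : (1 : ℝ) ≤ (n : ℝ) + k + 1 := by
    have h1 : (0 : ℝ) ≤ n := Nat.cast_nonneg n
    have h2 : (0 : ℝ) ≤ k := Nat.cast_nonneg k
    linarith
  have a1 := k1 n k _ z κ (fun j => hzm.le.trans (hz j).1)
    (fun j => ⟨hκm.le.trans (hκ j).1, (hκ j).2⟩) E
    (((n : ℝ) + k + 1) ^ 4)⁻¹ (by positivity) hE ψ hψ hm he A hA W hW (JL R) hlay.smooth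
    hlay.mem hlay.grad (R - 42) hJr
  have a2 := k2 n k R hR z hz hneu ψ hψ W
  have hε : 2 * ((n : ℝ) + k + 1) * (((n : ℝ) + k + 1) ^ 4)⁻¹ ≤ 2 := by
    have h1 : (((n : ℝ) + k + 1) ^ 4)⁻¹ ≤ ((n : ℝ) + k + 1)⁻¹ := by
      refine inv_anti₀ (by positivity) ?_
      calc ((n : ℝ) + k + 1) = ((n : ℝ) + k + 1) ^ 1 := (pow_one _).symm
        _ ≤ ((n : ℝ) + k + 1) ^ 4 := pow_le_pow_right₀ hε1 (by norm_num)
    calc 2 * ((n : ℝ) + k + 1) * (((n : ℝ) + k + 1) ^ 4)⁻¹
        ≤ 2 * ((n : ℝ) + k + 1) * ((n : ℝ) + k + 1)⁻¹ :=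
          mul_le_mul_of_nonneg_left h1 (by positivity)
      _ = 2 := by
          rw [mul_assoc, mul_inv_cancel₀ (by positivity), mul_one]
  have a3 : mean ψ (fun p => shl (R - 42) p) ≤ mean ψ (fun p => shl (R - 44) p) :=
    mean_mono (tlocl_shl hs _) (tlocl_shl hs _) fun _ p _ => tll_shl_anti (by linarith) p
  have a4 := mul_le_mul_of_nonneg_left a3 (show 0 ≤ C1 * (1 + A) by positivity)
  have a5 : 0 ≤ mean ψ (fun p => shl (R - 44) p) := mean_nonneg fun _ p _ => tll_shl0 _ p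
  have a6 : 0 ≤ ∫ x in shc (R - 44) (R - 37), (WW χ θ W z ψ x + SS θ ψ x) := by
    refine integral_nonneg fun x => add_nonneg ?_ ?_
    · have := WM_nonneg χ θ W z (fun _ : Unit => ψ) x
      simpa [WM] using this
    · have := SM_nonneg θ (fun _ : Unit => ψ) x
      simpa [SM] using this
  have a7 := tlocl_TO hs R hR
  have a8 : κm * ∑ j, kN (mf (fun p => JL R (p.2 j)) ψ) j ≤
      ∑ j, κ j * kN (mf (fun p => JL R (p.2 j)) ψ) j := by
    rw [mul_sum]
    exact sum_le_sum fun j _ => mul_le_mul_of_nonneg_right (hκ j).1 (kN_nonneg _ j)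
  have a9 : 0 ≤ ∑ a, kE (mf (fun p => JL R (p.1 a)) ψ) a :=
    sum_nonneg fun a _ => kE_nonneg _ a
  have a10 : 0 ≤ ∑ j, kN (mf (fun p => JL R (p.2 j)) ψ) j :=
    sum_nonneg fun j _ => kN_nonneg _ j
  generalize mean ψ (fun p => ∑ j, z j * (JL R (p.2 j) ^ 2 *
    (phiN z j p (p.2 j) - pr χ W z p)) -
      ∑ a, JL R (p.1 a) ^ 2 * (phiE z a p (p.1 a) - pr χ W z p)) = X at *
  generalize ∑ a, kE (mf (fun p => JL R (p.1 a)) ψ) a = KE at *
  generalize ∑ j, κ j * kN (mf (fun p => JL R (p.2 j)) ψ) j = KN at *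
  generalize ∑ j, kN (mf (fun p => JL R (p.2 j)) ψ) j = KM at *
  generalize mean ψ (fun p => shl (R - 44) p) = M at *
  generalize mean ψ (fun p => shl (R - 42) p) = M2 at *
  generalize ∫ x in shc (R - 44) (R - 37), (WW χ θ W z ψ x + SS θ ψ x) = w at *
  have c0 : 0 ≤ κm * KM := mul_nonneg hκm.le a10
  have c1 : KE / 2 + KN ≤ (C1 * (1 + A) + 2 + C2) * (1 + w + M) := by
    have e : (C1 * (1 + A) + 2 + C2) * (1 + w + M) =
        (C1 * (1 + A) * M + 2 + C2 * (w + M)) +
        (C1 * (1 + A) * (1 + w) + 2 * (w + M) + C2) := by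
      ring
    have e2 : 0 ≤ C1 * (1 + A) * (1 + w) + 2 * (w + M) + C2 := by positivity
    rw [e]
    linarith
  have c2 : KE ≤ 2 * ((C1 * (1 + A) + 2 + C2) * (1 + w + M)) := by linarith
  have c3 : KM ≤ κm⁻¹ * ((C1 * (1 + A) + 2 + C2) * (1 + w + M)) := by
    have h1 : κm * KM ≤ (C1 * (1 + A) + 2 + C2) * (1 + w + M) := by linarith
    have h2 := mul_le_mul_of_nonneg_left h1 (inv_nonneg.2 hκm.le)
    rwa [← mul_assoc, inv_mul_cancel₀ hκm.ne', one_mul] at h2
  calc TO ψ (R - 40) ≤ KE + KM := a7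
    _ ≤ _ := add_le_add c2 c3
    _ = _ := by ring

end H6.CL
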