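import Pool.Agent.H6.CL.Defs
import Pool.Agent.H6.CL.Sm32
import Pool.Agent.H6.CL.TLocL
import Pool.Agent.H6.CB.WwLe
import Pool.Agent.H6.CB.TLoc
import Pool.Agent.H6.CL.ShI

/-! Near ground states satisfy the inequalities `Ine`: `ww_le`, `sm32`, `tloc`, `tlocL` for the family with one member (`Fintype.sum_unique`, `mM`, `WM`, `SM`, `TM` are sums over one index). In `ly` use `1 ≤ R ^ 2`. Take the maximum of the constants. -/

open MeasureTheory Finset

namespace H6.CL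

open H6.CM H6.CB

theorem inst0 (q : ℕ) (zm zp κm κp A : ℝ) (hzm : 0 < zm) (hκm : 0 < κm) (hA : 0 ≤ A)
    {χ : E3 → ℝ} (hχ : Bump χ) {θ : E3 → ℝ} (hθ : Cut θ) : ∃ Ci : ℝ, 0 ≤ Ci ∧
    ∀ (n k : ℕ) (R : ℝ) (_ : 100 ≤ R) (z κ : Fin k → ℝ) (W : Finset E3) (E : ℝ)
    (ψ : (Fin n → Fin q) → Cfg n k → ℂ)
    (_ : Gd q zm zp κm κp A n k (Metric.ball 0 R) z κ W E ψ),
    Ine Ci zm zp q n k R z W χ θ (fun _ : Unit => ψ) := by
  obtain ⟨C1, hC1, h1⟩ := ww_le q zm zp κp A hzm hA hχ hθ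
  obtain ⟨C2, hC2, h2⟩ := sm32 q zm zp κm κp A hzm hκm.le hA hχ
  obtain ⟨C3, hC3, h3⟩ := tloc q zm zp κm κp A hzm hκm hA hχ hθ
  obtain ⟨C4, hC4, h4⟩ := tlocL q zm zp κm κp A hzm hκm hA hχ hθ
  refine ⟨C1 + C2 + C3 + C4, by positivity, ?_⟩
  intro n k R hR z κ W E ψ hG
  have hmM : ∀ F : Cfg n k → ℝ, mM (fun _ : Unit => ψ) F = mean ψ F := fun F => by
    unfold mM
    rw [Fintype.sum_unique]
  have hWM : ∀ x, WM χ θ W z (fun _ : Unit => ψ) x = WW χ θ W z ψ x := fun x => by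
    unfold WM
    rw [Fintype.sum_unique]
  have hSM : ∀ x, SM θ (fun _ : Unit => ψ) x = SS θ ψ x := fun x => by
    unfold SM
    rw [Fintype.sum_unique]
  have hTM : ∀ x r, TM (fun _ : Unit => ψ) x r = TE ψ x r + TN ψ x r := fun x r => by
    unfold TM
    rw [Fintype.sum_unique]
  have hup : ∀ (X Y D : ℝ), D ≤ C1 + C2 + C3 + C4 → 0 ≤ X → Y ≤ D * X →
      Y ≤ (C1 + C2 + C3 + C4) * X := fun X Y D hD hX hY =>
    hY.trans (mul_le_mul_of_nonneg_right hD hX)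
  have n1 : ∀ (t : ℝ) (x : E3), 0 ≤ mean ψ (fun p => mm θ x p ^ t) := fun t x =>
    mean_nonneg fun σ p _ => Real.rpow_nonneg (sum_nonneg fun _ _ => sq_nonneg _) _
  have n2 : ∀ (x : E3) (r : ℝ), 0 ≤ mean ψ (fun p => ce p x r + cn p x r) := fun x r =>
    mean_nonneg fun σ p _ => add_nonneg (ce_nonneg _ _ _) (cn_nonneg _ _ _)
  have n3 : ∀ x, 0 ≤ WW χ θ W z ψ x := fun x => by
    rw [← hWM]
    exact WM_nonneg _ _ _ _ _ _
  have n4 : ∀ x, 0 ≤ SS θ ψ x := fun x => by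
    rw [← hSM]
    exact SM_nonneg _ _ _
  refine ⟨hG.hz, hG.neu, fun _ => hG.st, ?_, ?_, ?_, ?_, ?_⟩
  · rw [Fintype.sum_unique]
    exact hG.one
  · intro x hx
    rw [hWM, hmM, hSM, hmM, hmM]
    refine hup _ _ C1 (by linarith) ?_ (h1 n k _ z κ hG.hz (fun j => ⟨hκm.le.trans (hG.hκ j).1,
      (hG.hκ j).2⟩) hG.neu E hG.lb ψ hG.st hG.one hG.en W hG.rf x hx)
    have m1 := n1 (4 / 3) x
    have m2 := n4 x
    have m3 : 0 ≤ mean ψ (fun p => (1 + mm θ x p ^ (1 / 6 : ℝ)) * (ce p x 14 + cn p x 14)) :=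
      mean_nonneg fun σ p _ => mul_nonneg (add_nonneg zero_le_one
        (Real.rpow_nonneg (sum_nonneg fun _ _ => sq_nonneg _) _))
        (add_nonneg (ce_nonneg _ _ _) (cn_nonneg _ _ _))
    have m4 : 0 ≤ mean ψ (fun p => tl 13 p x) := mean_nonneg fun σ p _ => by
      unfold tl
      refine add_nonneg (sum_nonneg fun a _ => ?_) (sum_nonneg fun a _ => ?_)
      · split_ifs
        · exact le_refl (0 : ℝ)
        · exact inv_nonneg.2 (by positivity)
      · split_ifs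
        · exact le_refl (0 : ℝ)
        · exact inv_nonneg.2 (by positivity)
    linarith
  · intro v hv
    rw [hmM, hmM, hmM]
    refine hup _ _ C2 (by linarith) ?_ (h2 n k _ z κ W E ψ hG v hv)
    have m1 : 0 ≤ mean ψ (fun p => ce p v 2 ^ (3 / 2 : ℝ)) :=
      mean_nonneg fun σ p _ => Real.rpow_nonneg (ce_nonneg _ _ _) _
    have m2 : 0 ≤ mean ψ (fun p => q4 1 p v) := mean_nonneg fun σ p _ => by
      unfold q4
      exact add_nonneg (sum_nonneg fun a _ => by positivity)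
        (sum_nonneg fun a _ => by positivity)
    linarith
  · intro x
    rw [hTM, hWM, hSM, hmM]
    refine hup _ _ C3 (by linarith) ?_ (h3 n k _ z κ hG.hz hG.hκ E hG.lb ψ hG.st hG.one hG.en
      W hG.rf x)
    have m1 := n3 x
    have m2 := n4 x
    have m3 := n2 x 4
    linarith
  · rw [Fintype.sum_unique, hmM]
    simp only [hWM, hSM]
    have m1 : 0 ≤ ∫ x in shc (R - 44) (R - 37), (WW χ θ W z ψ x + SS θ ψ x) :=
      integral_nonneg fun x => add_nonneg (n3 x) (n4 x)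
    have m2 : 0 ≤ mean ψ (fun p => shl (R - 44) p) := mean_nonneg fun σ p _ => by
      unfold shl
      refine add_nonneg (sum_nonneg fun a _ => ?_) (sum_nonneg fun a _ => ?_)
      · split_ifs <;> norm_num
      · split_ifs <;> norm_num
    have m3 : 1 ≤ R ^ 2 := by nlinarith
    refine hup _ _ C4 (by linarith) (by linarith) ((h4 n k R hR z κ W E ψ hG).trans ?_)
    exact mul_le_mul_of_nonneg_left (by linarith) hC4

end H6.CL
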