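import Pool.Agent.H6.CL.ShI
import Pool.Agent.H6.CL.CovS
import Pool.Agent.H6.CL.ShT
import Pool.Agent.H6.CB.Hardy

/-! Consequences of the shell bounds. `hardy` at every point, integrated over `A r`: `t_covS` with radius `4`, `c_cov` with radius `4`, `shn`, `ce p v 1 ≤ 1 + ce p v 1 ^ (5/3)`, `A_vol`. For `R + 2 < r` everything vanishes. `shl_loc` with `r = R - 6` and `shc_le`. `cnt_loc`: the number of particles in `shc t (t + 2)` is at most the integral of `ce p v 1 + cn p v 1` over `shc (t - 1) (t + 3)` (the volume of the unit ball is at least one). -/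

open MeasureTheory Finset

namespace H6.CL

open H6.CM H6.CB

private theorem nr_near_meas {n k : ℕ} : Measurable (fun u : E3 × Cfg n k => near u.2 u.1) := by
  have hi : ∀ L : Cfg n k → E3, Measurable L →
      Measurable (fun u : E3 × Cfg n k => if ‖u.1 - L u.2‖ < 2 then ‖u.1 - L u.2‖⁻¹ else 0) := by
    intro L hL
    have h1 : Measurable (fun u : E3 × Cfg n k => ‖u.1 - L u.2‖) :=
      (measurable_fst.sub (hL.comp measurable_snd)).norm
    exact Measurable.ite (measurableSet_lt h1 measurable_const) h1.inv measurable_const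
  unfold near
  exact Measurable.add
    (Finset.measurable_fun_sum _ fun a _ => hi (fun p => p.1 a) (meas_e a))
    (Finset.measurable_fun_sum _ fun j _ => hi (fun p => p.2 j) (meas_n j))

private theorem nr_near_nn {n k : ℕ} (p : Cfg n k) (v : E3) : 0 ≤ near p v := by
  unfold near
  refine add_nonneg (sum_nonneg fun a _ => ?_) (sum_nonneg fun a _ => ?_)
  · split_ifs <;> positivity
  · split_ifs <;> positivity

private theorem nr_meas {ι : Type} [Fintype ι] {q n k : ℕ} {Λ : Set E3}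
    {Ψ : ι → (Fin n → Fin q) → Cfg n k → ℂ} (hΨ : ∀ i, Sm q n k Λ (Ψ i)) :
    StronglyMeasurable (fun v => mM Ψ (fun p => near p v)) := by
  unfold mM mean
  refine Finset.stronglyMeasurable_fun_sum _ fun i _ =>
    Finset.stronglyMeasurable_fun_sum _ fun σ _ => ?_
  have h1 : Measurable (fun u : E3 × Cfg n k => near u.2 u.1 * ‖Ψ i σ u.2‖ ^ 2) :=
    nr_near_meas.mul ((((hΨ i).smooth σ).continuous.norm.pow 2).measurable.comp measurable_snd)
  exact (show StronglyMeasurable (Function.uncurry fun (v : E3) (p : Cfg n k) =>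
    near p v * ‖Ψ i σ p‖ ^ 2) from h1.stronglyMeasurable).integral_prod_right

private theorem nr_mass_one {ι : Type} [Fintype ι] {q n k : ℕ}
    {Ψ : ι → (Fin n → Fin q) → Cfg n k → ℂ} (h1 : ∑ i, mass (Ψ i) = 1) :
    mM Ψ (fun _ => 1) = 1 := by
  unfold mM
  refine Eq.trans (sum_congr rfl fun i _ => ?_) h1
  exact mean_one

private theorem nr_add {ι : Type} [Fintype ι] {q n k : ℕ}
    {Ψ : ι → (Fin n → Fin q) → Cfg n k → ℂ} {F G : Cfg n k → ℝ} (hF : ∀ i, IM (Ψ i) F)
    (hG : ∀ i, IM (Ψ i) G) : mM Ψ (fun p => F p + G p) = mM Ψ F + mM Ψ G := by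
  unfold mM
  rw [← sum_add_distrib]
  exact sum_congr rfl fun i _ => mean_add (hF i) (hG i)

private theorem nr_M : ∃ C : ℝ, 0 ≤ C ∧ ∀ (ι : Type) (_ : Fintype ι) (q n k : ℕ) (R : ℝ)
    (_ : 100 ≤ R) (Ψ : ι → (Fin n → Fin q) → Cfg n k → ℂ)
    (_ : ∀ i, Sm q n k (Metric.ball 0 R) (Ψ i)) (_ : ∑ i, mass (Ψ i) = 1) (B : ℝ)
    (_ : ShB R B Ψ), 0 ≤ B ∧ ∀ r, 0 ≤ r →
      ∫ v in A r, mM Ψ (fun p => ce p v 1 + cn p v 1) ≤ C * (B + 1) * R ^ 2 := by
  obtain ⟨V, hV, hvol⟩ := A_vol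
  refine ⟨V + 2, by positivity, fun ι _ q n k R hR Ψ hΨ hm B hS => ?_⟩
  have hR2 : (0 : ℝ) < R ^ 2 := by positivity
  have hB : 0 ≤ B := by
    have h1 := hS.t 0 le_rfl
    have h2 : 0 ≤ ∫ v in A 0, TM Ψ v 1 := setIntegral_nonneg (A_meas 0) fun v _ => TM_nonneg Ψ v 1
    by_contra hcon
    push Not at hcon
    have := mul_neg_of_neg_of_pos hcon hR2
    linarith
  refine ⟨hB, fun r hr => ?_⟩
  have hsub : A r ⊆ Metric.ball 0 (r + 1) := fun v hv => by
    rw [Metric.mem_ball, dist_zero_right]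
    exact hv.2
  have hIce : ∀ v i, IM (Ψ i) (fun p => ce p v 1) := fun v i => IM_ce (hΨ i) v 1
  have hIcn : ∀ v i, IM (Ψ i) (fun p => cn p v 1) := fun v i => IM_cn (hΨ i) v 1
  have hadd : ∀ v, mM Ψ (fun p => ce p v 1 + cn p v 1) =
      mM Ψ (fun p => ce p v 1) + mM Ψ (fun p => cn p v 1) := fun v => nr_add (hIce v) (hIcn v)
  rcases le_or_gt r (R + 1) with h | h
  · have h53 : ∀ v i, IM (Ψ i) (fun p => ce p v 1 ^ (5 / 3 : ℝ)) := fun v i =>
      IM_cet (hΨ i) v 1 _ (by norm_num)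
    have hone : ∀ i, IM (Ψ i) (fun _ => (1 : ℝ)) := fun i => IM.cont (hΨ i) continuous_const
    have hle : ∀ v, mM Ψ (fun p => ce p v 1) ≤ 1 + mM Ψ (fun p => ce p v 1 ^ (5 / 3 : ℝ)) := by
      intro v
      have hq : 1 + mM Ψ (fun p => ce p v 1 ^ (5 / 3 : ℝ)) =
          mM Ψ (fun p => 1 + ce p v 1 ^ (5 / 3 : ℝ)) := by
        rw [nr_add hone (h53 v), nr_mass_one hm]
      rw [hq]
      unfold mM
      refine sum_le_sum fun i _ => mean_mono (hIce v i) ((hone i).add (h53 v i)) fun σ p _ => ?_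
      have h0 := ce_nonneg p v 1
      rcases le_total (ce p v 1) 1 with h1 | h1
      · have : 0 ≤ ce p v 1 ^ (5 / 3 : ℝ) := Real.rpow_nonneg h0 _
        linarith
      · have h2 : ce p v 1 ^ (1 : ℝ) ≤ ce p v 1 ^ (5 / 3 : ℝ) :=
          Real.rpow_le_rpow_of_exponent_le h1 (by norm_num)
        rw [Real.rpow_one] at h2
        linarith
    have hi53 := (sI_ce hΨ 1 (5 / 3) (r + 1) (by norm_num)).mono_set hsub
    have hicn : IntegrableOn (fun v => mM Ψ (fun p => cn p v 1)) (A r) := by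
      have := (sI_cn hΨ 1 1 (r + 1) (by norm_num)).mono_set hsub
      simpa only [Real.rpow_one] using this
    have hvt : volume (A r) ≠ ⊤ := ne_top_of_le_ne_top ENNReal.ofReal_ne_top
      (hvol r R hr h (by linarith))
    have hone' : IntegrableOn (fun _ : E3 => (1 : ℝ)) (A r) := integrableOn_const (hs := hvt)
    have hi1 : IntegrableOn (fun v => (1 + mM Ψ (fun p => ce p v 1 ^ (5 / 3 : ℝ))) +
        mM Ψ (fun p => cn p v 1)) (A r) := (hone'.add hi53).add hicn
    calc ∫ v in A r, mM Ψ (fun p => ce p v 1 + cn p v 1)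
        ≤ ∫ v in A r, ((1 + mM Ψ (fun p => ce p v 1 ^ (5 / 3 : ℝ))) +
            mM Ψ (fun p => cn p v 1)) := by
          refine setIntegral_mono_on ((sI_sum hΨ 1 (r + 1)).mono_set hsub) hi1 (A_meas r) fun v _ => ?_
          rw [hadd]
          exact add_le_add (hle v) le_rfl
      _ = (∫ _v in A r, (1 : ℝ)) + (∫ v in A r, mM Ψ (fun p => ce p v 1 ^ (5 / 3 : ℝ))) +
            ∫ v in A r, mM Ψ (fun p => cn p v 1) := by
          have e1 := integral_add (hone'.add hi53) hicn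
          have e2 := integral_add hone' hi53
          simp only [Pi.add_apply] at e1 e2
          rw [e1, e2]
      _ ≤ V * R ^ 2 + B * R ^ 2 + B * R ^ 2 := by
          refine add_le_add (add_le_add ?_ (hS.e r hr)) (hS.c r hr)
          rw [setIntegral_const, smul_eq_mul, mul_one]
          exact ENNReal.toReal_le_of_le_ofReal (by positivity) (hvol r R hr h (by linarith))
      _ ≤ (V + 2) * (B + 1) * R ^ 2 := by
          have h1 : V + B + B ≤ (V + 2) * (B + 1) := by nlinarith [mul_nonneg hV hB]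
          have h2 := mul_le_mul_of_nonneg_right h1 hR2.le
          linarith
  · have h0 : ∀ v ∈ A r, mM Ψ (fun p => ce p v 1 + cn p v 1) = 0 := by
      intro v hv
      have h1 := out_ce hΨ v 1 1 one_pos (by linarith [hv.1])
      have h2 := out_cn hΨ v 1 1 one_pos (by linarith [hv.1])
      simp only [Real.rpow_one] at h1 h2
      rw [hadd, h1, h2, add_zero]
    rw [setIntegral_congr_fun (A_meas r) h0]
    simp only [integral_zero]
    positivity

theorem nearS : ∃ C : ℝ, 0 ≤ C ∧ ∀ (ι : Type) (_ : Fintype ι) (q n k : ℕ) (R : ℝ)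
    (_ : 100 ≤ R) (Ψ : ι → (Fin n → Fin q) → Cfg n k → ℂ)
    (_ : ∀ i, Sm q n k (Metric.ball 0 R) (Ψ i)) (_ : ∑ i, mass (Ψ i) = 1) (B : ℝ)
    (_ : ShB R B Ψ) (r : ℝ) (_ : 0 ≤ r),
    IntegrableOn (fun v => mM Ψ (fun p => near p v)) (A r) ∧
    ∫ v in A r, mM Ψ (fun p => near p v) ≤ C * (B + 1) * R ^ 2 := by
  obtain ⟨Ch, hCh, Hh⟩ := hardy
  obtain ⟨t1, ht1, Ht1⟩ := t_covS 4
  obtain ⟨t2, ht2, Ht2⟩ := c_cov 4
  obtain ⟨Cs, hCs, Hs⟩ := shn 4 (by norm_num)
  obtain ⟨C1, hC1, HM⟩ := nr_M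
  refine ⟨Ch * ((t1.card + t2.card) * (Cs * (1 + C1))), by positivity,
    fun ι _ q n k R hR Ψ hΨ hm B hS r hr => ?_⟩
  obtain ⟨hB, hM⟩ := HM ι _ q n k R hR Ψ hΨ hm B hS
  obtain ⟨G, hG⟩ : ∃ G : E3 → ℝ, ∀ v, G v = TM Ψ v 1 + mM Ψ (fun p => ce p v 1 + cn p v 1) :=
    ⟨_, fun _ => rfl⟩
  have hGe : G = fun v => TM Ψ v 1 + mM Ψ (fun p => ce p v 1 + cn p v 1) := funext hG
  have hc0 : ∀ v, 0 ≤ mM Ψ (fun p => ce p v 1 + cn p v 1) := fun v =>
    mM_nonneg Ψ fun p => add_nonneg (ce_nonneg _ _ _) (cn_nonneg _ _ _)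
  have hG0 : ∀ v, 0 ≤ G v := fun v => by
    rw [hG]
    exact add_nonneg (TM_nonneg Ψ v 1) (hc0 v)
  have hGi : ∀ s, IntegrableOn G (Metric.ball 0 s) := fun s => by
    rw [hGe]
    exact (sI_T hΨ 1 s).add (sI_sum hΨ 1 s)
  have hR2 : (0 : ℝ) ≤ R ^ 2 := by positivity
  have hGM : ∀ r, 0 ≤ r → ∫ v in A r, G v ≤ (1 + C1) * (B + 1) * R ^ 2 := by
    intro r hr
    have hsub : A r ⊆ Metric.ball 0 (r + 1) := fun v hv => by
      rw [Metric.mem_ball, dist_zero_right]
      exact hv.2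
    rw [hGe, integral_add ((sI_T hΨ 1 (r + 1)).mono_set hsub)
      ((sI_sum hΨ 1 (r + 1)).mono_set hsub)]
    have h1 := hS.t r hr
    have h2 := hM r hr
    have h3 : B * R ^ 2 ≤ (B + 1) * R ^ 2 := mul_le_mul_of_nonneg_right (by linarith) hR2
    linarith
  have Hs' := Hs G hG0 hGi _ hGM r hr
  have hkey : ∀ x, mM Ψ (fun p => near p x) ≤
      Ch * ((∑ c ∈ t1, G (x + c)) + ∑ c ∈ t2, G (x + c)) := by
    intro x
    have h1 : mM Ψ (fun p => near p x) ≤
        Ch * (TM Ψ x 4 + mM Ψ (fun p => ce p x 4 + cn p x 4)) := by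
      unfold mM TM
      rw [← sum_add_distrib, mul_sum]
      exact sum_le_sum fun i _ => Hh q n k _ (Ψ i) (hΨ i) x
    have h2 : TM Ψ x 4 ≤ ∑ c ∈ t1, G (x + c) := by
      have h3 : TM Ψ x 4 ≤ ∑ c ∈ t1, TM Ψ (x + c) 1 := by
        unfold TM
        rw [sum_comm]
        exact sum_le_sum fun i _ => Ht1 q n k _ (Ψ i) (hΨ i) x
      refine h3.trans (sum_le_sum fun c _ => ?_)
      rw [hG]
      linarith [hc0 (x + c)]
    have h4 : mM Ψ (fun p => ce p x 4 + cn p x 4) ≤ ∑ c ∈ t2, G (x + c) := by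
      have hI : ∀ i y s, IM (Ψ i) (fun p => ce p y s + cn p y s) := fun i y s =>
        (IM_ce (hΨ i) y s).add (IM_cn (hΨ i) y s)
      have h5 : mM Ψ (fun p => ce p x 4 + cn p x 4) ≤
          ∑ c ∈ t2, mM Ψ (fun p => ce p (x + c) 1 + cn p (x + c) 1) := by
        unfold mM
        rw [sum_comm]
        refine sum_le_sum fun i _ => ?_
        rw [← mean_sum t2 fun c _ => hI i (x + c) 1]
        refine mean_mono (hI i x 4) (IM.sum _ fun c _ => hI i (x + c) 1) fun σ p _ => ?_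
        rw [sum_add_distrib]
        exact add_le_add (Ht2 n k p x).1 (Ht2 n k p x).2
      refine h5.trans (sum_le_sum fun c _ => ?_)
      rw [hG]
      linarith [TM_nonneg Ψ (x + c) 1]
    exact h1.trans (mul_le_mul_of_nonneg_left (add_le_add h2 h4) hCh)
  have hI1 : IntegrableOn (fun x => ∑ c ∈ t1, G (x + c)) (A r) :=
    integrable_finsetSum _ fun c hc => (Hs'.1 c (ht1 c hc)).1
  have hI2 : IntegrableOn (fun x => ∑ c ∈ t2, G (x + c)) (A r) :=
    integrable_finsetSum _ fun c hc => (Hs'.1 c (ht2 c hc)).1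
  have hI3 : IntegrableOn (fun x => Ch * ((∑ c ∈ t1, G (x + c)) + ∑ c ∈ t2, G (x + c))) (A r) :=
    (hI1.add hI2).const_mul Ch
  have hint : IntegrableOn (fun v => mM Ψ (fun p => near p v)) (A r) := by
    refine Integrable.mono' hI3 (nr_meas hΨ).aestronglyMeasurable
      (Filter.Eventually.of_forall fun x => ?_)
    rw [Real.norm_of_nonneg (mM_nonneg Ψ fun p => nr_near_nn p x)]
    exact hkey x
  refine ⟨hint, ?_⟩
  have hb1 : ∫ x in A r, ∑ c ∈ t1, G (x + c) ≤ t1.card * (Cs * ((1 + C1) * (B + 1) * R ^ 2)) := by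
    rw [integral_finsetSum _ fun c hc => (Hs'.1 c (ht1 c hc)).1, ← nsmul_eq_mul]
    exact sum_le_card_nsmul _ _ _ fun c hc => (Hs'.1 c (ht1 c hc)).2
  have hb2 : ∫ x in A r, ∑ c ∈ t2, G (x + c) ≤ t2.card * (Cs * ((1 + C1) * (B + 1) * R ^ 2)) := by
    rw [integral_finsetSum _ fun c hc => (Hs'.1 c (ht2 c hc)).1, ← nsmul_eq_mul]
    exact sum_le_card_nsmul _ _ _ fun c hc => (Hs'.1 c (ht2 c hc)).2
  calc ∫ v in A r, mM Ψ (fun p => near p v)
      ≤ ∫ x in A r, Ch * ((∑ c ∈ t1, G (x + c)) + ∑ c ∈ t2, G (x + c)) :=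
        setIntegral_mono hint hI3 fun x => hkey x
    _ = Ch * ((∫ x in A r, ∑ c ∈ t1, G (x + c)) + ∫ x in A r, ∑ c ∈ t2, G (x + c)) := by
        rw [integral_const_mul, integral_add hI1 hI2]
    _ ≤ Ch * (t1.card * (Cs * ((1 + C1) * (B + 1) * R ^ 2)) +
          t2.card * (Cs * ((1 + C1) * (B + 1) * R ^ 2))) :=
        mul_le_mul_of_nonneg_left (add_le_add hb1 hb2) hCh
    _ = Ch * ((t1.card + t2.card) * (Cs * (1 + C1))) * (B + 1) * R ^ 2 := by ring

theorem shlS : ∃ C : ℝ, 0 ≤ C ∧ ∀ (ι : Type) (_ : Fintype ι) (q n k : ℕ) (R : ℝ)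
    (_ : 100 ≤ R) (Ψ : ι → (Fin n → Fin q) → Cfg n k → ℂ)
    (_ : ∀ i, Sm q n k (Metric.ball 0 R) (Ψ i)) (_ : ∑ i, mass (Ψ i) = 1) (B : ℝ)
    (_ : ShB R B Ψ), mM Ψ (fun p => shl (R - 6) p) ≤ C * (B + 1) * R ^ 2 := by
  obtain ⟨C1, hC1, HM⟩ := nr_M
  refine ⟨9 * C1, by positivity, fun ι _ q n k R hR Ψ hΨ hm B hS => ?_⟩
  obtain ⟨hB, hM⟩ := HM ι _ q n k R hR Ψ hΨ hm B hS
  refine (shl_loc hΨ (R - 6)).trans ?_
  have h1 := shc_le (fun v => mM Ψ (fun p => ce p v 1 + cn p v 1))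
    (fun v => mM_nonneg Ψ fun p => add_nonneg (ce_nonneg _ _ _) (cn_nonneg _ _ _))
    (fun s => sI_sum hΨ 1 s) (C1 * (B + 1) * R ^ 2) (R - 7) (by linarith) 9
    (fun i _ => hM _ (by have : (0 : ℝ) ≤ i := Nat.cast_nonneg i; linarith))
    (shc (R - 6 - 1) (R + 1)) (fun v hv => ?_)
  · refine h1.trans (le_of_eq ?_)
    push_cast
    ring
  · have h2 := hv.1
    have h3 := hv.2
    push_cast
    constructor <;> linarith

private theorem nr_cnt {n k : ℕ} :
    Measurable (fun u : Cfg n k × E3 => ce u.1 u.2 1 + cn u.1 u.2 1) := by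
  have hi : ∀ L : Cfg n k → E3, Measurable L →
      Measurable (fun u : Cfg n k × E3 => if ‖L u.1 - u.2‖ < 1 then (1 : ℝ) else 0) := by
    intro L hL
    exact Measurable.ite (measurableSet_lt ((hL.comp measurable_fst).sub measurable_snd).norm
      measurable_const) measurable_const measurable_const
  have h1 : Measurable (fun u : Cfg n k × E3 => ce u.1 u.2 1) := by
    unfold ce
    exact Finset.measurable_fun_sum _ fun a _ => hi (fun p => p.1 a) (meas_e a)
  have h2 : Measurable (fun u : Cfg n k × E3 => cn u.1 u.2 1) := by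
    unfold cn
    exact Finset.measurable_fun_sum _ fun j _ => hi (fun p => p.2 j) (meas_n j)
  exact Measurable.add h1 h2

private theorem nr_ind (S : Set E3) {q n k : ℕ} (ψ : (Fin n → Fin q) → Cfg n k → ℂ)
    (F : E3 → Cfg n k → ℝ) (v : E3) :
    mean ψ (fun p => S.indicator (fun v => F v p) v) =
      S.indicator (fun v => mean ψ (F v)) v := by
  by_cases hv : v ∈ S
  · simp only [Set.indicator_of_mem hv]
  · simp only [Set.indicator_of_notMem hv]
    unfold mean
    simp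

private theorem nr_fub {q n k : ℕ} {Λ : Set E3} {ψ : (Fin n → Fin q) → Cfg n k → ℂ}
    (h : Sm q n k Λ ψ) (S : Set E3) (hS : MeasurableSet S) (s : ℝ)
    (hs : S ⊆ Metric.ball 0 s) {F : E3 → Cfg n k → ℝ}
    (hF : Measurable (fun u : Cfg n k × E3 => F u.2 u.1)) (M : ℝ) (hM : ∀ v p, |F v p| ≤ M) :
    IntegrableOn (fun v => mean ψ (F v)) S ∧ IM ψ (fun p => ∫ v in S, F v p) ∧
      ∫ v in S, mean ψ (F v) = mean ψ (fun p => ∫ v in S, F v p) := by
  have h1 := mean_ball h 0 s (F := fun v p => S.indicator (fun v => F v p) v)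
    (by
      have e : (fun u : Cfg n k × E3 => S.indicator (fun v => F v u.1) u.2) =
          (Prod.snd ⁻¹' S).indicator (fun u : Cfg n k × E3 => F u.2 u.1) := by
        funext u
        by_cases hu : u.2 ∈ S
        · rw [Set.indicator_of_mem hu, Set.indicator_of_mem (show u ∈ Prod.snd ⁻¹' S from hu)]
        · rw [Set.indicator_of_notMem hu,
            Set.indicator_of_notMem (show u ∉ Prod.snd ⁻¹' S from hu)]
      rw [e]
      exact hF.indicator (measurable_snd hS)) (G := fun _ => M) continuous_const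
    (by
      intro v _ p
      by_cases hv : v ∈ S
      · simp only [Set.indicator_of_mem hv]
        exact hM v p
      · simp only [Set.indicator_of_notMem hv, abs_zero]
        exact (abs_nonneg _).trans (hM v p))
  obtain ⟨a1, a2, a3⟩ := h1
  simp only [nr_ind] at a1 a3
  have hint : ∀ g : E3 → ℝ, ∫ v in Metric.ball 0 s, S.indicator g v = ∫ v in S, g v := by
    intro g
    rw [setIntegral_indicator hS, Set.inter_eq_self_of_subset_right hs]
  rw [hint] at a3
  have e2 : ∀ p : Cfg n k, ∫ v in Metric.ball 0 s, S.indicator (fun v => F v p) v =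
      ∫ v in S, F v p := fun p => hint _
  simp only [e2] at a2 a3
  refine ⟨(a1.mono_set hs).congr_fun (fun v hv => Set.indicator_of_mem hv _) hS, a2, a3⟩

private theorem nr_vol1 : 1 ≤ (volume (Metric.ball (0 : E3) 1)).toReal := by
  rw [EuclideanSpace.volume_ball_fin_three]
  simp only [ENNReal.ofReal_one, one_pow, one_mul]
  rw [ENNReal.toReal_ofReal (by positivity)]
  linarith [Real.pi_gt_three]

/-- one particle -/
private theorem nr_one (t : ℝ) (y : E3) : (if t ≤ ‖y‖ ∧ ‖y‖ ≤ t + 2 then (1 : ℝ) else 0) ≤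
    ∫ v in shc (t - 1) (t + 3), (if ‖y - v‖ < 1 then (1 : ℝ) else 0) := by
  split_ifs with h
  · have e : (fun v : E3 => if ‖y - v‖ < 1 then (1 : ℝ) else 0) =
        (Metric.ball y 1).indicator (fun _ => (1 : ℝ)) := by
      funext v
      by_cases hv : ‖y - v‖ < 1
      · have h1 : v ∈ Metric.ball y 1 := by rwa [Metric.mem_ball, dist_eq_norm, norm_sub_rev]
        rw [if_pos hv, Set.indicator_of_mem h1]
      · have h1 : v ∉ Metric.ball y 1 := by rwa [Metric.mem_ball, dist_eq_norm, norm_sub_rev]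
        rw [if_neg hv, Set.indicator_of_notMem h1]
    have hsub : Metric.ball y 1 ⊆ shc (t - 1) (t + 3) := by
      intro v hv
      rw [Metric.mem_ball, dist_eq_norm] at hv
      have h4 := norm_sub_norm_le v y
      have h5 := norm_sub_norm_le y v
      rw [norm_sub_rev] at h5
      exact ⟨by linarith, by linarith⟩
    rw [e, setIntegral_indicator Metric.isOpen_ball.measurableSet,
      Set.inter_eq_self_of_subset_right hsub, setIntegral_const, smul_eq_mul, mul_one]
    refine nr_vol1.trans (le_of_eq ?_)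
    rw [← Measure.addHaar_ball_center volume y 1]
    rfl
  · exact integral_nonneg fun v => by positivity

/-- number of particles in a shell of thickness two -/
theorem cnt_loc {ι : Type} [Fintype ι] {q n k : ℕ} {Λ : Set E3}
    {Ψ : ι → (Fin n → Fin q) → Cfg n k → ℂ} (hΨ : ∀ i, Sm q n k Λ (Ψ i)) (t : ℝ)
    (ht : 1 ≤ t) :
    mM Ψ (fun p => cS t p) ≤
    ∫ v in shc (t - 1) (t + 3), mM Ψ (fun p => ce p v 1 + cn p v 1) := by
  have hSm : MeasurableSet (shc (t - 1) (t + 3)) :=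
    (measurableSet_le measurable_const measurable_norm).inter
      (measurableSet_le measurable_norm measurable_const)
  have hSs : shc (t - 1) (t + 3) ⊆ Metric.ball 0 (t + 4) := fun v hv => by
    rw [Metric.mem_ball, dist_zero_right]
    linarith [hv.2]
  have hcb : ∀ (v : E3) (p : Cfg n k), |ce p v 1 + cn p v 1| ≤ (n : ℝ) + k := by
    intro v p
    rw [abs_of_nonneg (add_nonneg (ce_nonneg _ _ _) (cn_nonneg _ _ _))]
    exact add_le_add (ce_le _ _ _) (cn_le _ _ _)
  have hF := fun i => nr_fub (hΨ i) _ hSm (t + 4) hSs (F := fun v p => ce p v 1 + cn p v 1)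
    nr_cnt ((n : ℝ) + k) hcb
  have hii : ∀ (y : E3),
      IntegrableOn (fun v : E3 => if ‖y - v‖ < 1 then (1 : ℝ) else 0) (shc (t - 1) (t + 3)) := by
    intro y
    refine Measure.integrableOn_of_bounded (M := 1)
      (ne_top_of_le_ne_top measure_ball_lt_top.ne (measure_mono hSs)) ?_ ?_
    · exact (Measurable.ite (measurableSet_lt ((measurable_const.sub measurable_id).norm)
        measurable_const) measurable_const measurable_const).aestronglyMeasurable
    · refine Filter.Eventually.of_forall fun v => ?_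
      split_ifs <;> simp
  unfold mM
  rw [integral_finsetSum _ fun i _ => (hF i).1]
  refine sum_le_sum fun i _ => ?_
  rw [(hF i).2.2]
  refine mean_mono0 (fun p => ?_) (hF i).2.1 fun σ p _ => ?_
  · unfold cS
    exact add_nonneg (sum_nonneg fun a _ => by positivity) (sum_nonneg fun a _ => by positivity)
  · unfold cS ce cn
    rw [integral_add (integrable_finsetSum _ fun a _ => hii (p.1 a))
        (integrable_finsetSum _ fun a _ => hii (p.2 a)),
        integral_finsetSum _ fun a _ => hii (p.1 a),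
        integral_finsetSum _ fun a _ => hii (p.2 a)]
    exact add_le_add (sum_le_sum fun a _ => nr_one t (p.1 a))
      (sum_le_sum fun b _ => nr_one t (p.2 b))

end H6.CL
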