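import Pool.Agent.H6.CB.RefW

/-! A reference set in the ball: the points whose coordinates are multiples of `4` and of absolute value at most `R / 2 - 4`, say: their norm is at most `sqrt 3 * (R / 2 - 4) ≤ 0.87 R - 6`, so the closed balls of radius `2` are contained in the open ball of radius `R`; their number is at least `(2 ⌊(R / 2 - 4) / 4⌋ + 1) ^ 3 ≥ (R / 4 - 3) ^ 3 ≥ c R ^ 3` for `R ≥ 100`. -/

open MeasureTheory Finset

namespace H6.CL

open H6.CM H6.CB

theorem ball_grid : ∃ c : ℝ, 0 < c ∧ ∀ R : ℝ, 100 ≤ R → ∃ W : Finset E3, W.Nonempty ∧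
    (∀ w ∈ W, Metric.closedBall w 2 ⊆ Metric.ball 0 R) ∧
    (∀ w ∈ W, ∀ w' ∈ W, w ≠ w' → 4 ≤ dist w w') ∧ c * R ^ 3 ≤ W.card := by
  sorry

end H6.CL
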