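import Pool.Agent.H6.CL.Defs
import Pool.Agent.H6.CL.ShN
import Pool.Agent.H6.CM.ShA
import Pool.Agent.H6.CM.ShF

/-! Averages over spheres. The mean over the sphere of radius `t` around the origin of `v ↦ ‖v - y‖⁻¹` is `(max t ‖y‖)⁻¹` (Newton), so `Ph z Ψ t` is the mean over this sphere of the mean potential. `sph`: let `a t` be the volume of `A t` and `g t y = (a t)⁻¹ * ∫ v in A t, ‖v - y‖⁻¹ = (a t)⁻¹ * 4 π ∫ u in t..(t+1), u ^ 2 / max u ‖y‖` (`ShA_val` in `Pool/Agent/H6/CM/ShA.lean`; `A t` and `sh t (t + 1)` differ by a null set). Put `b t = (a t)⁻¹ * 2 π * (2 t + 1)`, the value of `g t y` for `‖y‖ ≤ t`; `1 / (t + 1) ≤ b t ≤ 1 / t`, and `b t - b (t + 1) ≥ c t ^ -2`. With `α = (1 / t - b (t + 1)) / (b t - b (t + 1))`, `β = 1 - α` (bounded), the function `(max t ‖y‖)⁻¹ - α g t y - β g (t + 1) y` vanishes for `‖y‖ ≤ t` and for `t + 2 ≤ ‖y‖`, and is at most `C t ^ -2` in between (all terms are between `1 / (t + 2)` and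 `1 / t`). `a t ≥ 4 π t ^ 2`. `sph_in`: the terms with `1 ≤ ‖y‖` cancel. `sph_out`: by neutrality subtract `1 / t` from each term; `1 / t - 1 / ‖y‖ ≤ (R - t) / t ^ 2` for `t ≤ ‖y‖ ≤ R`. -/

open MeasureTheory Finset

namespace H6.CL

open H6.CM H6.CB

/-- the mean over the sphere of radius `t` around the origin of the mean potential -/
noncomputable def Ph {ι : Type} [Fintype ι] {q n k : ℕ} (z : Fin k → ℝ)
    (Ψ : ι → (Fin n → Fin q) → Cfg n k → ℂ) (t : ℝ) : ℝ :=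
  mM Ψ (fun p => ∑ j, z j * (max t ‖p.2 j‖)⁻¹ - ∑ a, (max t ‖p.1 a‖)⁻¹)

private noncomputable def SpS_e : E3 := EuclideanSpace.single (2 : Fin 3) (1 : ℝ)

private theorem SpS_norm_e : ‖SpS_e‖ = 1 := by simp [SpS_e]

private theorem SpS_norm_we (W : ℝ) (u : E3) :
    ‖u - W • SpS_e‖ = Real.sqrt (W ^ 2 + ‖u‖ ^ 2 - 2 * W * u 2) := by
  have h1 : ‖u - W • SpS_e‖ ^ 2 = W ^ 2 + ‖u‖ ^ 2 - 2 * W * u 2 := by
    rw [norm_sub_rev, norm_sub_sq_real, real_inner_smul_left, norm_smul, SpS_norm_e]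
    have h2 : inner ℝ SpS_e u = u 2 := by
      unfold SpS_e
      rw [EuclideanSpace.inner_single_left]
      simp
    rw [h2, mul_one, Real.norm_eq_abs, sq_abs]
    ring
  rw [← h1, Real.sqrt_sq (norm_nonneg _)]

/-- the kernel after the integration over the spheres -/
private noncomputable def SpS_m (W s : ℝ) : ℝ := if W = 0 then 2 else 2 * min s W / W

private theorem SpS_inner (W s : ℝ) (hW : 0 ≤ W) (hs : 0 < s) :
    ∫⁻ z in Set.Ioo (-s) s, ENNReal.ofReal ((Real.sqrt (W ^ 2 + s ^ 2 - 2 * W * z))⁻¹)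
      = ENNReal.ofReal (SpS_m W s) := by
  rcases hW.eq_or_lt with h0 | hW
  · subst h0
    have h1 : ∀ z : ℝ, (0 : ℝ) ^ 2 + s ^ 2 - 2 * 0 * z = s ^ 2 := by
      intro z
      ring
    simp only [h1, Real.sqrt_sq hs.le]
    rw [lintegral_const, Measure.restrict_apply MeasurableSet.univ, Set.univ_inter,
      Real.volume_Ioo, ← ENNReal.ofReal_mul (inv_nonneg.mpr hs.le)]
    congr 1
    rw [SpS_m, if_pos rfl]
    field_simp
    ring
  have hpos : ∀ z ∈ Set.Ioo (-s) s, 0 < W ^ 2 + s ^ 2 - 2 * W * z := by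
    intro z hz
    nlinarith [sq_nonneg (W - s), mul_pos hW (sub_pos.mpr hz.2)]
  have hcont : ContinuousOn (fun z : ℝ => -(Real.sqrt (W ^ 2 + s ^ 2 - 2 * W * z)) / W)
      (Set.Icc (-s) s) := by
    fun_prop
  have hderiv : ∀ z ∈ Set.Ioo (-s) s,
      HasDerivAt (fun z : ℝ => -(Real.sqrt (W ^ 2 + s ^ 2 - 2 * W * z)) / W)
        ((Real.sqrt (W ^ 2 + s ^ 2 - 2 * W * z))⁻¹) z := by
    intro z hz
    have h1 : HasDerivAt (fun z : ℝ => W ^ 2 + s ^ 2 - 2 * W * z) (-(2 * W)) z := by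
      have := ((hasDerivAt_id z).const_mul (2 * W)).const_sub (W ^ 2 + s ^ 2)
      simpa using this
    have h2 := ((h1.sqrt (hpos z hz).ne').fun_neg).div_const W
    have h3 : -(-(2 * W) / (2 * Real.sqrt (W ^ 2 + s ^ 2 - 2 * W * z))) / W
        = (Real.sqrt (W ^ 2 + s ^ 2 - 2 * W * z))⁻¹ := by
      have := Real.sqrt_pos.mpr (hpos z hz)
      field_simp
    rw [h3] at h2
    exact h2
  have hint : IntegrableOn (fun z : ℝ => (Real.sqrt (W ^ 2 + s ^ 2 - 2 * W * z))⁻¹)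
      (Set.Ioc (-s) s) :=
    intervalIntegral.integrableOn_deriv_of_nonneg hcont hderiv (fun z _ => by positivity)
  have hle : -s ≤ s := by linarith
  have hII : IntervalIntegrable (fun z : ℝ => (Real.sqrt (W ^ 2 + s ^ 2 - 2 * W * z))⁻¹)
      volume (-s) s := (intervalIntegrable_iff_integrableOn_Ioc_of_le hle).mpr hint
  have hval := intervalIntegral.integral_eq_sub_of_hasDerivAt_of_le hle hcont hderiv hII
  rw [intervalIntegral.integral_of_le hle, integral_Ioc_eq_integral_Ioo] at hval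
  rw [← ofReal_integral_eq_lintegral_ofReal (hint.mono_set Set.Ioo_subset_Ioc_self)
    (Filter.Eventually.of_forall fun z => inv_nonneg.mpr (Real.sqrt_nonneg _)), hval]
  congr 1
  have h1 : Real.sqrt (W ^ 2 + s ^ 2 - 2 * W * s) = |W - s| := by
    rw [← Real.sqrt_sq_eq_abs]
    congr 1
    ring
  have h2 : Real.sqrt (W ^ 2 + s ^ 2 - 2 * W * (-s)) = W + s := by
    have h3 : W ^ 2 + s ^ 2 - 2 * W * (-s) = (W + s) ^ 2 := by ring
    rw [h3, Real.sqrt_sq (by linarith)]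
  rw [h1, h2, SpS_m, if_neg hW.ne']
  rcases le_total s W with h | h
  · rw [min_eq_left h, abs_of_nonneg (by linarith)]
    ring
  · rw [min_eq_right h, abs_of_nonpos (by linarith)]
    ring

private noncomputable def SpS_G (r s : ℝ) : ENNReal := if r < s ∧ s < r + 1 then 1 else 0

private theorem SpS_G_meas (r : ℝ) : Measurable (SpS_G r) := by
  unfold SpS_G
  exact Measurable.ite measurableSet_Ioo measurable_const measurable_const

private theorem SpS_set_meas (r s : ℝ) : MeasurableSet (sh r s) := by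
  have h1 : sh r s = (fun v : E3 => ‖v‖) ⁻¹' Set.Ioo r s := rfl
  rw [h1]
  exact measurable_norm measurableSet_Ioo

private theorem SpS_ind (r : ℝ) (f : E3 → ENNReal) :
    ∫⁻ v in sh r (r + 1), f v = ∫⁻ v, SpS_G r ‖v‖ * f v := by
  rw [← lintegral_indicator (SpS_set_meas r (r + 1))]
  refine lintegral_congr fun v => ?_
  by_cases hv : v ∈ sh r (r + 1)
  · have hG : SpS_G r ‖v‖ = 1 := if_pos hv
    rw [Set.indicator_of_mem hv, hG, one_mul]
  · have hG : SpS_G r ‖v‖ = 0 := if_neg hv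
    rw [Set.indicator_of_notMem hv, hG, zero_mul]

private theorem SpS_rot (r : ℝ) (w : E3) :
    ∫⁻ v in sh r (r + 1), ENNReal.ofReal ‖v - w‖⁻¹ =
      ∫⁻ v in sh r (r + 1), ENNReal.ofReal ‖v - ‖w‖ • SpS_e‖⁻¹ := by
  have hn : ‖w‖ = ‖‖w‖ • SpS_e‖ := by rw [norm_smul, SpS_norm_e, mul_one, norm_norm]
  obtain ⟨T, hT⟩ : ∃ T : E3 ≃ₗᵢ[ℝ] E3, T w = ‖w‖ • SpS_e :=
    ⟨_, Submodule.reflection_sub hn⟩
  have hmp := T.measurePreserving
  rw [SpS_ind, SpS_ind]
  have h1 := hmp.lintegral_comp_emb T.toMeasurableEquiv.measurableEmbedding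
    (fun v : E3 => SpS_G r ‖v‖ * ENNReal.ofReal ‖v - ‖w‖ • SpS_e‖⁻¹)
  rw [← h1]
  refine lintegral_congr fun v => ?_
  show SpS_G r ‖v‖ * ENNReal.ofReal ‖v - w‖⁻¹ =
    SpS_G r ‖T v‖ * ENNReal.ofReal ‖T v - ‖w‖ • SpS_e‖⁻¹
  rw [← hT, ← map_sub, T.norm_map, T.norm_map]

private theorem SpS_lint (r W : ℝ) (hW : 0 ≤ W) :
    ∫⁻ v in sh r (r + 1), ENNReal.ofReal ‖v - W • SpS_e‖⁻¹ =
      ENNReal.ofReal (2 * Real.pi) * ∫⁻ s in Set.Ioi (0 : ℝ), ENNReal.ofReal s *
        (SpS_G r s * ENNReal.ofReal (SpS_m W s)) := by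
  rw [SpS_ind]
  have hF : Measurable fun u : ℝ × ℝ => SpS_G r u.1 *
      ENNReal.ofReal ((Real.sqrt (W ^ 2 + u.1 ^ 2 - 2 * W * u.2))⁻¹) := by
    have h1 : Measurable fun u : ℝ × ℝ => SpS_G r u.1 := (SpS_G_meas r).comp measurable_fst
    have h2 : Measurable fun u : ℝ × ℝ => (Real.sqrt (W ^ 2 + u.1 ^ 2 - 2 * W * u.2))⁻¹ := by
      fun_prop
    exact h1.mul (ENNReal.measurable_ofReal.comp h2)
  have hcyl := cyl (fun s z => SpS_G r s *
      ENNReal.ofReal ((Real.sqrt (W ^ 2 + s ^ 2 - 2 * W * z))⁻¹)) hF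
  simp_rw [SpS_norm_we]
  rw [hcyl]
  congr 1
  refine setLIntegral_congr_fun measurableSet_Ioi fun s hs => ?_
  have hs0 : 0 < s := hs
  show ENNReal.ofReal s * ∫⁻ z in Set.Ioo (-s) s, SpS_G r s *
      ENNReal.ofReal ((Real.sqrt (W ^ 2 + s ^ 2 - 2 * W * z))⁻¹)
    = ENNReal.ofReal s * (SpS_G r s * ENNReal.ofReal (SpS_m W s))
  have hm : Measurable fun z : ℝ => ENNReal.ofReal ((Real.sqrt (W ^ 2 + s ^ 2 - 2 * W * z))⁻¹) := by
    fun_prop
  rw [lintegral_const_mul _ hm, SpS_inner W s hW hs0]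

private theorem SpS_m_nonneg (W s : ℝ) (hW : 0 ≤ W) (hs : 0 ≤ s) : 0 ≤ SpS_m W s := by
  unfold SpS_m
  split_ifs
  · norm_num
  · have := le_min hs hW
    positivity

private theorem SpS_m_le (W s : ℝ) (hW : 0 ≤ W) : SpS_m W s ≤ 2 := by
  unfold SpS_m
  split_ifs with h
  · exact le_rfl
  · have h1 : 0 < W := lt_of_le_of_ne hW (Ne.symm h)
    rw [div_le_iff₀ h1]
    linarith [min_le_right s W]

private theorem SpS_m_meas (W : ℝ) : Measurable (SpS_m W) := by
  unfold SpS_m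
  by_cases h : W = 0
  · simp only [h, if_true]
    exact measurable_const
  · simp only [h, if_false]
    exact ((measurable_id.min measurable_const).const_mul 2).div_const W

private theorem SpS_real (r W : ℝ) (hr : 0 ≤ r) (hW : 0 ≤ W) :
    ∫⁻ v in sh r (r + 1), ENNReal.ofReal ‖v - W • SpS_e‖⁻¹ =
      ENNReal.ofReal (2 * Real.pi * ∫ s in r..(r + 1), s * SpS_m W s) := by
  rw [SpS_lint r W hW]
  have h1 : ∫⁻ s in Set.Ioi (0 : ℝ), ENNReal.ofReal s * (SpS_G r s * ENNReal.ofReal (SpS_m W s)) =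
      ∫⁻ s in Set.Ioo r (r + 1), ENNReal.ofReal (s * SpS_m W s) := by
    rw [← lintegral_indicator measurableSet_Ioi, ← lintegral_indicator measurableSet_Ioo]
    refine lintegral_congr fun s => ?_
    by_cases hs : s ∈ Set.Ioo r (r + 1)
    · have hs0 : 0 < s := lt_of_le_of_lt hr hs.1
      have hG : SpS_G r s = 1 := if_pos hs
      rw [Set.indicator_of_mem hs, Set.indicator_of_mem (show s ∈ Set.Ioi (0 : ℝ) from hs0), hG,
        one_mul, ENNReal.ofReal_mul hs0.le]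
    · have hG : SpS_G r s = 0 := if_neg hs
      rw [Set.indicator_of_notMem hs]
      by_cases hs0 : s ∈ Set.Ioi (0 : ℝ)
      · rw [Set.indicator_of_mem hs0, hG, zero_mul, mul_zero]
      · rw [Set.indicator_of_notMem hs0]
  have hint : IntegrableOn (fun s : ℝ => s * SpS_m W s) (Set.Ioo r (r + 1)) := by
    apply Measure.integrableOn_of_bounded (M := (r + 1) * 2)
    · simp
    · exact (measurable_id.mul (SpS_m_meas W)).aestronglyMeasurable
    · rw [ae_restrict_iff' measurableSet_Ioo]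
      refine Filter.Eventually.of_forall fun s hs => ?_
      have hs0 : 0 < s := lt_of_le_of_lt hr hs.1
      rw [Real.norm_eq_abs, abs_of_nonneg (mul_nonneg hs0.le (SpS_m_nonneg W s hW hs0.le))]
      exact mul_le_mul hs.2.le (SpS_m_le W s hW) (SpS_m_nonneg W s hW hs0.le) (by linarith)
  have hnn : 0 ≤ᵐ[volume.restrict (Set.Ioo r (r + 1))] fun s : ℝ => s * SpS_m W s := by
    rw [Filter.EventuallyLE, ae_restrict_iff' measurableSet_Ioo]
    refine Filter.Eventually.of_forall fun s hs => ?_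
    have hs0 : 0 < s := lt_of_le_of_lt hr hs.1
    exact mul_nonneg hs0.le (SpS_m_nonneg W s hW hs0.le)
  rw [h1, ← ofReal_integral_eq_lintegral_ofReal hint hnn, ← ENNReal.ofReal_mul (by positivity),
    intervalIntegral.integral_of_le (by linarith), integral_Ioc_eq_integral_Ioo]

private theorem SpS_fin (r : ℝ) (w : E3) :
    ∫⁻ v in sh r (r + 1), ENNReal.ofReal ‖v - w‖⁻¹ ≠ ⊤ := by
  rw [SpS_rot, SpS_lint r _ (norm_nonneg w)]
  apply ENNReal.mul_ne_top ENNReal.ofReal_ne_top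
  have h1 : ∫⁻ s in Set.Ioi (0 : ℝ), ENNReal.ofReal s *
        (SpS_G r s * ENNReal.ofReal (SpS_m ‖w‖ s)) ≤
      ∫⁻ s in Set.Ioo r (r + 1), ENNReal.ofReal ((r + 1) * 2) := by
    rw [← lintegral_indicator measurableSet_Ioi, ← lintegral_indicator measurableSet_Ioo]
    refine lintegral_mono fun s => ?_
    by_cases hs0 : s ∈ Set.Ioi (0 : ℝ)
    · have hs0' : 0 < s := hs0
      rw [Set.indicator_of_mem hs0]
      by_cases hs : s ∈ Set.Ioo r (r + 1)
      · have hG : SpS_G r s = 1 := if_pos hs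
        rw [Set.indicator_of_mem hs, hG, one_mul, ← ENNReal.ofReal_mul hs0'.le]
        apply ENNReal.ofReal_le_ofReal
        exact mul_le_mul hs.2.le (SpS_m_le _ s (norm_nonneg w))
          (SpS_m_nonneg _ s (norm_nonneg w) hs0'.le) (by linarith [hs.2])
      · have hG : SpS_G r s = 0 := if_neg hs
        rw [hG, zero_mul, mul_zero]
        exact bot_le
    · rw [Set.indicator_of_notMem hs0]
      exact bot_le
  apply ne_top_of_le_ne_top _ h1
  rw [setLIntegral_const, Real.volume_Ioo]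
  exact ENNReal.mul_ne_top ENNReal.ofReal_ne_top ENNReal.ofReal_ne_top

private theorem SpS_fmeas (w : E3) : Measurable fun v : E3 => ‖v - w‖⁻¹ :=
  (measurable_id.sub measurable_const).norm.inv

private theorem SpS_val (r : ℝ) (hr : 0 ≤ r) (w : E3) :
    ∫ v in sh r (r + 1), ‖v - w‖⁻¹ = 2 * Real.pi * ∫ s in r..(r + 1), s * SpS_m ‖w‖ s := by
  rw [integral_eq_lintegral_of_nonneg_ae (Filter.Eventually.of_forall fun v =>
    inv_nonneg.mpr (norm_nonneg _)) (SpS_fmeas w).aestronglyMeasurable, SpS_rot,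
    SpS_real r ‖w‖ hr (norm_nonneg w), ENNReal.toReal_ofReal]
  apply mul_nonneg (by positivity)
  apply intervalIntegral.integral_nonneg (by linarith)
  intro s hs
  have hs0 : 0 ≤ s := hr.trans hs.1
  exact mul_nonneg hs0 (SpS_m_nonneg _ s (norm_nonneg w) hs0)

private theorem spf_sq {q n k : ℕ} {Λ : Set E3} {ψ : (Fin n → Fin q) → Cfg n k → ℂ}
    (hψ : Sm q n k Λ ψ) (σ : Fin n → Fin q) :
    Continuous (fun p => ‖ψ σ p‖ ^ 2) ∧ HasCompactSupport (fun p => ‖ψ σ p‖ ^ 2) := by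
  constructor
  · exact (hψ.smooth σ).continuous.norm.pow 2
  · exact (hψ.cpt σ).comp_left (g := fun z : ℂ => ‖z‖ ^ 2) (by simp)

private theorem spf_eta (r : ℝ) : ∃ η : E3 → ℝ, Continuous η ∧ HasCompactSupport η ∧
    ∀ v ∈ sh r (r + 1), η v = 1 := by
  refine ⟨fun v => max 0 (min 1 (r + 2 - ‖v‖)), by fun_prop, ?_, ?_⟩
  · refine HasCompactSupport.intro (isCompact_closedBall (0 : E3) (r + 2)) ?_
    intro v hv
    rw [mem_closedBall_zero_iff, not_le] at hv
    show max 0 (min 1 (r + 2 - ‖v‖)) = 0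
    rw [min_eq_right (by linarith), max_eq_left (by linarith)]
  · intro v hv
    have h1 := hv.2
    show max 0 (min 1 (r + 2 - ‖v‖)) = 1
    rw [min_eq_left (by linarith), max_eq_right zero_le_one]

private theorem spf_meas (r s : ℝ) : MeasurableSet (sh r s) :=
  (measurableSet_lt measurable_const measurable_norm).inter
    (measurableSet_lt measurable_norm measurable_const)

private theorem spf_prod {n k : ℕ} (A : Set E3) :
    (volume : Measure (Cfg n k)).prod ((volume : Measure E3).restrict A) =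
      (volume : Measure (Cfg n k × E3)).restrict (Set.univ ×ˢ A) := by
  have h := Measure.prod_restrict (μ := (volume : Measure (Cfg n k)))
    (ν := (volume : Measure E3)) Set.univ A
  rw [Measure.restrict_univ] at h
  exact h

private theorem spf_term {n k : ℕ} {h : Cfg n k → ℝ} (hc : Continuous h)
    (hs : HasCompactSupport h) (r : ℝ) (K : Cfg n k × E3 → ℝ)
    (hK : ∀ g : Cfg n k × E3 → ℝ, Continuous g → HasCompactSupport g →
      Integrable (fun u => K u * g u)) :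
    Integrable (fun u : Cfg n k × E3 => K u * h u.1)
      ((volume : Measure (Cfg n k)).prod ((volume : Measure E3).restrict (sh r (r + 1)))) := by
  obtain ⟨η, ηc, ηs, η1⟩ := spf_eta r
  have h1 : Integrable (fun u : Cfg n k × E3 => K u * (h u.1 * η u.2)) := by
    apply hK
    · exact (hc.comp continuous_fst).mul (ηc.comp continuous_snd)
    · refine HasCompactSupport.intro (IsCompact.prod hs ηs) ?_
      intro u hu
      by_contra hne
      apply hu
      exact ⟨subset_tsupport _ (left_ne_zero_of_mul hne),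
        subset_tsupport _ (right_ne_zero_of_mul hne)⟩
  rw [spf_prod]
  have h2 := h1.integrableOn (s := Set.univ ×ˢ sh r (r + 1))
  refine h2.congr_fun (fun u hu => ?_) (MeasurableSet.univ.prod (spf_meas _ _))
  show K u * (h u.1 * η u.2) = K u * h u.1
  rw [η1 u.2 hu.2, mul_one]

private theorem spf_gen {q n k : ℕ} {ψ : (Fin n → Fin q) → Cfg n k → ℂ} (A : Set E3)
    (F : Cfg n k → E3 → ℝ)
    (h : ∀ σ, Integrable (fun u : Cfg n k × E3 => F u.1 u.2 * ‖ψ σ u.1‖ ^ 2)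
      ((volume : Measure (Cfg n k)).prod ((volume : Measure E3).restrict A))) :
    IntegrableOn (fun v => mean ψ (fun p => F p v)) A ∧
    ∫ v in A, mean ψ (fun p => F p v) = mean ψ (fun p => ∫ v in A, F p v) ∧
    ∀ σ, Integrable (fun p => (∫ v in A, F p v) * ‖ψ σ p‖ ^ 2) := by
  refine ⟨?_, ?_, ?_⟩
  · unfold mean IntegrableOn
    exact integrable_finsetSum _ fun σ _ => (h σ).integral_prod_right
  · unfold mean
    rw [integral_finsetSum _ fun σ _ => (h σ).integral_prod_right]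
    refine sum_congr rfl fun σ _ => ?_
    have h1 := integral_integral_swap (f := fun (p : Cfg n k) (v : E3) =>
      F p v * ‖ψ σ p‖ ^ 2) (h σ)
    rw [← h1]
    refine integral_congr_ae (Filter.Eventually.of_forall fun p => ?_)
    exact integral_mul_const _ _
  · intro σ
    refine (h σ).integral_prod_left.congr (Filter.Eventually.of_forall fun p => ?_)
    show ∫ v in A, F p v * ‖ψ σ p‖ ^ 2 = (∫ v in A, F p v) * ‖ψ σ p‖ ^ 2
    exact integral_mul_const _ _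

private theorem spf_bdd {n k : ℕ} {h : Cfg n k → ℝ} (hc : Continuous h) (hs : HasCompactSupport h)
    {f : Cfg n k → ℝ} (hf : Measurable f) (C : ℝ) (hC : ∀ p, |f p| ≤ C) :
    Integrable (fun p => f p * h p) := by
  have h1 : Integrable h := hc.integrable_of_hasCompactSupport hs
  exact h1.bdd_mul (c := C) hf.aestronglyMeasurable (Filter.Eventually.of_forall fun p => by
    rw [Real.norm_eq_abs]
    exact hC p)


private theorem SpS_A (r : ℝ) (hr : 0 ≤ r) : sh r (r + 1) =ᵐ[volume] A r := by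
  have h1 : A r ⊆ sh r (r + 1) ∪ Metric.sphere 0 r := by
    intro v hv
    rcases hv.1.lt_or_eq with h | h
    · exact Or.inl ⟨h, hv.2⟩
    · exact Or.inr (by rw [mem_sphere_zero_iff_norm]; exact h.symm)
  have h2 : sh r (r + 1) ⊆ A r := fun v hv => ⟨hv.1.le, hv.2⟩
  have h3 : volume (Metric.sphere (0 : E3) r) = 0 := Measure.addHaar_sphere volume 0 r
  refine Filter.EventuallyLE.antisymm h2.eventuallyLE ?_
  rw [ae_le_set]
  refine measure_mono_null (fun v hv => ?_) h3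
  rcases h1 hv.1 with h | h
  · exact absurd h hv.2
  · exact h

/-- the value of the potential of a shell -/
private theorem SpS_int (r : ℝ) (hr : 0 < r) (y : E3) :
    IntegrableOn (fun v : E3 => ‖v - y‖⁻¹) (A r) ∧
    ∫ v in A r, ‖v - y‖⁻¹ = 4 * Real.pi * ∫ s in r..(r + 1), s ^ 2 / max s ‖y‖ := by
  refine ⟨(integrableOn_congr_set_ae (SpS_A r hr.le)).1 (sh_int r y), ?_⟩
  rw [← setIntegral_congr_set (SpS_A r hr.le), SpS_val r hr.le y]
  have h1 : ∫ s in r..(r + 1), s * SpS_m ‖y‖ s = ∫ s in r..(r + 1), 2 * (s ^ 2 / max s ‖y‖) := by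
    refine intervalIntegral.integral_congr fun s hs => ?_
    rw [Set.uIcc_of_le (by linarith)] at hs
    have hs0 : 0 < s := by linarith [hs.1]
    show s * SpS_m ‖y‖ s = 2 * (s ^ 2 / max s ‖y‖)
    unfold SpS_m
    split_ifs with h0
    · rw [h0, max_eq_left hs0.le]
      field_simp
    · have hy : 0 < ‖y‖ := lt_of_le_of_ne (norm_nonneg y) (Ne.symm h0)
      rcases le_total s ‖y‖ with h | h
      · rw [min_eq_left h, max_eq_right h]
        field_simp
      · rw [min_eq_right h, max_eq_left h]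
        field_simp
  rw [h1, intervalIntegral.integral_const_mul]
  ring

private theorem SpS_ii (r : ℝ) (hr : 0 < r) (W : ℝ) :
    IntervalIntegrable (fun s : ℝ => s ^ 2 / max s W) volume r (r + 1) := by
  refine ContinuousOn.intervalIntegrable fun s hs => ?_
  rw [Set.uIcc_of_le (by linarith)] at hs
  have hs0 : 0 < s := by linarith [hs.1]
  have h1 : max s W ≠ 0 := (lt_of_lt_of_le hs0 (le_max_left _ _)).ne'
  exact ((continuousAt_id.pow 2).div (continuousAt_id.max continuousAt_const) h1).continuousWithinAt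

/-- the volume of the shell -/
private noncomputable def SpS_a (r : ℝ) : ℝ := 4 * Real.pi / 3 * (3 * r ^ 2 + 3 * r + 1)

private theorem SpS_sq (r : ℝ) : ∫ s in r..(r + 1), s ^ 2 = (3 * r ^ 2 + 3 * r + 1) / 3 := by
  rw [integral_pow]
  norm_num
  ring

private theorem SpS_pot (r : ℝ) (hr : 0 < r) (y : E3) :
    (‖y‖ ≤ r → ∫ v in A r, ‖v - y‖⁻¹ = 2 * Real.pi * (2 * r + 1)) ∧
    (r + 1 ≤ ‖y‖ → ∫ v in A r, ‖v - y‖⁻¹ = SpS_a r / ‖y‖) ∧
    (∀ K : ℝ, r + 1 ≤ K → ‖y‖ ≤ K → SpS_a r / K ≤ ∫ v in A r, ‖v - y‖⁻¹) ∧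
    ∫ v in A r, ‖v - y‖⁻¹ ≤ SpS_a r / r := by
  rw [(SpS_int r hr y).2]
  refine ⟨fun h => ?_, fun h => ?_, fun K hK hy => ?_, ?_⟩
  · have h1 : ∫ s in r..(r + 1), s ^ 2 / max s ‖y‖ = ∫ s in r..(r + 1), s := by
      refine intervalIntegral.integral_congr fun s hs => ?_
      rw [Set.uIcc_of_le (by linarith)] at hs
      have hs0 : 0 < s := by linarith [hs.1]
      show s ^ 2 / max s ‖y‖ = s
      rw [max_eq_left (h.trans hs.1)]
      field_simp
    rw [h1, integral_id]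
    ring
  · have hy : 0 < ‖y‖ := by linarith
    have h1 : ∫ s in r..(r + 1), s ^ 2 / max s ‖y‖ = ∫ s in r..(r + 1), s ^ 2 * ‖y‖⁻¹ := by
      refine intervalIntegral.integral_congr fun s hs => ?_
      rw [Set.uIcc_of_le (by linarith)] at hs
      show s ^ 2 / max s ‖y‖ = s ^ 2 * ‖y‖⁻¹
      rw [max_eq_right (hs.2.trans h), div_eq_mul_inv]
    rw [h1, intervalIntegral.integral_mul_const, SpS_sq, SpS_a]
    field_simp
  · have hK0 : 0 < K := by linarith
    have h1 : ∫ s in r..(r + 1), s ^ 2 * K⁻¹ ≤ ∫ s in r..(r + 1), s ^ 2 / max s ‖y‖ := by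
      refine intervalIntegral.integral_mono_on (by linarith)
        (Continuous.intervalIntegrable (by fun_prop) _ _) (SpS_ii r hr _) fun s hs => ?_
      have hs0 : 0 < s := by linarith [hs.1]
      rw [div_eq_mul_inv]
      refine mul_le_mul_of_nonneg_left ?_ (sq_nonneg s)
      exact inv_anti₀ (lt_of_lt_of_le hs0 (le_max_left _ _)) (max_le (hs.2.trans hK) hy)
    rw [intervalIntegral.integral_mul_const, SpS_sq] at h1
    have h2 := mul_le_mul_of_nonneg_left h1 (show (0 : ℝ) ≤ 4 * Real.pi by positivity)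
    refine le_trans (le_of_eq ?_) h2
    rw [SpS_a]
    field_simp
  · have h1 : ∫ s in r..(r + 1), s ^ 2 / max s ‖y‖ ≤ ∫ s in r..(r + 1), s ^ 2 * r⁻¹ := by
      refine intervalIntegral.integral_mono_on (by linarith) (SpS_ii r hr _)
        (Continuous.intervalIntegrable (by fun_prop) _ _) fun s hs => ?_
      have hs0 : 0 < s := by linarith [hs.1]
      rw [div_eq_mul_inv]
      refine mul_le_mul_of_nonneg_left ?_ (sq_nonneg s)
      exact inv_anti₀ hr (hs.1.trans (le_max_left _ _))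
    rw [intervalIntegral.integral_mul_const, SpS_sq] at h1
    have h2 := mul_le_mul_of_nonneg_left h1 (show (0 : ℝ) ≤ 4 * Real.pi by positivity)
    refine h2.trans (le_of_eq ?_)
    rw [SpS_a]
    field_simp

private noncomputable def SpS_b (r : ℝ) : ℝ := 3 / 2 * (2 * r + 1) / (3 * r ^ 2 + 3 * r + 1)

private noncomputable def SpS_al (t : ℝ) : ℝ :=
  (1 / t - SpS_b (t + 1)) / (SpS_b t - SpS_b (t + 1))

private theorem SpS_num (t : ℝ) (ht : 1 ≤ t) :
    (SpS_b t - SpS_b (t + 1)) ≠ 0 ∧ 0 ≤ SpS_al t ∧ SpS_al t ≤ 30 := by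
  have ht0 : 0 < t := by linarith
  have hd0 : 0 < 3 * t ^ 2 + 3 * t + 1 := by positivity
  have hd1 : 0 < 3 * (t + 1) ^ 2 + 3 * (t + 1) + 1 := by positivity
  have h1 : 1 / (15 * t ^ 2) ≤ SpS_b t - SpS_b (t + 1) := by
    unfold SpS_b
    rw [div_sub_div _ _ hd0.ne' hd1.ne', div_le_div_iff₀ (by positivity) (by positivity)]
    have h2 : 0 ≤ t - 1 := by linarith
    nlinarith [pow_nonneg h2 2, pow_nonneg h2 3, pow_nonneg h2 4, mul_nonneg ht0.le h2,
      pow_pos ht0 2, pow_pos ht0 3, pow_pos ht0 4, mul_nonneg (pow_pos ht0 3).le h2,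
      mul_nonneg (pow_pos ht0 2).le h2]
  have h2 : 0 < SpS_b t - SpS_b (t + 1) := lt_of_lt_of_le (by positivity) h1
  have h3 : 0 ≤ 1 / t - SpS_b (t + 1) := by
    unfold SpS_b
    rw [sub_nonneg, div_le_div_iff₀ hd1 ht0]
    nlinarith
  have h4 : 1 / t - SpS_b (t + 1) ≤ 2 / t ^ 2 := by
    have h5 : 1 / t - 2 / t ^ 2 ≤ SpS_b (t + 1) := by
      unfold SpS_b
      have e : 1 / t - 2 / t ^ 2 = (t - 2) / t ^ 2 := by field_simp
      rw [e, div_le_div_iff₀ (by positivity) hd1]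
      nlinarith [pow_pos ht0 2, pow_pos ht0 3]
    linarith
  refine ⟨h2.ne', div_nonneg h3 h2.le, ?_⟩
  unfold SpS_al
  rw [div_le_iff₀ h2]
  calc 1 / t - SpS_b (t + 1) ≤ 2 / t ^ 2 := h4
    _ = 30 * (1 / (15 * t ^ 2)) := by field_simp; norm_num
    _ ≤ 30 * (SpS_b t - SpS_b (t + 1)) := mul_le_mul_of_nonneg_left h1 (by norm_num)

private theorem SpS_a_pos (t : ℝ) (ht : 0 ≤ t) : 12 * t ^ 2 ≤ SpS_a t ∧ 0 < SpS_a t := by
  unfold SpS_a
  have h1 := Real.pi_gt_three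
  constructor
  · have h2 : 0 ≤ (4 * Real.pi / 3 - 4) * (3 * t ^ 2 + 3 * t + 1) := by
      apply mul_nonneg (by linarith) (by positivity)
    nlinarith
  · positivity

/-- the remainder -/
private noncomputable def SpS_R (t : ℝ) (y : E3) : ℝ :=
  (max t ‖y‖)⁻¹ - SpS_al t / SpS_a t * (∫ v in A t, ‖v - y‖⁻¹) -
    (1 - SpS_al t) / SpS_a (t + 1) * ∫ v in A (t + 1), ‖v - y‖⁻¹

private theorem SpS_Rb (t : ℝ) (ht : 1 ≤ t) (y : E3) :
    |SpS_R t y| ≤ 120 * (t ^ 2)⁻¹ * (if t ≤ ‖y‖ ∧ ‖y‖ ≤ t + 2 then 1 else 0) := by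
  have ht0 : 0 < t := by linarith
  obtain ⟨hb, ha0, ha1⟩ := SpS_num t ht
  have hA0 := (SpS_a_pos t ht0.le).2
  have hA1 := (SpS_a_pos (t + 1) (by linarith)).2
  obtain ⟨p1, p2, p3, p4⟩ := SpS_pot t ht0 y
  obtain ⟨q1, q2, q3, q4⟩ := SpS_pot (t + 1) (by linarith) y
  have hb0 : 2 * Real.pi * (2 * t + 1) = SpS_a t * SpS_b t := by
    unfold SpS_a SpS_b
    have : 3 * t ^ 2 + 3 * t + 1 ≠ 0 := by positivity
    field_simp
    ring
  have hb1 : 2 * Real.pi * (2 * (t + 1) + 1) = SpS_a (t + 1) * SpS_b (t + 1) := by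
    unfold SpS_a SpS_b
    have : 3 * (t + 1) ^ 2 + 3 * (t + 1) + 1 ≠ 0 := by positivity
    field_simp
    ring
  by_cases hin : t ≤ ‖y‖ ∧ ‖y‖ ≤ t + 2
  · rw [if_pos hin, mul_one]
    obtain ⟨x, hx⟩ : ∃ x, x = (max t ‖y‖)⁻¹ := ⟨_, rfl⟩
    obtain ⟨g0, hg0⟩ : ∃ g0, g0 = (∫ v in A t, ‖v - y‖⁻¹) / SpS_a t := ⟨_, rfl⟩
    obtain ⟨g1, hg1⟩ : ∃ g1, g1 = (∫ v in A (t + 1), ‖v - y‖⁻¹) / SpS_a (t + 1) := ⟨_, rfl⟩
    have hR : SpS_R t y = SpS_al t * (x - g0) + (1 - SpS_al t) * (x - g1) := by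
      unfold SpS_R
      rw [hg0, hg1, hx]
      ring
    have hy0 : 0 < ‖y‖ := by linarith [hin.1]
    have x1 : x ≤ 1 / t := by
      rw [hx, one_div]
      exact inv_anti₀ ht0 (le_max_left _ _)
    have x0 : 1 / (t + 2) ≤ x := by
      rw [hx, one_div]
      exact inv_anti₀ (lt_of_lt_of_le ht0 (le_max_left _ _)) (max_le (by linarith) hin.2)
    have g01 : g0 ≤ 1 / t := by
      rw [hg0, div_le_iff₀ hA0]
      refine p4.trans (le_of_eq ?_)
      ring
    have g00 : 1 / (t + 2) ≤ g0 := by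
      rw [hg0, le_div_iff₀ hA0]
      refine le_trans (le_of_eq ?_) (p3 (t + 2) (by linarith) hin.2)
      ring
    have g11 : g1 ≤ 1 / t := by
      rw [hg1, div_le_iff₀ hA1]
      refine q4.trans ?_
      have : SpS_a (t + 1) / (t + 1) ≤ SpS_a (t + 1) / t :=
        div_le_div_of_nonneg_left hA1.le ht0 (by linarith)
      refine this.trans (le_of_eq ?_)
      ring
    have g10 : 1 / (t + 2) ≤ g1 := by
      rw [hg1, le_div_iff₀ hA1]
      refine le_trans (le_of_eq ?_) (q3 (t + 2) (by linarith) hin.2)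
      ring
    obtain ⟨d, hd⟩ : ∃ d : ℝ, d = 1 / t - 1 / (t + 2) := ⟨_, rfl⟩
    have hd1 : d ≤ 2 * (t ^ 2)⁻¹ := by
      have e : d = 2 / (t * (t + 2)) := by
        rw [hd]
        field_simp
        ring
      rw [e, ← div_eq_mul_inv]
      exact div_le_div_of_nonneg_left (by norm_num) (by positivity) (by nlinarith)
    have h1 : |x - g0| ≤ d := by
      rw [abs_le]
      constructor <;> linarith
    have h2 : |x - g1| ≤ d := by
      rw [abs_le]
      constructor <;> linarith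
    have hd0 : 0 ≤ d := (abs_nonneg _).trans h1
    have h3 : |1 - SpS_al t| ≤ 30 := by
      rw [abs_le]
      constructor <;> linarith
    have h4 : |SpS_al t| ≤ 30 := by
      rw [abs_of_nonneg ha0]
      exact ha1
    rw [hR]
    calc |SpS_al t * (x - g0) + (1 - SpS_al t) * (x - g1)|
        ≤ |SpS_al t * (x - g0)| + |(1 - SpS_al t) * (x - g1)| := abs_add_le _ _
      _ = |SpS_al t| * |x - g0| + |1 - SpS_al t| * |x - g1| := by rw [abs_mul, abs_mul]
      _ ≤ 30 * d + 30 * d := add_le_add (mul_le_mul h4 h1 (abs_nonneg _) (by norm_num))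
          (mul_le_mul h3 h2 (abs_nonneg _) (by norm_num))
      _ ≤ 120 * (t ^ 2)⁻¹ := by linarith
  · rw [if_neg hin, mul_zero]
    have hR : SpS_R t y = 0 := by
      unfold SpS_R
      rcases lt_or_ge ‖y‖ t with h | h
      · rw [p1 h.le, q1 (by linarith), hb0, hb1, max_eq_left h.le]
        have e1 : SpS_al t / SpS_a t * (SpS_a t * SpS_b t) = SpS_al t * SpS_b t := by
          field_simp
        have e2 : (1 - SpS_al t) / SpS_a (t + 1) * (SpS_a (t + 1) * SpS_b (t + 1)) =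
            (1 - SpS_al t) * SpS_b (t + 1) := by
          field_simp
        rw [e1, e2]
        have e3 : SpS_al t * (SpS_b t - SpS_b (t + 1)) = 1 / t - SpS_b (t + 1) := by
          unfold SpS_al
          exact div_mul_cancel₀ _ hb
        rw [inv_eq_one_div]
        linarith
      · have h' : t + 2 < ‖y‖ := by
          by_contra hle
          exact hin ⟨h, not_lt.1 hle⟩
        have hy0 : 0 < ‖y‖ := by linarith
        rw [p2 (by linarith), q2 (by linarith), max_eq_right h]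
        have e1 : SpS_al t / SpS_a t * (SpS_a t / ‖y‖) = SpS_al t / ‖y‖ := by
          field_simp
        have e2 : (1 - SpS_al t) / SpS_a (t + 1) * (SpS_a (t + 1) / ‖y‖) =
            (1 - SpS_al t) / ‖y‖ := by
          field_simp
        rw [e1, e2, inv_eq_one_div]
        ring
    rw [hR, abs_zero]

/-- sums over the particles -/
private theorem SpS_lin {n k : ℕ} {zp : ℝ} {z : Fin k → ℝ} (hz : ∀ j, 0 ≤ z j ∧ z j ≤ zp)
    (g w : E3 → ℝ) (c : ℝ) (hc : 0 ≤ c) (hw : ∀ y, 0 ≤ w y) (p : Cfg n k)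
    (h1 : ∀ a, |g (p.1 a)| ≤ c * w (p.1 a)) (h2 : ∀ j, |g (p.2 j)| ≤ c * w (p.2 j)) :
    |∑ j, z j * g (p.2 j) - ∑ a, g (p.1 a)| ≤
      (1 + |zp|) * c * (∑ a, w (p.1 a) + ∑ j, w (p.2 j)) := by
  have e1 : |∑ a, g (p.1 a)| ≤ c * ∑ a, w (p.1 a) := by
    refine (abs_sum_le_sum_abs _ _).trans ?_
    rw [mul_sum]
    exact sum_le_sum fun a _ => h1 a
  have e2 : |∑ j, z j * g (p.2 j)| ≤ |zp| * (c * ∑ j, w (p.2 j)) := by
    refine (abs_sum_le_sum_abs _ _).trans ?_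
    rw [mul_sum, mul_sum]
    refine sum_le_sum fun j _ => ?_
    rw [abs_mul]
    refine mul_le_mul ?_ (h2 j) (abs_nonneg _) (abs_nonneg _)
    rw [abs_of_nonneg (hz j).1]
    exact (hz j).2.trans (le_abs_self _)
  have e3 : 0 ≤ |zp| * (c * ∑ a, w (p.1 a)) :=
    mul_nonneg (abs_nonneg _) (mul_nonneg hc (sum_nonneg fun a _ => hw _))
  have e4 : 0 ≤ c * ∑ j, w (p.2 j) := mul_nonneg hc (sum_nonneg fun a _ => hw _)
  refine (abs_sub _ _).trans ?_
  have e5 : (1 + |zp|) * c * (∑ a, w (p.1 a) + ∑ j, w (p.2 j)) =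
      c * ∑ a, w (p.1 a) + c * ∑ j, w (p.2 j) + |zp| * (c * ∑ a, w (p.1 a)) +
        |zp| * (c * ∑ j, w (p.2 j)) := by ring
  rw [e5]
  linarith

private theorem SpS_F {q n k : ℕ} {Λ : Set E3} {ψ : (Fin n → Fin q) → Cfg n k → ℂ}
    (hψ : Sm q n k Λ ψ) (z : Fin k → ℝ) (r : ℝ) (hr : 0 ≤ r) :
    IntegrableOn (fun v => mean ψ (fun p => phi z p v)) (A r) ∧
    ∫ v in A r, mean ψ (fun p => phi z p v) = mean ψ (fun p => ∫ v in A r, phi z p v) ∧
    IM ψ (fun p => ∫ v in A r, phi z p v) := by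
  have h0 : IntegrableOn (fun v => mean ψ (fun p => phi z p v)) (sh r (r + 1)) ∧
      ∫ v in sh r (r + 1), mean ψ (fun p => phi z p v) =
        mean ψ (fun p => ∫ v in sh r (r + 1), phi z p v) ∧
      ∀ σ, Integrable (fun p => (∫ v in sh r (r + 1), phi z p v) * ‖ψ σ p‖ ^ 2) := by
    apply spf_gen (sh r (r + 1)) (phi z)
    intro σ
    obtain ⟨hc, hs⟩ := spf_sq hψ σ
    have h1 : Integrable (fun u : Cfg n k × E3 =>
        ∑ j, z j * (‖u.2 - u.1.2 j‖⁻¹ * ‖ψ σ u.1‖ ^ 2) -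
          ∑ a, ‖u.2 - u.1.1 a‖⁻¹ * ‖ψ σ u.1‖ ^ 2)
        ((volume : Measure (Cfg n k)).prod
          ((volume : Measure E3).restrict (sh r (r + 1)))) := by
      refine Integrable.sub ?_ ?_
      · exact integrable_finsetSum _ fun j _ => (spf_term hc hs r
          (fun u => ‖u.2 - u.1.2 j‖⁻¹) fun g gc gs => int_pn g gc gs j).const_mul _
      · exact integrable_finsetSum _ fun a _ => spf_term hc hs r
          (fun u => ‖u.2 - u.1.1 a‖⁻¹) fun g gc gs => int_pe g gc gs a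
    refine h1.congr (Filter.Eventually.of_forall fun u => ?_)
    simp only [phi]
    rw [sub_mul, sum_mul, sum_mul]
    congr 1
    exact sum_congr rfl fun j _ => by ring
  have e : ∀ g : E3 → ℝ, ∫ v in sh r (r + 1), g v = ∫ v in A r, g v := fun g =>
    setIntegral_congr_set (SpS_A r hr)
  simp only [e] at h0
  exact ⟨(integrableOn_congr_set_ae (SpS_A r hr)).1 h0.1, h0.2.1, h0.2.2⟩

private theorem SpS_phi {n k : ℕ} (z : Fin k → ℝ) (p : Cfg n k) (r : ℝ) (hr : 0 < r) :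
    ∫ v in A r, phi z p v = ∑ j, z j * (∫ v in A r, ‖v - p.2 j‖⁻¹) -
      ∑ a, ∫ v in A r, ‖v - p.1 a‖⁻¹ := by
  unfold phi
  rw [integral_sub (integrable_finsetSum _ fun j _ => (SpS_int r hr (p.2 j)).1.const_mul _)
    (integrable_finsetSum _ fun a _ => (SpS_int r hr (p.1 a)).1),
    integral_finsetSum _ fun j _ => (SpS_int r hr (p.2 j)).1.const_mul _,
    integral_finsetSum _ fun a _ => (SpS_int r hr (p.1 a)).1]
  congr 1
  exact sum_congr rfl fun j _ => integral_const_mul _ _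

private noncomputable def SpS_f {n k : ℕ} (z : Fin k → ℝ) (t : ℝ) (p : Cfg n k) : ℝ :=
  ∑ j, z j * (max t ‖p.2 j‖)⁻¹ - ∑ a, (max t ‖p.1 a‖)⁻¹

private theorem SpS_fI {q n k : ℕ} {Λ : Set E3} {ψ : (Fin n → Fin q) → Cfg n k → ℂ}
    (hψ : Sm q n k Λ ψ) (z : Fin k → ℝ) (t : ℝ) (ht : 0 < t) : IM ψ (SpS_f z t) := by
  have hc : ∀ L : Cfg n k → E3, Continuous L → Continuous fun p => (max t ‖L p‖)⁻¹ := by
    intro L hL
    exact (continuous_const.max hL.norm).inv₀ fun p => (lt_of_lt_of_le ht (le_max_left _ _)).ne'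
  refine IM.cont hψ ?_
  unfold SpS_f
  refine Continuous.sub (continuous_finsetSum _ fun j _ => continuous_const.mul (hc _ ?_))
    (continuous_finsetSum _ fun a _ => hc _ ?_)
  · exact (continuous_apply j).comp continuous_snd
  · exact (continuous_apply a).comp continuous_fst

private theorem SpS_ind2 {q n k : ℕ} {Λ : Set E3} {ψ : (Fin n → Fin q) → Cfg n k → ℂ}
    (hψ : Sm q n k Λ ψ) (S : Set ℝ) (hS : MeasurableSet S) [DecidablePred (· ∈ S)] :
    IM ψ (fun p => ∑ a, (if ‖p.1 a‖ ∈ S then (1 : ℝ) else 0) +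
      ∑ j, (if ‖p.2 j‖ ∈ S then (1 : ℝ) else 0)) := by
  have hm : ∀ L : Cfg n k → E3, Measurable L → IM ψ fun p => if ‖L p‖ ∈ S then (1 : ℝ) else 0 := by
    intro L hL
    refine IM.bdd hψ (Measurable.ite (hL.norm hS) measurable_const measurable_const) 1 fun p => ?_
    split_ifs <;> simp
  exact (IM.sum _ fun a _ => hm _ (meas_e a)).add (IM.sum _ fun j _ => hm _ (meas_n j))

theorem sph (zp : ℝ) : ∃ C : ℝ, 0 ≤ C ∧ ∀ (ι : Type) (_ : Fintype ι) (q n k : ℕ)
    (Λ : Set E3) (z : Fin k → ℝ) (_ : ∀ j, 0 ≤ z j ∧ z j ≤ zp)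
    (Ψ : ι → (Fin n → Fin q) → Cfg n k → ℂ) (_ : ∀ i, Sm q n k Λ (Ψ i)) (t : ℝ) (_ : 1 ≤ t),
    |Ph z Ψ t| ≤ C * (t ^ 2)⁻¹ * (|∫ v in A t, mM Ψ (fun p => phi z p v)| +
      |∫ v in A (t + 1), mM Ψ (fun p => phi z p v)| +
      mM Ψ (fun p => cS t p)) := by
  refine ⟨120 * (1 + |zp|), by positivity, fun ι _ q n k Λ z hz Ψ hΨ t ht => ?_⟩
  have ht0 : 0 < t := by linarith
  obtain ⟨-, ha0, ha1⟩ := SpS_num t ht
  obtain ⟨a1, a2⟩ := SpS_a_pos t ht0.le
  obtain ⟨b1, b2⟩ := SpS_a_pos (t + 1) (by linarith)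
  obtain ⟨α, hα⟩ : ∃ α, α = SpS_al t / SpS_a t := ⟨_, rfl⟩
  obtain ⟨β, hβ⟩ : ∃ β, β = (1 - SpS_al t) / SpS_a (t + 1) := ⟨_, rfl⟩
  have hti : 0 < (t ^ 2)⁻¹ := by positivity
  have hα1 : |α| ≤ 120 * (t ^ 2)⁻¹ := by
    rw [hα, abs_div, abs_of_nonneg ha0, abs_of_pos a2, div_le_iff₀ a2]
    have h1 : 30 ≤ 120 * (t ^ 2)⁻¹ * (12 * t ^ 2) := by
      have : (t ^ 2)⁻¹ * t ^ 2 = 1 := inv_mul_cancel₀ (by positivity)
      nlinarith
    exact ha1.trans (h1.trans (mul_le_mul_of_nonneg_left a1 (by positivity)))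
  have hβ1 : |β| ≤ 120 * (t ^ 2)⁻¹ := by
    have h3 : |1 - SpS_al t| ≤ 30 := by
      rw [abs_le]
      constructor <;> linarith
    rw [hβ, abs_div, abs_of_pos b2, div_le_iff₀ b2]
    have h1 : 30 ≤ 120 * (t ^ 2)⁻¹ * (12 * t ^ 2) := by
      have : (t ^ 2)⁻¹ * t ^ 2 = 1 := inv_mul_cancel₀ (by positivity)
      nlinarith
    have h2 : 12 * t ^ 2 ≤ SpS_a (t + 1) := le_trans (by nlinarith) b1
    exact h3.trans (h1.trans (mul_le_mul_of_nonneg_left h2 (by positivity)))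
  -- the pointwise bound
  have hpt : ∀ p : Cfg n k, |SpS_f z t p - α * (∫ v in A t, phi z p v) -
      β * ∫ v in A (t + 1), phi z p v| ≤ (1 + |zp|) * (120 * (t ^ 2)⁻¹) * cS t p := by
    intro p
    have e : SpS_f z t p - α * (∫ v in A t, phi z p v) - β * ∫ v in A (t + 1), phi z p v =
        ∑ j, z j * SpS_R t (p.2 j) - ∑ a, SpS_R t (p.1 a) := by
      rw [SpS_phi z p t ht0, SpS_phi z p (t + 1) (by linarith), hα, hβ]
      unfold SpS_f SpS_R
      simp only [mul_sub, sum_sub_distrib, mul_sum]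
      have e1 : ∀ (c : ℝ) (G : Fin k → ℝ), ∑ j, c * (z j * G j) = ∑ j, z j * (c * G j) :=
        fun c G => sum_congr rfl fun j _ => by ring
      rw [e1, e1]
      ring
    rw [e]
    unfold cS
    exact SpS_lin hz (SpS_R t) (fun y => if t ≤ ‖y‖ ∧ ‖y‖ ≤ t + 2 then 1 else 0)
      (120 * (t ^ 2)⁻¹) (by positivity) (fun y => by split_ifs <;> norm_num) p
      (fun a => SpS_Rb t ht _) (fun j => SpS_Rb t ht _)
  have hcI : ∀ i, IM (Ψ i) (fun p => cS t p) := by
    intro i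
    have := SpS_ind2 (hΨ i) (Set.Icc t (t + 2)) measurableSet_Icc
    exact this
  have hI0 := fun i => SpS_F (hΨ i) z t ht0.le
  have hI1 := fun i => SpS_F (hΨ i) z (t + 1) (by linarith)
  have hm : ∀ i, |mean (Ψ i) (SpS_f z t) - α * (∫ v in A t, mean (Ψ i) (fun p => phi z p v)) -
      β * ∫ v in A (t + 1), mean (Ψ i) (fun p => phi z p v)| ≤
        (1 + |zp|) * (120 * (t ^ 2)⁻¹) * mean (Ψ i) (fun p => cS t p) := by
    intro i
    have hfI := SpS_fI (hΨ i) z t ht0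
    have hD := (hfI.sub ((hI0 i).2.2.cmul α)).sub ((hI1 i).2.2.cmul β)
    have e : mean (Ψ i) (SpS_f z t) - α * (∫ v in A t, mean (Ψ i) (fun p => phi z p v)) -
        β * ∫ v in A (t + 1), mean (Ψ i) (fun p => phi z p v) =
        mean (Ψ i) (fun p => SpS_f z t p - α * (∫ v in A t, phi z p v) -
          β * ∫ v in A (t + 1), phi z p v) := by
      rw [mean_sub (hfI.sub ((hI0 i).2.2.cmul α)) ((hI1 i).2.2.cmul β),
        mean_sub hfI ((hI0 i).2.2.cmul α), mean_cmul, mean_cmul, (hI0 i).2.1, (hI1 i).2.1]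
    rw [e, ← mean_cmul, abs_le]
    constructor
    · rw [← mean_neg]
      exact mean_mono ((hcI i).cmul _).neg hD fun _ p _ => (abs_le.1 (hpt p)).1
    · exact mean_mono hD ((hcI i).cmul _) fun _ p _ => (abs_le.1 (hpt p)).2
  have hs : |Ph z Ψ t - α * (∫ v in A t, mM Ψ (fun p => phi z p v)) -
      β * ∫ v in A (t + 1), mM Ψ (fun p => phi z p v)| ≤
        (1 + |zp|) * (120 * (t ^ 2)⁻¹) * mM Ψ (fun p => cS t p) := by
    have e : Ph z Ψ t - α * (∫ v in A t, mM Ψ (fun p => phi z p v)) -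
        β * ∫ v in A (t + 1), mM Ψ (fun p => phi z p v) =
        ∑ i, (mean (Ψ i) (SpS_f z t) - α * (∫ v in A t, mean (Ψ i) (fun p => phi z p v)) -
          β * ∫ v in A (t + 1), mean (Ψ i) (fun p => phi z p v)) := by
      unfold Ph mM
      rw [integral_finsetSum _ fun i _ => (hI0 i).1, integral_finsetSum _ fun i _ => (hI1 i).1,
        sum_sub_distrib, sum_sub_distrib, mul_sum, mul_sum]
      rfl
    rw [e]
    unfold mM
    rw [mul_sum]
    exact (abs_sum_le_sum_abs _ _).trans (sum_le_sum fun i _ => hm i)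
  obtain ⟨X, hX⟩ : ∃ X, X = ∫ v in A t, mM Ψ (fun p => phi z p v) := ⟨_, rfl⟩
  obtain ⟨Y, hY⟩ : ∃ Y, Y = ∫ v in A (t + 1), mM Ψ (fun p => phi z p v) := ⟨_, rfl⟩
  rw [← hX, ← hY] at hs ⊢
  have h1 : |α * X| ≤ 120 * (t ^ 2)⁻¹ * |X| := by
    rw [abs_mul]
    exact mul_le_mul_of_nonneg_right hα1 (abs_nonneg _)
  have h2 : |β * Y| ≤ 120 * (t ^ 2)⁻¹ * |Y| := by
    rw [abs_mul]
    exact mul_le_mul_of_nonneg_right hβ1 (abs_nonneg _)
  have h3 : |Ph z Ψ t| ≤ |Ph z Ψ t - α * X - β * Y| + |α * X| + |β * Y| := by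
    have e : Ph z Ψ t = (Ph z Ψ t - α * X - β * Y) + α * X + β * Y := by ring
    calc |Ph z Ψ t| = |(Ph z Ψ t - α * X - β * Y) + α * X + β * Y| := by rw [← e]
      _ ≤ _ := abs_add_three _ _ _
  have h4 : 0 ≤ 120 * |zp| * (t ^ 2)⁻¹ * |X| := by positivity
  have h5 : 0 ≤ 120 * |zp| * (t ^ 2)⁻¹ * |Y| := by positivity
  have e6 : 120 * (1 + |zp|) * (t ^ 2)⁻¹ * (|X| + |Y| + mM Ψ (fun p => cS t p)) =
      120 * (t ^ 2)⁻¹ * |X| + 120 * |zp| * (t ^ 2)⁻¹ * |X| + 120 * (t ^ 2)⁻¹ * |Y| +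
        120 * |zp| * (t ^ 2)⁻¹ * |Y| +
        (1 + |zp|) * (120 * (t ^ 2)⁻¹) * mM Ψ (fun p => cS t p) := by ring
  rw [e6]
  linarith

private theorem SpS_ne {n k : ℕ} : ∀ᵐ p : Cfg n k, (∀ a, p.1 a ≠ 0) ∧ ∀ j, p.2 j ≠ 0 := by
  have h1 : ∀ a : Fin n, ∀ᵐ p : Cfg n k, p.1 a ≠ 0 := by
    intro a
    have h2 : (volume : Measure (Fin n → E3)) {f | f a = 0} = 0 :=
      Measure.pi_hyperplane (fun _ : Fin n => (volume : Measure E3)) a 0
    have h3 := (Measure.quasiMeasurePreserving_fst (μ := (volume : Measure (Fin n → E3)))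
      (ν := (volume : Measure (Fin k → E3)))).preimage_null h2
    rw [ae_iff]
    simp only [not_not]
    exact h3
  have h1' : ∀ j : Fin k, ∀ᵐ p : Cfg n k, p.2 j ≠ 0 := by
    intro j
    have h2 : (volume : Measure (Fin k → E3)) {f | f j = 0} = 0 :=
      Measure.pi_hyperplane (fun _ : Fin k => (volume : Measure E3)) j 0
    have h3 := (Measure.quasiMeasurePreserving_snd (μ := (volume : Measure (Fin n → E3)))
      (ν := (volume : Measure (Fin k → E3)))).preimage_null h2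
    rw [ae_iff]
    simp only [not_not]
    exact h3
  exact (ae_all_iff.2 h1).and (ae_all_iff.2 h1')

private theorem SpS_mono {q n k : ℕ} {ψ : (Fin n → Fin q) → Cfg n k → ℂ} {F G : Cfg n k → ℝ}
    (hF : IM ψ F) (hG : IM ψ G) (h : ∀ᵐ p, F p ≤ G p) : mean ψ F ≤ mean ψ G := by
  unfold mean
  refine sum_le_sum fun σ _ => integral_mono_ae (hF σ) (hG σ) ?_
  filter_upwards [h] with p hp
  exact mul_le_mul_of_nonneg_right hp (sq_nonneg _)

private theorem SpS_near {q n k : ℕ} {Λ : Set E3} {ψ : (Fin n → Fin q) → Cfg n k → ℂ}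
    (hψ : Sm q n k Λ ψ) : IM ψ (fun p => near p 0) := by
  unfold near
  have hm : ∀ L : Cfg n k → E3, Measurable L →
      Measurable (fun p : Cfg n k => if ‖(0 : E3) - L p‖ < 2 then ‖(0 : E3) - L p‖⁻¹ else 0) := by
    intro L hL
    exact Measurable.ite (measurableSet_lt (measurable_const.sub hL).norm measurable_const)
      (measurable_const.sub hL).norm.inv measurable_const
  refine IM.add (IM.sum _ fun a _ => ?_) (IM.sum _ fun j _ => ?_)
  · refine IM.dom (hm _ (meas_e a)) (IM_we hψ 0 a) hψ fun p => ?_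
    split_ifs
    · rw [abs_of_nonneg (by positivity)]
    · rw [abs_zero]
      positivity
  · refine IM.dom (hm _ (meas_n j)) (IM_wn hψ 0 j) hψ fun p => ?_
    split_ifs
    · rw [abs_of_nonneg (by positivity)]
    · rw [abs_zero]
      positivity

theorem sph_in (zp : ℝ) {ι : Type} [Fintype ι] {q n k : ℕ} {Λ : Set E3} (z : Fin k → ℝ)
    (hz : ∀ j, 0 ≤ z j ∧ z j ≤ zp) {Ψ : ι → (Fin n → Fin q) → Cfg n k → ℂ}
    (hΨ : ∀ i, Sm q n k Λ (Ψ i)) (t : ℝ) (ht : 0 < t) (ht1 : t ≤ 1) :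
    |Ph z Ψ t - Ph z Ψ 1| ≤ (1 + |zp|) * mM Ψ (fun p => near p 0) := by
  have hpt : ∀ᵐ p : Cfg n k, |SpS_f z t p - SpS_f z 1 p| ≤ (1 + |zp|) * near p 0 := by
    filter_upwards [SpS_ne] with p hp
    have e : SpS_f z t p - SpS_f z 1 p =
        ∑ j, z j * ((max t ‖p.2 j‖)⁻¹ - (max 1 ‖p.2 j‖)⁻¹) -
          ∑ a, ((max t ‖p.1 a‖)⁻¹ - (max 1 ‖p.1 a‖)⁻¹) := by
      unfold SpS_f
      simp only [mul_sub, sum_sub_distrib]
      ring
    have hb : ∀ y : E3, y ≠ 0 → |(max t ‖y‖)⁻¹ - (max 1 ‖y‖)⁻¹| ≤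
        1 * (if ‖(0 : E3) - y‖ < 2 then ‖(0 : E3) - y‖⁻¹ else 0) := by
      intro y hy
      have hy0 : 0 < ‖y‖ := norm_pos_iff.2 hy
      rw [zero_sub, norm_neg, one_mul]
      rcases le_or_gt 1 ‖y‖ with h | h
      · rw [max_eq_right h, max_eq_right (ht1.trans h), sub_self, abs_zero]
        split_ifs
        · positivity
        · exact le_rfl
      · rw [if_pos (by linarith), max_eq_left h.le]
        have h1 : (max t ‖y‖)⁻¹ ≤ ‖y‖⁻¹ := inv_anti₀ hy0 (le_max_right _ _)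
        have h2 : (1 : ℝ)⁻¹ ≤ (max t ‖y‖)⁻¹ :=
          inv_anti₀ (lt_of_lt_of_le ht (le_max_left _ _)) (max_le ht1 h.le)
        rw [inv_one] at h2 ⊢
        rw [abs_of_nonneg (by linarith)]
        linarith
    rw [e]
    have h := SpS_lin hz (fun y => (max t ‖y‖)⁻¹ - (max 1 ‖y‖)⁻¹)
      (fun y => if ‖(0 : E3) - y‖ < 2 then ‖(0 : E3) - y‖⁻¹ else 0) 1 zero_le_one
      (fun y => by split_ifs <;> positivity) p (fun a => hb _ (hp.1 a)) (fun j => hb _ (hp.2 j))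
    rw [mul_one] at h
    exact h
  have hm : ∀ i, |mean (Ψ i) (SpS_f z t) - mean (Ψ i) (SpS_f z 1)| ≤
      (1 + |zp|) * mean (Ψ i) (fun p => near p 0) := by
    intro i
    have h1 := SpS_fI (hΨ i) z t ht
    have h2 := SpS_fI (hΨ i) z 1 one_pos
    have h3 := (SpS_near (hΨ i)).cmul (1 + |zp|)
    rw [← mean_sub h1 h2, ← mean_cmul, abs_le]
    constructor
    · rw [← mean_neg]
      refine SpS_mono h3.neg (h1.sub h2) ?_
      filter_upwards [hpt] with p hp
      exact (abs_le.1 hp).1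
    · refine SpS_mono (h1.sub h2) h3 ?_
      filter_upwards [hpt] with p hp
      exact (abs_le.1 hp).2
  have e : Ph z Ψ t - Ph z Ψ 1 = ∑ i, (mean (Ψ i) (SpS_f z t) - mean (Ψ i) (SpS_f z 1)) := by
    rw [sum_sub_distrib]
    rfl
  rw [e]
  unfold mM
  rw [mul_sum]
  exact (abs_sum_le_sum_abs _ _).trans (sum_le_sum fun i _ => hm i)

theorem sph_out (zp : ℝ) {ι : Type} [Fintype ι] {q n k : ℕ} {R : ℝ} (z : Fin k → ℝ)
    (hz : ∀ j, 0 ≤ z j ∧ z j ≤ zp) (hn : ∑ j, z j = n)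
    {Ψ : ι → (Fin n → Fin q) → Cfg n k → ℂ}
    (hΨ : ∀ i, Sm q n k (Metric.ball 0 R) (Ψ i)) (t : ℝ) (ht : 0 < t) :
    |Ph z Ψ t| ≤ (1 + |zp|) * (max (R - t) 0 * (t ^ 2)⁻¹) * mM Ψ (fun p => shl t p) := by
  obtain ⟨c, hc⟩ : ∃ c, c = max (R - t) 0 * (t ^ 2)⁻¹ := ⟨_, rfl⟩
  have hc0 : 0 ≤ c := by rw [hc]; positivity
  have hm : ∀ i, |mean (Ψ i) (SpS_f z t)| ≤
      (1 + |zp|) * c * mean (Ψ i) (fun p => shl t p) := by
    intro i
    have hb : ∀ y : E3, ‖y‖ < R → |(max t ‖y‖)⁻¹ - t⁻¹| ≤ c * (if t < ‖y‖ then 1 else 0) := by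
      intro y hy
      split_ifs with h
      · have hy0 : 0 < ‖y‖ := ht.trans h
        rw [max_eq_right h.le, mul_one, abs_sub_comm]
        have e1 : t⁻¹ - ‖y‖⁻¹ = (‖y‖ - t) * (t * ‖y‖)⁻¹ := by
          field_simp
        have e2 : (t * ‖y‖)⁻¹ ≤ (t ^ 2)⁻¹ := inv_anti₀ (by positivity) (by nlinarith)
        rw [e1, abs_of_nonneg (mul_nonneg (by linarith) (by positivity)), hc]
        exact mul_le_mul ((by linarith : ‖y‖ - t ≤ R - t).trans (le_max_left _ _)) e2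
          (by positivity) (le_max_right _ _)
      · rw [max_eq_left (not_lt.1 h), sub_self, abs_zero, mul_zero]
    have hpt : ∀ σ p, Ψ i σ p ≠ 0 → |SpS_f z t p| ≤ (1 + |zp|) * c * shl t p := by
      intro σ p hp
      have hsup := (hΨ i).supp σ p (subset_tsupport _ hp)
      have e : SpS_f z t p = ∑ j, z j * ((max t ‖p.2 j‖)⁻¹ - t⁻¹) -
          ∑ a, ((max t ‖p.1 a‖)⁻¹ - t⁻¹) := by
        unfold SpS_f
        simp only [mul_sub, sum_sub_distrib]
        rw [← sum_mul, hn, sum_const, card_univ, Fintype.card_fin, nsmul_eq_mul]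
        ring
      rw [e]
      unfold shl
      refine SpS_lin hz (fun y => (max t ‖y‖)⁻¹ - t⁻¹) (fun y => if t < ‖y‖ then 1 else 0) c hc0
        (fun y => by split_ifs <;> norm_num) p (fun a => hb _ ?_) (fun j => hb _ ?_)
      · simpa using hsup.1 a
      · simpa using hsup.2 j
    have h1 := SpS_fI (hΨ i) z t ht
    have h2 : IM (Ψ i) (fun p => shl t p) := SpS_ind2 (hΨ i) (Set.Ioi t) measurableSet_Ioi
    have h3 := h2.cmul ((1 + |zp|) * c)
    rw [← mean_cmul, abs_le]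
    constructor
    · rw [← mean_neg]
      exact mean_mono h3.neg h1 fun σ p hp => (abs_le.1 (hpt σ p hp)).1
    · exact mean_mono h1 h3 fun σ p hp => (abs_le.1 (hpt σ p hp)).2
  rw [← hc]
  have e : Ph z Ψ t = ∑ i, mean (Ψ i) (SpS_f z t) := rfl
  rw [e]
  unfold mM
  rw [mul_sum]
  exact (abs_sum_le_sum_abs _ _).trans (sum_le_sum fun i _ => hm i)

end H6.CL
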