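import Pool.Agent.H6.CL.Bt
import Pool.Agent.H6.CL.Inst
import Pool.Agent.H6.CL.NearS
import Pool.Agent.H6.CL.Sph
import Pool.Agent.H6.CL.RefB
import Pool.Agent.H6.CB.Fin
import Pool.Agent.H6.CM.BallM

/-! The theorem in the ball. `ball_grid`, `rf_sep`, `lb_min` give `Gd` with `Λ = ball 0 R` and `A = C ρ`; `inst0`, `bt`: `ShB R C (fun _ : Unit => ψ)`; `shlS`, `nearS`. (1) `H6.CM.main2`, second part, with `shlS`. (3) `fend` (with `N1 ^ (3/10) ≤ C R ^ (9/10)`, `N1 = n + k + 1 ≤ ρ R ^ 3 + 1`) and (1). (4) Let `R` be large. For `t ≤ 1`: `sph_in` and the bound for `t = 1` (`near p 0` by (3)). For `1 ≤ t ≤ R / 2`: `sph`, with (3) at all points of `A t`, `A (t + 1)` and `cnt_loc` with the local bounds of `fend` at all points of `shc (t - 1) (t + 3)`; all volumes are at most `C t ^ 2`. For `R / 2 ≤ t ≤ R - 10`: `sph`, (1) and (2) for the shells `A t`, `A (t + 1)`, `cnt_loc` and `ShB`. For `R - 10 ≤ t`: `sph_out`, `shl t p ≤ shl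 (R - 10) p` and `shl_loc`. -/

open MeasureTheory Finset

namespace H6.CL

open H6.CM H6.CB

private theorem mM1 {q n k : ℕ} (ψ : (Fin n → Fin q) → Cfg n k → ℂ) (F : Cfg n k → ℝ) :
    mM (fun _ : Unit => ψ) F = mean ψ F := by
  simp [mM]

private theorem near_nn {n k : ℕ} (p : Cfg n k) (v : E3) : 0 ≤ near p v := by
  unfold near
  refine add_nonneg (sum_nonneg fun a _ => ?_) (sum_nonneg fun a _ => ?_)
  · split_ifs <;> positivity
  · split_ifs <;> positivity

/-- volumes of the shells -/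
private theorem volA : ∃ C : ℝ, 0 ≤ C ∧ (∀ r : ℝ, 0 ≤ r → volume (A r) ≠ ⊤ ∧
      volume.real (A r) ≤ C * (r + 1) ^ 2) ∧
    ∀ r R : ℝ, 0 ≤ r → r ≤ R + 1 → 1 ≤ R → volume.real (A r) ≤ C * R ^ 2 := by
  obtain ⟨C, hC, h⟩ := A_vol
  refine ⟨C, hC, fun r hr => ⟨?_, ?_⟩, fun r R hr h1 h2 => ?_⟩
  · exact ne_top_of_le_ne_top ENNReal.ofReal_ne_top (h r (r + 1) hr (by linarith) (by linarith))
  · exact ENNReal.toReal_le_of_le_ofReal (by positivity)
      (h r (r + 1) hr (by linarith) (by linarith))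
  · exact ENNReal.toReal_le_of_le_ofReal (by positivity) (h r R hr h1 h2)

/-- integral over a shell of a bounded function -/
private theorem intA {f : E3 → ℝ} {r c : ℝ} (hv : volume (A r) ≠ ⊤)
    (h : ∀ v ∈ A r, |f v| ≤ c) : |∫ v in A r, f v| ≤ c * volume.real (A r) := by
  have := norm_setIntegral_le_of_norm_le_const (μ := volume) (s := A r) (f := f) (C := c)
    (lt_top_iff_ne_top.2 hv) (fun v hv => by rw [Real.norm_eq_abs]; exact h v hv)
  rwa [Real.norm_eq_abs] at this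

/-- integral over a shell of a dominated function -/
private theorem intA2 {f g : E3 → ℝ} {r : ℝ} (hg : IntegrableOn g (A r))
    (h : ∀ v ∈ A r, |f v| ≤ g v) : |∫ v in A r, f v| ≤ ∫ v in A r, g v := by
  have := norm_integral_le_of_norm_le (μ := volume.restrict (A r)) (f := f) (g := g) hg
    ((ae_restrict_iff' (A_meas r)).2 (Filter.Eventually.of_forall fun v hv => by
      rw [Real.norm_eq_abs]; exact h v hv))
  rwa [Real.norm_eq_abs] at this

private theorem A_ball {r s : ℝ} (h : r + 1 ≤ s) : A r ⊆ Metric.ball 0 s := by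
  intro v hv
  rw [mem_ball_zero_iff]
  exact hv.2.trans_le h

/-- integrals of the local numbers over the shells -/
private theorem intG {q n k : ℕ} {R B CA : ℝ} {ψ : (Fin n → Fin q) → Cfg n k → ℂ}
    (hS : Sm q n k (Metric.ball 0 R) ψ) (h1 : mass ψ = 1)
    (hB : ShB R B (fun _ : Unit => ψ)) {r : ℝ} (hr : 0 ≤ r) (hv : volume (A r) ≠ ⊤)
    (hV : volume.real (A r) ≤ CA * R ^ 2) :
    ∫ v in A r, mM (fun _ : Unit => ψ) (fun p => ce p v 1 + cn p v 1) ≤
      (CA + 2 * B) * R ^ 2 := by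
  have hS' : ∀ _i : Unit, Sm q n k (Metric.ball 0 R) ψ := fun _ => hS
  have i0 := (sI_sum (Ψ := fun _ : Unit => ψ) hS' 1 (r + 1)).mono_set (A_ball le_rfl)
  have i1 := (sI_ce (Ψ := fun _ : Unit => ψ) hS' 1 (5 / 3) (r + 1) (by norm_num)).mono_set
    (A_ball le_rfl)
  have i2 := (sI_cn (Ψ := fun _ : Unit => ψ) hS' 1 1 (r + 1) (by norm_num)).mono_set
    (A_ball le_rfl)
  simp only [Real.rpow_one] at i2
  have i3 : IntegrableOn (fun _ : E3 => (1 : ℝ)) (A r) := integrableOn_const (hs := hv)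
  have key : ∫ v in A r, mM (fun _ : Unit => ψ) (fun p => ce p v 1 + cn p v 1) ≤
      ∫ v in A r, (1 + mM (fun _ : Unit => ψ) (fun p => ce p v 1 ^ (5 / 3 : ℝ)) +
        mM (fun _ : Unit => ψ) (fun p => cn p v 1)) := by
    refine setIntegral_mono i0 ((i3.add i1).add i2) fun v => ?_
    simp only [mM1]
    have e1 : (1 : ℝ) = mean ψ (fun _ => (1 : ℝ)) := by rw [mean_one, h1]
    have e2 : mean ψ (fun p => 1 + ce p v 1 ^ (5 / 3 : ℝ) + cn p v 1) =
        1 + mean ψ (fun p => ce p v 1 ^ (5 / 3 : ℝ)) + mean ψ (fun p => cn p v 1) := by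
      rw [mean_add ((IM.cont hS continuous_const).add (IM_cet hS v 1 _ (by norm_num)))
        (IM_cn hS v 1), mean_add (IM.cont hS continuous_const) (IM_cet hS v 1 _ (by norm_num)),
        mean_one, h1]
    rw [← e2]
    refine mean_mono ((IM_ce hS v 1).add (IM_cn hS v 1))
      (((IM.cont hS continuous_const).add (IM_cet hS v 1 _ (by norm_num))).add (IM_cn hS v 1))
      fun σ p _ => ?_
    have h2 := ce_nonneg p v 1
    have h3 : ce p v 1 ≤ 1 + ce p v 1 ^ (5 / 3 : ℝ) := by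
      rcases le_total (ce p v 1) 1 with h | h
      · have := Real.rpow_nonneg h2 (5 / 3 : ℝ)
        linarith
      · have := Real.rpow_le_rpow_of_exponent_le h (show (1 : ℝ) ≤ 5 / 3 by norm_num)
        rw [Real.rpow_one] at this
        linarith
    linarith
  refine key.trans ?_
  have i4 : IntegrableOn (fun v => 1 + mM (fun _ : Unit => ψ)
      (fun p => ce p v 1 ^ (5 / 3 : ℝ))) (A r) := i3.add i1
  rw [integral_add i4 i2, integral_add i3 i1]
  have a1 := hB.e r hr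
  have a2 := hB.c r hr
  have a3 : ∫ _v in A r, (1 : ℝ) ≤ CA * R ^ 2 := by
    rw [setIntegral_const, smul_eq_mul, mul_one]
    exact hV
  linarith

private theorem shl_anti {n k : ℕ} {s t : ℝ} (h : s ≤ t) (p : Cfg n k) : shl t p ≤ shl s p := by
  unfold shl
  refine add_le_add (sum_le_sum fun a _ => ?_) (sum_le_sum fun a _ => ?_)
  · split_ifs with h1 h2
    · exact le_rfl
    · exact absurd (h.trans_lt h1) h2
    · norm_num
    · exact le_rfl
  · split_ifs with h1 h2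
    · exact le_rfl
    · exact absurd (h.trans_lt h1) h2
    · norm_num
    · exact le_rfl

private theorem shl_nn {n k : ℕ} (s : ℝ) (p : Cfg n k) : 0 ≤ shl s p := by
  unfold shl
  refine add_nonneg (sum_nonneg fun a _ => ?_) (sum_nonneg fun a _ => ?_)
  · split_ifs <;> norm_num
  · split_ifs <;> norm_num

private theorem IM_shl {q n k : ℕ} {Λ : Set E3} {ψ : (Fin n → Fin q) → Cfg n k → ℂ}
    (hS : Sm q n k Λ ψ) (s : ℝ) : IM ψ (fun p => shl s p) := by
  refine IM.bdd hS ?_ ((n : ℝ) + k) fun p => ?_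
  · refine Measurable.add ?_ ?_
    · refine Finset.measurable_fun_sum _ fun a _ => ?_
      exact Measurable.ite (measurableSet_lt measurable_const (meas_e a).norm)
        measurable_const measurable_const
    · refine Finset.measurable_fun_sum _ fun a _ => ?_
      exact Measurable.ite (measurableSet_lt measurable_const (meas_n a).norm)
        measurable_const measurable_const
  · rw [abs_of_nonneg (shl_nn s p)]
    unfold shl
    refine add_le_add ?_ ?_
    · have : ∑ a, (if s < ‖p.1 a‖ then (1 : ℝ) else 0) ≤ ∑ _a : Fin n, (1 : ℝ) :=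
        sum_le_sum fun a _ => by split_ifs <;> norm_num
      simpa using this
    · have : ∑ a, (if s < ‖p.2 a‖ then (1 : ℝ) else 0) ≤ ∑ _a : Fin k, (1 : ℝ) :=
        sum_le_sum fun a _ => by split_ifs <;> norm_num
      simpa using this

/-- sum over five shells -/
private theorem five {G : E3 → ℝ} (hG : ∀ v, 0 ≤ G v)
    (hi : ∀ s, IntegrableOn G (Metric.ball 0 s)) {M t : ℝ} (ht : 1 ≤ t)
    (hM : ∀ r : ℝ, t - 1 ≤ r → r ≤ t + 3 → ∫ v in A r, G v ≤ M) :
    ∫ v in shc (t - 1) (t + 3), G v ≤ 5 * M := by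
  have := shc_le G hG hi M (t - 1) (by linarith) 5 (fun i hi => ?_) (shc (t - 1) (t + 3))
    (fun v hv => ⟨hv.1, ?_⟩)
  · exact_mod_cast this
  · have h1 : (i : ℝ) ≤ 4 := by exact_mod_cast (by omega : i ≤ 4)
    have h2 : (0 : ℝ) ≤ i := Nat.cast_nonneg i
    exact hM _ (by linarith) (by linarith)
  · have := hv.2
    push_cast
    linarith

private theorem sq_le {t a b : ℝ} (ht : 1 ≤ t) (ha : 0 ≤ a) (hb : 1 + a ≤ b) :
    (t + a) ^ 2 ≤ b ^ 2 * t ^ 2 := by
  rw [← mul_pow]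
  refine pow_le_pow_left₀ (by linarith) ?_ 2
  nlinarith

/-- the bounds for the averages over spheres -/
private theorem sphB (zp Cf D1 D2 D3 B : ℝ) (hCf : 0 ≤ Cf) (hD1 : 0 ≤ D1) (hD2 : 0 ≤ D2)
    (hD3 : 0 ≤ D3) (hB : 0 ≤ B) : ∃ E : ℝ, 0 ≤ E ∧ ∀ (q n k : ℕ) (R : ℝ) (_ : 100 ≤ R)
    (z : Fin k → ℝ) (_ : ∀ j, 0 ≤ z j ∧ z j ≤ zp) (_ : ∑ j, z j = n)
    (ψ : (Fin n → Fin q) → Cfg n k → ℂ) (_ : Sm q n k (Metric.ball 0 R) ψ) (_ : mass ψ = 1)
    (_ : ShB R B (fun _ : Unit => ψ))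
    (_ : ∀ v : E3, ‖v‖ ≤ R / 2 + 4 → |mean ψ (fun p => phi z p v)| ≤ D3 ∧
      mean ψ (fun p => ce p v 1 + cn p v 1) ≤ Cf ∧ mean ψ (fun p => near p v) ≤ Cf)
    (_ : ∀ v : E3, Metric.closedBall v 2 ⊆ Metric.ball 0 R →
      |mean ψ (fun p => phi z p v)| ≤ D1 * (1 + mean ψ (fun p => near p v)))
    (_ : ∀ r : ℝ, 0 ≤ r → IntegrableOn (fun v => mean ψ (fun p => near p v)) (A r) ∧
      ∫ v in A r, mean ψ (fun p => near p v) ≤ D2 * R ^ 2)
    (t : ℝ) (_ : 0 < t), |Ph z (fun _ : Unit => ψ) t| ≤ E := by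
  obtain ⟨Cp, hCp, hsph⟩ := sph zp
  obtain ⟨CA, hCA, hvol, hvol2⟩ := volA
  obtain ⟨E1, hE1⟩ : ∃ E1, E1 = Cp * (4 * (D3 * CA) + 9 * (D3 * CA) + 125 * (Cf * CA)) :=
    ⟨_, rfl⟩
  obtain ⟨E2, hE2⟩ : ∃ E2, E2 = Cp * (4 * (2 * (D1 * (CA + D2)) + 5 * (CA + 2 * B))) := ⟨_, rfl⟩
  obtain ⟨E3', hE3⟩ : ∃ E3', E3' = (1 + |zp|) * (40 * (13 * (CA + 2 * B))) := ⟨_, rfl⟩
  have hE10 : 0 ≤ E1 := by rw [hE1]; positivity
  have hE20 : 0 ≤ E2 := by rw [hE2]; positivity
  have hE30 : 0 ≤ E3' := by rw [hE3]; positivity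
  have hzp : 0 ≤ (1 + |zp|) * Cf := by positivity
  refine ⟨E1 + E2 + E3' + (1 + |zp|) * Cf, by positivity, ?_⟩
  intro q n k R hR z hz hn ψ hS hm hShB hin hpt hnr t ht
  have hS' : ∀ _i : Unit, Sm q n k (Metric.ball 0 R) ψ := fun _ => hS
  have hG0 : ∀ v : E3, 0 ≤ mM (fun _ : Unit => ψ) (fun p => ce p v 1 + cn p v 1) := fun v =>
    mM_nonneg _ fun p => add_nonneg (ce_nonneg p v 1) (cn_nonneg p v 1)
  have hGi : ∀ s, IntegrableOn (fun v => mM (fun _ : Unit => ψ)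
      (fun p => ce p v 1 + cn p v 1)) (Metric.ball 0 s) := fun s => sI_sum hS' 1 s
  -- small radii
  have hsmall : ∀ t : ℝ, 1 ≤ t → t ≤ R / 2 → |Ph z (fun _ : Unit => ψ) t| ≤ E1 := by
    intro t ht1 ht2
    have h0 := hsph Unit inferInstance q n k (Metric.ball 0 R) z hz (fun _ => ψ) hS' t ht1
    have ht2' : (0 : ℝ) < t ^ 2 := by positivity
    have a1 : |∫ v in A t, mM (fun _ : Unit => ψ) (fun p => phi z p v)| ≤
        4 * (D3 * CA) * t ^ 2 := by
      refine (intA (c := D3) (hvol t (by linarith)).1 fun v hv => ?_).trans ?_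
      · rw [mM1]
        exact (hin v (by have := hv.2; linarith)).1
      · have h1 := (hvol t (by linarith)).2
        have h2 := sq_le ht1 zero_le_one (show (1 : ℝ) + 1 ≤ 2 by norm_num)
        calc D3 * volume.real (A t) ≤ D3 * (CA * (2 ^ 2 * t ^ 2)) :=
              mul_le_mul_of_nonneg_left (h1.trans (mul_le_mul_of_nonneg_left h2 hCA)) hD3
          _ = _ := by ring
    have a2 : |∫ v in A (t + 1), mM (fun _ : Unit => ψ) (fun p => phi z p v)| ≤
        9 * (D3 * CA) * t ^ 2 := by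
      refine (intA (c := D3) (hvol (t + 1) (by linarith)).1 fun v hv => ?_).trans ?_
      · rw [mM1]
        exact (hin v (by have := hv.2; linarith)).1
      · have h1 := (hvol (t + 1) (by linarith)).2
        have h2 := sq_le ht1 zero_le_two (show (1 : ℝ) + 2 ≤ 3 by norm_num)
        have h3 : t + 1 + 1 = t + 2 := by ring
        rw [h3] at h1
        calc D3 * volume.real (A (t + 1)) ≤ D3 * (CA * (3 ^ 2 * t ^ 2)) :=
              mul_le_mul_of_nonneg_left (h1.trans (mul_le_mul_of_nonneg_left h2 hCA)) hD3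
          _ = _ := by ring
    have a3 : mM (fun _ : Unit => ψ) (fun p => cS t p) ≤ 125 * (Cf * CA) * t ^ 2 := by
      refine (cnt_loc hS' t ht1).trans ?_
      refine (five hG0 hGi ht1 (M := 25 * (Cf * CA) * t ^ 2) fun r hr1 hr2 => ?_).trans
        (le_of_eq (by ring))
      refine (le_abs_self _).trans ((intA (c := Cf) (hvol r (by linarith)).1
        fun v hv => ?_).trans ?_)
      · rw [abs_of_nonneg (hG0 v), mM1]
        exact (hin v (by have := hv.2; linarith)).2.1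
      · have h1 := (hvol r (by linarith)).2
        have h4 : (r + 1) ^ 2 ≤ (t + 4) ^ 2 := pow_le_pow_left₀ (by linarith) (by linarith) 2
        have h2 := h4.trans (sq_le ht1 (show (0 : ℝ) ≤ 4 by norm_num)
          (show (1 : ℝ) + 4 ≤ 5 by norm_num))
        calc Cf * volume.real (A r) ≤ Cf * (CA * (5 ^ 2 * t ^ 2)) :=
              mul_le_mul_of_nonneg_left (h1.trans (mul_le_mul_of_nonneg_left h2 hCA)) hCf
          _ = _ := by ring
    refine h0.trans ?_
    calc Cp * (t ^ 2)⁻¹ * (|∫ v in A t, mM (fun _ : Unit => ψ) (fun p => phi z p v)| +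
      |∫ v in A (t + 1), mM (fun _ : Unit => ψ) (fun p => phi z p v)| +
      mM (fun _ : Unit => ψ) (fun p => cS t p)) ≤ Cp * (t ^ 2)⁻¹ *
          (4 * (D3 * CA) * t ^ 2 + 9 * (D3 * CA) * t ^ 2 + 125 * (Cf * CA) * t ^ 2) :=
          mul_le_mul_of_nonneg_left (by linarith) (by positivity)
      _ = E1 := by rw [hE1]; field_simp
  -- integrals over the shells up to the boundary
  have hGR : ∀ r : ℝ, 0 ≤ r → r ≤ R + 1 →
      ∫ v in A r, mM (fun _ : Unit => ψ) (fun p => ce p v 1 + cn p v 1) ≤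
        (CA + 2 * B) * R ^ 2 := fun r hr0 hr1 =>
    intG hS hm hShB hr0 (hvol r hr0).1 (hvol2 r R hr0 hr1 (by linarith))
  have hmid : ∀ t : ℝ, 1 ≤ t → R / 2 ≤ t → t ≤ R - 10 → |Ph z (fun _ : Unit => ψ) t| ≤ E2 := by
    intro t ht1 ht2 ht3
    have h0 := hsph Unit inferInstance q n k (Metric.ball 0 R) z hz (fun _ => ψ) hS' t ht1
    have ht2' : (0 : ℝ) < t ^ 2 := by positivity
    have hRt : R ^ 2 ≤ 4 * t ^ 2 := by nlinarith
    have a1 : ∀ s : ℝ, 0 ≤ s → s ≤ t + 1 →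
        |∫ v in A s, mM (fun _ : Unit => ψ) (fun p => phi z p v)| ≤
        D1 * (CA + D2) * R ^ 2 := by
      intro s hs0 hs1
      have i3 : IntegrableOn (fun _ : E3 => (1 : ℝ)) (A s) :=
        integrableOn_const (hs := (hvol s hs0).1)
      have i4 := hnr s hs0
      refine (intA2 (g := fun v => D1 * (1 + mean ψ (fun p => near p v)))
        ((i3.add i4.1).const_mul D1) fun v hv => ?_).trans ?_
      · rw [mM1]
        refine hpt v ?_
        intro w hw
        rw [Metric.mem_closedBall, dist_eq_norm] at hw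
        rw [mem_ball_zero_iff]
        have h1 : ‖w‖ ≤ ‖w - v‖ + ‖v‖ := by
          calc ‖w‖ = ‖(w - v) + v‖ := by rw [sub_add_cancel]
            _ ≤ _ := norm_add_le _ _
        have h2 := hv.2
        linarith
      · rw [integral_const_mul, integral_add i3 i4.1, setIntegral_const, smul_eq_mul, mul_one]
        have h1 := hvol2 s R hs0 (by linarith) (by linarith)
        calc D1 * (volume.real (A s) + ∫ v in A s, mean ψ (fun p => near p v)) ≤
            D1 * (CA * R ^ 2 + D2 * R ^ 2) := mul_le_mul_of_nonneg_left (by linarith [i4.2]) hD1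
          _ = _ := by ring
    have a3 : mM (fun _ : Unit => ψ) (fun p => cS t p) ≤ 5 * ((CA + 2 * B) * R ^ 2) := by
      refine (cnt_loc hS' t ht1).trans ?_
      exact five hG0 hGi ht1 fun r hr1 hr2 => hGR r (by linarith) (by linarith)
    refine h0.trans ?_
    calc Cp * (t ^ 2)⁻¹ * (|∫ v in A t, mM (fun _ : Unit => ψ) (fun p => phi z p v)| +
      |∫ v in A (t + 1), mM (fun _ : Unit => ψ) (fun p => phi z p v)| +
      mM (fun _ : Unit => ψ) (fun p => cS t p)) ≤ Cp * (t ^ 2)⁻¹ *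
          ((2 * (D1 * (CA + D2)) + 5 * (CA + 2 * B)) * R ^ 2) := by
          refine mul_le_mul_of_nonneg_left ?_ (by positivity)
          have b1 := a1 t (by linarith) (by linarith)
          have b2 := a1 (t + 1) (by linarith) le_rfl
          linarith
      _ ≤ Cp * (t ^ 2)⁻¹ * ((2 * (D1 * (CA + D2)) + 5 * (CA + 2 * B)) * (4 * t ^ 2)) := by
          refine mul_le_mul_of_nonneg_left ?_ (by positivity)
          exact mul_le_mul_of_nonneg_left hRt (by positivity)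
      _ = E2 := by rw [hE2]; field_simp
  have hout : ∀ t : ℝ, R - 10 ≤ t → |Ph z (fun _ : Unit => ψ) t| ≤ E3' := by
    intro t ht1
    have ht0 : 0 < t := by linarith
    have h0 := sph_out zp z hz hn (Ψ := fun _ : Unit => ψ) hS' t ht0
    have ht2' : (0 : ℝ) < t ^ 2 := by positivity
    have hRt : R ^ 2 ≤ 4 * t ^ 2 := by nlinarith
    have a1 : mM (fun _ : Unit => ψ) (fun p => shl t p) ≤
        13 * ((CA + 2 * B) * R ^ 2) := by
      have b1 : mM (fun _ : Unit => ψ) (fun p => shl t p) ≤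
          mM (fun _ : Unit => ψ) (fun p => shl (R - 10) p) := by
        rw [mM1, mM1]
        exact mean_mono (IM_shl hS t) (IM_shl hS (R - 10)) fun σ p _ => shl_anti ht1 p
      refine b1.trans ((shl_loc hS' (R - 10)).trans ?_)
      have := shc_le _ hG0 hGi ((CA + 2 * B) * R ^ 2) (R - 11) (by linarith) 13
        (fun i hi => ?_) (shc (R - 10 - 1) (R + 1)) (fun v hv => ⟨?_, ?_⟩)
      · exact_mod_cast this
      · have h1 : (i : ℝ) ≤ 12 := by exact_mod_cast (by omega : i ≤ 12)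
        have h2 : (0 : ℝ) ≤ i := Nat.cast_nonneg i
        exact hGR _ (by linarith) (by linarith)
      · have := hv.1
        linarith
      · have := hv.2
        push_cast
        linarith
    have a2 : max (R - t) 0 ≤ 10 := max_le (by linarith) (by norm_num)
    have a3 : 0 ≤ mM (fun _ : Unit => ψ) (fun p => shl t p) := mM_nonneg _ fun p => shl_nn t p
    refine h0.trans ?_
    calc (1 + |zp|) * (max (R - t) 0 * (t ^ 2)⁻¹) * mM (fun _ : Unit => ψ) (fun p => shl t p)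
        ≤ (1 + |zp|) * (10 * (t ^ 2)⁻¹) * (13 * ((CA + 2 * B) * R ^ 2)) := by
          refine mul_le_mul ?_ a1 a3 (by positivity)
          refine mul_le_mul_of_nonneg_left ?_ (by positivity)
          exact mul_le_mul_of_nonneg_right a2 (by positivity)
      _ ≤ (1 + |zp|) * (10 * (t ^ 2)⁻¹) * (13 * ((CA + 2 * B) * (4 * t ^ 2))) := by
          refine mul_le_mul_of_nonneg_left ?_ (by positivity)
          refine mul_le_mul_of_nonneg_left ?_ (by norm_num)
          exact mul_le_mul_of_nonneg_left hRt (by positivity)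
      _ = E3' := by rw [hE3]; field_simp; ring
  rcases le_total t 1 with h1 | h1
  · have b1 := sph_in zp z hz (Ψ := fun _ : Unit => ψ) hS' t ht h1
    have b2 := hsmall 1 le_rfl (by linarith)
    have b3 : mM (fun _ : Unit => ψ) (fun p => near p 0) ≤ Cf := by
      rw [mM1]
      exact (hin 0 (by rw [norm_zero]; linarith)).2.2
    have b4 : (1 + |zp|) * mM (fun _ : Unit => ψ) (fun p => near p 0) ≤ (1 + |zp|) * Cf :=
      mul_le_mul_of_nonneg_left b3 (by positivity)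
    have b5 := abs_sub_abs_le_abs_sub (Ph z (fun _ : Unit => ψ) t) (Ph z (fun _ : Unit => ψ) 1)
    linarith
  · rcases le_total t (R / 2) with h2 | h2
    · have := hsmall t h1 h2
      linarith
    · rcases le_total t (R - 10) with h3 | h3
      · have := hmid t h1 h2 h3
        linarith
      · have := hout t h3
        linarith

theorem ball0 (q : ℕ) (zm zp κm κp ρ : ℝ) (hzm : 0 < zm) (hκm : 0 < κm) (hρ : 0 < ρ) :
    ∃ C : ℝ, ∀ (R : ℝ) (n k : ℕ) (z κ : Fin k → ℝ), C ≤ R → (n : ℝ) + k ≤ ρ * R ^ 3 →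
      (∀ j, zm ≤ z j ∧ z j ≤ zp) → (∀ j, κm ≤ κ j ∧ κ j ≤ κp) → ∑ j, z j = n →
      ∀ ψ : (Fin n → Fin q) → Cfg n k → ℂ, St q n k (Metric.ball 0 R) ψ → mass ψ = 1 →
      (∀ ψ', St q n k (Metric.ball 0 R) ψ' → mass ψ' = 1 →
        energy z κ ψ ≤ energy z κ ψ' + (((n : ℝ) + k + 1) ^ 4)⁻¹) →
      (∀ x : E3, Metric.closedBall x 2 ⊆ Metric.ball 0 R →
        |mean ψ (fun p => phi z p x)| ≤ C * (1 + mean ψ (fun p => near p x))) ∧
      (∀ r : ℝ, 0 ≤ r → ∫ v in A r, mean ψ (fun p => near p v) ≤ C * R ^ 2) ∧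
      (∀ x : E3, ‖x‖ + C * R ^ (9 / 10 : ℝ) ≤ R →
        |mean ψ (fun p => phi z p x)| ≤ C ∧ mean ψ (fun p => near p x) ≤ C) ∧
      (∀ t : ℝ, 0 < t → |mean ψ (fun p => ∑ j, z j * (max t ‖p.2 j‖)⁻¹ -
        ∑ a, (max t ‖p.1 a‖)⁻¹)| ≤ C) := by
  obtain ⟨c, hc, hgrid⟩ := ball_grid
  obtain ⟨C0, hC0, hrf⟩ := rf_sep
  obtain ⟨χ, hχ⟩ := bump_ex
  obtain ⟨θ, hθ⟩ := cut_ex
  have hA0 : 0 ≤ C0 * (ρ / c) := by positivity
  obtain ⟨Ci, hCi, hinst⟩ := inst0 q zm zp κm κp (C0 * (ρ / c)) hzm hκm hA0 hχ hθ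
  obtain ⟨B, hB, hbt⟩ := bt q Ci zm zp hzm hCi hχ hθ
  obtain ⟨Cs, hCs, hshl⟩ := shlS
  obtain ⟨Cn, hCn, hnear⟩ := nearS
  obtain ⟨Cm, hmain⟩ := main2 q zm zp κp hzm
  obtain ⟨Cf, hCf, hfend⟩ := fend q zm zp κm κp (C0 * (ρ / c)) hzm hκm hA0
  obtain ⟨D1, hD1⟩ : ∃ D1, D1 = |Cm| * (1 + Cs * (B + 1)) := ⟨_, rfl⟩
  obtain ⟨D2, hD2⟩ : ∃ D2, D2 = Cn * (B + 1) := ⟨_, rfl⟩
  have hD10 : 0 ≤ D1 := by rw [hD1]; positivity
  have hD20 : 0 ≤ D2 := by rw [hD2]; positivity
  have hD30 : 0 ≤ D1 * (1 + Cf) := by positivity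
  obtain ⟨E, hE, hsphB⟩ := sphB zp Cf D1 D2 (D1 * (1 + Cf)) B hCf hD10 hD20 hD30 hB
  obtain ⟨K, hK⟩ : ∃ K, K = 2000 * (ρ + 1) ^ (3 / 10 : ℝ) + 1 := ⟨_, rfl⟩
  have hK1 : 1 ≤ K := by
    rw [hK]
    have : 0 ≤ (ρ + 1) ^ (3 / 10 : ℝ) := by positivity
    linarith
  have hK10 : 0 ≤ (4 * K) ^ 10 := by positivity
  obtain ⟨C, hC⟩ : ∃ C, C = 100 + D1 + D2 + D1 * (1 + Cf) + Cf + K + (4 * K) ^ 10 + E :=
    ⟨_, rfl⟩
  have c1 : 100 ≤ C := by rw [hC]; linarith
  have c2 : D1 ≤ C := by rw [hC]; linarith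
  have c3 : D2 ≤ C := by rw [hC]; linarith
  have c4 : D1 * (1 + Cf) ≤ C := by rw [hC]; linarith
  have c5 : Cf ≤ C := by rw [hC]; linarith
  have c6 : K ≤ C := by rw [hC]; linarith
  have c7 : (4 * K) ^ 10 ≤ C := by rw [hC]; linarith
  have c8 : E ≤ C := by rw [hC]; linarith
  refine ⟨C, ?_⟩
  intro R n k z κ hCR hnk hz hκ hneu ψ hψ hm hmin
  have hR : 100 ≤ R := c1.trans hCR
  have hR0 : 0 < R := by linarith
  have hS := St_sm hψ
  have hS' : ∀ _i : Unit, Sm q n k (Metric.ball 0 R) ψ := fun _ => hS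
  have hz0 : ∀ j, 0 ≤ z j ∧ z j ≤ zp := fun j => ⟨hzm.le.trans (hz j).1, (hz j).2⟩
  have hN1 : (1 : ℝ) ≤ (n : ℝ) + k + 1 := by
    have h1 : (0 : ℝ) ≤ n := Nat.cast_nonneg n
    have h2 : (0 : ℝ) ≤ k := Nat.cast_nonneg k
    linarith
  have hN4 : (1 : ℝ) ≤ ((n : ℝ) + k + 1) ^ 4 := one_le_pow₀ hN1
  have hδ0 : 0 ≤ (((n : ℝ) + k + 1) ^ 4)⁻¹ := by positivity
  have hδ1 : (((n : ℝ) + k + 1) ^ 4)⁻¹ ≤ 1 := inv_le_one_of_one_le₀ hN4
  obtain ⟨W, hW, hWΛ, hWs, hWc⟩ := hgrid R hR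
  have hcard : (n : ℝ) + k ≤ ρ / c * W.card := by
    refine hnk.trans ?_
    rw [div_mul_eq_mul_div, le_div_iff₀ hc]
    have := mul_le_mul_of_nonneg_left hWc hρ.le
    linarith
  have hgd : Gd q zm zp κm κp (C0 * (ρ / c)) n k (Metric.ball 0 R) z κ W
      (energy z κ ψ - (((n : ℝ) + k + 1) ^ 4)⁻¹) ψ :=
    { hz := hz
      hκ := hκ
      neu := hneu
      lb := lb_min hψ hm _ hδ0 hmin
      st := hψ
      one := hm
      en := by linarith
      rf := hrf q n k _ ψ (ρ / c) (by positivity) W hW hWΛ hWs hcard }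
  have hShB : ShB R B (fun _ : Unit => ψ) :=
    hbt Unit inferInstance n k R hR z W (fun _ => ψ) (hinst n k R hR z κ W _ ψ hgd)
  have hms : ∑ _i : Unit, mass ψ = 1 := by simp [hm]
  -- (1)
  have h1 : ∀ x : E3, Metric.closedBall x 2 ⊆ Metric.ball 0 R →
      |mean ψ (fun p => phi z p x)| ≤ D1 * (1 + mean ψ (fun p => near p x)) := by
    intro x hx
    have a1 := (hmain (Metric.ball 0 R) n k z κ hz
      (fun j => ⟨hκm.le.trans (hκ j).1, (hκ j).2⟩) hneu ψ hψ hm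
      (fun ψ' h h' => (hmin ψ' h h').trans (by linarith))).2 R (by linarith) rfl x hx
    have a2 := hshl Unit inferInstance q n k R hR (fun _ => ψ) hS' hms B hShB
    rw [mM1] at a2
    have a3 : mean ψ (fun p => shl (R - 6) p) / R ^ 2 ≤ Cs * (B + 1) := by
      rw [div_le_iff₀ (by positivity)]
      exact a2
    have a4 : 0 ≤ mean ψ (fun p => near p x) := mean_nonneg fun _ p _ => near_nn p x
    have a5 : 0 ≤ mean ψ (fun p => shl (R - 6) p) / R ^ 2 :=
      div_nonneg (mean_nonneg fun _ p _ => shl_nn _ p) (by positivity)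
    refine a1.trans ?_
    calc Cm * (1 + mean ψ (fun p => near p x) + mean ψ (fun p => shl (R - 6) p) / R ^ 2) ≤
        |Cm| * (1 + mean ψ (fun p => near p x) + Cs * (B + 1)) :=
          mul_le_mul (le_abs_self _) (by linarith) (by linarith) (abs_nonneg _)
      _ ≤ |Cm| * ((1 + Cs * (B + 1)) * (1 + mean ψ (fun p => near p x))) := by
          refine mul_le_mul_of_nonneg_left ?_ (abs_nonneg _)
          have : 0 ≤ Cs * (B + 1) * mean ψ (fun p => near p x) := by positivity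
          linarith
      _ = _ := by rw [hD1]; ring
  -- (2)
  have h2 : ∀ r : ℝ, 0 ≤ r → IntegrableOn (fun v => mean ψ (fun p => near p v)) (A r) ∧
      ∫ v in A r, mean ψ (fun p => near p v) ≤ D2 * R ^ 2 := by
    intro r hr
    have := hnear Unit inferInstance q n k R hR (fun _ => ψ) hS' hms B hShB r hr
    simp only [mM1] at this
    rw [hD2]
    exact this
  -- (3)
  have hNR : 2000 * ((n : ℝ) + k + 1) ^ (3 / 10 : ℝ) < K * R ^ (9 / 10 : ℝ) := by
    have b1 : (n : ℝ) + k + 1 ≤ (ρ + 1) * R ^ 3 := by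
      have : (1 : ℝ) ≤ R ^ 3 := one_le_pow₀ (by linarith)
      linarith
    have b2 : ((n : ℝ) + k + 1) ^ (3 / 10 : ℝ) ≤ (ρ + 1) ^ (3 / 10 : ℝ) * R ^ (9 / 10 : ℝ) := by
      refine (Real.rpow_le_rpow (by linarith) b1 (by norm_num)).trans (le_of_eq ?_)
      rw [Real.mul_rpow (by linarith) (by positivity), ← Real.rpow_natCast R 3,
        ← Real.rpow_mul hR0.le]
      norm_num
    have b3 : 0 < R ^ (9 / 10 : ℝ) := Real.rpow_pos_of_pos hR0 _
    rw [hK]
    nlinarith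
  have hsub : ∀ x : E3, ‖x‖ + K * R ^ (9 / 10 : ℝ) ≤ R →
      Metric.closedBall x (2000 * ((n : ℝ) + k + 1) ^ (3 / 10 : ℝ)) ⊆ Metric.ball 0 R := by
    intro x hx w hw
    rw [Metric.mem_closedBall, dist_eq_norm] at hw
    rw [mem_ball_zero_iff]
    have b1 : ‖w‖ ≤ ‖w - x‖ + ‖x‖ := by
      calc ‖w‖ = ‖(w - x) + x‖ := by rw [sub_add_cancel]
        _ ≤ _ := norm_add_le _ _
    linarith
  have h3 : ∀ x : E3, ‖x‖ + K * R ^ (9 / 10 : ℝ) ≤ R →
      |mean ψ (fun p => phi z p x)| ≤ D1 * (1 + Cf) ∧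
      mean ψ (fun p => ce p x 1 + cn p x 1) ≤ Cf ∧ mean ψ (fun p => near p x) ≤ Cf := by
    intro x hx
    obtain ⟨b1, b2, b3, b4⟩ := hfend n k _ z κ W _ ψ hgd x (hsub x hx)
    refine ⟨?_, b3, b4⟩
    have b5 : (1 : ℝ) ≤ ((n : ℝ) + k + 1) ^ (3 / 10 : ℝ) :=
      Real.one_le_rpow hN1 (by norm_num)
    refine (h1 x ((Metric.closedBall_subset_closedBall (by linarith)).trans
      (hsub x hx))).trans ?_
    exact mul_le_mul_of_nonneg_left (by linarith) hD10
  have hKR : K * R ^ (9 / 10 : ℝ) ≤ R / 4 := by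
    have b1 : 4 * K ≤ R ^ (1 / 10 : ℝ) := by
      have b2 : ((4 * K) ^ 10) ^ (1 / 10 : ℝ) ≤ R ^ (1 / 10 : ℝ) :=
        Real.rpow_le_rpow hK10 (c7.trans hCR) (by norm_num)
      rw [← Real.rpow_natCast (4 * K) 10, ← Real.rpow_mul (by positivity)] at b2
      norm_num at b2
      exact b2
    have b3 : 0 < R ^ (9 / 10 : ℝ) := Real.rpow_pos_of_pos hR0 _
    have b4 : R ^ (9 / 10 : ℝ) * R ^ (1 / 10 : ℝ) = R := by
      rw [← Real.rpow_add hR0]
      norm_num
    nlinarith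
  refine ⟨fun x hx => (h1 x hx).trans ?_, fun r hr => (h2 r hr).2.trans ?_, fun x hx => ?_,
    fun t ht => ?_⟩
  · have a4 : 0 ≤ mean ψ (fun p => near p x) := mean_nonneg fun _ p _ => near_nn p x
    exact mul_le_mul_of_nonneg_right c2 (by linarith)
  · exact mul_le_mul_of_nonneg_right c3 (by positivity)
  · have b3 : 0 < R ^ (9 / 10 : ℝ) := Real.rpow_pos_of_pos hR0 _
    have b4 := mul_le_mul_of_nonneg_right c6 b3.le
    obtain ⟨d1, _, d3⟩ := h3 x (by linarith)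
    exact ⟨d1.trans c4, d3.trans c5⟩
  · have b1 := hsphB q n k R hR z hz0 hneu ψ hS hm hShB
      (fun v hv => h3 v (by linarith)) h1 h2 t ht
    unfold Ph at b1
    rw [mM1] at b1
    exact b1.trans c8

end H6.CL
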