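import Pool.Agent.H6.CL.Defs
import Pool.Agent.H6.CB.UG

/-! The long range part `KL χ x = cH χ * ∫ t in 0..1, HH χ (t • x)` of the Coulomb kernel. `HH χ` is the convolution of two smooth compactly supported functions: smooth, nonnegative, `0` for `1 ≤ ‖x‖` (both factors are supported in the ball of radius `1/2`), radial (a linear isometry of `E3` taking `x` to `y`, e.g. a reflection, preserves the measure and `χ`), positive at `0` (`∫ χ ^ 2 = 1`). `HH_int`: `HH χ (t • x) = HH χ (single 0 (t * ‖x‖))` and a change of variables. `KL_smooth`: differentiate under the integral over the compact interval `[0, 1]`, by induction: for every `m` and every smooth `H : E3 → F` with compact support `x ↦ ∫ t in 0..1, t ^ m • H (t • x)` is `C^N` for all `N`, with derivative `∫ t in 0..1, t ^ (m + 1) • fderiv H (t • x)` (`contDiff_infty_iff_fderiv`, `hasFDerivAt_integral_of_dominated_of_fderiv_le`). `KL_out`: `HH χ (t • x) = 0` for `1 ≤ t * ‖x‖`. -/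

open MeasureTheory Finset

namespace H6.CL

open H6.CM H6.CB

variable {χ : E3 → ℝ} (h : Bump χ)
include h

private theorem kdef_cont : Continuous χ := h.smooth.continuous

private theorem kdef_cpt : HasCompactSupport (fun w => χ w ^ 2) := by
  refine HasCompactSupport.intro (isCompact_closedBall (0 : E3) (1 / 2)) fun w hw => ?_
  have h0 : χ w = 0 := by
    by_contra h0
    apply hw
    rw [Metric.mem_closedBall, dist_zero_right]
    exact (h.supp w h0).le
  simp only [h0]
  norm_num

private theorem kdef_conv (x : E3) : HH χ x = MeasureTheory.convolution (fun w => χ w ^ 2)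
    (fun w => χ w ^ 2) (ContinuousLinearMap.mul ℝ ℝ) volume x := by
  unfold HH
  rw [← integral_neg_eq_self (μ := volume) (fun c => χ c ^ 2 * χ (c + x) ^ 2)]
  refine integral_congr_ae (Filter.Eventually.of_forall fun c => ?_)
  simp only [ContinuousLinearMap.mul_apply']
  rw [h.radial (-c) c (norm_neg c)]
  congr 3
  abel

theorem HH_smooth : ContDiff ℝ (⊤ : ℕ∞) (HH χ) := by
  have hsm : ContDiff ℝ (⊤ : ℕ∞) (fun w => χ w ^ 2) := h.smooth.pow 2
  have hloc : LocallyIntegrable (fun w => χ w ^ 2) (volume : Measure E3) :=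
    hsm.continuous.locallyIntegrable
  have h1 := (kdef_cpt h).contDiff_convolution_left (ContinuousLinearMap.mul ℝ ℝ) hsm hloc
  have h2 : HH χ = MeasureTheory.convolution (fun w => χ w ^ 2) (fun w => χ w ^ 2)
      (ContinuousLinearMap.mul ℝ ℝ) volume := by
    funext x
    exact kdef_conv h x
  rw [h2]
  exact h1

omit h in
theorem HH_nonneg (x : E3) : 0 ≤ HH χ x := by
  unfold HH
  exact integral_nonneg fun c => mul_nonneg (sq_nonneg _) (sq_nonneg _)

theorem HH_zero (x : E3) (hx : 1 ≤ ‖x‖) : HH χ x = 0 := by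
  unfold HH
  have h1 : ∀ c, χ c ^ 2 * χ (c + x) ^ 2 = 0 := by
    intro c
    by_cases h1 : χ c = 0
    · rw [h1]
      norm_num
    · by_cases h2 : χ (c + x) = 0
      · rw [h2]
        norm_num
      · exfalso
        have h3 := h.supp c h1
        have h4 := h.supp (c + x) h2
        have h5 : ‖x‖ ≤ ‖c + x‖ + ‖c‖ := by
          have := norm_sub_le (c + x) c
          rwa [add_sub_cancel_left] at this
        linarith
  simp only [h1, integral_zero]

theorem HH_radial (x y : E3) (hxy : ‖x‖ = ‖y‖) : HH χ x = HH χ y := by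
  have hT : (Submodule.reflection (ℝ ∙ (x - y))ᗮ) x = y := Submodule.reflection_sub hxy
  set T : E3 ≃ₗᵢ[ℝ] E3 := Submodule.reflection (ℝ ∙ (x - y))ᗮ with hTdef
  unfold HH
  rw [← (LinearIsometryEquiv.measurePreserving T).integral_comp
    T.toMeasurableEquiv.measurableEmbedding (fun c => χ c ^ 2 * χ (c + y) ^ 2)]
  refine integral_congr_ae (Filter.Eventually.of_forall fun c => ?_)
  simp only
  rw [← hT, ← map_add, h.radial (T c) c (T.norm_map c),
    h.radial (T (c + x)) (c + x) (T.norm_map (c + x))]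

private theorem kdef_line (x : E3) : Continuous (fun t : ℝ => HH χ (t • x)) :=
  (HH_smooth h).continuous.comp (continuous_id.smul continuous_const)

private theorem kdef_norm (x : E3) (t : ℝ) :
    HH χ (t • x) = HH χ (EuclideanSpace.single 0 (t * ‖x‖)) := by
  refine HH_radial h _ _ ?_
  rw [norm_smul, PiLp.norm_single, norm_mul, norm_norm]

private theorem kdef_lineInt (x : E3) (hx : x ≠ 0) :
    Integrable (fun t : ℝ => HH χ (t • x)) := by
  refine (kdef_line h x).integrable_of_hasCompactSupport ?_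
  refine HasCompactSupport.intro (isCompact_closedBall (0 : ℝ) (‖x‖⁻¹)) fun t ht => ?_
  rw [Metric.mem_closedBall, dist_zero_right, not_le] at ht
  refine HH_zero h _ ?_
  rw [norm_smul]
  have hx0 : 0 < ‖x‖ := norm_pos_iff.2 hx
  have := mul_le_mul_of_nonneg_right ht.le hx0.le
  rwa [inv_mul_cancel₀ hx0.ne'] at this

omit h in
private theorem kdef_single (t : ℝ) :
    t • (EuclideanSpace.single 0 1 : E3) = EuclideanSpace.single 0 t := by
  ext i
  by_cases hi : i = 0
  · subst hi
    simp
  · simp [hi]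

private theorem kdef_pos0 : 0 < HH χ 0 := by
  have h0 : ∀ c, χ c ^ 2 * χ (c + 0) ^ 2 = (χ c ^ 2) ^ 2 := by
    intro c
    rw [add_zero]
    ring
  unfold HH
  simp only [h0]
  refine lt_of_le_of_ne (integral_nonneg fun c => sq_nonneg _) fun hne => ?_
  have hi : Integrable (fun c => (χ c ^ 2) ^ 2) := by
    refine (((kdef_cont h).pow 2).pow 2).integrable_of_hasCompactSupport ?_
    have := (kdef_cpt h).comp_left (g := fun u : ℝ => u ^ 2) (by norm_num)
    exact this
  have h1 := (integral_eq_zero_iff_of_nonneg (fun c => sq_nonneg _) hi).1 hne.symm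
  have h2 : ∫ v, χ v ^ 2 = 0 := by
    rw [← integral_zero E3 ℝ]
    refine integral_congr_ae ?_
    filter_upwards [h1] with c hc
    simp only [Pi.zero_apply] at hc
    exact pow_eq_zero_iff (two_ne_zero) |>.1 hc
  rw [h.norm] at h2
  exact one_ne_zero h2

private theorem kdef_ipos : 0 < ∫ t in Set.Ioi (0 : ℝ), HH χ (EuclideanSpace.single 0 t) := by
  have he : (EuclideanSpace.single 0 1 : E3) ≠ 0 := by
    intro h0
    have := congrArg norm h0
    rw [PiLp.norm_single, norm_zero] at this
    norm_num at this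
  have hc := kdef_line h (EuclideanSpace.single 0 1 : E3)
  have hi := kdef_lineInt h (EuclideanSpace.single 0 1 : E3) he
  simp only [kdef_single] at hc hi
  rw [setIntegral_pos_iff_support_of_nonneg_ae
    (Filter.Eventually.of_forall fun t => HH_nonneg _) hi.integrableOn]
  have hop : IsOpen (Function.support (fun t : ℝ => HH χ (EuclideanSpace.single 0 t)) ∩
      Set.Ioi 0) := (hc.isOpen_support).inter isOpen_Ioi
  refine hop.measure_pos volume ?_
  have h0 : (0 : ℝ) ∈ Function.support (fun t : ℝ => HH χ (EuclideanSpace.single 0 t)) := by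
    rw [Function.mem_support]
    have : (EuclideanSpace.single 0 (0 : ℝ) : E3) = 0 := by
      rw [← kdef_single, zero_smul]
    rw [this]
    exact (kdef_pos0 h).ne'
  obtain ⟨ε, hε, hb⟩ := Metric.isOpen_iff.1 hc.isOpen_support 0 h0
  refine ⟨ε / 2, hb ?_, ?_⟩
  · rw [Metric.mem_ball, dist_zero_right, Real.norm_eq_abs, abs_of_pos (by linarith)]
    linarith
  · rw [Set.mem_Ioi]
    linarith

theorem cH_pos : 0 < cH χ := by
  unfold cH
  exact inv_pos.2 (kdef_ipos h)

theorem HH_int (x : E3) (hx : x ≠ 0) : IntegrableOn (fun t : ℝ => HH χ (t • x)) (Set.Ioi 0) ∧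
    cH χ * ∫ t in Set.Ioi (0 : ℝ), HH χ (t • x) = ‖x‖⁻¹ := by
  refine ⟨(kdef_lineInt h x hx).integrableOn, ?_⟩
  have hx0 : 0 < ‖x‖ := norm_pos_iff.2 hx
  simp only [kdef_norm h x]
  rw [integral_comp_mul_right_Ioi (fun t : ℝ => HH χ (EuclideanSpace.single 0 t)) 0 hx0,
    zero_mul, smul_eq_mul]
  unfold cH
  have := (kdef_ipos h).ne'
  field_simp

omit h in
private theorem kdef_diff {F : Type} [NormedAddCommGroup F] [NormedSpace ℝ F] (H : E3 → F)
    (hH : ContDiff ℝ (⊤ : ℕ∞) H) (m : ℕ) (x : E3) :
    HasFDerivAt (fun x : E3 => ∫ t in (0 : ℝ)..1, t ^ m • H (t • x))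
      (∫ t in (0 : ℝ)..1, t ^ (m + 1) • fderiv ℝ H (t • x)) x := by
  have hc : Continuous H := hH.continuous
  have hc1 : Continuous (fderiv ℝ H) := hH.continuous_fderiv (by simp)
  obtain ⟨C, hC⟩ := (isCompact_closedBall (0 : E3) (‖x‖ + 1)).exists_bound_of_continuousOn
    hc1.continuousOn
  refine intervalIntegral.hasFDerivAt_integral_of_dominated_of_fderiv_le
    (F := fun x t => t ^ m • H (t • x)) (F' := fun x t => t ^ (m + 1) • fderiv ℝ H (t • x))
    (bound := fun _ => C) (Metric.ball_mem_nhds x one_pos) ?_ ?_ ?_ ?_ ?_ ?_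
  · refine Filter.Eventually.of_forall fun y => Continuous.aestronglyMeasurable ?_
    exact (continuous_id.pow m).smul (hc.comp (continuous_id.smul continuous_const))
  · refine Continuous.intervalIntegrable ?_ _ _
    exact (continuous_id.pow m).smul (hc.comp (continuous_id.smul continuous_const))
  · refine Continuous.aestronglyMeasurable ?_
    exact (continuous_id.pow (m + 1)).smul (hc1.comp (continuous_id.smul continuous_const))
  · refine Filter.Eventually.of_forall fun t ht y hy => ?_
    rw [Set.uIoc_of_le zero_le_one, Set.mem_Ioc] at ht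
    have hy1 : ‖y‖ ≤ ‖x‖ + 1 := by
      have h1 : ‖y - x‖ < 1 := by
        rwa [Metric.mem_ball, dist_eq_norm] at hy
      have h2 : ‖y‖ ≤ ‖y - x‖ + ‖x‖ := by
        have := norm_add_le (y - x) x
        rwa [sub_add_cancel] at this
      linarith
    have hmem : t • y ∈ Metric.closedBall (0 : E3) (‖x‖ + 1) := by
      rw [Metric.mem_closedBall, dist_zero_right, norm_smul, Real.norm_eq_abs, abs_of_pos ht.1]
      have := mul_le_mul_of_nonneg_right ht.2 (norm_nonneg y)
      linarith
    have h3 := hC _ hmem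
    rw [norm_smul, norm_pow, Real.norm_eq_abs, abs_of_pos ht.1]
    have h4 : t ^ (m + 1) ≤ 1 := pow_le_one₀ ht.1.le ht.2
    calc t ^ (m + 1) * ‖fderiv ℝ H (t • y)‖ ≤ 1 * ‖fderiv ℝ H (t • y)‖ :=
          mul_le_mul_of_nonneg_right h4 (norm_nonneg _)
      _ ≤ C := by rw [one_mul]; exact h3
  · exact intervalIntegrable_const
  · refine Filter.Eventually.of_forall fun t _ y _ => ?_
    have h1 : HasFDerivAt H (fderiv ℝ H (t • y)) (t • y) :=
      (hH.differentiable (by simp)).differentiableAt.hasFDerivAt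
    have h2 : HasFDerivAt (fun v : E3 => t • v) (t • ContinuousLinearMap.id ℝ E3) y :=
      (hasFDerivAt_id y).const_smul t
    have h3 := (h1.comp y h2).const_smul (t ^ m)
    have h4 : t ^ (m + 1) • fderiv ℝ H (t • y) =
        t ^ m • ((fderiv ℝ H (t • y)).comp (t • ContinuousLinearMap.id ℝ E3)) := by
      rw [ContinuousLinearMap.comp_smul, ContinuousLinearMap.comp_id, smul_smul, pow_succ]
    rw [h4]
    exact h3

omit h in
private theorem kdef_smooth (N : ℕ) : ∀ {F : Type} [NormedAddCommGroup F] [NormedSpace ℝ F]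
    (H : E3 → F) (_ : ContDiff ℝ (⊤ : ℕ∞) H) (m : ℕ),
    ContDiff ℝ N (fun x : E3 => ∫ t in (0 : ℝ)..1, t ^ m • H (t • x)) := by
  induction N with
  | zero =>
    intro F _ _ H hH m
    rw [Nat.cast_zero, contDiff_zero]
    have hc : Continuous H := hH.continuous
    refine intervalIntegral.continuous_parametric_intervalIntegral_of_continuous' ?_ 0 1
    exact (continuous_snd.pow m).smul (hc.comp (continuous_snd.smul continuous_fst))
  | succ N ih =>
    intro F _ _ H hH m
    rw [Nat.cast_succ, contDiff_succ_iff_fderiv]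
    refine ⟨fun x => (kdef_diff H hH m x).differentiableAt, fun hN => ?_, ?_⟩
    · exact absurd hN (by simp)
    · have h1 : fderiv ℝ (fun x : E3 => ∫ t in (0 : ℝ)..1, t ^ m • H (t • x)) =
          fun x => ∫ t in (0 : ℝ)..1, t ^ (m + 1) • fderiv ℝ H (t • x) := by
        funext x
        exact (kdef_diff H hH m x).fderiv
      rw [h1]
      exact ih (fderiv ℝ H) (contDiff_infty_iff_fderiv.1 hH).2 (m + 1)

theorem KL_smooth : ContDiff ℝ (⊤ : ℕ∞) (KL χ) := by
  have h1 : ContDiff ℝ (⊤ : ℕ∞) (fun x : E3 => ∫ t in (0 : ℝ)..1, HH χ (t • x)) := by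
    rw [contDiff_infty]
    intro N
    have := kdef_smooth N (HH χ) (HH_smooth h) 0
    simpa only [pow_zero, one_smul] using this
  exact contDiff_const.mul h1

theorem KL_out (x : E3) (hx : 1 ≤ ‖x‖) : KL χ x = ‖x‖⁻¹ := by
  have hx0 : x ≠ 0 := by
    rintro rfl
    rw [norm_zero] at hx
    linarith
  rw [← (HH_int h x hx0).2]
  unfold KL
  rw [intervalIntegral.integral_of_le zero_le_one]
  congr 1
  symm
  refine setIntegral_eq_of_subset_of_forall_sdiff_eq_zero measurableSet_Ioi
    Set.Ioc_subset_Ioi_self fun t ht => ?_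
  have ht1 : 1 < t := by
    by_contra hn
    exact ht.2 ⟨ht.1, not_lt.1 hn⟩
  refine HH_zero h _ ?_
  rw [norm_smul, Real.norm_eq_abs, abs_of_pos (by linarith)]
  nlinarith

theorem KL_nonneg (x : E3) : 0 ≤ KL χ x := by
  unfold KL
  refine mul_nonneg (cH_pos h).le ?_
  exact intervalIntegral.integral_nonneg zero_le_one fun t _ => HH_nonneg _

theorem KL_bd : ∃ C : ℝ, 0 ≤ C ∧ ∀ x : E3, KL χ x ≤ C := by
  obtain ⟨C0, hC0⟩ := (isCompact_closedBall (0 : E3) 1).exists_bound_of_continuousOn
    (HH_smooth h).continuous.continuousOn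
  have hb : ∀ x, HH χ x ≤ max C0 0 := by
    intro x
    rcases le_or_gt ‖x‖ 1 with hx | hx
    · have := hC0 x (by rw [Metric.mem_closedBall, dist_zero_right]; exact hx)
      exact ((le_abs_self _).trans this).trans (le_max_left _ _)
    · rw [HH_zero h x hx.le]
      exact le_max_right _ _
  refine ⟨cH χ * max C0 0, mul_nonneg (cH_pos h).le (le_max_right _ _), fun x => ?_⟩
  unfold KL
  refine mul_le_mul_of_nonneg_left ?_ (cH_pos h).le
  have h1 : ∫ t in (0 : ℝ)..1, HH χ (t • x) ≤ ∫ _t in (0 : ℝ)..1, max C0 0 := by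
    refine intervalIntegral.integral_mono_on zero_le_one
      ((kdef_line h x).intervalIntegrable _ _) intervalIntegrable_const fun t _ => hb _
  rwa [intervalIntegral.integral_const, sub_zero, one_smul] at h1

theorem KS_int (x : E3) (hx : x ≠ 0) : IntegrableOn (fun t : ℝ => HH χ (t • x)) (Set.Ioi 1) ∧
    KS χ x = cH χ * ∫ t in Set.Ioi (1 : ℝ), HH χ (t • x) := by
  have hi := kdef_lineInt h x hx
  refine ⟨hi.integrableOn, ?_⟩
  unfold KS
  rw [← (HH_int h x hx).2]
  unfold KL
  rw [intervalIntegral.integral_of_le zero_le_one, ← Set.Ioc_union_Ioi_eq_Ioi zero_le_one,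
    setIntegral_union (Set.Ioc_disjoint_Ioi le_rfl) measurableSet_Ioi hi.integrableOn
      hi.integrableOn]
  ring

theorem KL_le (x : E3) (hx : x ≠ 0) : KL χ x ≤ ‖x‖⁻¹ := by
  have h1 := (KS_int h x hx).2
  have h2 : 0 ≤ KS χ x := by
    rw [h1]
    refine mul_nonneg (cH_pos h).le ?_
    exact integral_nonneg fun t => HH_nonneg _
  unfold KS at h2
  linarith

theorem KL_neg (x : E3) : KL χ (-x) = KL χ x := by
  unfold KL
  congr 1
  refine intervalIntegral.integral_congr fun t _ => ?_
  refine HH_radial h _ _ ?_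
  rw [smul_neg, norm_neg]

end H6.CL
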