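import Pool.Agent.H6.CL.KDef
import Pool.Agent.H6.CB.Poten

/-! Positivity of both parts of the Coulomb form. For every `t`: `∫∫ f x * f y * HH χ (t • (y - x)) = ∫ c, (∫ x, f x * χ (c + t • x) ^ 2) ^ 2 ≥ 0` (Fubini and the translation `c ↦ c + t • x`; everything is continuous with compact support). Integrate over `t ∈ (0, 1)` (`KL`) and over `t ∈ (1, ∞)` (`KS_int`; `Dd f f - Dl χ f f = ∫∫ f x * f y * KS χ (x - y)`, `0 ≤ KS χ x ≤ ‖x‖⁻¹`, `Dd_int`, and for the integrability in `t` use `KS_int` with `|f x| * |f y|` and Fubini for nonnegative functions). -/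

open MeasureTheory Finset

namespace H6.CL

open H6.CM H6.CB

variable {χ : E3 → ℝ} (h : Bump χ)
include h

omit h in
private theorem kpos_prod (f g : E3 → ℝ) (hf : Cc f) (hg : Cc g) (K : E3 × E3 → ℝ)
    (hK : Continuous K) : Integrable (fun u : E3 × E3 => f u.1 * g u.2 * K u) := by
  have hc : Continuous (fun u : E3 × E3 => f u.1 * g u.2 * K u) :=
    ((hf.1.continuous.comp continuous_fst).mul (hg.1.continuous.comp continuous_snd)).mul hK
  refine hc.integrable_of_hasCompactSupport ?_
  refine HasCompactSupport.intro (hf.2.isCompact.prod hg.2.isCompact) ?_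
  intro u hu
  rw [Set.mem_prod, not_and_or] at hu
  rcases hu with hu | hu
  · rw [image_eq_zero_of_notMem_tsupport hu, zero_mul, zero_mul]
  · rw [image_eq_zero_of_notMem_tsupport hu, mul_zero, zero_mul]

theorem Dl_int (f g : E3 → ℝ) (hf : Cc f) (hg : Cc g) :
    Integrable (fun u : E3 × E3 => f u.1 * g u.2 * KL χ (u.1 - u.2)) ∧
    Dl χ f g = ∫ u : E3 × E3, f u.1 * g u.2 * KL χ (u.1 - u.2) := by
  have h1 := kpos_prod f g hf hg (fun u => KL χ (u.1 - u.2))
    ((KL_smooth h).continuous.comp (continuous_fst.sub continuous_snd))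
  refine ⟨h1, ?_⟩
  have h3 : (∫ u : E3 × E3, f u.1 * g u.2 * KL χ (u.1 - u.2)) =
      ∫ x : E3, ∫ y : E3, f x * g y * KL χ (x - y) := integral_prod _ h1
  rw [h3]
  unfold Dl
  congr 1
  funext x
  rw [← integral_const_mul]
  congr 1
  funext y
  ring

theorem Dl_symm (f g : E3 → ℝ) (hf : Cc f) (hg : Cc g) : Dl χ f g = Dl χ g f := by
  rw [(Dl_int h f g hf hg).2, (Dl_int h g f hg hf).2]
  have h1 := integral_prod_swap (μ := (volume : Measure E3)) (ν := (volume : Measure E3))
    (fun u : E3 × E3 => f u.1 * g u.2 * KL χ (u.1 - u.2))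
  refine h1.symm.trans ?_
  refine integral_congr_ae (Filter.Eventually.of_forall fun u => ?_)
  simp only [Prod.fst_swap, Prod.snd_swap]
  rw [← neg_sub u.1 u.2, KL_neg h]
  ring

omit h in
private theorem kpos_add (f g : E3 → ℝ) (hf : Cc f) (hg : Cc g) : Cc (fun x => f x + g x) :=
  ⟨hf.1.add hg.1, hf.2.add hg.2⟩

theorem Dl_add (f g w : E3 → ℝ) (hf : Cc f) (hg : Cc g) (hw : Cc w) :
    Dl χ (fun x => f x + g x) w = Dl χ f w + Dl χ g w := by
  rw [(Dl_int h f w hf hw).2, (Dl_int h g w hg hw).2, (Dl_int h _ w (kpos_add f g hf hg) hw).2,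
    ← integral_add (Dl_int h f w hf hw).1 (Dl_int h g w hg hw).1]
  congr 1
  funext u
  ring

private theorem kpos_key (f : E3 → ℝ) (hf : Cc f) (t : ℝ) :
    0 ≤ ∫ u : E3 × E3, f u.1 * f u.2 * HH χ (t • (u.1 - u.2)) := by
  have h1 : ∀ u : E3 × E3, HH χ (t • (u.1 - u.2)) =
      ∫ c, χ (c + t • u.2) ^ 2 * χ (c + t • u.1) ^ 2 := by
    intro u
    unfold HH
    rw [← integral_add_right_eq_self (fun c => χ c ^ 2 * χ (c + t • (u.1 - u.2)) ^ 2) (t • u.2)]
    congr 1
    funext c
    have e : c + t • u.2 + t • (u.1 - u.2) = c + t • u.1 := by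
      rw [smul_sub]
      abel
    rw [e]
  set G : (E3 × E3) × E3 → ℝ := fun w =>
    f w.1.1 * f w.1.2 * (χ (w.2 + t • w.1.2) ^ 2 * χ (w.2 + t • w.1.1) ^ 2) with hG
  have hχ : Continuous χ := h.smooth.continuous
  have hfc : Continuous f := hf.1.continuous
  have hGc : Continuous G := by
    rw [hG]
    fun_prop
  have hGs : HasCompactSupport G := by
    obtain ⟨R, hR0, hR⟩ := hf.2.isCompact.isBounded.subset_closedBall_lt 0 (0 : E3)
    refine HasCompactSupport.intro ((hf.2.isCompact.prod hf.2.isCompact).prod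
      (isCompact_closedBall (0 : E3) (1 / 2 + |t| * R))) ?_
    intro w hw
    by_contra hne
    apply hw
    have e1 : f w.1.1 ≠ 0 := by
      intro h0
      apply hne
      simp only [hG]
      rw [h0, zero_mul, zero_mul]
    have e2 : f w.1.2 ≠ 0 := by
      intro h0
      apply hne
      simp only [hG]
      rw [h0, mul_zero, zero_mul]
    have e3 : χ (w.2 + t • w.1.2) ≠ 0 := by
      intro h0
      apply hne
      simp only [hG]
      rw [h0]
      ring
    have e4 : w.1.2 ∈ tsupport f := subset_tsupport f e2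
    have e5 := h.supp _ e3
    have e6 : ‖w.1.2‖ ≤ R := by
      have := hR e4
      rwa [mem_closedBall_zero_iff] at this
    refine ⟨⟨subset_tsupport f e1, e4⟩, ?_⟩
    rw [mem_closedBall_zero_iff]
    have e7 : ‖w.2‖ ≤ ‖w.2 + t • w.1.2‖ + ‖t • w.1.2‖ := by
      have := norm_sub_le (w.2 + t • w.1.2) (t • w.1.2)
      rwa [add_sub_cancel_right] at this
    rw [norm_smul, Real.norm_eq_abs] at e7
    have e8 : |t| * ‖w.1.2‖ ≤ |t| * R := mul_le_mul_of_nonneg_left e6 (abs_nonneg _)
    linarith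
  have hGi : Integrable G := hGc.integrable_of_hasCompactSupport hGs
  have h2 : (∫ u : E3 × E3, f u.1 * f u.2 * HH χ (t • (u.1 - u.2))) =
      ∫ u : E3 × E3, ∫ c : E3, G (u, c) := by
    refine integral_congr_ae (Filter.Eventually.of_forall fun u => ?_)
    simp only [hG]
    rw [h1, integral_const_mul]
  have h3 : (∫ u : E3 × E3, ∫ c : E3, G (u, c)) = ∫ c : E3, ∫ u : E3 × E3, G (u, c) :=
    integral_integral_swap (f := fun u c => G (u, c)) hGi
  rw [h2, h3]
  refine integral_nonneg fun c => ?_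
  have h4 : ∫ u : E3 × E3, G (u, c) = (∫ x, f x * χ (c + t • x) ^ 2) ^ 2 := by
    have h5 := integral_prod_mul (μ := (volume : Measure E3)) (ν := (volume : Measure E3))
      (fun x => f x * χ (c + t • x) ^ 2) (fun x => f x * χ (c + t • x) ^ 2)
    rw [sq, ← h5]
    refine integral_congr_ae (Filter.Eventually.of_forall fun u => ?_)
    simp only [hG]
    ring
  rw [Pi.zero_apply, h4]
  exact sq_nonneg _

private theorem kpos_gen (f : E3 → ℝ) (hf : Cc f) (S : Set ℝ) (K : E3 → ℝ)
    (hi : ∀ᵐ u : E3 × E3, IntegrableOn (fun t : ℝ => HH χ (t • (u.1 - u.2))) S ∧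
      K (u.1 - u.2) = cH χ * ∫ t in S, HH χ (t • (u.1 - u.2)))
    (hK : Integrable (fun u : E3 × E3 => f u.1 * f u.2 * K (u.1 - u.2))) :
    0 ≤ ∫ u : E3 × E3, f u.1 * f u.2 * K (u.1 - u.2) := by
  have hc := cH_pos h
  set G : (E3 × E3) × ℝ → ℝ := fun w => f w.1.1 * f w.1.2 * HH χ (w.2 • (w.1.1 - w.1.2)) with hG
  have hGc : Continuous G := by
    have h1 : Continuous (HH χ) := (HH_smooth h).continuous
    have h2 : Continuous f := hf.1.continuous
    rw [hG]
    fun_prop
  have hGi : Integrable G ((volume : Measure (E3 × E3)).prod (volume.restrict S)) := by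
    rw [integrable_prod_iff hGc.aestronglyMeasurable]
    constructor
    · filter_upwards [hi] with u hu
      simp only [hG]
      exact hu.1.const_mul (f u.1 * f u.2)
    · refine (hK.norm.const_mul (cH χ)⁻¹).congr ?_
      filter_upwards [hi] with u hu
      have e1 : ∀ t : ℝ, ‖G (u, t)‖ = ‖f u.1 * f u.2‖ * HH χ (t • (u.1 - u.2)) := by
        intro t
        simp only [hG]
        rw [norm_mul, Real.norm_of_nonneg (HH_nonneg _)]
      simp only [e1]
      rw [integral_const_mul, hu.2, norm_mul (f u.1 * f u.2), Real.norm_of_nonneg (mul_nonneg hc.le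
        (integral_nonneg fun t => HH_nonneg _))]
      field_simp
  have h2 : (∫ u : E3 × E3, f u.1 * f u.2 * K (u.1 - u.2)) =
      cH χ * ∫ u : E3 × E3, ∫ t in S, G (u, t) := by
    rw [← integral_const_mul]
    refine integral_congr_ae ?_
    filter_upwards [hi] with u hu
    simp only [hG]
    rw [hu.2, integral_const_mul]
    ring
  have h3 : (∫ u : E3 × E3, ∫ t in S, G (u, t)) = ∫ t in S, ∫ u : E3 × E3, G (u, t) :=
    integral_integral_swap (f := fun u t => G (u, t)) hGi
  rw [h2, h3]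
  exact mul_nonneg hc.le (integral_nonneg fun t => kpos_key h f hf t)

theorem Dl_nonneg (f : E3 → ℝ) (hf : Cc f) : 0 ≤ Dl χ f f := by
  rw [(Dl_int h f f hf hf).2]
  refine kpos_gen h f hf (Set.Ioc 0 1) (KL χ) ?_ (Dl_int h f f hf hf).1
  refine Filter.Eventually.of_forall fun u => ⟨?_, ?_⟩
  · have h1 : Continuous (fun t : ℝ => HH χ (t • (u.1 - u.2))) :=
      (HH_smooth h).continuous.comp (continuous_id.smul continuous_const)
    exact h1.integrableOn_Ioc
  · unfold KL
    rw [intervalIntegral.integral_of_le zero_le_one]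

omit h in
private theorem kpos_diag : ∀ᵐ u : E3 × E3, u.1 - u.2 ≠ 0 := by
  have hm : MeasurableSet {u : E3 × E3 | u.1 = u.2} :=
    measurableSet_eq_fun measurable_fst measurable_snd
  have h0 : (volume : Measure (E3 × E3)) {u : E3 × E3 | u.1 = u.2} = 0 := by
    rw [Measure.volume_eq_prod, Measure.measure_prod_null hm]
    refine Filter.Eventually.of_forall fun x => ?_
    have e : Prod.mk x ⁻¹' {u : E3 × E3 | u.1 = u.2} = {x} := by
      ext y
      simp only [Set.mem_preimage, Set.mem_setOf_eq, Set.mem_singleton_iff]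
      exact eq_comm
    simp only [Pi.zero_apply]
    rw [e]
    exact measure_singleton x
  rw [ae_iff]
  refine measure_mono_null (fun u hu => ?_) h0
  simp only [Set.mem_setOf_eq, ne_eq, not_not] at hu
  exact sub_eq_zero.1 hu

theorem Ds_nonneg (f : E3 → ℝ) (hf : Cc f) : Dl χ f f ≤ Dd f f := by
  have hl := Dl_int h f f hf hf
  have hd := Dd_int f f hf hf
  have e : ∀ u : E3 × E3, f u.1 * f u.2 * KS χ (u.1 - u.2) =
      f u.1 * f u.2 * ‖u.1 - u.2‖⁻¹ - f u.1 * f u.2 * KL χ (u.1 - u.2) := by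
    intro u
    unfold KS
    ring
  have hK : Integrable (fun u : E3 × E3 => f u.1 * f u.2 * KS χ (u.1 - u.2)) := by
    simp only [e]
    exact hd.1.sub hl.1
  have h1 := kpos_gen h f hf (Set.Ioi 1) (KS χ) (by
    filter_upwards [kpos_diag] with u hu
    exact KS_int h _ hu) hK
  have h2 : (∫ u : E3 × E3, f u.1 * f u.2 * KS χ (u.1 - u.2)) = Dd f f - Dl χ f f := by
    rw [hd.2, hl.2, ← integral_sub hd.1 hl.1]
    refine integral_congr_ae (Filter.Eventually.of_forall fun u => ?_)
    exact e u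
  linarith

end H6.CL
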