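import Pool.Agent.H6.CL.KDef
import Pool.Agent.H6.CB.Poten
import Pool.Agent.H6.CB.UG

/-! The long range part is the potential of a smooth density `ν` with compact support. The function `f = KL χ - UU χ 1` is smooth and vanishes for `1 ≤ ‖x‖` (`KL_out`, `UU_eq`), so `f x = pot (-(4 π)⁻¹ lap f) x` by `green`; and `UU χ 1 = pot μ` with `μ = χ ^ 2 * χ ^ 2` (convolution; `chr χ 1 = χ`, `UU_dbl`). Put `ν = μ - (4 π)⁻¹ lap f`; `∫ lap f = 0` (`ibp` with the constant function `1`), `∫ μ = 1`; `ν (-x) = ν x` because `χ` and `KL χ` are even. `KL_conv`: Fubini, `∫ y, f y * KL χ (x - y) = ∫ y, f y * ∫ w, ν w * ‖x - y - w‖⁻¹`. -/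

open MeasureTheory Finset

namespace H6.CL

open H6.CM H6.CB

section
variable {χ : E3 → ℝ} (h : Bump χ)

private theorem kp_one (w : E3) : chr χ 1 w = χ w := by
  unfold chr
  rw [Real.one_rpow, one_mul, inv_one, one_smul]

include h

private theorem kp_cpt : HasCompactSupport (fun w => χ w ^ 2) := by
  refine HasCompactSupport.intro (isCompact_closedBall (0 : E3) (1 / 2)) fun w hw => ?_
  have h0 : χ w = 0 := by
    by_contra h0
    apply hw
    rw [Metric.mem_closedBall, dist_zero_right]
    exact (h.supp w h0).le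
  simp only [h0]
  norm_num

private theorem kp_conv : HH χ = MeasureTheory.convolution (fun w => χ w ^ 2)
    (fun w => χ w ^ 2) (ContinuousLinearMap.mul ℝ ℝ) volume := by
  funext x
  unfold HH
  rw [← integral_neg_eq_self (μ := volume) (fun c => χ c ^ 2 * χ (c + x) ^ 2)]
  refine integral_congr_ae (Filter.Eventually.of_forall fun c => ?_)
  simp only [ContinuousLinearMap.mul_apply']
  rw [h.radial (-c) c (norm_neg c)]
  congr 3
  abel

private theorem kp_mass : ∫ v, HH χ v = 1 := by
  have hi : Integrable (fun w => χ w ^ 2) :=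
    (h.smooth.continuous.pow 2).integrable_of_hasCompactSupport (kp_cpt h)
  rw [kp_conv h, integral_convolution (ContinuousLinearMap.mul ℝ ℝ) hi hi, h.norm]
  simp

private theorem kp_HHcpt : HasCompactSupport (HH χ) := by
  refine HasCompactSupport.intro (isCompact_closedBall (0 : E3) 1) fun w hw => ?_
  refine HH_zero h w ?_
  rw [Metric.mem_closedBall, dist_zero_right, not_le] at hw
  exact hw.le

private theorem kp_UU (v : E3) : UU χ 1 v = pot (HH χ) v := by
  have hχ : Continuous χ := h.smooth.continuous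
  have hint : Integrable (fun p : E3 × E3 => (χ p.2 ^ 2 * χ (p.2 + p.1) ^ 2) * ‖v - p.1‖⁻¹) := by
    have hc : Continuous (fun p : E3 × E3 => χ p.2 ^ 2 * χ (p.2 + p.1) ^ 2) :=
      ((hχ.comp continuous_snd).pow 2).mul
        ((hχ.comp (continuous_snd.add continuous_fst)).pow 2)
    have hs : HasCompactSupport (fun p : E3 × E3 => χ p.2 ^ 2 * χ (p.2 + p.1) ^ 2) := by
      refine HasCompactSupport.intro ((isCompact_closedBall (0 : E3) 1).prod
        (isCompact_closedBall (0 : E3) 1)) fun p hp => ?_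
      by_cases h1 : χ p.2 = 0
      · rw [h1]
        norm_num
      · by_cases h2 : χ (p.2 + p.1) = 0
        · rw [h2]
          norm_num
        · exfalso
          apply hp
          have h3 := h.supp _ h1
          have h4 := h.supp _ h2
          have h5 : ‖p.1‖ ≤ ‖p.2 + p.1‖ + ‖p.2‖ := by
            have := norm_sub_le (p.2 + p.1) p.2
            rwa [add_sub_cancel_left] at this
          rw [Set.mem_prod, Metric.mem_closedBall, dist_zero_right, Metric.mem_closedBall,
            dist_zero_right]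
          constructor <;> linarith
    have h1 := intK ((volume : Measure E3).prod (volume : Measure E3)) (ContinuousLinearMap.fst ℝ E3 E3)
      (ContinuousLinearMap.inl ℝ E3 E3) (fun v => rfl) (-v) _ hc hs
    refine h1.congr (Filter.Eventually.of_forall fun p => ?_)
    simp only [ContinuousLinearMap.coe_fst']
    rw [mul_comm, neg_add_eq_sub, norm_sub_rev]
  have h1 : pot (HH χ) v = ∫ y, ∫ c, (χ c ^ 2 * χ (c + y) ^ 2) * ‖v - y‖⁻¹ := by
    unfold pot HH
    refine integral_congr_ae (Filter.Eventually.of_forall fun y => ?_)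
    exact (integral_mul_const _ _).symm
  rw [h1, integral_integral_swap hint]
  unfold UU
  rw [← integral_neg_eq_self (μ := volume) (fun w => chr χ 1 w ^ 2 * U (chr χ 1) (v - w))]
  refine integral_congr_ae (Filter.Eventually.of_forall fun c => ?_)
  simp only
  rw [kp_one, h.radial (-c) c (norm_neg c)]
  unfold U
  rw [← integral_const_mul, ← integral_add_left_eq_self _ c]
  refine integral_congr_ae (Filter.Eventually.of_forall fun y => ?_)
  simp only
  rw [kp_one, mul_assoc]
  congr 4
  abel

end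

private theorem kp_pd {f : E3 → ℝ} (hf : Cc f) (d : Fin 3) : Cc (pd d f) := by
  refine ⟨?_, ?_⟩
  · exact (hf.1.fderiv_right (m := (⊤ : ℕ∞)) (by simp)).clm_apply contDiff_const
  · exact hf.2.fderiv_apply ℝ _

private theorem kp_lap {f : E3 → ℝ} (hf : Cc f) : Cc (lap f) := by
  have h := fun d => kp_pd (kp_pd hf d) d
  have e : lap f = fun v => pd 0 (pd 0 f) v + pd 1 (pd 1 f) v + pd 2 (pd 2 f) v := by
    funext v
    unfold lap
    rw [Fin.sum_univ_three]
  rw [e]
  exact ⟨((h 0).1.add (h 1).1).add (h 2).1, ((h 0).2.add (h 1).2).add (h 2).2⟩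

private theorem kp_par (g : E3 → ℝ) (σ : ℝ) (hg : ∀ v, g (-v) = σ * g v)
    (hd : Differentiable ℝ g) (d : Fin 3) (v : E3) : pd d g (-v) = -σ * pd d g v := by
  have h1 : (fun v => g (-v)) = fun v => σ * g v := funext hg
  have h2 : HasFDerivAt (fun v => g (-v))
      ((fderiv ℝ g (-v)).comp (-(ContinuousLinearMap.id ℝ E3))) v :=
    (hd (-v)).hasFDerivAt.comp v (hasFDerivAt_id v).neg
  have h3 : HasFDerivAt (fun v => σ * g v) (σ • fderiv ℝ g v) v :=
    (hd v).hasFDerivAt.const_mul σ
  rw [h1] at h2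
  have h4 := congrArg (fun L : E3 →L[ℝ] ℝ => L (EuclideanSpace.single d 1)) (h2.unique h3)
  simp only [ContinuousLinearMap.comp_apply, _root_.neg_apply, _root_.smul_apply, smul_eq_mul,
    ContinuousLinearMap.coe_id', id_eq, map_neg] at h4
  unfold pd
  linarith

private theorem kp_even {f : E3 → ℝ} (hf : Cc f) (he : ∀ v, f (-v) = f v) (v : E3) :
    lap f (-v) = lap f v := by
  unfold lap
  refine sum_congr rfl fun d _ => ?_
  have h1 := kp_par f 1 (fun v => by rw [he, one_mul]) (hf.1.differentiable (by simp)) d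
  have h2 := kp_par (pd d f) (-1) h1 ((kp_pd hf d).1.differentiable (by simp)) d v
  rw [h2]
  ring

private theorem kp_int0 {f : E3 → ℝ} (hf : Cc f) : ∫ v, lap f v = 0 := by
  unfold lap
  rw [integral_finsetSum]
  · refine sum_eq_zero fun d _ => ?_
    have h1 := ibp d (fun _ => 1) (pd d f) contDiff_const (kp_pd hf d)
    simp only [one_mul] at h1
    rw [h1]
    have h2 : ∀ v, pd d (fun _ : E3 => (1 : ℝ)) v = 0 := by
      intro v
      unfold pd
      simp
    simp [h2]
  · intro d _
    have h1 := kp_pd (kp_pd hf d) d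
    exact h1.1.continuous.integrable_of_hasCompactSupport h1.2

private theorem kp_zero {f : E3 → ℝ} (h0 : ∀ v, 1 ≤ ‖v‖ → f v = 0) (v : E3) (hv : 1 < ‖v‖) :
    lap f v = 0 := by
  have hop : IsOpen {v : E3 | 1 < ‖v‖} := isOpen_lt continuous_const continuous_norm
  have h1 : ∀ (g : E3 → ℝ) (_ : ∀ v, 1 < ‖v‖ → g v = 0) (d : Fin 3) (v : E3) (_ : 1 < ‖v‖),
      pd d g v = 0 := by
    intro g hg d v hv
    have h2 : g =ᶠ[nhds v] fun _ => 0 := by
      filter_upwards [hop.mem_nhds hv] with w hw
      exact hg w hw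
    unfold pd
    rw [h2.fderiv_eq]
    simp
  unfold lap
  refine sum_eq_zero fun d _ => ?_
  exact h1 _ (h1 f (fun v hv => h0 v hv.le) d) d v hv

private theorem kp_potint (ρ : E3 → ℝ) (hρ : Cc ρ) (x : E3) :
    Integrable (fun y => ρ y * ‖x - y‖⁻¹) := by
  have h1 := intK (volume : Measure E3) (ContinuousLinearMap.id ℝ E3)
    (ContinuousLinearMap.id ℝ E3) (fun v => rfl) (-x) ρ hρ.1.continuous hρ.2
  refine h1.congr (Filter.Eventually.of_forall fun y => ?_)
  simp only [ContinuousLinearMap.coe_id', id_eq]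
  rw [mul_comm, neg_add_eq_sub, norm_sub_rev]

private theorem kp_fub (ν f : E3 → ℝ) (hν : Cc ν) (hf : Cc f) (x : E3) :
    ∫ y, f y * pot ν (x - y) = ∫ w, ν w * pot f (x - w) := by
  have hint : Integrable (fun p : E3 × E3 => (f p.1 * ν p.2) * ‖x - p.1 - p.2‖⁻¹) := by
    have hc : Continuous (fun p : E3 × E3 => f p.1 * ν p.2) :=
      (hf.1.continuous.comp continuous_fst).mul (hν.1.continuous.comp continuous_snd)
    have hs : HasCompactSupport (fun p : E3 × E3 => f p.1 * ν p.2) := by
      refine HasCompactSupport.intro (hf.2.isCompact.prod hν.2.isCompact) fun p hp => ?_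
      by_cases h1 : p.1 ∈ tsupport f
      · have h2 : p.2 ∉ tsupport ν := fun h2 => hp ⟨h1, h2⟩
        rw [image_eq_zero_of_notMem_tsupport h2, mul_zero]
      · rw [image_eq_zero_of_notMem_tsupport h1, zero_mul]
    have h1 := intK ((volume : Measure E3).prod (volume : Measure E3))
      (ContinuousLinearMap.fst ℝ E3 E3 + ContinuousLinearMap.snd ℝ E3 E3)
      (ContinuousLinearMap.inl ℝ E3 E3) (fun v => by simp) (-x) _ hc hs
    refine h1.congr (Filter.Eventually.of_forall fun p => ?_)
    simp only [_root_.add_apply, ContinuousLinearMap.coe_fst', ContinuousLinearMap.coe_snd']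
    rw [mul_comm, ← norm_neg (x - p.1 - p.2)]
    congr 3
    abel
  have h1 : ∫ y, f y * pot ν (x - y) = ∫ y, ∫ w, (f y * ν w) * ‖x - y - w‖⁻¹ := by
    refine integral_congr_ae (Filter.Eventually.of_forall fun y => ?_)
    unfold pot
    simp only
    rw [← integral_const_mul]
    refine integral_congr_ae (Filter.Eventually.of_forall fun w => ?_)
    simp only
    ring
  rw [h1, integral_integral_swap hint]
  refine integral_congr_ae (Filter.Eventually.of_forall fun w => ?_)
  unfold pot
  simp only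
  rw [← integral_const_mul]
  refine integral_congr_ae (Filter.Eventually.of_forall fun y => ?_)
  simp only
  rw [sub_right_comm]
  ring

theorem KL_pot {χ : E3 → ℝ} (h : Bump χ) : ∃ ν : E3 → ℝ, Cc ν ∧ (∀ v, ν v ≠ 0 → ‖v‖ ≤ 1) ∧
    (∀ v, ν (-v) = ν v) ∧ ∫ v, ν v = 1 ∧ (∀ x, KL χ x = pot ν x) ∧
    ∀ (f : E3 → ℝ) (_ : Cc f) (x : E3),
      ∫ y, f y * KL χ (x - y) = ∫ w, ν w * pot f (x - w) := by
  set f : E3 → ℝ := fun v => KL χ v - UU χ 1 v with hf
  have hf0 : ∀ v, 1 ≤ ‖v‖ → f v = 0 := by
    intro v hv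
    simp only [hf]
    rw [KL_out h v hv, UU_eq h 1 one_pos v hv, sub_self]
  have hfc : Cc f := by
    refine ⟨(KL_smooth h).sub (UU_smooth h 1 one_pos), ?_⟩
    refine HasCompactSupport.intro (isCompact_closedBall (0 : E3) 1) fun w hw => ?_
    refine hf0 w ?_
    rw [Metric.mem_closedBall, dist_zero_right, not_le] at hw
    exact hw.le
  have hfe : ∀ v, f (-v) = f v := by
    intro v
    simp only [hf]
    rw [KL_neg h, UU_neg h]
  have hHH : Cc (HH χ) := ⟨HH_smooth h, kp_HHcpt h⟩
  have hl := kp_lap hfc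
  have hg : Cc (fun v => (4 * Real.pi)⁻¹ * (-lap f v)) :=
    ⟨contDiff_const.mul hl.1.neg, hl.2.neg.mul_left⟩
  set ν : E3 → ℝ := fun v => HH χ v + (4 * Real.pi)⁻¹ * (-lap f v) with hν
  have hνc : Cc ν := ⟨hHH.1.add hg.1, hHH.2.add hg.2⟩
  have hKL : ∀ x, KL χ x = pot ν x := by
    intro x
    have h1 : pot ν x = pot (HH χ) x + f x := by
      unfold pot
      have e : ∀ y, ν y * ‖x - y‖⁻¹ = HH χ y * ‖x - y‖⁻¹ +
          (4 * Real.pi)⁻¹ * (-lap f y) * ‖x - y‖⁻¹ := fun y => by
        simp only [hν]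
        ring
      simp only [e]
      rw [integral_add (kp_potint _ hHH x) (kp_potint _ hg x)]
      congr 1
      simp only [mul_assoc]
      rw [integral_const_mul, green f hfc x]
      have := Real.pi_pos
      field_simp
    rw [h1, ← kp_UU h x]
    simp only [hf]
    ring
  refine ⟨ν, hνc, ?_, ?_, ?_, hKL, ?_⟩
  · intro v hv
    by_contra hn
    rw [not_le] at hn
    apply hv
    simp only [hν]
    rw [HH_zero h v hn.le, kp_zero hf0 v hn]
    simp
  · intro v
    simp only [hν]
    rw [kp_even hfc hfe, HH_radial h (-v) v (norm_neg v)]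
  · simp only [hν]
    rw [integral_add (hHH.1.continuous.integrable_of_hasCompactSupport hHH.2)
      (hg.1.continuous.integrable_of_hasCompactSupport hg.2), kp_mass h, integral_const_mul,
      integral_neg, kp_int0 hfc]
    simp
  · intro g hg x
    simp only [hKL]
    exact kp_fub ν g hνc hg x

end H6.CL
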