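import Pool.Agent.H6.CB.KSum
import Pool.Agent.H6.CL.Defs

/-! Relocation of every particle of the boundary layer with the weight `J ^ 2`: repeat the proof of `ksum` (file `Pool/Agent/H6/CB/KSum.lean`) with a general cutoff `J` with values in `[0, 1]` and `gr J ≤ L` (where `gr J v ≠ 0` one has `J v ≠ 0`, since `J ≥ 0` has a minimum where it vanishes). -/

open MeasureTheory Finset

namespace H6.CL

open H6.CM H6.CB

private theorem ksl_pr_cont {χ : E3 → ℝ} (hχ : Bump χ) {n k : ℕ} (W : Finset E3)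
    (z : Fin k → ℝ) : Continuous (fun p : Cfg n k => pr χ W z p) := by
  have hUc : Continuous (UU χ 1) := (UU_smooth hχ 1 one_pos).continuous
  unfold pr ph
  refine continuous_const.mul (continuous_finsetSum _ fun w _ => Continuous.sub ?_ ?_)
  · refine continuous_finsetSum _ fun l _ => continuous_const.mul (hUc.comp ?_)
    exact continuous_const.sub ((continuous_apply l).comp continuous_snd)
  · refine continuous_finsetSum _ fun a _ => hUc.comp ?_
    exact continuous_const.sub ((continuous_apply a).comp continuous_fst)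

private theorem ksl_gr0 (c : ℝ) (v : E3) : gr (fun _ => c) v = 0 := by
  unfold gr
  refine sum_eq_zero fun d _ => ?_
  simp

private theorem ksl_gmE {n k : ℕ} (κ : Fin k → ℝ) (J : E3 → ℝ) (a : Fin n) (p : Cfg n k) :
    Gm κ (fun p : Cfg n k => J (p.1 a)) p = gr J (p.1 a) := by
  unfold Gm
  have h1 : ∀ b ∈ (univ : Finset (Fin n)), b ≠ a →
      gr (fun v => J (Function.update p.1 b v a)) (p.1 b) = 0 := by
    intro b _ hb
    have e : (fun v => J (Function.update p.1 b v a)) = fun _ => J (p.1 a) := by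
      funext v
      rw [Function.update_of_ne hb.symm]
    rw [e]
    exact ksl_gr0 _ _
  rw [sum_eq_single_of_mem a (mem_univ a) h1]
  simp only [Function.update_self, ksl_gr0, mul_zero, sum_const_zero, add_zero]

private theorem ksl_gmN {n k : ℕ} (κ : Fin k → ℝ) (J : E3 → ℝ) (j : Fin k) (p : Cfg n k) :
    Gm κ (fun p : Cfg n k => J (p.2 j)) p = κ j * gr J (p.2 j) := by
  unfold Gm
  have h1 : ∀ l ∈ (univ : Finset (Fin k)), l ≠ j →
      κ l * gr (fun v => J (Function.update p.2 l v j)) (p.2 l) = 0 := by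
    intro l _ hl
    have e : (fun v => J (Function.update p.2 l v j)) = fun _ => J (p.2 j) := by
      funext v
      rw [Function.update_of_ne hl.symm]
    rw [e, ksl_gr0, mul_zero]
  rw [sum_eq_single_of_mem j (mem_univ j) h1]
  simp only [Function.update_self, ksl_gr0, sum_const_zero, zero_add]

/-- electrons outside of the ball -/
private noncomputable def ksl_e {n k : ℕ} (r : ℝ) (p : Cfg n k) : ℝ :=
  ∑ a, (if r < ‖p.1 a‖ then 1 else 0)

/-- nuclei outside of the ball -/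
private noncomputable def ksl_n {n k : ℕ} (r : ℝ) (p : Cfg n k) : ℝ :=
  ∑ j, (if r < ‖p.2 j‖ then 1 else 0)

private theorem ksl_e0 {n k : ℕ} (r : ℝ) (p : Cfg n k) : 0 ≤ ksl_e r p :=
  sum_nonneg fun a _ => by split_ifs <;> norm_num

private theorem ksl_n0 {n k : ℕ} (r : ℝ) (p : Cfg n k) : 0 ≤ ksl_n r p :=
  sum_nonneg fun a _ => by split_ifs <;> norm_num

private theorem ksl_ie {q n k : ℕ} {Λ : Set E3} {ψ : (Fin n → Fin q) → Cfg n k → ℂ}
    (h : Sm q n k Λ ψ) (r : ℝ) : IM ψ (fun p => ksl_e r p) := by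
  refine IM.bdd h ?_ n fun p => ?_
  · unfold ksl_e
    refine Finset.measurable_fun_sum _ fun a _ => ?_
    exact Measurable.ite (measurableSet_lt measurable_const (meas_e a).norm) measurable_const
      measurable_const
  · rw [abs_of_nonneg (ksl_e0 r p)]
    unfold ksl_e
    calc ∑ a, (if r < ‖p.1 a‖ then (1 : ℝ) else 0) ≤ ∑ _a : Fin n, (1 : ℝ) :=
          sum_le_sum fun a _ => by split_ifs <;> norm_num
      _ = n := by simp

private theorem ksl_in {q n k : ℕ} {Λ : Set E3} {ψ : (Fin n → Fin q) → Cfg n k → ℂ}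
    (h : Sm q n k Λ ψ) (r : ℝ) : IM ψ (fun p => ksl_n r p) := by
  refine IM.bdd h ?_ k fun p => ?_
  · unfold ksl_n
    refine Finset.measurable_fun_sum _ fun a _ => ?_
    exact Measurable.ite (measurableSet_lt measurable_const (meas_n a).norm) measurable_const
      measurable_const
  · rw [abs_of_nonneg (ksl_n0 r p)]
    unfold ksl_n
    calc ∑ a, (if r < ‖p.2 a‖ then (1 : ℝ) else 0) ≤ ∑ _a : Fin k, (1 : ℝ) :=
          sum_le_sum fun a _ => by split_ifs <;> norm_num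
      _ = k := by simp

theorem ksumL (q : ℕ) (κp L : ℝ) {χ : E3 → ℝ} (hχ : Bump χ) : ∃ C : ℝ, 0 ≤ C ∧
    ∀ (n k : ℕ) (Λ : Set E3) (z κ : Fin k → ℝ) (_ : ∀ j, 0 ≤ z j)
    (_ : ∀ j, 0 ≤ κ j ∧ κ j ≤ κp) (E ε : ℝ) (_ : 0 ≤ ε)
    (_ : LB q n k Λ z κ E) (ψ : (Fin n → Fin q) → Cfg n k → ℂ)
    (_ : St q n k Λ ψ) (_ : mass ψ = 1) (_ : energy z κ ψ ≤ E + ε)
    (A : ℝ) (_ : 0 ≤ A) (W : Finset E3) (_ : Rf A Λ W ψ)
    (J : E3 → ℝ) (_ : ContDiff ℝ (⊤ : ℕ∞) J) (_ : ∀ v, 0 ≤ J v ∧ J v ≤ 1)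
    (_ : ∀ v, gr J v ≤ L) (r : ℝ) (_ : ∀ v, J v ≠ 0 → r < ‖v‖),
    ∑ a, kE (mf (fun p => J (p.1 a)) ψ) a +
      ∑ j, κ j * kN (mf (fun p => J (p.2 j)) ψ) j +
      mean ψ (fun p => ∑ j, z j * (J (p.2 j) ^ 2 * (phiN z j p (p.2 j) - pr χ W z p)) -
        ∑ a, J (p.1 a) ^ 2 * (phiE z a p (p.1 a) - pr χ W z p)) ≤
      C * (1 + A) * mean ψ (fun p => shl r p) + 2 * (n + k + 1) * ε := by
  obtain ⟨C1, hC1, hej⟩ := ej hχ
  obtain ⟨C2, hC2, hnj⟩ := nj hχ
  obtain ⟨C3, hC3e⟩ : ∃ C3 : ℝ, C3 = |L| := ⟨_, rfl⟩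
  have hC3 : 0 ≤ C3 := by rw [hC3e]; exact abs_nonneg _
  refine ⟨C1 + C2 * |κp| + 2 * C3 * (1 + |κp|), by positivity, ?_⟩
  intro n k Λ z κ hz hκ E ε hε hLB ψ hψ hm hen A hA W hW J hJs hJ01 hJL r hJr
  have hsm := St_sm hψ
  have hκ0 : ∀ j, 0 ≤ κ j := fun j => (hκ j).1
  have hκ1 : ∀ j, κ j ≤ |κp| := fun j => (hκ j).2.trans (le_abs_self κp)
  have hJ2 : ∀ v, J v ^ 2 ≤ (if r < ‖v‖ then 1 else 0) := by
    intro v
    split_ifs with h
    · exact pow_le_one₀ (hJ01 v).1 (hJ01 v).2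
    · have h0 : J v = 0 := by
        by_contra h1
        exact h (hJr v h1)
      rw [h0]
      norm_num
  have hJgr : ∀ v, gr J v ≤ C3 * (if r < ‖v‖ then 1 else 0) := by
    intro v
    split_ifs with h
    · rw [mul_one, hC3e]
      exact (hJL v).trans (le_abs_self L)
    · have h0 : J v = 0 := by
        by_contra h1
        exact h (hJr v h1)
      have h2 : IsLocalMin J v := Filter.Eventually.of_forall fun w => by
        rw [h0]
        exact (hJ01 w).1
      rw [mul_zero]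
      unfold gr
      refine le_of_eq (sum_eq_zero fun d _ => ?_)
      rw [h2.fderiv_eq_zero]
      simp
  have hfE : ∀ a : Fin n, ContDiff ℝ (⊤ : ℕ∞) (fun p : Cfg n k => J (p.1 a)) := fun a =>
    hJs.comp ((contDiff_apply ℝ E3 a).comp contDiff_fst)
  have hfN : ∀ j : Fin k, ContDiff ℝ (⊤ : ℕ∞) (fun p : Cfg n k => J (p.2 j)) := fun j =>
    hJs.comp ((contDiff_apply ℝ E3 j).comp contDiff_snd)
  have hprc : Continuous (fun p : Cfg n k => pr χ W z p) := ksl_pr_cont hχ W z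
  -- electrons
  have hE1 : ∀ a : Fin n, kE (mf (fun p => J (p.1 a)) ψ) a -
      mean ψ (fun p => J (p.1 a) ^ 2 * phiE z a p (p.1 a)) +
      mean ψ (fun p => J (p.1 a) ^ 2 * pr χ W z p) ≤
      (energy z κ (mf (fun p => J (p.1 a)) ψ) - E * mass (mf (fun p => J (p.1 a)) ψ)) +
        C1 * (1 + A) * mean ψ (fun p => J (p.1 a) ^ 2) := by
    intro a
    have hsa : Sa q n k Λ a (mf (fun p => J (p.1 a)) ψ) :=
      mf_sa (St_sa hψ a) (hfE a) fun π hπ p => by
        show J (p.1 (π a)) = J (p.1 a)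
        rw [hπ]
    have h1 := hej q n k Λ z κ hz hκ0 E hLB a _ hsa A hA W (Rf_mf hW _)
    rw [mean_mf, mean_mf] at h1
    have h2 := mass_mf (ψ := ψ) (fun p => J (p.1 a))
    rw [← h2]
    exact h1
  have hN1 : ∀ j : Fin k, κ j * kN (mf (fun p => J (p.2 j)) ψ) j +
      z j * mean ψ (fun p => J (p.2 j) ^ 2 * phiN z j p (p.2 j)) -
      z j * mean ψ (fun p => J (p.2 j) ^ 2 * pr χ W z p) ≤
      (energy z κ (mf (fun p => J (p.2 j)) ψ) - E * mass (mf (fun p => J (p.2 j)) ψ)) +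
        C2 * κ j * mean ψ (fun p => J (p.2 j) ^ 2) := by
    intro j
    have hst : St q n k Λ (mf (fun p => J (p.2 j)) ψ) := mf_st hψ (hfN j) fun π p => rfl
    have h1 := hnj q n k Λ z κ hz hκ0 E hLB j _ hst A W (Rf_mf hW _)
    rw [mean_mf, mean_mf] at h1
    have h2 := mass_mf (ψ := ψ) (fun p => J (p.2 j))
    rw [← h2]
    exact h1
  -- the localisation bound
  have hM : 0 < (n : ℝ) + k + 1 := by positivity
  have hloc := locB hκ0 hLB hψ (ε := ε) (by rw [hm, mul_one]; exact hen)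
    (Sum.elim (fun (a : Fin n) (p : Cfg n k) => J (p.1 a)) (fun (j : Fin k) (p : Cfg n k) =>
      J (p.2 j))) (by
      rintro (a | j)
      · exact hfE a
      · exact hfN j) (by
      intro π p
      simp only [Fintype.sum_sum_type, Sum.elim_inl, Sum.elim_inr]
      congr 1
      exact Equiv.sum_comp π (fun a => J (p.1 a) ^ 2)) (Real.sqrt ((n : ℝ) + k + 1))
      (Real.sqrt_pos.2 hM) (by
      intro p
      rw [Real.sq_sqrt hM.le]
      simp only [Fintype.sum_sum_type, Sum.elim_inl, Sum.elim_inr]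
      have hb : ∀ v, J v ^ 2 ≤ 1 := fun v => (hJ2 v).trans (by split_ifs <;> norm_num)
      have h1 : ∑ a : Fin n, J (p.1 a) ^ 2 ≤ ∑ _a : Fin n, (1 : ℝ) :=
        sum_le_sum fun a _ => hb _
      have h2 : ∑ j : Fin k, J (p.2 j) ^ 2 ≤ ∑ _j : Fin k, (1 : ℝ) :=
        sum_le_sum fun j _ => hb _
      simp only [sum_const, card_univ, Fintype.card_fin, nsmul_eq_mul, mul_one] at h1 h2
      linarith)
  rw [Real.sq_sqrt hM.le] at hloc
  simp only [Fintype.sum_sum_type, Sum.elim_inl, Sum.elim_inr, ksl_gmE, ksl_gmN] at hloc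
  -- the gradient terms
  have hgc : Continuous (fun v => gr J v) := by
    unfold gr
    have h1 : Continuous (fderiv ℝ J) := hJs.continuous_fderiv (by simp)
    exact continuous_finsetSum _ fun d _ => ((h1.clm_apply continuous_const).pow 2)
  have hce := ksl_ie hsm r
  have hcn := ksl_in hsm r
  have hgm : mean ψ (fun p => ∑ a : Fin n, gr J (p.1 a) + ∑ j : Fin k, κ j * gr J (p.2 j)) ≤
      C3 * mean ψ (fun p => ksl_e r p) + C3 * |κp| * mean ψ (fun p => ksl_n r p) := by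
    rw [← mean_cmul, ← mean_cmul, ← mean_add (hce.cmul C3) (hcn.cmul (C3 * |κp|))]
    have hF : Continuous (fun p : Cfg n k => ∑ a : Fin n, gr J (p.1 a) +
        ∑ j : Fin k, κ j * gr J (p.2 j)) := by
      refine Continuous.add (continuous_finsetSum _ fun a _ => ?_)
        (continuous_finsetSum _ fun j _ => continuous_const.mul ?_)
      · exact hgc.comp ((continuous_apply a).comp continuous_fst)
      · exact hgc.comp ((continuous_apply j).comp continuous_snd)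
    refine mean_mono (IM.cont hsm hF) ((hce.cmul C3).add (hcn.cmul (C3 * |κp|))) fun σ p _ => ?_
    unfold ksl_e ksl_n
    rw [mul_sum, mul_sum]
    refine add_le_add (sum_le_sum fun a _ => hJgr _) (sum_le_sum fun j _ => ?_)
    have h1 : 0 ≤ gr J (p.2 j) := sum_nonneg fun d _ => sq_nonneg _
    calc κ j * gr J (p.2 j) ≤ |κp| * gr J (p.2 j) := mul_le_mul_of_nonneg_right (hκ1 j) h1
      _ ≤ |κp| * (C3 * (if r < ‖p.2 j‖ then 1 else 0)) :=
          mul_le_mul_of_nonneg_left (hJgr _) (abs_nonneg _)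
      _ = C3 * |κp| * (if r < ‖p.2 j‖ then 1 else 0) := by ring
  -- the masses
  have iE2 : ∀ a : Fin n, IM ψ (fun p => J (p.1 a) ^ 2) := fun a =>
    IM.cont hsm ((hfE a).continuous.pow 2)
  have iN2 : ∀ j : Fin k, IM ψ (fun p => J (p.2 j) ^ 2) := fun j =>
    IM.cont hsm ((hfN j).continuous.pow 2)
  have hmE : ∑ a : Fin n, mean ψ (fun p => J (p.1 a) ^ 2) ≤ mean ψ (fun p => ksl_e r p) := by
    rw [← mean_sum _ fun a _ => iE2 a]
    refine mean_mono (IM.sum _ fun a _ => iE2 a) hce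
      fun σ p _ => ?_
    exact sum_le_sum fun a _ => hJ2 _
  have hmN : ∑ j : Fin k, κ j * mean ψ (fun p => J (p.2 j) ^ 2) ≤
      |κp| * mean ψ (fun p => ksl_n r p) := by
    have h1 : ∑ j : Fin k, κ j * mean ψ (fun p => J (p.2 j) ^ 2) ≤
        |κp| * ∑ j : Fin k, mean ψ (fun p => J (p.2 j) ^ 2) := by
      rw [mul_sum]
      exact sum_le_sum fun j _ => mul_le_mul_of_nonneg_right (hκ1 j)
        (mean_nonneg fun σ p _ => sq_nonneg _)
    refine h1.trans (mul_le_mul_of_nonneg_left ?_ (abs_nonneg _))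
    rw [← mean_sum _ fun j _ => iN2 j]
    refine mean_mono (IM.sum _ fun j _ => iN2 j) hcn
      fun σ p _ => ?_
    exact sum_le_sum fun j _ => hJ2 _
  -- the mean of the potential terms
  have iE : ∀ a : Fin n, IM ψ (fun p => J (p.1 a) ^ 2 * phiE z a p (p.1 a)) := fun a =>
    IM_mf.1 (IM_phiE (mf_sm hsm (hfE a)) z a)
  have iN : ∀ j : Fin k, IM ψ (fun p => J (p.2 j) ^ 2 * phiN z j p (p.2 j)) := fun j =>
    IM_mf.1 (IM_phiN (mf_sm hsm (hfN j)) z j)
  have iEp : ∀ a : Fin n, IM ψ (fun p => J (p.1 a) ^ 2 * pr χ W z p) := fun a =>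
    IM.cont hsm (((hfE a).continuous.pow 2).mul hprc)
  have iNp : ∀ j : Fin k, IM ψ (fun p => J (p.2 j) ^ 2 * pr χ W z p) := fun j =>
    IM.cont hsm (((hfN j).continuous.pow 2).mul hprc)
  have hpot : mean ψ (fun p => ∑ j, z j * (J (p.2 j) ^ 2 * (phiN z j p (p.2 j) - pr χ W z p)) -
      ∑ a, J (p.1 a) ^ 2 * (phiE z a p (p.1 a) - pr χ W z p)) =
      ∑ j, (z j * mean ψ (fun p => J (p.2 j) ^ 2 * phiN z j p (p.2 j)) -
        z j * mean ψ (fun p => J (p.2 j) ^ 2 * pr χ W z p)) -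
      ∑ a, (mean ψ (fun p => J (p.1 a) ^ 2 * phiE z a p (p.1 a)) -
        mean ψ (fun p => J (p.1 a) ^ 2 * pr χ W z p)) := by
    have e1 : (fun p : Cfg n k => ∑ j, z j * (J (p.2 j) ^ 2 * (phiN z j p (p.2 j) -
        pr χ W z p)) - ∑ a, J (p.1 a) ^ 2 * (phiE z a p (p.1 a) - pr χ W z p)) =
        fun p => ∑ j, (z j * (J (p.2 j) ^ 2 * phiN z j p (p.2 j)) -
          z j * (J (p.2 j) ^ 2 * pr χ W z p)) -
          ∑ a, (J (p.1 a) ^ 2 * phiE z a p (p.1 a) - J (p.1 a) ^ 2 * pr χ W z p) := by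
      funext p
      congr 1
      · exact sum_congr rfl fun j _ => by ring
      · exact sum_congr rfl fun a _ => by ring
    rw [e1, mean_sub (IM.sum _ fun j _ => ((iN j).cmul (z j)).sub ((iNp j).cmul (z j)))
      (IM.sum _ fun a _ => (iE a).sub (iEp a)),
      mean_sum _ fun j _ => ((iN j).cmul (z j)).sub ((iNp j).cmul (z j)),
      mean_sum _ fun a _ => (iE a).sub (iEp a)]
    congr 1
    · refine sum_congr rfl fun j _ => ?_
      rw [mean_sub ((iN j).cmul (z j)) ((iNp j).cmul (z j)), mean_cmul, mean_cmul]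
    · refine sum_congr rfl fun a _ => ?_
      rw [mean_sub (iE a) (iEp a)]
  have hsh : mean ψ (fun p => shl r p) = mean ψ (fun p => ksl_e r p) + mean ψ (fun p => ksl_n r p) := by
    rw [← mean_add hce hcn]
    rfl
  rw [hpot, hsh]
  have hS1 := sum_le_sum fun (a : Fin n) (_ : a ∈ univ) => hE1 a
  have hS2 := sum_le_sum fun (j : Fin k) (_ : j ∈ univ) => hN1 j
  simp only [sum_add_distrib, sum_sub_distrib, ← mul_sum] at hS1 hS2
  simp only [sum_sub_distrib, ← mul_sum] at hloc ⊢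
  have hS3 : ∑ j : Fin k, C2 * κ j * mean ψ (fun p => J (p.2 j) ^ 2) =
      C2 * ∑ j : Fin k, κ j * mean ψ (fun p => J (p.2 j) ^ 2) := by
    rw [mul_sum]
    exact sum_congr rfl fun j _ => by ring
  rw [hS3] at hS2
  obtain ⟨X, hX⟩ : ∃ X : ℝ, X = mean ψ (fun p => ksl_e r p) := ⟨_, rfl⟩
  obtain ⟨Y, hY⟩ : ∃ Y : ℝ, Y = mean ψ (fun p => ksl_n r p) := ⟨_, rfl⟩
  have hX0 : 0 ≤ X := by rw [hX]; exact mean_nonneg fun σ p _ => ksl_e0 _ _
  have hY0 : 0 ≤ Y := by rw [hY]; exact mean_nonneg fun σ p _ => ksl_n0 _ _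
  rw [← hX] at hgm hmE ⊢
  rw [← hY] at hgm hmN ⊢
  have m1 := mul_le_mul_of_nonneg_left hmE (by positivity : 0 ≤ C1 * (1 + A))
  have m2 := mul_le_mul_of_nonneg_left hmN hC2
  have m3 : 0 ≤ A * X := mul_nonneg hA hX0
  have m4 : 0 ≤ A * Y := mul_nonneg hA hY0
  have fin : C1 * (1 + A) * X + C2 * (|κp| * Y) + 2 * (C3 * X + C3 * |κp| * Y) ≤
      (C1 + C2 * |κp| + 2 * C3 * (1 + |κp|)) * (1 + A) * (X + Y) := by
    have f1 : 0 ≤ C1 * (1 + A) * Y := by positivity
    have f2 : 0 ≤ C2 * |κp| * (1 + A) * X := by positivity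
    have f3 : 0 ≤ C2 * |κp| * (A * Y) := by positivity
    have f4 : 0 ≤ C3 * |κp| * (1 + A) * X := by positivity
    have f5 : 0 ≤ C3 * (1 + A) * Y := by positivity
    have f6 : 0 ≤ C3 * (A * X) := by positivity
    have f7 : 0 ≤ C3 * |κp| * (A * Y) := by positivity
    linarith
  linarith

end H6.CL
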