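import Pool.Agent.H6.CL.Defs
import Pool.Agent.H6.CM.ShA

/-! Integral of the truncated inverse fourth power over a shell. If `|‖y‖ - r| ≤ 3` the integral is at most the integral over the whole space. Otherwise drop the truncation and use the coordinates of `Pool/Agent/H6/CM/ShA.lean` (`cyl`): the integral of `‖x - y‖⁻⁴` over the sphere of radius `s` is `4 π s² / (s² - w²)²`, `w = ‖y‖ ≠ s`, which is at most `4 π / (s - w)²`; integrate over `s ∈ (r, r + 1)`, `|s - w| ≥ |r - w| / 2`. -/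

open MeasureTheory Finset

namespace H6.CL

open H6.CM H6.CB

private theorem k4_F_int : Integrable (fun w : E3 => (max 1 ‖w‖ ^ 4)⁻¹) := by
  have h1 : Integrable (fun w : E3 => (1 + ‖w‖) ^ (-(4 : ℝ))) :=
    integrable_one_add_norm (by rw [finrank_euclideanSpace, Fintype.card_fin]; norm_num)
  have hc : Continuous (fun w : E3 => (max 1 ‖w‖ ^ 4)⁻¹) := by
    refine Continuous.inv₀ ((continuous_const.max continuous_norm).pow 4) fun w => ?_
    have : 0 < max 1 ‖w‖ := lt_max_of_lt_left one_pos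
    positivity
  refine (h1.const_mul 16).mono' hc.aestronglyMeasurable (Filter.Eventually.of_forall fun w => ?_)
  have h2 : 0 < max 1 ‖w‖ := lt_max_of_lt_left one_pos
  rw [Real.norm_of_nonneg (by positivity), Real.rpow_neg (by positivity)]
  have h3 : (1 + ‖w‖) ^ (4 : ℝ) = (1 + ‖w‖) ^ 4 := by
    rw [← Real.rpow_natCast]
    norm_num
  rw [h3]
  have h4 : 1 + ‖w‖ ≤ 2 * max 1 ‖w‖ := by
    have h5 := le_max_left 1 ‖w‖
    have h6 := le_max_right 1 ‖w‖
    linarith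
  have h5 : (1 + ‖w‖) ^ 4 ≤ (2 * max 1 ‖w‖) ^ 4 := pow_le_pow_left₀ (by positivity) h4 4
  rw [← one_div, ← div_eq_mul_inv, div_le_div_iff₀ (by positivity) (by positivity)]
  calc 1 * (1 + ‖w‖) ^ 4 ≤ (2 * max 1 ‖w‖) ^ 4 := by rw [one_mul]; exact h5
    _ = 16 * max 1 ‖w‖ ^ 4 := by ring

private noncomputable def k4e : E3 := EuclideanSpace.single (2 : Fin 3) (1 : ℝ)

private theorem k4_norm_e : ‖k4e‖ = 1 := by simp [k4e]

private theorem k4_sq (W : ℝ) (u : E3) :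
    ‖W • k4e - u‖ ^ 2 = W ^ 2 + ‖u‖ ^ 2 - 2 * W * u 2 := by
  rw [norm_sub_sq_real, real_inner_smul_left, norm_smul, k4_norm_e]
  have h2 : inner ℝ k4e u = u 2 := by
    unfold k4e
    rw [EuclideanSpace.inner_single_left]
    simp
  rw [h2, mul_one, Real.norm_eq_abs, sq_abs]
  ring

private theorem k4_inner (W s : ℝ) (hW : 0 ≤ W) (hs : 0 < s) (hne : W ≠ s) :
    ∫⁻ z in Set.Ioo (-s) s, ENNReal.ofReal (((W ^ 2 + s ^ 2 - 2 * W * z) ^ 2)⁻¹)
      = ENNReal.ofReal (2 * s / ((W - s) ^ 2 * (W + s) ^ 2)) := by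
  have hd : 0 < (W - s) ^ 2 := by
    have : W - s ≠ 0 := sub_ne_zero.2 hne
    positivity
  have hp : 0 < (W + s) ^ 2 := by positivity
  have ha : 0 < W ^ 2 + s ^ 2 := by positivity
  have hpos : ∀ z ∈ Set.uIcc (-s) s, 0 < W ^ 2 + s ^ 2 - 2 * W * z := by
    intro z hz
    rw [Set.uIcc_of_le (by linarith)] at hz
    have h1 : W * z ≤ W * s := mul_le_mul_of_nonneg_left hz.2 hW
    nlinarith
  have hderiv : ∀ z ∈ Set.uIcc (-s) s,
      HasDerivAt (fun z : ℝ => z / ((W ^ 2 + s ^ 2) * (W ^ 2 + s ^ 2 - 2 * W * z)))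
        (((W ^ 2 + s ^ 2 - 2 * W * z) ^ 2)⁻¹) z := by
    intro z hz
    have hz0 := hpos z hz
    have h1 : HasDerivAt (fun z : ℝ => (W ^ 2 + s ^ 2) * (W ^ 2 + s ^ 2 - 2 * W * z))
        ((W ^ 2 + s ^ 2) * (-(2 * W))) z := by
      have h2 := (((hasDerivAt_id z).const_mul (2 * W)).const_sub (W ^ 2 + s ^ 2)).const_mul
        (W ^ 2 + s ^ 2)
      simpa using h2
    have h3 := (hasDerivAt_id z).div h1 (by positivity)
    refine h3.congr_deriv ?_
    simp only [id]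
    field_simp
    ring
  have hcont : ContinuousOn (fun z : ℝ => ((W ^ 2 + s ^ 2 - 2 * W * z) ^ 2)⁻¹)
      (Set.uIcc (-s) s) := by
    refine ContinuousOn.inv₀ (by fun_prop) fun z hz => ?_
    have := hpos z hz
    positivity
  have hII : IntervalIntegrable (fun z : ℝ => ((W ^ 2 + s ^ 2 - 2 * W * z) ^ 2)⁻¹) volume (-s) s :=
    hcont.intervalIntegrable
  have hval := intervalIntegral.integral_eq_sub_of_hasDerivAt hderiv hII
  have hle : -s ≤ s := by linarith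
  have hint : IntegrableOn (fun z : ℝ => ((W ^ 2 + s ^ 2 - 2 * W * z) ^ 2)⁻¹)
      (Set.Ioc (-s) s) := (intervalIntegrable_iff_integrableOn_Ioc_of_le hle).mp hII
  rw [intervalIntegral.integral_of_le hle, integral_Ioc_eq_integral_Ioo] at hval
  rw [← ofReal_integral_eq_lintegral_ofReal (hint.mono_set Set.Ioo_subset_Ioc_self)
    (Filter.Eventually.of_forall fun z => inv_nonneg.mpr (sq_nonneg _)), hval]
  congr 1
  have e1 : W ^ 2 + s ^ 2 - 2 * W * s = (W - s) ^ 2 := by ring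
  have e2 : W ^ 2 + s ^ 2 - 2 * W * (-s) = (W + s) ^ 2 := by ring
  rw [e1, e2]
  have hd' := hd.ne'
  have hp' := hp.ne'
  have ha' := ha.ne'
  have h0 : s / ((W ^ 2 + s ^ 2) * (W - s) ^ 2) - -s / ((W ^ 2 + s ^ 2) * (W + s) ^ 2) =
      s * ((W + s) ^ 2 + (W - s) ^ 2) / ((W ^ 2 + s ^ 2) * ((W - s) ^ 2 * (W + s) ^ 2)) := by
    rw [neg_div, sub_neg_eq_add, div_add_div _ _ (by positivity) (by positivity),
      div_eq_div_iff (by positivity) (by positivity)]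
    ring
  rw [h0, div_eq_div_iff (by positivity) (by positivity)]
  ring

private noncomputable def k4G (r s : ℝ) : ENNReal := if r ≤ s ∧ s < r + 1 then 1 else 0

private theorem k4G_meas (r : ℝ) : Measurable (k4G r) := by
  unfold k4G
  exact Measurable.ite measurableSet_Ico measurable_const measurable_const

private theorem k4_set_meas (r : ℝ) : MeasurableSet (A r) := by
  have h1 : A r = (fun v : E3 => ‖v‖) ⁻¹' Set.Ico r (r + 1) := rfl
  rw [h1]
  exact measurable_norm measurableSet_Ico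

private theorem k4_ind (r : ℝ) (f : E3 → ENNReal) :
    ∫⁻ v in A r, f v = ∫⁻ v, k4G r ‖v‖ * f v := by
  rw [← lintegral_indicator (k4_set_meas r)]
  refine lintegral_congr fun v => ?_
  by_cases hv : v ∈ A r
  · have hG : k4G r ‖v‖ = 1 := if_pos hv
    rw [Set.indicator_of_mem hv, hG, one_mul]
  · have hG : k4G r ‖v‖ = 0 := if_neg hv
    rw [Set.indicator_of_notMem hv, hG, zero_mul]

private theorem k4_rot (r : ℝ) (w : E3) :
    ∫⁻ v in A r, ENNReal.ofReal (((‖w - v‖ ^ 2) ^ 2)⁻¹) =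
      ∫⁻ v in A r, ENNReal.ofReal (((‖‖w‖ • k4e - v‖ ^ 2) ^ 2)⁻¹) := by
  have hn : ‖w‖ = ‖‖w‖ • k4e‖ := by rw [norm_smul, k4_norm_e, mul_one, norm_norm]
  obtain ⟨T, hT⟩ : ∃ T : E3 ≃ₗᵢ[ℝ] E3, T w = ‖w‖ • k4e :=
    ⟨_, Submodule.reflection_sub hn⟩
  have hmp := T.measurePreserving
  rw [k4_ind, k4_ind]
  have h1 := hmp.lintegral_comp_emb T.toMeasurableEquiv.measurableEmbedding
    (fun v : E3 => k4G r ‖v‖ * ENNReal.ofReal (((‖‖w‖ • k4e - v‖ ^ 2) ^ 2)⁻¹))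
  rw [← h1]
  refine lintegral_congr fun v => ?_
  show k4G r ‖v‖ * ENNReal.ofReal (((‖w - v‖ ^ 2) ^ 2)⁻¹) =
    k4G r ‖T v‖ * ENNReal.ofReal (((‖‖w‖ • k4e - T v‖ ^ 2) ^ 2)⁻¹)
  rw [← hT, ← map_sub, T.norm_map, T.norm_map]

private theorem k4_lint (r : ℝ) (hr : 0 ≤ r) (W : ℝ) (hW : 0 ≤ W) (hD : 3 < |W - r|) :
    ∫⁻ v in A r, ENNReal.ofReal (((‖W • k4e - v‖ ^ 2) ^ 2)⁻¹) ≤
      ENNReal.ofReal (2 * Real.pi) * ENNReal.ofReal (8 * ((1 + |W - r|) ^ 2)⁻¹) := by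
  rw [k4_ind]
  have hF : Measurable fun u : ℝ × ℝ => k4G r u.1 *
      ENNReal.ofReal (((W ^ 2 + u.1 ^ 2 - 2 * W * u.2) ^ 2)⁻¹) := by
    have h1 : Measurable fun u : ℝ × ℝ => k4G r u.1 := (k4G_meas r).comp measurable_fst
    have h2 : Measurable fun u : ℝ × ℝ => ((W ^ 2 + u.1 ^ 2 - 2 * W * u.2) ^ 2)⁻¹ := by
      fun_prop
    exact h1.mul (ENNReal.measurable_ofReal.comp h2)
  have hcyl := cyl (fun s z => k4G r s *
      ENNReal.ofReal (((W ^ 2 + s ^ 2 - 2 * W * z) ^ 2)⁻¹)) hF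
  simp_rw [k4_sq]
  rw [hcyl]
  refine mul_le_mul' le_rfl ?_
  have hkey : ∫⁻ s in Set.Ioi (0 : ℝ), ENNReal.ofReal s * ∫⁻ z in Set.Ioo (-s) s, k4G r s *
      ENNReal.ofReal (((W ^ 2 + s ^ 2 - 2 * W * z) ^ 2)⁻¹) ≤
      ∫⁻ s in Set.Ico r (r + 1), ENNReal.ofReal (8 * ((1 + |W - r|) ^ 2)⁻¹) := by
    rw [← lintegral_indicator measurableSet_Ioi, ← lintegral_indicator measurableSet_Ico]
    refine lintegral_mono fun s => ?_
    by_cases hs0 : s ∈ Set.Ioi (0 : ℝ)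
    · have hs0' : 0 < s := hs0
      rw [Set.indicator_of_mem hs0]
      by_cases hs : s ∈ Set.Ico r (r + 1)
      · have hG : k4G r s = 1 := if_pos hs
        have h1 : |W - r| - 1 ≤ |W - s| := by
          have h2 : |s - r| ≤ 1 := by
            rw [abs_of_nonneg (by linarith [hs.1])]
            linarith [hs.2]
          have h3 : |W - r| ≤ |W - s| + |s - r| := abs_sub_le _ _ _
          linarith
        have h4 : (1 + |W - r|) / 2 ≤ |W - s| := by linarith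
        have hne : W ≠ s := by
          intro h
          rw [h, sub_self, abs_zero] at h4
          have := abs_nonneg (s - r)
          rw [h] at hD
          linarith
        rw [Set.indicator_of_mem hs, hG]
        simp only [one_mul]
        rw [k4_inner W s hW hs0' hne, ← ENNReal.ofReal_mul hs0'.le]
        apply ENNReal.ofReal_le_ofReal
        have h5 : (1 + |W - r|) ^ 2 ≤ 4 * (W - s) ^ 2 := by
          have h6 : ((1 + |W - r|) / 2) ^ 2 ≤ |W - s| ^ 2 :=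
            pow_le_pow_left₀ (by positivity) h4 2
          rw [sq_abs] at h6
          nlinarith
        have h7 : 0 < (W - s) ^ 2 := by
          have : W - s ≠ 0 := sub_ne_zero.2 hne
          positivity
        have h8 : s ^ 2 ≤ (W + s) ^ 2 := pow_le_pow_left₀ hs0'.le (by linarith) 2
        have h9 : 0 < (1 + |W - r|) ^ 2 := by positivity
        have h10 : 0 < (W + s) ^ 2 := by positivity
        rw [← mul_div_assoc, ← div_eq_mul_inv, div_le_div_iff₀ (by positivity) h9]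
        calc s * (2 * s) * (1 + |W - r|) ^ 2 = 2 * (s ^ 2 * (1 + |W - r|) ^ 2) := by ring
          _ ≤ 2 * ((W + s) ^ 2 * (4 * (W - s) ^ 2)) := by
              refine mul_le_mul_of_nonneg_left ?_ (by norm_num)
              exact mul_le_mul h8 h5 h9.le h10.le
          _ = 8 * ((W - s) ^ 2 * (W + s) ^ 2) := by ring
      · have hG : k4G r s = 0 := if_neg hs
        rw [Set.indicator_of_notMem hs, hG]
        simp
    · rw [Set.indicator_of_notMem hs0]
      exact bot_le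
  refine hkey.trans (le_of_eq ?_)
  rw [setLIntegral_const, Real.volume_Ico]
  simp

private theorem k4_meas (y : E3) : Measurable fun x : E3 => (max 1 ‖y - x‖ ^ 4)⁻¹ := by
  have h1 : Measurable fun x : E3 => ‖y - x‖ := (measurable_const.sub measurable_id).norm
  exact ((measurable_const.max h1).pow_const 4).inv

private theorem k4_intOn (y : E3) : Integrable (fun x : E3 => (max 1 ‖y - x‖ ^ 4)⁻¹) :=
  k4_F_int.comp_sub_left y

private theorem k4_whole (y : E3) :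
    ∫ x : E3, (max 1 ‖y - x‖ ^ 4)⁻¹ = ∫ w : E3, (max 1 ‖w‖ ^ 4)⁻¹ :=
  integral_sub_left_eq_self (fun w : E3 => (max 1 ‖w‖ ^ 4)⁻¹) volume y

private theorem k4_far (r : ℝ) (hr : 0 ≤ r) (y : E3) (hD : 3 < |‖y‖ - r|) :
    ∫ x in A r, (max 1 ‖y - x‖ ^ 4)⁻¹ ≤ 16 * Real.pi * ((1 + |‖y‖ - r|) ^ 2)⁻¹ := by
  rw [integral_eq_lintegral_of_nonneg_ae (Filter.Eventually.of_forall fun x => by positivity)
    (k4_meas y).aestronglyMeasurable]
  apply ENNReal.toReal_le_of_le_ofReal (by positivity)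
  have h1 : ∫⁻ x in A r, ENNReal.ofReal ((max 1 ‖y - x‖ ^ 4)⁻¹) ≤
      ∫⁻ x in A r, ENNReal.ofReal (((‖y - x‖ ^ 2) ^ 2)⁻¹) := by
    refine setLIntegral_mono' (k4_set_meas r) fun x hx => ?_
    apply ENNReal.ofReal_le_ofReal
    have h2 : |‖y‖ - r| - 1 ≤ ‖y - x‖ := by
      have h3 : |‖y‖ - ‖x‖| ≤ ‖y - x‖ := abs_norm_sub_norm_le _ _
      have h4 : |‖x‖ - r| ≤ 1 := by
        rw [abs_of_nonneg (by linarith [hx.1])]
        linarith [hx.2]
      have h5 : |‖y‖ - r| ≤ |‖y‖ - ‖x‖| + |‖x‖ - r| := abs_sub_le _ _ _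
      linarith
    have h6 : 0 < ‖y - x‖ := by linarith
    have h7 : (‖y - x‖ ^ 2) ^ 2 ≤ max 1 ‖y - x‖ ^ 4 := by
      have h8 : (‖y - x‖ ^ 2) ^ 2 = ‖y - x‖ ^ 4 := by ring
      rw [h8]
      exact pow_le_pow_left₀ h6.le (le_max_right _ _) 4
    exact inv_anti₀ (by positivity) h7
  refine h1.trans ?_
  rw [k4_rot]
  refine (k4_lint r hr ‖y‖ (norm_nonneg y) hD).trans (le_of_eq ?_)
  rw [← ENNReal.ofReal_mul (by positivity)]
  congr 1
  ring

theorem ker4 : ∃ C : ℝ, 0 ≤ C ∧ ∀ (r : ℝ) (_ : 0 ≤ r) (y : E3),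
    IntegrableOn (fun x : E3 => (max 1 ‖y - x‖ ^ 4)⁻¹) (A r) ∧
    ∫ x in A r, (max 1 ‖y - x‖ ^ 4)⁻¹ ≤ C * ((1 + |‖y‖ - r|) ^ 2)⁻¹ := by
  obtain ⟨K, hK⟩ : ∃ K : ℝ, K = ∫ w : E3, (max 1 ‖w‖ ^ 4)⁻¹ := ⟨_, rfl⟩
  have hK0 : 0 ≤ K := by
    rw [hK]
    exact integral_nonneg fun w => by positivity
  refine ⟨16 * K + 16 * Real.pi, by positivity, fun r hr y => ⟨(k4_intOn y).integrableOn, ?_⟩⟩
  have hinv : 0 < ((1 + |‖y‖ - r|) ^ 2)⁻¹ := by positivity
  rcases le_or_gt |‖y‖ - r| 3 with h | h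
  · have h1 : ∫ x in A r, (max 1 ‖y - x‖ ^ 4)⁻¹ ≤ K := by
      rw [hK, ← k4_whole y]
      exact setIntegral_le_integral (k4_intOn y) (Filter.Eventually.of_forall fun x => by positivity)
    have h2 : 1 ≤ 16 * ((1 + |‖y‖ - r|) ^ 2)⁻¹ := by
      have h3 : (1 + |‖y‖ - r|) ^ 2 ≤ 16 := by
        have h4 : (1 + |‖y‖ - r|) ^ 2 ≤ (1 + 3) ^ 2 :=
          pow_le_pow_left₀ (by positivity) (by linarith) 2
        norm_num at h4
        exact h4
      have h5 : (16 : ℝ)⁻¹ ≤ ((1 + |‖y‖ - r|) ^ 2)⁻¹ := inv_anti₀ (by positivity) h3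
      linarith
    calc ∫ x in A r, (max 1 ‖y - x‖ ^ 4)⁻¹ ≤ K * 1 := by rw [mul_one]; exact h1
      _ ≤ K * (16 * ((1 + |‖y‖ - r|) ^ 2)⁻¹) := mul_le_mul_of_nonneg_left h2 hK0
      _ = 16 * K * ((1 + |‖y‖ - r|) ^ 2)⁻¹ := by ring
      _ ≤ (16 * K + 16 * Real.pi) * ((1 + |‖y‖ - r|) ^ 2)⁻¹ := by
          refine mul_le_mul_of_nonneg_right ?_ hinv.le
          linarith [Real.pi_pos]
  · refine (k4_far r hr y h).trans ?_
    refine mul_le_mul_of_nonneg_right ?_ hinv.le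
    linarith

end H6.CL
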