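import Pool.Agent.H6.CL.KPos
import Pool.Agent.H6.CL.KPot
import Pool.Agent.H6.CB.HSm

/-! The electrostatic inequality of the boundary layer for smooth neutral densities. Let `u = pot ρ - c` (smooth, `lap u = -4 π ρ`), `K = 1 - J` (compact support), `σ = (4 π)⁻¹ (2 ∑ d, pd d (u * pd d J) - u * lap J)` (smooth, compact support), `g = J ρ - σ`. Pointwise `lap (J u) = J lap u + 2 ∇J·∇u + u lap J = -4 π g`, so `g = ρ + (4 π)⁻¹ lap (K u)` and by `green`, `pot g = pot ρ - K u = J u + c`; `∫ g = 0`.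
(1) `∫ J² u ρ = ∫ J u (g + σ) = Dd g g + ∫ J u σ`, and `∫ J u σ = -(4 π)⁻¹ ∫ |∇J|² u²` (integration by parts: `∫ ∑ d, pd d (J u² pd d J) = 0`).
(2) `Dd g g = Dl g g + Ds g g` with `Ds = Dd - Dl`, `Dl g g ≥ 0`, and since `J ρ = g + σ`, `Ds (Jρ) (Jρ) = Ds g g + 2 Ds g σ + Ds σ σ`.
(3) `Dd g σ = ∫ (J u + c) σ`; by `KL_pot`, `Dl g σ = ∫ (∫ w, ν w * pot g (x - w)) σ = ∫ (ν * (J u)) σ + c ∫ σ`. So `Ds g σ = ∫ J u σ - ∫ (ν * (J u)) σ`, and after one integration by parts the last integral is at most a constant times the double integral of `|u x| |u y|` over `‖x - y‖ ≤ 1`, `y` in the set where `∇J` or `lap J` is not `0` (the derivatives of `ν * (J u)` are `(pd d ν) * (J u)`), which is at most `C ∫ v in D, u²` (`2 a b ≤ a² + b²`).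
(4) `Ds σ σ ≤ 2 Ds σ1 σ1 + 2 Ds σ2 σ2` (positivity `Ds_nonneg`), `σ1 = (2 π)⁻¹ ∑ pd d (u pd d J)`, `σ2 = -(4 π)⁻¹ u lap J`; `Ds σ1 σ1 ≤ Dd σ1 σ1` (`Dl_nonneg`) and `dive`; `Ds σ2 σ2 = ∫∫ σ2 σ2 KS ≤ (∫ over the unit ball of ‖x‖⁻¹) ∫ σ2²` (`0 ≤ KS χ x ≤ ‖x‖⁻¹`, `KS χ x = 0` for `1 ≤ ‖x‖`).
Altogether `∫ J² u ρ - Ds (Jρ) (Jρ) = Dl g g + ∫ J u σ - 2 Ds g σ - Ds σ σ ≥ - C ∫ v in D, u²`. (`gr` and `lap` of `J` vanish outside `D`; all constants depend only on `L` and `χ`.) -/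

open MeasureTheory Finset

namespace H6.CL

open H6.CM H6.CB

private theorem lsm_pds (d : Fin 3) (f : E3 → ℝ) (hf : ContDiff ℝ (⊤ : ℕ∞) f) :
    ContDiff ℝ (⊤ : ℕ∞) (pd d f) := by
  unfold pd
  exact (hf.fderiv_right (m := (⊤ : ℕ∞)) (by simp)).clm_apply contDiff_const

private theorem lsm_pdc (d : Fin 3) (f : E3 → ℝ) (hf : Cc f) : Cc (pd d f) := by
  refine ⟨lsm_pds d f hf.1, ?_⟩
  have h1 : HasCompactSupport (fderiv ℝ f) := hf.2.fderiv ℝ
  exact h1.comp_left (g := fun L : E3 →L[ℝ] ℝ => L (EuclideanSpace.single d 1)) (by simp)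

private theorem lsm_mulc (f g : E3 → ℝ) (hf : ContDiff ℝ (⊤ : ℕ∞) f) (hg : Cc g) :
    Cc (fun v => f v * g v) := ⟨hf.mul hg.1, hg.2.mul_left⟩

private theorem lsm_smulc (s : ℝ) (g : E3 → ℝ) (hg : Cc g) : Cc (fun v => s * g v) :=
  lsm_mulc (fun _ => s) g contDiff_const hg

private theorem lsm_addc (f g : E3 → ℝ) (hf : Cc f) (hg : Cc g) : Cc (fun v => f v + g v) :=
  ⟨hf.1.add hg.1, hf.2.add hg.2⟩

private theorem lsm_sum (F : Fin 3 → E3 → ℝ) (hF : ∀ d, Cc (F d)) : Cc (fun v => ∑ d, F d v) := by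
  have e : (fun v => ∑ d, F d v) = fun v => (F 0 v + F 1 v) + F 2 v := by
    funext v
    rw [Fin.sum_univ_three]
  rw [e]
  exact lsm_addc _ _ (lsm_addc _ _ (hF 0) (hF 1)) (hF 2)

private theorem lsm_int (f : E3 → ℝ) (hf : Cc f) : Integrable f :=
  hf.1.continuous.integrable_of_hasCompactSupport hf.2

private theorem lsm_pdm (d : Fin 3) (f g : E3 → ℝ) (hf : ContDiff ℝ (⊤ : ℕ∞) f)
    (hg : ContDiff ℝ (⊤ : ℕ∞) g) :
    pd d (fun v => f v * g v) = fun v => pd d f v * g v + f v * pd d g v := by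
  funext v
  unfold pd
  have h1 : HasFDerivAt (fun v => f v * g v) (f v • fderiv ℝ g v + g v • fderiv ℝ f v) v :=
    ((hf.differentiable (by simp) v).hasFDerivAt).mul
      ((hg.differentiable (by simp) v).hasFDerivAt)
  rw [h1.fderiv]
  simp only [add_apply, smul_apply, smul_eq_mul]
  ring

private theorem lsm_pda (d : Fin 3) (f g : E3 → ℝ) (hf : ContDiff ℝ (⊤ : ℕ∞) f)
    (hg : ContDiff ℝ (⊤ : ℕ∞) g) :
    pd d (fun v => f v + g v) = fun v => pd d f v + pd d g v := by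
  funext v
  unfold pd
  have h1 : HasFDerivAt (fun v => f v + g v) (fderiv ℝ f v + fderiv ℝ g v) v :=
    ((hf.differentiable (by simp) v).hasFDerivAt).add
      ((hg.differentiable (by simp) v).hasFDerivAt)
  rw [h1.fderiv]
  simp only [add_apply]

private theorem lsm_pdk (d : Fin 3) (s : ℝ) (f : E3 → ℝ) (hf : ContDiff ℝ (⊤ : ℕ∞) f) :
    pd d (fun v => s * f v) = fun v => s * pd d f v := by
  funext v
  unfold pd
  have h1 : HasFDerivAt (fun v => s * f v) (s • fderiv ℝ f v) v :=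
    ((hf.differentiable (by simp) v).hasFDerivAt).const_mul s
  rw [h1.fderiv]
  simp only [smul_apply, smul_eq_mul]

private theorem lsm_pdz (d : Fin 3) (g : E3 → ℝ) (hg : Cc g) : ∫ v, pd d g v = 0 := by
  have h1 := ibp d (fun _ => (1 : ℝ)) g contDiff_const hg
  have h2 : ∀ v, pd d (fun _ : E3 => (1 : ℝ)) v = 0 := by
    intro v
    unfold pd
    simp
  simpa [h2] using h1

/-- the Laplacian of a product -/
private theorem lsm_lapm (f g : E3 → ℝ) (hf : ContDiff ℝ (⊤ : ℕ∞) f)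
    (hg : ContDiff ℝ (⊤ : ℕ∞) g) (v : E3) :
    lap (fun v => f v * g v) v =
      lap f v * g v + 2 * (∑ d, pd d f v * pd d g v) + f v * lap g v := by
  unfold lap
  have h : ∀ d : Fin 3, pd d (pd d (fun v => f v * g v)) v =
      pd d (pd d f) v * g v + 2 * (pd d f v * pd d g v) + f v * pd d (pd d g) v := by
    intro d
    rw [lsm_pdm d f g hf hg, lsm_pda d (fun v => pd d f v * g v) (fun v => f v * pd d g v)
      ((lsm_pds d f hf).mul hg) (hf.mul (lsm_pds d g hg)), lsm_pdm d (pd d f) g (lsm_pds d f hf) hg,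
      lsm_pdm d f (pd d g) hf (lsm_pds d g hg)]
    ring
  simp only [h]
  rw [sum_add_distrib, sum_add_distrib, ← sum_mul, ← mul_sum, ← mul_sum]

private theorem lsm_Dd (s : ℝ) (ρ τ : E3 → ℝ) : Dd (fun x => s * ρ x) τ = s * Dd ρ τ := by
  unfold Dd
  rw [← integral_const_mul]
  congr 1
  funext x
  ring

private theorem lsm_Dl (χ : E3 → ℝ) (s : ℝ) (ρ τ : E3 → ℝ) :
    Dl χ (fun x => s * ρ x) τ = s * Dl χ ρ τ := by
  unfold Dl
  rw [← integral_const_mul]
  congr 1
  funext x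
  ring

private theorem lsm_par {χ : E3 → ℝ} (hχ : Bump χ) (P g : E3 → ℝ) (hP : Cc P) (hg : Cc g) :
    Dd (fun x => P x + g x) (fun x => P x + g x) - Dl χ (fun x => P x + g x) (fun x => P x + g x) ≤
      2 * (Dd P P - Dl χ P P) + 2 * (Dd g g - Dl χ g g) := by
  have e1 : ∀ s : ℝ, Dd (fun x => P x + s * g x) (fun x => P x + s * g x) =
      Dd P P + 2 * s * Dd P g + s ^ 2 * Dd g g := by
    intro s
    have hs := lsm_smulc s g hg
    have hc := lsm_addc P _ hP hs
    rw [Dd_add P (fun x => s * g x) _ hP hs hc, lsm_Dd, Dd_symm P _ hP hc, Dd_symm g _ hg hc,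
      Dd_add P (fun x => s * g x) _ hP hs hP, Dd_add P (fun x => s * g x) _ hP hs hg,
      lsm_Dd, lsm_Dd, Dd_symm g P hg hP]
    ring
  have e2 : ∀ s : ℝ, Dl χ (fun x => P x + s * g x) (fun x => P x + s * g x) =
      Dl χ P P + 2 * s * Dl χ P g + s ^ 2 * Dl χ g g := by
    intro s
    have hs := lsm_smulc s g hg
    have hc := lsm_addc P _ hP hs
    rw [Dl_add hχ P (fun x => s * g x) _ hP hs hc, lsm_Dl, Dl_symm hχ P _ hP hc,
      Dl_symm hχ g _ hg hc, Dl_add hχ P (fun x => s * g x) _ hP hs hP,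
      Dl_add hχ P (fun x => s * g x) _ hP hs hg, lsm_Dl, lsm_Dl, Dl_symm hχ g P hg hP]
    ring
  have h1 := e1 1
  have h2 := e1 (-1)
  have h3 := Ds_nonneg hχ _ (lsm_addc P _ hP (lsm_smulc (-1) g hg))
  have h4 := e2 1
  have h5 := e2 (-1)
  simp only [one_mul] at h1 h4
  rw [h1, h4]
  rw [h2, h5] at h3
  linarith

/-- the support of the derivatives -/
private theorem lsm_ext (d : Fin 3) (f : E3 → ℝ) (h : ∀ w, f w ≠ 0 → ‖w‖ ≤ 1) (w : E3)
    (hw : pd d f w ≠ 0) : ‖w‖ ≤ 1 := by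
  by_contra hcon
  rw [not_le] at hcon
  apply hw
  have h2 : f =ᶠ[nhds w] fun _ => (0 : ℝ) := by
    have h3 : ∀ᶠ v in nhds w, 1 < ‖v‖ := continuous_norm.continuousAt.eventually_const_lt hcon
    filter_upwards [h3] with v hv
    by_contra h4
    exact absurd (h v h4) (not_le.2 hv)
  unfold pd
  rw [h2.fderiv_eq]
  simp

/-- the Schur test -/
private theorem lsm_schur (κ : E3 → ENNReal) (hκ : Measurable κ) (m : ℝ) (hm : 0 ≤ m)
    (hκm : ∫⁻ w, κ w ≤ ENNReal.ofReal m) (U : E3 → ℝ) (hU : Measurable U) (S : ℝ) (hS : 0 ≤ S)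
    (hUS : ∫⁻ x, ENNReal.ofReal (U x ^ 2) ≤ ENNReal.ofReal S) :
    ∫⁻ x, ‖U x‖ₑ * ∫⁻ y, ‖U y‖ₑ * κ (x - y) ≤ ENNReal.ofReal (m * (S + S)) := by
  have hp : ∀ x y : E3, ‖U x‖ₑ * ‖U y‖ₑ ≤ ENNReal.ofReal (U x ^ 2) + ENNReal.ofReal (U y ^ 2) := by
    intro x y
    rw [Real.enorm_eq_ofReal_abs, Real.enorm_eq_ofReal_abs, ← ENNReal.ofReal_mul (abs_nonneg _),
      ← ENNReal.ofReal_add (sq_nonneg _) (sq_nonneg _)]
    refine ENNReal.ofReal_le_ofReal ?_
    nlinarith [sq_nonneg (|U x| - |U y|), sq_abs (U x), sq_abs (U y), sq_nonneg (U x),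
      sq_nonneg (U y)]
  have hU2 : Measurable (fun x => ENNReal.ofReal (U x ^ 2)) := (hU.pow_const 2).ennreal_ofReal
  have e1 : ∀ x : E3, ∫⁻ y, κ (x - y) = ∫⁻ w, κ w := fun x =>
    lintegral_sub_left_eq_self (fun w => κ w) x
  have e2 : ∀ y : E3, ∫⁻ x, κ (x - y) = ∫⁻ w, κ w := fun y =>
    lintegral_sub_right_eq_self (fun w => κ w) y
  have l1 : ∫⁻ x, ∫⁻ y, ENNReal.ofReal (U x ^ 2) * κ (x - y) ≤ ENNReal.ofReal (m * S) := by
    have h1 : ∀ x : E3, ∫⁻ y, ENNReal.ofReal (U x ^ 2) * κ (x - y) =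
        ENNReal.ofReal (U x ^ 2) * ∫⁻ w, κ w := by
      intro x
      rw [lintegral_const_mul _ (show Measurable (fun y : E3 => κ (x - y)) from
        hκ.comp (measurable_const.sub measurable_id)), e1]
    simp only [h1]
    rw [lintegral_mul_const _ hU2, mul_comm, ENNReal.ofReal_mul hm]
    gcongr
  have l2 : ∫⁻ x, ∫⁻ y, ENNReal.ofReal (U y ^ 2) * κ (x - y) ≤ ENNReal.ofReal (m * S) := by
    rw [lintegral_lintegral_swap]
    · have h1 : ∀ y : E3, ∫⁻ x, ENNReal.ofReal (U y ^ 2) * κ (x - y) =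
          ENNReal.ofReal (U y ^ 2) * ∫⁻ w, κ w := by
        intro y
        rw [lintegral_const_mul _ (show Measurable (fun x : E3 => κ (x - y)) from
          hκ.comp (measurable_id.sub measurable_const)), e2]
      simp only [h1]
      rw [lintegral_mul_const _ hU2, mul_comm, ENNReal.ofReal_mul hm]
      gcongr
    · exact ((hU2.comp measurable_snd).mul
        (hκ.comp (measurable_fst.sub measurable_snd))).aemeasurable
  calc ∫⁻ x, ‖U x‖ₑ * ∫⁻ y, ‖U y‖ₑ * κ (x - y)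
      ≤ ∫⁻ x, ∫⁻ y, (ENNReal.ofReal (U x ^ 2) * κ (x - y) +
          ENNReal.ofReal (U y ^ 2) * κ (x - y)) := by
        refine lintegral_mono fun x => ?_
        rw [← lintegral_const_mul' _ _ enorm_ne_top]
        refine lintegral_mono fun y => ?_
        rw [← mul_assoc, ← add_mul]
        exact mul_le_mul_left (hp x y) _
    _ = (∫⁻ x, ∫⁻ y, ENNReal.ofReal (U x ^ 2) * κ (x - y)) +
        ∫⁻ x, ∫⁻ y, ENNReal.ofReal (U y ^ 2) * κ (x - y) := by
        have h3 : ∀ x : E3, ∫⁻ y, (ENNReal.ofReal (U x ^ 2) * κ (x - y) +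
            ENNReal.ofReal (U y ^ 2) * κ (x - y)) =
            (∫⁻ y, ENNReal.ofReal (U x ^ 2) * κ (x - y)) +
              ∫⁻ y, ENNReal.ofReal (U y ^ 2) * κ (x - y) := by
          intro x
          exact lintegral_add_left (measurable_const.mul (show Measurable (fun y : E3 => κ (x - y)) from
            hκ.comp (measurable_const.sub measurable_id))) _
        simp only [h3]
        refine lintegral_add_left ?_ _
        exact Measurable.lintegral_prod_right' (f := fun u : E3 × E3 =>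
          ENNReal.ofReal (U u.1 ^ 2) * κ (u.1 - u.2))
          ((hU2.comp measurable_fst).mul (hκ.comp (measurable_fst.sub measurable_snd)))
    _ ≤ ENNReal.ofReal (m * S) + ENNReal.ofReal (m * S) := add_le_add l1 l2
    _ = ENNReal.ofReal (m * (S + S)) := by
        rw [← ENNReal.ofReal_add (by positivity) (by positivity)]
        congr 1
        ring

private theorem lsm_bd (κ : E3 → ENNReal) (hκ : Measurable κ) (m : ℝ) (hm : 0 ≤ m)
    (hκm : ∫⁻ w, κ w ≤ ENNReal.ofReal m) (U : E3 → ℝ) (hU : Measurable U) (S : ℝ) (hS : 0 ≤ S)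
    (hUS : ∫⁻ x, ENNReal.ofReal (U x ^ 2) ≤ ENNReal.ofReal S) (Λ : ℝ) (hΛ : 0 ≤ Λ) (A : E3 → ℝ)
    (hA : ∀ x, ‖A x‖ₑ ≤ ENNReal.ofReal Λ * (‖U x‖ₑ * ∫⁻ y, ‖U y‖ₑ * κ (x - y))) :
    |∫ x, A x| ≤ Λ * (m * (S + S)) := by
  have h1 : ‖∫ x, A x‖ₑ ≤ ENNReal.ofReal (Λ * (m * (S + S))) := by
    refine (enorm_integral_le_lintegral_enorm _).trans ?_
    refine (lintegral_mono hA).trans ?_
    rw [lintegral_const_mul' _ _ ENNReal.ofReal_ne_top, ENNReal.ofReal_mul hΛ]
    gcongr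
    exact lsm_schur κ hκ m hm hκm U hU S hS hUS
  rw [Real.enorm_eq_ofReal_abs] at h1
  rwa [ENNReal.ofReal_le_ofReal_iff (by positivity)] at h1

private theorem lsm_pint (ρ : E3 → ℝ) (hρ : Cc ρ) (x : E3) :
    Integrable (fun y => ρ y * ‖x - y‖⁻¹) := by
  have h1 := intK (volume : Measure E3) (ContinuousLinearMap.id ℝ E3)
    (ContinuousLinearMap.id ℝ E3) (fun v => rfl) (-x) ρ hρ.1.continuous hρ.2
  refine h1.congr (Filter.Eventually.of_forall fun y => ?_)
  simp only [ContinuousLinearMap.coe_id', id_eq]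
  rw [mul_comm, neg_add_eq_sub, norm_sub_rev]

/-- derivatives of a convolution -/
private theorem lsm_conv (G ν : E3 → ℝ) (hG : Continuous G) (hν : Cc ν) :
    ContDiff ℝ (⊤ : ℕ∞) (fun x => ∫ t, G t * ν (x - t)) ∧
      ∀ d x, pd d (fun x => ∫ t, G t * ν (x - t)) x = ∫ t, G t * pd d ν (x - t) := by
  have e : (fun x => ∫ t, G t * ν (x - t)) =
      MeasureTheory.convolution G ν (ContinuousLinearMap.mul ℝ ℝ) volume := rfl
  have hl : LocallyIntegrable G volume := hG.locallyIntegrable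
  refine ⟨?_, fun d x => ?_⟩
  · rw [e]
    exact hν.2.contDiff_convolution_right _ hl hν.1
  · have h1 := hν.2.hasFDerivAt_convolution_right (ContinuousLinearMap.mul ℝ ℝ) hl
      (hν.1.of_le (by exact_mod_cast le_top)) x
    rw [← e] at h1
    unfold pd
    rw [h1.fderiv]
    rw [convolution_precompR_apply _ hl (hν.2.fderiv ℝ) (hν.1.continuous_fderiv (by simp))]
    rfl

private theorem lsm_KS {χ : E3 → ℝ} (hχ : Bump χ) : Measurable (KS χ) ∧
    ∃ m : ℝ, 0 ≤ m ∧ ∫⁻ w, ‖KS χ w‖ₑ ≤ ENNReal.ofReal m := by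
  have hm : Measurable (KS χ) := by
    unfold KS
    exact (measurable_norm.inv).sub (KL_smooth hχ).continuous.measurable
  refine ⟨hm, ?_⟩
  obtain ⟨C, hC0, hC⟩ := ballinv
  refine ⟨C * 1 ^ 2, by positivity, ?_⟩
  refine le_trans ?_ (hC 0 1 one_pos)
  rw [← lintegral_indicator Metric.isOpen_ball.measurableSet]
  have h0 : ∀ᵐ v : E3, v ≠ 0 := by simp [ae_iff, measure_singleton]
  refine lintegral_mono_ae ?_
  filter_upwards [h0] with v hv
  by_cases h1 : ‖v‖ < 1
  · rw [Set.indicator_of_mem (by rwa [Metric.mem_ball, dist_zero_right]),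
      Real.enorm_eq_ofReal_abs]
    refine ENNReal.ofReal_le_ofReal ?_
    unfold KS
    rw [abs_of_nonneg (by linarith [KL_le hχ v hv])]
    linarith [KL_nonneg hχ v]
  · rw [Set.indicator_of_notMem (by rwa [Metric.mem_ball, dist_zero_right])]
    have h2 : KS χ v = 0 := by
      unfold KS
      rw [KL_out hχ v (not_lt.1 h1), sub_self]
    rw [h2, enorm_zero]

private theorem lsm_mass (f : E3 → ℝ) (hf : Cc f) :
    ∫⁻ w, ‖f w‖ₑ ≤ ENNReal.ofReal (∫ w, ‖f w‖) :=
  (ofReal_integral_norm_eq_lintegral_enorm (lsm_int f hf)).ge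

theorem lsm {χ : E3 → ℝ} (hχ : Bump χ) (L : ℝ) : ∃ C : ℝ, 0 ≤ C ∧
    ∀ (J : E3 → ℝ) (_ : Lay L J) (D : Set E3) (_ : MeasurableSet D)
    (_ : Bornology.IsBounded D)
    (_ : ∀ v w, gr J w ≠ 0 ∨ lap J w ≠ 0 → ‖v - w‖ ≤ 1 → v ∈ D)
    (ρ : E3 → ℝ) (_ : Cc ρ) (_ : ∫ v, ρ v = 0) (c : ℝ),
    -(C * ∫ v in D, (pot ρ v - c) ^ 2) ≤
      (∫ v, J v ^ 2 * (pot ρ v - c) * ρ v) -
        Dd (fun v => J v * ρ v) (fun v => J v * ρ v) +
        Dl χ (fun v => J v * ρ v) (fun v => J v * ρ v) := by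
  obtain ⟨ν, hνc, hνs, hνe, hν1, -, hνf⟩ := KL_pot hχ
  obtain ⟨hKm, mK, hmK, hKK⟩ := lsm_KS hχ
  obtain ⟨k, hk⟩ : ∃ k : ℝ, k = (4 * Real.pi)⁻¹ := ⟨_, rfl⟩
  have hk0 : 0 < k := by
    rw [hk]
    positivity
  have hk1 : k * (4 * Real.pi) = 1 := by
    rw [hk]
    exact inv_mul_cancel₀ (by positivity)
  obtain ⟨Λ, hΛ⟩ : ∃ Λ : ℝ, Λ = |L| + 1 := ⟨_, rfl⟩
  have hΛ0 : 0 < Λ := by
    rw [hΛ]
    positivity
  have hLΛ : L ≤ Λ := by
    rw [hΛ]
    linarith [le_abs_self L]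
  have hΛ1 : 1 ≤ Λ := by
    rw [hΛ]
    linarith [abs_nonneg L]
  obtain ⟨m0, hm0⟩ : ∃ m0 : ℝ, m0 = ∫ w, ‖ν w‖ := ⟨_, rfl⟩
  have hm00 : 0 ≤ m0 := by
    rw [hm0]
    exact integral_nonneg fun _ => norm_nonneg _
  obtain ⟨md, hmd⟩ : ∃ md : Fin 3 → ℝ, md = fun d => ∫ w, ‖pd d ν w‖ := ⟨_, rfl⟩
  have hmd0 : ∀ d, 0 ≤ md d := by
    intro d
    rw [hmd]
    exact integral_nonneg fun _ => norm_nonneg _
  refine ⟨2 * ((∑ d, 2 * k * Λ * (md d * 2)) + k * Λ * (m0 * 2)) +
    (2 * (8 * Real.pi * ((2 * k) ^ 2 * Λ)) + 2 * ((k * Λ) ^ 2 * (mK * 2))), ?_, ?_⟩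
  · have : 0 ≤ ∑ d, 2 * k * Λ * (md d * 2) := sum_nonneg fun d _ => by
      have := hmd0 d
      positivity
    positivity
  intro J hJ D hDm hDb hD ρ hρ hρ0 c
  have hJs := hJ.smooth
  -- `K = 1 - J`
  obtain ⟨K, hK⟩ : ∃ K : E3 → ℝ, K = fun v => 1 - J v := ⟨_, rfl⟩
  have hKc : Cc K := by
    rw [hK]
    exact ⟨contDiff_const.sub hJs, hJ.cpt⟩
  have hpJ : ∀ d, pd d J = fun v => -1 * pd d K v := by
    intro d
    have e1 : J = fun v => 1 + -1 * K v := by
      funext v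
      rw [hK]
      ring
    have e2 : pd d (fun v : E3 => (1 : ℝ)) = fun v => 0 := by
      funext v
      unfold pd
      simp
    conv_lhs => rw [e1]
    rw [lsm_pda d (fun _ => (1 : ℝ)) (fun v => -1 * K v) contDiff_const (contDiff_const.mul hKc.1),
      lsm_pdk d (-1) K hKc.1, e2]
    simp
  have hpJc : ∀ d, Cc (pd d J) := by
    intro d
    rw [hpJ d]
    exact lsm_smulc _ _ (lsm_pdc d K hKc)
  have hlJc : Cc (lap J) := by
    have e : lap J = fun v => ∑ d, pd d (pd d J) v := rfl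
    rw [e]
    exact lsm_sum _ fun d => lsm_pdc d _ (hpJc d)
  obtain ⟨u, hu⟩ : ∃ u : E3 → ℝ, u = fun v => pot ρ v - c := ⟨_, rfl⟩
  have hus : ContDiff ℝ (⊤ : ℕ∞) u := by
    rw [hu]
    exact (pot_smooth ρ hρ).sub contDiff_const
  have hpu : ∀ d, pd d u = pd d (pot ρ) := by
    intro d
    funext v
    unfold pd
    rw [hu, fderiv_sub_const]
  have hlu : ∀ v, lap u v = -(4 * Real.pi * ρ v) := by
    intro v
    rw [← pot_lap ρ hρ v]
    unfold lap
    simp only [hpu]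
  have hKuc : Cc (fun v => K v * u v) := by
    have := lsm_mulc u K hus hKc
    have e : (fun v => K v * u v) = fun v => u v * K v := by
      funext v
      ring
    rw [e]
    exact this
  -- the vector field and the rest
  obtain ⟨F, hF⟩ : ∃ F : Fin 3 → E3 → ℝ, F = fun d v => 2 * k * (u v * pd d J v) := ⟨_, rfl⟩
  have hFc : ∀ d, Cc (F d) := by
    intro d
    rw [hF]
    exact lsm_smulc _ _ (lsm_mulc u _ hus (hpJc d))
  obtain ⟨g, hg⟩ : ∃ g : E3 → ℝ, g = fun v => -k * (u v * lap J v) := ⟨_, rfl⟩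
  have hgc : Cc g := by
    rw [hg]
    exact lsm_smulc _ _ (lsm_mulc u _ hus hlJc)
  obtain ⟨P, hP⟩ : ∃ P : E3 → ℝ, P = fun v => ∑ d, pd d (F d) v := ⟨_, rfl⟩
  have hPc : Cc P := by
    rw [hP]
    exact lsm_sum _ fun d => lsm_pdc d _ (hFc d)
  have hPv : ∀ v, P v = 2 * k * (∑ d, pd d J v * pd d u v) + 2 * k * (u v * lap J v) := by
    intro v
    rw [hP]
    simp only
    have h1 : ∀ d, pd d (F d) v =
        2 * k * (pd d J v * pd d u v) + 2 * k * (u v * pd d (pd d J) v) := by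
      intro d
      have e1 : F d = fun v => 2 * k * (u v * pd d J v) := by rw [hF]
      rw [e1, lsm_pdk d _ (fun v => u v * pd d J v) (hus.mul (lsm_pds d J hJs)),
        lsm_pdm d u (pd d J) hus (lsm_pds d J hJs)]
      ring
    simp only [h1]
    rw [sum_add_distrib, ← mul_sum, ← mul_sum, ← mul_sum]
    rfl
  have hσc := lsm_addc P g hPc hgc
  -- the density of the potential `J u`
  obtain ⟨A, hA⟩ : ∃ A : E3 → ℝ, A = fun v => ρ v + -k * (-lap (fun v => K v * u v) v) := ⟨_, rfl⟩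
  have hlKu : Cc (fun v => -lap (fun v => K v * u v) v) := by
    have h1 : Cc (fun v => -1 * lap (fun v => K v * u v) v) := by
      refine lsm_smulc _ _ ?_
      exact lsm_sum _ fun d => lsm_pdc d _ (lsm_pdc d _ hKuc)
    simpa using h1
  have hAc : Cc A := by
    rw [hA]
    exact lsm_addc _ _ hρ (lsm_smulc _ _ hlKu)
  have hlapJK : ∀ v, lap (fun v => K v * u v) v = lap u v - lap (fun v => J v * u v) v := by
    intro v
    have e1 : (fun v => K v * u v) = fun v => u v + -1 * (J v * u v) := by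
      funext v
      rw [hK]
      ring
    have h2 : ∀ d, pd d (pd d (fun v => K v * u v)) v =
        pd d (pd d u) v + -1 * pd d (pd d (fun v => J v * u v)) v := by
      intro d
      have s1 : ContDiff ℝ (⊤ : ℕ∞) (fun v => J v * u v) := hJs.mul hus
      rw [e1, lsm_pda d u (fun v => -1 * (J v * u v)) hus (contDiff_const.mul s1),
        lsm_pdk d (-1) _ s1,
        lsm_pda d (pd d u) (fun v => -1 * pd d (fun v => J v * u v) v) (lsm_pds d u hus)
          (contDiff_const.mul (lsm_pds d _ s1)), lsm_pdk d (-1) _ (lsm_pds d _ s1)]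
    unfold lap
    simp only [h2]
    rw [sum_add_distrib, ← mul_sum]
    ring
  have hid : (fun v => J v * ρ v) = fun v => A v + (P v + g v) := by
    funext v
    rw [hA, hg, hPv]
    simp only
    rw [hlapJK, lsm_lapm J u hJs hus v, hlu v]
    have h1 : J v * ρ v = k * (4 * Real.pi) * (J v * ρ v) := by rw [hk1, one_mul]
    have h2 : ρ v = k * (4 * Real.pi) * ρ v := by rw [hk1, one_mul]
    nth_rw 2 [h2]
    rw [h1]
    ring
  -- the potential of `A`
  have hpA : ∀ x, pot A x = J x * u x + c := by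
    intro x
    have h1 : pot A x = pot ρ x + -k * ∫ y, (-lap (fun v => K v * u v) y) * ‖x - y‖⁻¹ := by
      unfold pot
      rw [← integral_const_mul, ← integral_add (lsm_pint ρ hρ x) ((lsm_pint _ hlKu x).const_mul _)]
      congr 1
      funext y
      rw [hA]
      ring
    rw [h1, green _ hKuc x, hK]
    have h2 : u x = pot ρ x - c := by rw [hu]
    have h3 : -k * (4 * Real.pi * ((1 - J x) * u x)) = -(k * (4 * Real.pi)) * ((1 - J x) * u x) := by
      ring
    simp only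
    rw [h3, hk1, h2]
    ring
  have hA0 : ∫ v, A v = 0 := by
    have h1 : ∫ v, lap (fun v => K v * u v) v = 0 := by
      unfold lap
      rw [integral_finsetSum _ fun d _ => lsm_int _ (lsm_pdc d _ (lsm_pdc d _ hKuc))]
      exact sum_eq_zero fun d _ => lsm_pdz d _ (lsm_pdc d _ hKuc)
    rw [hA, integral_add (lsm_int _ hρ) ((lsm_int _ hlKu).const_mul _), integral_const_mul,
      integral_neg, h1, hρ0]
    ring
  obtain ⟨G, hG⟩ : ∃ G : E3 → ℝ, G = fun v => J v * u v := ⟨_, rfl⟩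
  have hGs : ContDiff ℝ (⊤ : ℕ∞) G := by
    rw [hG]
    exact hJs.mul hus
  have hpA' : pot A = fun x => G x + c := by
    funext x
    rw [hpA, hG]
  have hDA : ∀ τ : E3 → ℝ, Cc τ → Dd τ A = (∫ v, G v * τ v) + c * ∫ v, τ v := by
    intro τ hτ
    unfold Dd
    rw [hpA', ← integral_const_mul, ← integral_add (lsm_int _ (lsm_mulc G τ hGs hτ))
      ((lsm_int _ hτ).const_mul c)]
    congr 1
    funext x
    ring
  -- the smeared potential
  obtain ⟨Φ, hΦ⟩ : ∃ Φ : E3 → ℝ, Φ = fun x => ∫ t, G t * ν (x - t) := ⟨_, rfl⟩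
  obtain ⟨hΦs, hΦd⟩ := lsm_conv G ν hGs.continuous hνc
  rw [← hΦ] at hΦs hΦd
  have hLA : ∀ τ : E3 → ℝ, Cc τ → Dl χ τ A = (∫ v, Φ v * τ v) + c * ∫ v, τ v := by
    intro τ hτ
    unfold Dl
    have h1 : ∀ x, ∫ y, A y * KL χ (x - y) = Φ x + c := by
      intro x
      rw [hνf A hAc x, hpA', hΦ]
      have h2 : (∫ t, G t * ν (x - t)) = ∫ w, ν w * G (x - w) := by
        rw [← integral_sub_left_eq_self (fun w => ν w * G (x - w)) volume x]
        congr 1
        funext t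
        rw [sub_sub_cancel]
        ring
      have h3 : Integrable (fun w => ν w * G (x - w)) := by
        refine (hνc.1.continuous.mul (hGs.continuous.comp
          (continuous_const.sub continuous_id))).integrable_of_hasCompactSupport ?_
        exact hνc.2.mul_right
      simp only
      rw [h2]
      have h4 : (fun w => ν w * (G (x - w) + c)) = fun w => ν w * G (x - w) + ν w * c := by
        funext w
        ring
      rw [h4, integral_add h3 ((lsm_int _ hνc).mul_const c), integral_mul_const, hν1, one_mul]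
    simp only [h1]
    rw [← integral_const_mul, ← integral_add (lsm_int _ (lsm_mulc Φ τ hΦs hτ))
      ((lsm_int _ hτ).const_mul c)]
    congr 1
    funext x
    ring
  -- the decomposition
  obtain ⟨σ, hσ⟩ : ∃ σ : E3 → ℝ, σ = fun v => P v + g v := ⟨_, rfl⟩
  rw [← hσ] at hσc
  have hid' : (fun v => J v * ρ v) = fun v => A v + σ v := by rw [hid, hσ]
  have hDdJ : Dd (fun v => J v * ρ v) (fun v => J v * ρ v) =
      Dd A A + 2 * Dd σ A + Dd σ σ := by
    have hc := lsm_addc A σ hAc hσc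
    rw [hid', Dd_add A σ _ hAc hσc hc, Dd_symm A _ hAc hc, Dd_symm σ _ hσc hc,
      Dd_add A σ _ hAc hσc hAc, Dd_add A σ _ hAc hσc hσc, Dd_symm A σ hAc hσc]
    ring
  have hDlJ : Dl χ (fun v => J v * ρ v) (fun v => J v * ρ v) =
      Dl χ A A + 2 * Dl χ σ A + Dl χ σ σ := by
    have hc := lsm_addc A σ hAc hσc
    rw [hid', Dl_add hχ A σ _ hAc hσc hc, Dl_symm hχ A _ hAc hc, Dl_symm hχ σ _ hσc hc,
      Dl_add hχ A σ _ hAc hσc hAc, Dl_add hχ A σ _ hAc hσc hσc, Dl_symm hχ A σ hAc hσc]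
    ring
  have hfirst : ∫ v, J v ^ 2 * (pot ρ v - c) * ρ v = Dd A A + ∫ v, G v * σ v := by
    rw [hDA A hAc, hA0, mul_zero, add_zero, ← integral_add (lsm_int _ (lsm_mulc G A hGs hAc))
      (lsm_int _ (lsm_mulc G σ hGs hσc))]
    congr 1
    funext v
    have h1 : J v * ρ v = A v + σ v := congrFun hid' v
    have h2 : G v = J v * (pot ρ v - c) := by rw [hG, hu]
    calc J v ^ 2 * (pot ρ v - c) * ρ v = G v * (J v * ρ v) := by rw [h2]; ring
      _ = G v * A v + G v * σ v := by rw [h1]; ring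
  -- the cross term
  obtain ⟨H, hH⟩ : ∃ H : Fin 3 → E3 → ℝ, H = fun d v => u v * (u v * (J v * pd d J v)) := ⟨_, rfl⟩
  have hHc : ∀ d, Cc (H d) := by
    intro d
    rw [hH]
    exact lsm_mulc u _ hus (lsm_mulc u _ hus (lsm_mulc J _ hJs (hpJc d)))
  have hHv : ∀ d v, pd d (H d) v = 2 * (J v * u v * (pd d J v * pd d u v)) +
      u v ^ 2 * pd d J v ^ 2 + J v * u v * (u v * pd d (pd d J) v) := by
    intro d v
    have e1 : H d = fun v => u v * (u v * (J v * pd d J v)) := by rw [hH]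
    have s1 := lsm_pds d J hJs
    rw [e1, lsm_pdm d u (fun v => u v * (J v * pd d J v)) hus (hus.mul (hJs.mul s1)),
      lsm_pdm d u (fun v => J v * pd d J v) hus (hJs.mul s1), lsm_pdm d J (pd d J) hJs s1]
    ring
  have hcross : ∫ v, G v * σ v = -(k * ∫ v, u v ^ 2 * ∑ d, pd d J v ^ 2) := by
    have e1 : ∀ v, G v * σ v =
        k * (∑ d, pd d (H d) v) - k * (u v ^ 2 * ∑ d, pd d J v ^ 2) := by
      intro v
      rw [hG, hσ]
      simp only
      rw [hPv, hg]
      simp only [hHv]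
      rw [sum_add_distrib, sum_add_distrib, ← mul_sum, ← mul_sum, ← mul_sum, ← mul_sum, ← mul_sum]
      have : ∑ d, pd d (pd d J) v = lap J v := rfl
      rw [this]
      ring
    simp only [e1]
    have i1 : Integrable (fun v => ∑ d, pd d (H d) v) :=
      lsm_int _ (lsm_sum _ fun d => lsm_pdc d _ (hHc d))
    have i2 : Integrable (fun v => u v ^ 2 * ∑ d, pd d J v ^ 2) := by
      refine lsm_int _ (lsm_mulc _ _ (hus.pow 2) (lsm_sum _ fun d => ?_))
      have := lsm_mulc (pd d J) (pd d J) (lsm_pds d J hJs) (hpJc d)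
      simpa [sq] using this
    rw [integral_sub (i1.const_mul k) (i2.const_mul k), integral_const_mul, integral_const_mul,
      integral_finsetSum _ fun d _ => lsm_int _ (lsm_pdc d _ (hHc d))]
    rw [sum_eq_zero fun d _ => lsm_pdz d _ (hHc d)]
    ring
  have hcross0 : ∫ v, G v * σ v ≤ 0 := by
    rw [hcross]
    have h1 : 0 ≤ ∫ v, u v ^ 2 * ∑ d, pd d J v ^ 2 :=
      integral_nonneg fun v => mul_nonneg (sq_nonneg _) (sum_nonneg fun d _ => sq_nonneg _)
    have := mul_nonneg hk0.le h1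
    linarith
  -- the square integral over `D`
  obtain ⟨S, hS⟩ : ∃ S : ℝ, S = ∫ v in D, u v ^ 2 := ⟨_, rfl⟩
  obtain ⟨U, hU⟩ : ∃ U : E3 → ℝ, U = D.indicator u := ⟨_, rfl⟩
  have hUm : Measurable U := by
    rw [hU]
    exact hus.continuous.measurable.indicator hDm
  have hS0 : 0 ≤ S := by
    rw [hS]
    exact integral_nonneg fun v => sq_nonneg _
  have hIO : IntegrableOn (fun v => u v ^ 2) D := by
    obtain ⟨R, hR⟩ := hDb.subset_closedBall (0 : E3)
    exact ((hus.continuous.pow 2).continuousOn.integrableOn_compact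
      (isCompact_closedBall (0 : E3) R)).mono_set hR
  have hUS : ∫⁻ x, ENNReal.ofReal (U x ^ 2) ≤ ENNReal.ofReal S := by
    rw [hS, ofReal_integral_eq_lintegral_ofReal hIO
      (Filter.Eventually.of_forall fun v => sq_nonneg _), ← lintegral_indicator hDm]
    refine lintegral_mono fun v => ?_
    rw [hU]
    by_cases hv : v ∈ D
    · rw [Set.indicator_of_mem hv, Set.indicator_of_mem hv]
    · rw [Set.indicator_of_notMem hv, Set.indicator_of_notMem hv]
      simp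
  have hgrJ : ∀ v, gr J v = ∑ d, pd d J v ^ 2 := fun v => rfl
  have hpg : ∀ d v, pd d J v ^ 2 ≤ gr J v := by
    intro d v
    rw [hgrJ]
    exact single_le_sum (f := fun d => pd d J v ^ 2) (fun d _ => sq_nonneg _) (mem_univ d)
  have hUu : ∀ v, v ∈ D → U v = u v := by
    intro v hv
    rw [hU, Set.indicator_of_mem hv]
  -- the convolutions
  have hcv : ∀ (f : E3 → ℝ) (_ : ∀ w, f w ≠ 0 → ‖w‖ ≤ 1) (x : E3)
      (_ : gr J x ≠ 0 ∨ lap J x ≠ 0),
      ‖∫ t, G t * f (x - t)‖ₑ ≤ ∫⁻ y, ‖U y‖ₑ * ‖f (x - y)‖ₑ := by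
    intro f hf x hx
    refine (enorm_integral_le_lintegral_enorm _).trans (lintegral_mono fun y => ?_)
    rw [enorm_mul]
    by_cases h1 : f (x - y) = 0
    · rw [h1, enorm_zero, mul_zero, mul_zero]
    · refine mul_le_mul_left ?_ _
      have h2 := hf _ h1
      rw [norm_sub_rev] at h2
      have h3 := hD y x hx h2
      rw [hUu y h3, Real.enorm_eq_ofReal_abs, Real.enorm_eq_ofReal_abs]
      refine ENNReal.ofReal_le_ofReal ?_
      rw [hG, abs_mul, abs_of_nonneg (hJ.mem y).1]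
      exact mul_le_of_le_one_left (abs_nonneg _) (hJ.mem y).2
  have hself : ∀ x, (gr J x ≠ 0 ∨ lap J x ≠ 0) → x ∈ D := fun x hx =>
    hD x x hx (by rw [sub_self, norm_zero]; exact zero_le_one)
  have hFb : ∀ d, |∫ x, F d x * pd d Φ x| ≤ 2 * k * Λ * (md d * (S + S)) := by
    intro d
    refine lsm_bd (fun w => ‖pd d ν w‖ₑ) (lsm_pdc d ν hνc).1.continuous.measurable.enorm (md d)
      (hmd0 d) (by rw [hmd]; exact lsm_mass _ (lsm_pdc d ν hνc)) U hUm S hS0 hUS (2 * k * Λ)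
      (by positivity) _ fun x => ?_
    by_cases hx : gr J x = 0
    · have h1 : pd d J x = 0 := by
        have := hpg d x
        rw [hx] at this
        nlinarith [sq_nonneg (pd d J x)]
      rw [hF]
      simp only
      rw [h1]
      simp
    · have hx' : gr J x ≠ 0 ∨ lap J x ≠ 0 := Or.inl hx
      have h1 : ‖F d x‖ₑ ≤ ENNReal.ofReal (2 * k * Λ) * ‖U x‖ₑ := by
        rw [hUu x (hself x hx'), Real.enorm_eq_ofReal_abs, Real.enorm_eq_ofReal_abs,
          ← ENNReal.ofReal_mul (by positivity)]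
        refine ENNReal.ofReal_le_ofReal ?_
        rw [hF]
        simp only
        rw [abs_mul (2 * k), abs_mul (u x), abs_of_pos (by positivity : (0 : ℝ) < 2 * k)]
        have h2 : |pd d J x| ≤ Λ := by
          rw [← sq_le_sq₀ (abs_nonneg _) hΛ0.le, sq_abs]
          calc pd d J x ^ 2 ≤ gr J x := hpg d x
            _ ≤ L := hJ.grad x
            _ ≤ Λ := hLΛ
            _ ≤ Λ ^ 2 := by nlinarith
        calc 2 * k * (|u x| * |pd d J x|) ≤ 2 * k * (|u x| * Λ) := by gcongr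
          _ = 2 * k * Λ * |u x| := by ring
      rw [enorm_mul, ← mul_assoc, hΦd]
      exact mul_le_mul' h1 (hcv _ (lsm_ext d ν hνs) x hx')
  have hgb' : ∀ x, ‖g x‖ₑ ≤ ENNReal.ofReal (k * Λ) * ‖U x‖ₑ := by
    intro x
    by_cases hx : lap J x = 0
    · rw [hg]
      simp only
      rw [hx]
      simp
    · rw [hUu x (hself x (Or.inr hx)), Real.enorm_eq_ofReal_abs, Real.enorm_eq_ofReal_abs,
        ← ENNReal.ofReal_mul (by positivity)]
      refine ENNReal.ofReal_le_ofReal ?_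
      rw [hg]
      simp only
      rw [abs_mul, abs_mul, abs_neg, abs_of_pos hk0]
      have h2 : |lap J x| ≤ Λ := (hJ.lapl x).trans hLΛ
      calc k * (|u x| * |lap J x|) ≤ k * (|u x| * Λ) := by gcongr
        _ = k * Λ * |u x| := by ring
  have hgΦ : |∫ x, g x * Φ x| ≤ k * Λ * (m0 * (S + S)) := by
    refine lsm_bd (fun w => ‖ν w‖ₑ) hνc.1.continuous.measurable.enorm m0 hm00
      (by rw [hm0]; exact lsm_mass _ hνc) U hUm S hS0 hUS (k * Λ) (by positivity) _ fun x => ?_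
    by_cases hx : lap J x = 0
    · rw [hg]
      simp only
      rw [hx]
      simp
    · rw [enorm_mul, ← mul_assoc, hΦ]
      exact mul_le_mul' (hgb' x) (hcv _ hνs x (Or.inr hx))
  have hσΦ : ∫ v, Φ v * σ v = -(∑ d, ∫ x, F d x * pd d Φ x) + ∫ x, g x * Φ x := by
    have h1 : ∫ v, Φ v * σ v = (∫ v, Φ v * P v) + ∫ v, Φ v * g v := by
      rw [← integral_add (lsm_int _ (lsm_mulc Φ P hΦs hPc)) (lsm_int _ (lsm_mulc Φ g hΦs hgc))]
      congr 1
      funext v
      rw [hσ]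
      ring
    have h2 : ∫ v, Φ v * P v = ∑ d, ∫ v, Φ v * pd d (F d) v := by
      rw [← integral_finsetSum _ fun d _ => lsm_int _ (lsm_mulc Φ _ hΦs (lsm_pdc d _ (hFc d)))]
      congr 1
      funext v
      rw [hP]
      simp only
      rw [mul_sum]
    rw [h1, h2, ← sum_neg_distrib]
    congr 1
    · refine sum_congr rfl fun d _ => ?_
      rw [ibp d Φ (F d) hΦs (hFc d)]
      congr 2
      funext v
      ring
    · congr 1
      funext v
      ring
  have hσΦb : -(((∑ d, 2 * k * Λ * (md d * 2)) + k * Λ * (m0 * 2)) * S) ≤ ∫ v, Φ v * σ v := by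
    rw [hσΦ]
    have h1 : ∑ d, ∫ x, F d x * pd d Φ x ≤ ∑ d, 2 * k * Λ * (md d * 2) * S := by
      refine sum_le_sum fun d _ => (le_abs_self _).trans ((hFb d).trans (le_of_eq ?_))
      ring
    rw [← sum_mul] at h1
    have h2 := neg_abs_le (∫ x, g x * Φ x)
    have h3 : k * Λ * (m0 * (S + S)) = k * Λ * (m0 * 2) * S := by ring
    rw [h3] at hgΦ
    rw [add_mul]
    linarith
  -- the short range energy of `σ`
  have hPP : Dd P P - Dl χ P P ≤ 8 * Real.pi * ((2 * k) ^ 2 * Λ) * S := by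
    have h0 := Dl_nonneg hχ P hPc
    have h1 := dive F hFc
    rw [← hP] at h1
    have h2 : ∫ v, ∑ d, F d v ^ 2 ≤ ((2 * k) ^ 2 * Λ) * S := by
      rw [hS, ← integral_const_mul, ← integral_indicator hDm]
      refine integral_mono ?_ ?_ fun v => ?_
      · refine lsm_int _ (lsm_sum _ fun d => ?_)
        have := lsm_mulc (F d) (F d) (hFc d).1 (hFc d)
        simpa [sq] using this
      · exact (show IntegrableOn (fun v => (2 * k) ^ 2 * Λ * u v ^ 2) D volume from
          Integrable.const_mul hIO ((2 * k) ^ 2 * Λ)).integrable_indicator hDm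
      · have e1 : ∑ d, F d v ^ 2 = (2 * k) ^ 2 * u v ^ 2 * gr J v := by
          rw [hF, hgrJ, mul_sum]
          refine sum_congr rfl fun d _ => ?_
          ring
        simp only
        rw [e1]
        by_cases hv : v ∈ D
        · rw [Set.indicator_of_mem hv]
          calc (2 * k) ^ 2 * u v ^ 2 * gr J v ≤ (2 * k) ^ 2 * u v ^ 2 * Λ :=
                mul_le_mul_of_nonneg_left ((hJ.grad v).trans hLΛ) (by positivity)
            _ = (2 * k) ^ 2 * Λ * u v ^ 2 := by ring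
        · rw [Set.indicator_of_notMem hv]
          have : gr J v = 0 := by
            by_contra h
            exact hv (hself v (Or.inl h))
          rw [this, mul_zero]
    calc Dd P P - Dl χ P P ≤ Dd P P := by linarith
      _ ≤ 8 * Real.pi * ∫ v, ∑ d, F d v ^ 2 := h1
      _ ≤ 8 * Real.pi * (((2 * k) ^ 2 * Λ) * S) := mul_le_mul_of_nonneg_left h2 (by positivity)
      _ = _ := by ring
  have hgg : Dd g g - Dl χ g g ≤ (k * Λ) ^ 2 * (mK * 2) * S := by
    obtain ⟨i1, e1⟩ := Dd_int g g hgc hgc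
    obtain ⟨i2, e2⟩ := Dl_int hχ g g hgc hgc
    have h1 : Dd g g - Dl χ g g = ∫ v : E3 × E3, g v.1 * g v.2 * KS χ (v.1 - v.2) := by
      rw [e1, e2, ← integral_sub i1 i2]
      congr 1
      funext v
      unfold KS
      ring
    rw [h1]
    have h2 : ‖∫ v : E3 × E3, g v.1 * g v.2 * KS χ (v.1 - v.2)‖ₑ ≤
        ENNReal.ofReal ((k * Λ) ^ 2 * (mK * (S + S))) := by
      refine (enorm_integral_le_lintegral_enorm _).trans ?_
      have hgm : Measurable g := hgc.1.continuous.measurable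
      have hmm : Measurable (fun v : E3 × E3 => ‖g v.1 * g v.2 * KS χ (v.1 - v.2)‖ₑ) :=
        (((hgm.comp measurable_fst).mul (hgm.comp measurable_snd)).mul (hKm.comp
          (measurable_fst.sub measurable_snd))).enorm
      rw [Measure.volume_eq_prod, lintegral_prod _ hmm.aemeasurable,
        ENNReal.ofReal_mul (by positivity)]
      refine le_trans ?_ (mul_le_mul_right (lsm_schur (fun w => ‖KS χ w‖ₑ) hKm.enorm mK hmK hKK U
        hUm S hS0 hUS) _)
      rw [← lintegral_const_mul' _ _ ENNReal.ofReal_ne_top]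
      refine lintegral_mono fun x => ?_
      rw [← mul_assoc, ← lintegral_const_mul' _ _ (ENNReal.mul_ne_top ENNReal.ofReal_ne_top
        enorm_ne_top)]
      refine lintegral_mono fun y => ?_
      simp only
      rw [enorm_mul, enorm_mul]
      have h3 : ENNReal.ofReal ((k * Λ) ^ 2) = ENNReal.ofReal (k * Λ) * ENNReal.ofReal (k * Λ) := by
        rw [← ENNReal.ofReal_mul (by positivity), sq]
      rw [h3]
      calc ‖g x‖ₑ * ‖g y‖ₑ * ‖KS χ (x - y)‖ₑ ≤ (ENNReal.ofReal (k * Λ) * ‖U x‖ₑ) *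
            (ENNReal.ofReal (k * Λ) * ‖U y‖ₑ) * ‖KS χ (x - y)‖ₑ :=
            mul_le_mul' (mul_le_mul' (hgb' x) (hgb' y)) le_rfl
        _ = _ := by ring
    rw [Real.enorm_eq_ofReal_abs, ENNReal.ofReal_le_ofReal_iff (by positivity)] at h2
    refine (le_abs_self _).trans (h2.trans (le_of_eq ?_))
    ring
  have hpar := lsm_par hχ P g hPc hgc
  rw [← hσ] at hpar
  have hAA := Dl_nonneg hχ A hAc
  have eB : (∫ v in D, (pot ρ v - c) ^ 2) = S := by
    rw [hS, hu]
  rw [eB, hfirst, hDdJ, hDlJ, hDA σ hσc, hLA σ hσc]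
  have hfin : (2 * ((∑ d, 2 * k * Λ * (md d * 2)) + k * Λ * (m0 * 2)) +
      (2 * (8 * Real.pi * ((2 * k) ^ 2 * Λ)) + 2 * ((k * Λ) ^ 2 * (mK * 2)))) * S =
      2 * (((∑ d, 2 * k * Λ * (md d * 2)) + k * Λ * (m0 * 2)) * S) +
        (2 * (8 * Real.pi * ((2 * k) ^ 2 * Λ) * S) + 2 * ((k * Λ) ^ 2 * (mK * 2) * S)) := by ring
  rw [hfin]
  linarith

end H6.CL
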